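import Pool.Agent.Lib.MP_6c3d62_pr.NoCycle

/-! Ratios of principal minors of `1 - P` and the energy of test functions. -/

open Finset Matrix

set_option linter.unusedSectionVars false
set_option linter.style.haveILetI false

namespace Pool.Agent.Stirring.NoCyc

variable {V : Type*} [Fintype V] [DecidableEq V]

/-- The determinant `det (1 - P_S)`. -/
noncomputable def dS (P : Matrix V V ℝ) (S : Set V) : ℝ := (1 - projM S * P).det

theorem dS_diff_eq (P : Matrix V V ℝ) {S : Set V} {x : V} :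
    dS P (S \ {x}) = (adjugate (1 - projM S * P)) x x := by
  rw [Matrix.adjugate_apply, dS]
  congr 1
  ext i j
  rw [Matrix.updateRow_apply]
  by_cases hi : i = x
  · subst hi
    rw [if_pos rfl, Matrix.sub_apply, projM_mul_apply, Set.indicator_of_notMem (by simp), zero_mul,
      sub_zero, Matrix.one_apply, Pi.single_apply]
    simp [eq_comm]
  · rw [if_neg hi, Matrix.sub_apply, Matrix.sub_apply, projM_mul_apply, projM_mul_apply]
    congr 2
    by_cases hS : i ∈ S
    · rw [Set.indicator_of_mem hS, Set.indicator_of_mem (by exact ⟨hS, hi⟩)]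
    · rw [Set.indicator_of_notMem hS, Set.indicator_of_notMem (fun h => hS h.1)]

/-- The column of the adjugate. -/
noncomputable def adjCol (P : Matrix V V ℝ) (S : Set V) (x : V) : V → ℝ :=
  (adjugate (1 - projM S * P)).mulVec (Pi.single x 1)

theorem adjCol_self (P : Matrix V V ℝ) (S : Set V) (x : V) :
    adjCol P S x x = dS P (S \ {x}) := by
  rw [dS_diff_eq, adjCol, Matrix.mulVec_single_one, Matrix.col_apply]

theorem mulVec_adjCol (P : Matrix V V ℝ) (S : Set V) (x : V) :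
    (1 - projM S * P).mulVec (adjCol P S x) = dS P S • Pi.single x (1 : ℝ) := by
  rw [adjCol, Matrix.mulVec_mulVec, Matrix.mul_adjugate, Matrix.smul_mulVec, Matrix.one_mulVec]
  rfl

theorem adjCol_apply (P : Matrix V V ℝ) (S : Set V) (x y : V) :
    adjCol P S x y = S.indicator (fun _ => (1 : ℝ)) y * P.mulVec (adjCol P S x) y +
      dS P S * (Pi.single x (1 : ℝ) : V → ℝ) y := by
  have h := congrFun (mulVec_adjCol P S x) y
  rw [Matrix.sub_mulVec, Matrix.one_mulVec, ← Matrix.mulVec_mulVec, Pi.sub_apply, projM_mulVec,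
    Pi.smul_apply, smul_eq_mul] at h
  linarith

theorem adjCol_eq_zero (P : Matrix V V ℝ) {S : Set V} {x y : V} (hx : x ∈ S) (hy : y ∉ S) :
    adjCol P S x y = 0 := by
  have hne : y ≠ x := fun h => hy (h ▸ hx)
  rw [adjCol_apply, Set.indicator_of_notMem hy, Pi.single_eq_of_ne hne]; ring

theorem dotProduct_adjCol (P : Matrix V V ℝ) {S : Set V} {x : V} {f : V → ℝ}
    (hf : ∀ y, y ∉ S → f y = 0) :
    f ⬝ᵥ (1 - P).mulVec (adjCol P S x) = dS P S * f x := by
  have h : ∀ y, f y * ((1 - P).mulVec (adjCol P S x)) y =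
      f y * (dS P S * (Pi.single x (1 : ℝ) : V → ℝ) y) := by
    intro y
    by_cases hy : y ∈ S
    · congr 1
      have := adjCol_apply P S x y
      rw [Set.indicator_of_mem hy] at this
      rw [Matrix.sub_mulVec, Matrix.one_mulVec, Pi.sub_apply]
      linarith
    · rw [hf y hy]; ring
  unfold dotProduct
  rw [Finset.sum_congr rfl fun y _ => h y, Finset.sum_eq_single x]
  · rw [Pi.single_eq_same]; ring
  · intro b _ hb; rw [Pi.single_eq_of_ne hb]; ring
  · intro hx; exact absurd (Finset.mem_univ _) hx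

theorem cauchy_form {B : Matrix V V ℝ} (hB : B.IsSymm) (hpos : ∀ f : V → ℝ, 0 ≤ f ⬝ᵥ B.mulVec f)
    (f h : V → ℝ) : (f ⬝ᵥ B.mulVec h) ^ 2 ≤ (f ⬝ᵥ B.mulVec f) * (h ⬝ᵥ B.mulVec h) := by
  have hsym : h ⬝ᵥ B.mulVec f = f ⬝ᵥ B.mulVec h := by
    rw [Matrix.dotProduct_mulVec, ← Matrix.mulVec_transpose, hB.eq, dotProduct_comm]
  have key : ∀ s : ℝ, 0 ≤ (h ⬝ᵥ B.mulVec h) * (s * s) + (2 * (f ⬝ᵥ B.mulVec h)) * s +
      (f ⬝ᵥ B.mulVec f) := by
    intro s
    have := hpos (f + s • h)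
    rw [Matrix.mulVec_add, Matrix.mulVec_smul, add_dotProduct, dotProduct_add, dotProduct_add,
      dotProduct_smul, smul_dotProduct, smul_dotProduct, dotProduct_smul, hsym] at this
    simp only [smul_eq_mul] at this
    linarith
  have := discrim_le_zero key
  rw [discrim] at this
  nlinarith

theorem dS_le {P : Matrix V V ℝ} (hP : P.IsSymm) (hpos : ∀ f : V → ℝ, 0 ≤ f ⬝ᵥ (1 - P).mulVec f)
    {S : Set V} {x : V} (hx : x ∈ S) (h0 : 0 ≤ dS P S) (h1 : 0 ≤ dS P (S \ {x}))
    {f : V → ℝ} (hf : ∀ y, y ∉ S → f y = 0) (hfx : f x = 1) :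
    dS P S ≤ (f ⬝ᵥ (1 - P).mulVec f) * dS P (S \ {x}) := by
  have hB : (1 - P).IsSymm := by
    rw [Matrix.IsSymm, Matrix.transpose_sub, Matrix.transpose_one, hP.eq]
  have hc := cauchy_form hB hpos f (adjCol P S x)
  rw [dotProduct_adjCol P hf, hfx, mul_one,
    dotProduct_adjCol P (fun y hy => adjCol_eq_zero P hx hy), adjCol_self] at hc
  rcases h0.eq_or_lt with h | h
  · rw [← h]
    exact mul_nonneg (hpos f) h1
  · have : dS P S * dS P S ≤ dS P S * ((f ⬝ᵥ (1 - P).mulVec f) * dS P (S \ {x})) := by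
      nlinarith
    exact le_of_mul_le_mul_left this h

theorem dS_ge {P : Matrix V V ℝ} {S : Set V} {x : V} (hx : x ∈ S) (h0 : 0 ≤ dS P S)
    (h1 : 0 ≤ dS P (S \ {x})) {K : ℝ} (hK : 0 ≤ K)
    (hKf : ∀ f : V → ℝ, (∀ y, y ∉ S → f y = 0) → f x ^ 2 ≤ K * (f ⬝ᵥ (1 - P).mulVec f)) :
    dS P (S \ {x}) ≤ K * dS P S := by
  have h := hKf (adjCol P S x) (fun y hy => adjCol_eq_zero P hx hy)
  rw [dotProduct_adjCol P (fun y hy => adjCol_eq_zero P hx hy), adjCol_self] at h
  rcases h1.eq_or_lt with h2 | h2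
  · rw [← h2]; positivity
  · have : dS P (S \ {x}) * dS P (S \ {x}) ≤ dS P (S \ {x}) * (K * dS P S) := by nlinarith
    exact le_of_mul_le_mul_left this h2

theorem dS_ne_zero {P : Matrix V V ℝ} {S : Set V}
    (h : ∀ f : V → ℝ, (∀ y, y ∉ S → f y = 0) → f ⬝ᵥ (1 - P).mulVec f = 0 → f = 0) :
    dS P S ≠ 0 := by
  intro h0
  obtain ⟨v, hv, hv0⟩ := Matrix.exists_mulVec_eq_zero_iff.mpr h0
  refine hv (h v ?_ ?_)
  · intro y hy
    have := congrFun hv0 y
    rw [Matrix.sub_mulVec, Matrix.one_mulVec, ← Matrix.mulVec_mulVec, Pi.sub_apply, projM_mulVec,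
      Set.indicator_of_notMem hy, Pi.zero_apply] at this
    linarith
  · unfold dotProduct
    refine Finset.sum_eq_zero fun y _ => ?_
    have h1 := congrFun hv0 y
    rw [Matrix.sub_mulVec, Matrix.one_mulVec, ← Matrix.mulVec_mulVec, Pi.sub_apply, projM_mulVec,
      Pi.zero_apply] at h1
    by_cases hy : y ∈ S
    · rw [Set.indicator_of_mem hy, one_mul] at h1
      rw [Matrix.sub_mulVec, Matrix.one_mulVec, Pi.sub_apply, h1, mul_zero]
    · rw [Set.indicator_of_notMem hy] at h1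
      have : v y = 0 := by linarith
      rw [this, zero_mul]

end Pool.Agent.Stirring.NoCyc
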