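import Pool.Agent.Lib.MP_6c3d62_pr.Mg.G088

/-! Tent test functions and the lower bound for the return probability on the torus. -/

open Finset

set_option linter.unusedSectionVars false

namespace Pool.Agent.Stirring

section Tent

variable {L : ℕ} [NeZero L]

/-- The tent function. -/
def tent (L m : ℕ) (a : ZMod L) : ℝ := ((min a.val (2 * m - a.val) : ℕ) : ℝ)

theorem tent_nonneg (m : ℕ) (a : ZMod L) : 0 ≤ tent L m a := Nat.cast_nonneg _

theorem tent_eq_zero {m : ℕ} {a : ZMod L} (h : 2 * m ≤ a.val) : tent L m a = 0 := by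
  unfold tent
  rw [Nat.sub_eq_zero_of_le h]; simp

theorem sum_sq_range_ge (m : ℕ) : (m : ℝ) ^ 3 / 3 ≤ ∑ i ∈ Finset.range (m + 1), (i : ℝ) ^ 2 := by
  induction m with
  | zero => simp
  | succ m ih =>
    rw [Finset.sum_range_succ]
    push_cast
    have : (0 : ℝ) ≤ m := Nat.cast_nonneg m
    nlinarith

theorem tent_sum_sq_ge {m : ℕ} (hm : 2 * m < L) :
    (m : ℝ) ^ 3 / 3 ≤ ∑ a : ZMod L, tent L m a ^ 2 := by
  refine (sum_sq_range_ge m).trans ?_
  have hinj : Set.InjOn (fun i : ℕ => ((i : ℕ) : ZMod L)) (Finset.range (m + 1)) := by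
    intro i hi i' hi' h
    simp only [Finset.coe_range, Set.mem_Iio] at hi hi'
    have h2 := congrArg ZMod.val h
    simp only at h2
    rwa [ZMod.val_natCast_of_lt (by omega), ZMod.val_natCast_of_lt (by omega)] at h2
  have h1 : ∀ i ∈ Finset.range (m + 1), (i : ℝ) ^ 2 = tent L m ((i : ℕ) : ZMod L) ^ 2 := by
    intro i hi
    rw [Finset.mem_range] at hi
    unfold tent
    rw [ZMod.val_natCast_of_lt (by omega)]
    have : min i (2 * m - i) = i := by omega
    rw [this]
  rw [Finset.sum_congr rfl h1, ← Finset.sum_image (f := fun a : ZMod L => tent L m a ^ 2) hinj]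
  exact Finset.sum_le_sum_of_subset_of_nonneg (Finset.subset_univ _) fun _ _ _ => sq_nonneg _

theorem card_val_lt_le (n : ℕ) : (Finset.univ.filter fun a : ZMod L => a.val < n).card ≤ n := by
  have := Finset.card_le_card_of_injOn (s := Finset.univ.filter fun a : ZMod L => a.val < n)
    (t := Finset.range n) (fun a : ZMod L => a.val) (by
      intro a ha
      simpa using (Finset.mem_filter.mp ha).2) (fun a _ b _ h => ZMod.val_injective L h)
  rwa [Finset.card_range] at this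

theorem tent_energy_le {m : ℕ} (hm : 2 * m < L) :
    ∑ a : ZMod L, (tent L m a - tent L m (a + 1)) ^ 2 ≤ 2 * m := by
  have h1 : ∀ a : ZMod L, (tent L m a - tent L m (a + 1)) ^ 2 ≤ if a.val < 2 * m then 1 else 0 := by
    intro a
    by_cases ha : a.val < 2 * m
    · rw [if_pos ha]
      have hval : (a + 1).val = a.val + 1 := by
        have h2 : a + 1 = ((a.val + 1 : ℕ) : ZMod L) := by simp
        rw [h2, ZMod.val_natCast_of_lt (by omega)]
      unfold tent
      rw [hval]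
      have h3 : (min a.val (2 * m - a.val) : ℕ) ≤ min (a.val + 1) (2 * m - (a.val + 1)) + 1 := by omega
      have h4 : (min (a.val + 1) (2 * m - (a.val + 1)) : ℕ) ≤ min a.val (2 * m - a.val) + 1 := by omega
      have h3' : ((min a.val (2 * m - a.val) : ℕ) : ℝ) ≤
          ((min (a.val + 1) (2 * m - (a.val + 1)) : ℕ) : ℝ) + 1 := by exact_mod_cast h3
      have h4' : ((min (a.val + 1) (2 * m - (a.val + 1)) : ℕ) : ℝ) ≤
          ((min a.val (2 * m - a.val) : ℕ) : ℝ) + 1 := by exact_mod_cast h4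
      rw [sq_le_one_iff_abs_le_one, abs_le]
      constructor <;> linarith
    · rw [if_neg ha]
      have h5 : tent L m a = 0 := tent_eq_zero (by omega)
      have h6 : tent L m (a + 1) = 0 := by
        by_cases h7 : a.val + 1 < L
        · have hval : (a + 1).val = a.val + 1 := by
            have h2 : a + 1 = ((a.val + 1 : ℕ) : ZMod L) := by simp
            rw [h2, ZMod.val_natCast_of_lt h7]
          exact tent_eq_zero (by omega)
        · have h8 : a.val + 1 = L := by have := ZMod.val_lt a; omega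
          have h2 : a + 1 = 0 := by
            have h9 : a + 1 = ((a.val + 1 : ℕ) : ZMod L) := by simp
            rw [h9, h8]; simp
          rw [h2]; simp [tent]
      rw [h5, h6]; simp
  refine (Finset.sum_le_sum fun a _ => h1 a).trans ?_
  rw [← Finset.sum_filter, Finset.sum_const, nsmul_eq_mul, mul_one]
  exact_mod_cast card_val_lt_le (L := L) (2 * m)

theorem tent_sum_sq_le (m : ℕ) :
    (∑ a : ZMod L, tent L m a) ^ 2 ≤ 2 * m * ∑ a : ZMod L, tent L m a ^ 2 := by
  have h1 : ∑ a : ZMod L, tent L m a = ∑ a : ZMod L with a.val < 2 * m, tent L m a := by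
    rw [Finset.sum_filter]
    refine Finset.sum_congr rfl fun a _ => ?_
    by_cases h : a.val < 2 * m
    · rw [if_pos h]
    · rw [if_neg h, tent_eq_zero (by omega)]
  rw [h1]
  refine sq_sum_le_card_mul_sum_sq.trans ?_
  have h2 : ((Finset.univ.filter fun a : ZMod L => a.val < 2 * m).card : ℝ) ≤ 2 * m := by
    exact_mod_cast card_val_lt_le (L := L) (2 * m)
  have h3 : ∑ a : ZMod L with a.val < 2 * m, tent L m a ^ 2 ≤ ∑ a : ZMod L, tent L m a ^ 2 :=
    Finset.sum_le_sum_of_subset_of_nonneg (Finset.filter_subset _ _) fun _ _ _ => sq_nonneg _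
  exact mul_le_mul h2 h3 (Finset.sum_nonneg fun _ _ => sq_nonneg _) (by positivity)

end Tent

section Torus

variable {d L : ℕ} [NeZero L]

theorem sum_prod_pi (h : Fin d → ZMod L → ℝ) :
    ∑ x : Fin d → ZMod L, ∏ i, h i (x i) = ∏ i, ∑ a, h i a := by
  rw [Finset.prod_univ_sum, Fintype.piFinset_univ]

theorem prod_split (F : Fin d → ℝ) (i : Fin d) : ∏ j, F j = F i * ∏ j ∈ Finset.univ.erase i, F j :=
  (Finset.mul_prod_erase Finset.univ F (Finset.mem_univ i)).symm

theorem return_torus (hL : 2 ≤ L) {t : ℝ} (ht : 0 ≤ t) {m : ℕ} (hm0 : 1 ≤ m) (hm : 2 * m < L)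
    (x₀ : Fin d → ZMod L) :
    ((2 * m : ℝ) ^ d)⁻¹ * Real.exp (-(6 * d * t / m ^ 2)) ≤
      expect d L t (fun σ => if σ x₀ = x₀ then (1 : ℝ) else 0) := by
  set p : ℝ := expect d L t (fun σ => if σ x₀ = x₀ then (1 : ℝ) else 0) with hp
  set S2 : ℝ := ∑ a : ZMod L, tent L m a ^ 2 with hS2
  set S1 : ℝ := ∑ a : ZMod L, tent L m a with hS1
  set E1 : ℝ := ∑ a : ZMod L, (tent L m a - tent L m (a + 1)) ^ 2 with hE1
  have hmpos : (0 : ℝ) < m := by exact_mod_cast hm0
  have hS2ge : (m : ℝ) ^ 3 / 3 ≤ S2 := tent_sum_sq_ge hm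
  have hS2pos : 0 < S2 := lt_of_lt_of_le (by positivity) hS2ge
  have hE1le : E1 ≤ 2 * m := tent_energy_le hm
  have hS1le : S1 ^ 2 ≤ 2 * m * S2 := tent_sum_sq_le m
  set φ : (Fin d → ZMod L) → ℝ := fun x => ∏ i, tent L m (x i) with hφ
  have hφ0 : ∀ x, 0 ≤ φ x := fun x => Finset.prod_nonneg fun i _ => tent_nonneg m _
  have hsum : ∑ x, φ x = S1 ^ d := by
    rw [hφ, sum_prod_pi (fun _ a => tent L m a), Finset.prod_const, Finset.card_univ,
      Fintype.card_fin]
  have hsumsq : ∑ x, φ x ^ 2 = S2 ^ d := by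
    have : ∀ x, φ x ^ 2 = ∏ i, tent L m (x i) ^ 2 := fun x => by
      rw [hφ]; simp only; rw [Finset.prod_pow]
    rw [Finset.sum_congr rfl fun x _ => this x, sum_prod_pi (fun _ a => tent L m a ^ 2),
      Finset.prod_const, Finset.card_univ, Fintype.card_fin]
  have hen : ∑ e : (Fin d → ZMod L) × Fin d, t * (φ e.1 - φ (e.1 + Pi.single e.2 1)) ^ 2 =
      t * (d * (E1 * S2 ^ (d - 1))) := by
    rw [← Finset.mul_sum, Fintype.sum_prod_type, Finset.sum_comm]
    congr 1
    have h1 : ∀ i ∈ (Finset.univ : Finset (Fin d)),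
        ∑ x : Fin d → ZMod L, (φ x - φ (x + Pi.single i 1)) ^ 2 = E1 * S2 ^ (d - 1) := by
      intro i _
      have h2 : ∀ x : Fin d → ZMod L, (φ x - φ (x + Pi.single i 1)) ^ 2 =
          ∏ j, (if j = i then (tent L m (x j) - tent L m (x j + 1)) ^ 2 else tent L m (x j) ^ 2) := by
        intro x
        rw [← Finset.mul_prod_erase Finset.univ _ (Finset.mem_univ i), if_pos rfl]
        rw [Finset.prod_congr rfl (g := fun j => tent L m (x j) ^ 2)
          fun j hj => if_neg (Finset.ne_of_mem_erase hj), Finset.prod_pow, ← mul_pow]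
        congr 1
        have e1 : φ x = tent L m (x i) * ∏ j ∈ Finset.univ.erase i, tent L m (x j) :=
          prod_split (fun j => tent L m (x j)) i
        have e2 : φ (x + Pi.single i 1) =
            tent L m (x i + 1) * ∏ j ∈ Finset.univ.erase i, tent L m (x j) := by
          have h4 := prod_split (fun j => tent L m ((x + Pi.single i 1 : Fin d → ZMod L) j)) i
          have h3 : ∏ j ∈ Finset.univ.erase i, tent L m ((x + Pi.single i 1 : Fin d → ZMod L) j) =
              ∏ j ∈ Finset.univ.erase i, tent L m (x j) := by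
            refine Finset.prod_congr rfl fun j hj => ?_
            rw [Pi.add_apply, Pi.single_eq_of_ne (Finset.ne_of_mem_erase hj), add_zero]
          rw [h3, Pi.add_apply, Pi.single_eq_same] at h4
          exact h4
        rw [e1, e2]; ring
      rw [Finset.sum_congr rfl fun x _ => h2 x,
        sum_prod_pi (fun j a => if j = i then (tent L m a - tent L m (a + 1)) ^ 2
          else tent L m a ^ 2)]
      rw [← Finset.mul_prod_erase Finset.univ _ (Finset.mem_univ i)]
      simp only [if_true]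
      congr 1
      rw [Finset.prod_congr rfl (g := fun _ => S2) fun j hj => by
        simp only [if_neg (Finset.ne_of_mem_erase hj)]; rfl,
        Finset.prod_const, Finset.card_erase_of_mem (Finset.mem_univ _), Finset.card_univ,
        Fintype.card_fin]
    rw [Finset.sum_congr rfl h1, Finset.sum_const, Finset.card_univ, Fintype.card_fin, nsmul_eq_mul]
  have hret : ∀ x, E (fun _ : (Fin d → ZMod L) × Fin d => t) (edgeSwap d L)
      (fun σ => if x = σ x then (1 : ℝ) else 0) = p := by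
    intro x
    rw [← expect_eq]
    have h1 := expect_trans t (x - x₀) (fun σ : Equiv.Perm (Fin d → ZMod L) =>
      if x = σ x then (1 : ℝ) else 0)
    rw [h1, hp]
    congr 1
    funext σ
    have h2 : (trans d L (x - x₀))⁻¹ x = x₀ := by
      have h3 : trans d L (x - x₀) x₀ = x := by simp [trans]
      exact Equiv.Perm.inv_eq_iff_eq.mpr h3.symm
    refine if_congr ?_ rfl rfl
    rw [Equiv.Perm.mul_apply, Equiv.Perm.mul_apply, h2]
    have h3 : trans d L (x - x₀) x₀ = x := by simp [trans]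
    constructor
    · intro h4
      have h5 : trans d L (x - x₀) x₀ = trans d L (x - x₀) (σ x₀) := by rw [h3]; exact h4
      exact ((trans d L (x - x₀)).injective h5).symm
    · intro h4
      rw [h4, h3]
  have key := return_ge (fun _ : (Fin d → ZMod L) × Fin d => t) (edgeSwap d L)
    (fun e => e.1) (fun e => e.1 + Pi.single e.2 1) (fun e => rfl) (fun e => edge_ne hL e.1 e.2)
    p hret φ hφ0 (by rw [hsumsq]; positivity)
  rw [hsumsq, hsum, hen] at key
  have hp0 : 0 ≤ p := by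
    rw [hp, expect_eq]
    exact E_nonneg (fun _ => ht) _ fun σ => by split_ifs <;> norm_num
  have hb1 : p * (S1 ^ d) ^ 2 ≤ p * ((2 * m) ^ d * S2 ^ d) := by
    refine mul_le_mul_of_nonneg_left ?_ hp0
    calc (S1 ^ d) ^ 2 = (S1 ^ 2) ^ d := by rw [← pow_mul, ← pow_mul, mul_comm]
      _ ≤ (2 * m * S2) ^ d := pow_le_pow_left₀ (sq_nonneg _) hS1le d
      _ = _ := mul_pow _ _ _
  have hb2 : Real.exp (-(6 * d * t / m ^ 2)) ≤
      Real.exp (-(t * (d * (E1 * S2 ^ (d - 1)))) / S2 ^ d) := by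
    refine Real.exp_le_exp.mpr ?_
    rw [neg_div, neg_le_neg_iff]
    rcases Nat.eq_zero_or_pos d with hd0 | hd0
    · subst hd0; simp
    obtain ⟨d', rfl⟩ : ∃ d', d = d' + 1 := ⟨d - 1, by omega⟩
    simp only [Nat.add_sub_cancel]
    rw [div_le_div_iff₀ (by positivity) (by positivity), pow_succ S2 d']
    have h1 : E1 * (m : ℝ) ^ 2 ≤ 6 * S2 := by
      have h2 : E1 * (m : ℝ) ^ 2 ≤ 2 * m * (m : ℝ) ^ 2 :=
        mul_le_mul_of_nonneg_right hE1le (by positivity)
      have h3 : 2 * m * (m : ℝ) ^ 2 = 6 * ((m : ℝ) ^ 3 / 3) := by ring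
      linarith
    have h4 : 0 ≤ t * ((d' + 1 : ℕ) : ℝ) * S2 ^ d' := by positivity
    calc t * (((d' + 1 : ℕ) : ℝ) * (E1 * S2 ^ d')) * (m : ℝ) ^ 2
        = t * ((d' + 1 : ℕ) : ℝ) * S2 ^ d' * (E1 * (m : ℝ) ^ 2) := by ring
      _ ≤ t * ((d' + 1 : ℕ) : ℝ) * S2 ^ d' * (6 * S2) := mul_le_mul_of_nonneg_left h1 h4
      _ = _ := by ring
  have h5 : S2 ^ d * Real.exp (-(6 * d * t / m ^ 2)) ≤ p * ((2 * m) ^ d * S2 ^ d) :=
    (mul_le_mul_of_nonneg_left hb2 (by positivity)).trans (key.trans hb1)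
  have h6 : Real.exp (-(6 * d * t / m ^ 2)) ≤ p * (2 * m) ^ d := by
    have h7 : 0 < S2 ^ d := by positivity
    have h8 : S2 ^ d * Real.exp (-(6 * d * t / m ^ 2)) ≤ S2 ^ d * (p * (2 * m) ^ d) := by
      calc _ ≤ p * ((2 * m) ^ d * S2 ^ d) := h5
        _ = _ := by ring
    exact le_of_mul_le_mul_left h8 h7
  rw [inv_mul_le_iff₀ (by positivity), mul_comm _ p]
  exact h6

/-- Return probability lower bound with explicit constant. -/
theorem return_torus_asymp (hL : 3 ≤ L) {t : ℝ} (ht : 2 ≤ t) (htL : t ≤ (L : ℝ) ^ 2)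
    (x₀ : Fin d → ZMod L) :
    ((2 : ℝ) ^ d)⁻¹ * Real.exp (-(216 * d)) * t ^ (-((d : ℝ) / 2)) ≤
      expect d L t (fun σ => if σ x₀ = x₀ then (1 : ℝ) else 0) := by
  have ht0 : 0 < t := by linarith
  set r := Real.sqrt t with hr
  have hr0 : 0 < r := Real.sqrt_pos.mpr ht0
  have hr2 : r ^ 2 = t := Real.sq_sqrt ht0.le
  have hLr : (3 : ℝ) ≤ L := by exact_mod_cast hL
  have hrL : r ≤ L := by
    have h1 : r ^ 2 ≤ (L : ℝ) ^ 2 := by rw [hr2]; exact htL
    exact (pow_le_pow_iff_left₀ hr0.le (by linarith) two_ne_zero).mp h1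
  obtain ⟨m, hm1, hm2, hm3, hm4⟩ : ∃ m : ℕ, 1 ≤ m ∧ 2 * m < L ∧ r ≤ 6 * m ∧ (m : ℝ) ≤ r := by
    by_cases h3 : r < 3
    · refine ⟨1, le_refl _, by omega, by push_cast; linarith, ?_⟩
      push_cast
      nlinarith
    · push Not at h3
      refine ⟨⌊r / 3⌋₊, Nat.le_floor (by push_cast; linarith), ?_, ?_, ?_⟩
      · have h4 : ((⌊r / 3⌋₊ : ℕ) : ℝ) ≤ r / 3 := Nat.floor_le (by positivity)
        have h5 : (2 : ℝ) * ((⌊r / 3⌋₊ : ℕ) : ℝ) < L := by linarith
        exact_mod_cast h5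
      · have h4 : r / 3 < ((⌊r / 3⌋₊ : ℕ) : ℝ) + 1 := Nat.lt_floor_add_one _
        have h5 : (1 : ℝ) ≤ ((⌊r / 3⌋₊ : ℕ) : ℝ) := by
          exact_mod_cast Nat.le_floor (show ((1 : ℕ) : ℝ) ≤ r / 3 by push_cast; linarith)
        linarith
      · have h4 : ((⌊r / 3⌋₊ : ℕ) : ℝ) ≤ r / 3 := Nat.floor_le (by positivity)
        linarith
  have hmpos : (0 : ℝ) < m := by exact_mod_cast hm1
  refine le_trans ?_ (return_torus (by omega) ht0.le hm1 hm2 x₀)
  have h1 : Real.exp (-(216 * d)) ≤ Real.exp (-(6 * d * t / m ^ 2)) := by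
    refine Real.exp_le_exp.mpr (neg_le_neg ?_)
    rw [div_le_iff₀ (by positivity)]
    have h2 : t ≤ 36 * (m : ℝ) ^ 2 := by
      rw [← hr2]
      calc r ^ 2 ≤ (6 * m) ^ 2 := pow_le_pow_left₀ hr0.le hm3 2
        _ = _ := by ring
    have h3 : (0 : ℝ) ≤ 6 * d := by positivity
    calc 6 * d * t ≤ 6 * d * (36 * (m : ℝ) ^ 2) := mul_le_mul_of_nonneg_left h2 h3
      _ = _ := by ring
  have h2 : t ^ (-((d : ℝ) / 2)) = (r ^ d)⁻¹ := by
    rw [Real.rpow_neg ht0.le, hr, Real.sqrt_eq_rpow, ← Real.rpow_natCast, ← Real.rpow_mul ht0.le]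
    congr 2; ring
  rw [h2]
  have h3 : (r ^ d)⁻¹ ≤ ((m : ℝ) ^ d)⁻¹ :=
    inv_anti₀ (by positivity) (pow_le_pow_left₀ hmpos.le hm4 d)
  rw [mul_pow, mul_inv]
  calc ((2 : ℝ) ^ d)⁻¹ * Real.exp (-(216 * d)) * (r ^ d)⁻¹
      ≤ ((2 : ℝ) ^ d)⁻¹ * Real.exp (-(6 * d * t / m ^ 2)) * ((m : ℝ) ^ d)⁻¹ := by
        refine mul_le_mul (mul_le_mul_of_nonneg_left h1 (by positivity)) h3 (by positivity)
          (by positivity)
    _ = _ := by ring

end Torus

end Pool.Agent.Stirring
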