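import Pool.Agent.Lib.MP_6c3d62_pr.Mg.G088
import Pool.Agent.Lib.MP_6c3d62_pr.Tent

/-!
# The density of cycles of random stirring on the torus is of exact order `t ^ (-d/2)`

For random stirring `η_L(t)` on the torus `(ℤ/L)^d` started from the identity, the expected number of
cycles per vertex is between two constants times `t ^ (-d/2)` for `2 ≤ t ≤ L ^ 2` (up to the term
`log L / L ^ d` in the upper bound, which is of smaller order unless `t` is within a logarithmic factor
of `L ^ 2`), and the number of cycles has exponential tails. Here `expect d L t f` is the expectation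
of `f (η_L(t))`, `cyc σ x` the set of vertices in the cycle of `σ` through `x` and `numCycles σ` the
number of cycles of `σ`, fixed points included.

The upper bound comes from the exponential moment `E 2 ^ N`, which is the total trace of the heat kernel
of the symmetric exclusion process: the generator is compared with a hierarchy of complete graph
generators on nested boxes, one scale for each power of `2`.
-/

set_option autoImplicit false

namespace Pool.Agent.Lib.MP_6c3d62_pr.CycleDensityThm

open Pool.Agent.Stirring

/-- Two-sided bounds for the density of cycles, bounds for the length of the cycle through a vertex,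
and exponential tails for the number of cycles. -/
theorem result (d : ℕ) (hd : 1 ≤ d) :
    ∃ c C : ℝ, 0 < c ∧ 0 < C ∧ ∀ (L : ℕ) [NeZero L], 3 ≤ L → ∀ t : ℝ, 2 ≤ t →
      (∀ x : Fin d → ZMod L,
        (t ≤ (L : ℝ) ^ 2 →
          c * t ^ (-((d : ℝ) / 2)) ≤ expect d L t (fun σ => ((cyc σ x).card : ℝ)⁻¹)) ∧
        expect d L t (fun σ => ((cyc σ x).card : ℝ)⁻¹) ≤
          C * (t ^ (-((d : ℝ) / 2)) + Real.log L / (L : ℝ) ^ d) ∧
        ∀ K : ℕ, expect d L t (fun σ => if (cyc σ x).card ≤ K then (1 : ℝ) else 0) ≤
          C * K * (t ^ (-((d : ℝ) / 2)) + Real.log L / (L : ℝ) ^ d)) ∧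
      ∀ s : ℝ, expect d L t (fun σ =>
        if C * ((L : ℝ) ^ d * t ^ (-((d : ℝ) / 2)) + Real.log L) + s ≤ (numCycles σ : ℝ)
          then (1 : ℝ) else 0) ≤ (2 : ℝ) ^ (-s) := by
  refine ⟨((2 : ℝ) ^ d)⁻¹ * Real.exp (-(216 * d)), cf d, by positivity, cf_pos hd, ?_⟩
  intro L _ hL t ht
  have hL2 : 2 ≤ L := by omega
  have ht1 : 1 ≤ t := by linarith
  refine ⟨fun x => ⟨fun htL => ?_, expect_inv_card_final hd hL2 ht1 x,
    fun K => prob_card_le_final hd hL2 ht1 x K⟩, fun s => prob_numCycles_ge hd hL2 ht1 s⟩
  refine (return_torus_asymp hL ht htL x).trans ?_
  refine expect_mono (by linarith) fun σ => ?_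
  split_ifs with h
  · have h2 : cyc σ x = {x} := cyc_eq_singleton (by
      rw [Equiv.Perm.mem_support, not_not]; exact h)
    rw [h2]; simp
  · positivity

end Pool.Agent.Lib.MP_6c3d62_pr.CycleDensityThm

/-
Claim file of the former hand-in CycleDensity:

Proves: For every d >= 1 there are c, C > 0 such that for all L >= 3, t >= 2 and vertices x, with |C_x| the length of the cycle of eta_L(t) through x and N the number of cycles (fixed points included): c t^(-d/2) <= E_0[1/|C_x|] if t <= L^2; E_0[1/|C_x|] <= C (t^(-d/2) + log L/L^d); P_0(|C_x| <= K) <= C K (t^(-d/2) + log L/L^d) for every natural number K; and P_0(N >= C (L^d t^(-d/2) + log L) + s) <= 2^(-s) for every real s.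
Definitions: edgeSwap d L (x,i): transposition of x and x + e_i. expect d L t f: E_0 f(eta_L(t)); the number of rings up to t is Poisson(d L^d t) and the rings are independent uniform edges. cyc sigma x: set of vertices in the cycle of sigma through x. numCycles sigma: number of cycles, fixed points included.
Relation: Partial answer towards Q1 and Q2(c): in every dimension the cycle density E N/L^d = E 1/|C_x| has exact order t^(-d/2) (2 <= t <= L^2/(log L)^(2/d)); at most a fraction C eps of the vertices is in cycles shorter than eps t^(d/2), and for t >= L^2 there are O(log L) cycles; it gives no macroscopic cycles at fixed t. Earlier work in mind: E 2^N is the spin 1/2 Heisenberg ferromagnet partition function (Toth 1993); free energy bounds (Conlon-Solovej 1991, Correggi-Giuliani-Seiringer 2015, d = 3) with Jensen's inequality would give the upper bound for d = 3, L = infinity; I know of no such statement on cycles.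
-/
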