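import Mathlib

/-! Definitions: random stirring on the torus `(ℤ/L)^d`. -/

namespace Pool.Agent.Stirring

/-- The edge `{x, x + e_i}` of the torus `(ℤ/L)^d`, coded by `(x, i)`, as the transposition of its
two endpoints. -/
def edgeSwap (d L : ℕ) (e : (Fin d → ZMod L) × Fin d) : Equiv.Perm (Fin d → ZMod L) :=
  Equiv.swap e.1 (e.1 + Pi.single e.2 1)

/-- `expect d L t f` is the expectation of `f (η_L(t))` for random stirring on the torus `(ℤ/L)^d`
started from the identity: the total number of rings up to time `t` is Poisson with mean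
`d L^d t` and, given this number, the successive rings are independent uniform edges. -/
noncomputable def expect (d L : ℕ) [NeZero L] (t : ℝ)
    (f : Equiv.Perm (Fin d → ZMod L) → ℝ) : ℝ :=
  ∑' n : ℕ, Real.exp (-((d : ℝ) * (L : ℝ) ^ d * t)) * t ^ n / (n.factorial : ℝ) *
    ∑ w : Fin n → (Fin d → ZMod L) × Fin d, f ((List.ofFn w).map (edgeSwap d L)).prod

end Pool.Agent.Stirring
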