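import Pool.Agent.Lib.MP_6c3d62_pr.Mg.G040

/-! The determinant is affine along rank-one directions; derivative of a determinant. -/

open Finset Matrix

set_option linter.unusedSectionVars false

namespace Pool.Agent.Stirring.NoCyc

variable {κ : Type*} [Fintype κ] [DecidableEq κ]

/-- The differential of the determinant at `X` in the direction `Y`. -/
noncomputable def dDet (X Y : Matrix κ κ ℝ) : ℝ :=
  ∑ σ : Equiv.Perm κ, (Equiv.Perm.sign σ : ℤ) *
    ∑ i, (∏ j ∈ Finset.univ.erase i, X (σ j) j) * Y (σ i) i

theorem dDet_add (X Y Y' : Matrix κ κ ℝ) : dDet X (Y + Y') = dDet X Y + dDet X Y' := by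
  unfold dDet
  rw [← Finset.sum_add_distrib]
  refine Finset.sum_congr rfl fun σ _ => ?_
  rw [← mul_add, ← Finset.sum_add_distrib]
  congr 1
  refine Finset.sum_congr rfl fun i _ => ?_
  rw [Matrix.add_apply]; ring

theorem dDet_zero (X : Matrix κ κ ℝ) : dDet X 0 = 0 := by
  simp [dDet]

theorem dDet_sum {ι : Type*} (s : Finset ι) (X : Matrix κ κ ℝ) (Y : ι → Matrix κ κ ℝ) :
    dDet X (∑ a ∈ s, Y a) = ∑ a ∈ s, dDet X (Y a) := by
  classical
  induction s using Finset.induction_on with
  | empty => simp [dDet_zero]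
  | insert a s ha ih => rw [Finset.sum_insert ha, Finset.sum_insert ha, dDet_add, ih]

theorem hasDerivAt_det {X : ℝ → Matrix κ κ ℝ} {X' : Matrix κ κ ℝ} {s : ℝ}
    (h : ∀ i j, HasDerivAt (fun u => X u i j) (X' i j) s) :
    HasDerivAt (fun u => (X u).det) (dDet (X s) X') s := by
  have h0 : (fun u => (X u).det) = fun u => ∑ σ : Equiv.Perm κ,
      (Equiv.Perm.sign σ : ℤ) * ∏ i, X u (σ i) i := by
    funext u
    rw [Matrix.det_apply']
  rw [h0]
  unfold dDet
  refine HasDerivAt.fun_sum fun σ _ => ?_
  refine HasDerivAt.const_mul _ ?_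
  have := HasDerivAt.fun_finsetProd (u := Finset.univ) (f := fun i u => X u (σ i) i)
    (f' := fun i => X' (σ i) i) (x := s) (fun i _ => h (σ i) i)
  simpa only [smul_eq_mul] using this

theorem det_add_smul_vecMulVec (X : Matrix κ κ ℝ) (u v : κ → ℝ) (s : ℝ) :
    (X + s • vecMulVec u v).det = X.det + s * ((X + vecMulVec u v).det - X.det) := by
  have key : ∀ r : ℝ, (X + r • vecMulVec u v).det =
      X.det + r * ((fromBlocks X (replicateCol Unit u) (replicateRow Unit (-v)) 0).det) := by
    intro r
    have h1 : X + r • vecMulVec u v =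
        X - replicateCol Unit u * replicateRow Unit (r • (-v)) := by
      rw [← vecMulVec_eq]
      ext i j
      simp [vecMulVec_apply]
    rw [h1, ← det_fromBlocks_one₂₂]
    have h2 : fromBlocks X (replicateCol Unit u) (replicateRow Unit (r • (-v))) 1 =
        (fromBlocks X (replicateCol Unit u) (replicateRow Unit (-v)) 0).updateRow (Sum.inr ())
          (r • (Sum.elim (-v) (fun _ => (0 : ℝ))) + Sum.elim (fun _ => (0 : ℝ)) (fun _ => (1 : ℝ))) := by
      ext i j
      rcases i with i | i <;> rcases j with j | j <;> simp [Matrix.updateRow_apply]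
    rw [h2, det_updateRow_add, det_updateRow_smul]
    have h3 : (fromBlocks X (replicateCol Unit u) (replicateRow Unit (-v)) 0).updateRow (Sum.inr ())
        (Sum.elim (-v) (fun _ => (0 : ℝ))) = fromBlocks X (replicateCol Unit u) (replicateRow Unit (-v)) 0 := by
      ext i j
      rcases i with i | i <;> rcases j with j | j <;> simp [Matrix.updateRow_apply]
    have h4 : (fromBlocks X (replicateCol Unit u) (replicateRow Unit (-v)) 0).updateRow (Sum.inr ())
        (Sum.elim (fun _ => (0 : ℝ)) (fun _ => (1 : ℝ))) = fromBlocks X (replicateCol Unit u) 0 1 := by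
      ext i j
      rcases i with i | i <;> rcases j with j | j <;> simp [Matrix.updateRow_apply]
    rw [h3, h4, det_fromBlocks_one₂₂]
    simp only [Matrix.mul_zero, sub_zero]
    ring
  have h1 := key s
  have h2 := key 1
  rw [one_smul, one_mul] at h2
  rw [h1, h2]; ring

theorem dDet_vecMulVec (X : Matrix κ κ ℝ) (u v : κ → ℝ) :
    dDet X (vecMulVec u v) = (X + vecMulVec u v).det - X.det := by
  have h1 : HasDerivAt (fun s : ℝ => (X + s • vecMulVec u v).det) (dDet X (vecMulVec u v)) 0 := by
    have := hasDerivAt_det (X := fun s : ℝ => X + s • vecMulVec u v) (X' := vecMulVec u v) (s := 0)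
      (fun i j => by
        have h : HasDerivAt (fun s : ℝ => X i j + s * vecMulVec u v i j) (vecMulVec u v i j) 0 := by
          simpa using ((hasDerivAt_id' (0 : ℝ)).mul_const (vecMulVec u v i j)).const_add (X i j)
        simpa [Matrix.add_apply, Matrix.smul_apply] using h)
    simpa using this
  have h2 : HasDerivAt (fun s : ℝ => X.det + s * ((X + vecMulVec u v).det - X.det))
      ((X + vecMulVec u v).det - X.det) 0 := by
    simpa using ((hasDerivAt_id' (0 : ℝ)).mul_const ((X + vecMulVec u v).det - X.det)).const_add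
      X.det
  have h3 : (fun s : ℝ => (X + s • vecMulVec u v).det) =
      fun s : ℝ => X.det + s * ((X + vecMulVec u v).det - X.det) := by
    funext s; exact det_add_smul_vecMulVec X u v s
  rw [h3] at h1
  exact h1.unique h2

end Pool.Agent.Stirring.NoCyc
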