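import Pool.Agent.Lib.MP_6c3d62_pr.DetAffine

/-! The expectation of `det (1 - Q M(σ))` for a process driven by transpositions. -/

open Finset Matrix

set_option linter.unusedSectionVars false
set_option linter.style.haveILetI false

namespace Pool.Agent.Stirring.NoCyc

section Law

variable {α : Type*} [Fintype α] {G : Type*} [Group G] [Fintype G] [DecidableEq G]

theorem E_rate_zero (g : α → G) (f : G → ℝ) : E (fun _ : α => (0 : ℝ)) g f = f 1 := by
  rw [E_eq_trace_exp]
  have h := trace_fMat f 1
  rw [map_one, map_one, mul_one] at h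
  simp [h]

/-- Duhamel type identity: a function which solves the backward equation. -/
theorem E_duhamel (g : α → G) (u : ℝ → G → ℝ)
    (hu : ∀ s σ, HasDerivAt (fun r => u r σ) (∑ a, (u s (g a * σ) - u s σ)) s) (t : ℝ) :
    E (fun _ : α => t) g (u 0) = u t 1 := by
  set l' : ℝ → G → ℝ := fun τ σ => ∑ a, (E (fun _ : α => τ) g
    (fun ρ => if g a * ρ = σ then (1 : ℝ) else 0) -
      E (fun _ : α => τ) g (fun ρ => if ρ = σ then (1 : ℝ) else 0)) with hl'
  have h1 : ∀ τ σ, HasDerivAt (fun r : ℝ => law (fun _ : α => r) g σ) (l' τ σ) τ := fun τ σ =>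
    hasDerivAt_E g (fun ρ => if ρ = σ then (1 : ℝ) else 0) τ
  have h2 : ∀ τ (f : G → ℝ), ∑ σ, l' τ σ * f σ =
      ∑ a, (E (fun _ : α => τ) g (fun σ => f (g a * σ)) - E (fun _ : α => τ) g f) := by
    intro τ f
    have h3 := hasDerivAt_E g f τ
    have h4 : (fun r : ℝ => E (fun _ : α => r) g f) =
        fun r => ∑ σ, law (fun _ : α => r) g σ * f σ := by
      funext r; exact E_eq_sum _ _ _
    rw [h4] at h3
    have h5 : HasDerivAt (fun r => ∑ σ, law (fun _ : α => r) g σ * f σ) (∑ σ, l' τ σ * f σ) τ :=
      HasDerivAt.fun_sum fun σ _ => (h1 τ σ).mul_const (f σ)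
    exact h5.unique h3
  have hH : ∀ s, HasDerivAt (fun r => ∑ σ, law (fun _ : α => t - r) g σ * u r σ) 0 s := by
    intro s
    have h6 : HasDerivAt (fun r => ∑ σ, law (fun _ : α => t - r) g σ * u r σ)
        (∑ σ, (-(l' (t - s) σ) * u s σ + law (fun _ : α => t - s) g σ *
          ∑ a, (u s (g a * σ) - u s σ))) s := by
      refine HasDerivAt.fun_sum fun σ _ => ?_
      have h7 : HasDerivAt (fun r => law (fun _ : α => t - r) g σ) (-(l' (t - s) σ)) s := by
        have h8 : HasDerivAt (fun r : ℝ => t - r) (-1) s := by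
          simpa using (hasDerivAt_id' s).const_sub t
        have h9 := (h1 (t - s) σ).comp s h8
        simpa [Function.comp_def] using h9
      exact h7.mul (hu s σ)
    refine h6.congr_deriv ?_
    rw [Finset.sum_add_distrib]
    have h10 : ∑ σ, -(l' (t - s) σ) * u s σ = -∑ σ, l' (t - s) σ * u s σ := by
      rw [← Finset.sum_neg_distrib]
      exact Finset.sum_congr rfl fun σ _ => by ring
    rw [h10, h2, ← E_eq_sum (fun _ : α => t - s) g (fun σ => ∑ a, (u s (g a * σ) - u s σ)), E_sum]
    have h11 : ∀ a ∈ (Finset.univ : Finset α), E (fun _ : α => t - s) g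
        (fun σ => u s (g a * σ) - u s σ) = E (fun _ : α => t - s) g (fun σ => u s (g a * σ)) -
          E (fun _ : α => t - s) g (u s) := by
      intro a _
      have := E_add (fun _ : α => t - s) g (fun σ => u s (g a * σ) - u s σ) (u s)
      simp only [sub_add_cancel] at this
      linarith
    rw [Finset.sum_congr rfl h11]
    ring
  have hconst := is_const_of_deriv_eq_zero (f := fun r => ∑ σ, law (fun _ : α => t - r) g σ * u r σ)
    (fun s => (hH s).differentiableAt) (fun s => (hH s).deriv) 0 t
  simp only [sub_zero, sub_self] at hconst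
  rw [E_eq_sum, hconst, ← E_eq_sum, E_rate_zero]

end Law

section Det

variable {V : Type*} [Fintype V] [DecidableEq V] {α : Type*} [Fintype α]

theorem permMat_swap_eq {x y : V} (hxy : x ≠ y) :
    permMat V (Equiv.swap x y) = 1 + vecMulVec (-(Pi.single x (1 : ℝ) - Pi.single y 1))
      (Pi.single x 1 - Pi.single y 1) := by
  ext a b
  rw [permMat_apply, Matrix.add_apply, vecMulVec_apply, Matrix.one_apply]
  simp only [Pi.neg_apply, Pi.sub_apply, Pi.single_apply]
  by_cases hbx : b = x
  · subst hbx
    rw [Equiv.swap_apply_left]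
    by_cases hay : a = y
    · subst hay; simp [hxy, Ne.symm hxy]
    · by_cases hab : a = b
      · subst hab; simp [hxy]
      · simp [hay, hab, hxy]
  · by_cases hby : b = y
    · subst hby
      rw [Equiv.swap_apply_right]
      by_cases hax : a = x
      · subst hax; simp [hxy, Ne.symm hxy]
      · by_cases hab : a = b
        · subst hab; simp [Ne.symm hxy]
        · simp [hax, hab, Ne.symm hxy]
    · rw [Equiv.swap_apply_of_ne_of_ne hbx hby]
      simp [hbx, hby]

theorem hasDerivAt_mul_exp_mul (A Q M : Matrix V V ℝ) (s : ℝ) (i j : V) :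
    HasDerivAt (fun u : ℝ => (Q * NormedSpace.exp (u • A) * M) i j)
      ((Q * (NormedSpace.exp (s • A) * A) * M) i j) s := by
  letI : NormedRing (Matrix V V ℝ) := Matrix.linftyOpNormedRing
  letI : NormedAlgebra ℝ (Matrix V V ℝ) := Matrix.linftyOpNormedAlgebra
  have h := ((hasDerivAt_exp_smul_const (𝕂 := ℝ) A s).const_mul Q).mul_const M
  let ev : Matrix V V ℝ →ₗ[ℝ] ℝ :=
    { toFun := fun X => X i j, map_add' := fun _ _ => rfl, map_smul' := fun _ _ => rfl }
  have h2 := (LinearMap.toContinuousLinearMap ev).hasFDerivAt.comp_hasDerivAt s h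
  exact h2

/-- The exact formula. -/
theorem E_det (g : α → Equiv.Perm V) (u v : α → V) (hg : ∀ a, g a = Equiv.swap (u a) (v a))
    (huv : ∀ a, u a ≠ v a) (Q : Matrix V V ℝ) (t : ℝ) :
    E (fun _ : α => t) g (fun σ => (1 - Q * permMat V σ).det) =
      (1 - Q * NormedSpace.exp (t • ∑ a, (permMat V (g a) - 1))).det := by
  set A : Matrix V V ℝ := ∑ a, (permMat V (g a) - 1) with hA
  have key := E_duhamel g (fun s σ => (1 - Q * NormedSpace.exp (s • A) * permMat V σ).det) ?_ t
  · simp only [zero_smul, NormedSpace.exp_zero, mul_one, map_one] at key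
    exact key
  · intro s σ
    have h1 : HasDerivAt (fun r => (1 - Q * NormedSpace.exp (r • A) * permMat V σ).det)
        (dDet (1 - Q * NormedSpace.exp (s • A) * permMat V σ)
          (-(Q * (NormedSpace.exp (s • A) * A) * permMat V σ))) s := by
      refine hasDerivAt_det (X := fun r => 1 - Q * NormedSpace.exp (r • A) * permMat V σ)
        (fun i j => ?_)
      have := (hasDerivAt_mul_exp_mul A Q (permMat V σ) s i j).const_sub ((1 : Matrix V V ℝ) i j)
      simpa [Matrix.sub_apply, Matrix.neg_apply] using this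
    refine h1.congr_deriv ?_
    have h2 : -(Q * (NormedSpace.exp (s • A) * A) * permMat V σ) =
        ∑ a, -(Q * NormedSpace.exp (s • A) * (permMat V (g a) - 1) * permMat V σ) := by
      rw [Finset.sum_neg_distrib, hA, ← Finset.sum_mul, ← Finset.mul_sum, ← Matrix.mul_assoc Q]
    rw [h2, dDet_sum]
    refine Finset.sum_congr rfl fun a _ => ?_
    set B := Q * NormedSpace.exp (s • A) with hB
    have h3 : -(B * (permMat V (g a) - 1) * permMat V σ) =
        vecMulVec (B.mulVec (Pi.single (u a) (1 : ℝ) - Pi.single (v a) 1))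
          ((permMat V σ).vecMul (Pi.single (u a) 1 - Pi.single (v a) 1)) := by
      have h4 : permMat V (g a) - 1 = vecMulVec (-(Pi.single (u a) (1 : ℝ) - Pi.single (v a) 1))
          (Pi.single (u a) 1 - Pi.single (v a) 1) := by
        rw [hg, permMat_swap_eq (huv a)]; simp
      rw [h4, Matrix.mul_vecMulVec, Matrix.vecMulVec_mul, Matrix.mulVec_neg, Matrix.neg_vecMulVec,
        neg_neg]
    rw [h3, dDet_vecMulVec, ← h3]
    congr 2
    rw [map_mul, Matrix.mul_sub, Matrix.mul_one, Matrix.sub_mul, Matrix.mul_assoc B (permMat V (g a))]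
    abel

end Det

end Pool.Agent.Stirring.NoCyc
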