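import Pool.Agent.Lib.MP_6c3d62_pr.PlaneFlow

/-! The dichotomy between dimension two and higher dimensions for the conditioned process. -/

open Finset Matrix

set_option linter.unusedSectionVars false

namespace Pool.Agent.Stirring.NoCyc

variable {d L : ℕ} [NeZero L]

theorem energy_eq_zero {f : (Fin d → ZMod L) → ℝ} (h : energy f = 0) (x y : Fin d → ZMod L) :
    f x = f y := by
  have h1 : ∀ (z : Fin d → ZMod L) (i : Fin d), f (z + Pi.single i 1) = f z := by
    intro z i
    have h2 := (Finset.sum_eq_zero_iff_of_nonneg (fun e _ => sq_nonneg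
      (f e.1 - f (e.1 + Pi.single e.2 1)))).mp h (z, i) (Finset.mem_univ _)
    have h3 := pow_eq_zero_iff (two_ne_zero) |>.mp h2
    simp only at h3
    linarith
  have h4 : ∀ (n : ℕ) (z : Fin d → ZMod L) (i : Fin d), f (z + Pi.single i (n : ZMod L)) = f z := by
    intro n
    induction n with
    | zero => intro z i; simp
    | succ n ih =>
      intro z i
      have : z + Pi.single i ((n + 1 : ℕ) : ZMod L) = (z + Pi.single i (n : ZMod L)) +
          Pi.single i 1 := by
        rw [add_assoc, ← Pi.single_add]; push_cast; rfl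
      rw [this, h1, ih]
  have h5 : ∀ (s : Finset (Fin d)) (z w : Fin d → ZMod L),
      f (z + ∑ i ∈ s, Pi.single i (w i)) = f z := by
    intro s
    induction s using Finset.induction_on with
    | empty => intro z w; simp
    | insert a s ha ih =>
      intro z w
      rw [Finset.sum_insert ha, ← add_assoc, ih]
      have := h4 (w a).val z a
      rwa [ZMod.natCast_zmod_val] at this
  have h6 := h5 Finset.univ x (y - x)
  rw [Finset.univ_sum_single, add_sub_cancel] at h6
  exact h6.symm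

theorem dS_heat_nonneg (hL : 2 ≤ L) {t : ℝ} (ht : 0 ≤ t) (S : Set (Fin d → ZMod L)) :
    0 ≤ dS (heat d L t) S := by
  rw [← prob_noCycleIn hL]; exact prob_nonneg ht _

theorem prob_leaves_inter (hL : 2 ≤ L) (t : ℝ) (R : ℕ) :
    prob d L t (escapes d L R ∩ noShort d L R) = dS (heat d L t) (box d L R) := by
  rw [← prob_noCycleIn hL]
  congr 1
  ext σ
  exact leaves_inter σ (box d L R) 0

theorem prob_noShort (hL : 2 ≤ L) (t : ℝ) (R : ℕ) :
    prob d L t (noShort d L R) = dS (heat d L t) (box d L R \ {0}) :=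
  prob_noCycleIn hL t _

theorem prob_noCycleIn_pos (hL : 2 ≤ L) {t : ℝ} (ht : 0 < t) {S : Set (Fin d → ZMod L)}
    (hS : S ≠ Set.univ) : 0 < prob d L t {σ | NoCycleIn σ S} := by
  refine lt_of_le_of_ne (prob_nonneg ht.le _) ?_
  rw [prob_noCycleIn hL]
  refine (dS_ne_zero fun f hf h0 => ?_).symm
  have h1 := (heat_form hL ht.le f).2.2
  rw [h0] at h1
  have h2 : energy f = 0 := by
    refine le_antisymm ?_ (energy_nonneg f)
    by_contra hlt
    push Not at hlt
    have := mul_pos (cT_pos d ht) hlt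
    linarith
  obtain ⟨y, hy⟩ := (Set.ne_univ_iff_exists_notMem S).mp hS
  ext x
  rw [energy_eq_zero h2 x y, hf y hy, Pi.zero_apply]

theorem noShort_pos (hL : 2 ≤ L) {t : ℝ} (ht : 0 < t) (R : ℕ) :
    0 < prob d L t (noShort d L R) := by
  refine prob_noCycleIn_pos hL ht fun h => ?_
  have h0 : (0 : Fin d → ZMod L) ∈ box d L R \ {0} := h ▸ Set.mem_univ _
  exact h0.2 rfl

theorem condEscape_two_le (hL : 2 ≤ L) {t : ℝ} (ht : 0 < t) (R : ℕ) :
    condEscape 2 L R t ≤ 16 * t / Real.log (R + 2) := by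
  have hp := noShort_pos (d := 2) hL ht R
  rw [condEscape, div_le_iff₀ hp, prob_leaves_inter hL, prob_noShort hL]
  have h := dS_le (heat_isSymm (d := 2) (L := L) t) (fun f => (heat_form hL ht.le f).1)
    (zero_mem_box R) (dS_heat_nonneg hL ht.le _) (dS_heat_nonneg hL ht.le _)
    (f := logTest L R) (fun y hy => logTest_eq_zero hy) (logTest_zero R)
  refine h.trans (mul_le_mul_of_nonneg_right ?_ (dS_heat_nonneg hL ht.le _))
  refine ((heat_form hL ht.le _).2.1.trans
    (mul_le_mul_of_nonneg_left (energy_logTest_le hL R) ht.le)).trans ?_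
  have h1 := log_le_harm R
  have h2 : 0 < Real.log ((R : ℝ) + 2) := Real.log_pos (by
    have : (0 : ℝ) ≤ R := Nat.cast_nonneg R
    linarith)
  have h3 : 16 / harm R ≤ 16 / Real.log ((R : ℝ) + 2) :=
    div_le_div_of_nonneg_left (by norm_num) h2 h1
  calc t * (16 / harm R) ≤ t * (16 / Real.log ((R : ℝ) + 2)) :=
        mul_le_mul_of_nonneg_left h3 ht.le
    _ = _ := by ring

theorem condEscape_ge (hL : 2 ≤ L) {t : ℝ} (ht : 0 < t) (R : ℕ) {K : ℝ} (hK : 0 < K)
    (hKf : ∀ f : (Fin d → ZMod L) → ℝ, (∀ y, y ∉ box d L R → f y = 0) →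
      f 0 ^ 2 ≤ K * (f ⬝ᵥ (1 - heat d L t).mulVec f)) :
    1 / K ≤ condEscape d L R t := by
  have hp := noShort_pos (d := d) hL ht R
  rw [condEscape, div_le_div_iff₀ hK hp, one_mul, prob_leaves_inter hL, prob_noShort hL, mul_comm]
  exact dS_ge (zero_mem_box R) (dS_heat_nonneg hL ht.le _) (dS_heat_nonneg hL ht.le _) hK.le hKf

theorem harm_le_log (R : ℕ) : harm R ≤ 1 + Real.log (R + 1) := by
  have h := harmonic_le_one_add_log (R + 1)
  have h2 : ((harmonic (R + 1) : ℚ) : ℝ) = harm R := by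
    rw [harmonic, harm]
    push_cast
    refine Finset.sum_congr rfl fun j _ => by rw [one_div]
  rw [h2] at h
  push_cast at h
  exact h

theorem condEscape_two_ge {t : ℝ} (ht : 0 < t) {R : ℕ} (hL : 2 * R + 2 ≤ L) :
    1 / (1 + 2 * (1 + Real.log (R + 1)) / t + 1 / (R + 2)) ≤ condEscape 2 L R t := by
  have h0 : (0 : ℝ) ≤ Real.log (R + 1) := Real.log_nonneg (by
    have : (0 : ℝ) ≤ R := Nat.cast_nonneg R
    linarith)
  refine condEscape_ge (by omega) ht R (by positivity) fun f hf => ?_
  refine (form_ge_two ht hL hf).trans (mul_le_mul_of_nonneg_right ?_ (heat_form (by omega) ht.le f).1)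
  have h1 : 2 * harm R / t ≤ 2 * (1 + Real.log (R + 1)) / t :=
    div_le_div_of_nonneg_right (by linarith [harm_le_log R]) ht.le
  linarith

theorem condEscape_high_ge (hd : 3 ≤ d) {t : ℝ} (ht : 0 < t) {R : ℕ} (hL : 2 * R + 2 ≤ L) :
    1 / (1 + 4 / t + 2 / ((R + 2) * (R + 3))) ≤ condEscape d L R t :=
  condEscape_ge (by omega) ht R (by positivity) fun _ hf => form_ge_three hd ht hL hf

end Pool.Agent.Stirring.NoCyc
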