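import Mathlib

/-! The product formula `(exp (A / m) * exp (B / m)) ^ m → exp (A + B)`. -/

open Filter Topology

namespace Pool.Agent.Stirring

section

variable {𝔸 : Type*} [NormedRing 𝔸] [NormOneClass 𝔸]

theorem norm_pow_sub_pow_le {a b : 𝔸} {M : ℝ} (hM : 1 ≤ M) (ha : ‖a‖ ≤ M) (hb : ‖b‖ ≤ M) (m : ℕ) :
    ‖a ^ m - b ^ m‖ ≤ m * M ^ m * ‖a - b‖ := by
  induction m with
  | zero => simp
  | succ m ih =>
    have h1 : a ^ (m + 1) - b ^ (m + 1) = a ^ m * (a - b) + (a ^ m - b ^ m) * b := by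
      rw [pow_succ, pow_succ]; noncomm_ring
    have h2 : ‖a ^ m‖ ≤ M ^ m := (norm_pow_le a m).trans (pow_le_pow_left₀ (norm_nonneg _) ha m)
    have hM0 : 0 ≤ M := by linarith
    have hMm : 0 ≤ M ^ m := pow_nonneg hM0 m
    calc ‖a ^ (m + 1) - b ^ (m + 1)‖ ≤ ‖a ^ m * (a - b)‖ + ‖(a ^ m - b ^ m) * b‖ := by
          rw [h1]; exact norm_add_le _ _
      _ ≤ M ^ m * ‖a - b‖ + (m * M ^ m * ‖a - b‖) * M := by
          refine add_le_add ((norm_mul_le _ _).trans ?_) ((norm_mul_le _ _).trans ?_)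
          · exact mul_le_mul_of_nonneg_right h2 (norm_nonneg _)
          · exact mul_le_mul ih hb (norm_nonneg _) (by positivity)
      _ ≤ M ^ m * M * ‖a - b‖ + (m * M ^ m * ‖a - b‖) * M := by
          refine add_le_add_left ?_ _
          refine mul_le_mul_of_nonneg_right ?_ (norm_nonneg _)
          nlinarith
      _ = _ := by rw [pow_succ]; push_cast; ring

variable [NormedAlgebra ℝ 𝔸]

theorem eventually_norm_le {F : ℝ → 𝔸} {D : 𝔸} (hF : HasDerivAt F D 0) (hF0 : F 0 = 1) :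
    ∀ᶠ m : ℕ in atTop, ‖F ((m : ℝ)⁻¹)‖ ≤ 1 + (‖D‖ + 1) * (m : ℝ)⁻¹ := by
  have hinv : Tendsto (fun m : ℕ => ((m : ℝ)⁻¹)) atTop (𝓝 0) :=
    tendsto_inv_atTop_zero.comp tendsto_natCast_atTop_atTop
  have h1 := (Asymptotics.isLittleO_iff.mp hF.isLittleO) one_pos
  have h2 := hinv.eventually h1
  filter_upwards [h2] with m hm
  simp only [sub_zero, hF0, one_mul] at hm
  have hm0 : (0 : ℝ) ≤ (m : ℝ)⁻¹ := by positivity
  rw [Real.norm_of_nonneg hm0] at hm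
  calc ‖F ((m : ℝ)⁻¹)‖ = ‖1 + (m : ℝ)⁻¹ • D + (F ((m : ℝ)⁻¹) - 1 - (m : ℝ)⁻¹ • D)‖ := by
        congr 1; abel
    _ ≤ ‖(1 : 𝔸)‖ + ‖(m : ℝ)⁻¹ • D‖ + ‖F ((m : ℝ)⁻¹) - 1 - (m : ℝ)⁻¹ • D‖ :=
        (norm_add_le _ _).trans (add_le_add_left (norm_add_le _ _) _)
    _ ≤ 1 + (m : ℝ)⁻¹ * ‖D‖ + (m : ℝ)⁻¹ := by
        refine add_le_add (add_le_add (by rw [norm_one]) ?_) hm
        exact (norm_smul_le _ _).trans (by rw [Real.norm_of_nonneg hm0])
    _ = _ := by ring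

theorem pow_sub_pow_tendsto {F G : ℝ → 𝔸} {D : 𝔸} (hF : HasDerivAt F D 0) (hG : HasDerivAt G D 0)
    (hF0 : F 0 = 1) (hG0 : G 0 = 1) :
    Tendsto (fun m : ℕ => F ((m : ℝ)⁻¹) ^ m - G ((m : ℝ)⁻¹) ^ m) atTop (𝓝 0) := by
  have hinv : Tendsto (fun m : ℕ => ((m : ℝ)⁻¹)) atTop (𝓝 0) :=
    tendsto_inv_atTop_zero.comp tendsto_natCast_atTop_atTop
  rw [Metric.tendsto_atTop']
  intro ε hε
  set K := Real.exp (‖D‖ + 1) with hK
  have hKpos : 0 < K := Real.exp_pos _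
  have h1 := (Asymptotics.isLittleO_iff.mp (hF.sub hG).isLittleO)
    (show 0 < ε / (2 * K) by positivity)
  have h2 := hinv.eventually h1
  have h3 := (h2.and ((eventually_norm_le hF hF0).and (eventually_norm_le hG hG0))).and
    (eventually_gt_atTop 0)
  obtain ⟨N, hN⟩ := eventually_atTop.mp h3
  refine ⟨N, fun m hm => ?_⟩
  obtain ⟨⟨hm1, hm2, hm3⟩, hm4⟩ := hN m hm.le
  have hmpos : (0 : ℝ) < m := by exact_mod_cast hm4
  have hm0 : (0 : ℝ) ≤ (m : ℝ)⁻¹ := by positivity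
  simp only [sub_self, smul_zero, sub_zero, Pi.sub_apply, hF0, hG0] at hm1
  rw [Real.norm_of_nonneg hm0] at hm1
  have hM : 1 ≤ 1 + (‖D‖ + 1) * (m : ℝ)⁻¹ := by
    have : 0 ≤ (‖D‖ + 1) * (m : ℝ)⁻¹ := by positivity
    linarith
  have h4 := norm_pow_sub_pow_le hM hm2 hm3 m
  have h5 : (1 + (‖D‖ + 1) * (m : ℝ)⁻¹) ^ m ≤ K := by
    calc (1 + (‖D‖ + 1) * (m : ℝ)⁻¹) ^ m ≤ (Real.exp ((‖D‖ + 1) * (m : ℝ)⁻¹)) ^ m := by
          refine pow_le_pow_left₀ (by linarith) ?_ m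
          rw [add_comm]; exact Real.add_one_le_exp _
      _ = K := by
          rw [← Real.exp_nat_mul, hK]; congr 1; field_simp
  rw [dist_zero_right]
  calc _ ≤ m * (1 + (‖D‖ + 1) * (m : ℝ)⁻¹) ^ m * ‖F ((m : ℝ)⁻¹) - G ((m : ℝ)⁻¹)‖ := h4
    _ ≤ m * K * (ε / (2 * K) * (m : ℝ)⁻¹) := by
        refine mul_le_mul (mul_le_mul_of_nonneg_left h5 hmpos.le) hm1 (norm_nonneg _) (by positivity)
    _ = ε / 2 := by field_simp
    _ < ε := by linarith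

variable [CompleteSpace 𝔸]

/-- The Lie product formula. -/
theorem trotter (A B : 𝔸) :
    Tendsto (fun m : ℕ => (NormedSpace.exp ((m : ℝ)⁻¹ • A) * NormedSpace.exp ((m : ℝ)⁻¹ • B)) ^ m)
      atTop (𝓝 (NormedSpace.exp (A + B))) := by
  have hA := hasDerivAt_exp_smul_const (𝕂 := ℝ) A 0
  have hB := hasDerivAt_exp_smul_const (𝕂 := ℝ) B 0
  have hAB := hasDerivAt_exp_smul_const (𝕂 := ℝ) (A + B) 0
  have h0 : NormedSpace.exp ((0 : ℝ) • A) = 1 := by rw [zero_smul, NormedSpace.exp_zero]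
  have h0' : NormedSpace.exp ((0 : ℝ) • B) = 1 := by rw [zero_smul, NormedSpace.exp_zero]
  have h0'' : NormedSpace.exp ((0 : ℝ) • (A + B)) = 1 := by rw [zero_smul, NormedSpace.exp_zero]
  have hF := hA.mul hB
  rw [h0, h0'] at hF
  rw [h0''] at hAB
  simp only [one_mul, mul_one] at hF hAB
  have h := pow_sub_pow_tendsto (F := fun u : ℝ => NormedSpace.exp (u • A) * NormedSpace.exp (u • B))
    (G := fun u : ℝ => NormedSpace.exp (u • (A + B))) hF hAB (by simp) h0''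
  have h2 : Tendsto (fun m : ℕ => (NormedSpace.exp ((m : ℝ)⁻¹ • A) *
      NormedSpace.exp ((m : ℝ)⁻¹ • B)) ^ m - NormedSpace.exp (A + B)) atTop (𝓝 0) := by
    refine h.congr' ?_
    filter_upwards [eventually_gt_atTop 0] with m hm
    have hm' : (m : ℝ) ≠ 0 := by exact_mod_cast hm.ne'
    congr 1
    let : NormedAlgebra ℚ 𝔸 := NormedAlgebra.restrictScalars ℚ ℝ 𝔸
    rw [← NormedSpace.exp_nsmul, ← Nat.cast_smul_eq_nsmul ℝ, smul_smul, mul_inv_cancel₀ hm', one_smul]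
  have h3 := h2.add_const (NormedSpace.exp (A + B))
  simpa using h3

end

end Pool.Agent.Stirring
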