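import Pool.Agent.Lib.MP_6c3d62_pr.TorusEnergy

/-! Lower bounds for the form of `1 - exp (t 𝓛)` by means of flows. -/

open Finset Matrix

set_option linter.unusedSectionVars false
set_option linter.style.haveILetI false

namespace Pool.Agent.Stirring.NoCyc

section Spec

variable {κ : Type*} [Fintype κ] [DecidableEq κ]

theorem exists_regularization {A : Matrix κ κ ℝ} (hA : A.IsSymm)
    (h1 : ∀ φ : κ → ℝ, φ ⬝ᵥ A.mulVec φ ≤ 0) (f : κ → ℝ) :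
    ∃ g : κ → ℝ, (f - g) ⬝ᵥ (f - g) - g ⬝ᵥ A.mulVec g ≤
      f ⬝ᵥ (1 - NormedSpace.exp A).mulVec f := by
  obtain ⟨U, d, hU1, hU2, rfl⟩ := exists_orth_diag hA
  have hq : ∀ (e : κ → ℝ) (φ : κ → ℝ), φ ⬝ᵥ (U * diagonal e * Uᵀ).mulVec φ =
      ∑ j, (Uᵀ.mulVec φ) j ^ 2 * e j := by
    intro e φ
    rw [Matrix.mul_assoc, ← Matrix.mulVec_mulVec, ← Matrix.mulVec_mulVec,
      Matrix.dotProduct_mulVec, ← Matrix.mulVec_transpose]
    unfold dotProduct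
    refine Finset.sum_congr rfl fun j _ => ?_
    rw [Matrix.mulVec_diagonal]; ring
  have hone : (1 : Matrix κ κ ℝ) = U * diagonal (fun _ => (1 : ℝ)) * Uᵀ := by
    have h3 : diagonal (fun _ : κ => (1 : ℝ)) = 1 := Matrix.diagonal_one
    rw [h3, Matrix.mul_one, hU1]
  have hnorm : ∀ φ : κ → ℝ, φ ⬝ᵥ φ = ∑ j, (Uᵀ.mulVec φ) j ^ 2 := by
    intro φ
    have := hq (fun _ => 1) φ
    rw [← hone, Matrix.one_mulVec] at this
    simpa using this
  have hd : ∀ j, d j ≤ 0 := by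
    intro j
    have hψ : Uᵀ.mulVec (U.mulVec (Pi.single j 1)) = Pi.single j 1 := by
      rw [Matrix.mulVec_mulVec, hU2, Matrix.one_mulVec]
    have hs : ∀ e : κ → ℝ, ∑ i, (Pi.single j (1 : ℝ) : κ → ℝ) i ^ 2 * e i = e j := by
      intro e
      rw [Finset.sum_eq_single j]
      · simp
      · intro b _ hb; simp [Pi.single_eq_of_ne hb]
      · intro h; exact absurd (Finset.mem_univ _) h
    have a1 := h1 (U.mulVec (Pi.single j 1))
    rwa [hq, hψ, hs] at a1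
  have hsub : 1 - NormedSpace.exp (U * diagonal d * Uᵀ) =
      U * diagonal (fun j => 1 - Real.exp (d j)) * Uᵀ := by
    rw [exp_orth_conj hU1, exp_diag_real]
    conv_lhs => rw [hone]
    rw [← Matrix.sub_mul, ← Matrix.mul_sub, Matrix.diagonal_sub]
  set ψ := Uᵀ.mulVec f with hψ
  refine ⟨U.mulVec (fun j => ψ j / (1 - d j)), ?_⟩
  rw [hnorm, hq, hsub, hq, Matrix.mulVec_sub, Matrix.mulVec_mulVec, hU2, Matrix.one_mulVec, ← hψ,
    ← Finset.sum_sub_distrib]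
  refine Finset.sum_le_sum fun j _ => ?_
  rw [Pi.sub_apply]
  have hj := hd j
  have hpos : 0 < 1 - d j := by linarith
  have e1 : (ψ j - ψ j / (1 - d j)) ^ 2 - (ψ j / (1 - d j)) ^ 2 * d j =
      ψ j ^ 2 * (-(d j) / (1 - d j)) := by
    field_simp
    ring
  rw [e1]
  refine mul_le_mul_of_nonneg_left ?_ (sq_nonneg _)
  have h2 := Real.add_one_le_exp (-(d j))
  have h3 : Real.exp (d j) ≤ 1 / (1 - d j) := by
    rw [le_div_iff₀ hpos]
    have h4 : Real.exp (d j) * Real.exp (-(d j)) = 1 := by rw [← Real.exp_add]; simp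
    have h5 := Real.exp_pos (d j)
    nlinarith
  have h6 : -(d j) / (1 - d j) = 1 - 1 / (1 - d j) := by field_simp; ring
  rw [h6]
  linarith

end Spec

theorem two_mul_le_of_sq_le {x y a b a' b' : ℝ} (ha : 0 ≤ a) (hb : 0 ≤ b) (ha' : 0 ≤ a')
    (hb' : 0 ≤ b') (hx : x ^ 2 ≤ a * b) (hy : y ^ 2 ≤ a' * b') :
    2 * (x * y) ≤ a * b' + a' * b := by
  refine le_of_sq_le_sq ?_ (by positivity)
  have h1 : x ^ 2 * y ^ 2 ≤ (a * b) * (a' * b') :=
    mul_le_mul hx hy (sq_nonneg _) (by positivity)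
  nlinarith [sq_nonneg (a * b' - a' * b)]

theorem cauchy_three {x y z a b c a' b' c' : ℝ} (ha : 0 ≤ a) (hb : 0 ≤ b) (hc : 0 ≤ c)
    (ha' : 0 ≤ a') (hb' : 0 ≤ b') (hc' : 0 ≤ c') (hx : x ^ 2 ≤ a * a') (hy : y ^ 2 ≤ b * b')
    (hz : z ^ 2 ≤ c * c') : (x + y + z) ^ 2 ≤ (a + b + c) * (a' + b' + c') := by
  have h1 := two_mul_le_of_sq_le ha ha' hb hb' hx hy
  have h2 := two_mul_le_of_sq_le ha ha' hc hc' hx hz
  have h3 := two_mul_le_of_sq_le hb hb' hc hc' hy hz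
  nlinarith

section Flow

variable {d L : ℕ} [NeZero L]

theorem flow_bound (hL : 2 ≤ L) {t : ℝ} (ht : 0 < t) {S : Set (Fin d → ZMod L)}
    (h0 : (0 : Fin d → ZMod L) ∈ S) {ι ρ : Type*} (s : Finset ι)
    (Φ : ι → (Fin d → ZMod L) × Fin d) (hΦ : Set.InjOn Φ s) (θ : ι → ℝ) (r : Finset ρ)
    (Ψ : ρ → (Fin d → ZMod L)) (hΨ : Set.InjOn Ψ r) (hΨS : ∀ q ∈ r, Ψ q ∉ S) (η : ρ → ℝ)
    (hflow : ∀ g : (Fin d → ZMod L) → ℝ, g 0 = (∑ p ∈ s, θ p * (g (Φ p).1 -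
      g ((Φ p).1 + Pi.single (Φ p).2 1))) + ∑ q ∈ r, η q * g (Ψ q))
    {A B : ℝ} (hA : ∑ p ∈ s, θ p ^ 2 ≤ A) (hB : ∑ q ∈ r, η q ^ 2 ≤ B)
    {f : (Fin d → ZMod L) → ℝ} (hf : ∀ y, y ∉ S → f y = 0) :
    f 0 ^ 2 ≤ (1 + A / t + B) * (f ⬝ᵥ (1 - heat d L t).mulVec f) := by
  obtain ⟨g, hg⟩ := exists_regularization (smul_gen1_isSymm (d := d) (L := L) t) (fun φ => by
    rw [quad_gen1 hL]
    have := mul_nonneg ht.le (energy_nonneg φ)
    linarith) f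
  rw [quad_gen1 hL, sub_neg_eq_add] at hg
  set h := f - g with hh
  have hA0 : 0 ≤ A := (Finset.sum_nonneg fun _ _ => sq_nonneg _).trans hA
  have hB0 : 0 ≤ B := (Finset.sum_nonneg fun _ _ => sq_nonneg _).trans hB
  have e1 : f 0 = h 0 + (∑ p ∈ s, θ p * (g (Φ p).1 - g ((Φ p).1 + Pi.single (Φ p).2 1))) +
      ∑ q ∈ r, (-η q) * h (Ψ q) := by
    have h1 := hflow g
    have h2 : ∑ q ∈ r, (-η q) * h (Ψ q) = ∑ q ∈ r, η q * g (Ψ q) := by
      refine Finset.sum_congr rfl fun q hq => ?_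
      rw [hh, Pi.sub_apply, hf _ (hΨS q hq)]; ring
    rw [h2, hh, Pi.sub_apply]
    linarith
  set Y := ∑ p ∈ s, (g (Φ p).1 - g ((Φ p).1 + Pi.single (Φ p).2 1)) ^ 2 with hY
  have hYe : Y ≤ energy g := by
    have h3 := Finset.sum_image (s := s) (g := Φ) (f := fun e : (Fin d → ZMod L) × Fin d =>
      (g e.1 - g (e.1 + Pi.single e.2 1)) ^ 2) hΦ
    rw [hY, ← h3, energy]
    exact Finset.sum_le_univ_sum_of_nonneg fun e => sq_nonneg _
  set Z := ∑ q ∈ r, h (Ψ q) ^ 2 with hZ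
  have hZe : h 0 ^ 2 + Z ≤ h ⬝ᵥ h := by
    have h3 := Finset.sum_image (s := r) (g := Ψ) (f := fun y => h y ^ 2) hΨ
    have h4 : (0 : Fin d → ZMod L) ∉ r.image Ψ := by
      intro hmem
      obtain ⟨q, hq, hq0⟩ := Finset.mem_image.mp hmem
      exact hΨS q hq (hq0 ▸ h0)
    rw [hZ, ← h3, ← Finset.sum_insert (f := fun y => h y ^ 2) h4]
    unfold dotProduct
    have h5 : ∀ y, h y * h y = h y ^ 2 := fun y => (sq _).symm
    simp only [h5]
    exact Finset.sum_le_univ_sum_of_nonneg fun e => sq_nonneg _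
  have hY0 : 0 ≤ Y := Finset.sum_nonneg fun _ _ => sq_nonneg _
  have hZ0 : 0 ≤ Z := Finset.sum_nonneg fun _ _ => sq_nonneg _
  have hy := Finset.sum_mul_sq_le_sq_mul_sq s θ
    (fun p => g (Φ p).1 - g ((Φ p).1 + Pi.single (Φ p).2 1))
  have hz := Finset.sum_mul_sq_le_sq_mul_sq r (fun q => -η q) (fun q => h (Ψ q))
  simp only [neg_sq] at hz
  rw [← hY] at hy
  rw [← hZ] at hz
  have hy2 : (∑ p ∈ s, θ p * (g (Φ p).1 - g ((Φ p).1 + Pi.single (Φ p).2 1))) ^ 2 ≤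
      A / t * (t * Y) := by
    have : A / t * (t * Y) = A * Y := by field_simp
    rw [this]
    exact hy.trans (mul_le_mul_of_nonneg_right hA hY0)
  have hz2 : (∑ q ∈ r, (-η q) * h (Ψ q)) ^ 2 ≤ B * Z :=
    hz.trans (mul_le_mul_of_nonneg_right hB hZ0)
  have hfin := cauchy_three (x := h 0) (a := 1) (a' := h 0 ^ 2) zero_le_one
    (div_nonneg hA0 ht.le) hB0 (sq_nonneg _) (mul_nonneg ht.le hY0) hZ0 (by rw [one_mul]) hy2 hz2
  rw [← e1] at hfin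
  refine hfin.trans (mul_le_mul_of_nonneg_left ?_ (by positivity))
  have : t * Y ≤ t * energy g := mul_le_mul_of_nonneg_left hYe ht.le
  rw [heat]
  linarith

end Flow

end Pool.Agent.Stirring.NoCyc
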