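import Pool.Agent.Lib.MP_6c3d62_pr.Mg.G088

/-! The largest cycle. -/

open Finset

set_option linter.unusedSectionVars false

namespace Pool.Agent.Stirring

variable {d L : ℕ} [NeZero L]

/-- The length of the longest cycle. -/
noncomputable def maxCyc {V : Type*} [Fintype V] [DecidableEq V] (σ : Equiv.Perm V) : ℕ :=
  Finset.univ.sup fun x => (cyc σ x).card

theorem exists_maxCyc {V : Type*} [Fintype V] [DecidableEq V] [Nonempty V] (σ : Equiv.Perm V) :
    ∃ x, (cyc σ x).card = maxCyc σ := by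
  unfold maxCyc
  obtain ⟨x, _, hx⟩ := Finset.exists_mem_eq_sup (Finset.univ : Finset V) Finset.univ_nonempty
    (fun x => (cyc σ x).card)
  exact ⟨x, hx.symm⟩

/-- Many edges are inside a large set. -/
theorem card_edges_in_ge (A : Finset (Fin d → ZMod L)) :
    d * (2 * A.card) ≤ (Finset.univ.filter fun e : (Fin d → ZMod L) × Fin d =>
      e.1 ∈ A ∧ e.1 + Pi.single e.2 1 ∈ A).card + d * L ^ d := by
  classical
  set S := Finset.univ.filter fun e : (Fin d → ZMod L) × Fin d =>
      e.1 ∈ A ∧ e.1 + Pi.single e.2 1 ∈ A with hS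
  set S1 := Finset.univ.filter fun e : (Fin d → ZMod L) × Fin d => e.1 ∈ A with hS1
  set S2 := Finset.univ.filter fun e : (Fin d → ZMod L) × Fin d => e.1 + Pi.single e.2 1 ∈ A
    with hS2
  have h1 : S1.card = A.card * d := by
    have : S1 = A ×ˢ (Finset.univ : Finset (Fin d)) := by
      ext e; simp [hS1]
    rw [this, Finset.card_product, Finset.card_univ, Fintype.card_fin]
  have h2 : S2.card = A.card * d := by
    rw [← h1]
    refine Finset.card_bij (fun e _ => (e.1 + Pi.single e.2 1, e.2)) ?_ ?_ ?_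
    · intro e he
      rw [hS2, Finset.mem_filter] at he
      rw [hS1, Finset.mem_filter]
      exact ⟨Finset.mem_univ _, he.2⟩
    · rintro ⟨x, i⟩ _ ⟨y, j⟩ _ h
      simp only [Prod.mk.injEq] at h
      obtain ⟨h3, rfl⟩ := h
      have := add_right_cancel h3
      rw [this]
    · rintro ⟨y, j⟩ hy
      refine ⟨(y - Pi.single j 1, j), ?_, ?_⟩
      · rw [hS1, Finset.mem_filter] at hy
        rw [hS2, Finset.mem_filter]
        simpa using hy.2
      · simp
  have h3 : S1.card + S2.card = (S1 ∪ S2).card + (S1 ∩ S2).card :=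
    (Finset.card_union_add_card_inter S1 S2).symm
  have h4 : S1 ∩ S2 = S := by
    ext e; simp [hS, hS1, hS2]
  have h5 : (S1 ∪ S2).card ≤ d * L ^ d := by
    refine (Finset.card_le_univ _).trans (le_of_eq ?_)
    rw [Fintype.card_prod, card_torus, Fintype.card_fin, mul_comm]
  rw [h4] at h3
  rw [h1, h2] at h3
  have h6 : d * (2 * A.card) = A.card * d + A.card * d := by ring
  omega

theorem maxCyc_edges (σ : Equiv.Perm (Fin d → ZMod L)) :
    (d : ℝ) * (L : ℝ) ^ d * max (2 * ((maxCyc σ : ℝ) / (L : ℝ) ^ d) - 1) 0 ≤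
      ∑ e : (Fin d → ZMod L) × Fin d,
        (if σ.SameCycle e.1 (e.1 + Pi.single e.2 1) then (1 : ℝ) else 0) := by
  classical
  have hLpos : (0 : ℝ) < (L : ℝ) ^ d := by
    have : (0 : ℝ) < L := by exact_mod_cast NeZero.pos L
    positivity
  obtain ⟨x, hx⟩ := exists_maxCyc σ
  have h1 := card_edges_in_ge (cyc σ x)
  rw [hx] at h1
  have h2 : ((Finset.univ.filter fun e : (Fin d → ZMod L) × Fin d =>
      e.1 ∈ cyc σ x ∧ e.1 + Pi.single e.2 1 ∈ cyc σ x).card : ℝ) ≤
      ∑ e : (Fin d → ZMod L) × Fin d,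
        (if σ.SameCycle e.1 (e.1 + Pi.single e.2 1) then (1 : ℝ) else 0) := by
    rw [Finset.card_filter]
    push_cast
    refine Finset.sum_le_sum fun e _ => ?_
    split_ifs with h3 h4 h4
    · exact le_refl _
    · exact absurd ((mem_cyc.mp h3.1).symm.trans (mem_cyc.mp h3.2)) h4
    · norm_num
    · exact le_refl _
  have h3 : (d : ℝ) * (2 * (maxCyc σ : ℝ)) ≤ ((Finset.univ.filter fun e :
      (Fin d → ZMod L) × Fin d => e.1 ∈ cyc σ x ∧ e.1 + Pi.single e.2 1 ∈ cyc σ x).card : ℝ) +
        d * (L : ℝ) ^ d := by exact_mod_cast h1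
  rcases max_choice (2 * ((maxCyc σ : ℝ) / (L : ℝ) ^ d) - 1) 0 with h | h
  · rw [h]
    have h4 : (d : ℝ) * (L : ℝ) ^ d * (2 * ((maxCyc σ : ℝ) / (L : ℝ) ^ d) - 1) =
        d * (2 * (maxCyc σ : ℝ)) - d * (L : ℝ) ^ d := by field_simp
    rw [h4]; linarith
  · rw [h, mul_zero]
    exact Finset.sum_nonneg fun e _ => by split_ifs <;> norm_num

theorem expect_giant_le (hd : 1 ≤ d) {s : ℝ} (hs : 0 ≤ s) (x : Fin d → ZMod L) (i : Fin d) :
    expect d L s (fun σ => max (2 * ((maxCyc σ : ℝ) / (L : ℝ) ^ d) - 1) 0) ≤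
      sameProb d L s x (x + Pi.single i 1) := by
  have hLpos : (0 : ℝ) < (L : ℝ) ^ d := by
    have : (0 : ℝ) < L := by exact_mod_cast NeZero.pos L
    positivity
  have hdpos : (0 : ℝ) < d := by exact_mod_cast hd
  have h1 := expect_mono (d := d) (L := L) hs
    (f := fun σ => (d : ℝ) * (L : ℝ) ^ d * max (2 * ((maxCyc σ : ℝ) / (L : ℝ) ^ d) - 1) 0)
    (g := fun σ => ∑ e : (Fin d → ZMod L) × Fin d,
        (if σ.SameCycle e.1 (e.1 + Pi.single e.2 1) then (1 : ℝ) else 0)) maxCyc_edges
  rw [expect_smul] at h1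
  have h3 : expect d L s (fun σ => ∑ e : (Fin d → ZMod L) × Fin d,
      (if σ.SameCycle e.1 (e.1 + Pi.single e.2 1) then (1 : ℝ) else 0)) =
      (d : ℝ) * (L : ℝ) ^ d * sameProb d L s x (x + Pi.single i 1) := by
    rw [expect_eq, E_sum]
    have h2 : ∀ e ∈ (Finset.univ : Finset ((Fin d → ZMod L) × Fin d)),
        E (fun _ : (Fin d → ZMod L) × Fin d => s) (edgeSwap d L)
          (fun σ => if σ.SameCycle e.1 (e.1 + Pi.single e.2 1) then (1 : ℝ) else 0) =
        sameProb d L s x (x + Pi.single i 1) := by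
      intro e _
      rw [← expect_eq, ← sameProb_edge s e.1 x e.2 i]
      rfl
    rw [Finset.sum_congr rfl h2, Finset.sum_const, Finset.card_univ, nsmul_eq_mul, card_letters]
  exact le_of_mul_le_mul_left (h1.trans h3.le) (by positivity)

theorem expect_at_zero (f : Equiv.Perm (Fin d → ZMod L) → ℝ) : expect d L 0 f = f 1 := by
  rw [expect_eq]
  have h : ∀ l : List ((Fin d → ZMod L) × Fin d),
      (∀ q ∈ l, (fun _ : (Fin d → ZMod L) × Fin d => (0 : ℝ)) q ≠ 0) →
      f (l.map (edgeSwap d L)).prod = (fun _ => f 1) (l.map (edgeSwap d L)).prod := by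
    intro l hl
    cases l with
    | nil => simp
    | cons q l => exact absurd rfl (hl q List.mem_cons_self)
  rw [E_congr_law (h := fun _ => f 1) _ _ h, E_const]

theorem numCycles_one {V : Type*} [Fintype V] [DecidableEq V] :
    numCycles (1 : Equiv.Perm V) = Fintype.card V := by
  have h := numCycles_add_card_support (1 : Equiv.Perm V)
  simpa using h

/-- Time average of the excess of the largest cycle over one half. -/
theorem giant_window (hd : 1 ≤ d) (hL : 2 ≤ L) {a T : ℝ} (ha : 0 ≤ a) (hT : 0 < T) :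
    (∫ s in a..(a + T), expect d L s (fun σ => max (2 * ((maxCyc σ : ℝ) / (L : ℝ) ^ d) - 1) 0)) / T ≤
      1 / 2 + (expect d L (a + T) (fun σ => (numCycles σ : ℝ)) -
        expect d L a (fun σ => (numCycles σ : ℝ))) / (d * (L : ℝ) ^ d) / (2 * T) := by
  have hi : 0 < d := by omega
  set x : Fin d → ZMod L := fun _ => 0
  set i : Fin d := ⟨0, hi⟩
  have hw := window_identity (d := d) (L := L) hd hL a (a + T) x i
  have hcont := continuous_sameProb (d := d) (L := L) x (x + Pi.single i 1)
  have hI : IntervalIntegrable (fun s => sameProb d L s x (x + Pi.single i 1))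
      MeasureTheory.volume a (a + T) := hcont.intervalIntegrable _ _
  have h1 : ∫ s in a..(a + T), (2 * sameProb d L s x (x + Pi.single i 1) - 1) =
      2 * (∫ s in a..(a + T), sameProb d L s x (x + Pi.single i 1)) - T := by
    rw [intervalIntegral.integral_sub (hI.const_mul 2) intervalIntegrable_const,
      intervalIntegral.integral_const_mul]
    simp
  rw [h1] at hw
  have hcontG : Continuous fun s : ℝ => expect d L s
      (fun σ => max (2 * ((maxCyc σ : ℝ) / (L : ℝ) ^ d) - 1) 0) := by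
    have : (fun s : ℝ => expect d L s
      (fun σ => max (2 * ((maxCyc σ : ℝ) / (L : ℝ) ^ d) - 1) 0)) = fun s =>
      E (fun _ : (Fin d → ZMod L) × Fin d => s) (edgeSwap d L)
        (fun σ => max (2 * ((maxCyc σ : ℝ) / (L : ℝ) ^ d) - 1) 0) := by
      funext s; exact expect_eq s _
    rw [this]
    exact continuous_E _ _
  have hmono : ∫ s in a..(a + T), expect d L s
      (fun σ => max (2 * ((maxCyc σ : ℝ) / (L : ℝ) ^ d) - 1) 0) ≤
      ∫ s in a..(a + T), sameProb d L s x (x + Pi.single i 1) := by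
    refine intervalIntegral.integral_mono_on (by linarith) (hcontG.intervalIntegrable _ _) hI ?_
    intro s hs
    exact expect_giant_le hd (ha.trans hs.1) x i
  rw [← hw]
  rw [div_le_iff₀ hT]
  have h2 : (1 / 2 + (2 * (∫ s in a..(a + T), sameProb d L s x (x + Pi.single i 1)) - T) /
      (2 * T)) * T = ∫ s in a..(a + T), sameProb d L s x (x + Pi.single i 1) := by
    field_simp; ring
  rw [h2]
  exact hmono

end Pool.Agent.Stirring
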