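import Pool.Agent.Lib.MP_6c3d62_pr.Giant

/-!
# The largest cycle of random stirring, on average over time

For random stirring `η_L(s)` on the torus `(ℤ/L)^d` let `p₁(s) = maxCyc (η_L(s)) / L ^ d` be the
rescaled length of the longest cycle. On average over a time interval `[0, T]` the expectation of
`(2 p₁ - 1)⁺` is at most `1/2`, hence that of `p₁` at most `3/4`; over `[a, a + T]` with `a ≥ 1` the
same holds up to a constant times `(a ^ (-d/2) + log L / L ^ d) / T`.
-/

/-! (Moved out of `Results` on Dec 2, replaced by `HierCriterion`; its claim was: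

Proves: Write p_1(s) for the rescaled length of the longest cycle of eta_L(s) and u^+ = max(u,0). For every d >= 1 there is C > 0 such that for all L >= 3 and T > 0: (1/T) int_0^T E_0 (2 p_1(s) - 1)^+ ds <= 1/2 and (1/T) int_0^T E_0 p_1(s) ds <= 3/4; and for every a >= 1 the averages of E_0 (2 p_1 - 1)^+ and E_0 p_1 over [a, a + T] are at most 1/2 + C (a^(-d/2) + log L/L^d)/T and 3/4 + C (a^(-d/2) + log L/L^d)/T.
Definitions: edgeSwap d L (x,i): transposition of x and x + e_i. expect d L t f: E_0 f(eta_L(t)); the number of rings up to t is Poisson(d L^d t) and the rings are independent uniform edges. cyc sigma x: set of vertices in the cycle of sigma through x. maxCyc sigma: length of the longest cycle, the maximum over x of the size of cyc sigma x.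
Relation: Partial answer, bearing on Q1 and on Q2(b),(c): at every time scale and in every dimension the longest cycle cannot contain more than 3/4 of the vertices, in mean and on average over time, although the giant cluster of edges that have rung has density close to 1 for large t (it does not exclude or prove macroscopic cycles). The proof combines the standard derivative identity for the number of cycles (as in Kotecky, Milos and Ueltschi 2016, hypercube) with counting edges inside a large set; I know of no earlier statement.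

-/

set_option autoImplicit false

namespace Pool.Agent.Results.MP_6c3d62_pr.GiantBound

open Pool.Agent.Stirring

/-- Time averages of the rescaled length of the longest cycle. -/
theorem result (d : ℕ) (hd : 1 ≤ d) :
    ∃ C : ℝ, 0 < C ∧ ∀ (L : ℕ) [NeZero L], 3 ≤ L → ∀ T : ℝ, 0 < T →
      (∫ s in (0 : ℝ)..T, expect d L s
          (fun σ => max (2 * ((maxCyc σ : ℝ) / (L : ℝ) ^ d) - 1) 0)) / T ≤ 1 / 2 ∧
      (∫ s in (0 : ℝ)..T, expect d L s (fun σ => (maxCyc σ : ℝ) / (L : ℝ) ^ d)) / T ≤ 3 / 4 ∧
      ∀ a : ℝ, 1 ≤ a →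
        (∫ s in a..(a + T), expect d L s
          (fun σ => max (2 * ((maxCyc σ : ℝ) / (L : ℝ) ^ d) - 1) 0)) / T ≤
          1 / 2 + C * (a ^ (-((d : ℝ) / 2)) + Real.log L / (L : ℝ) ^ d) / T ∧
        (∫ s in a..(a + T), expect d L s (fun σ => (maxCyc σ : ℝ) / (L : ℝ) ^ d)) / T ≤
          3 / 4 + C * (a ^ (-((d : ℝ) / 2)) + Real.log L / (L : ℝ) ^ d) / T := by
  refine ⟨cf d, cf_pos hd, ?_⟩
  intro L _ hL T hT
  have hL2 : 2 ≤ L := by omega
  have hLpos : (0 : ℝ) < L := by exact_mod_cast (by omega : 0 < L)
  have hLd : 0 < (L : ℝ) ^ d := by positivity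
  have hd1 : (1 : ℝ) ≤ d := by exact_mod_cast hd
  have hcf := cf_pos hd
  have hN0 : ∀ s : ℝ, 0 ≤ s → 0 ≤ expect d L s (fun σ => (numCycles σ : ℝ)) := by
    intro s hs
    have := expect_mono (d := d) (L := L) (t := s) hs (f := fun _ => 0)
      (g := fun σ => (numCycles σ : ℝ)) (fun σ => Nat.cast_nonneg _)
    rwa [expect_const] at this
  -- from the excess to the mean
  have hhalf : ∀ a : ℝ, 0 ≤ a →
      (∫ s in a..(a + T), expect d L s (fun σ => (maxCyc σ : ℝ) / (L : ℝ) ^ d)) / T ≤
      1 / 2 + (∫ s in a..(a + T), expect d L s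
          (fun σ => max (2 * ((maxCyc σ : ℝ) / (L : ℝ) ^ d) - 1) 0)) / T / 2 := by
    intro a ha
    have hc : ∀ f : Equiv.Perm (Fin d → ZMod L) → ℝ, Continuous fun s : ℝ => expect d L s f := by
      intro f
      have : (fun s : ℝ => expect d L s f) = fun s =>
        E (fun _ : (Fin d → ZMod L) × Fin d => s) (edgeSwap d L) f := by
        funext s; exact expect_eq s _
      rw [this]
      exact continuous_E _ _
    have h1 : ∫ s in a..(a + T), expect d L s (fun σ => (maxCyc σ : ℝ) / (L : ℝ) ^ d) ≤
        ∫ s in a..(a + T), (1 / 2 + 1 / 2 * expect d L s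
          (fun σ => max (2 * ((maxCyc σ : ℝ) / (L : ℝ) ^ d) - 1) 0)) := by
      refine intervalIntegral.integral_mono_on (by linarith) ((hc _).intervalIntegrable _ _)
        ((continuous_const.add ((hc _).const_mul _)).intervalIntegrable _ _) ?_
      intro s hs
      have h2 := expect_mono (d := d) (L := L) (t := s) (ha.trans hs.1)
        (f := fun σ => (maxCyc σ : ℝ) / (L : ℝ) ^ d)
        (g := fun σ => 1 / 2 + 1 / 2 * max (2 * ((maxCyc σ : ℝ) / (L : ℝ) ^ d) - 1) 0)
        (fun σ => by
          have := le_max_left (2 * ((maxCyc σ : ℝ) / (L : ℝ) ^ d) - 1) 0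
          linarith)
      refine h2.trans (le_of_eq ?_)
      rw [expect_eq, E_add, E_const, E_smul, ← expect_eq]
    rw [intervalIntegral.integral_add intervalIntegrable_const
      (((hc _).const_mul _).intervalIntegrable _ _), intervalIntegral.integral_const_mul] at h1
    simp only [intervalIntegral.integral_const, add_sub_cancel_left, smul_eq_mul] at h1
    rw [div_le_iff₀ hT]
    refine h1.trans (le_of_eq ?_)
    field_simp
  -- the interval starting at zero
  have hz : (∫ s in (0 : ℝ)..T, expect d L s
      (fun σ => max (2 * ((maxCyc σ : ℝ) / (L : ℝ) ^ d) - 1) 0)) / T ≤ 1 / 2 := by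
    have h1 := giant_window (d := d) (L := L) hd hL2 (a := 0) le_rfl hT
    rw [zero_add] at h1
    refine h1.trans ?_
    have h2 : expect d L T (fun σ => (numCycles σ : ℝ)) ≤
        expect d L 0 (fun σ => (numCycles σ : ℝ)) := by
      rw [expect_at_zero, numCycles_one]
      have := expect_mono (d := d) (L := L) (t := T) hT.le (f := fun σ => (numCycles σ : ℝ))
        (g := fun _ => ((Fintype.card (Fin d → ZMod L) : ℕ) : ℝ))
        (fun σ => by exact_mod_cast numCycles_le σ)
      rwa [expect_const] at this
    have h3 : (expect d L T (fun σ => (numCycles σ : ℝ)) -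
        expect d L 0 (fun σ => (numCycles σ : ℝ))) / (d * (L : ℝ) ^ d) / (2 * T) ≤ 0 := by
      refine div_nonpos_of_nonpos_of_nonneg (div_nonpos_of_nonpos_of_nonneg (by linarith)
        (by positivity)) (by positivity)
    linarith
  have hzz := hhalf 0 le_rfl
  rw [zero_add] at hzz
  refine ⟨hz, by linarith, ?_⟩
  intro a ha
  have hB0 : 0 ≤ a ^ (-((d : ℝ) / 2)) + Real.log L / (L : ℝ) ^ d := by
    have h1 : 0 ≤ a ^ (-((d : ℝ) / 2)) := Real.rpow_nonneg (by linarith) _
    have h2 : 0 ≤ Real.log L := Real.log_nonneg (by exact_mod_cast (by omega : 1 ≤ L))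
    positivity
  have ha0 : 0 ≤ a := by linarith
  have hCB : 0 ≤ cf d * (a ^ (-((d : ℝ) / 2)) + Real.log L / (L : ℝ) ^ d) / T := by positivity
  have hw : (∫ s in a..(a + T), expect d L s
      (fun σ => max (2 * ((maxCyc σ : ℝ) / (L : ℝ) ^ d) - 1) 0)) / T ≤
      1 / 2 + cf d * (a ^ (-((d : ℝ) / 2)) + Real.log L / (L : ℝ) ^ d) / T := by
    refine (giant_window (d := d) (L := L) hd hL2 (a := a) ha0 hT).trans ?_
    refine add_le_add_right ?_ _
    have hNb : expect d L (a + T) (fun σ => (numCycles σ : ℝ)) ≤
        (L : ℝ) ^ d * (cf d * (a ^ (-((d : ℝ) / 2)) + Real.log L / (L : ℝ) ^ d)) := by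
      refine (expect_numCycles_final hd hL2 (by linarith)).trans ?_
      have e1 : (L : ℝ) ^ d * (cf d * (a ^ (-((d : ℝ) / 2)) + Real.log L / (L : ℝ) ^ d)) =
          cf d * ((L : ℝ) ^ d * a ^ (-((d : ℝ) / 2)) + Real.log L) := by field_simp
      rw [e1]
      refine mul_le_mul_of_nonneg_left ?_ hcf.le
      refine add_le_add_left (mul_le_mul_of_nonneg_left ?_ (by positivity)) _
      exact Real.rpow_le_rpow_of_nonpos (by linarith) (by linarith) (by
        have : (0 : ℝ) ≤ d := by positivity
        linarith)
    have hNa := hN0 a ha0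
    have h1 : (expect d L (a + T) (fun σ => (numCycles σ : ℝ)) -
        expect d L a (fun σ => (numCycles σ : ℝ))) / (d * (L : ℝ) ^ d) ≤
        cf d * (a ^ (-((d : ℝ) / 2)) + Real.log L / (L : ℝ) ^ d) := by
      rw [div_le_iff₀ (by positivity)]
      have h2 : 0 ≤ (L : ℝ) ^ d * (cf d * (a ^ (-((d : ℝ) / 2)) + Real.log L / (L : ℝ) ^ d)) := by
        positivity
      nlinarith
    calc _ ≤ cf d * (a ^ (-((d : ℝ) / 2)) + Real.log L / (L : ℝ) ^ d) / (2 * T) :=
          div_le_div_of_nonneg_right h1 (by positivity)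
      _ ≤ _ := div_le_div_of_nonneg_left (by positivity) hT (by linarith)
  refine ⟨hw, ?_⟩
  have h2 := hhalf a ha0
  linarith

end Pool.Agent.Results.MP_6c3d62_pr.GiantBound
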