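import Pool.Agent.Lib.MP_6c3d62_pr.LC.Final

/-! Correlation length: growth. -/

set_option autoImplicit false

/-! Correlation length, row T2: two points at distance at most `exp (t ^ a)` are in one cycle with probability
at least `1 / 4` -/

section

open Finset

set_option linter.unusedSectionVars false

namespace Pool.Agent.Stirring.LC

open Pool.Agent.Stirring

section Pair

variable {V : Type*} [Fintype V] [DecidableEq V]

open Classical in
theorem T2_share_pair (σ : Equiv.Perm V) {x y : V} (h : x ≠ y) :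
    share σ {x, y} 0 = 1 / 2 + 1 / 2 * (if σ.SameCycle x y then 1 else 0) := by
  have hcard : ({x, y} : Finset V).card = 2 := Finset.card_pair h
  by_cases hs : σ.SameCycle x y
  · have h1 : traceSizes σ {x, y} = {2} := by
      unfold traceSizes
      have hx : (({x, y} : Finset V).filter fun z => σ.SameCycle x z) = {x, y} := by
        refine Finset.filter_true_of_mem fun z hz => ?_
        rcases Finset.mem_insert.1 hz with rfl | hz
        · exact Equiv.Perm.SameCycle.refl _ _
        · rw [Finset.mem_singleton.1 hz]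
          exact hs
      have hy : (({x, y} : Finset V).filter fun z => σ.SameCycle y z) = {x, y} := by
        refine Finset.filter_true_of_mem fun z hz => ?_
        rcases Finset.mem_insert.1 hz with rfl | hz
        · exact hs.symm
        · rw [Finset.mem_singleton.1 hz]
      rw [Finset.image_insert, Finset.image_singleton, hx, hy, Finset.insert_eq_of_mem
        (Finset.mem_singleton_self _), Finset.singleton_val, Multiset.map_singleton, hcard]
    unfold share
    rw [h1, hcard, if_pos hs]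
    norm_num
  · have h1 : traceSizes σ {x, y} = {1, 1} := by
      unfold traceSizes
      have hx : (({x, y} : Finset V).filter fun z => σ.SameCycle x z) = {x} := by
        ext z
        rw [Finset.mem_filter, Finset.mem_insert, Finset.mem_singleton, Finset.mem_singleton]
        constructor
        · rintro ⟨rfl | rfl, h2⟩
          · rfl
          · exact absurd h2 hs
        · rintro rfl
          exact ⟨Or.inl rfl, Equiv.Perm.SameCycle.refl _ _⟩
      have hy : (({x, y} : Finset V).filter fun z => σ.SameCycle y z) = {y} := by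
        ext z
        rw [Finset.mem_filter, Finset.mem_insert, Finset.mem_singleton]
        constructor
        · rintro ⟨rfl | rfl, h2⟩
          · exact absurd h2.symm hs
          · rfl
        · rintro rfl
          exact ⟨Or.inr rfl, Equiv.Perm.SameCycle.refl _ _⟩
      rw [Finset.image_insert, Finset.image_singleton, hx, hy]
      have hne : ({x} : Finset V) ∉ ({({y} : Finset V)} : Finset (Finset V)) := by
        intro h2
        exact h (Finset.singleton_injective (Finset.mem_singleton.1 h2))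
      rw [Finset.insert_val_of_notMem hne, Finset.singleton_val, Multiset.map_cons,
        Multiset.map_singleton, Finset.card_singleton, Finset.card_singleton]
      rfl
    unfold share
    rw [h1, hcard, if_neg hs]
    have h2 : (({1, 1} : Multiset ℕ).sort (· ≥ ·)) = List.replicate 2 1 := by
      refine List.eq_replicate_iff.2 ⟨by rw [Multiset.length_sort]; rfl, fun b hb => ?_⟩
      rw [Multiset.mem_sort] at hb
      simpa using hb
    rw [h2]
    norm_num [List.replicate]

open Classical in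
theorem T2_unif (n : ℕ) (hn : n = 2) :
    (∑ τ : Equiv.Perm (Fin n), share τ Finset.univ 0) / (n.factorial : ℝ) = 3 / 4 := by
  subst hn
  have h1 : (Finset.univ : Finset (Equiv.Perm (Fin 2))) = {1, Equiv.swap 0 1} := by decide
  have h2 : (Finset.univ : Finset (Fin 2)) = {0, 1} := by decide
  have h3 : (1 : Equiv.Perm (Fin 2)) ≠ Equiv.swap 0 1 := by decide
  rw [h1, Finset.sum_pair h3, h2, T2_share_pair _ (by decide : (0 : Fin 2) ≠ 1),
    T2_share_pair _ (by decide : (0 : Fin 2) ≠ 1)]
  have h4 : ¬ (1 : Equiv.Perm (Fin 2)).SameCycle 0 1 := by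
    rw [Equiv.Perm.sameCycle_one]
    decide
  have h5 : (Equiv.swap (0 : Fin 2) 1).SameCycle 0 1 := ⟨1, by simp⟩
  rw [if_neg h4, if_pos h5]
  norm_num [Nat.factorial]

end Pair

open Classical in
/-- Two vertices at distance at most `r`, `(log r) ^ C ≤ t`, are in one cycle with probability at least
`1 / 4`. -/
theorem pair_quarter_near (d : ℕ) (hd : 2 ≤ d) : ∃ (C : ℕ) (t₀ : ℝ), ∀ (L : ℕ) [NeZero L], 3 ≤ L →
    ∀ t r : ℝ, t₀ ≤ t → 1 ≤ r → Real.log r ^ C ≤ t → ∀ x y : Fin d → ZMod L, x ≠ y →
      Near d L {x, y} r →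
      1 / 4 ≤ expect d L t (fun σ => if σ.SameCycle x y then 1 else 0) := by
  obtain ⟨C, hC⟩ := share_close_local d hd
  obtain ⟨t₀, h⟩ := hC 1 (fun q => q 0) (continuous_apply 0) (1 / 8) (by norm_num)
  refine ⟨C, t₀, fun L _ hL t r ht hr hrt x y hxy hnear => ?_⟩
  have h1 := h L hL t r ht hr hrt {x, y} ⟨x, Finset.mem_insert_self _ _⟩ hnear
  have h2 := T2_unif ({x, y} : Finset (Fin d → ZMod L)).card (Finset.card_pair hxy)
  simp only [Fin.val_zero] at h1
  have h3 : (fun σ : Equiv.Perm (Fin d → ZMod L) => share σ {x, y} 0) =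
      fun σ => (fun _ => (1 : ℝ) / 2) σ + (fun σ => 1 / 2 *
        (if σ.SameCycle x y then (1 : ℝ) else 0)) σ := by
    funext σ
    exact T2_share_pair σ hxy
  rw [h3, expect_add, expect_const, expect_smul] at h1
  have h4 := (abs_le.1 h1).1
  have h5 : (∑ τ : Equiv.Perm (Fin ({x, y} : Finset (Fin d → ZMod L)).card), share τ Finset.univ 0) /
      ((({x, y} : Finset (Fin d → ZMod L)).card).factorial : ℝ) = 3 / 4 := h2
  rw [h5] at h4
  linarith

open Classical in
/-- T2. Two points of an axis at distance `s ≤ exp (t ^ a)`, `t` large. -/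
theorem pair_quarter (d : ℕ) (hd : 2 ≤ d) (i : Fin d) : ∃ a t₀ : ℝ, 0 < a ∧ ∀ t : ℝ, t₀ ≤ t →
    ∀ s : ℕ, 1 ≤ s → (s : ℝ) ≤ Real.exp (t ^ a) → ∀ (L : ℕ) [NeZero L], s < L → 3 ≤ L →
      1 / 4 ≤ expect d L t (fun σ => if σ.SameCycle 0 (Pi.single i (s : ZMod L)) then 1 else 0) := by
  obtain ⟨C, t₀, h⟩ := pair_quarter_near d hd
  refine ⟨1 / ((C : ℝ) + 1), max t₀ 1, by positivity, fun t ht s hs hst L _ hsL hL => ?_⟩
  have ht1 : 1 ≤ t := (le_max_right _ _).trans ht
  have hs1 : (1 : ℝ) ≤ s := by exact_mod_cast hs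
  have hlog : Real.log s ≤ t ^ (1 / ((C : ℝ) + 1)) := (Real.log_le_iff_le_exp (by linarith)).2 hst
  have hpow : Real.log s ^ C ≤ t := by
    calc Real.log s ^ C ≤ (t ^ (1 / ((C : ℝ) + 1))) ^ C :=
          pow_le_pow_left₀ (Real.log_nonneg hs1) hlog C
      _ = t ^ (1 / ((C : ℝ) + 1) * C) := by
          rw [Real.rpow_mul (by linarith), Real.rpow_natCast]
      _ ≤ t ^ (1 : ℝ) := by
          refine Real.rpow_le_rpow_of_exponent_le ht1 ?_
          rw [one_div, inv_mul_le_iff₀ (by positivity)]
          linarith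
      _ = t := Real.rpow_one t
  refine h L hL t s ((le_max_left _ _).trans ht) hs1 hpow _ _ ?_ ?_
  · intro h0
    have h1 := congrFun h0 i
    rw [Pi.single_eq_same, Pi.zero_apply] at h1
    have h2 := (ZMod.natCast_eq_zero_iff s L).1 h1.symm
    exact absurd (Nat.le_of_dvd hs h2) (by omega)
  · intro u hu v hv
    rw [Finset.mem_insert, Finset.mem_singleton] at hu hv
    have hsum : ∀ c : ℤ, |(c : ℝ)| ≤ s → ∑ m, |((Pi.single i c : Fin d → ℤ) m : ℝ)| ≤ s := by
      intro c hc
      rw [Finset.sum_eq_single i]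
      · rwa [Pi.single_eq_same]
      · intro m _ hm
        rw [Pi.single_eq_of_ne hm]
        simp
      · intro h2
        exact absurd (Finset.mem_univ i) h2
    have hred : ∀ c : ℤ, red d L (Pi.single i c) = Pi.single i (c : ZMod L) := by
      intro c
      funext m
      by_cases hm : m = i
      · subst hm
        simp [red]
      · simp [red, hm]
    rcases hu with rfl | rfl <;> rcases hv with rfl | rfl
    · refine ⟨Pi.single i 0, ?_, hsum 0 (by simp)⟩
      rw [hred]
      simp
    · refine ⟨Pi.single i (s : ℤ), ?_, hsum _ (by simp)⟩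
      rw [hred]
      simp
    · refine ⟨Pi.single i (-(s : ℤ)), ?_, hsum _ (by simp)⟩
      rw [hred, ← Pi.single_add]
      simp
    · refine ⟨Pi.single i 0, ?_, hsum 0 (by simp)⟩
      rw [hred]
      simp

end Pool.Agent.Stirring.LC

end

/-! Correlation length, row T4: a correlation length is at least `exp (t ^ a)` for large `t` -/

section

open Finset

namespace Pool.Agent.Stirring.LC

open Pool.Agent.Stirring

private theorem T4_dist (d : ℕ) (i : Fin d) (s N : ℕ) [NeZero N] (h : 2 * s < N) :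
    (Finset.univ.sup fun j => ((Pi.single i (s : ZMod N) : Fin d → ZMod N) j -
      (0 : Fin d → ZMod N) j).valMinAbs.natAbs) = s := by
  have h1 : (((s : ℕ) : ZMod N)).valMinAbs = (s : ℤ) := by
    rw [ZMod.valMinAbs_spec]
    refine ⟨by push_cast; rfl, ?_⟩
    rw [Set.mem_Ioc]
    constructor <;> omega
  refine le_antisymm (Finset.sup_le fun j _ => ?_) ?_
  · by_cases hj : j = i
    · subst hj
      rw [Pi.single_eq_same, Pi.zero_apply, sub_zero, h1]
      simp
    · rw [Pi.single_eq_of_ne hj, Pi.zero_apply, sub_zero]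
      simp
  · have h2 := Finset.le_sup (f := fun j => ((Pi.single i (s : ZMod N) : Fin d → ZMod N) j -
      (0 : Fin d → ZMod N) j).valMinAbs.natAbs) (Finset.mem_univ i)
    refine le_trans ?_ h2
    show s ≤ ((Pi.single i (s : ZMod N) : Fin d → ZMod N) i -
      (0 : Fin d → ZMod N) i).valMinAbs.natAbs
    rw [Pi.single_eq_same, Pi.zero_apply, sub_zero, h1]
    simp

/-- If the probability that two points at sup-distance `r` are in one cycle is at most
`2 * 2 ^ (- r / (2 k))`, then `k` is at least `exp (t ^ a)`. -/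
theorem growth (d : ℕ) (hd : 2 ≤ d) : ∃ a t₁ : ℝ, 0 < a ∧ ∀ t : ℝ, t₁ ≤ t → ∀ k : ℕ, 1 ≤ k →
    (∀ (N : ℕ) [NeZero N], 3 ≤ N → ∀ x y : Fin d → ZMod N, x ≠ y →
      expect d N t (({σ | σ.SameCycle x y} :
        Set (Equiv.Perm (Fin d → ZMod N))).indicator fun _ => 1) ≤
        2 * (2 : ℝ) ^ (-(((Finset.univ.sup fun i => (y i - x i).valMinAbs.natAbs : ℕ) : ℝ) /
          (2 * (k : ℝ))))) →
    Real.exp (t ^ a) ≤ k := by
  classical
  obtain ⟨a, t₀, ha, h⟩ := pair_quarter d hd ⟨0, by omega⟩
  refine ⟨a / 2, max (max t₀ 1) (3 ^ (2 / a)), by positivity, fun t ht k hk hup => ?_⟩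
  have ht0 : t₀ ≤ t := ((le_max_left _ _).trans (le_max_left _ _)).trans ht
  have ht1 : 1 ≤ t := ((le_max_right _ _).trans (le_max_left _ _)).trans ht
  have ht3 : (3 : ℝ) ^ (2 / a) ≤ t := (le_max_right _ _).trans ht
  have htp : (0 : ℝ) ≤ t := by linarith
  set s : ℕ := ⌊Real.exp (t ^ a)⌋₊ with hs
  have hE1 : (1 : ℝ) ≤ Real.exp (t ^ a) := Real.one_le_exp (Real.rpow_nonneg htp a)
  have hs1 : 1 ≤ s := Nat.le_floor (by simpa using hE1)
  have hsE : (s : ℝ) ≤ Real.exp (t ^ a) := Nat.floor_le (by positivity)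
  have hEs : Real.exp (t ^ a) < s + 1 := Nat.lt_floor_add_one _
  have h1 := h t ht0 s hs1 hsE (2 * s + 1) (by omega) (by omega)
  have hne : (0 : Fin d → ZMod (2 * s + 1)) ≠ Pi.single ⟨0, by omega⟩ ((s : ℕ) : ZMod (2 * s + 1)) := by
    intro h0
    have h2 := congrFun h0 ⟨0, by omega⟩
    rw [Pi.single_eq_same, Pi.zero_apply] at h2
    have h3 := (ZMod.natCast_eq_zero_iff s (2 * s + 1)).1 h2.symm
    exact absurd (Nat.le_of_dvd (by omega) h3) (by omega)
  have h2 := hup (2 * s + 1) (by omega) _ _ hne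
  rw [T4_dist d ⟨0, by omega⟩ s (2 * s + 1) (by omega)] at h2
  have h3 : (fun σ : Equiv.Perm (Fin d → ZMod (2 * s + 1)) =>
      if σ.SameCycle 0 (Pi.single ⟨0, by omega⟩ ((s : ℕ) : ZMod (2 * s + 1))) then (1 : ℝ) else 0) =
      ({σ | σ.SameCycle 0 (Pi.single ⟨0, by omega⟩ ((s : ℕ) : ZMod (2 * s + 1)))} :
        Set (Equiv.Perm (Fin d → ZMod (2 * s + 1)))).indicator fun _ => 1 := by
    funext σ
    rw [Set.indicator_apply]
    rfl
  rw [h3] at h1
  have h4 : (2 : ℝ) ^ (-3 : ℝ) ≤ (2 : ℝ) ^ (-((s : ℝ) / (2 * (k : ℝ)))) := by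
    have h5 := h1.trans h2
    have h6 : (2 : ℝ) ^ (-3 : ℝ) = 1 / 8 := by
      rw [Real.rpow_neg (by norm_num)]
      norm_num
    rw [h6]
    linarith
  have h5 := (Real.rpow_le_rpow_left_iff (by norm_num : (1 : ℝ) < 2)).1 h4
  have hk0 : (0 : ℝ) < k := by exact_mod_cast hk
  have h6 : (s : ℝ) / (2 * (k : ℝ)) ≤ 3 := by linarith
  rw [div_le_iff₀ (by positivity)] at h6
  have h7 : Real.exp (t ^ a) ≤ 12 * k := by
    have : (1 : ℝ) ≤ s := by exact_mod_cast hs1
    linarith
  -- comparison
  set u : ℝ := t ^ (a / 2) with hu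
  have hu3 : 3 ≤ u := by
    have h8 : ((3 : ℝ) ^ (2 / a)) ^ (a / 2) ≤ t ^ (a / 2) :=
      Real.rpow_le_rpow (by positivity) ht3 (by positivity)
    rw [← Real.rpow_mul (by norm_num)] at h8
    have h9 : 2 / a * (a / 2) = 1 := by field_simp
    rw [h9, Real.rpow_one] at h8
    exact h8
  have huu : t ^ a = u * u := by
    rw [hu, ← Real.rpow_add (by linarith)]
    congr 1
    ring
  have h8 : Real.exp u * 12 ≤ Real.exp (t ^ a) := by
    have h9 : Real.exp u * Real.exp 6 ≤ Real.exp (t ^ a) := by
      rw [← Real.exp_add, huu]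
      apply Real.exp_le_exp.2
      nlinarith
    have h10 : (12 : ℝ) ≤ Real.exp 6 := by
      have h11 : (2 : ℝ) ^ 6 ≤ Real.exp 1 ^ 6 :=
        pow_le_pow_left₀ (by norm_num) (by have := Real.add_one_le_exp (1 : ℝ); linarith) 6
      rw [← Real.exp_nat_mul] at h11
      norm_num at h11
      linarith
    refine le_trans ?_ h9
    exact mul_le_mul_of_nonneg_left h10 (Real.exp_pos _).le
  linarith

end Pool.Agent.Stirring.LC

end
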