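import Mathlib

/-! Definitions: random stirring on the hierarchical lattice. -/

namespace Pool.Agent.Stirring.Hier

/-- Vertices of the hierarchical lattice with `K` levels and branching number `N`: words of length
`K` in `N` letters. -/
abbrev Word (N K : ℕ) := Fin K → Fin N

/-- `x` and `y` are in the same block of level `j` (a block has `N ^ j` vertices): they agree in all
letters with index at least `j`. -/
def SameBlock {N K : ℕ} (j : ℕ) (x y : Word N K) : Prop := ∀ i : Fin K, j ≤ (i : ℕ) → x i = y i

/-- The rate at which the ordered pair `(x, y)` rings: every block of level `j = 1, …, K` rings at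
rate `g j`, and then chooses an ordered pair of its vertices uniformly at random. -/
noncomputable def pairRate (N K : ℕ) (g : ℕ → ℝ) (p : Word N K × Word N K) : ℝ :=
  by classical exact
    ∑ j ∈ Finset.Icc 1 K, if SameBlock j p.1 p.2 then g j / ((N : ℝ) ^ j) ^ 2 else 0

/-- `hexpect N K g t f` is the expectation of `f (η (t))` for random stirring on the hierarchical
lattice started from the identity: the pairs ring at the rates `pairRate` and at every ring of
`(x, y)` the permutation is multiplied by the transposition of `x` and `y` (by the identity if
`x = y`). The number of rings up to time `t` is Poisson and, given this number, the successive rings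
are independent, each equal to `p` with probability proportional to `pairRate p`. -/
noncomputable def hexpect (N K : ℕ) (g : ℕ → ℝ) (t : ℝ) (f : Equiv.Perm (Word N K) → ℝ) : ℝ :=
  ∑' n : ℕ, Real.exp (-(t * ∑ p, pairRate N K g p)) * t ^ n / (n.factorial : ℝ) *
    ∑ w : Fin n → Word N K × Word N K, (∏ i, pairRate N K g (w i)) *
      f ((List.ofFn w).map fun p => Equiv.swap p.1 p.2).prod

/-- The probability of the event `A` for random stirring at time `t`. -/
noncomputable def hprob (N K : ℕ) (g : ℕ → ℝ) (t : ℝ) (A : Set (Equiv.Perm (Word N K))) : ℝ :=
  hexpect N K g t (A.indicator fun _ => 1)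

/-- The length of the cycle of `σ` through `x`. -/
noncomputable def cycLen {V : Type*} [Fintype V] (σ : Equiv.Perm V) (x : V) : ℕ :=
  Nat.card {y // σ.SameCycle x y}

/-- A single particle moved by the stirring is recurrent: the expected time up to `T` which it
spends at its starting point, in a large system, tends to infinity with `T`. -/
def WalkRecurrent (N : ℕ) (g : ℕ → ℝ) : Prop :=
  ∀ M : ℝ, ∃ T : ℝ, 0 ≤ T ∧ ∃ K₀ : ℕ, ∀ K : ℕ, K₀ ≤ K → ∀ x : Word N K,
    M ≤ ∫ s in (0 : ℝ)..T, hprob N K g s {σ | σ x = x}

end Pool.Agent.Stirring.Hier
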