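import Pool.Agent.Lib.MP_6c3d62_pr.Mg.G076

/-! The recurrent case: tightness of the cycle lengths. -/

open Finset Filter

set_option linter.unusedSectionVars false

namespace Pool.Agent.Stirring.Hier

variable {N K : ℕ}

/-- Higher levels do not increase the truncated length much. -/
theorem EL_tl_le {g : ℕ → ℝ} {t q D : ℝ} (hN : 0 < N) (hg : ∀ j, 0 < g j) (ht : 0 < t)
    (hq0 : 0 ≤ q) (hq1 : q < 1) (hq : ∀ j, g (j + 1) / (N : ℝ) ^ (j + 1) ≤ q * (g j / (N : ℝ) ^ j))
    (hD : 0 < D) (x : Word N K) {k l : ℕ} (hkl : k ≤ l) (hlK : l ≤ K) :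
    EL N K g t l (fun τ => tl D (cl τ x)) ≤
      Real.exp (2 * D * t * (q / (1 - q)) * (g k / (N : ℝ) ^ k - g l / (N : ℝ) ^ l)) *
        EL N K g t k (fun τ => tl D (cl τ x)) := by
  have hNr : (0 : ℝ) < N := by exact_mod_cast hN
  have hgn : ∀ j, 0 ≤ g j := fun j => (hg j).le
  induction l, hkl using Nat.le_induction with
  | base => simp
  | succ l hl ih =>
    have ih' := ih (by omega)
    rw [EL_succ]
    set E1 : ℝ := Real.exp (2 * D * g (l + 1) / ((N ^ (l + 1) : ℕ) : ℝ) * t) with hE1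
    have h1 : ∀ σ ∈ pres (lab N K l), sg (brate (lab N K (l + 1)) (N ^ (l + 1)) (g (l + 1))) t
        (fun τ => tl D (cl τ x)) σ ≤ E1 * tl D (cl σ x) := by
      intro σ hσ
      exact sg_exp_upper (brate_nonneg (hgn _)) (stab_pres _ _ _)
        (fun τ hτ => gen_tl_upper (fun x => card_blk hlK x) (hgn _) hD hτ x) ht.le
        (pres_mono (Nat.le_succ l) hσ)
    refine (EL_mono hgn ht.le l h1).trans ?_
    rw [EL_mul]
    refine (mul_le_mul_of_nonneg_left ih' (Real.exp_pos _).le).trans ?_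
    rw [← mul_assoc, ← Real.exp_add]
    refine mul_le_mul_of_nonneg_right ?_ ?_
    · rw [Real.exp_le_exp]
      set a : ℝ := g (l + 1) / (N : ℝ) ^ (l + 1) with ha
      set a' : ℝ := g l / (N : ℝ) ^ l with ha'
      have h2 : 2 * D * g (l + 1) / ((N ^ (l + 1) : ℕ) : ℝ) * t = 2 * D * t * a := by
        rw [ha]; push_cast; ring
      rw [h2]
      have h3 : a ≤ q / (1 - q) * (a' - a) := by
        rw [div_mul_eq_mul_div, le_div_iff₀ (by linarith)]
        have := hq l
        linarith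
      have h4 := mul_le_mul_of_nonneg_left h3 (by positivity : 0 ≤ 2 * D * t)
      nlinarith
    · have h3 := EL_mono (N := N) (K := K) hgn ht.le k (f := fun _ => 0)
        (h := fun τ => tl D (cl τ x)) (fun τ _ => tl_nonneg hD _)
      rwa [EL_const] at h3

theorem exists_bound' {g : ℕ → ℝ} {t ρ : ℝ} (hN : 2 ≤ N) (hg : ∀ j, 0 < g j) (ht : 0 < t)
    (hρ : ∀ j, g (j + 1) ≤ ρ * g j) (hρN : ρ < N) (hs : ¬ Summable fun j => 1 / g j) :
    ∃ (D P : ℕ → ℝ), (∀ k, 0 < D k ∧ D k ≤ ((N ^ k : ℕ) : ℝ)) ∧ Tendsto P atTop (nhds 0) ∧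
      ∃ k₀, ∀ k, k₀ ≤ k → ∀ K, k ≤ K → ∀ x : Word N K,
        EL N K g t K (fun τ => tl (D k) (cl τ x)) ≤ P k := by
  have hNr : (2 : ℝ) ≤ N := by exact_mod_cast hN
  have hN0 : 0 < N := by omega
  have hm : max ρ 1 < N := max_lt hρN (by linarith)
  have hm1 : (1 : ℝ) ≤ max ρ 1 := le_max_right _ _
  set q : ℝ := max ρ 1 / N with hqdef
  have hq0 : 0 < q := by positivity
  have hq1 : q < 1 := by rw [hqdef, div_lt_one (by linarith)]; exact hm
  set κ : ℝ := min (1 / 4) (2 / 5 * (1 - q)) with hκdef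
  have hκ : 0 < κ := lt_min (by norm_num) (by linarith)
  have hκ' : κ ≤ 1 / 4 := min_le_left _ _
  have hκq : κ ≤ 2 / 5 * (1 - q) := min_le_right _ _
  have hq : q ≤ 1 - 5 / 2 * κ := by linarith
  have hqs : ∀ j, g (j + 1) / (N : ℝ) ^ (j + 1) ≤ q * (g j / (N : ℝ) ^ j) := by
    intro j
    have h1 : g (j + 1) ≤ max ρ 1 * g j :=
      (hρ j).trans (mul_le_mul_of_nonneg_right (le_max_left _ _) (hg j).le)
    have h2 : q * (g j / (N : ℝ) ^ j) = max ρ 1 * g j / (N : ℝ) ^ (j + 1) := by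
      rw [hqdef, pow_succ]; field_simp
    rw [h2]
    exact div_le_div_of_nonneg_right h1 (by positivity)
  obtain ⟨k₀, hk₀⟩ := dd_large hN hg ht hκ hρ hρN
  refine ⟨dd N g t κ, fun K => 3 * ∏ j ∈ Finset.range (K - k₀), (1 - bb g t κ (k₀ + j + 1)),
    fun K => ⟨dd_pos hN0 hg ht hκ K, dd_le hN0 K⟩, ?_, k₀, ?_⟩
  · have h1 : ¬ Summable fun j => bb g t κ (k₀ + j + 1) := by
      intro h
      refine bb_not_summable hg ht hκ hs ?_
      have h2 : (fun j => bb g t κ (k₀ + j + 1)) = fun j => bb g t κ (j + (k₀ + 1)) := by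
        funext j; congr 1; ring
      rw [h2] at h
      exact (summable_nat_add_iff (k₀ + 1)).mp h
    have h3 := prod_tendsto (fun j => bb_nonneg hg ht hκ (k₀ + j + 1))
      (fun j => bb_le hg ht hκ hκ' (k₀ + j + 1)) h1
    have h4 := (h3.comp (tendsto_sub_atTop_nat k₀)).const_mul 3
    rwa [mul_zero] at h4
  · intro k hk K hkK x
    have hdk := dd_pos hN0 hg ht hκ k
    have h1 := EL_tl_le hN0 hg ht hq0.le hq1 hqs hdk x hkK le_rfl
    have h2 := chain hN0 hg ht hκ hκ' hρ hq hk₀ x hk hkK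
    refine h1.trans (mul_le_mul ?_ h2 ?_ (by norm_num))
    · have hgk := hg k
      have hgK := hg K
      have h3 : 2 * dd N g t κ k * t * (q / (1 - q)) *
          (g k / (N : ℝ) ^ k - g K / (N : ℝ) ^ K) ≤ 4 / 5 := by
        have h4 : dd N g t κ k * t * (g k / (N : ℝ) ^ k) ≤ κ := by
          unfold dd
          have h5 : min 1 (κ / (t * g k)) * (t * g k) ≤ κ := by
            have h6 : min 1 (κ / (t * g k)) ≤ κ / (t * g k) := min_le_right _ _
            have h7 : 0 < t * g k := by positivity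
            rwa [le_div_iff₀ h7] at h6
          have h8 : min 1 (κ / (t * g k)) * ((N ^ k : ℕ) : ℝ) * t * (g k / (N : ℝ) ^ k) =
              min 1 (κ / (t * g k)) * (t * g k) := by
            push_cast
            field_simp
          rw [h8]; exact h5
        have h9 : 0 ≤ q / (1 - q) := div_nonneg hq0.le (by linarith)
        have h10 : q / (1 - q) * κ ≤ 2 / 5 := by
          rw [div_mul_eq_mul_div, div_le_iff₀ (by linarith)]
          nlinarith
        have h11 : 0 ≤ g K / (N : ℝ) ^ K := by positivity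
        have h12 : 2 * dd N g t κ k * t * (q / (1 - q)) *
            (g k / (N : ℝ) ^ k - g K / (N : ℝ) ^ K) ≤
            2 * dd N g t κ k * t * (q / (1 - q)) * (g k / (N : ℝ) ^ k) :=
          mul_le_mul_of_nonneg_left (by linarith) (by positivity)
        have h13 : 2 * dd N g t κ k * t * (q / (1 - q)) * (g k / (N : ℝ) ^ k) =
            2 * (q / (1 - q)) * (dd N g t κ k * t * (g k / (N : ℝ) ^ k)) := by ring
        rw [h13] at h12
        have h14 := mul_le_mul_of_nonneg_left h4 (by positivity : 0 ≤ 2 * (q / (1 - q)))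
        linarith
      refine (Real.exp_le_exp.mpr h3).trans ?_
      have h4 : Real.exp (4 / 5) ≤ Real.exp 1 := Real.exp_le_exp.mpr (by norm_num)
      have h5 := Real.exp_one_lt_d9
      linarith
    · have h3 := EL_mono (N := N) (K := K) (fun j => (hg j).le) ht.le k (f := fun _ => 0)
        (h := fun τ => tl (dd N g t κ k) (cl τ x)) (fun τ _ => tl_nonneg hdk _)
      rwa [EL_const] at h3

/-- In the recurrent case the lengths of the cycles are tight. -/
theorem tight_case {g : ℕ → ℝ} {ρ : ℝ} (hN : 2 ≤ N) (hg : ∀ j, 0 < g j)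
    (hρN : ρ < N) (hρ : ∀ j, g (j + 1) ≤ ρ * g j) (hs : ¬ Summable fun j => 1 / g j)
    {t : ℝ} (ht : 0 ≤ t) {δ : ℝ} (hδ : 0 < δ) :
    ∃ m : ℕ, ∀ (K : ℕ) (x : Word N K),
      hexpect N K g t (ind {σ : Equiv.Perm (Word N K) | m ≤ cycLen σ x}) ≤ δ := by
  have hN0 : 0 < N := by omega
  rcases ht.eq_or_lt with rfl | ht
  · refine ⟨2, fun K x => ?_⟩
    rw [hexpect_eq]
    unfold EL
    rw [sg_zero]
    unfold ind
    rw [Set.indicator_of_notMem]
    · exact hδ.le
    · intro h
      have h1 : 2 ≤ cycLen (1 : Equiv.Perm (Word N K)) x := h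
      rw [cycLen_eq] at h1
      have h2 : cl (1 : Equiv.Perm (Word N K)) x = 1 := by
        unfold cl
        have : ((1 : Equiv.Perm (Word N K)) : Word N K → Word N K) = id := rfl
        rw [this, Function.minimalPeriod_id]
      omega
  · obtain ⟨D, P, hD, hP, k₀, hk₀⟩ := exists_bound' hN hg ht hρ hρN hs
    have h1 : ∀ᶠ k in atTop, P k < δ := hP.eventually_lt_const hδ
    obtain ⟨k, hk1, hk2⟩ := (h1.and (eventually_ge_atTop k₀)).exists
    refine ⟨N ^ k + 1, fun K x => ?_⟩
    rw [hexpect_eq]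
    rcases le_total k K with hkK | hkK
    · refine le_trans ?_ ((hk₀ k hk2 K hkK x).trans hk1.le)
      refine EL_mono (fun j => (hg j).le) ht.le K (fun σ _ => ?_)
      unfold ind
      by_cases hm : σ ∈ {σ : Equiv.Perm (Word N K) | N ^ k + 1 ≤ cycLen σ x}
      · rw [Set.indicator_of_mem hm]
        have h2 : N ^ k + 1 ≤ cl σ x := by rw [← cycLen_eq]; exact hm
        have h3 : ((N ^ k : ℕ) : ℝ) ≤ cl σ x := by exact_mod_cast (by omega : N ^ k ≤ cl σ x)
        rw [tl_of_ge (hD k).1 ((hD k).2.trans h3)]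
      · rw [Set.indicator_of_notMem hm]
        exact tl_nonneg (hD k).1 _
    · have h2 : ∀ σ : Equiv.Perm (Word N K),
          ind {σ : Equiv.Perm (Word N K) | N ^ k + 1 ≤ cycLen σ x} σ = 0 := by
        intro σ
        unfold ind
        rw [Set.indicator_of_notMem]
        intro hm
        have h3 : N ^ k + 1 ≤ cl σ x := by rw [← cycLen_eq]; exact hm
        have h4 : cl σ x ≤ Fintype.card (Word N K) :=
          cl_le_card (B := Finset.univ) (fun y _ => Finset.mem_univ _) (Finset.mem_univ x)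
        have h5 : Fintype.card (Word N K) = N ^ K := by simp [Word]
        have h6 : N ^ K ≤ N ^ k := Nat.pow_le_pow_right hN0 hkK
        omega
      have h3 : (ind {σ : Equiv.Perm (Word N K) | N ^ k + 1 ≤ cycLen σ x}) = fun _ => 0 := by
        funext σ; exact h2 σ
      rw [h3, EL_const]
      exact hδ.le

end Pool.Agent.Stirring.Hier
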