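import Pool.Agent.Lib.MP_6c3d62_pr.Mg.G088

/-!
# Neighbours are in the same cycle with probability one half at large times

For random stirring `η_L(s)` on the torus `(ℤ/L)^d` let `sameProb d L s x y` be the probability that `x`
and `y` are in the same cycle of `η_L(s)`. In every dimension the average of this probability for two
neighbouring vertices over a time window `[t, t + T]` differs from `1/2` by at most a constant times
`(t ^ (-d/2) + log L / L ^ d) / T`.
-/

/-! (Moved out of `Results` on Dec 2, replaced by `HierTransient`; its claim was:

Proves: For every d >= 1 there is C > 0 such that for all L >= 3, t >= 1, T > 0, vertices x and directions i, the time average (1/T) int_t^(t+T) P_0(x and x + e_i are in the same cycle of eta_L(s)) ds differs from 1/2 by at most C (t^(-d/2) + log L/L^d)/T.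
Definitions: edgeSwap d L (x,i): transposition of x and x + e_i. expect d L t f: E_0 f(eta_L(t)); the number of rings up to t is Poisson(d L^d t) and the rings are independent uniform edges. sameProb d L s x y: P_0(x and y are in the same cycle of eta_L(s)).
Relation: Partial answer, bearing on Q1 and Q2(c): in every dimension, uniformly in L, two neighbours are in the same cycle with probability tending to 1/2 as t grows (averaged over time windows of length 1, with rate t^(-d/2)), the value that m(t) -> 1 together with Poisson-Dirichlet(1) macroscopic cycles would give for two vertices; it does not show that their common cycle is macroscopic. The identity d/ds E N = d L^d (2 P_0(neighbours in the same cycle) - 1) for the number N of cycles is standard (used by Kotecky, Milos and Ueltschi 2016 on the hypercube, where it gives lower bounds at early times); the new input is the bound E N = O(L^d t^(-d/2) + log L). I know of no earlier statement of this kind.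

-/

set_option autoImplicit false

namespace Pool.Agent.Results.MP_6c3d62_pr.HalfLaw

open Pool.Agent.Stirring

/-- The time-averaged probability that two neighbours are in the same cycle tends to one half, with an
explicit rate, uniformly in the side length of the torus. -/
theorem result (d : ℕ) (hd : 1 ≤ d) :
    ∃ C : ℝ, 0 < C ∧ ∀ (L : ℕ) [NeZero L], 3 ≤ L → ∀ t T : ℝ, 1 ≤ t → 0 < T →
      ∀ (x : Fin d → ZMod L) (i : Fin d),
        |(∫ s in t..(t + T), sameProb d L s x (x + Pi.single i 1)) / T - 1 / 2| ≤
          C * (t ^ (-((d : ℝ) / 2)) + Real.log L / (L : ℝ) ^ d) / T := by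
  refine ⟨cf d, cf_pos hd, ?_⟩
  intro L _ hL t T ht hT x i
  have hL2 : 2 ≤ L := by omega
  have hLpos : (0 : ℝ) < L := by exact_mod_cast (by omega : 0 < L)
  have hd1 : (1 : ℝ) ≤ d := by exact_mod_cast hd
  have hcf := cf_pos hd
  have hw := window_identity (d := d) (L := L) hd hL2 t (t + T) x i
  have hcont := continuous_sameProb (d := d) (L := L) x (x + Pi.single i 1)
  have hI : IntervalIntegrable (fun s => sameProb d L s x (x + Pi.single i 1))
      MeasureTheory.volume t (t + T) := hcont.intervalIntegrable _ _
  have h1 : ∫ s in t..(t + T), (2 * sameProb d L s x (x + Pi.single i 1) - 1) =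
      2 * (∫ s in t..(t + T), sameProb d L s x (x + Pi.single i 1)) - T := by
    rw [intervalIntegral.integral_sub (hI.const_mul 2) intervalIntegrable_const,
      intervalIntegral.integral_const_mul]
    simp
  rw [h1] at hw
  set I := ∫ s in t..(t + T), sameProb d L s x (x + Pi.single i 1) with hIdef
  set Na := expect d L t (fun σ => (numCycles σ : ℝ)) with hNa
  set Nb := expect d L (t + T) (fun σ => (numCycles σ : ℝ)) with hNb
  set B := cf d * (t ^ (-((d : ℝ) / 2)) + Real.log L / (L : ℝ) ^ d) with hB
  have hBL : (L : ℝ) ^ d * B = cf d * ((L : ℝ) ^ d * t ^ (-((d : ℝ) / 2)) + Real.log L) := by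
    rw [hB]; field_simp
  have hNa1 : Na ≤ (L : ℝ) ^ d * B := by
    rw [hBL]; exact expect_numCycles_final hd hL2 ht
  have hNb1 : Nb ≤ (L : ℝ) ^ d * B := by
    rw [hBL]
    refine (expect_numCycles_final hd hL2 (by linarith)).trans ?_
    refine mul_le_mul_of_nonneg_left ?_ hcf.le
    refine add_le_add_left (mul_le_mul_of_nonneg_left ?_ (by positivity)) _
    exact Real.rpow_le_rpow_of_nonpos (by linarith) (by linarith) (by
      have : (0 : ℝ) ≤ d := by positivity
      linarith)
  have hNa0 : 0 ≤ Na := by
    have := expect_mono (d := d) (L := L) (t := t) (by linarith) (f := fun _ => 0)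
      (g := fun σ => (numCycles σ : ℝ)) (fun σ => Nat.cast_nonneg _)
    rwa [expect_const] at this
  have hNb0 : 0 ≤ Nb := by
    have := expect_mono (d := d) (L := L) (t := t + T) (by linarith) (f := fun _ => 0)
      (g := fun σ => (numCycles σ : ℝ)) (fun σ => Nat.cast_nonneg _)
    rwa [expect_const] at this
  have hLd : 0 < (L : ℝ) ^ d := by positivity
  have hB0 : 0 ≤ B := by
    have := hNa0.trans hNa1
    exact nonneg_of_mul_nonneg_right this hLd
  have h2 : I / T - 1 / 2 = (Nb - Na) / (d * (L : ℝ) ^ d) / (2 * T) := by
    rw [← hw]; field_simp
  rw [h2, abs_div, abs_div, abs_of_pos (show 0 < (d : ℝ) * (L : ℝ) ^ d by positivity),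
    abs_of_pos (show 0 < 2 * T by positivity)]
  have h3 : |Nb - Na| ≤ (L : ℝ) ^ d * B := by
    rw [abs_le]; constructor <;> linarith
  have h4 : |Nb - Na| / (d * (L : ℝ) ^ d) ≤ B := by
    rw [div_le_iff₀ (by positivity)]
    refine h3.trans ?_
    have : 0 ≤ (L : ℝ) ^ d * B := by positivity
    nlinarith
  calc |Nb - Na| / (d * (L : ℝ) ^ d) / (2 * T) ≤ B / (2 * T) :=
        div_le_div_of_nonneg_right h4 (by positivity)
    _ ≤ B / T := by
        refine div_le_div_of_nonneg_left hB0 hT (by linarith)

end Pool.Agent.Results.MP_6c3d62_pr.HalfLaw
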