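import Pool.Agent.Lib.MP_6c3d62_pr.Mg.G049

/-! Percolation of the pairs which have rung at large times. -/

set_option autoImplicit false

namespace Pool.Agent.Stirring.Hier.Perc

open Finset

variable {N K : ℕ}

theorem Ex_add {I : Type*} [DecidableEq I] [Fintype I] (p : I → ℝ) (F G : Finset I → ℝ) :
    Ex p (fun E => F E + G E) = Ex p F + Ex p G := ExS_add p univ F G

theorem Ex_sub {I : Type*} [DecidableEq I] [Fintype I] (p : I → ℝ) (F G : Finset I → ℝ) :
    Ex p (fun E => F E - G E) = Ex p F - Ex p G := ExS_sub p univ F G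

theorem Ex_mul_left {I : Type*} [DecidableEq I] [Fintype I] (p : I → ℝ) (c : ℝ)
    (F : Finset I → ℝ) : Ex p (fun E => c * F E) = c * Ex p F := ExS_mul_left p univ c F

theorem Ex_const {I : Type*} [DecidableEq I] [Fintype I] (p : I → ℝ) (c : ℝ) :
    Ex p (fun _ => c) = c := ExS_const p univ c

theorem Ex_sum {ι I : Type*} [DecidableEq I] [Fintype I] (p : I → ℝ) (s : Finset ι)
    (F : ι → Finset I → ℝ) : Ex p (fun E => ∑ i ∈ s, F i E) = ∑ i ∈ s, Ex p (F i) :=
  ExS_sum p univ s F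

theorem Ex_mono {I : Type*} [DecidableEq I] [Fintype I] {p : I → ℝ} (h0 : ∀ e, 0 ≤ p e)
    (h1 : ∀ e, p e ≤ 1) {F G : Finset I → ℝ} (h : ∀ E, F E ≤ G E) : Ex p F ≤ Ex p G :=
  ExS_mono h0 h1 univ fun E _ => h E

/-- The truncated densities of one block. -/
theorem yy_bounds {I : Type*} [DecidableEq I] [Fintype I] {p : I → ℝ} (h0 : ∀ e, 0 ≤ p e)
    (h1 : ∀ e, p e ≤ 1) {d y : Finset I → ℝ} (hd0 : ∀ E, 0 ≤ d E)
    (hy : ∀ E, y E = if d E ≤ 7 / 8 then d E else 1) {A V : ℝ} (hA : A ≤ 1 / 8)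
    (hm : Ex p d ≤ A) (hV : Ex p (fun E => (d E - Ex p d) ^ 2) ≤ V) :
    Ex p y ≤ A + 2 / 9 * V ∧ Ex p (fun E => (y E - Ex p y) ^ 2) ≤ 13 / 9 * V := by
  have hch := Ex_cheb h0 h1 (hm.trans hA) hV
  set m := Ex p d with hmm
  have hm0 : 0 ≤ m := by
    have h2 := Ex_mono h0 h1 (F := fun _ => 0) (G := d) hd0
    rwa [Ex_const] at h2
  constructor
  · have h2 : Ex p y ≤ Ex p (fun E => d E + 1 / 8 * (if d E ≤ 7 / 8 then 0 else 1)) := by
      refine Ex_mono h0 h1 fun E => ?_
      rw [hy]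
      split_ifs with h
      · linarith
      · push Not at h
        linarith
    rw [Ex_add, Ex_mul_left] at h2
    linarith
  · refine (Ex_sq_mean_le y m).trans ?_
    have h2 : Ex p (fun E => (y E - m) ^ 2) ≤
        Ex p (fun E => (d E - m) ^ 2 + 1 / 4 * (if d E ≤ 7 / 8 then 0 else 1)) := by
      refine Ex_mono h0 h1 fun E => ?_
      rw [hy]
      split_ifs with h
      · linarith
      · push Not at h
        nlinarith
    rw [Ex_add, Ex_mul_left] at h2
    linarith

/-- The error of one level. -/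
noncomputable def er (N : ℕ) (g : ℕ → ℝ) (t : ℝ) (j : ℕ) : ℝ :=
  (N : ℝ) ^ 2 * Real.exp (-(t * g j / (64 * (N : ℝ) ^ 2)))

theorem step {g : ℕ → ℝ} (hg : ∀ j, 0 < g j) (hN : 2 ≤ N) {t : ℝ} (ht : 0 ≤ t) {A V : ℝ}
    (hA : A ≤ 1 / 8) (hV0 : 0 ≤ V)
    (ih : ∀ p, Big N K g t p → Ex p (dd N K) ≤ A ∧
      Ex p (fun E => (dd N K E - Ex p (dd N K)) ^ 2) ≤ V)
    {p : Word N (K + 1) × Word N (K + 1) → ℝ} (hp : Big N (K + 1) g t p) :
    Ex p (dd N (K + 1)) ≤ A + 2 / 9 * V + er N g t (K + 1) ∧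
      Ex p (fun E => (dd N (K + 1) E - Ex p (dd N (K + 1))) ^ 2) ≤
        13 / 18 * V + er N g t (K + 1) := by
  classical
  have hN0 : 0 < N := by omega
  have hNr : (2 : ℝ) ≤ N := by exact_mod_cast hN
  have h0 := hp.nonneg hg ht
  have hbad := Ex_not_good_le hg hN0 ht hp
  have hblk : ∀ a : Fin N, Ex (fun e => p (blk a e)) (yy N K) ≤ A + 2 / 9 * V ∧
      Ex (fun e => p (blk a e)) (fun E => (yy N K E - Ex (fun e => p (blk a e)) (yy N K)) ^ 2) ≤
        13 / 9 * V := by
    intro a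
    have hb := hp.blk hg ht a
    exact yy_bounds (hb.nonneg hg ht) hb.2 (fun E => dd_nonneg hN0 E)
      (fun E => rfl) hA (ih _ hb).1 (ih _ hb).2
  set ν : Fin N → ℝ := fun a => Ex (fun e => p (blk a e)) (yy N K) with hν
  set S : Finset (Word N (K + 1) × Word N (K + 1)) → ℝ := fun E =>
    (∑ a : Fin N, yy N K (pull (blk a) E)) / N with hS
  set n : ℝ := (∑ a, ν a) / N with hn
  set nj : Finset (Word N (K + 1) × Word N (K + 1)) → ℝ := fun E =>
    if good N K E then 0 else 1 with hnj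
  have hyy : ∀ E : Finset (Word N K × Word N K), 0 ≤ yy N K E ∧ yy N K E ≤ 1 := by
    intro E
    unfold yy
    split_ifs
    · exact ⟨dd_nonneg hN0 E, dd_le_one E⟩
    · norm_num
  have hS0 : ∀ E, 0 ≤ S E := fun E =>
    div_nonneg (Finset.sum_nonneg fun a _ => (hyy _).1) (by positivity)
  have hS1 : ∀ E, S E ≤ 1 := by
    intro E
    rw [hS]
    dsimp only
    rw [div_le_one (by linarith)]
    refine (Finset.sum_le_sum fun a _ => (hyy _).2).trans ?_
    simp
  have hES : Ex p S = n := by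
    have h1 : S = fun E => (1 / (N : ℝ)) * ∑ a : Fin N, yy N K (pull (blk a) E) := by
      funext E
      rw [hS]
      ring
    rw [h1, Ex_mul_left, Ex_sum, hn]
    have h2 : ∀ a : Fin N, Ex p (fun E => yy N K (pull (blk a) E)) = ν a := fun a =>
      Ex_pull p (blk a) (yy N K)
    rw [Finset.sum_congr rfl fun a _ => h2 a]
    ring
  have hn0 : 0 ≤ n := by
    rw [← hES]
    have h2 := Ex_mono h0 hp.2 (F := fun _ => 0) (G := S) hS0
    rwa [Ex_const] at h2
  have hn1 : n ≤ 1 := by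
    rw [← hES]
    have h2 := Ex_mono h0 hp.2 (F := S) (G := fun _ => 1) hS1
    rwa [Ex_const] at h2
  have hnA : n ≤ A + 2 / 9 * V := by
    rw [hn, div_le_iff₀ (by linarith)]
    refine (Finset.sum_le_sum fun a _ => (hblk a).1).trans ?_
    simp only [Finset.sum_const, Finset.card_univ, Fintype.card_fin, nsmul_eq_mul]
    linarith
  have hvar : Ex p (fun E => (S E - n) ^ 2) ≤ 13 / 18 * V := by
    have h1 : ∀ E, (S E - n) ^ 2 = (1 / (N : ℝ) ^ 2) * ∑ a : Fin N, ∑ b : Fin N,
        (yy N K (pull (blk a) E) - ν a) * (yy N K (pull (blk b) E) - ν b) := by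
      intro E
      have h2 : S E - n = (∑ a : Fin N, (yy N K (pull (blk a) E) - ν a)) / N := by
        rw [hS, hn]
        dsimp only
        rw [← sub_div, Finset.sum_sub_distrib]
      rw [h2, div_pow, sq (∑ a : Fin N, (yy N K (pull (blk a) E) - ν a)), Finset.sum_mul_sum]
      ring
    simp only [h1]
    rw [Ex_mul_left, Ex_sum]
    have h2 : ∀ a b : Fin N, Ex p (fun E => (yy N K (pull (blk a) E) - ν a) *
        (yy N K (pull (blk b) E) - ν b)) ≤ if a = b then 13 / 9 * V else 0 := by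
      intro a b
      split_ifs with hab
      · subst hab
        have h3 : Ex p (fun E => (yy N K (pull (blk a) E) - ν a) *
            (yy N K (pull (blk a) E) - ν a)) = Ex (fun e => p (blk a e))
              (fun E => (yy N K E - ν a) ^ 2) := by
          rw [← Ex_pull p (blk a)]
          congr 1
          funext E
          ring
        rw [h3]
        exact (hblk a).2
      · rw [Ex_blk_mul p hab (fun E => yy N K E - ν a) (fun E => yy N K E - ν b), Ex_sub, Ex_const]
        have h4 : Ex (fun e => p (blk a e)) (fun E => yy N K E) - ν a = 0 := sub_self _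
        rw [h4, zero_mul]
    have h3 : ∑ a : Fin N, Ex p (fun E => ∑ b : Fin N, (yy N K (pull (blk a) E) - ν a) *
        (yy N K (pull (blk b) E) - ν b)) ≤ (N : ℝ) * (13 / 9 * V) := by
      have h4 : ∀ a : Fin N, Ex p (fun E => ∑ b : Fin N, (yy N K (pull (blk a) E) - ν a) *
          (yy N K (pull (blk b) E) - ν b)) ≤ 13 / 9 * V := by
        intro a
        rw [Ex_sum]
        refine (Finset.sum_le_sum fun b _ => h2 a b).trans (le_of_eq ?_)
        rw [Finset.sum_ite_eq, if_pos (mem_univ _)]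
      refine (Finset.sum_le_sum fun a _ => h4 a).trans (le_of_eq ?_)
      simp
    calc 1 / (N : ℝ) ^ 2 * _ ≤ 1 / (N : ℝ) ^ 2 * ((N : ℝ) * (13 / 9 * V)) :=
          mul_le_mul_of_nonneg_left h3 (by positivity)
      _ = 13 / 9 * V * (1 / N) := by
          field_simp
      _ ≤ 13 / 9 * V * (1 / 2) := by
          refine mul_le_mul_of_nonneg_left ?_ (by positivity)
          exact one_div_le_one_div_of_le (by norm_num) hNr
      _ = 13 / 18 * V := by ring
  constructor
  · have h1 : Ex p (dd N (K + 1)) ≤ Ex p (fun E => S E + nj E) := by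
      refine Ex_mono h0 hp.2 fun E => ?_
      rw [hnj]
      dsimp only
      split_ifs with h
      · rw [dd_succ_good hN0 h, add_zero]
      · rw [dd_succ_not_good h]
        linarith [hS0 E]
    rw [Ex_add, hES] at h1
    have h2 : Ex p nj ≤ er N g t (K + 1) := hbad
    linarith
  · refine (Ex_sq_mean_le (dd N (K + 1)) n).trans ?_
    have h1 : Ex p (fun E => (dd N (K + 1) E - n) ^ 2) ≤ Ex p (fun E => (S E - n) ^ 2 + nj E) := by
      refine Ex_mono h0 hp.2 fun E => ?_
      rw [hnj]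
      dsimp only
      split_ifs with h
      · rw [dd_succ_good hN0 h, add_zero]
      · rw [dd_succ_not_good h]
        nlinarith [sq_nonneg (S E - n)]
    rw [Ex_add] at h1
    have h2 : Ex p nj ≤ er N g t (K + 1) := hbad
    linarith

/-- The bound at all levels. -/
theorem level_bound {g : ℕ → ℝ} (hg : ∀ j, 0 < g j) (hN : 2 ≤ N) {t : ℝ} (ht : 0 ≤ t)
    (hsmall : ∀ K, 9 / 5 * ∑ j ∈ Icc 1 K, er N g t j ≤ 1 / 8) (K : ℕ) :
    ∃ A V : ℝ, 0 ≤ V ∧ A + 4 / 5 * V ≤ 9 / 5 * ∑ j ∈ Icc 1 K, er N g t j ∧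
      ∀ p, Big N K g t p → Ex p (dd N K) ≤ A ∧
        Ex p (fun E => (dd N K E - Ex p (dd N K)) ^ 2) ≤ V := by
  induction K with
  | zero =>
    refine ⟨0, 0, le_rfl, by simp, fun p _ => ?_⟩
    have h1 : dd N 0 = fun _ => 0 := funext dd_zero
    rw [h1, Ex_const]
    simp only [sub_zero]
    have h2 : Ex p (fun _ => (0 : ℝ) ^ 2) = 0 ^ 2 := Ex_const p _
    rw [h2]
    norm_num
  | succ K ih =>
    obtain ⟨A, V, hV, hAV, H⟩ := ih
    have hA : A ≤ 1 / 8 := by
      have := hsmall K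
      linarith
    refine ⟨A + 2 / 9 * V + er N g t (K + 1), 13 / 18 * V + er N g t (K + 1), ?_, ?_, ?_⟩
    · have : 0 ≤ er N g t (K + 1) := by
        unfold er
        positivity
      positivity
    · rw [Finset.sum_Icc_succ_top (by omega)]
      linarith
    · intro p hp
      exact step hg hN ht hA hV H hp

/-- The sum of the errors tends to zero. -/
theorem exists_er_small {g : ℕ → ℝ} {a : ℝ} (hs : Summable fun j => Real.exp (-(a * g j)))
    (hg : ∀ j, 0 < g j) (hN : 0 < N) {δ : ℝ} (hδ : 0 < δ) :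
    ∃ t₀ : ℝ, ∀ t : ℝ, t₀ ≤ t → 0 ≤ t ∧ ∀ K, ∑ j ∈ Icc 1 K, er N g t j ≤ δ := by
  have hNr : (0 : ℝ) < N := by exact_mod_cast hN
  have h1 : Filter.Tendsto (fun s : ℝ => ∑' j, Real.exp (-(s * g j))) Filter.atTop
      (nhds (∑' _ : ℕ, (0 : ℝ))) := by
    refine tendsto_tsum_of_dominated_convergence hs ?_ ?_
    · intro j
      refine Real.tendsto_exp_neg_atTop_nhds_zero.comp ?_
      exact Filter.tendsto_id.atTop_mul_const (hg j)
    · filter_upwards [Filter.eventually_ge_atTop a] with s hsa j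
      rw [Real.norm_eq_abs, abs_of_pos (Real.exp_pos _), Real.exp_le_exp]
      have := mul_le_mul_of_nonneg_right hsa (hg j).le
      linarith
  rw [tsum_zero] at h1
  have h2 : ∀ᶠ s : ℝ in Filter.atTop, ∑' j, Real.exp (-(s * g j)) < δ / (N : ℝ) ^ 2 :=
    h1.eventually_lt_const (by positivity)
  obtain ⟨s₀, hs₀⟩ := Filter.eventually_atTop.1 h2
  refine ⟨64 * (N : ℝ) ^ 2 * max (max s₀ a) 0, fun t ht => ?_⟩
  have ht0 : 0 ≤ t := le_trans (by positivity) ht
  refine ⟨ht0, fun K => ?_⟩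
  set s : ℝ := t / (64 * (N : ℝ) ^ 2) with hs'
  have hs1 : max (max s₀ a) 0 ≤ s := by
    rw [hs', le_div_iff₀ (by positivity)]
    linarith
  have hs2 : s₀ ≤ s := ((le_max_left _ _).trans (le_max_left _ _)).trans hs1
  have hs3 : a ≤ s := ((le_max_right _ _).trans (le_max_left _ _)).trans hs1
  have hsum : Summable fun j => Real.exp (-(s * g j)) := by
    refine Summable.of_nonneg_of_le (fun j => (Real.exp_pos _).le) (fun j => ?_) hs
    rw [Real.exp_le_exp]
    have := mul_le_mul_of_nonneg_right hs3 (hg j).le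
    linarith
  have h3 : ∑ j ∈ Icc 1 K, er N g t j = (N : ℝ) ^ 2 * ∑ j ∈ Icc 1 K, Real.exp (-(s * g j)) := by
    rw [Finset.mul_sum]
    refine Finset.sum_congr rfl fun j _ => ?_
    unfold er
    rw [hs']
    congr 3
    ring
  rw [h3]
  have h4 : ∑ j ∈ Icc 1 K, Real.exp (-(s * g j)) ≤ ∑' j, Real.exp (-(s * g j)) :=
    hsum.sum_le_tsum _ fun j _ => (Real.exp_pos _).le
  have h5 := hs₀ s hs2
  calc (N : ℝ) ^ 2 * ∑ j ∈ Icc 1 K, Real.exp (-(s * g j)) ≤ (N : ℝ) ^ 2 * (δ / (N : ℝ) ^ 2) :=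
        mul_le_mul_of_nonneg_left (h4.trans h5.le) (by positivity)
    _ = δ := by field_simp

/-- Percolation at large times. -/
theorem perc_case {g : ℕ → ℝ} (hg : ∀ j, 0 < g j) (hN : 2 ≤ N) {a : ℝ}
    (hs : Summable fun j => Real.exp (-(a * g j))) {η : ℝ} (hη : 0 < η) :
    ∃ t₀ : ℝ, ∀ t : ℝ, t₀ ≤ t → ∀ K : ℕ, 1 - η ≤ rungProb N K g t
      {E | ∃ x, (1 - η) * (N : ℝ) ^ K ≤ Nat.card {y // Joined E x y}} := by
  classical
  have hN0 : 0 < N := by omega
  have hNr : (0 : ℝ) < N := by exact_mod_cast hN0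
  obtain ⟨t₀, ht₀⟩ := exists_er_small (N := N) hs hg hN0
    (show 0 < min (5 / 72) (5 / 9 * η ^ 2) by positivity)
  refine ⟨t₀, fun t ht K => ?_⟩
  obtain ⟨ht0, hsum⟩ := ht₀ t ht
  obtain ⟨A, V, hV, hAV, H⟩ := level_bound hg hN ht0 (fun K => by
    have h1 := (hsum K).trans (min_le_left _ _)
    linarith) K
  set p : Word N K × Word N K → ℝ := fun e => 1 - Real.exp (-(t * pairRate N K g e)) with hp
  have hbig : Big N K g t p := ⟨fun e => le_rfl, fun e => by
    rw [hp]
    have := Real.exp_pos (-(t * pairRate N K g e))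
    dsimp only
    linarith⟩
  have hE := (H p hbig).1
  have hdd : Ex p (dd N K) ≤ η ^ 2 := by
    have h1 := (hsum K).trans (min_le_right _ _)
    linarith
  set Q : Set (Finset (Word N K × Word N K)) :=
    {E | ∃ x, (1 - η) * (N : ℝ) ^ K ≤ Nat.card {y // Joined E x y}} with hQ
  have h2 : rungProb N K g t Q = Ex p (fun E => Q.indicator (fun _ => 1) E) := by
    unfold rungProb Ex ExS
    rw [Finset.powerset_univ]
    refine Finset.sum_congr rfl fun E _ => ?_
    rw [Finset.compl_eq_univ_sdiff]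
    congr 2
    refine Finset.prod_congr rfl fun e _ => ?_
    rw [hp]
    ring
  have h3 : Ex p (fun E => 1 - (1 / η) * dd N K E) ≤
      Ex p (fun E => Q.indicator (fun _ => 1) E) := by
    refine Ex_mono (hbig.nonneg hg ht0) hbig.2 fun E => ?_
    by_cases h4 : dd N K E ≤ η
    · have h5 : E ∈ Q := by
        have h6 : (1 - η) * (N : ℝ) ^ K ≤ ((dcl N K E).card : ℝ) := by
          unfold dd at h4
          have h7 : (1 - η) ≤ ((dcl N K E).card : ℝ) / (N : ℝ) ^ K := by linarith
          rwa [le_div_iff₀ (by positivity)] at h7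
        rcases (dcl N K E).eq_empty_or_nonempty with h7 | ⟨x, hx⟩
        · rw [h7, Finset.card_empty, Nat.cast_zero] at h6
          exact ⟨fun _ => ⟨0, hN0⟩, h6.trans (by positivity)⟩
        · refine ⟨x, h6.trans ?_⟩
          have h8 : (dcl N K E).card = Nat.card {y // y ∈ dcl N K E} := by
            rw [Nat.card_eq_fintype_card, Fintype.card_coe]
          rw [h8]
          have h9 : Nat.card {y // y ∈ dcl N K E} ≤ Nat.card {y // Joined E x y} :=
            Nat.card_le_card_of_injective (fun y : {y // y ∈ dcl N K E} =>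
              (⟨y.1, joined_dcl K E x hx y.1 y.2⟩ : {y // Joined E x y})) fun y z hyz => by
                have h10 := congrArg (fun w : {y // Joined E x y} => w.1) hyz
                exact Subtype.ext h10
          exact_mod_cast h9
      rw [Set.indicator_of_mem h5]
      have h6 : 0 ≤ 1 / η * dd N K E := mul_nonneg (by positivity) (dd_nonneg hN0 E)
      linarith
    · push Not at h4
      have h5 : 1 ≤ 1 / η * dd N K E := by
        rw [one_div, inv_mul_eq_div, le_div_iff₀ hη]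
        linarith
      have h6 : 0 ≤ Q.indicator (fun _ => (1 : ℝ)) E :=
        Set.indicator_nonneg (fun _ _ => zero_le_one) _
      linarith
  rw [Ex_sub, Ex_const, Ex_mul_left] at h3
  rw [h2]
  have h4 : 1 / η * Ex p (dd N K) ≤ η := by
    calc 1 / η * Ex p (dd N K) ≤ 1 / η * η ^ 2 :=
          mul_le_mul_of_nonneg_left hdd (by positivity)
      _ = η := by field_simp
  linarith

end Pool.Agent.Stirring.Hier.Perc
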