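import Pool.Agent.Lib.MP_6c3d62_pr.HierWalk
import Pool.Agent.Lib.MP_6c3d62_pr.HierTight
import Pool.Agent.Lib.MP_6c3d62_pr.Mg.G077
import Pool.Agent.Lib.MP_6c3d62_pr.HierPerc4

/-! Random stirring on the hierarchical lattice: there are no macroscopic cycles at any time if and
only if a single particle is recurrent, also where the pairs which have rung percolate. -/

open Filter Pool.Agent.Stirring.Hier

namespace Pool.Agent.Lib.MP_6c3d62_pr.HierCriterionThm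

theorem result (N : ℕ) (hN : 2 ≤ N) (g : ℕ → ℝ) (hg : ∀ j, 0 < g j) (c ρ : ℝ) (hc : 0 < c)
    (hρ : ρ < N) (hreg : ∀ j, c * g j ≤ g (j + 1) ∧ g (j + 1) ≤ ρ * g j) :
    ((∀ t : ℝ, 0 ≤ t → ∀ ε : ℝ, 0 < ε →
        Tendsto (fun K : ℕ => hprob N K g t {σ | ∃ x, ε * (N : ℝ) ^ K ≤ cycLen σ x})
          atTop (nhds 0)) ↔ WalkRecurrent N g) ∧
    (WalkRecurrent N g ↔ ¬ Summable fun j => 1 / g j) ∧
    (WalkRecurrent N g → ∀ t : ℝ, 0 ≤ t → ∀ δ : ℝ, 0 < δ → ∃ m : ℕ, ∀ (K : ℕ) (x : Word N K),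
      hprob N K g t {σ | m ≤ cycLen σ x} ≤ δ) ∧
    (∀ a : ℝ, Summable (fun j => Real.exp (-(a * g j))) → ∀ η : ℝ, 0 < η →
      ∃ t₀ : ℝ, ∀ t : ℝ, t₀ ≤ t → ∀ K : ℕ, 1 - η ≤ rungProb N K g t
        {E | ∃ x, (1 - η) * (N : ℝ) ^ K ≤ Nat.card {y // Joined E x y}}) := by
  classical
  have hwalk := walkRecurrent_iff hN hg hρ (fun j => (hreg j).2)
  have hN0 : 0 < N := by omega
  have hNr : (0 : ℝ) < N := by exact_mod_cast hN0
  refine ⟨⟨?_, ?_⟩, hwalk, ?_, fun a ha η hη => Perc.perc_case hg hN ha hη⟩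
  · intro h
    rw [hwalk]
    intro hs
    obtain ⟨t₀, ε, ht₀, hε, hb⟩ := transient_case hN hg hc (fun j => (hreg j).1) hs
      (by norm_num : (0 : ℝ) < 1 / 2)
    have h1 := h t₀ ht₀.le ε hε
    have h2 : ∀ K : ℕ, 1 / 2 ≤
        hprob N K g t₀ {σ | ∃ x, ε * (N : ℝ) ^ K ≤ cycLen σ x} := by
      intro K
      have hNK : (0 : ℝ) < (N : ℝ) ^ K := by positivity
      have h3 := hb t₀ le_rfl K
      rw [hexpect_eq] at h3
      have h4 := EL_mono (N := N) (K := K) (fun j => (hg j).le) ht₀.le K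
        (f := fun σ => (Nat.card {x : Word N K // ε * (N : ℝ) ^ K ≤ cycLen σ x} : ℝ))
        (h := fun σ => (N : ℝ) ^ K *
          ind {σ : Equiv.Perm (Word N K) | ∃ x, ε * (N : ℝ) ^ K ≤ cycLen σ x} σ) (by
          intro σ _
          show (Nat.card {x : Word N K // ε * (N : ℝ) ^ K ≤ cycLen σ x} : ℝ) ≤ (N : ℝ) ^ K *
            ind {σ : Equiv.Perm (Word N K) | ∃ x, ε * (N : ℝ) ^ K ≤ cycLen σ x} σ
          unfold ind
          by_cases hx : ∃ x, ε * (N : ℝ) ^ K ≤ cycLen σ x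
          · rw [Set.indicator_of_mem (by exact hx), mul_one, ← card_word,
              Nat.card_eq_fintype_card]
            exact_mod_cast Fintype.card_subtype_le _
          · rw [Set.indicator_of_notMem (by exact hx), mul_zero]
            have : IsEmpty {x : Word N K // ε * (N : ℝ) ^ K ≤ cycLen σ x} :=
              ⟨fun y => hx ⟨y.1, y.2⟩⟩
            simp)
      rw [EL_mul, ← hexpect_eq g t₀ (ind _)] at h4
      have h5 : (1 - 1 / 2) * (N : ℝ) ^ K ≤ (N : ℝ) ^ K * hprob N K g t₀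
          {σ | ∃ x, ε * (N : ℝ) ^ K ≤ cycLen σ x} := h3.trans h4
      have h6 : (N : ℝ) ^ K * (1 / 2) ≤ (N : ℝ) ^ K * hprob N K g t₀
          {σ | ∃ x, ε * (N : ℝ) ^ K ≤ cycLen σ x} := by linarith
      exact le_of_mul_le_mul_left h6 hNK
    have h3 := ge_of_tendsto' h1 h2
    norm_num at h3
  · intro h t ht ε hε
    exact recurrent_case hN hg hρ (fun j => (hreg j).2) (hwalk.mp h) ht hε
  · intro h t ht δ hδ
    exact tight_case hN hg hρ (fun j => (hreg j).2) (hwalk.mp h) ht hδ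

end Pool.Agent.Lib.MP_6c3d62_pr.HierCriterionThm
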