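import Pool.Agent.Lib.MP_6c3d62_pr.HierDefs

/-! Definitions: the graph of the pairs which have rung. -/

namespace Pool.Agent.Stirring.Hier

/-- There is a path from `x` to `y` each step of which is a pair of `E`, in one of the two
orders. -/
def Joined {V : Type*} (E : Finset (V × V)) (x y : V) : Prop :=
  Relation.ReflTransGen (fun a b => (a, b) ∈ E ∨ (b, a) ∈ E) x y

/-- The probability that the set of the ordered pairs which ring at least once up to time `t` is in
`A`: the pairs ring independently, and the pair `p` rings at least once up to time `t` with
probability `1 - exp (-t * pairRate p)`. -/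
noncomputable def rungProb (N K : ℕ) (g : ℕ → ℝ) (t : ℝ)
    (A : Set (Finset (Word N K × Word N K))) : ℝ :=
  ∑ E : Finset (Word N K × Word N K),
    ((∏ p ∈ E, (1 - Real.exp (-(t * pairRate N K g p)))) *
      ∏ p ∈ Eᶜ, Real.exp (-(t * pairRate N K g p))) * A.indicator (fun _ => 1) E

end Pool.Agent.Stirring.Hier
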