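import Pool.Agent.Lib.MP_6c3d62_pr.Mg.G076

/-! The motion of a single particle. -/

open Finset Filter

set_option linter.unusedSectionVars false

namespace Pool.Agent.Stirring.Hier

section General

variable {V : Type*} [Fintype V] [DecidableEq V] {ι : Type*} [DecidableEq ι]

/-- Indicator that `x` is fixed. -/
noncomputable def fx (x : V) (σ : Equiv.Perm V) : ℝ := if σ x = x then 1 else 0

theorem gen_fx {β : V → ι} {n : ℕ} (hn : ∀ x, (blk β x).card = n) {g : ℝ}
    {σ : Equiv.Perm V} (hσ : σ ∈ pres β) (x : V) :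
    gen (brate β n g) (fx x) σ = 2 * g / n / n - 2 * g / n * fx x σ := by
  have hn0 : (0 : ℝ) < n := by
    have : 0 < n := by rw [← hn x]; exact Finset.card_pos.mpr ⟨x, self_mem_blk β x⟩
    exact_mod_cast this
  set u : V → ℝ := fun y => if σ y = x then 1 else 0 with hu
  have hΔ : ∀ p : V × V, fx x (σ * Equiv.swap p.1 p.2) - fx x σ =
      (if p.1 = x then u p.2 - u x else 0) + (if p.2 = x then u p.1 - u x else 0) := by
    rintro ⟨a, b⟩
    unfold fx
    rw [mul_swap_apply]
    by_cases ha : a = x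
    · subst ha
      by_cases hb : b = a
      · subst hb; simp
      · simp only [Equiv.swap_apply_left, if_true, if_neg hb, add_zero, hu]
    · by_cases hb : b = x
      · subst hb
        simp only [Equiv.swap_apply_right, if_true, if_neg ha, zero_add, hu]
      · rw [Equiv.swap_apply_of_ne_of_ne (Ne.symm ha) (Ne.symm hb)]
        simp only [if_neg ha, if_neg hb]
        ring
  rw [gen_apply, Finset.sum_congr rfl fun p _ => by rw [hΔ p, mul_add], Finset.sum_add_distrib]
  have h1 : ∑ p : V × V, brate β n g p * (if p.1 = x then u p.2 - u x else 0) =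
      ∑ b ∈ blk β x, g / (n : ℝ) ^ 2 * (u b - u x) := by
    rw [Fintype.sum_prod_type, Finset.sum_eq_single x]
    · simp only [if_true]
      unfold blk
      rw [Finset.sum_filter]
      refine Finset.sum_congr rfl fun b _ => ?_
      unfold brate
      by_cases hb : β b = β x
      · rw [if_pos hb.symm, if_pos hb]
      · rw [if_neg (fun h => hb h.symm), if_neg hb, zero_mul]
    · intro a _ ha
      simp only [if_neg ha, mul_zero, Finset.sum_const_zero]
    · intro h; exact absurd (Finset.mem_univ _) h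
  have h2 : ∑ p : V × V, brate β n g p * (if p.2 = x then u p.1 - u x else 0) =
      ∑ b ∈ blk β x, g / (n : ℝ) ^ 2 * (u b - u x) := by
    rw [Fintype.sum_prod_type, Finset.sum_comm, Finset.sum_eq_single x]
    · simp only [if_true]
      unfold blk
      rw [Finset.sum_filter]
      refine Finset.sum_congr rfl fun b _ => ?_
      unfold brate
      by_cases hb : β b = β x
      · rw [if_pos hb]
        simp only [hb, if_true]
      · rw [if_neg hb]
        simp only [if_neg hb, zero_mul]
    · intro a _ ha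
      simp only [if_neg ha, mul_zero, Finset.sum_const_zero]
    · intro h; exact absurd (Finset.mem_univ _) h
  rw [h1, h2, ← Finset.mul_sum, Finset.sum_sub_distrib, Finset.sum_const, hn, nsmul_eq_mul]
  have h3 : ∑ b ∈ blk β x, u b = 1 := by
    rw [Finset.sum_eq_single (σ.symm x)]
    · simp [hu]
    · intro b _ hb
      simp only [hu]
      rw [if_neg]
      intro h
      exact hb (by rw [← h, Equiv.symm_apply_apply])
    · intro h
      exfalso
      apply h
      rw [mem_blk]
      have := hσ (σ.symm x)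
      rw [Equiv.apply_symm_apply] at this
      exact this.symm
  have h4 : u x = fx x σ := rfl
  rw [h3, h4]
  field_simp
  ring

theorem sg_fx {β : V → ι} {n : ℕ} (hn : ∀ x, (blk β x).card = n) {g : ℝ} (hg : 0 < g)
    {σ : Equiv.Perm V} (hσ : σ ∈ pres β) (x : V) {s : ℝ} (hs : 0 ≤ s) :
    sg (brate β n g) s (fx x) σ =
      1 / n + Real.exp (-(2 * g / n * s)) * (fx x σ - 1 / n) := by
  have hn0 : (0 : ℝ) < n := by
    have : 0 < n := by rw [← hn x]; exact Finset.card_pos.mpr ⟨x, self_mem_blk β x⟩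
    exact_mod_cast this
  have hb : 0 < 2 * g / n := by positivity
  have hc := brate_nonneg (β := β) (n := n) hg.le
  have hG := stab_pres β n g
  have hd : ∀ u, 0 ≤ u → sg (brate β n g) u (gen (brate β n g) (fx x)) σ =
      2 * g / n / n - 2 * g / n * sg (brate β n g) u (fx x) σ := by
    intro u hu
    have h1 := sg_congr_on hc hG (f := gen (brate β n g) (fx x))
      (g := (fun _ => 2 * g / n / n) - (2 * g / n) • (fx x)) (by
        intro τ hτ
        rw [Pi.sub_apply, Pi.smul_apply, smul_eq_mul]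
        exact gen_fx hn hτ x) hu σ hσ
    rw [h1, sg_sub, sg_const, sg_smul]
  have e : 2 * g / (n : ℝ) / n / (2 * g / n) = 1 / n := by field_simp
  have h1 := gron_lower (u := fun u => sg (brate β n g) u (fx x) σ)
    (u' := fun u => sg (brate β n g) u (gen (brate β n g) (fx x)) σ) (a := 2 * g / n / n) hb
    (sg_hasDerivAt _ _ σ) (fun u hu => (hd u hu).ge) hs
  have h2 := gron_lower (u := fun u => -sg (brate β n g) u (fx x) σ)
    (u' := fun u => -sg (brate β n g) u (gen (brate β n g) (fx x)) σ) (a := -(2 * g / n / n)) hb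
    (fun u => (sg_hasDerivAt _ _ σ u).neg) (fun u hu => by rw [hd u hu]; linarith) hs
  simp only [sg_zero] at h1 h2
  have e2 : -(2 * g / (n : ℝ) / n) / (2 * g / n) = -(1 / n) := by rw [neg_div, e]
  rw [e] at h1
  rw [e2] at h2
  refine le_antisymm ?_ h1
  linarith

end General

variable {N K : ℕ}

/-- Jump rate at level `j + 1`. -/
noncomputable def al (N : ℕ) (g : ℕ → ℝ) (j : ℕ) : ℝ := 2 * g (j + 1) / (N : ℝ) ^ (j + 1)

theorem al_pos (hN : 0 < N) {g : ℕ → ℝ} (hg : ∀ j, 0 < g j) (j : ℕ) : 0 < al N g j := by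
  have hNr : (0 : ℝ) < N := by exact_mod_cast hN
  have := hg (j + 1)
  unfold al
  positivity

/-- The return probability. -/
theorem EL_fx (hN : 0 < N) {g : ℕ → ℝ} (hg : ∀ j, 0 < g j) {s : ℝ} (hs : 0 ≤ s)
    (x : Word N K) {k : ℕ} (hk : k ≤ K) :
    EL N K g s k (fx x) = 1 / (N : ℝ) ^ k + ∑ j ∈ Finset.range k,
      (1 / (N : ℝ) ^ j - 1 / (N : ℝ) ^ (j + 1)) *
        Real.exp (-(s * ∑ i ∈ Finset.Ico j k, al N g i)) := by
  have hNr : (0 : ℝ) < N := by exact_mod_cast hN
  induction k with
  | zero =>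
    rw [EL_zero]
    unfold fx
    simp
  | succ k ih =>
    rw [EL_succ]
    set n : ℝ := (N : ℝ) ^ (k + 1) with hn
    set E : ℝ := Real.exp (-(2 * g (k + 1) / ((N ^ (k + 1) : ℕ) : ℝ) * s)) with hE
    have hcast : ((N ^ (k + 1) : ℕ) : ℝ) = n := by rw [hn]; push_cast; rfl
    have h1 : EL N K g s k (sg (brate (lab N K (k + 1)) (N ^ (k + 1)) (g (k + 1))) s (fx x)) =
        EL N K g s k (fun σ => (1 - E) / n + E * fx x σ) := by
      refine sg_congr_on (lev_nonneg (fun j => (hg j).le) k) (stab_lev g k) ?_ hs 1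
        (one_mem_pres k)
      intro σ hσ
      rw [sg_fx (fun x => card_blk hk x) (hg _) (pres_mono (Nat.le_succ k) hσ) x hs, ← hE, hcast]
      ring
    rw [h1]
    have h2 : EL N K g s k (fun σ => (1 - E) / n + E * fx x σ) =
        (1 - E) / n + E * EL N K g s k (fx x) := by
      have h3 := EL_add (N := N) (K := K) g s k (fun _ => (1 - E) / n) (fun σ => E * fx x σ)
      rw [EL_const, EL_mul] at h3
      exact h3
    rw [h2, ih (by omega), Finset.sum_range_succ]
    have h3 : ∀ j ∈ Finset.range k, (1 / (N : ℝ) ^ j - 1 / (N : ℝ) ^ (j + 1)) *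
        Real.exp (-(s * ∑ i ∈ Finset.Ico j (k + 1), al N g i)) =
        E * ((1 / (N : ℝ) ^ j - 1 / (N : ℝ) ^ (j + 1)) *
        Real.exp (-(s * ∑ i ∈ Finset.Ico j k, al N g i))) := by
      intro j hj
      rw [Finset.sum_Ico_succ_top (Finset.mem_range.mp hj).le]
      have h4 : Real.exp (-(s * (∑ i ∈ Finset.Ico j k, al N g i + al N g k))) =
          E * Real.exp (-(s * ∑ i ∈ Finset.Ico j k, al N g i)) := by
        rw [hE, ← Real.exp_add, hcast, hn]
        congr 1
        unfold al
        ring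
      rw [h4]
      ring
    rw [Finset.sum_congr rfl h3, ← Finset.mul_sum]
    have h5 : Real.exp (-(s * ∑ i ∈ Finset.Ico k (k + 1), al N g i)) = E := by
      rw [Finset.sum_Ico_succ_top le_rfl, Finset.Ico_self, Finset.sum_empty, zero_add, hE, hcast,
        hn]
      unfold al
      congr 1
      ring
    rw [h5, ← hn]
    ring

theorem integral_exp_lin {A : ℝ} (hA : 0 < A) (T : ℝ) :
    ∫ s in (0 : ℝ)..T, Real.exp (-(s * A)) = (1 - Real.exp (-(T * A))) / A := by
  have h1 : ∀ s ∈ Set.uIcc 0 T, HasDerivAt (fun s => -(Real.exp (-(s * A)) / A))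
      (Real.exp (-(s * A))) s := by
    intro s _
    have h2 : HasDerivAt (fun s : ℝ => -(s * A)) (-(1 * A)) s :=
      ((hasDerivAt_id s).mul_const A).neg
    have h3 := (h2.exp.div_const A).neg
    refine h3.congr_deriv ?_
    field_simp
  rw [intervalIntegral.integral_eq_sub_of_hasDerivAt h1
    (Continuous.intervalIntegrable (by fun_prop) _ _)]
  simp only [zero_mul, neg_zero, Real.exp_zero]
  ring

/-- The expected occupation time. -/
theorem integral_return (hN : 0 < N) {g : ℕ → ℝ} (hg : ∀ j, 0 < g j) {T : ℝ} (hT : 0 ≤ T)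
    (x : Word N K) :
    ∫ s in (0 : ℝ)..T, hexpect N K g s (ind {σ : Equiv.Perm (Word N K) | σ x = x}) =
      T / (N : ℝ) ^ K + ∑ j ∈ Finset.range K, (1 / (N : ℝ) ^ j - 1 / (N : ℝ) ^ (j + 1)) *
        ((1 - Real.exp (-(T * ∑ i ∈ Finset.Ico j K, al N g i))) /
          ∑ i ∈ Finset.Ico j K, al N g i) := by
  classical
  have hNr : (0 : ℝ) < N := by exact_mod_cast hN
  have h1 : ∀ s ∈ Set.uIcc 0 T,
      hexpect N K g s (ind {σ : Equiv.Perm (Word N K) | σ x = x}) =
      1 / (N : ℝ) ^ K + ∑ j ∈ Finset.range K,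
      (1 / (N : ℝ) ^ j - 1 / (N : ℝ) ^ (j + 1)) *
        Real.exp (-(s * ∑ i ∈ Finset.Ico j K, al N g i)) := by
    intro s hs
    rw [Set.uIcc_of_le hT] at hs
    rw [hexpect_eq, ← EL_fx hN hg hs.1 x le_rfl]
    congr 1
    funext σ
    unfold ind fx
    by_cases h : σ x = x
    · rw [Set.indicator_of_mem (by exact h), if_pos h]
    · rw [Set.indicator_of_notMem (by exact h), if_neg h]
  rw [intervalIntegral.integral_congr h1, intervalIntegral.integral_add
    (Continuous.intervalIntegrable (by fun_prop) _ _)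
    (Continuous.intervalIntegrable (by fun_prop) _ _), intervalIntegral.integral_const,
    intervalIntegral.integral_finsetSum
      (fun j _ => Continuous.intervalIntegrable (by fun_prop) _ _)]
  congr 1
  · rw [sub_zero, smul_eq_mul]; ring
  · refine Finset.sum_congr rfl fun j hj => ?_
    rw [intervalIntegral.integral_const_mul, integral_exp_lin]
    exact Finset.sum_pos (fun i _ => al_pos hN hg i) ⟨j, Finset.mem_Ico.mpr
      ⟨le_rfl, Finset.mem_range.mp hj⟩⟩

theorem occ_upper (hN : 0 < N) {g : ℕ → ℝ} (hg : ∀ j, 0 < g j) {T : ℝ} (hT : 0 ≤ T)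
    (x : Word N K) :
    ∫ s in (0 : ℝ)..T, hexpect N K g s (ind {σ : Equiv.Perm (Word N K) | σ x = x}) ≤
      T / (N : ℝ) ^ K + (N : ℝ) / 2 * ∑ j ∈ Finset.range K, 1 / g (j + 1) := by
  have hNr : (0 : ℝ) < N := by exact_mod_cast hN
  have hN1 : (1 : ℝ) ≤ N := by exact_mod_cast hN
  rw [integral_return hN hg hT, Finset.mul_sum]
  refine add_le_add le_rfl (Finset.sum_le_sum fun j hj => ?_)
  have hjK := Finset.mem_range.mp hj
  have hA : al N g j ≤ ∑ i ∈ Finset.Ico j K, al N g i :=
    Finset.single_le_sum (f := fun i => al N g i) (fun i _ => (al_pos hN hg i).le)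
      (Finset.mem_Ico.mpr ⟨le_rfl, hjK⟩)
  have hal := al_pos hN hg j
  have hApos : 0 < ∑ i ∈ Finset.Ico j K, al N g i := lt_of_lt_of_le hal hA
  have h1 : (1 - Real.exp (-(T * ∑ i ∈ Finset.Ico j K, al N g i))) /
      ∑ i ∈ Finset.Ico j K, al N g i ≤ 1 / al N g j := by
    rw [div_le_div_iff₀ hApos hal]
    have h2 := Real.exp_pos (-(T * ∑ i ∈ Finset.Ico j K, al N g i))
    nlinarith
  have hp1 : (0 : ℝ) < (N : ℝ) ^ j := by positivity
  have hp2 : (0 : ℝ) < (N : ℝ) ^ (j + 1) := by positivity
  have h3 : 1 / (N : ℝ) ^ j - 1 / (N : ℝ) ^ (j + 1) ≤ 1 / (N : ℝ) ^ j := by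
    have : 0 < 1 / (N : ℝ) ^ (j + 1) := by positivity
    linarith
  have h4 : 0 ≤ (1 - Real.exp (-(T * ∑ i ∈ Finset.Ico j K, al N g i))) /
      ∑ i ∈ Finset.Ico j K, al N g i := by
    refine div_nonneg ?_ hApos.le
    have : Real.exp (-(T * ∑ i ∈ Finset.Ico j K, al N g i)) ≤ 1 := by
      rw [Real.exp_le_one_iff]
      have := mul_nonneg hT hApos.le
      linarith
    linarith
  refine (mul_le_mul h3 h1 h4 (by positivity)).trans (le_of_eq ?_)
  unfold al
  have := hg (j + 1)
  rw [pow_succ]
  field_simp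

theorem tail_al (hN : 0 < N) {g : ℕ → ℝ} (hg : ∀ j, 0 < g j) {q : ℝ} (hq0 : 0 ≤ q) (hq1 : q < 1)
    (hq : ∀ j, al N g (j + 1) ≤ q * al N g j) (j m : ℕ) :
    ∑ i ∈ Finset.Ico j (j + m), al N g i ≤ al N g j / (1 - q) := by
  have h1 : ∀ i, al N g (j + i) ≤ q ^ i * al N g j := by
    intro i
    induction i with
    | zero => simp
    | succ i ih =>
      refine (hq (j + i)).trans ?_
      rw [pow_succ']
      have := mul_le_mul_of_nonneg_left ih hq0
      linarith
  rw [Finset.sum_Ico_eq_sum_range, Nat.add_sub_cancel_left]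
  have h2 : ∑ i ∈ Finset.range m, al N g (j + i) ≤ ∑ i ∈ Finset.range m, q ^ i * al N g j :=
    Finset.sum_le_sum fun i _ => h1 i
  refine h2.trans ?_
  rw [← Finset.sum_mul, div_eq_inv_mul]
  refine mul_le_mul_of_nonneg_right ?_ (al_pos hN hg j).le
  have h3 := (summable_geometric_of_lt_one hq0 hq1).sum_le_tsum (Finset.range m)
    (fun i _ => pow_nonneg hq0 i)
  rwa [tsum_geometric_of_lt_one hq0 hq1] at h3

/-- The particle is recurrent if and only if the sum of `1 / g j` diverges. -/
theorem walkRecurrent_iff (hN : 2 ≤ N) {g : ℕ → ℝ} (hg : ∀ j, 0 < g j) {ρ : ℝ} (hρN : ρ < N)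
    (hρ : ∀ j, g (j + 1) ≤ ρ * g j) :
    WalkRecurrent N g ↔ ¬ Summable fun j => 1 / g j := by
  have hN0 : 0 < N := by omega
  have hNr : (2 : ℝ) ≤ N := by exact_mod_cast hN
  have h0 : ∀ j, 0 ≤ 1 / g j := fun j => by
    have := hg j
    positivity
  constructor
  · intro hrec hs
    set S := ∑' j, 1 / g j with hS
    have hS1 : ∀ K, ∑ j ∈ Finset.range K, 1 / g (j + 1) ≤ S := by
      intro K
      have h1 := hs.sum_le_tsum (Finset.range (K + 1)) (fun j _ => h0 j)
      rw [Finset.sum_range_succ'] at h1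
      have := h0 0
      linarith
    obtain ⟨T, hT, K₀, hK₀⟩ := hrec (2 + N / 2 * S)
    have h1 : ∀ᶠ K : ℕ in atTop, T ≤ (N : ℝ) ^ K :=
      (tendsto_pow_atTop_atTop_of_one_lt (by linarith)).eventually_ge_atTop _
    obtain ⟨K, hK1, hK2⟩ := (h1.and (eventually_ge_atTop K₀)).exists
    have x : Word N K := fun _ => ⟨0, hN0⟩
    have h2 : 2 + (N : ℝ) / 2 * S ≤ ∫ s in (0 : ℝ)..T,
        hexpect N K g s (ind {σ : Equiv.Perm (Word N K) | σ x = x}) := hK₀ K hK2 x
    have h3 := occ_upper hN0 hg hT x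
    have h4 : T / (N : ℝ) ^ K ≤ 1 := by
      rw [div_le_one (by positivity)]; exact hK1
    have h5 := mul_le_mul_of_nonneg_left (hS1 K) (by positivity : (0 : ℝ) ≤ (N : ℝ) / 2)
    linarith
  · intro hs M
    have hm : max ρ 1 < N := max_lt hρN (by linarith)
    have hm1 : (1 : ℝ) ≤ max ρ 1 := le_max_right _ _
    set q : ℝ := max ρ 1 / N with hqdef
    have hq0 : 0 < q := by positivity
    have hq1 : q < 1 := by rw [hqdef, div_lt_one (by linarith)]; exact hm
    have hqs : ∀ j, al N g (j + 1) ≤ q * al N g j := by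
      intro j
      have h1 : g (j + 1 + 1) ≤ max ρ 1 * g (j + 1) :=
        (hρ (j + 1)).trans (mul_le_mul_of_nonneg_right (le_max_left _ _) (hg (j + 1)).le)
      unfold al
      have h2 : q * (2 * g (j + 1) / (N : ℝ) ^ (j + 1)) =
          2 * (max ρ 1 * g (j + 1)) / (N : ℝ) ^ (j + 1 + 1) := by
        rw [hqdef, pow_succ _ (j + 1)]; field_simp
      rw [h2]
      exact div_le_div_of_nonneg_right (by linarith) (by positivity)
    have hns : ¬ Summable fun j => 1 / g (j + 1) := by
      intro h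
      exact hs ((summable_nat_add_iff 1).mp h)
    have htend := (not_summable_iff_tendsto_nat_atTop_of_nonneg (fun j => h0 (j + 1))).mp hns
    -- the constant
    set c₀ : ℝ := (1 - q) / 8 with hc₀
    have hc₀0 : 0 < c₀ := by
      have : 0 < 1 - q := by linarith
      positivity
    obtain ⟨J, hJ⟩ := (htend.eventually_ge_atTop (M / c₀)).exists
    -- the time
    obtain ⟨T, hT0, hT⟩ : ∃ T : ℝ, 0 ≤ T ∧ ∀ j ∈ Finset.range J, 1 ≤ T * al N g j := by
      refine ⟨∑ j ∈ Finset.range J, 1 / al N g j, Finset.sum_nonneg fun j _ => by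
        have := al_pos hN0 hg j
        positivity, ?_⟩
      intro j hj
      have h1 := Finset.single_le_sum (f := fun j => 1 / al N g j) (fun i _ => by
        have := al_pos hN0 hg i
        positivity) hj
      have h2 := al_pos hN0 hg j
      have h3 := mul_le_mul_of_nonneg_right h1 h2.le
      have h4 : 1 / al N g j * al N g j = 1 := by field_simp
      linarith
    refine ⟨T, hT0, J, fun K hK x => ?_⟩
    show M ≤ ∫ s in (0 : ℝ)..T, hexpect N K g s (ind {σ : Equiv.Perm (Word N K) | σ x = x})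
    rw [integral_return hN0 hg hT0]
    have h1 : ∀ j ∈ Finset.range J, c₀ * (1 / g (j + 1)) ≤
        (1 / (N : ℝ) ^ j - 1 / (N : ℝ) ^ (j + 1)) *
        ((1 - Real.exp (-(T * ∑ i ∈ Finset.Ico j K, al N g i))) /
          ∑ i ∈ Finset.Ico j K, al N g i) := by
      intro j hj
      have hjJ := Finset.mem_range.mp hj
      have hal := al_pos hN0 hg j
      obtain ⟨m, rfl⟩ : ∃ m, K = j + m := ⟨K - j, by omega⟩
      have hA : al N g j ≤ ∑ i ∈ Finset.Ico j (j + m), al N g i :=
        Finset.single_le_sum (f := fun i => al N g i) (fun i _ => (al_pos hN0 hg i).le)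
          (Finset.mem_Ico.mpr ⟨le_rfl, by omega⟩)
      have hA2 := tail_al hN0 hg hq0.le hq1 hqs j m
      set A : ℝ := ∑ i ∈ Finset.Ico j (j + m), al N g i with hAdef
      have hApos : 0 < A := lt_of_lt_of_le hal hA
      have h2 : 1 / 2 ≤ 1 - Real.exp (-(T * A)) := by
        have h3 : 1 ≤ T * A := (hT j hj).trans (mul_le_mul_of_nonneg_left hA hT0)
        have h4 : Real.exp (-(T * A)) ≤ Real.exp (-1) := Real.exp_le_exp.mpr (by linarith)
        have h5 : Real.exp (-1) ≤ 1 / 2 := by
          have h6 := Real.add_one_le_exp (1 : ℝ)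
          have h7 : Real.exp 1 * Real.exp (-1) = 1 := by rw [← Real.exp_add]; simp
          have h8 := Real.exp_pos (-1)
          nlinarith
        linarith
      have h3 : (1 - q) / (2 * al N g j) ≤ (1 - Real.exp (-(T * A))) / A := by
        rw [div_le_div_iff₀ (by positivity) hApos]
        have h4 : A * (1 - q) ≤ al N g j := by
          rwa [le_div_iff₀ (by linarith)] at hA2
        nlinarith
      have hp1 : (0 : ℝ) < (N : ℝ) ^ j := by positivity
      have h4 : 1 / 2 * (1 / (N : ℝ) ^ j) ≤ 1 / (N : ℝ) ^ j - 1 / (N : ℝ) ^ (j + 1) := by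
        have h5 : 1 / (N : ℝ) ^ (j + 1) ≤ 1 / 2 * (1 / (N : ℝ) ^ j) := by
          rw [pow_succ, one_div_mul_one_div]
          refine one_div_le_one_div_of_le (by positivity) ?_
          nlinarith
        linarith
      have h5 : 0 ≤ (1 - q) / (2 * al N g j) := by
        have : 0 < 1 - q := by linarith
        positivity
      refine le_trans ?_ (mul_le_mul h4 h3 h5 (by
        have : 0 < 1 / 2 * (1 / (N : ℝ) ^ j) := by positivity
        linarith))
      have hgj := hg (j + 1)
      have h6 : 1 / 2 * (1 / (N : ℝ) ^ j) * ((1 - q) / (2 * al N g j)) =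
          N * ((1 - q) / 8 * (1 / g (j + 1))) := by
        unfold al
        rw [pow_succ]
        field_simp
        ring
      rw [h6, hc₀]
      have h7 : 0 ≤ (1 - q) / 8 * (1 / g (j + 1)) := by
        have : 0 < 1 - q := by linarith
        positivity
      nlinarith
    have h2 : ∑ j ∈ Finset.range J, c₀ * (1 / g (j + 1)) ≤ ∑ j ∈ Finset.range K,
        (1 / (N : ℝ) ^ j - 1 / (N : ℝ) ^ (j + 1)) *
        ((1 - Real.exp (-(T * ∑ i ∈ Finset.Ico j K, al N g i))) /
          ∑ i ∈ Finset.Ico j K, al N g i) := by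
      refine (Finset.sum_le_sum h1).trans ?_
      refine Finset.sum_le_sum_of_subset_of_nonneg ?_ ?_
      · intro j hj
        rw [Finset.mem_range] at *
        omega
      · intro j hj _
        have hA : 0 ≤ ∑ i ∈ Finset.Ico j K, al N g i :=
          Finset.sum_nonneg fun i _ => (al_pos hN0 hg i).le
        refine mul_nonneg ?_ (div_nonneg ?_ hA)
        · rw [sub_nonneg]
          refine one_div_le_one_div_of_le (by positivity) ?_
          exact pow_le_pow_right₀ (by linarith) (by omega)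
        · have : Real.exp (-(T * ∑ i ∈ Finset.Ico j K, al N g i)) ≤ 1 := by
            rw [Real.exp_le_one_iff]
            have := mul_nonneg hT0 hA
            linarith
          linarith
    rw [← Finset.mul_sum] at h2
    have h3 : M ≤ c₀ * ∑ j ∈ Finset.range J, 1 / g (j + 1) := by
      rw [div_le_iff₀ hc₀0] at hJ
      linarith
    have h4 : 0 ≤ T / (N : ℝ) ^ K := by positivity
    linarith

end Pool.Agent.Stirring.Hier
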