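import Pool.Agent.Lib.MP_6c3d62_pr.TorusEnergy

/-! A logarithmic cut-off function on the two-dimensional torus. -/

open Finset

set_option linter.unusedSectionVars false

namespace Pool.Agent.Stirring.NoCyc

/-- The distance to `0` in `ℤ/L`. -/
def zabs {L : ℕ} (a : ZMod L) : ℕ := a.valMinAbs.natAbs

section ZMod

variable {L : ℕ} [NeZero L]

theorem zabs_one_le (hL : 2 ≤ L) : zabs (1 : ZMod L) ≤ 1 := by
  have h := ZMod.valMinAbs_natCast_of_le_half (n := L) (a := 1) (by omega)
  rw [Nat.cast_one] at h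
  rw [zabs, h]
  simp

theorem zabs_add_one_le (hL : 2 ≤ L) (a : ZMod L) : zabs (a + 1) ≤ zabs a + 1 := by
  have h1 := ZMod.natAbs_valMinAbs_add_le a 1
  have h2 := Int.natAbs_add_le a.valMinAbs (1 : ZMod L).valMinAbs
  have h3 := zabs_one_le hL
  unfold zabs at *
  omega

theorem zabs_le_add_one (hL : 2 ≤ L) (a : ZMod L) : zabs a ≤ zabs (a + 1) + 1 := by
  have h1 := ZMod.natAbs_valMinAbs_add_le (a + 1) (-1)
  have h2 := Int.natAbs_add_le (a + 1).valMinAbs (-1 : ZMod L).valMinAbs
  have h3 := zabs_one_le hL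
  have h4 := ZMod.natAbs_valMinAbs_neg (1 : ZMod L)
  rw [add_neg_cancel_right] at h1
  unfold zabs at *
  omega

theorem card_zabs_eq (m : ℕ) : (Finset.univ.filter fun a : ZMod L => zabs a = m).card ≤ 2 := by
  have h : (Finset.univ.filter fun a : ZMod L => zabs a = m) ⊆ {(m : ZMod L), -(m : ZMod L)} := by
    intro a ha
    replace ha : a.valMinAbs.natAbs = m := (Finset.mem_filter.mp ha).2
    simp only [Finset.mem_insert, Finset.mem_singleton]
    have h1 := ZMod.coe_valMinAbs a
    rcases Int.natAbs_eq a.valMinAbs with h2 | h2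
    · left; rw [← h1, h2, ha]; simp
    · right; rw [← h1, h2, ha]; simp
  exact (Finset.card_le_card h).trans Finset.card_le_two

theorem card_zabs_le (m : ℕ) :
    (Finset.univ.filter fun a : ZMod L => zabs a ≤ m).card ≤ 2 * m + 1 := by
  have h : (Finset.univ.filter fun a : ZMod L => zabs a ≤ m) ⊆
      (Finset.Icc (-(m : ℤ)) m).image (fun k : ℤ => (k : ZMod L)) := by
    intro a ha
    replace ha : a.valMinAbs.natAbs ≤ m := (Finset.mem_filter.mp ha).2
    rw [Finset.mem_image]
    refine ⟨a.valMinAbs, ?_, ZMod.coe_valMinAbs a⟩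
    rw [Finset.mem_Icc]
    omega
  refine (Finset.card_le_card h).trans (Finset.card_image_le.trans ?_)
  rw [Int.card_Icc]
  omega

end ZMod

/-- Harmonic sum. -/
noncomputable def harm (R : ℕ) : ℝ := ∑ j ∈ Finset.range (R + 1), 1 / ((j : ℝ) + 1)

theorem harm_pos (R : ℕ) : 0 < harm R :=
  Finset.sum_pos (fun j _ => by positivity) ⟨0, by simp⟩

theorem log_le_harm (R : ℕ) : Real.log ((R : ℝ) + 2) ≤ harm R := by
  have h := log_add_one_le_harmonic (R + 1)
  have h2 : ((harmonic (R + 1) : ℚ) : ℝ) = harm R := by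
    rw [harmonic, harm]
    push_cast
    refine Finset.sum_congr rfl fun j _ => by rw [one_div]
  rw [h2] at h
  refine le_trans (le_of_eq ?_) h
  congr 1
  push_cast; ring

/-- The logarithmic profile. -/
noncomputable def psi (R r : ℕ) : ℝ := (∑ j ∈ Finset.Ico r (R + 1), 1 / ((j : ℝ) + 1)) / harm R

theorem psi_zero (R : ℕ) : psi R 0 = 1 := by
  rw [psi, Nat.Ico_zero_eq_range]
  exact div_self (harm_pos R).ne'

theorem psi_eq_zero {R r : ℕ} (h : R < r) : psi R r = 0 := by
  rw [psi, Finset.Ico_eq_empty (by omega)]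
  simp

theorem psi_sub (R r : ℕ) : psi R r - psi R (r + 1) =
    if r ≤ R then 1 / (((r : ℝ) + 1) * harm R) else 0 := by
  split_ifs with h
  · have := harm_pos R
    rw [psi, psi, Finset.sum_eq_sum_Ico_succ_bot (by omega : r < R + 1)]
    field_simp
    ring
  · rw [psi_eq_zero (by omega), psi_eq_zero (by omega), sub_zero]

/-- Weight. -/
noncomputable def vw (R m : ℕ) : ℝ := if m ≤ R then 2 / (((m : ℝ) + 1) * harm R ^ 2) else 0

theorem vw_nonneg (R m : ℕ) : 0 ≤ vw R m := by
  unfold vw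
  have := harm_pos R
  split_ifs <;> positivity

theorem psi_diff_le (R : ℕ) {p q : ℕ} (h1 : p ≤ q + 1) (h2 : q ≤ p + 1) (b : ℕ) :
    (psi R (max p b) - psi R (max q b)) ^ 2 ≤
      if b ≤ min p q then (psi R (min p q) - psi R (min p q + 1)) ^ 2 else 0 := by
  rcases Nat.lt_trichotomy p q with h | h | h
  · have hq : q = p + 1 := by omega
    subst hq
    rw [min_eq_left (by omega)]
    split_ifs with hb
    · rw [max_eq_left hb, max_eq_left (by omega)]
    · rw [max_eq_right (by omega), max_eq_right (by omega), sub_self]; simp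
  · subst h
    rw [sub_self, zero_pow two_ne_zero]
    split_ifs
    · exact sq_nonneg _
    · exact le_refl _
  · have hq : p = q + 1 := by omega
    subst hq
    rw [min_eq_right (by omega)]
    split_ifs with hb
    · rw [max_eq_left hb, max_eq_left (by omega), ← neg_sub, neg_sq]
    · rw [max_eq_right (by omega), max_eq_right (by omega), sub_self]; simp

theorem vw_ge (R m : ℕ) : (2 * (m : ℝ) + 1) * (psi R m - psi R (m + 1)) ^ 2 ≤ vw R m := by
  rw [psi_sub, vw]
  have h := harm_pos R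
  split_ifs
  · rw [div_pow, one_pow, mul_one_div, div_le_div_iff₀ (by positivity) (by positivity)]
    have : (0 : ℝ) < ((m : ℝ) + 1) * harm R ^ 2 := by positivity
    have hm : (0 : ℝ) ≤ m := Nat.cast_nonneg m
    nlinarith [mul_nonneg hm this.le]
  · simp

section Sum

variable {L : ℕ} [NeZero L]

theorem sum_vw (R : ℕ) : ∑ a : ZMod L, vw R (zabs a) ≤ 4 / harm R := by
  have h := harm_pos R
  have h1 : ∀ a : ZMod L, vw R (zabs a) = ∑ m ∈ Finset.range (R + 1),
      if zabs a = m then 2 / (((m : ℝ) + 1) * harm R ^ 2) else 0 := by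
    intro a
    rw [Finset.sum_ite_eq, vw]
    refine if_congr ?_ rfl rfl
    rw [Finset.mem_range]; omega
  rw [Finset.sum_congr rfl fun a _ => h1 a, Finset.sum_comm]
  have h2 : ∀ m ∈ Finset.range (R + 1), (∑ a : ZMod L,
      if zabs a = m then 2 / (((m : ℝ) + 1) * harm R ^ 2) else 0) ≤
        4 / harm R ^ 2 * (1 / ((m : ℝ) + 1)) := by
    intro m _
    rw [← Finset.sum_filter, Finset.sum_const, nsmul_eq_mul]
    have h3 : ((Finset.univ.filter fun a : ZMod L => zabs a = m).card : ℝ) ≤ 2 := by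
      exact_mod_cast card_zabs_eq (L := L) m
    have h4 : (0 : ℝ) ≤ 2 / (((m : ℝ) + 1) * harm R ^ 2) := by positivity
    have h5 : 4 / harm R ^ 2 * (1 / ((m : ℝ) + 1)) = 2 * (2 / (((m : ℝ) + 1) * harm R ^ 2)) := by
      field_simp
      norm_num
    rw [h5]
    exact mul_le_mul_of_nonneg_right h3 h4
  refine (Finset.sum_le_sum h2).trans (le_of_eq ?_)
  rw [← Finset.mul_sum]
  change 4 / harm R ^ 2 * harm R = _
  field_simp

theorem sum_psi_le (hL : 2 ≤ L) (R : ℕ) :
    ∑ a : ZMod L, ∑ b : ZMod L,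
      (psi R (max (zabs a) (zabs b)) - psi R (max (zabs (a + 1)) (zabs b))) ^ 2 ≤ 8 / harm R := by
  have h1 : ∀ a : ZMod L, ∑ b : ZMod L,
      (psi R (max (zabs a) (zabs b)) - psi R (max (zabs (a + 1)) (zabs b))) ^ 2 ≤
        vw R (zabs a) + vw R (zabs (a + 1)) := by
    intro a
    set m := min (zabs a) (zabs (a + 1)) with hm
    have h2 : ∑ b : ZMod L,
        (psi R (max (zabs a) (zabs b)) - psi R (max (zabs (a + 1)) (zabs b))) ^ 2 ≤
        ∑ b : ZMod L, if zabs b ≤ m then (psi R m - psi R (m + 1)) ^ 2 else 0 :=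
      Finset.sum_le_sum fun b _ => psi_diff_le R (zabs_le_add_one hL a) (zabs_add_one_le hL a) _
    refine h2.trans ?_
    rw [← Finset.sum_filter, Finset.sum_const, nsmul_eq_mul]
    have h3 : ((Finset.univ.filter fun b : ZMod L => zabs b ≤ m).card : ℝ) ≤ 2 * m + 1 := by
      exact_mod_cast card_zabs_le (L := L) m
    have h4 : vw R m ≤ vw R (zabs a) + vw R (zabs (a + 1)) := by
      rcases min_choice (zabs a) (zabs (a + 1)) with h | h
      · rw [hm, h]; linarith [vw_nonneg R (zabs (a + 1))]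
      · rw [hm, h]; linarith [vw_nonneg R (zabs a)]
    exact (mul_le_mul_of_nonneg_right h3 (sq_nonneg _)).trans ((vw_ge R m).trans h4)
  refine (Finset.sum_le_sum fun a _ => h1 a).trans ?_
  rw [Finset.sum_add_distrib]
  have h5 : ∑ a : ZMod L, vw R (zabs (a + 1)) = ∑ a : ZMod L, vw R (zabs a) :=
    Equiv.sum_comp (Equiv.addRight (1 : ZMod L)) (fun a => vw R (zabs a))
  have h6 := sum_vw (L := L) R
  rw [h5]
  have h7 : 8 / harm R = 4 / harm R + 4 / harm R := by ring
  rw [h7]
  exact add_le_add h6 h6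

/-- The test function. -/
noncomputable def logTest (L R : ℕ) (x : Fin 2 → ZMod L) : ℝ :=
  psi R (max (zabs (x 0)) (zabs (x 1)))

theorem logTest_zero (R : ℕ) : logTest L R 0 = 1 := by
  have : zabs (0 : ZMod L) = 0 := by simp [zabs]
  rw [logTest, Pi.zero_apply, Pi.zero_apply, this, max_self, psi_zero]

theorem logTest_eq_zero {R : ℕ} {x : Fin 2 → ZMod L} (h : x ∉ box 2 L R) : logTest L R x = 0 := by
  refine psi_eq_zero ?_
  simp only [box, Set.mem_ofPred_eq, not_forall, not_le] at h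
  obtain ⟨i, hi⟩ := h
  unfold zabs
  fin_cases i
  · exact lt_max_of_lt_left hi
  · exact lt_max_of_lt_right hi

theorem energy_logTest_le (hL : 2 ≤ L) (R : ℕ) : energy (logTest L R) ≤ 16 / harm R := by
  have h0 : energy (logTest L R) = (∑ x : Fin 2 → ZMod L,
      (logTest L R x - logTest L R (x + Pi.single 0 1)) ^ 2) +
      ∑ x : Fin 2 → ZMod L, (logTest L R x - logTest L R (x + Pi.single 1 1)) ^ 2 := by
    rw [energy, Fintype.sum_prod_type, ← Finset.sum_add_distrib]
    refine Finset.sum_congr rfl fun x _ => ?_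
    rw [Fin.sum_univ_two]
  have h1 : ∑ x : Fin 2 → ZMod L, (logTest L R x - logTest L R (x + Pi.single 0 1)) ^ 2 =
      ∑ a : ZMod L, ∑ b : ZMod L,
        (psi R (max (zabs a) (zabs b)) - psi R (max (zabs (a + 1)) (zabs b))) ^ 2 := by
    rw [← (finTwoArrowEquiv (ZMod L)).symm.sum_comp, Fintype.sum_prod_type]
    refine Finset.sum_congr rfl fun a _ => Finset.sum_congr rfl fun b _ => ?_
    simp [logTest, finTwoArrowEquiv]
  have h2 : ∑ x : Fin 2 → ZMod L, (logTest L R x - logTest L R (x + Pi.single 1 1)) ^ 2 =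
      ∑ a : ZMod L, ∑ b : ZMod L,
        (psi R (max (zabs a) (zabs b)) - psi R (max (zabs (a + 1)) (zabs b))) ^ 2 := by
    rw [← (finTwoArrowEquiv (ZMod L)).symm.sum_comp, Fintype.sum_prod_type, Finset.sum_comm]
    refine Finset.sum_congr rfl fun a _ => Finset.sum_congr rfl fun b _ => ?_
    simp [logTest, finTwoArrowEquiv, max_comm]
  have h3 := sum_psi_le hL R
  rw [h0, h1, h2]
  have h7 : 16 / harm R = 8 / harm R + 8 / harm R := by ring
  rw [h7]
  exact add_le_add h3 h3

end Sum

end Pool.Agent.Stirring.NoCyc
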