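import Pool.Agent.Lib.MP_6c3d62_pr.Defs

/-! Definitions for the statement about cycles contained in a set. -/

namespace Pool.Agent.Stirring.NoCyc

/-- No cycle of `σ` is contained in `S` (fixed points count as cycles): every orbit of `σ` has an
element outside `S`. -/
def NoCycleIn {V : Type*} (σ : Equiv.Perm V) (S : Set V) : Prop :=
  ∀ x, ∃ y, σ.SameCycle x y ∧ y ∉ S

/-- The cycle of `σ` through `x` is not contained in `S`. -/
def Leaves {V : Type*} (σ : Equiv.Perm V) (x : V) (S : Set V) : Prop :=
  ∃ y, σ.SameCycle x y ∧ y ∉ S

/-- The probability of the event `A` for the stirring process on `(ℤ/L)^d` at time `t`. -/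
noncomputable def prob (d L : ℕ) [NeZero L] (t : ℝ)
    (A : Set (Equiv.Perm (Fin d → ZMod L))) : ℝ :=
  expect d L t (A.indicator fun _ => 1)

/-- The box of radius `R` around the origin of the torus `(ℤ/L)^d`: all the coordinates have a
representative of absolute value at most `R`. -/
def box (d L : ℕ) (R : ℕ) : Set (Fin d → ZMod L) := {x | ∀ i, (x i).valMinAbs.natAbs ≤ R}

/-- The event that no cycle is contained in the box of radius `R` deprived of the origin. -/
def noShort (d L R : ℕ) : Set (Equiv.Perm (Fin d → ZMod L)) :=
  {σ | NoCycleIn σ (box d L R \ {0})}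

/-- The event that the cycle of the origin is not contained in the box of radius `R`. -/
def escapes (d L R : ℕ) : Set (Equiv.Perm (Fin d → ZMod L)) :=
  {σ | Leaves σ 0 (box d L R)}

/-- Conditional probability, given that no cycle is contained in the punctured box, that the cycle
of the origin is not contained in the box. -/
noncomputable def condEscape (d L R : ℕ) [NeZero L] (t : ℝ) : ℝ :=
  prob d L t (escapes d L R ∩ noShort d L R) / prob d L t (noShort d L R)

end Pool.Agent.Stirring.NoCyc
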