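import Pool.Agent.Lib.MP_6c3d62_pr.DetFormula
import Pool.Agent.Lib.MP_6c3d62_pr.NoCycleDefs

/-! Permutations without a cycle contained in a given set, as a determinant. -/

open Finset Matrix

set_option linter.unusedSectionVars false
set_option linter.style.haveILetI false

namespace Pool.Agent.Stirring.NoCyc

variable {V : Type*} [Fintype V] [DecidableEq V]

/-- The projection on the functions supported in `S`. -/
noncomputable def projM (S : Set V) : Matrix V V ℝ := diagonal (S.indicator fun _ => (1 : ℝ))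

theorem projM_mul_apply (S : Set V) (M : Matrix V V ℝ) (x y : V) :
    (projM S * M) x y = S.indicator (fun _ => (1 : ℝ)) x * M x y := by
  rw [projM, Matrix.diagonal_mul]

theorem projM_mulVec (S : Set V) (f : V → ℝ) (x : V) :
    (projM S).mulVec f x = S.indicator (fun _ => (1 : ℝ)) x * f x := by
  rw [projM, Matrix.mulVec_diagonal]

theorem permMat_mulVec (σ : Equiv.Perm V) (f : V → ℝ) (x : V) :
    (permMat V σ).mulVec f x = f (σ⁻¹ x) := by
  simp only [Matrix.mulVec, dotProduct, permMat_apply, ite_mul, one_mul, zero_mul]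
  rw [Finset.sum_eq_single (σ⁻¹ x)]
  · simp
  · intro b _ hb
    rw [if_neg]
    rintro rfl
    simp at hb
  · intro h; exact absurd (Finset.mem_univ _) h

theorem det_one_sub_of_isNilpotent {N : Matrix V V ℝ} (h : IsNilpotent N) : (1 - N).det = 1 := by
  have h1 := Matrix.isNilpotent_charpoly_sub_pow_of_isNilpotent h
  have h2 : N.charpoly - Polynomial.X ^ (Fintype.card V) = 0 := h1.eq_zero
  have h3 : N.charpoly = Polynomial.X ^ (Fintype.card V) := sub_eq_zero.mp h2
  have h4 := Matrix.eval_charpoly N 1
  rw [h3] at h4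
  simp only [Polynomial.eval_pow, Polynomial.eval_X, one_pow] at h4
  rw [h4]
  congr 1

theorem pow_projM_mul_ne_zero {S : Set V} {σ : Equiv.Perm V} (n : ℕ) {x y : V}
    (h : ((projM S * permMat V σ) ^ n) x y ≠ 0) :
    x = (σ ^ n) y ∧ ∀ k < n, (σ ^ (k + 1)) y ∈ S := by
  induction n generalizing x with
  | zero =>
    simp only [pow_zero, Matrix.one_apply, ne_eq, ite_eq_right_iff, one_ne_zero, imp_false,
      not_not] at h
    exact ⟨by simpa using h, fun k hk => absurd hk (Nat.not_lt_zero _)⟩
  | succ n ih =>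
    rw [pow_succ', Matrix.mul_apply] at h
    obtain ⟨z, _, hz⟩ := Finset.exists_ne_zero_of_sum_ne_zero h
    have h1 := left_ne_zero_of_mul hz
    have h2 := ih (right_ne_zero_of_mul hz)
    rw [projM_mul_apply, permMat_apply] at h1
    have h3 := left_ne_zero_of_mul h1
    have h4 : x = σ z := by
      by_contra hne
      rw [if_neg hne] at h1; simp at h1
    have h5 : x ∈ S := by
      by_contra hne
      exact h3 (Set.indicator_of_notMem hne _)
    have h6 : x = (σ ^ (n + 1)) y := by
      rw [h4, h2.1, pow_succ', Equiv.Perm.mul_apply]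
    refine ⟨h6, fun k hk => ?_⟩
    rcases Nat.lt_succ_iff_lt_or_eq.mp hk with hk | rfl
    · exact h2.2 k hk
    · rw [← h6]; exact h5

theorem isNilpotent_of_noCycleIn {S : Set V} {σ : Equiv.Perm V} (h : NoCycleIn σ S) :
    IsNilpotent (projM S * permMat V σ) := by
  refine ⟨orderOf σ, ?_⟩
  ext x y
  by_contra hne
  have h1 := (pow_projM_mul_ne_zero (orderOf σ) (x := x) (y := y) hne).2
  obtain ⟨z, hz, hzS⟩ := h y
  obtain ⟨i, hi, hi2, rfl⟩ := hz.exists_pow_eq''
  refine hzS ?_
  have h2 := h1 (i - 1) (by omega)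
  rwa [Nat.sub_add_cancel hi] at h2

theorem det_projM (S : Set V) (σ : Equiv.Perm V) [Decidable (NoCycleIn σ S)] :
    (1 - projM S * permMat V σ).det = if NoCycleIn σ S then 1 else 0 := by
  split_ifs with h
  · exact det_one_sub_of_isNilpotent (isNilpotent_of_noCycleIn h)
  · unfold NoCycleIn at h
    push Not at h
    obtain ⟨x, hx⟩ := h
    classical
    refine Matrix.exists_mulVec_eq_zero_iff.mp ⟨fun y => if σ.SameCycle x y then 1 else 0, ?_, ?_⟩
    · intro h0
      have := congrFun h0 x
      simp only [Pi.zero_apply, ite_eq_right_iff, one_ne_zero, imp_false] at this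
      exact this (Equiv.Perm.SameCycle.refl σ x)
    · rw [Matrix.sub_mulVec, Matrix.one_mulVec, ← Matrix.mulVec_mulVec]
      ext y
      rw [Pi.sub_apply, projM_mulVec, permMat_mulVec, Pi.zero_apply]
      have h1 : σ.SameCycle x (σ⁻¹ y) ↔ σ.SameCycle x y := by
        simp
      by_cases hy : σ.SameCycle x y
      · rw [if_pos hy, if_pos (h1.mpr hy), Set.indicator_of_mem (hx y hy)]; ring
      · rw [if_neg hy, if_neg (fun h => hy (h1.mp h))]; ring

end Pool.Agent.Stirring.NoCyc
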