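import Pool.Agent.Lib.MP_6c3d62_pr.MU.Len

/-!
# At a fixed time, stirring is locally uniform, in total variation

Random stirring `η_L(t)` on the torus `(ℤ/L)^d` started from the identity, nearest neighbours, in every
dimension `d ≥ 2`. Here `expect d L t f` is the expectation of `f (η_L(t))`, and `cyc σ x` the set of the
vertices of the cycle of `x` in the permutation `σ`.

A permutation `σ` of the vertices and distinct vertices `z 0, ..., z (k - 1)` give a permutation `τ` of
`k` points: `z (τ i)` is the first of these vertices which is met by `σ (z i), σ (σ (z i)), ...`.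

At a large time `t`, on every torus of side `L ≥ exp (t ^ c)` (so also in the limit `L → ∞` at a fixed
time), the law of the permutation induced on any `k ≤ t ^ a` vertices at mutual distances at most
`exp (t ^ a)` is within `t ^ (-a)` of the uniform law, in total variation. In particular the cycle of a
given vertex has more than `exp (t ^ a)` vertices, up to a probability `t ^ (-a)`.
-/

set_option autoImplicit false

namespace Pool.Agent.Results.MP_6c3d62_pr.LocalUniform

open Pool.Agent.Stirring

/-- `τ` is the permutation induced by `σ` on the points `z`: `z (τ i)` is the first point of the list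
`z` which is met by `σ (z i), σ (σ (z i)), ...`. -/
def Induced {V : Type*} {k : ℕ} (σ : Equiv.Perm V) (z : Fin k → V) (τ : Equiv.Perm (Fin k)) : Prop :=
  ∀ i, ∃ n : ℕ, (σ ^ (n + 1)) (z i) = z (τ i) ∧ ∀ m < n, ∀ j, (σ ^ (m + 1)) (z i) ≠ z j

open Classical in
/-- At a large time, on a torus of side at least `exp (t ^ c)`, the permutation induced on `k ≤ t ^ a`
distinct points at distances at most `exp (t ^ a)` is uniform up to `t ^ (-a)`; in particular the cycle
of a given vertex has more than `exp (t ^ a)` vertices, up to a probability `t ^ (-a)`. -/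
theorem result (d : ℕ) (hd : 2 ≤ d) : ∃ a c : ℝ, 0 < a ∧ 0 < c ∧ ∃ t₀ : ℝ, ∀ t : ℝ, t₀ ≤ t →
    ∀ (L : ℕ) [NeZero L], Real.exp (t ^ c) ≤ L →
      (∀ k : ℕ, (k : ℝ) ≤ t ^ a → ∀ z : Fin k → (Fin d → ZMod L), Function.Injective z →
        (∀ i j, ∃ u : Fin d → ℤ, (∀ m, z j m = z i m + (u m : ZMod L)) ∧
          ∑ m, |(u m : ℝ)| ≤ Real.exp (t ^ a)) →
        ∀ A : Finset (Equiv.Perm (Fin k)),
          |expect d L t (fun σ => if ∃ τ ∈ A, Induced σ z τ then (1 : ℝ) else 0) -
            (A.card : ℝ) / (k.factorial : ℝ)| ≤ t ^ (-a)) ∧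
      ∀ x : Fin d → ZMod L,
        expect d L t (fun σ => if ((cyc σ x).card : ℝ) ≤ Real.exp (t ^ a) then (1 : ℝ) else 0) ≤
          t ^ (-a) := by
  obtain ⟨a, c, ha, hc, t₀, h⟩ := MU.local_uniform_len d hd
  refine ⟨a, c, ha, hc, t₀, ?_⟩
  intro t ht L _ hL
  refine ⟨?_, fun x => ?_⟩
  · intro k hk z hz hdist A
    have h1 := (h t ht L hL).1 k hk z hz (fun i j => by
      obtain ⟨u, hu, hu'⟩ := hdist i j
      exact ⟨u, funext hu, hu'⟩) (fun τ => if τ ∈ A then 1 else 0)
      (fun τ => by positivity) (fun τ => by split_ifs <;> norm_num)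
    have h2 : (fun σ : Equiv.Perm (Fin d → ZMod L) =>
        if ∃ τ ∈ A, Induced σ z τ then (1 : ℝ) else 0) =
        MU.indF (fun τ => if τ ∈ A then 1 else 0) z := by
      funext σ
      obtain ⟨τ, hτ⟩ := MU.exists_induced σ hz
      rw [MU.indF_eq hz hτ]
      by_cases hA : τ ∈ A
      · rw [if_pos hA, if_pos ⟨τ, hA, hτ⟩]
      · rw [if_neg hA, if_neg]
        rintro ⟨τ', hA', hτ'⟩
        exact hA (by rwa [MU.Induced.unique hz hτ hτ'])
    have h3 : (∑ τ : Equiv.Perm (Fin k), if τ ∈ A then (1 : ℝ) else 0) = A.card := by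
      rw [← Finset.sum_filter, Finset.filter_mem_eq_inter, Finset.univ_inter, Finset.sum_const,
        nsmul_eq_mul, mul_one]
    rw [h2, ← h3]
    exact h1
  · refine le_trans (le_of_eq ?_) ((h t ht L hL).2 x)
    congr 1

end Pool.Agent.Results.MP_6c3d62_pr.LocalUniform
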