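import Pool.Agent.Lib.MP_6c3d62_pr.Transience

/-! The flow of the Pólya urn with two colours, and the resulting lower bound in dimension two. -/

open Finset Matrix

set_option linter.unusedSectionVars false

namespace Pool.Agent.Stirring.NoCyc

/-- The flow of the two-colour Pólya urn. -/
noncomputable def rho (n k : ℕ) : ℝ := n / (k * (k + 1))

theorem rho_zero (k : ℕ) : rho 0 k = 0 := by simp [rho]

theorem rho_nonneg (n k : ℕ) : 0 ≤ rho n k := by unfold rho; positivity

theorem shift_sum2 (N s : ℕ) (F : ℕ → ℝ) :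
    ∑ a ∈ Finset.range N, rho (a + 1) (a + s + 1) * F (a + 1) =
      (∑ a ∈ Finset.range N, rho a (a + s) * F a) + rho N (N + s) * F N := by
  have h0 : ∀ a, a + s + 1 = a + 1 + s := fun a => by ring
  simp only [h0]
  have h1 := Finset.sum_range_succ (fun a => rho a (a + s) * F a) N
  have h2 := Finset.sum_range_succ' (fun a => rho a (a + s) * F a) N
  rw [rho_zero, zero_mul, add_zero] at h2
  rw [← h1, h2]

theorem rho_div (a b : ℕ) :
    rho (a + 1) (a + b + 1) + rho (b + 1) (a + b + 1) - (rho a (a + b) + rho b (a + b)) =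
      if a = 0 ∧ b = 0 then 1 else 0 := by
  split_ifs with h
  · obtain ⟨rfl, rfl⟩ := h
    simp only [rho]
    norm_num
  · have hk : 0 < a + b := by omega
    have hk' : (0 : ℝ) < (a : ℝ) + b := by exact_mod_cast hk
    simp only [rho]
    push_cast
    field_simp
    ring

theorem rho_sum_sq (a b : ℕ) :
    rho (a + 1) (a + b + 1) ^ 2 + rho (b + 1) (a + b + 1) ^ 2 ≤
      2 / (((a + b : ℕ) + 1) * ((a + b : ℕ) + 2)) := by
  have h2 : rho (a + 1) (a + b + 1) ^ 2 + rho (b + 1) (a + b + 1) ^ 2 ≤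
      (rho (a + 1) (a + b + 1) + rho (b + 1) (a + b + 1)) ^ 2 := by
    have ha := rho_nonneg (a + 1) (a + b + 1)
    have hb := rho_nonneg (b + 1) (a + b + 1)
    nlinarith [mul_nonneg ha hb]
  refine h2.trans ?_
  have h3 : rho (a + 1) (a + b + 1) + rho (b + 1) (a + b + 1) = 1 / ((a + b : ℕ) + 1) := by
    simp only [rho]
    push_cast
    field_simp
    ring
  rw [h3]
  set k : ℝ := ((a + b : ℕ) : ℝ) with hk
  have hk0 : 0 ≤ k := Nat.cast_nonneg _
  rw [div_pow, div_le_div_iff₀ (by positivity) (by positivity)]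
  nlinarith [mul_nonneg hk0 hk0]

theorem rho_sq_total (R : ℕ) :
    ∑ a ∈ Finset.range (R + 1), ∑ b ∈ Finset.range (R + 1),
      (2 / (((a + b : ℕ) + 1) * ((a + b : ℕ) + 2)) : ℝ) ≤ 2 * harm R := by
  have h2 : ∀ s : ℕ, ∑ b ∈ Finset.range (R + 1),
      (2 / ((((s + b : ℕ) : ℝ) + 1) * ((s + b : ℕ) + 2)) : ℝ) ≤ 2 / ((s : ℝ) + 1) := fun s =>
    telescope_le (u := fun k : ℕ => 2 / (((k : ℝ) + 1) * (k + 2)))
      (g := fun k : ℕ => 2 / ((k : ℝ) + 1))
      (fun k => le_of_eq (by push_cast; field_simp; ring)) (fun k => by positivity) s (R + 1)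
  calc _ ≤ ∑ a ∈ Finset.range (R + 1), 2 / ((a : ℝ) + 1) := Finset.sum_le_sum fun a _ => h2 a
    _ = 2 * harm R := by
        rw [harm, Finset.mul_sum]
        refine Finset.sum_congr rfl fun a _ => by ring

theorem flow_identity2 {N : ℕ} (hN : 0 < N) (F : ℕ → ℕ → ℝ) :
    F 0 0 = (∑ a ∈ Finset.range N, ∑ b ∈ Finset.range N,
      (rho (a + 1) (a + b + 1) * (F a b - F (a + 1) b) +
        rho (b + 1) (a + b + 1) * (F a b - F a (b + 1)))) +
      ∑ b ∈ Finset.range N, rho N (N + b) * (F N b + F b N) := by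
  have e1 : ∑ a ∈ Finset.range N, ∑ b ∈ Finset.range N, rho (a + 1) (a + b + 1) * F (a + 1) b =
      (∑ a ∈ Finset.range N, ∑ b ∈ Finset.range N, rho a (a + b) * F a b) +
        ∑ b ∈ Finset.range N, rho N (N + b) * F N b := by
    rw [Finset.sum_comm, Finset.sum_comm (f := fun a b => rho a (a + b) * F a b),
      ← Finset.sum_add_distrib]
    exact Finset.sum_congr rfl fun b _ => shift_sum2 N b (fun a => F a b)
  have e2 : ∑ a ∈ Finset.range N, ∑ b ∈ Finset.range N, rho (b + 1) (a + b + 1) * F a (b + 1) =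
      (∑ a ∈ Finset.range N, ∑ b ∈ Finset.range N, rho b (a + b) * F a b) +
        ∑ b ∈ Finset.range N, rho N (N + b) * F b N := by
    rw [← Finset.sum_add_distrib]
    refine Finset.sum_congr rfl fun a _ => ?_
    have := shift_sum2 N a (fun b => F a b)
    have r2 : ∀ b, a + b = b + a := fun b => by ring
    simp only [r2]
    exact this
  have e4 : ∑ a ∈ Finset.range N, ∑ b ∈ Finset.range N,
      (rho (a + 1) (a + b + 1) * (F a b - F (a + 1) b) +
        rho (b + 1) (a + b + 1) * (F a b - F a (b + 1))) =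
      (∑ a ∈ Finset.range N, ∑ b ∈ Finset.range N,
        (rho (a + 1) (a + b + 1) + rho (b + 1) (a + b + 1)) * F a b) -
      ((∑ a ∈ Finset.range N, ∑ b ∈ Finset.range N, rho (a + 1) (a + b + 1) * F (a + 1) b) +
      (∑ a ∈ Finset.range N, ∑ b ∈ Finset.range N, rho (b + 1) (a + b + 1) * F a (b + 1))) := by
    simp only [← Finset.sum_add_distrib, ← Finset.sum_sub_distrib]
    refine Finset.sum_congr rfl fun a _ => Finset.sum_congr rfl fun b _ => by ring
  have e6 : (∑ a ∈ Finset.range N, ∑ b ∈ Finset.range N,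
        (rho (a + 1) (a + b + 1) + rho (b + 1) (a + b + 1)) * F a b) -
      ((∑ a ∈ Finset.range N, ∑ b ∈ Finset.range N, rho a (a + b) * F a b) +
      (∑ a ∈ Finset.range N, ∑ b ∈ Finset.range N, rho b (a + b) * F a b)) = F 0 0 := by
    simp only [← Finset.sum_add_distrib, ← Finset.sum_sub_distrib]
    have e5 : ∀ a b : ℕ, (rho (a + 1) (a + b + 1) + rho (b + 1) (a + b + 1)) * F a b -
        (rho a (a + b) * F a b + rho b (a + b) * F a b) =
        (if a = 0 ∧ b = 0 then 1 else 0) * F a b := by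
      intro a b
      rw [← rho_div]; ring
    simp only [e5]
    rw [Finset.sum_eq_single_of_mem 0 (Finset.mem_range.mpr hN)]
    · rw [Finset.sum_eq_single_of_mem 0 (Finset.mem_range.mpr hN)]
      · simp
      · intro b _ hb
        rw [if_neg (fun h => hb h.2), zero_mul]
    · intro a _ ha
      refine Finset.sum_eq_zero fun b _ => ?_
      rw [if_neg (fun h => ha h.1), zero_mul]
  rw [e4, e1, e2]
  have e7 : ∑ b ∈ Finset.range N, rho N (N + b) * (F N b + F b N) =
      (∑ b ∈ Finset.range N, rho N (N + b) * F N b) +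
      (∑ b ∈ Finset.range N, rho N (N + b) * F b N) := by
    simp only [← Finset.sum_add_distrib]
    refine Finset.sum_congr rfl fun b _ => by ring
  rw [e7]
  linarith

section Embed

variable {L : ℕ}

/-- The point with coordinates `a`, `b`. -/
def pp (L : ℕ) (a b : ℕ) : Fin 2 → ZMod L := ![(a : ZMod L), (b : ZMod L)]

theorem pp_zero : pp L 0 0 = 0 := by
  ext i
  fin_cases i <;> simp [pp]

theorem pp_add_zero (a b : ℕ) : pp L (a + 1) b = pp L a b + Pi.single 0 1 := by
  ext i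
  fin_cases i <;> simp [pp]

theorem pp_add_one (a b : ℕ) : pp L a (b + 1) = pp L a b + Pi.single 1 1 := by
  ext i
  fin_cases i <;> simp [pp]

theorem pp_inj {N a b a' b' : ℕ} (hN : N ≤ L) (ha : a < N) (hb : b < N)
    (ha' : a' < N) (hb' : b' < N) (h : pp L a b = pp L a' b') : a = a' ∧ b = b' := by
  have h0 := congrFun h 0
  have h1 := congrFun h 1
  simp only [pp, Matrix.cons_val_zero, Matrix.cons_val_one] at h0 h1
  exact ⟨natCast_inj hN ha ha' h0, natCast_inj hN hb hb' h1⟩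

variable [NeZero L]

theorem form_ge_two {t : ℝ} (ht : 0 < t) {R : ℕ} (hL : 2 * R + 2 ≤ L)
    {f : (Fin 2 → ZMod L) → ℝ} (hf : ∀ y, y ∉ box 2 L R → f y = 0) :
    f 0 ^ 2 ≤ (1 + 2 * harm R / t + 1 / (R + 2)) * (f ⬝ᵥ (1 - heat 2 L t).mulVec f) := by
  set N := R + 1 with hN
  have hN0 : 0 < N := by omega
  set s := (Finset.range N ×ˢ Finset.range N) ×ˢ (Finset.univ : Finset (Fin 2)) with hs
  set Φ : (ℕ × ℕ) × Fin 2 → (Fin 2 → ZMod L) × Fin 2 := fun p =>
    (pp L p.1.1 p.1.2, p.2) with hΦ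
  set th : (ℕ × ℕ) × Fin 2 → ℝ := fun p =>
    ![rho (p.1.1 + 1) (p.1.1 + p.1.2 + 1), rho (p.1.2 + 1) (p.1.1 + p.1.2 + 1)] p.2 with hth
  set r := Finset.range N ×ˢ (Finset.univ : Finset (Fin 2)) with hr
  set Ψ : ℕ × Fin 2 → (Fin 2 → ZMod L) := fun q => ![pp L N q.1, pp L q.1 N] q.2 with hΨ
  set η : ℕ × Fin 2 → ℝ := fun q => rho N (N + q.1) with hη
  refine flow_bound (S := box 2 L R) (by omega) ht (zero_mem_box R) s Φ ?_ th r Ψ ?_ ?_ η ?_ ?_ ?_ hf
  · rintro ⟨⟨a, b⟩, j⟩ hp ⟨⟨a', b'⟩, j'⟩ hp' heq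
    simp only [hs, Finset.coe_product, Set.mem_prod, Finset.mem_coe,
      Finset.coe_range, Set.mem_Iio] at hp hp'
    simp only [hΦ, Prod.mk.injEq] at heq
    obtain ⟨r0, r1⟩ := pp_inj (N := N) (by omega) hp.1.1 hp.1.2 hp'.1.1 hp'.1.2 heq.1
    rw [r0, r1, heq.2]
  · rintro ⟨b, j⟩ hq ⟨b', j'⟩ hq' heq
    simp only [hr, Finset.coe_product, Set.mem_prod, Finset.mem_coe,
      Finset.coe_range, Set.mem_Iio] at hq hq'
    obtain ⟨hb, -⟩ := hq
    obtain ⟨hb', -⟩ := hq'
    have key : ∀ a1 b1 a2 b2 : ℕ, a1 ≤ N → b1 ≤ N → a2 ≤ N → b2 ≤ N →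
        pp L a1 b1 = pp L a2 b2 → a1 = a2 ∧ b1 = b2 :=
      fun a1 b1 a2 b2 h1 h2 h3 h4 h =>
        pp_inj (N := N + 1) (by omega) (by omega) (by omega) (by omega) (by omega) h
    fin_cases j <;> fin_cases j' <;> simp [hΨ] at heq ⊢ <;>
      have := key _ _ _ _ (by omega) (by omega) (by omega) (by omega) heq <;>
      omega
  · rintro ⟨b, j⟩ _
    fin_cases j
    · exact notMem_box hL (i := 0) (by simp [hΨ, pp, hN])
    · exact notMem_box hL (i := 1) (by simp [hΨ, pp, hN])
  · intro g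
    have h1 := flow_identity2 hN0 (fun a b => g (pp L a b))
    simp only [pp_zero] at h1
    rw [h1]
    congr 1
    · rw [hs, Finset.sum_product, Finset.sum_product]
      refine Finset.sum_congr rfl fun a _ => Finset.sum_congr rfl fun b _ => ?_
      rw [Fin.sum_univ_two, pp_add_zero, pp_add_one]
      rfl
    · rw [hr, Finset.sum_product]
      refine Finset.sum_congr rfl fun b _ => ?_
      rw [Fin.sum_univ_two]
      simp only [hη, hΨ, Matrix.cons_val_zero, Matrix.cons_val_one]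
      ring
  · refine le_trans ?_ (rho_sq_total R)
    rw [hs, Finset.sum_product, Finset.sum_product]
    refine Finset.sum_le_sum fun a _ => Finset.sum_le_sum fun b _ => ?_
    rw [Fin.sum_univ_two]
    have := rho_sum_sq a b
    simpa [hth] using this
  · have h1 := flow_identity2 hN0 (fun _ _ => 1)
    simp only [sub_self, mul_zero, add_zero, Finset.sum_const_zero, zero_add] at h1
    have h2 : ∑ q ∈ r, η q = 1 := by
      rw [hr, Finset.sum_product, h1]
      refine Finset.sum_congr rfl fun b _ => ?_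
      rw [Fin.sum_univ_two]
      simp only [hη]
      ring
    have h3 : ∀ q ∈ r, η q ^ 2 ≤ 1 / ((R : ℝ) + 2) * η q := by
      intro q _
      rw [sq]
      refine mul_le_mul_of_nonneg_right ?_ (rho_nonneg _ _)
      simp only [hη, rho]
      set m : ℕ := q.1
      rw [div_le_div_iff₀ (by positivity) (by positivity), hN]
      push_cast
      have hm : (0 : ℝ) ≤ m := Nat.cast_nonneg m
      have hR : (0 : ℝ) ≤ R := Nat.cast_nonneg R
      have e : 1 * ((R + 1 + m : ℝ) * (R + 1 + m + 1)) - ((R : ℝ) + 1) * ((R : ℝ) + 2) =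
          m * (2 * R + 3 + m) := by ring
      have : 0 ≤ m * (2 * R + 3 + m : ℝ) := by positivity
      linarith
    calc ∑ q ∈ r, η q ^ 2 ≤ ∑ q ∈ r, 1 / ((R : ℝ) + 2) * η q := Finset.sum_le_sum h3
      _ = _ := by rw [← Finset.mul_sum, h2, mul_one]

end Embed

end Pool.Agent.Stirring.NoCyc
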