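import Pool.Agent.Lib.MP_6c3d62_pr.Mg.G088

/-! Comparison of the quadratic forms of `1 - exp A` and `-A`. -/

open Finset Matrix

set_option linter.unusedSectionVars false
set_option linter.style.haveILetI false

namespace Pool.Agent.Stirring.NoCyc

theorem one_sub_exp_ge {M l : ℝ} (hM : 0 < M) (h0 : l ≤ 0) (h1 : -M ≤ l) :
    (1 - Real.exp (-M)) / M * (-l) ≤ 1 - Real.exp l := by
  have hc := convexOn_exp.2 (Set.mem_univ (0 : ℝ)) (Set.mem_univ (-M))
    (show (0 : ℝ) ≤ 1 - (-l) / M by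
      rw [sub_nonneg, div_le_one hM]; linarith)
    (show (0 : ℝ) ≤ (-l) / M by apply div_nonneg <;> linarith) (by ring)
  simp only [smul_eq_mul, mul_zero, zero_add, Real.exp_zero, mul_one] at hc
  have h2 : -l / M * -M = l := by field_simp
  rw [h2] at hc
  have h3 : (1 - Real.exp (-M)) / M * (-l) = -l / M - -l / M * Real.exp (-M) := by
    field_simp
    ring
  rw [h3]
  linarith

variable {κ : Type*} [Fintype κ] [DecidableEq κ]

theorem spectral_bounds {A : Matrix κ κ ℝ} (hA : A.IsSymm) {M : ℝ} (hM : 0 < M)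
    (h1 : ∀ φ : κ → ℝ, φ ⬝ᵥ A.mulVec φ ≤ 0)
    (h2 : ∀ φ : κ → ℝ, -M * (φ ⬝ᵥ φ) ≤ φ ⬝ᵥ A.mulVec φ) (φ : κ → ℝ) :
    0 ≤ φ ⬝ᵥ (1 - NormedSpace.exp A).mulVec φ ∧
    φ ⬝ᵥ (1 - NormedSpace.exp A).mulVec φ ≤ -(φ ⬝ᵥ A.mulVec φ) ∧
    (1 - Real.exp (-M)) / M * (-(φ ⬝ᵥ A.mulVec φ)) ≤ φ ⬝ᵥ (1 - NormedSpace.exp A).mulVec φ := by
  obtain ⟨U, d, hU1, hU2, rfl⟩ := exists_orth_diag hA
  have hq : ∀ (e : κ → ℝ) (φ : κ → ℝ), φ ⬝ᵥ (U * diagonal e * Uᵀ).mulVec φ =
      ∑ j, (Uᵀ.mulVec φ) j ^ 2 * e j := by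
    intro e φ
    rw [Matrix.mul_assoc, ← Matrix.mulVec_mulVec, ← Matrix.mulVec_mulVec,
      Matrix.dotProduct_mulVec, ← Matrix.mulVec_transpose]
    unfold dotProduct
    refine Finset.sum_congr rfl fun j _ => ?_
    rw [Matrix.mulVec_diagonal]; ring
  have hone : (1 : Matrix κ κ ℝ) = U * diagonal (fun _ => (1 : ℝ)) * Uᵀ := by
    have h3 : diagonal (fun _ : κ => (1 : ℝ)) = 1 := Matrix.diagonal_one
    rw [h3, Matrix.mul_one, hU1]
  have hd : ∀ j, d j ≤ 0 ∧ -M ≤ d j := by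
    intro j
    have hψ : Uᵀ.mulVec (U.mulVec (Pi.single j 1)) = Pi.single j 1 := by
      rw [Matrix.mulVec_mulVec, hU2, Matrix.one_mulVec]
    have hs : ∀ e : κ → ℝ, ∑ i, (Pi.single j (1 : ℝ) : κ → ℝ) i ^ 2 * e i = e j := by
      intro e
      rw [Finset.sum_eq_single j]
      · simp
      · intro b _ hb; simp [Pi.single_eq_of_ne hb]
      · intro h; exact absurd (Finset.mem_univ _) h
    have a1 := h1 (U.mulVec (Pi.single j 1))
    have a2 := h2 (U.mulVec (Pi.single j 1))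
    rw [hq, hψ, hs] at a1 a2
    have a3 : U.mulVec (Pi.single j 1) ⬝ᵥ U.mulVec (Pi.single j (1 : ℝ)) = 1 := by
      have := hq (fun _ => 1) (U.mulVec (Pi.single j 1))
      rw [← hone, hψ, hs, Matrix.one_mulVec] at this
      exact this
    rw [a3, mul_one] at a2
    exact ⟨a1, a2⟩
  have hsub : 1 - NormedSpace.exp (U * diagonal d * Uᵀ) =
      U * diagonal (fun j => 1 - Real.exp (d j)) * Uᵀ := by
    rw [exp_orth_conj hU1, exp_diag_real]
    conv_lhs => rw [hone]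
    rw [← Matrix.sub_mul, ← Matrix.mul_sub, Matrix.diagonal_sub]
  rw [hsub, hq, hq]
  refine ⟨?_, ?_, ?_⟩
  · refine Finset.sum_nonneg fun j _ => mul_nonneg (sq_nonneg _) ?_
    have := Real.exp_le_one_iff.mpr (hd j).1
    linarith
  · rw [← Finset.sum_neg_distrib]
    refine Finset.sum_le_sum fun j _ => ?_
    have := Real.add_one_le_exp (d j)
    nlinarith [sq_nonneg (Uᵀ.mulVec φ j)]
  · rw [← Finset.sum_neg_distrib, Finset.mul_sum]
    refine Finset.sum_le_sum fun j _ => ?_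
    have := one_sub_exp_ge hM (hd j).1 (hd j).2
    have h5 := mul_le_mul_of_nonneg_left this (sq_nonneg (Uᵀ.mulVec φ j))
    linarith

end Pool.Agent.Stirring.NoCyc
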