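import Pool.Agent.Lib.MP_6c3d62_pr.Spectral
import Pool.Agent.Lib.MP_6c3d62_pr.Capacity
import Pool.Agent.Lib.MP_6c3d62_pr.Mg.G088

/-! The heat kernel of the torus, the Dirichlet energy, and the probability that no cycle is
contained in a given set. -/

open Finset Matrix

set_option linter.unusedSectionVars false
set_option linter.style.haveILetI false

namespace Pool.Agent.Stirring.NoCyc

variable {d L : ℕ} [NeZero L]

/-- The Dirichlet energy on the torus. -/
noncomputable def energy (f : (Fin d → ZMod L) → ℝ) : ℝ :=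
  ∑ e : (Fin d → ZMod L) × Fin d, (f e.1 - f (e.1 + Pi.single e.2 1)) ^ 2

/-- The generator of the simple random walk. -/
noncomputable def gen1 (d L : ℕ) [NeZero L] : Matrix (Fin d → ZMod L) (Fin d → ZMod L) ℝ :=
  ∑ e : (Fin d → ZMod L) × Fin d, (permMat _ (edgeSwap d L e) - 1)

/-- The heat kernel. -/
noncomputable def heat (d L : ℕ) [NeZero L] (t : ℝ) :
    Matrix (Fin d → ZMod L) (Fin d → ZMod L) ℝ := NormedSpace.exp (t • gen1 d L)

theorem gen1_isSymm : (gen1 d L).IsSymm := by
  rw [Matrix.IsSymm, gen1, Matrix.transpose_sum]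
  refine Finset.sum_congr rfl fun a _ => ?_
  rw [Matrix.transpose_sub, Matrix.transpose_one]
  have h : (permMat (Fin d → ZMod L) (edgeSwap d L a)).IsSymm :=
    permMat_swap_isSymm_of_involutive (edgeSwap_mul_self a)
  rw [h.eq]

theorem smul_gen1_isSymm (t : ℝ) : (t • gen1 d L).IsSymm := by
  rw [Matrix.IsSymm, Matrix.transpose_smul, gen1_isSymm.eq]

theorem heat_isSymm (t : ℝ) : (heat d L t).IsSymm := by
  rw [Matrix.IsSymm, heat, ← Matrix.exp_transpose, (smul_gen1_isSymm t).eq]

theorem quad_gen1 (hL : 2 ≤ L) (t : ℝ) (f : (Fin d → ZMod L) → ℝ) :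
    f ⬝ᵥ (t • gen1 d L).mulVec f = -(t * energy f) := by
  rw [gen1, Matrix.smul_mulVec, Matrix.sum_mulVec, dotProduct_smul, dotProduct_sum, energy,
    smul_eq_mul, ← mul_neg, ← Finset.sum_neg_distrib]
  congr 1
  refine Finset.sum_congr rfl fun e _ => ?_
  rw [edgeSwap, quad_form_vertex _ _ _ (edge_ne hL e.1 e.2)]

theorem energy_nonneg (f : (Fin d → ZMod L) → ℝ) : 0 ≤ energy f :=
  Finset.sum_nonneg fun _ _ => sq_nonneg _

theorem energy_le (f : (Fin d → ZMod L) → ℝ) : energy f ≤ 4 * d * (f ⬝ᵥ f) := by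
  have h1 : energy f ≤ ∑ e : (Fin d → ZMod L) × Fin d,
      (2 * (f e.1 * f e.1) + 2 * (f (e.1 + Pi.single e.2 1) * f (e.1 + Pi.single e.2 1))) := by
    refine Finset.sum_le_sum fun e _ => ?_
    nlinarith [sq_nonneg (f e.1 + f (e.1 + Pi.single e.2 1))]
  refine h1.trans (le_of_eq ?_)
  rw [Finset.sum_add_distrib, ← Finset.mul_sum, ← Finset.mul_sum]
  have h2 : ∑ e : (Fin d → ZMod L) × Fin d, f e.1 * f e.1 = d * (f ⬝ᵥ f) := by
    rw [Fintype.sum_prod_type]
    simp only [Finset.sum_const, Finset.card_univ, Fintype.card_fin, nsmul_eq_mul]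
    rw [← Finset.mul_sum]; rfl
  have h3 : ∑ e : (Fin d → ZMod L) × Fin d,
      f (e.1 + Pi.single e.2 1) * f (e.1 + Pi.single e.2 1) = d * (f ⬝ᵥ f) := by
    rw [Fintype.sum_prod_type, Finset.sum_comm]
    have : ∀ i : Fin d, ∑ x : Fin d → ZMod L, f (x + Pi.single i 1) * f (x + Pi.single i 1) =
        f ⬝ᵥ f := fun i =>
      Equiv.sum_comp (Equiv.addRight (Pi.single i (1 : ZMod L))) (fun x => f x * f x)
    rw [Finset.sum_congr rfl fun i _ => this i]
    simp
  rw [h2, h3]; ring

/-- The constant in the comparison of the forms. -/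
noncomputable def cT (d : ℕ) (t : ℝ) : ℝ :=
  (1 - Real.exp (-(4 * d * t + 1))) / (4 * d * t + 1) * t

theorem cT_pos (d : ℕ) {t : ℝ} (ht : 0 < t) : 0 < cT d t := by
  unfold cT
  have h1 : (0 : ℝ) < 4 * d * t + 1 := by positivity
  have h2 : Real.exp (-(4 * d * t + 1)) < 1 := Real.exp_lt_one_iff.mpr (by linarith)
  have h3 : 0 < 1 - Real.exp (-(4 * d * t + 1)) := by linarith
  positivity

theorem heat_form (hL : 2 ≤ L) {t : ℝ} (ht : 0 ≤ t) (f : (Fin d → ZMod L) → ℝ) :
    0 ≤ f ⬝ᵥ (1 - heat d L t).mulVec f ∧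
    f ⬝ᵥ (1 - heat d L t).mulVec f ≤ t * energy f ∧
    cT d t * energy f ≤ f ⬝ᵥ (1 - heat d L t).mulVec f := by
  have hM : (0 : ℝ) < 4 * d * t + 1 := by positivity
  have h := spectral_bounds (smul_gen1_isSymm (d := d) (L := L) t) hM
    (fun φ => by
      rw [quad_gen1 hL]
      have := mul_nonneg ht (energy_nonneg φ)
      linarith)
    (fun φ => by
      rw [quad_gen1 hL]
      have h1 := mul_le_mul_of_nonneg_left (energy_le φ) ht
      have h2 : 0 ≤ φ ⬝ᵥ φ := by
        unfold dotProduct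
        exact Finset.sum_nonneg fun i _ => mul_self_nonneg _
      nlinarith) f
  rw [quad_gen1 hL, neg_neg] at h
  refine ⟨h.1, h.2.1, le_trans (le_of_eq ?_) h.2.2⟩
  unfold cT
  ring

theorem prob_noCycleIn (hL : 2 ≤ L) (t : ℝ) (S : Set (Fin d → ZMod L)) :
    prob d L t {σ | NoCycleIn σ S} = dS (heat d L t) S := by
  classical
  have h := E_det (edgeSwap d L) (fun e => e.1) (fun e => e.1 + Pi.single e.2 1) (fun _ => rfl)
    (fun e => edge_ne hL e.1 e.2) (projM S) t
  rw [dS, heat, gen1, ← h, prob, expect_eq]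
  congr 1
  funext σ
  rw [det_projM, Set.indicator_apply]
  rfl

theorem heat_apply (t : ℝ) (x y : Fin d → ZMod L) :
    heat d L t x y = prob d L t {σ | σ y = x} := by
  have h1 := E_trace_mul (fun _ : (Fin d → ZMod L) × Fin d => t) (edgeSwap d L) (permMat _)
    (Matrix.single y x (1 : ℝ))
  have h2 : ∀ R : Matrix (Fin d → ZMod L) (Fin d → ZMod L) ℝ,
      trace (Matrix.single y x (1 : ℝ) * R) = R x y := by
    intro R
    rw [Matrix.trace_mul_comm]
    simp only [Matrix.trace, diag_apply, Matrix.mul_apply, Matrix.single_apply, mul_ite, mul_one,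
      mul_zero]
    rw [Finset.sum_eq_single x]
    · rw [Finset.sum_eq_single y]
      · simp
      · intro b _ hb; rw [if_neg (fun h => hb h.1.symm)]
      · intro h; exact absurd (Finset.mem_univ _) h
    · intro b _ hb
      exact Finset.sum_eq_zero fun y _ => if_neg (fun h => hb h.2.symm)
    · intro h; exact absurd (Finset.mem_univ _) h
  simp only [h2] at h1
  rw [heat, gen1, Finset.smul_sum, ← h1, prob, expect_eq]
  congr 1
  funext σ
  rw [permMat_apply, Set.indicator_apply]
  refine if_congr ?_ rfl rfl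
  simp [eq_comm]

theorem heat_apply' (t : ℝ) (x y : Fin d → ZMod L) :
    heat d L t x y = prob d L t {σ | σ x = y} := by
  rw [← heat_apply]
  exact ((heat_isSymm t).apply x y).symm

theorem prob_nonneg {t : ℝ} (ht : 0 ≤ t) (A : Set (Equiv.Perm (Fin d → ZMod L))) :
    0 ≤ prob d L t A := by
  rw [prob, expect_eq]
  exact E_nonneg (fun _ => ht) _ fun σ => Set.indicator_nonneg (fun _ _ => zero_le_one) σ

theorem det_heat (t : ℝ) (S : Finset (Fin d → ZMod L)) :
    dS (heat d L t) S = (Matrix.of fun x y : S =>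
      (if x = y then (1 : ℝ) else 0) - prob d L t {σ | σ x = y}).det := by
  have h := Matrix.det_piecewise_one_eq_submatrix_det (1 - heat d L t) S
  have h2 : (Matrix.of (S.piecewise (1 - heat d L t).row (1 : Matrix _ _ ℝ).row)) =
      1 - projM (S : Set (Fin d → ZMod L)) * heat d L t := by
    ext x y
    rw [Matrix.sub_apply, projM_mul_apply, Matrix.of_apply]
    by_cases hx : x ∈ S
    · rw [Finset.piecewise_eq_of_mem _ _ _ hx, Set.indicator_of_mem (by exact_mod_cast hx), one_mul]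
      rfl
    · rw [Finset.piecewise_eq_of_notMem _ _ _ hx, Set.indicator_of_notMem (by exact_mod_cast hx),
        zero_mul, sub_zero]
      rfl
  rw [h2] at h
  rw [dS, h]
  congr 1
  ext x y
  rw [Matrix.submatrix_apply, Matrix.sub_apply, heat_apply', Matrix.of_apply, Matrix.one_apply]
  congr 1
  refine if_congr ?_ rfl rfl
  rw [Subtype.ext_iff]

/-- The event that the cycle of `x` leaves `S` and no cycle is contained in `S \ {x}`. -/
theorem leaves_inter {V : Type*} (σ : Equiv.Perm V) (S : Set V) (x : V) :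
    (Leaves σ x S ∧ NoCycleIn σ (S \ {x})) ↔ NoCycleIn σ S := by
  constructor
  · rintro ⟨h1, h2⟩ z
    by_cases hzx : σ.SameCycle z x
    · obtain ⟨y, hy, hyS⟩ := h1
      exact ⟨y, hzx.trans hy, hyS⟩
    · obtain ⟨y, hy, hyS⟩ := h2 z
      refine ⟨y, hy, fun hyS' => hyS ⟨hyS', ?_⟩⟩
      rintro rfl
      exact hzx hy
  · intro h
    refine ⟨h x, fun z => ?_⟩
    obtain ⟨y, hy, hyS⟩ := h z
    exact ⟨y, hy, fun h' => hyS h'.1⟩

end Pool.Agent.Stirring.NoCyc
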