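import Pool.Agent.Lib.MP_6c3d62_pr.LogTest
import Pool.Agent.Lib.MP_6c3d62_pr.FlowBound

/-! The flow of the Pólya urn with three colours, and the resulting lower bound in dimension at
least three. -/

open Finset Matrix

set_option linter.unusedSectionVars false

namespace Pool.Agent.Stirring.NoCyc

theorem telescope_le {u g : ℕ → ℝ} (h : ∀ k, u k ≤ g k - g (k + 1)) (hg : ∀ k, 0 ≤ g k) (s N : ℕ) :
    ∑ c ∈ Finset.range N, u (s + c) ≤ g s := by
  have h1 : ∑ c ∈ Finset.range N, u (s + c) ≤ g s - g (s + N) := by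
    induction N with
    | zero => simp
    | succ N ih =>
      rw [Finset.sum_range_succ]
      have := h (s + N)
      rw [← add_assoc]
      linarith
  linarith [hg (s + N)]

theorem natCast_inj {L N a b : ℕ} (hN : N ≤ L) (ha : a < N) (hb : b < N)
    (h : (a : ZMod L) = (b : ZMod L)) : a = b := by
  have h1 := (ZMod.natCast_eq_natCast_iff' a b L).mp h
  rwa [Nat.mod_eq_of_lt (by omega), Nat.mod_eq_of_lt (by omega)] at h1

theorem notMem_box {d L R : ℕ} (hL : 2 * R + 2 ≤ L) {x : Fin d → ZMod L} {i : Fin d}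
    (h : x i = ((R + 1 : ℕ) : ZMod L)) : x ∉ box d L R := by
  intro hx
  have h1 := hx i
  rw [h, ZMod.valMinAbs_natCast_of_le_half (by omega), Int.natAbs_natCast] at h1
  omega

theorem zero_mem_box {d L : ℕ} (R : ℕ) : (0 : Fin d → ZMod L) ∈ box d L R := by
  intro i; simp

/-- The flow of the Pólya urn. -/
noncomputable def tau (n k : ℕ) : ℝ := 2 * n / (k * (k + 1) * (k + 2))

theorem tau_zero (k : ℕ) : tau 0 k = 0 := by simp [tau]

theorem tau_nonneg (n k : ℕ) : 0 ≤ tau n k := by unfold tau; positivity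

theorem shift_sum (N s : ℕ) (F : ℕ → ℝ) :
    ∑ a ∈ Finset.range N, tau (a + 1) (a + s + 1) * F (a + 1) =
      (∑ a ∈ Finset.range N, tau a (a + s) * F a) + tau N (N + s) * F N := by
  have h0 : ∀ a, a + s + 1 = a + 1 + s := fun a => by ring
  simp only [h0]
  have h1 := Finset.sum_range_succ (fun a => tau a (a + s) * F a) N
  have h2 := Finset.sum_range_succ' (fun a => tau a (a + s) * F a) N
  rw [tau_zero, zero_mul, add_zero] at h2
  rw [← h1, h2]

theorem tau_div (a b c : ℕ) :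
    tau (a + 1) (a + b + c + 1) + tau (b + 1) (a + b + c + 1) + tau (c + 1) (a + b + c + 1) -
      (tau a (a + b + c) + tau b (a + b + c) + tau c (a + b + c)) =
      if a = 0 ∧ b = 0 ∧ c = 0 then 1 else 0 := by
  split_ifs with h
  · obtain ⟨rfl, rfl, rfl⟩ := h
    simp only [tau]
    norm_num
  · have hk : 0 < a + b + c := by omega
    have hk' : (0 : ℝ) < (a : ℝ) + b + c := by exact_mod_cast hk
    simp only [tau]
    push_cast
    field_simp
    ring

theorem tau_sum_sq (a b c : ℕ) :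
    tau (a + 1) (a + b + c + 1) ^ 2 + tau (b + 1) (a + b + c + 1) ^ 2 +
      tau (c + 1) (a + b + c + 1) ^ 2 ≤
      24 / (((a + b + c : ℕ) + 1) * ((a + b + c : ℕ) + 2) * ((a + b + c : ℕ) + 3) *
        ((a + b + c : ℕ) + 4)) := by
  have h2 : tau (a + 1) (a + b + c + 1) ^ 2 + tau (b + 1) (a + b + c + 1) ^ 2 +
      tau (c + 1) (a + b + c + 1) ^ 2 ≤
      (tau (a + 1) (a + b + c + 1) + tau (b + 1) (a + b + c + 1) +
        tau (c + 1) (a + b + c + 1)) ^ 2 := by
    have ha := tau_nonneg (a + 1) (a + b + c + 1)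
    have hb := tau_nonneg (b + 1) (a + b + c + 1)
    have hc := tau_nonneg (c + 1) (a + b + c + 1)
    nlinarith [mul_nonneg ha hb, mul_nonneg hb hc, mul_nonneg ha hc]
  refine h2.trans ?_
  have h3 : tau (a + 1) (a + b + c + 1) + tau (b + 1) (a + b + c + 1) +
        tau (c + 1) (a + b + c + 1) =
        2 / (((a + b + c : ℕ) + 1) * ((a + b + c : ℕ) + 2)) := by
    simp only [tau]
    push_cast
    field_simp
    ring
  rw [h3]
  set k : ℝ := ((a + b + c : ℕ) : ℝ) with hk
  have hk0 : 0 ≤ k := Nat.cast_nonneg _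
  rw [div_pow, div_le_div_iff₀ (by positivity) (by positivity)]
  have e : 24 * ((k + 1) * (k + 2)) ^ 2 - 2 ^ 2 * ((k + 1) * (k + 2) * (k + 3) * (k + 4)) =
      (k + 1) * (k + 2) * (4 * (k * (5 * k + 11))) := by ring
  have : 0 ≤ (k + 1) * (k + 2) * (4 * (k * (5 * k + 11))) := by positivity
  linarith

theorem tau_sq_total (N : ℕ) :
    ∑ a ∈ Finset.range N, ∑ b ∈ Finset.range N, ∑ c ∈ Finset.range N,
      (24 / (((a + b + c : ℕ) + 1) * ((a + b + c : ℕ) + 2) * ((a + b + c : ℕ) + 3) *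
        ((a + b + c : ℕ) + 4)) : ℝ) ≤ 4 := by
  have h3 : ∀ s : ℕ, ∑ c ∈ Finset.range N,
      (24 / (((s + c : ℕ) + 1) * ((s + c : ℕ) + 2) * ((s + c : ℕ) + 3) *
        ((s + c : ℕ) + 4)) : ℝ) ≤ 8 / (((s : ℝ) + 1) * (s + 2) * (s + 3)) := fun s =>
    telescope_le (u := fun k : ℕ => (24 / (((k : ℕ) + 1) * ((k : ℕ) + 2) * ((k : ℕ) + 3) *
        ((k : ℕ) + 4)) : ℝ)) (g := fun k : ℕ => 8 / (((k : ℝ) + 1) * (k + 2) * (k + 3)))
      (fun k => le_of_eq (by push_cast; field_simp; ring)) (fun k => by positivity) s N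
  have h2 : ∀ s : ℕ, ∑ b ∈ Finset.range N,
      (8 / ((((s + b : ℕ) : ℝ) + 1) * ((s + b : ℕ) + 2) * ((s + b : ℕ) + 3)) : ℝ) ≤
        4 / (((s : ℝ) + 1) * (s + 2)) := fun s =>
    telescope_le (u := fun k : ℕ => 8 / (((k : ℝ) + 1) * (k + 2) * (k + 3)))
      (g := fun k : ℕ => 4 / (((k : ℝ) + 1) * (k + 2)))
      (fun k => le_of_eq (by push_cast; field_simp; ring)) (fun k => by positivity) s N
  have h1 : ∑ a ∈ Finset.range N,
      (4 / ((((0 + a : ℕ) : ℝ) + 1) * ((0 + a : ℕ) + 2)) : ℝ) ≤ 4 / (((0 : ℕ) : ℝ) + 1) :=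
    telescope_le (u := fun k : ℕ => 4 / (((k : ℝ) + 1) * (k + 2)))
      (g := fun k : ℕ => 4 / ((k : ℝ) + 1))
      (fun k => le_of_eq (by push_cast; field_simp; ring)) (fun k => by positivity) 0 N
  calc _ ≤ ∑ a ∈ Finset.range N, ∑ b ∈ Finset.range N,
        (8 / ((((a + b : ℕ) : ℝ) + 1) * ((a + b : ℕ) + 2) * ((a + b : ℕ) + 3)) : ℝ) :=
        Finset.sum_le_sum fun a _ => Finset.sum_le_sum fun b _ => h3 (a + b)
    _ ≤ ∑ a ∈ Finset.range N, (4 / (((a : ℝ) + 1) * (a + 2)) : ℝ) :=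
        Finset.sum_le_sum fun a _ => h2 a
    _ ≤ 4 := by
        simp only [Nat.zero_add] at h1
        simpa using h1

theorem flow_identity {N : ℕ} (hN : 0 < N) (F : ℕ → ℕ → ℕ → ℝ) :
    F 0 0 0 = (∑ a ∈ Finset.range N, ∑ b ∈ Finset.range N, ∑ c ∈ Finset.range N,
      (tau (a + 1) (a + b + c + 1) * (F a b c - F (a + 1) b c) +
        tau (b + 1) (a + b + c + 1) * (F a b c - F a (b + 1) c) +
        tau (c + 1) (a + b + c + 1) * (F a b c - F a b (c + 1)))) +
      ∑ b ∈ Finset.range N, ∑ c ∈ Finset.range N,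
        tau N (N + (b + c)) * (F N b c + F b N c + F b c N) := by
  have e1 : ∑ a ∈ Finset.range N, ∑ b ∈ Finset.range N, ∑ c ∈ Finset.range N,
      tau (a + 1) (a + b + c + 1) * F (a + 1) b c =
      (∑ a ∈ Finset.range N, ∑ b ∈ Finset.range N, ∑ c ∈ Finset.range N,
        tau a (a + b + c) * F a b c) + ∑ b ∈ Finset.range N, ∑ c ∈ Finset.range N,
          tau N (N + (b + c)) * F N b c := by
    rw [Finset.sum_comm, Finset.sum_comm (f := fun a b => ∑ c ∈ Finset.range N,
      tau a (a + b + c) * F a b c), ← Finset.sum_add_distrib]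
    refine Finset.sum_congr rfl fun b _ => ?_
    rw [Finset.sum_comm, Finset.sum_comm (f := fun a c => tau a (a + b + c) * F a b c),
      ← Finset.sum_add_distrib]
    refine Finset.sum_congr rfl fun c _ => ?_
    have := shift_sum N (b + c) (fun a => F a b c)
    have r2 : ∀ a, a + b + c = a + (b + c) := fun a => by ring
    simp only [r2]
    exact this
  have e2 : ∑ a ∈ Finset.range N, ∑ b ∈ Finset.range N, ∑ c ∈ Finset.range N,
      tau (b + 1) (a + b + c + 1) * F a (b + 1) c =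
      (∑ a ∈ Finset.range N, ∑ b ∈ Finset.range N, ∑ c ∈ Finset.range N,
        tau b (a + b + c) * F a b c) + ∑ b ∈ Finset.range N, ∑ c ∈ Finset.range N,
          tau N (N + (b + c)) * F b N c := by
    rw [← Finset.sum_add_distrib]
    refine Finset.sum_congr rfl fun a _ => ?_
    rw [Finset.sum_comm, Finset.sum_comm (f := fun b c => tau b (a + b + c) * F a b c),
      ← Finset.sum_add_distrib]
    refine Finset.sum_congr rfl fun c _ => ?_
    have := shift_sum N (a + c) (fun b => F a b c)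
    have r2 : ∀ b, a + b + c = b + (a + c) := fun b => by ring
    simp only [r2]
    exact this
  have e3 : ∑ a ∈ Finset.range N, ∑ b ∈ Finset.range N, ∑ c ∈ Finset.range N,
      tau (c + 1) (a + b + c + 1) * F a b (c + 1) =
      (∑ a ∈ Finset.range N, ∑ b ∈ Finset.range N, ∑ c ∈ Finset.range N,
        tau c (a + b + c) * F a b c) + ∑ b ∈ Finset.range N, ∑ c ∈ Finset.range N,
          tau N (N + (b + c)) * F b c N := by
    rw [← Finset.sum_add_distrib]
    refine Finset.sum_congr rfl fun a _ => ?_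
    rw [← Finset.sum_add_distrib]
    refine Finset.sum_congr rfl fun b _ => ?_
    have := shift_sum N (a + b) (fun c => F a b c)
    have r2 : ∀ c, a + b + c = c + (a + b) := fun c => by ring
    simp only [r2]
    exact this
  have e4 : ∑ a ∈ Finset.range N, ∑ b ∈ Finset.range N, ∑ c ∈ Finset.range N,
      (tau (a + 1) (a + b + c + 1) * (F a b c - F (a + 1) b c) +
        tau (b + 1) (a + b + c + 1) * (F a b c - F a (b + 1) c) +
        tau (c + 1) (a + b + c + 1) * (F a b c - F a b (c + 1))) =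
      (∑ a ∈ Finset.range N, ∑ b ∈ Finset.range N, ∑ c ∈ Finset.range N,
        (tau (a + 1) (a + b + c + 1) + tau (b + 1) (a + b + c + 1) +
          tau (c + 1) (a + b + c + 1)) * F a b c) -
      ((∑ a ∈ Finset.range N, ∑ b ∈ Finset.range N, ∑ c ∈ Finset.range N,
        tau (a + 1) (a + b + c + 1) * F (a + 1) b c) +
      (∑ a ∈ Finset.range N, ∑ b ∈ Finset.range N, ∑ c ∈ Finset.range N,
        tau (b + 1) (a + b + c + 1) * F a (b + 1) c) +
      (∑ a ∈ Finset.range N, ∑ b ∈ Finset.range N, ∑ c ∈ Finset.range N,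
        tau (c + 1) (a + b + c + 1) * F a b (c + 1))) := by
    simp only [← Finset.sum_add_distrib, ← Finset.sum_sub_distrib]
    refine Finset.sum_congr rfl fun a _ => Finset.sum_congr rfl fun b _ =>
      Finset.sum_congr rfl fun c _ => by ring
  have e6 : (∑ a ∈ Finset.range N, ∑ b ∈ Finset.range N, ∑ c ∈ Finset.range N,
        (tau (a + 1) (a + b + c + 1) + tau (b + 1) (a + b + c + 1) +
          tau (c + 1) (a + b + c + 1)) * F a b c) -
      ((∑ a ∈ Finset.range N, ∑ b ∈ Finset.range N, ∑ c ∈ Finset.range N,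
        tau a (a + b + c) * F a b c) +
      (∑ a ∈ Finset.range N, ∑ b ∈ Finset.range N, ∑ c ∈ Finset.range N,
        tau b (a + b + c) * F a b c) +
      (∑ a ∈ Finset.range N, ∑ b ∈ Finset.range N, ∑ c ∈ Finset.range N,
        tau c (a + b + c) * F a b c)) = F 0 0 0 := by
    simp only [← Finset.sum_add_distrib, ← Finset.sum_sub_distrib]
    have e5 : ∀ a b c : ℕ, (tau (a + 1) (a + b + c + 1) + tau (b + 1) (a + b + c + 1) +
        tau (c + 1) (a + b + c + 1)) * F a b c - (tau a (a + b + c) * F a b c +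
          tau b (a + b + c) * F a b c + tau c (a + b + c) * F a b c) =
        (if a = 0 ∧ b = 0 ∧ c = 0 then 1 else 0) * F a b c := by
      intro a b c
      rw [← tau_div]; ring
    simp only [e5]
    rw [Finset.sum_eq_single_of_mem 0 (Finset.mem_range.mpr hN)]
    · rw [Finset.sum_eq_single_of_mem 0 (Finset.mem_range.mpr hN)]
      · rw [Finset.sum_eq_single_of_mem 0 (Finset.mem_range.mpr hN)]
        · simp
        · intro c _ hc; rw [if_neg (fun h => hc h.2.2), zero_mul]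
      · intro b _ hb
        refine Finset.sum_eq_zero fun c _ => ?_
        rw [if_neg (fun h => hb h.2.1), zero_mul]
    · intro a _ ha
      refine Finset.sum_eq_zero fun b _ => Finset.sum_eq_zero fun c _ => ?_
      rw [if_neg (fun h => ha h.1), zero_mul]
  rw [e4, e1, e2, e3]
  have e7 : ∑ b ∈ Finset.range N, ∑ c ∈ Finset.range N,
        tau N (N + (b + c)) * (F N b c + F b N c + F b c N) =
      (∑ b ∈ Finset.range N, ∑ c ∈ Finset.range N, tau N (N + (b + c)) * F N b c) +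
      (∑ b ∈ Finset.range N, ∑ c ∈ Finset.range N, tau N (N + (b + c)) * F b N c) +
      (∑ b ∈ Finset.range N, ∑ c ∈ Finset.range N, tau N (N + (b + c)) * F b c N) := by
    simp only [← Finset.sum_add_distrib]
    refine Finset.sum_congr rfl fun b _ => Finset.sum_congr rfl fun c _ => by ring
  rw [e7]
  linarith

section Embed

variable {d L : ℕ}

/-- The point with first three coordinates `a`, `b`, `c`. -/
def pt (d L : ℕ) (a b c : ℕ) : Fin d → ZMod L := fun i =>
  if i.val = 0 then (a : ZMod L) else if i.val = 1 then (b : ZMod L) else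
    if i.val = 2 then (c : ZMod L) else 0

theorem pt_zero : pt d L 0 0 0 = 0 := by
  ext i
  simp [pt]

theorem pt_add_zero (hd : 3 ≤ d) (a b c : ℕ) :
    pt d L (a + 1) b c = pt d L a b c + Pi.single ⟨0, by omega⟩ 1 := by
  ext i
  by_cases h : i = ⟨0, by omega⟩
  · subst h; simp [pt]
  · have h2 : i.val ≠ 0 := fun h3 => h (Fin.ext h3)
    simp [pt, h2, Pi.single_eq_of_ne h]

theorem pt_add_one (hd : 3 ≤ d) (a b c : ℕ) :
    pt d L a (b + 1) c = pt d L a b c + Pi.single ⟨1, by omega⟩ 1 := by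
  ext i
  by_cases h : i = ⟨1, by omega⟩
  · subst h; simp [pt]
  · have h2 : i.val ≠ 1 := fun h3 => h (Fin.ext h3)
    simp [pt, h2, Pi.single_eq_of_ne h]

theorem pt_add_two (hd : 3 ≤ d) (a b c : ℕ) :
    pt d L a b (c + 1) = pt d L a b c + Pi.single ⟨2, by omega⟩ 1 := by
  ext i
  by_cases h : i = ⟨2, by omega⟩
  · subst h; simp [pt]
  · have h2 : i.val ≠ 2 := fun h3 => h (Fin.ext h3)
    simp [pt, h2, Pi.single_eq_of_ne h]

theorem pt_inj (hd : 3 ≤ d) {N a b c a' b' c' : ℕ} (hN : N ≤ L) (ha : a < N) (hb : b < N)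
    (hc : c < N) (ha' : a' < N) (hb' : b' < N) (hc' : c' < N)
    (h : pt d L a b c = pt d L a' b' c') : a = a' ∧ b = b' ∧ c = c' := by
  have h0 := congrFun h ⟨0, by omega⟩
  have h1 := congrFun h ⟨1, by omega⟩
  have h2 := congrFun h ⟨2, by omega⟩
  simp only [pt, one_ne_zero, if_true, if_false, OfNat.ofNat_ne_zero, OfNat.ofNat_ne_one] at h0 h1 h2
  exact ⟨natCast_inj hN ha ha' h0, natCast_inj hN hb hb' h1, natCast_inj hN hc hc' h2⟩

variable [NeZero L]

theorem form_ge_three (hd : 3 ≤ d) {t : ℝ} (ht : 0 < t) {R : ℕ} (hL : 2 * R + 2 ≤ L)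
    {f : (Fin d → ZMod L) → ℝ} (hf : ∀ y, y ∉ box d L R → f y = 0) :
    f 0 ^ 2 ≤ (1 + 4 / t + 2 / ((R + 2) * (R + 3))) * (f ⬝ᵥ (1 - heat d L t).mulVec f) := by
  set N := R + 1 with hN
  have hN0 : 0 < N := by omega
  set s := (Finset.range N ×ˢ (Finset.range N ×ˢ Finset.range N)) ×ˢ
    (Finset.univ : Finset (Fin 3)) with hs
  set Φ : (ℕ × (ℕ × ℕ)) × Fin 3 → (Fin d → ZMod L) × Fin d := fun p =>
    (pt d L p.1.1 p.1.2.1 p.1.2.2, Fin.castLE hd p.2) with hΦ
  set th : (ℕ × (ℕ × ℕ)) × Fin 3 → ℝ := fun p =>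
    ![tau (p.1.1 + 1) (p.1.1 + p.1.2.1 + p.1.2.2 + 1), tau (p.1.2.1 + 1)
      (p.1.1 + p.1.2.1 + p.1.2.2 + 1), tau (p.1.2.2 + 1) (p.1.1 + p.1.2.1 + p.1.2.2 + 1)] p.2
    with hth
  set r := (Finset.range N ×ˢ Finset.range N) ×ˢ (Finset.univ : Finset (Fin 3)) with hr
  set Ψ : (ℕ × ℕ) × Fin 3 → (Fin d → ZMod L) := fun q =>
    ![pt d L N q.1.1 q.1.2, pt d L q.1.1 N q.1.2, pt d L q.1.1 q.1.2 N] q.2 with hΨ
  set η : (ℕ × ℕ) × Fin 3 → ℝ := fun q => tau N (N + (q.1.1 + q.1.2)) with hη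
  refine flow_bound (S := box d L R) (by omega) ht (zero_mem_box R) s Φ ?_ th r Ψ ?_ ?_ η ?_ ?_ ?_ hf
  · rintro ⟨⟨a, b, c⟩, j⟩ hp ⟨⟨a', b', c'⟩, j'⟩ hp' heq
    simp only [hs, Finset.coe_product, Set.mem_prod, Finset.mem_coe,
      Finset.coe_range, Set.mem_Iio] at hp hp'
    simp only [hΦ, Prod.mk.injEq] at heq
    obtain ⟨r0, r1, r2⟩ := pt_inj hd (N := N) (by omega) hp.1.1 hp.1.2.1 hp.1.2.2 hp'.1.1
      hp'.1.2.1 hp'.1.2.2 heq.1
    have r3 : j = j' := by
      have := congrArg Fin.val heq.2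
      exact Fin.ext this
    rw [r0, r1, r2, r3]
  · rintro ⟨⟨b, c⟩, j⟩ hq ⟨⟨b', c'⟩, j'⟩ hq' heq
    simp only [hr, Finset.coe_product, Set.mem_prod, Finset.mem_coe,
      Finset.coe_range, Set.mem_Iio] at hq hq'
    obtain ⟨⟨hb, hc⟩, -⟩ := hq
    obtain ⟨⟨hb', hc'⟩, -⟩ := hq'
    have key : ∀ a1 b1 c1 a2 b2 c2 : ℕ, a1 ≤ N → b1 ≤ N → c1 ≤ N → a2 ≤ N → b2 ≤ N → c2 ≤ N →
        pt d L a1 b1 c1 = pt d L a2 b2 c2 → a1 = a2 ∧ b1 = b2 ∧ c1 = c2 :=
      fun a1 b1 c1 a2 b2 c2 h1 h2 h3 h4 h5 h6 h =>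
        pt_inj hd (N := N + 1) (by omega) (by omega) (by omega) (by omega) (by omega) (by omega)
          (by omega) h
    fin_cases j <;> fin_cases j' <;> simp [hΨ] at heq ⊢ <;>
      have := key _ _ _ _ _ _ (by omega) (by omega) (by omega) (by omega) (by omega) (by omega) heq <;>
      omega
  · rintro ⟨⟨b, c⟩, j⟩ _
    fin_cases j
    · exact notMem_box hL (i := ⟨0, by omega⟩) (by simp [hΨ, pt, hN])
    · exact notMem_box hL (i := ⟨1, by omega⟩) (by simp [hΨ, pt, hN])
    · exact notMem_box hL (i := ⟨2, by omega⟩) (by simp [hΨ, pt, hN])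
  · intro g
    have h1 := flow_identity hN0 (fun a b c => g (pt d L a b c))
    simp only [pt_zero] at h1
    rw [h1]
    congr 1
    · rw [hs, Finset.sum_product, Finset.sum_product]
      refine Finset.sum_congr rfl fun a _ => ?_
      rw [Finset.sum_product]
      refine Finset.sum_congr rfl fun b _ => Finset.sum_congr rfl fun c _ => ?_
      rw [Fin.sum_univ_three, pt_add_zero hd, pt_add_one hd, pt_add_two hd]
      rfl
    · rw [hr, Finset.sum_product, Finset.sum_product]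
      refine Finset.sum_congr rfl fun b _ => Finset.sum_congr rfl fun c _ => ?_
      rw [Fin.sum_univ_three]
      simp only [hη, hΨ, Matrix.cons_val_zero, Matrix.cons_val_one, Matrix.cons_val]
      ring
  · refine le_trans ?_ (tau_sq_total N)
    rw [hs, Finset.sum_product, Finset.sum_product]
    refine Finset.sum_le_sum fun a _ => ?_
    rw [Finset.sum_product]
    refine Finset.sum_le_sum fun b _ => Finset.sum_le_sum fun c _ => ?_
    rw [Fin.sum_univ_three]
    have := tau_sum_sq a b c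
    simpa [hth] using this
  · have h1 := flow_identity hN0 (fun _ _ _ => 1)
    simp only [sub_self, mul_zero, add_zero, Finset.sum_const_zero, zero_add] at h1
    have h2 : ∑ q ∈ r, η q = 1 := by
      rw [hr, Finset.sum_product, Finset.sum_product, h1]
      refine Finset.sum_congr rfl fun b _ => Finset.sum_congr rfl fun c _ => ?_
      rw [Fin.sum_univ_three]
      simp only [hη]
      ring
    have h3 : ∀ q ∈ r, η q ^ 2 ≤ 2 / (((R : ℝ) + 2) * (R + 3)) * η q := by
      intro q _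
      rw [sq]
      refine mul_le_mul_of_nonneg_right ?_ (tau_nonneg _ _)
      simp only [hη, tau]
      set m : ℕ := q.1.1 + q.1.2
      rw [div_le_div_iff₀ (by positivity) (by positivity), hN]
      push_cast
      have hm : (0 : ℝ) ≤ m := Nat.cast_nonneg m
      have hR : (0 : ℝ) ≤ R := Nat.cast_nonneg R
      have e : 2 * ((R + 1 + m : ℝ) * (R + 1 + m + 1) * (R + 1 + m + 2)) -
          2 * ((R : ℝ) + 1) * (((R : ℝ) + 2) * (R + 3)) =
          2 * m * ((R + 1 + m + 1 : ℝ) * (R + 1 + m + 2) + (R + 1) * (2 * R + 5 + m)) := by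
        ring
      have : 0 ≤ 2 * m * ((R + 1 + m + 1 : ℝ) * (R + 1 + m + 2) + (R + 1) * (2 * R + 5 + m)) := by
        positivity
      linarith
    calc ∑ q ∈ r, η q ^ 2 ≤ ∑ q ∈ r, 2 / (((R : ℝ) + 2) * (R + 3)) * η q :=
          Finset.sum_le_sum h3
      _ = _ := by rw [← Finset.mul_sum, h2, mul_one]

end Embed

end Pool.Agent.Stirring.NoCyc
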