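import Mathlib

/-! Stirring on tubes, part 1: Poissonized words, motion of a particle, switching, isolation, gluing. -/

set_option autoImplicit false

/-! Poissonized words: sums over words in a finite alphabet with exponential weights. -/

open Finset

namespace Pool.Agent.ThinTori

section Words

variable {α : Type*} [Fintype α]

/-- Sum over all words of length `n` of the product of the letter weights times `F`. -/
noncomputable def wordSum (c : α → ℝ) (F : List α → ℝ) (n : ℕ) : ℝ :=
  ∑ w : Fin n → α, (∏ i, c (w i)) * F (List.ofFn w)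

/-- The exponential generating functional of words. -/
noncomputable def Z (c : α → ℝ) (F : List α → ℝ) : ℝ :=
  ∑' n : ℕ, wordSum c F n / (n.factorial : ℝ)

theorem wordSum_zero (c : α → ℝ) (F : List α → ℝ) : wordSum c F 0 = F [] := by
  simp [wordSum]

theorem wordSum_succ (c : α → ℝ) (F : List α → ℝ) (n : ℕ) :
    wordSum c F (n + 1) = ∑ a, c a * wordSum c (fun l => F (a :: l)) n := by
  unfold wordSum
  rw [← (Fin.consEquiv (fun _ : Fin (n + 1) => α)).sum_comp, Fintype.sum_prod_type]
  refine Finset.sum_congr rfl fun a _ => ?_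
  rw [Finset.mul_sum]
  refine Finset.sum_congr rfl fun w _ => ?_
  simp [Fin.consEquiv, Fin.prod_univ_succ, List.ofFn_succ, mul_assoc]

theorem wordSum_add (c : α → ℝ) (F G : List α → ℝ) (n : ℕ) :
    wordSum c (fun l => F l + G l) n = wordSum c F n + wordSum c G n := by
  simp [wordSum, mul_add, Finset.sum_add_distrib]

theorem wordSum_smul (c : α → ℝ) (r : ℝ) (F : List α → ℝ) (n : ℕ) :
    wordSum c (fun l => r * F l) n = r * wordSum c F n := by
  simp only [wordSum, Finset.mul_sum]
  refine Finset.sum_congr rfl fun w _ => by ring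

theorem wordSum_sum {ι : Type*} (s : Finset ι) (c : α → ℝ) (F : ι → List α → ℝ) (n : ℕ) :
    wordSum c (fun l => ∑ i ∈ s, F i l) n = ∑ i ∈ s, wordSum c (F i) n := by
  simp only [wordSum, Finset.mul_sum]
  rw [Finset.sum_comm]

theorem wordSum_const (c : α → ℝ) (r : ℝ) (n : ℕ) :
    wordSum c (fun _ => r) n = r * (∑ a, c a) ^ n := by
  induction n with
  | zero => simp [wordSum_zero]
  | succ n ih =>
    rw [wordSum_succ]
    simp only [ih]
    rw [← Finset.sum_mul, pow_succ]; ring

theorem wordSum_mono {c : α → ℝ} (hc : ∀ a, 0 ≤ c a) {F G : List α → ℝ} (h : ∀ l, F l ≤ G l)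
    (n : ℕ) : wordSum c F n ≤ wordSum c G n := by
  unfold wordSum
  refine Finset.sum_le_sum fun w _ => ?_
  exact mul_le_mul_of_nonneg_left (h _) (Finset.prod_nonneg fun i _ => hc _)

theorem abs_wordSum_le (c : α → ℝ) (F : List α → ℝ) {C R : ℝ}
    (h : ∀ l, |F l| ≤ C * R ^ l.length) (n : ℕ) :
    |wordSum c F n| ≤ C * (R * ∑ a, |c a|) ^ n := by
  calc |wordSum c F n| ≤ ∑ w : Fin n → α, |(∏ i, c (w i)) * F (List.ofFn w)| :=
        Finset.abs_sum_le_sum_abs _ _
    _ ≤ ∑ w : Fin n → α, (∏ i, |c (w i)|) * (C * R ^ n) := by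
        refine Finset.sum_le_sum fun w _ => ?_
        rw [abs_mul, Finset.abs_prod]
        refine mul_le_mul_of_nonneg_left ?_ (Finset.prod_nonneg fun i _ => abs_nonneg _)
        simpa using h (List.ofFn w)
    _ = wordSum (fun a => |c a|) (fun _ => C * R ^ n) n := rfl
    _ = C * (R * ∑ a, |c a|) ^ n := by
        rw [wordSum_const, mul_pow]; ring

theorem summable_of_growth (c : α → ℝ) (F : List α → ℝ) {C R : ℝ}
    (h : ∀ l, |F l| ≤ C * R ^ l.length) :
    Summable fun n : ℕ => wordSum c F n / (n.factorial : ℝ) := by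
  refine Summable.of_norm_bounded
    (g := fun n : ℕ => C * ((R * ∑ a, |c a|) ^ n / (n.factorial : ℝ))) ?_ fun n => ?_
  · exact (Real.summable_pow_div_factorial _).mul_left C
  · rw [Real.norm_eq_abs, abs_div, Nat.abs_cast, ← mul_div_assoc]
    exact div_le_div_of_nonneg_right (abs_wordSum_le c F h n) (by positivity)

theorem summable_of_bounded (c : α → ℝ) (F : List α → ℝ) {C : ℝ} (h : ∀ l, |F l| ≤ C) :
    Summable fun n : ℕ => wordSum c F n / (n.factorial : ℝ) :=
  summable_of_growth c F (C := C) (R := 1) (by simpa using h)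

theorem summable_norm_of_bounded (c : α → ℝ) (F : List α → ℝ) {C : ℝ} (h : ∀ l, |F l| ≤ C) :
    Summable fun n : ℕ => ‖wordSum c F n / (n.factorial : ℝ)‖ :=
  (summable_of_bounded c F h).norm

theorem Z_const (c : α → ℝ) (r : ℝ) : Z c (fun _ => r) = r * Real.exp (∑ a, c a) := by
  unfold Z
  simp only [wordSum_const, mul_div_assoc]
  rw [tsum_mul_left, Real.exp_eq_exp_ℝ, NormedSpace.exp_eq_tsum_div]

theorem Z_add (c : α → ℝ) {F G : List α → ℝ} {C C' : ℝ} (hF : ∀ l, |F l| ≤ C)
    (hG : ∀ l, |G l| ≤ C') : Z c (fun l => F l + G l) = Z c F + Z c G := by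
  unfold Z
  rw [← (summable_of_bounded c F hF).tsum_add (summable_of_bounded c G hG)]
  exact tsum_congr fun n => by rw [wordSum_add, add_div]

theorem Z_smul (c : α → ℝ) (r : ℝ) (F : List α → ℝ) :
    Z c (fun l => r * F l) = r * Z c F := by
  unfold Z
  rw [← tsum_mul_left]
  exact tsum_congr fun n => by rw [wordSum_smul, mul_div_assoc]

theorem Z_sum {ι : Type*} (s : Finset ι) (c : α → ℝ) {F : ι → List α → ℝ} {C : ι → ℝ}
    (hF : ∀ i ∈ s, ∀ l, |F i l| ≤ C i) :
    Z c (fun l => ∑ i ∈ s, F i l) = ∑ i ∈ s, Z c (F i) := by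
  unfold Z
  rw [← Summable.tsum_finsetSum fun i hi => summable_of_bounded c (F i) (hF i hi)]
  exact tsum_congr fun n => by rw [wordSum_sum, Finset.sum_div]

theorem Z_mono {c : α → ℝ} (hc : ∀ a, 0 ≤ c a) {F G : List α → ℝ} {C C' : ℝ}
    (hF : ∀ l, |F l| ≤ C) (hG : ∀ l, |G l| ≤ C') (h : ∀ l, F l ≤ G l) : Z c F ≤ Z c G := by
  unfold Z
  refine Summable.tsum_le_tsum (fun n => ?_) (summable_of_bounded c F hF)
    (summable_of_bounded c G hG)
  exact div_le_div_of_nonneg_right (wordSum_mono hc h n) (by positivity)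

end Words

section Product

variable {α : Type*} [Fintype α]

/-- The weights restricted to the letters satisfying `p`. -/
noncomputable def restr (c : α → ℝ) (p : α → Bool) : α → ℝ := fun a => if p a then c a else 0

theorem wordSum_prod (c : α → ℝ) (p : α → Bool) (F G : List α → ℝ) (n : ℕ) :
    wordSum c (fun l => F (l.filter p) * G (l.filter fun a => !p a)) n =
      ∑ k ∈ Finset.range (n + 1), (n.choose k : ℝ) *
        (wordSum (restr c p) F k * wordSum (restr c fun a => !p a) G (n - k)) := by
  induction n generalizing F G with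
  | zero => simp [wordSum_zero]
  | succ n ih =>
    rw [wordSum_succ]
    have h1 : ∀ a, c a * wordSum c (fun l => F ((a :: l).filter p) *
        G ((a :: l).filter fun a => !p a)) n =
        (restr c p a * wordSum c (fun l => (fun l => F (a :: l)) (l.filter p) *
          G (l.filter fun a => !p a)) n) +
        (restr c (fun a => !p a) a * wordSum c (fun l => F (l.filter p) *
          (fun l => G (a :: l)) (l.filter fun a => !p a)) n) := by
      intro a
      by_cases h : p a = true
      · simp [restr, h]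
      · simp [restr, h]
    simp only [h1, Finset.sum_add_distrib]
    rw [Finset.sum_congr rfl fun a (_ : a ∈ Finset.univ) =>
        congrArg (fun z => restr c p a * z) (ih (fun l => F (a :: l)) G),
      Finset.sum_congr rfl fun a (_ : a ∈ Finset.univ) =>
        congrArg (fun z => restr c (fun a => !p a) a * z) (ih F (fun l => G (a :: l)))]
    have e1 : ∑ a, restr c p a * ∑ k ∈ Finset.range (n + 1), (n.choose k : ℝ) *
        (wordSum (restr c p) (fun l => F (a :: l)) k * wordSum (restr c fun a => !p a) G (n - k))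
        = ∑ k ∈ Finset.range (n + 1), (n.choose k : ℝ) *
          (wordSum (restr c p) F (k + 1) * wordSum (restr c fun a => !p a) G (n - k)) := by
      simp only [Finset.mul_sum, wordSum_succ (restr c p) F, Finset.sum_mul]
      rw [Finset.sum_comm]
      refine Finset.sum_congr rfl fun k _ => Finset.sum_congr rfl fun a _ => by ring
    have e2 : ∑ a, restr c (fun a => !p a) a * ∑ k ∈ Finset.range (n + 1), (n.choose k : ℝ) *
        (wordSum (restr c p) F k * wordSum (restr c fun a => !p a) (fun l => G (a :: l)) (n - k))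
        = ∑ k ∈ Finset.range (n + 1), (n.choose k : ℝ) *
          (wordSum (restr c p) F k * wordSum (restr c fun a => !p a) G (n - k + 1)) := by
      simp only [Finset.mul_sum, wordSum_succ (restr c fun a => !p a) G]
      rw [Finset.sum_comm]
      refine Finset.sum_congr rfl fun k _ => Finset.sum_congr rfl fun a _ => by ring
    rw [e1, e2]
    set A : ℕ → ℝ := wordSum (restr c p) F with hA
    set B : ℕ → ℝ := wordSum (restr c fun a => !p a) G with hB
    -- Pascal
    rw [Finset.sum_range_succ' (fun k => ((n + 1).choose k : ℝ) * (A k * B (n + 1 - k)))]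
    simp only [Nat.choose_succ_succ, Nat.cast_add, add_mul, Finset.sum_add_distrib,
      Nat.choose_zero_right, Nat.cast_one, one_mul, Nat.sub_zero, Nat.add_sub_add_right]
    rw [Finset.sum_range_succ' (fun k => ((n.choose k : ℕ) : ℝ) * (A k * B (n - k + 1)))]
    rw [Finset.sum_range_succ (fun k => ((n.choose (k + 1) : ℕ) : ℝ) * (A (k + 1) * B (n - k)))]
    have h2 : ∀ k ∈ Finset.range n, ((n.choose (k + 1) : ℕ) : ℝ) * (A (k + 1) * B (n - (k + 1) + 1))
        = ((n.choose (k + 1) : ℕ) : ℝ) * (A (k + 1) * B (n - k)) := by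
      intro k hk
      have : n - (k + 1) + 1 = n - k := by have := Finset.mem_range.mp hk; omega
      rw [this]
    rw [Finset.sum_congr rfl h2]
    simp
    ring

theorem Z_prod (c : α → ℝ) (p : α → Bool) {F G : List α → ℝ} {C C' : ℝ} (hF : ∀ l, |F l| ≤ C)
    (hG : ∀ l, |G l| ≤ C') :
    Z c (fun l => F (l.filter p) * G (l.filter fun a => !p a)) =
      Z (restr c p) F * Z (restr c fun a => !p a) G := by
  unfold Z
  rw [tsum_mul_tsum_eq_tsum_sum_range_of_summable_norm (summable_norm_of_bounded _ F hF)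
    (summable_norm_of_bounded _ G hG)]
  refine tsum_congr fun n => ?_
  rw [wordSum_prod, Finset.sum_div]
  refine Finset.sum_congr rfl fun k hk => ?_
  have hk' : k ≤ n := Nat.lt_succ_iff.mp (Finset.mem_range.mp hk)
  have h1 : ((n.choose k : ℕ) : ℝ) = (n.factorial : ℝ) / (k.factorial * (n - k).factorial) := by
    rw [Nat.cast_choose ℝ hk']
  rw [h1]
  have h2 : (n.factorial : ℝ) ≠ 0 := by positivity
  have h3 : (k.factorial : ℝ) ≠ 0 := by positivity
  have h4 : ((n - k).factorial : ℝ) ≠ 0 := by positivity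
  field_simp

/-- Only words in the support of the weights matter. -/
theorem wordSum_congr (c : α → ℝ) {F G : List α → ℝ} (h : ∀ l, (∀ a ∈ l, c a ≠ 0) → F l = G l)
    (n : ℕ) : wordSum c F n = wordSum c G n := by
  unfold wordSum
  refine Finset.sum_congr rfl fun w _ => ?_
  by_cases hw : ∀ i, c (w i) ≠ 0
  · rw [h]
    intro a ha
    obtain ⟨i, rfl⟩ := (List.mem_ofFn' _ _).mp ha
    exact hw i
  · push Not at hw
    obtain ⟨i, hi⟩ := hw
    have : ∏ i, c (w i) = 0 := Finset.prod_eq_zero (Finset.mem_univ i) hi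
    rw [this]; simp

theorem Z_congr (c : α → ℝ) {F G : List α → ℝ} (h : ∀ l, (∀ a ∈ l, c a ≠ 0) → F l = G l) :
    Z c F = Z c G := by
  unfold Z
  exact tsum_congr fun n => by rw [wordSum_congr c h]

end Product

end Pool.Agent.ThinTori

/-! Stirring on thin tori: definitions (probability of events for Poissonized words, motion of a
particle, events). -/


open Finset

namespace Pool.Agent.ThinTori

section Prob

variable {α : Type*} [Fintype α]

open Classical in
/-- The probability of an event for a Poissonized word with letter weights `c`. -/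
noncomputable def Pr (c : α → ℝ) (A : List α → Prop) : ℝ :=
  Real.exp (-∑ a, c a) * Z c (fun l => if A l then 1 else 0)

/-- The weights of a coloured word: both colours have the weights `c`. -/
def cc (c : α → ℝ) : α × Bool → ℝ := fun x => c x.1

omit [Fintype α] in
/-- The letters of colour `β` of a coloured word. -/
def part (β : Bool) (m : List (α × Bool)) : List α :=
  (m.filter fun x => x.2 == β).map Prod.fst

end Prob

section Dyn

variable {V α : Type*}

/-- One step of the motion of a particle, in space-time: at time `k < l.length` the `k`-th letter acts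
and the time goes up by one; at time `l.length` the time goes back to `0`. -/
def T (g : α → Equiv.Perm V) (l : List α) (s : ℕ × V) : ℕ × V :=
  match l[s.1]? with
  | some a => (s.1 + 1, g a s.2)
  | none => (0, s.2)

/-- The particle at `x` at time `0` comes to `y` at time `0`, being in `D` all along. -/
def Conn (g : α → Equiv.Perm V) (D : Set V) (x y : V) (l : List α) : Prop :=
  ∃ n, (T g l)^[n] (0, x) = (0, y) ∧ ∀ i ≤ n, ((T g l)^[i] (0, x)).2 ∈ D

/-- The particle at `x` at time `0` comes to `b`, being in `D` before. -/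
def Reach (g : α → Equiv.Perm V) (D : Set V) (x b : V) (l : List α) : Prop :=
  ∃ n, ((T g l)^[n] (0, x)).2 = b ∧ ∀ i < n, ((T g l)^[i] (0, x)).2 ∈ D

/-- Some particle at `a` goes, in the next step, into `D` (or to `b`) and comes to `b`, being in `D`
meanwhile (used for `a ≠ b` only). -/
def Seg (g : α → Equiv.Perm V) (D : Set V) (a b : V) (l : List α) : Prop :=
  ∃ k ≤ l.length, ∃ n, ((T g l)^[n + 1] (k, a)).2 = b ∧
    ∀ i, 1 ≤ i → i ≤ n → ((T g l)^[i] (k, a)).2 ∈ D

/-- Some particle goes from `A` into `D`, and comes back to `A`, being in `D` meanwhile and meeting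
`P`. -/
def Exc (g : α → Equiv.Perm V) (D A P : Set V) (l : List α) : Prop :=
  ∃ k ≤ l.length, ∃ a ∈ A, ∃ n, ((T g l)^[n + 1] (k, a)).2 ∈ A ∧
    (∀ i, 1 ≤ i → i ≤ n → ((T g l)^[i] (k, a)).2 ∈ D) ∧
    ∃ i, 1 ≤ i ∧ i ≤ n ∧ ((T g l)^[i] (k, a)).2 ∈ P

open Classical in
/-- The letters which move a point of `S`. -/
noncomputable def inc (g : α → Equiv.Perm V) (S : Set V) (a : α) : Bool :=
  decide (∃ v ∈ S, g a v ≠ v)

/-- The action of the letters of a coloured word: only the letters of colour `β` act. -/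
def gc (g : α → Equiv.Perm V) (β : Bool) (x : α × Bool) : Equiv.Perm V :=
  if x.2 = β then g x.1 else 1

/-- Each letter acts as a transposition (or trivially). -/
def IsSw [DecidableEq V] (g : α → Equiv.Perm V) : Prop := ∀ a, ∃ u w, g a = Equiv.swap u w

end Dyn

section Torus

/-- The vertices of the torus. -/
abbrev Vx (L W : ℕ) := ZMod L × ZMod W

/-- The edges: `(v, true)` is the edge `{v, v + (1, 0)}` and `(v, false)` the edge `{v, v + (0, 1)}`. -/
abbrev Ed (L W : ℕ) := Vx L W × Bool

/-- The transposition of the two ends of an edge. -/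
def gT (L W : ℕ) (e : Ed L W) : Equiv.Perm (Vx L W) :=
  Equiv.swap e.1 (e.1 + if e.2 then (1, 0) else (0, 1))

/-- The vertex with integer coordinates `i`, `j`. -/
def pt (L W : ℕ) (i j : ℤ) : Vx L W := ((i : ZMod L), (j : ZMod W))

/-- The vertices in the columns `i₁, ..., i₂`. -/
def strip (L W : ℕ) (i₁ i₂ : ℤ) : Set (Vx L W) := {v | ∃ i : ℤ, i₁ ≤ i ∧ i ≤ i₂ ∧ v.1 = (i : ZMod L)}

/-- The vertices in the columns `i₁, ..., i₂` and the rows `j₁, ..., j₂`. -/
def rect (L W : ℕ) (i₁ i₂ j₁ j₂ : ℤ) : Set (Vx L W) :=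
  {v | ∃ i j : ℤ, i₁ ≤ i ∧ i ≤ i₂ ∧ j₁ ≤ j ∧ j ≤ j₂ ∧ v = pt L W i j}

/-- The probability of an event at time `t`, all edges having rate one. -/
noncomputable def P (L W : ℕ) [NeZero L] [NeZero W] (t : ℝ) (A : List (Ed L W) → Prop) : ℝ :=
  Pr (fun _ => t) A

end Torus

end Pool.Agent.ThinTori

/-! Stirring on thin tori, row A1: probability: basic facts, independence -/


open Finset

namespace Pool.Agent.ThinTori

section

variable {α : Type*}

open Classical in
private noncomputable def A1_ind (A : List α → Prop) (l : List α) : ℝ := if A l then 1 else 0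

private theorem A1_pos {A : List α → Prop} {l : List α} (h : A l) : A1_ind A l = 1 := if_pos h

private theorem A1_neg {A : List α → Prop} {l : List α} (h : ¬ A l) : A1_ind A l = 0 := if_neg h

private theorem A1_b (A : List α → Prop) (l : List α) : |A1_ind A l| ≤ 1 := by
  by_cases h : A l
  · rw [A1_pos h]
    simp
  · rw [A1_neg h]
    simp

private theorem A1_nonneg (A : List α → Prop) (l : List α) : 0 ≤ A1_ind A l := by
  by_cases h : A l
  · rw [A1_pos h]
    exact zero_le_one
  · rw [A1_neg h]

private theorem A1_restr_restr (c : α → ℝ) (p q : α → Bool) (h : ∀ a, q a = true → p a = true) :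
    restr (restr c p) q = restr c q := by
  funext a
  unfold restr
  by_cases hq : q a = true
  · rw [if_pos hq, if_pos hq, if_pos (h a hq)]
  · rw [if_neg hq, if_neg hq]

private theorem A1_filter_filter (p q : α → Bool) (h : ∀ a, q a = true → p a = true) (l : List α) :
    (l.filter p).filter q = l.filter q := by
  rw [List.filter_filter]
  refine List.filter_congr fun a _ => ?_
  by_cases hq : q a = true
  · simp [hq, h a hq]
  · simp [hq]

end

section

variable {α : Type*} [Fintype α] {c : α → ℝ}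

private theorem A1_Pr (c : α → ℝ) (A : List α → Prop) :
    Pr c A = Real.exp (-∑ a, c a) * Z c (A1_ind A) := rfl

private theorem A1_Z_nonneg (hc : ∀ a, 0 ≤ c a) (A : List α → Prop) : 0 ≤ Z c (A1_ind A) := by
  have h : Z c (fun _ => (0 : ℝ)) ≤ Z c (A1_ind A) :=
    Z_mono hc (C := 0) (C' := 1) (by simp) (A1_b A) (A1_nonneg A)
  rw [Z_const] at h
  simpa using h

private theorem A1_true (c : α → ℝ) : Pr c (fun _ => True) = 1 := by
  rw [A1_Pr]
  have h : (A1_ind fun _ : List α => True) = fun _ => 1 := by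
    funext l
    exact A1_pos trivial
  rw [h, Z_const, one_mul, ← Real.exp_add]
  simp

/- A1 -/
theorem Pr_nonneg (hc : ∀ a, 0 ≤ c a) (A : List α → Prop) : 0 ≤ Pr c A :=
  mul_nonneg (Real.exp_pos _).le (A1_Z_nonneg hc A)

private theorem A1_mono (hc : ∀ a, 0 ≤ c a) {A B : List α → Prop} (h : ∀ l, A l → B l) :
    Pr c A ≤ Pr c B := by
  rw [A1_Pr, A1_Pr]
  refine mul_le_mul_of_nonneg_left (Z_mono hc (A1_b A) (A1_b B) fun l => ?_) (Real.exp_pos _).le
  by_cases hA : A l
  · rw [A1_pos hA, A1_pos (h l hA)]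
  · rw [A1_neg hA]
    exact A1_nonneg B l

theorem Pr_le_one (hc : ∀ a, 0 ≤ c a) (A : List α → Prop) : Pr c A ≤ 1 := by
  rw [← A1_true c]
  exact A1_mono hc fun _ _ => trivial

theorem Pr_mono (hc : ∀ a, 0 ≤ c a) {A B : List α → Prop} (h : ∀ l, A l → B l) :
    Pr c A ≤ Pr c B := A1_mono hc h

theorem Pr_congr (c : α → ℝ) {A B : List α → Prop}
    (h : ∀ l : List α, (∀ a ∈ l, c a ≠ 0) → (A l ↔ B l)) : Pr c A = Pr c B := by
  rw [A1_Pr, A1_Pr, Z_congr c fun l hl => ?_]
  by_cases hA : A l
  · rw [A1_pos hA, A1_pos ((h l hl).1 hA)]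
  · rw [A1_neg hA, A1_neg fun hB => hA ((h l hl).2 hB)]

theorem Pr_not (c : α → ℝ) (A : List α → Prop) : Pr c (fun l => ¬ A l) = 1 - Pr c A := by
  have h := Z_add c (A1_b A) (A1_b fun l => ¬ A l)
  have h2 : (fun l => A1_ind A l + A1_ind (fun l => ¬ A l) l) = A1_ind fun _ => True := by
    funext l
    by_cases hA : A l
    · rw [A1_pos hA, A1_neg (A := fun l => ¬ A l) (not_not.2 hA), A1_pos (A := fun _ => True) trivial, add_zero]
    · rw [A1_neg hA, A1_pos (A := fun l => ¬ A l) hA, A1_pos (A := fun _ => True) trivial, zero_add]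
  rw [h2] at h
  have h3 := A1_true c
  rw [A1_Pr, h, mul_add] at h3
  rw [A1_Pr, A1_Pr]
  change _ * Z c (A1_ind A) + _ * Z c (A1_ind fun l => ¬ A l) = 1 at h3
  linarith

theorem Pr_exists_le (hc : ∀ a, 0 ≤ c a) {ι : Type*} (s : Finset ι) (A : ι → List α → Prop) :
    Pr c (fun l => ∃ i ∈ s, A i l) ≤ ∑ i ∈ s, Pr c (A i) := by
  have h0 : ∑ i ∈ s, Pr c (A i) = Real.exp (-∑ a, c a) * Z c (fun l => ∑ i ∈ s, A1_ind (A i) l) := by
    rw [Z_sum s c (C := fun _ => 1) fun i _ => A1_b (A i), mul_sum]
    rfl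
  rw [h0, A1_Pr]
  refine mul_le_mul_of_nonneg_left (Z_mono hc (C' := ∑ i ∈ s, (1 : ℝ)) (A1_b _) (fun l => ?_) fun l => ?_)
    (Real.exp_pos _).le
  · exact (abs_sum_le_sum_abs _ _).trans (sum_le_sum fun i _ => A1_b (A i) l)
  · by_cases h : ∃ i ∈ s, A i l
    · rw [A1_pos (A := fun l => ∃ i ∈ s, A i l) h]
      obtain ⟨i, hi, hA⟩ := h
      have h1 : A1_ind (A i) l ≤ ∑ i ∈ s, A1_ind (A i) l :=
        single_le_sum (f := fun i => A1_ind (A i) l) (fun j _ => A1_nonneg (A j) l) hi
      rwa [A1_pos hA] at h1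
    · rw [A1_neg (A := fun l => ∃ i ∈ s, A i l) h]
      exact sum_nonneg fun j _ => A1_nonneg (A j) l

theorem Pr_pigeon (hc : ∀ a, 0 ≤ c a) {ι : Type*} (s : Finset ι) (A : List α → Prop)
    (B : ι → List α → Prop) (h : ∀ l, A l → ∃ i ∈ s, B i l) (hA : 0 < Pr c A) :
    ∃ i ∈ s, Pr c A / s.card ≤ Pr c (B i) := by
  have h1 : Pr c A ≤ ∑ i ∈ s, Pr c (B i) := (A1_mono hc h).trans (Pr_exists_le hc s B)
  have hs : s.Nonempty := by
    rcases s.eq_empty_or_nonempty with rfl | hs
    · simp at h1
      linarith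
    · exact hs
  have hs' : (0 : ℝ) < s.card := by exact_mod_cast hs.card_pos
  by_contra hcon
  push Not at hcon
  have h2 : ∑ i ∈ s, Pr c (B i) < ∑ i ∈ s, Pr c A / s.card := sum_lt_sum_of_nonempty hs hcon
  rw [sum_const, nsmul_eq_mul, mul_div_cancel₀ _ hs'.ne'] at h2
  linarith

/- A2 -/
private theorem A1_sum_restr (c : α → ℝ) (p : α → Bool) :
    ∑ a, c a = ∑ a, restr c p a + ∑ a, restr c (fun a => !p a) a := by
  rw [← sum_add_distrib]
  refine sum_congr rfl fun a _ => ?_
  by_cases h : p a = true <;> simp [restr, h]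

private theorem A1_prod (c : α → ℝ) (p : α → Bool) (A B : List α → Prop) :
    Pr c (fun l => A (l.filter p) ∧ B (l.filter fun a => !p a)) =
      Pr (restr c p) A * Pr (restr c fun a => !p a) B := by
  have h := Z_prod c p (A1_b A) (A1_b B)
  have h2 : (A1_ind fun l : List α => A (l.filter p) ∧ B (l.filter fun a => !p a)) =
      fun l => A1_ind A (l.filter p) * A1_ind B (l.filter fun a => !p a) := by
    funext l
    by_cases h1 : A (l.filter p)
    · by_cases h2 : B (l.filter fun a => !p a)
      · rw [A1_pos h1, A1_pos h2, A1_pos (A := fun l : List α => A (l.filter p) ∧ B (l.filter fun a => !p a))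
          ⟨h1, h2⟩, one_mul]
      · rw [A1_neg h2, mul_zero]
        exact A1_neg fun h => h2 h.2
    · rw [A1_neg h1, zero_mul]
      exact A1_neg fun h => h1 h.1
  rw [A1_Pr, A1_Pr, A1_Pr, h2, h, A1_sum_restr c p, neg_add, Real.exp_add]
  ring

theorem Pr_filter (c : α → ℝ) (p : α → Bool) (A : List α → Prop) :
    Pr c (fun l => A (l.filter p)) = Pr (restr c p) A := by
  have h := A1_prod c p A (fun _ => True)
  rw [A1_true, mul_one] at h
  rw [← h]
  exact Pr_congr c fun l _ => (and_iff_left trivial).symm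

theorem Pr_indep (c : α → ℝ) (p q : α → Bool) (hpq : ∀ a, p a = true → q a = false)
    (A B : List α → Prop) :
    Pr c (fun l => A (l.filter p) ∧ B (l.filter q)) = Pr (restr c p) A * Pr (restr c q) B := by
  have hq : ∀ a, q a = true → (fun a => !p a) a = true := by
    intro a ha
    by_cases hp : p a = true
    · rw [hpq a hp] at ha
      exact absurd ha (by simp)
    · simp [hp]
  have h := A1_prod c p A (fun l => B (l.filter q))
  simp only [A1_filter_filter _ q hq] at h
  rw [h, Pr_filter, A1_restr_restr _ _ _ hq]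

theorem Pr_indep_fin (c : α → ℝ) {n : ℕ} (p : Fin n → α → Bool)
    (hp : ∀ i j, i ≠ j → ∀ a, p i a = true → p j a = false) (A : Fin n → List α → Prop) :
    Pr c (fun l => ∀ i, A i (l.filter (p i))) = ∏ i, Pr (restr c (p i)) (A i) := by
  classical
  induction n generalizing c with
  | zero =>
    simp only [univ_eq_empty, prod_empty]
    rw [← A1_true c]
    exact Pr_congr c fun l _ => ⟨fun _ => trivial, fun _ i => i.elim0⟩
  | succ n ih =>
    rw [Fin.prod_univ_succ]
    have hex : ∃ q : α → Bool, ∀ a, q a = true ↔ ∃ i : Fin n, p i.succ a = true :=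
      ⟨fun a => decide (∃ i : Fin n, p i.succ a = true), fun a => by simp only [decide_eq_true_eq]⟩
    obtain ⟨q, hq⟩ := hex
    have hq1 : ∀ i : Fin n, ∀ a, p i.succ a = true → q a = true :=
      fun i a ha => (hq a).2 ⟨i, ha⟩
    have hpq : ∀ a, p 0 a = true → q a = false := by
      intro a ha
      by_contra hcon
      obtain ⟨i, hi⟩ := (hq a).1 (by simpa using hcon)
      rw [hp 0 i.succ (Fin.succ_ne_zero i).symm a ha] at hi
      exact absurd hi (by simp)
    have h1 := Pr_indep c (p 0) q hpq (A 0) (fun l => ∀ i : Fin n, A i.succ (l.filter (p i.succ)))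
    have h2 := ih (restr c q) (fun i => p i.succ)
      (fun i j hij a ha => hp i.succ j.succ (fun h => hij (Fin.succ_injective _ h)) a ha) (fun i => A i.succ)
    rw [h2] at h1
    have h3 : ∏ i : Fin n, Pr (restr (restr c q) (p i.succ)) (A i.succ) =
        ∏ i : Fin n, Pr (restr c (p i.succ)) (A i.succ) :=
      prod_congr rfl fun i _ => by rw [A1_restr_restr c q (p i.succ) (hq1 i)]
    rw [h3] at h1
    rw [← h1]
    refine Pr_congr c fun l _ => ?_
    rw [Fin.forall_fin_succ]
    refine and_congr Iff.rfl (forall_congr' fun i => ?_)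
    rw [A1_filter_filter q (p i.succ) (hq1 i)]

theorem Pr_none (c : α → ℝ) (q : α → Bool) :
    Pr c (fun l => ∀ a ∈ l, q a = false) = Real.exp (-∑ a, restr c q a) := by
  have h0 := Pr_filter c q (fun m => m = [])
  have h1 : Pr c (fun l => ∀ a ∈ l, q a = false) = Pr c (fun l => l.filter q = []) := by
    refine Pr_congr c fun l _ => ?_
    rw [List.filter_eq_nil_iff]
    simp
  rw [h1, h0, A1_Pr]
  have h2 : Z (restr c q) (A1_ind fun l => l = []) = 1 := by
    unfold Z
    rw [tsum_eq_single 0]
    · rw [wordSum_zero, A1_pos (A := fun l : List α => l = []) rfl]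
      simp
    · intro n hn
      obtain ⟨m, rfl⟩ := Nat.exists_eq_succ_of_ne_zero hn
      rw [wordSum_succ]
      have h3 : ∀ a, wordSum (restr c q) (fun l => A1_ind (fun l => l = []) (a :: l)) m = 0 := by
        intro a
        have h4 : (fun l : List α => A1_ind (fun l => l = []) (a :: l)) = fun _ => 0 := by
          funext l
          exact A1_neg (by simp)
        rw [h4, wordSum_const]
        simp
      simp [h3]
  rw [h2, mul_one]

end

end Pool.Agent.ThinTori

/-! Stirring on thin tori, row A2: probability: symmetries, length, counting -/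


open Finset

namespace Pool.Agent.ThinTori

section

variable {α : Type*} [Fintype α] {c : α → ℝ}

/- auxiliary lemmas -/

private theorem A2_wordSum_perm (c : α → ℝ) (e : Equiv.Perm α) (he : ∀ a, c (e a) = c a)
    (F : List α → ℝ) (n : ℕ) : wordSum c (fun l => F (l.map e)) n = wordSum c F n := by
  unfold wordSum
  symm
  rw [← (Equiv.arrowCongr (Equiv.refl (Fin n)) e).sum_comp]
  refine Finset.sum_congr rfl fun w _ => ?_
  have h1 : (Equiv.arrowCongr (Equiv.refl (Fin n)) e) w = fun i => e (w i) := by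
    ext i
    simp
  have h2 : (∏ i, c (e (w i))) = ∏ i, c (w i) :=
    Finset.prod_congr rfl fun i _ => he (w i)
  have h3 : (List.ofFn w).map e = List.ofFn fun i => e (w i) := List.map_ofFn
  rw [h1]
  simp only [h2, h3]

private theorem A2_wordSum_reverse (c : α → ℝ) (F : List α → ℝ) (n : ℕ) :
    wordSum c (fun l => F l.reverse) n = wordSum c F n := by
  unfold wordSum
  symm
  rw [← (Equiv.arrowCongr (Fin.revPerm (n := n)) (Equiv.refl α)).sum_comp]
  refine Finset.sum_congr rfl fun w _ => ?_
  have h1 : (Equiv.arrowCongr (Fin.revPerm (n := n)) (Equiv.refl α)) w =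
      fun i => w (Fin.rev i) := by
    ext i
    simp
  have h2 : (∏ i, c (w (Fin.rev i))) = ∏ i, c (w i) :=
    Equiv.prod_comp (Fin.revPerm (n := n)) fun i => c (w i)
  have h3 : (List.ofFn w).reverse = List.ofFn fun i => w (Fin.rev i) := by
    apply List.ext_getElem
    · simp
    · intro i h h'
      simp only [List.length_reverse, List.length_ofFn] at h h'
      rw [List.getElem_reverse, List.getElem_ofFn, List.getElem_ofFn]
      congr 1
      ext
      simp [Fin.rev]
      omega
  rw [h1]
  simp only [h2, h3]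

private theorem A2_Z_mono_growth {c : α → ℝ} (hc : ∀ a, 0 ≤ c a) {F G : List α → ℝ}
    {C R C' R' : ℝ} (hF : ∀ l, |F l| ≤ C * R ^ l.length) (hG : ∀ l, |G l| ≤ C' * R' ^ l.length)
    (h : ∀ l, F l ≤ G l) : Z c F ≤ Z c G := by
  unfold Z
  refine Summable.tsum_le_tsum (fun n => ?_) (summable_of_growth c F hF)
    (summable_of_growth c G hG)
  exact div_le_div_of_nonneg_right (wordSum_mono hc h n) (by positivity)

private theorem A2_wordSum_length (c : α → ℝ) (f : ℕ → ℝ) (n : ℕ) :
    wordSum c (fun l => f l.length) n = f n * (∑ a, c a) ^ n := by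
  rw [← wordSum_const]
  unfold wordSum
  refine Finset.sum_congr rfl fun w _ => ?_
  simp only [List.length_ofFn]

private theorem A2_wordSum_countP (c : α → ℝ) (q : α → Bool) (n : ℕ) :
    wordSum c (fun l => (l.countP q : ℝ)) (n + 1) =
      (n + 1 : ℝ) * ((∑ a, restr c q a) * (∑ a, c a) ^ n) := by
  induction n with
  | zero =>
    rw [wordSum_succ]
    simp only [wordSum_zero]
    simp only [List.countP_cons, List.countP_nil, restr]
    simp
  | succ n ih =>
    rw [wordSum_succ]
    have h1 : ∀ a, c a * wordSum c (fun l => ((a :: l).countP q : ℝ)) (n + 1) =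
        c a * wordSum c (fun l => (l.countP q : ℝ)) (n + 1) +
          restr c q a * (∑ a, c a) ^ (n + 1) := by
      intro a
      have h2 : (fun l : List α => ((a :: l).countP q : ℝ)) =
          fun l => (l.countP q : ℝ) + (if q a then (1 : ℝ) else 0) := by
        funext l
        rw [List.countP_cons]
        push_cast
        rfl
      rw [h2, wordSum_add, wordSum_const]
      unfold restr
      by_cases h : q a = true
      · simp [h, mul_add]
      · simp [h]
    simp only [h1, Finset.sum_add_distrib, ← Finset.sum_mul]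
    rw [ih]
    push_cast
    ring

omit [Fintype α] in
private theorem A2_countP_abs_le (q : α → Bool) (l : List α) :
    |(l.countP q : ℝ)| ≤ 1 * 2 ^ l.length := by
  rw [Nat.abs_cast, one_mul]
  have h1 : l.countP q ≤ l.length := List.countP_le_length
  have h2 : l.length < 2 ^ l.length := Nat.lt_two_pow_self
  exact_mod_cast h1.trans h2.le

private theorem A2_Z_countP (c : α → ℝ) (q : α → Bool) :
    Z c (fun l => (l.countP q : ℝ)) = (∑ a, restr c q a) * Real.exp (∑ a, c a) := by
  unfold Z
  rw [(summable_of_growth c (fun l => (l.countP q : ℝ))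
    (A2_countP_abs_le q)).tsum_eq_zero_add]
  simp only [wordSum_zero, List.countP_nil, Nat.cast_zero, zero_div, zero_add]
  rw [Real.exp_eq_exp_ℝ, NormedSpace.exp_eq_tsum_div, ← tsum_mul_left]
  refine tsum_congr fun n => ?_
  rw [A2_wordSum_countP, Nat.factorial_succ]
  have h1 : (n.factorial : ℝ) ≠ 0 := by positivity
  have h2 : ((n : ℝ) + 1) ≠ 0 := by positivity
  push_cast
  field_simp

private theorem A2_Z_exp_length (c : α → ℝ) (x y : ℝ) :
    Z c (fun l => x * y ^ l.length) = x * Real.exp (y * ∑ a, c a) := by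
  unfold Z
  rw [Real.exp_eq_exp_ℝ, NormedSpace.exp_eq_tsum_div, ← tsum_mul_left]
  refine tsum_congr fun n => ?_
  rw [A2_wordSum_length c (fun k => x * y ^ k), mul_pow]
  ring

omit [Fintype α] in
private theorem A2_ind_abs (A : List α → Prop) [DecidablePred A] (l : List α) :
    |(if A l then (1 : ℝ) else 0)| ≤ 1 := by
  split_ifs <;> simp

open Classical in
private theorem A2_sum_Pr (c : α → ℝ) {ι : Type*} (s : Finset ι) (A : ι → List α → Prop) :
    ∑ i ∈ s, Pr c (A i) =
      Real.exp (-∑ a, c a) * Z c (fun l => ((s.filter fun i => A i l).card : ℝ)) := by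
  have h1 : (fun l : List α => ((s.filter fun i => A i l).card : ℝ)) =
      fun l => ∑ i ∈ s, (if A i l then (1 : ℝ) else 0) := by
    funext l
    rw [Finset.card_filter]
    push_cast
    rfl
  rw [h1, Z_sum (C := fun _ => 1) s c (fun i _ l => A2_ind_abs (A i) l), Finset.mul_sum]
  rfl

/- A3 -/
theorem Pr_perm (c : α → ℝ) (e : Equiv.Perm α) (he : ∀ a, c (e a) = c a) (A : List α → Prop) :
    Pr c (fun l => A (l.map e)) = Pr c A := by
  classical
  unfold Pr Z
  congr 1
  refine tsum_congr fun n => ?_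
  congr 1
  exact A2_wordSum_perm c e he (fun l => if A l then 1 else 0) n

theorem Pr_reverse (c : α → ℝ) (A : List α → Prop) : Pr c (fun l => A l.reverse) = Pr c A := by
  classical
  unfold Pr Z
  congr 1
  refine tsum_congr fun n => ?_
  congr 1
  exact A2_wordSum_reverse c (fun l => if A l then 1 else 0) n

/- A4 -/
theorem Pr_len (hc : ∀ a, 0 ≤ c a) (m : ℕ) :
    Pr c (fun l => m < l.length) ≤ Real.exp (2 * ∑ a, c a - m) := by
  classical
  have hS : 0 ≤ ∑ a, c a := Finset.sum_nonneg fun a _ => hc a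
  have hE : Z c (fun l => Real.exp (-(m : ℝ)) * Real.exp 1 ^ l.length) =
      Real.exp (-(m : ℝ)) * Real.exp (Real.exp 1 * ∑ a, c a) := A2_Z_exp_length c _ _
  have h3 : Real.exp 1 * ∑ a, c a ≤ 3 * ∑ a, c a :=
    mul_le_mul_of_nonneg_right Real.exp_one_lt_three.le hS
  have h4 : Pr c (fun l => m < l.length) ≤ Real.exp (-∑ a, c a) *
      (Real.exp (-(m : ℝ)) * Real.exp (Real.exp 1 * ∑ a, c a)) := by
    rw [← hE]
    unfold Pr
    refine mul_le_mul_of_nonneg_left ?_ (Real.exp_pos _).le
    refine A2_Z_mono_growth hc (C := 1) (R := 1) (C' := Real.exp (-(m : ℝ)))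
      (R' := Real.exp 1) (fun l => ?_) (fun l => ?_) (fun l => ?_)
    · rw [one_pow, mul_one]
      split_ifs <;> simp
    · rw [abs_of_nonneg (by positivity)]
    · split_ifs with h
      · rw [← Real.exp_nat_mul, ← Real.exp_add]
        apply Real.one_le_exp
        have : (m : ℝ) ≤ (l.length : ℝ) := by exact_mod_cast h.le
        linarith
      · positivity
  refine h4.trans ?_
  rw [← Real.exp_add, ← Real.exp_add]
  apply Real.exp_le_exp.mpr
  linarith

open Classical in
theorem sum_Pr_le (hc : ∀ a, 0 ≤ c a) {ι : Type*} (s : Finset ι) (A : ι → List α → Prop)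
    (q : α → Bool) (h : ∀ l : List α, (s.filter fun i => A i l).card ≤ l.countP q) :
    ∑ i ∈ s, Pr c (A i) ≤ ∑ a, restr c q a := by
  rw [A2_sum_Pr]
  have h1 : Z c (fun l => ((s.filter fun i => A i l).card : ℝ)) ≤
      Z c (fun l => (l.countP q : ℝ)) := by
    refine A2_Z_mono_growth hc (C := s.card) (R := 1) (C' := 1) (R' := 2) (fun l => ?_)
      (A2_countP_abs_le q) (fun l => by exact_mod_cast h l)
    rw [one_pow, mul_one, Nat.abs_cast]
    exact_mod_cast Finset.card_filter_le _ _
  rw [A2_Z_countP] at h1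
  calc _ ≤ Real.exp (-∑ a, c a) * ((∑ a, restr c q a) * Real.exp (∑ a, c a)) :=
        mul_le_mul_of_nonneg_left h1 (Real.exp_pos _).le
    _ = (∑ a, restr c q a) * (Real.exp (-∑ a, c a) * Real.exp (∑ a, c a)) := by ring
    _ = ∑ a, restr c q a := by rw [← Real.exp_add]; simp

open Classical in
theorem Pr_markov (hc : ∀ a, 0 ≤ c a) {ι : Type*} (s : Finset ι) (A : ι → List α → Prop)
    (B : List α → Prop) (r : ℝ) (h : ∀ l, B l → r ≤ ((s.filter fun i => A i l).card : ℝ)) :
    r * Pr c B ≤ ∑ i ∈ s, Pr c (A i) := by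
  rw [A2_sum_Pr]
  unfold Pr
  rw [mul_left_comm, ← Z_smul]
  refine mul_le_mul_of_nonneg_left ?_ (Real.exp_pos _).le
  refine Z_mono hc (C := |r|) (C' := s.card) (fun l => ?_) (fun l => ?_) (fun l => ?_)
  · split_ifs <;> simp
  · rw [Nat.abs_cast]
    exact_mod_cast Finset.card_filter_le _ _
  · split_ifs with hB
    · rw [mul_one]
      exact h l hB
    · rw [mul_zero]
      positivity

end

end Pool.Agent.ThinTori

/-! Stirring on thin tori, row A3: probability: recolouring principles -/


open Finset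

namespace Pool.Agent.ThinTori

section

variable {α : Type*} [Fintype α] {c : α → ℝ}

open Classical in
/-- All words of length `n`. -/
private noncomputable def A3_words (α : Type*) [Fintype α] (n : ℕ) : Finset (List α) :=
  Finset.univ.image (List.ofFn : (Fin n → α) → List α)

private theorem A3_mem_words (n : ℕ) (l : List α) : l ∈ A3_words α n ↔ l.length = n := by
  classical
  unfold A3_words
  rw [Finset.mem_image]
  constructor
  · rintro ⟨w, -, rfl⟩
    exact List.length_ofFn
  · rintro rfl
    exact ⟨l.get, Finset.mem_univ _, List.ofFn_get l⟩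

private theorem A3_wordSum_eq (c : α → ℝ) (F : List α → ℝ) (n : ℕ) :
    wordSum c F n = ∑ l ∈ A3_words α n, (l.map c).prod * F l := by
  classical
  unfold wordSum A3_words
  rw [Finset.sum_image fun a _ b _ h => List.ofFn_injective h]
  refine Finset.sum_congr rfl fun w _ => ?_
  rw [List.map_ofFn, List.prod_ofFn]
  rfl

open Classical in
private theorem A3_wordSum_le {β : Type*} [Fintype β] (c : α → ℝ) (c' : β → ℝ)
    (hc' : ∀ b, 0 ≤ c' b) (A : List α → Prop) (B : List β → Prop) (M : ℕ)
    (Φ : List α → List β) (J : List α → ℕ) (hJ : ∀ l, A l → J l < M)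
    (hlen : ∀ l, A l → (Φ l).length = l.length)
    (hwt : ∀ l, A l → ((Φ l).map c').prod = (l.map c).prod)
    (hB : ∀ l, A l → B (Φ l))
    (hinj : ∀ l l', A l → A l' → Φ l = Φ l' → J l = J l' → l = l') (n : ℕ) :
    wordSum c (fun l => if A l then 1 else 0) n ≤
      M * wordSum c' (fun l => if B l then 1 else 0) n := by
  rw [A3_wordSum_eq, A3_wordSum_eq]
  have h1 : ∑ l ∈ A3_words α n, (l.map c).prod * (if A l then (1 : ℝ) else 0) =
      ∑ l ∈ (A3_words α n).filter A, (l.map c).prod := by
    rw [Finset.sum_filter]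
    refine Finset.sum_congr rfl fun l _ => ?_
    split_ifs <;> simp
  have h2 : ∑ l ∈ (A3_words α n).filter A, (l.map c).prod =
      ∑ x ∈ ((A3_words α n).filter A).image (fun l => (Φ l, J l)),
        (x.1.map c').prod * (if B x.1 then (1 : ℝ) else 0) := by
    rw [Finset.sum_image]
    · refine Finset.sum_congr rfl fun l hl => ?_
      have hA : A l := (Finset.mem_filter.mp hl).2
      simp only [if_pos (hB l hA), mul_one]
      exact (hwt l hA).symm
    · intro l hl l' hl' h
      have hA : A l := (Finset.mem_filter.mp hl).2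
      have hA' : A l' := (Finset.mem_filter.mp hl').2
      exact hinj l l' hA hA' (congrArg Prod.fst h) (congrArg Prod.snd h)
  have hnn : ∀ l : List β, 0 ≤ (l.map c').prod := by
    intro l
    refine List.prod_nonneg fun x hx => ?_
    obtain ⟨b, -, rfl⟩ := List.mem_map.mp hx
    exact hc' b
  have h3 : ∑ x ∈ ((A3_words α n).filter A).image (fun l => (Φ l, J l)),
        (x.1.map c').prod * (if B x.1 then (1 : ℝ) else 0) ≤
      ∑ x ∈ A3_words β n ×ˢ Finset.range M,
        (x.1.map c').prod * (if B x.1 then (1 : ℝ) else 0) := by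
    refine Finset.sum_le_sum_of_subset_of_nonneg ?_ fun x _ _ => ?_
    · intro x hx
      obtain ⟨l, hl, rfl⟩ := Finset.mem_image.mp hx
      obtain ⟨hl1, hA⟩ := Finset.mem_filter.mp hl
      rw [Finset.mem_product]
      refine ⟨?_, Finset.mem_range.mpr (hJ l hA)⟩
      show Φ l ∈ A3_words β n
      rw [A3_mem_words, hlen l hA]
      exact (A3_mem_words n l).mp hl1
    · refine mul_nonneg (hnn _) ?_
      split_ifs <;> norm_num
  rw [h1, h2]
  refine h3.trans (le_of_eq ?_)
  rw [Finset.sum_product, Finset.mul_sum]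
  refine Finset.sum_congr rfl fun x _ => ?_
  have h4 : ∀ r : ℝ, ∑ _j ∈ Finset.range M, r = M * r := by
    intro r
    rw [Finset.sum_const, Finset.card_range, nsmul_eq_mul]
  exact h4 ((x.map c').prod * (if B x then (1 : ℝ) else 0))

/- A5 -/
open Classical in
theorem Z_le_of_inj {β : Type*} [Fintype β] (c : α → ℝ) (c' : β → ℝ) (hc : ∀ a, 0 ≤ c a)
    (hc' : ∀ b, 0 ≤ c' b) (A : List α → Prop) (B : List β → Prop) (M : ℕ)
    (Φ : List α → List β) (J : List α → ℕ) (hJ : ∀ l, A l → J l < M)
    (hlen : ∀ l, A l → (Φ l).length = l.length)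
    (hwt : ∀ l, A l → ((Φ l).map c').prod = (l.map c).prod)
    (hB : ∀ l, A l → B (Φ l))
    (hinj : ∀ l l', A l → A l' → Φ l = Φ l' → J l = J l' → l = l') :
    Z c (fun l => if A l then 1 else 0) ≤ M * Z c' (fun l => if B l then 1 else 0) := by
  have _ := hc
  have hb : ∀ l : List α, |(if A l then (1 : ℝ) else 0)| ≤ 1 := by
    intro l
    split_ifs <;> simp
  have hb' : ∀ l : List β, |(if B l then (1 : ℝ) else 0)| ≤ 1 := by
    intro l
    split_ifs <;> simp
  unfold Z
  rw [← tsum_mul_left]
  refine Summable.tsum_le_tsum (fun n => ?_) (summable_of_bounded c _ hb)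
    ((summable_of_bounded c' _ hb').mul_left _)
  rw [← mul_div_assoc]
  exact div_le_div_of_nonneg_right
    (A3_wordSum_le c c' hc' A B M Φ J hJ hlen hwt hB hinj n) (by positivity)

private theorem A3_wordSum_colour (c : α → ℝ) (β : Bool) (F : List α → ℝ) (n : ℕ) :
    wordSum (fun x : α × Bool => if x.2 = β then c x.1 else 0)
      (fun m => F (m.map Prod.fst)) n = wordSum c F n := by
  induction n generalizing F with
  | zero => simp [wordSum_zero]
  | succ n ih =>
    rw [wordSum_succ, wordSum_succ, Fintype.sum_prod_type]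
    refine Finset.sum_congr rfl fun a _ => ?_
    have h : ∀ b : Bool, wordSum (fun x : α × Bool => if x.2 = β then c x.1 else 0)
        (fun l => F (((a, b) :: l).map Prod.fst)) n = wordSum c (fun l => F (a :: l)) n :=
      fun b => ih fun l => F (a :: l)
    simp only [h]
    rw [← Finset.sum_mul]
    congr 1
    rw [Finset.sum_ite_eq' Finset.univ β fun _ => c a]
    simp

private theorem A3_Pr_colour (c : α → ℝ) (β : Bool) (A : List α → Prop) :
    Pr (fun x : α × Bool => if x.2 = β then c x.1 else 0) (fun m => A (m.map Prod.fst)) =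
      Pr c A := by
  classical
  unfold Pr
  congr 1
  · congr 2
    rw [Fintype.sum_prod_type]
    refine Finset.sum_congr rfl fun a _ => ?_
    rw [Finset.sum_ite_eq' Finset.univ β fun _ => c a]
    simp
  · unfold Z
    refine tsum_congr fun n => ?_
    rw [← A3_wordSum_colour c β (fun l => if A l then 1 else 0) n]

omit [Fintype α] in
private theorem A3_restr_cc (c : α → ℝ) (β : Bool) :
    restr (cc c) (fun x : α × Bool => x.2 == β) =
      fun x : α × Bool => if x.2 = β then c x.1 else 0 := by
  funext x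
  simp [restr, cc]

/- A6 -/
theorem Pr_part (c : α → ℝ) (β : Bool) (A : List α → Prop) :
    Pr (cc c) (fun m => A (part β m)) = Pr c A := by
  have h := Pr_filter (cc c) (fun x : α × Bool => x.2 == β)
    (fun m : List (α × Bool) => A (m.map Prod.fst))
  rw [A3_restr_cc, A3_Pr_colour] at h
  exact h

theorem Pr_two (c : α → ℝ) (A B : List α → Prop) :
    Pr (cc c) (fun m => A (part true m) ∧ B (part false m)) = Pr c A * Pr c B := by
  have h := Pr_indep (cc c) (fun x : α × Bool => x.2 == true) (fun x : α × Bool => x.2 == false)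
    (by intro x hx; have : x.2 = true := by simpa using hx
        simp [this])
    (fun m : List (α × Bool) => A (m.map Prod.fst)) (fun m : List (α × Bool) => B (m.map Prod.fst))
  rw [A3_restr_cc, A3_restr_cc, A3_Pr_colour, A3_Pr_colour] at h
  exact h

/- A7 deletion principle -/
theorem Pr_delete (hc : ∀ a, 0 ≤ c a) (q : α → Bool) (A B : List α → Prop)
    (h : ∀ l, A l → ∃ m : List (α × Bool), m.map Prod.fst = l ∧
      (∀ x ∈ m, x.2 = false → q x.1 = true) ∧ B (part true m)) :
    Pr c A ≤ Real.exp (∑ a, restr c q a) * Pr c B := by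
  classical
  set c' : α × Bool → ℝ := fun x => if x.2 = true then c x.1 else restr c q x.1 with hc'
  have hc'0 : ∀ x, 0 ≤ c' x := by
    intro x
    simp only [hc', restr]
    split_ifs <;> first | exact hc _ | exact le_rfl
  set Φ : List α → List (α × Bool) := fun l => if hl : A l then (h l hl).choose else [] with hΦ
  have hΦ1 : ∀ l (hl : A l), (Φ l).map Prod.fst = l ∧
      (∀ x ∈ Φ l, x.2 = false → q x.1 = true) ∧ B (part true (Φ l)) := by
    intro l hl
    have : Φ l = (h l hl).choose := by simp only [hΦ]; rw [dif_pos hl]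
    rw [this]
    exact (h l hl).choose_spec
  have key := Z_le_of_inj c c' hc hc'0 A (fun m => B (part true m)) 1 Φ (fun _ => 0)
    (fun _ _ => Nat.zero_lt_one)
    (by
      intro l hl
      have h1 := congrArg List.length (hΦ1 l hl).1
      rwa [List.length_map] at h1)
    (by
      intro l hl
      have h1 := (hΦ1 l hl).1
      have h2 := (hΦ1 l hl).2.1
      have h3 : (Φ l).map c' = ((Φ l).map Prod.fst).map c := by
        rw [List.map_map]
        refine List.map_congr_left fun x hx => ?_
        simp only [hc', Function.comp, restr]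
        by_cases hx2 : x.2 = true
        · rw [if_pos hx2]
        · rw [if_neg hx2, if_pos (h2 x hx (by simpa using hx2))]
      rw [h3, h1])
    (fun l hl => (hΦ1 l hl).2.2)
    (by
      intro l l' hl hl' he _
      rw [← (hΦ1 l hl).1, ← (hΦ1 l' hl').1, he])
  have hsum : ∑ x, c' x = ∑ a, c a + ∑ a, restr c q a := by
    rw [Fintype.sum_prod_type, ← Finset.sum_add_distrib]
    refine Finset.sum_congr rfl fun a _ => ?_
    rw [Fintype.sum_bool]
    simp [hc']
  have hPr : Pr c' (fun m => B (part true m)) = Pr c B := by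
    have h1 := Pr_filter c' (fun x : α × Bool => x.2 == true)
      (fun m : List (α × Bool) => B (m.map Prod.fst))
    have h2 : restr c' (fun x : α × Bool => x.2 == true) =
        fun x : α × Bool => if x.2 = true then c x.1 else 0 := by
      funext x
      by_cases hx2 : x.2 = true <;> simp [restr, hc', hx2]
    rw [h2, A3_Pr_colour] at h1
    exact h1
  rw [← hPr]
  unfold Pr
  rw [hsum, ← mul_assoc, ← Real.exp_add]
  have e1 : ∑ a, restr c q a + -(∑ a, c a + ∑ a, restr c q a) = -∑ a, c a := by ring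
  rw [e1]
  refine mul_le_mul_of_nonneg_left ?_ (Real.exp_pos _).le
  have k2 := key
  rw [Nat.cast_one, one_mul] at k2
  exact k2

end

end Pool.Agent.ThinTori

/-! Stirring on thin tori, row B1: motion: only the letters moving a point of D matter -/


open Finset

namespace Pool.Agent.ThinTori

section

variable {V α : Type*} {g : α → Equiv.Perm V}

/- The state in the filtered word: the time becomes the number of kept letters before. -/
private def B1_phi (p : α → Bool) (l : List α) (s : ℕ × V) : ℕ × V :=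
  (((l.take s.1).filter p).length, s.2)

private theorem B1_tau_succ (p : α → Bool) (l : List α) {k : ℕ} {a : α} (h : l[k]? = some a) :
    ((l.take (k + 1)).filter p).length =
      ((l.take k).filter p).length + if p a then 1 else 0 := by
  rw [List.take_add_one, h, List.filter_append, List.length_append]
  cases hp : p a <;> simp [hp]

private theorem B1_get (p : α → Bool) (l : List α) {k : ℕ} {a : α} (h : l[k]? = some a)
    (hp : p a = true) : (l.filter p)[((l.take k).filter p).length]? = some a := by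
  have hk : k < l.length := by
    by_contra h'
    rw [List.getElem?_eq_none (by omega)] at h
    exact absurd h (by simp)
  have ha : l[k] = a := by
    rw [List.getElem?_eq_getElem hk] at h
    exact Option.some.inj h
  have h1 : l.filter p = (l.take k).filter p ++ a :: (l.drop (k + 1)).filter p := by
    conv_lhs => rw [← List.take_append_drop k l]
    rw [List.filter_append, List.drop_eq_getElem_cons hk, ha, List.filter_cons_of_pos hp]
  rw [h1, List.getElem?_append_right le_rfl]
  simp

private theorem B1_T_le (l : List α) (s : ℕ × V) : (T g l s).1 ≤ l.length := by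
  simp only [T]
  rcases h : l[s.1]? with _ | a
  · exact Nat.zero_le _
  · by_contra h'
    rw [List.getElem?_eq_none (by simp only at h'; omega)] at h
    exact absurd h (by simp)

private theorem B1_iter_le (l : List α) {s : ℕ × V} (hs : s.1 ≤ l.length) (n : ℕ) :
    ((T g l)^[n] s).1 ≤ l.length := by
  cases n with
  | zero => exact hs
  | succ n => rw [Function.iterate_succ_apply']; exact B1_T_le l _

private theorem B1_step {p : α → Bool} {D : Set V}
    (hp : ∀ a, p a = false → ∀ v ∈ D, g a v = v) (l : List α) {s : ℕ × V}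
    (hs : s.1 ≤ l.length) (hD : s.2 ∈ D) :
    (B1_phi p l (T g l s) = T g (l.filter p) (B1_phi p l s) ∧
      ((T g (l.filter p) (B1_phi p l s)).1 = 0 → (T g l s).1 = 0)) ∨
    (B1_phi p l (T g l s) = B1_phi p l s ∧ T g l s = (s.1 + 1, s.2) ∧ s.1 < l.length) := by
  rcases h : l[s.1]? with _ | a
  · left
    have h1 : l.length ≤ s.1 := List.getElem?_eq_none_iff.mp h
    have h2 : T g l s = (0, s.2) := by simp [T, h]
    have h3 : (l.filter p)[((l.take s.1).filter p).length]? = none := by
      rw [List.take_of_length_le h1]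
      exact List.getElem?_eq_none le_rfl
    have h4 : T g (l.filter p) (B1_phi p l s) = (0, s.2) := by
      simp [T, B1_phi, h3]
    rw [h2, h4]
    exact ⟨by simp [B1_phi], fun _ => rfl⟩
  · have h2 : T g l s = (s.1 + 1, g a s.2) := by simp [T, h]
    have h5 : s.1 < l.length := by
      by_contra h'
      rw [List.getElem?_eq_none (by omega)] at h
      exact absurd h (by simp)
    rcases hpa : p a with _ | _
    · right
      rw [hp a hpa s.2 hD] at h2
      refine ⟨?_, h2, h5⟩
      rw [h2]
      simp only [B1_phi]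
      rw [B1_tau_succ p l h, hpa]
      simp
    · left
      have h3 := B1_get p l h hpa
      have h4 : T g (l.filter p) (B1_phi p l s) =
          (((l.take s.1).filter p).length + 1, g a s.2) := by
        simp only [T, B1_phi, h3]
      rw [h4, h2]
      refine ⟨?_, fun h6 => absurd h6 (Nat.succ_ne_zero _)⟩
      simp only [B1_phi]
      rw [B1_tau_succ p l h, hpa]
      simp

private theorem B1_up {p : α → Bool} {D : Set V}
    (hp : ∀ a, p a = false → ∀ v ∈ D, g a v = v) (l : List α) :
    ∀ (d : ℕ) (s : ℕ × V), s.1 ≤ l.length → l.length - s.1 ≤ d → s.2 ∈ D →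
      ∃ m, B1_phi p l ((T g l)^[m] s) = T g (l.filter p) (B1_phi p l s) ∧
        (∀ i < m, ((T g l)^[i] s).2 = s.2) ∧
        ((T g (l.filter p) (B1_phi p l s)).1 = 0 → ((T g l)^[m] s).1 = 0) := by
  intro d
  induction d with
  | zero =>
    intro s hs hd hD
    rcases B1_step hp l hs hD with h | h
    · exact ⟨1, h.1, fun i hi => by obtain rfl : i = 0 := by omega
                                    rfl, h.2⟩
    · exact absurd h.2.2 (by omega)
  | succ d ih =>
    intro s hs hd hD
    rcases B1_step hp l hs hD with h | h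
    · exact ⟨1, h.1, fun i hi => by obtain rfl : i = 0 := by omega
                                    rfl, h.2⟩
    · obtain ⟨h1, h2, h3⟩ := h
      have h4 : (T g l s).1 = s.1 + 1 := by rw [h2]
      have h5 : (T g l s).2 = s.2 := by rw [h2]
      obtain ⟨m, hm1, hm2, hm3⟩ := ih (T g l s) (B1_T_le l s) (by omega) (by rw [h5]; exact hD)
      refine ⟨m + 1, ?_, fun i hi => ?_, ?_⟩
      · rw [Function.iterate_succ_apply, hm1, h1]
      · cases i with
        | zero => rfl
        | succ i => rw [Function.iterate_succ_apply, hm2 i (by omega), h5]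
      · rw [Function.iterate_succ_apply, ← h1]
        exact hm3

private theorem B1_pdown {p : α → Bool} {D : Set V}
    (hp : ∀ a, p a = false → ∀ v ∈ D, g a v = v) (l : List α) {s : ℕ × V}
    (hs : s.1 ≤ l.length) : ∀ n, (∀ i < n, ((T g l)^[i] s).2 ∈ D) →
      ∃ n', (T g (l.filter p))^[n'] (B1_phi p l s) = B1_phi p l ((T g l)^[n] s) ∧
        (∀ j < n', ((T g (l.filter p))^[j] (B1_phi p l s)).2 ∈ D) ∧
        ∀ i ≤ n, ∃ j ≤ n', (T g (l.filter p))^[j] (B1_phi p l s) = B1_phi p l ((T g l)^[i] s) := by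
  intro n
  induction n with
  | zero =>
    intro _
    exact ⟨0, rfl, fun j hj => absurd hj (Nat.not_lt_zero j), fun i hi => ⟨0, le_rfl, by
      obtain rfl : i = 0 := by omega
      rfl⟩⟩
  | succ n ih =>
    intro h
    obtain ⟨n', h1, h2, h3⟩ := ih fun i hi => h i (by omega)
    have hD := h n (by omega)
    rcases B1_step hp l (B1_iter_le l hs n) hD with h4 | h4
    · refine ⟨n' + 1, ?_, fun j hj => ?_, fun i hi => ?_⟩
      · rw [Function.iterate_succ_apply', Function.iterate_succ_apply', h1, h4.1]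
      · rcases Nat.lt_or_ge j n' with h5 | h5
        · exact h2 j h5
        · obtain rfl : j = n' := by omega
          rw [h1]
          exact hD
      · rcases Nat.lt_or_ge n i with h5 | h5
        · obtain rfl : i = n + 1 := by omega
          exact ⟨n' + 1, le_rfl, by
            rw [Function.iterate_succ_apply', Function.iterate_succ_apply', h1, h4.1]⟩
        · obtain ⟨j, hj, hj'⟩ := h3 i h5
          exact ⟨j, by omega, hj'⟩
    · refine ⟨n', ?_, h2, fun i hi => ?_⟩
      · rw [Function.iterate_succ_apply', h4.1, h1]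
      · rcases Nat.lt_or_ge n i with h5 | h5
        · obtain rfl : i = n + 1 := by omega
          exact ⟨n', le_rfl, by rw [Function.iterate_succ_apply', h4.1, h1]⟩
        · exact h3 i h5

private theorem B1_pup {p : α → Bool} {D : Set V}
    (hp : ∀ a, p a = false → ∀ v ∈ D, g a v = v) (l : List α) {s : ℕ × V}
    (hs : s.1 ≤ l.length) :
    ∀ n', (∀ j < n', ((T g (l.filter p))^[j] (B1_phi p l s)).2 ∈ D) →
      ∃ n, B1_phi p l ((T g l)^[n] s) = (T g (l.filter p))^[n'] (B1_phi p l s) ∧
        (∀ i < n, ((T g l)^[i] s).2 ∈ D) ∧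
        (∀ j ≤ n', ∃ i ≤ n, ((T g l)^[i] s).2 = ((T g (l.filter p))^[j] (B1_phi p l s)).2) ∧
        (0 < n' → ((T g (l.filter p))^[n'] (B1_phi p l s)).1 = 0 → ((T g l)^[n] s).1 = 0) := by
  intro n'
  induction n' with
  | zero =>
    intro _
    exact ⟨0, rfl, fun j hj => absurd hj (Nat.not_lt_zero j), fun i hi => ⟨0, le_rfl, by
      obtain rfl : i = 0 := by omega
      rfl⟩, fun h => absurd h (lt_irrefl 0)⟩
  | succ n' ih =>
    intro h
    obtain ⟨n, h1, h2, h3, -⟩ := ih fun i hi => h i (by omega)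
    have hpos : ((T g l)^[n] s).2 = ((T g (l.filter p))^[n'] (B1_phi p l s)).2 := by
      rw [← h1]; rfl
    have hD : ((T g l)^[n] s).2 ∈ D := by rw [hpos]; exact h n' (by omega)
    obtain ⟨m, hm1, hm2, hm3⟩ := B1_up hp l _ _ (B1_iter_le l hs n) le_rfl hD
    refine ⟨m + n, ?_, fun i hi => ?_, fun j hj => ?_, fun _ h0 => ?_⟩
    · rw [Function.iterate_add_apply, hm1, h1, Function.iterate_succ_apply']
    · rcases Nat.lt_or_ge i n with h5 | h5
      · exact h2 i h5
      · obtain ⟨i', rfl⟩ : ∃ i', i = i' + n := ⟨i - n, by omega⟩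
        rw [Function.iterate_add_apply, hm2 i' (by omega)]
        exact hD
    · rcases Nat.lt_or_ge n' j with h5 | h5
      · obtain rfl : j = n' + 1 := by omega
        refine ⟨m + n, le_rfl, ?_⟩
        rw [Function.iterate_add_apply, Function.iterate_succ_apply', ← h1, ← hm1]
        rfl
      · obtain ⟨i, hi, hi'⟩ := h3 j h5
        exact ⟨i, by omega, hi'⟩
    · rw [Function.iterate_add_apply]
      apply hm3
      rw [h1, ← Function.iterate_succ_apply' (T g (l.filter p))]
      exact h0

private theorem B1_phi_zero (p : α → Bool) (l : List α) (x : V) : B1_phi p l (0, x) = (0, x) := by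
  simp [B1_phi]

/- B1: only the letters which move a point of `D` matter -/
theorem Conn_filter (p : α → Bool) (D : Set V) (hp : ∀ a, p a = false → ∀ v ∈ D, g a v = v)
    (x y : V) (l : List α) : Conn g D x y (l.filter p) ↔ Conn g D x y l := by
  constructor
  · rintro ⟨n', h1, h2⟩
    have h3 := B1_pup hp l (s := (0, x)) (Nat.zero_le _) n'
    rw [B1_phi_zero] at h3
    obtain ⟨n, k1, k2, -, k4⟩ := h3 fun j hj => h2 j hj.le
    rw [h1] at k1 k4
    have hy : y ∈ D := by
      have := h2 n' le_rfl
      rw [h1] at this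
      exact this
    rcases Nat.eq_zero_or_pos n' with h0 | h0
    · subst h0
      have h1' : ((0 : ℕ), x) = (0, y) := h1
      refine ⟨0, h1', fun i hi => ?_⟩
      obtain rfl : i = 0 := by omega
      have : x = y := congrArg Prod.snd h1'
      change x ∈ D
      rw [this]
      exact hy
    · have k5 : ((T g l)^[n] (0, x)).1 = 0 := k4 h0 rfl
      have k6 : ((T g l)^[n] (0, x)).2 = y := congrArg Prod.snd k1
      refine ⟨n, Prod.ext k5 k6, fun i hi => ?_⟩
      rcases Nat.lt_or_ge i n with h | h
      · exact k2 i h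
      · obtain rfl : i = n := by omega
        rw [k6]
        exact hy
  · rintro ⟨n, h1, h2⟩
    have h3 := B1_pdown hp l (s := (0, x)) (Nat.zero_le _) n fun i hi => h2 i hi.le
    rw [B1_phi_zero] at h3
    obtain ⟨n', k1, k2, -⟩ := h3
    rw [h1, B1_phi_zero] at k1
    refine ⟨n', k1, fun i hi => ?_⟩
    rcases Nat.lt_or_ge i n' with h | h
    · exact k2 i h
    · obtain rfl : i = n' := by omega
      rw [k1]
      have := h2 n le_rfl
      rw [h1] at this
      exact this

theorem Reach_filter (p : α → Bool) (D : Set V) (hp : ∀ a, p a = false → ∀ v ∈ D, g a v = v)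
    (x b : V) (l : List α) : Reach g D x b (l.filter p) ↔ Reach g D x b l := by
  constructor
  · rintro ⟨n', h1, h2⟩
    have h3 := B1_pup hp l (s := (0, x)) (Nat.zero_le _) n'
    rw [B1_phi_zero] at h3
    obtain ⟨n, k1, k2, -, -⟩ := h3 h2
    refine ⟨n, ?_, k2⟩
    rw [← h1, ← k1]
    rfl
  · rintro ⟨n, h1, h2⟩
    have h3 := B1_pdown hp l (s := (0, x)) (Nat.zero_le _) n h2
    rw [B1_phi_zero] at h3
    obtain ⟨n', k1, k2, -⟩ := h3
    refine ⟨n', ?_, k2⟩
    rw [k1, ← h1]
    rfl

/- The first step, from a point `a` outside of `D`, by a kept letter: from the word to the filtered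
word. -/
private theorem B1_first {p : α → Bool} {l : List α} {k : ℕ} {a : V} {e : α}
    (h : l[k]? = some e) (hpe : p e = true) :
    T g (l.filter p) (B1_phi p l (k, a)) = B1_phi p l (T g l (k, a)) := by
  have h3 := B1_get p l h hpe
  simp only [T, B1_phi, h, h3]
  rw [B1_tau_succ p l h, hpe]
  simp

/- A letter of the filtered word comes from the word. -/
private theorem B1_lift (p : α → Bool) (l : List α) {k' : ℕ} {e : α}
    (h : (l.filter p)[k']? = some e) :
    ∃ k, l[k]? = some e ∧ p e = true ∧ ((l.take k).filter p).length = k' := by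
  induction l generalizing k' with
  | nil => simp at h
  | cons b l ih =>
    rcases hb : p b with _ | _
    · rw [List.filter_cons_of_neg (by simp [hb])] at h
      obtain ⟨k, h1, h2, h3⟩ := ih h
      refine ⟨k + 1, by simpa using h1, h2, ?_⟩
      rw [List.take_succ_cons, List.filter_cons_of_neg (by simp [hb])]
      exact h3
    · rw [List.filter_cons_of_pos hb] at h
      cases k' with
      | zero =>
        simp only [List.getElem?_cons_zero, Option.some.injEq] at h
        subst h
        exact ⟨0, by simp, hb, by simp⟩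
      | succ k' =>
        rw [List.getElem?_cons_succ] at h
        obtain ⟨k, h1, h2, h3⟩ := ih h
        refine ⟨k + 1, by simpa using h1, h2, ?_⟩
        rw [List.take_succ_cons, List.filter_cons_of_pos hb, List.length_cons, h3]

private theorem B1_some {l : List α} {k : ℕ} {a : V} (h : (T g l (k, a)).2 ≠ a) :
    ∃ e, l[k]? = some e ∧ (T g l (k, a)).2 = g e a := by
  rcases hl : l[k]? with _ | e
  · exact absurd (by simp [T, hl]) h
  · exact ⟨e, rfl, by simp [T, hl]⟩

private theorem B1_le {l : List α} {k : ℕ} {e : α} (h : l[k]? = some e) : k ≤ l.length := by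
  by_contra h'
  rw [List.getElem?_eq_none (by omega)] at h
  exact absurd h (by simp)

theorem Seg_filter (p : α → Bool) (D : Set V) (hp : ∀ a, p a = false → ∀ v ∈ D, g a v = v)
    (a b : V) (ha : a ∉ D) (hab : a ≠ b) (hp' : ∀ e, p e = false → g e a ≠ b) (l : List α) :
    Seg g D a b (l.filter p) ↔ Seg g D a b l := by
  have hq : ∀ (l : List α) (k n : ℕ), ((T g l)^[n + 1] (k, a)).2 = b →
      (∀ i, 1 ≤ i → i ≤ n → ((T g l)^[i] (k, a)).2 ∈ D) →
      (T g l (k, a)).2 ∈ D ∨ (T g l (k, a)).2 = b := by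
    intro l k n h1 h2
    rcases Nat.eq_zero_or_pos n with h0 | h0
    · subst h0; right; exact h1
    · left; exact h2 1 le_rfl h0
  have hq' : ∀ (l : List α) (k : ℕ), (T g l (k, a)).2 ∈ D ∨ (T g l (k, a)).2 = b →
      (T g l (k, a)).2 ≠ a := by
    rintro l k (h | h) h'
    · exact ha (h' ▸ h)
    · exact hab (h'.symm.trans h)
  constructor
  · rintro ⟨k', -, n', h1, h2⟩
    obtain ⟨e, he, -⟩ := B1_some (hq' _ _ (hq _ _ _ h1 h2))
    obtain ⟨k, hk, hpe, hk'⟩ := B1_lift p l he
    have hphi : B1_phi p l (k, a) = (k', a) := by simp [B1_phi, hk']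
    have hf := B1_first (g := g) (a := a) hk hpe
    rw [hphi] at hf
    have hpup := B1_pup hp l (s := T g l (k, a)) (B1_T_le l _) n'
    rw [← hf] at hpup
    obtain ⟨n, k1, k2, -, -⟩ := hpup fun j hj => by
      rw [← Function.iterate_succ_apply]
      exact h2 (j + 1) (by omega) (by omega)
    refine ⟨k, B1_le hk, n, ?_, fun i hi1 hi2 => ?_⟩
    · rw [Function.iterate_succ_apply, ← h1, Function.iterate_succ_apply, ← k1]
      rfl
    · obtain ⟨j, rfl⟩ : ∃ j, i = j + 1 := ⟨i - 1, by omega⟩
      rw [Function.iterate_succ_apply]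
      exact k2 j (by omega)
  · rintro ⟨k, -, n, h1, h2⟩
    have h3 := hq _ _ _ h1 h2
    obtain ⟨e, he, he'⟩ := B1_some (hq' _ _ h3)
    have hpe : p e = true := by
      by_contra hc
      rw [Bool.not_eq_true] at hc
      rw [he'] at h3
      rcases h3 with h3 | h3
      · have := (g e).injective (hp e hc _ h3)
        exact ha (this ▸ h3)
      · exact hp' e hc h3
    have hf := B1_first (g := g) (a := a) he hpe
    obtain ⟨n', k1, k2, -⟩ := B1_pdown hp l (s := T g l (k, a)) (B1_T_le l _) n fun i hi => by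
      rw [← Function.iterate_succ_apply]
      exact h2 (i + 1) (by omega) (by omega)
    rw [← hf] at k1 k2
    refine ⟨((l.take k).filter p).length, B1_le (B1_get p l he hpe), n', ?_, fun i hi1 hi2 => ?_⟩
    · change ((T g (l.filter p))^[n' + 1] (B1_phi p l (k, a))).2 = b
      rw [Function.iterate_succ_apply, k1, ← h1, Function.iterate_succ_apply]
      rfl
    · obtain ⟨j, rfl⟩ : ∃ j, i = j + 1 := ⟨i - 1, by omega⟩
      change ((T g (l.filter p))^[j + 1] (B1_phi p l (k, a))).2 ∈ D
      rw [Function.iterate_succ_apply]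
      exact k2 j (by omega)

private theorem B1_Exc_filter (p : α → Bool) (D A P : Set V)
    (hp : ∀ a, p a = false → ∀ v ∈ D, g a v = v) (hDA : ∀ v ∈ A, v ∉ D) (l : List α) :
    Exc g D A P (l.filter p) ↔ Exc g D A P l := by
  constructor
  · rintro ⟨k', -, a, haA, n', h1, h2, i₀, hi1, hi2, hi3⟩
    have h3 : (T g (l.filter p) (k', a)).2 ∈ D := h2 1 le_rfl (by omega)
    obtain ⟨e, he, -⟩ := B1_some (g := g) (l := l.filter p) (k := k') (a := a)
      fun h => hDA a haA (h ▸ h3)
    obtain ⟨k, hk, hpe, hk'⟩ := B1_lift p l he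
    have hphi : B1_phi p l (k, a) = (k', a) := by simp [B1_phi, hk']
    have hf := B1_first (g := g) (a := a) hk hpe
    rw [hphi] at hf
    have hpup := B1_pup hp l (s := T g l (k, a)) (B1_T_le l _) n'
    rw [← hf] at hpup
    obtain ⟨n, k1, k2, k3, -⟩ := hpup fun j hj => by
      rw [← Function.iterate_succ_apply]
      exact h2 (j + 1) (by omega) (by omega)
    have hend : ((T g l)^[n] (T g l (k, a))).2 ∈ A := by
      rw [Function.iterate_succ_apply, ← k1] at h1
      exact h1
    refine ⟨k, B1_le hk, a, haA, n, ?_, fun i hi1 hi2 => ?_, ?_⟩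
    · rw [Function.iterate_succ_apply]
      exact hend
    · obtain ⟨j, rfl⟩ : ∃ j, i = j + 1 := ⟨i - 1, by omega⟩
      rw [Function.iterate_succ_apply]
      exact k2 j (by omega)
    · obtain ⟨j, hj, hj'⟩ := k3 (i₀ - 1) (by omega)
      rw [← Function.iterate_succ_apply (T g (l.filter p)),
        show (i₀ - 1).succ = i₀ by omega] at hj'
      have hjn : j ≠ n := by
        rintro rfl
        rw [hj'] at hend
        exact hDA _ hend (h2 i₀ hi1 hi2)
      refine ⟨j + 1, by omega, by omega, ?_⟩
      rw [Function.iterate_succ_apply, hj']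
      exact hi3
  · rintro ⟨k, -, a, haA, n, h1, h2, i₀, hi1, hi2, hi3⟩
    have h3 : (T g l (k, a)).2 ∈ D := h2 1 le_rfl (by omega)
    obtain ⟨e, he, he'⟩ := B1_some (g := g) (l := l) (k := k) (a := a)
      fun h => hDA a haA (h ▸ h3)
    have hpe : p e = true := by
      by_contra hc
      rw [Bool.not_eq_true] at hc
      rw [he'] at h3
      have := (g e).injective (hp e hc _ h3)
      exact hDA a haA (this ▸ h3)
    have hf := B1_first (g := g) (a := a) he hpe
    obtain ⟨n', k1, k2, k3⟩ := B1_pdown hp l (s := T g l (k, a)) (B1_T_le l _) n fun i hi => by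
      rw [← Function.iterate_succ_apply]
      exact h2 (i + 1) (by omega) (by omega)
    rw [← hf] at k1 k2 k3
    have hend : ((T g (l.filter p))^[n'] (T g (l.filter p) (B1_phi p l (k, a)))).2 ∈ A := by
      rw [k1]
      rw [Function.iterate_succ_apply] at h1
      exact h1
    refine ⟨((l.take k).filter p).length, B1_le (B1_get p l he hpe), a, haA, n', ?_,
      fun i hi1 hi2 => ?_, ?_⟩
    · change ((T g (l.filter p))^[n' + 1] (B1_phi p l (k, a))).2 ∈ A
      rw [Function.iterate_succ_apply]
      exact hend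
    · obtain ⟨j, rfl⟩ : ∃ j, i = j + 1 := ⟨i - 1, by omega⟩
      change ((T g (l.filter p))^[j + 1] (B1_phi p l (k, a))).2 ∈ D
      rw [Function.iterate_succ_apply]
      exact k2 j (by omega)
    · obtain ⟨j, hj, hj'⟩ := k3 (i₀ - 1) (by omega)
      rw [← Function.iterate_succ_apply (T g l), show (i₀ - 1).succ = i₀ by omega] at hj'
      have hjpos : ((T g (l.filter p))^[j] (T g (l.filter p) (B1_phi p l (k, a)))).2 =
          ((T g l)^[i₀] (k, a)).2 := by rw [hj']; rfl
      have hjn : j ≠ n' := by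
        rintro rfl
        rw [hjpos] at hend
        exact hDA _ hend (h2 i₀ hi1 hi2)
      refine ⟨j + 1, by omega, by omega, ?_⟩
      change ((T g (l.filter p))^[j + 1] (B1_phi p l (k, a))).2 ∈ P
      rw [Function.iterate_succ_apply, hjpos]
      exact hi3

/- The motion in the part of colour `β`. -/
private theorem B1_T_part (β : Bool) (m : List (α × Bool)) :
    T g (part β m) = T (V := V) (gc g β) (m.filter fun x => x.2 == β) := by
  funext s
  simp only [T, part, List.getElem?_map]
  rcases h : (m.filter fun x => x.2 == β)[s.1]? with _ | x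
  · rw [h]
    rfl
  · have hx : x.2 = β := by
      have := List.of_mem_filter (List.mem_of_getElem? h)
      simpa using this
    rw [h]
    simp [gc, hx]

private theorem B1_gc (β : Bool) (D : Set V) :
    ∀ x : α × Bool, (x.2 == β) = false → ∀ v ∈ D, gc g β x v = v := by
  intro x hx v _
  have : x.2 ≠ β := by simpa using hx
  simp [gc, this]

/- B2 -/
theorem Conn_part (D : Set V) (x y : V) (β : Bool) (m : List (α × Bool)) :
    Conn g D x y (part β m) ↔ Conn (gc g β) D x y m := by
  rw [← Conn_filter (g := gc g β) (fun x => x.2 == β) D (B1_gc β D) x y m]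
  simp only [Conn, B1_T_part]

theorem Seg_part (D : Set V) (a b : V) (ha : a ∉ D) (hab : a ≠ b) (β : Bool)
    (m : List (α × Bool)) : Seg g D a b (part β m) ↔ Seg (gc g β) D a b m := by
  rw [← Seg_filter (g := gc g β) (fun x => x.2 == β) D (B1_gc β D) a b ha hab (fun e he => by
    rw [B1_gc β Set.univ e he a (Set.mem_univ a)]; exact hab) m]
  simp only [Seg, B1_T_part]
  simp only [part, List.length_map]

theorem Exc_part (D A P : Set V) (hDA : ∀ v ∈ A, v ∉ D) (β : Bool)
    (m : List (α × Bool)) : Exc g D A P (part β m) ↔ Exc (gc g β) D A P m := by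
  rw [← B1_Exc_filter (g := gc g β) (fun x => x.2 == β) D A P (B1_gc β D) hDA m]
  simp only [Exc, B1_T_part]
  simp only [part, List.length_map]

end

end Pool.Agent.ThinTori

/-! Stirring on thin tori, row B2: motion: symmetries, last visits -/


open Finset

namespace Pool.Agent.ThinTori

section

variable {V α : Type*} {g : α → Equiv.Perm V}

private theorem B2_T_lt (l : List α) (k : ℕ) (v : V) (hk : k < l.length) :
    T g l (k, v) = (k + 1, g l[k] v) := by
  unfold T
  simp only [List.getElem?_eq_getElem hk]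

private theorem B2_T_ge (l : List α) (k : ℕ) (v : V) (hk : l.length ≤ k) :
    T g l (k, v) = (0, v) := by
  unfold T
  simp only [List.getElem?_eq_none hk]

private theorem B2_T_le (l : List α) (s : ℕ × V) (hs : s.1 ≤ l.length) :
    (T g l s).1 ≤ l.length := by
  obtain ⟨k, v⟩ := s
  rcases lt_or_ge k l.length with hk | hk
  · rw [B2_T_lt l k v hk]
    exact hk
  · rw [B2_T_ge l k v hk]
    exact Nat.zero_le _

private theorem B2_iter_le (l : List α) (s : ℕ × V) (hs : s.1 ≤ l.length) (i : ℕ) :
    ((T g l)^[i] s).1 ≤ l.length := by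
  induction i with
  | zero => simpa using hs
  | succ i ih =>
    rw [Function.iterate_succ_apply']
    exact B2_T_le l _ ih

/-- one step commutes with the transport -/
private theorem B2_step (φ : V → V) (e : α → α) (l : List α) (s : ℕ × V)
    (h : ∀ a, g (e a) (φ s.2) = φ (g a s.2)) :
    T g (l.map e) (s.1, φ s.2) = ((T g l s).1, φ (T g l s).2) := by
  obtain ⟨k, v⟩ := s
  rcases lt_or_ge k l.length with hk | hk
  · have hk' : k < (l.map e).length := by simpa using hk
    rw [B2_T_lt l k v hk, B2_T_lt (l.map e) k (φ v) hk']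
    have := h l[k]
    simp only [List.getElem_map]
    simp only at this
    rw [this]
  · have hk' : (l.map e).length ≤ k := by simpa using hk
    rw [B2_T_ge l k v hk, B2_T_ge (l.map e) k (φ v) hk']

private theorem B2_iter (φ : V → V) (e : α → α) (l : List α) (s : ℕ × V) (n : ℕ)
    (h : ∀ i < n, ∀ a, g (e a) (φ ((T g l)^[i] s).2) = φ (g a ((T g l)^[i] s).2)) :
    ∀ i ≤ n, (T g (l.map e))^[i] (s.1, φ s.2) = (((T g l)^[i] s).1, φ ((T g l)^[i] s).2) := by
  intro i
  induction i with
  | zero => intro _; rfl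
  | succ i ih =>
    intro hi
    rw [Function.iterate_succ_apply', Function.iterate_succ_apply', ih (by omega)]
    exact B2_step φ e l _ (h i (by omega))

/- B3 symmetries -/
theorem Conn_transport (φ : V → V) (e : α → α) (D D' : Set V) (hφ : ∀ v ∈ D, φ v ∈ D')
    (h : ∀ a, ∀ v ∈ D, g (e a) (φ v) = φ (g a v)) (x y : V) (l : List α)
    (hC : Conn g D x y l) : Conn g D' (φ x) (φ y) (l.map e) := by
  obtain ⟨n, hn, hD⟩ := hC
  have key := B2_iter (g := g) φ e l (0, x) n (fun i hi a => h a _ (hD i (le_of_lt hi)))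
  refine ⟨n, ?_, ?_⟩
  · rw [key n le_rfl, hn]
  · intro i hi
    rw [key i hi]
    exact hφ _ (hD i hi)

theorem Reach_transport (φ : V → V) (e : α → α) (D D' : Set V) (hφ : ∀ v ∈ D, φ v ∈ D')
    (h : ∀ a, ∀ v ∈ D, g (e a) (φ v) = φ (g a v)) (x b : V) (l : List α)
    (hC : Reach g D x b l) : Reach g D' (φ x) (φ b) (l.map e) := by
  obtain ⟨n, hn, hD⟩ := hC
  have key := B2_iter (g := g) φ e l (0, x) n (fun i hi a => h a _ (hD i hi))
  refine ⟨n, ?_, ?_⟩
  · rw [key n le_rfl, hn]
  · intro i hi
    rw [key i (le_of_lt hi)]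
    exact hφ _ (hD i hi)

theorem Seg_transport (φ : V → V) (e : α → α) (D D' : Set V) (hφ : ∀ v ∈ D, φ v ∈ D')
    (h : ∀ a, ∀ v ∈ D, g (e a) (φ v) = φ (g a v)) (a b : V)
    (ha : ∀ a', g (e a') (φ a) = φ (g a' a)) (l : List α)
    (hC : Seg g D a b l) : Seg g D' (φ a) (φ b) (l.map e) := by
  obtain ⟨k, hk, n, hn, hD⟩ := hC
  have key := B2_iter (g := g) φ e l (k, a) (n + 1) (fun i hi a' => by
    rcases Nat.eq_zero_or_pos i with h0 | h0
    · subst h0
      exact ha a'
    · exact h a' _ (hD i h0 (by omega)))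
  refine ⟨k, by simpa using hk, n, ?_, ?_⟩
  · rw [key (n + 1) le_rfl, hn]
  · intro i hi1 hi2
    rw [key i (by omega)]
    exact hφ _ (hD i hi1 hi2)

/-- one step backwards, in the reversed word -/
private theorem B2_rev_step (hg : ∀ a v, g a (g a v) = v) (l : List α) (s : ℕ × V)
    (hs : s.1 ≤ l.length) :
    T g l.reverse (l.length - (T g l s).1, (T g l s).2) = (l.length - s.1, s.2) := by
  obtain ⟨k, v⟩ := s
  rcases lt_or_ge k l.length with hk | hk
  · rw [B2_T_lt l k v hk]
    have hk' : l.length - (k + 1) < l.reverse.length := by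
      rw [List.length_reverse]
      omega
    simp only
    rw [B2_T_lt l.reverse (l.length - (k + 1)) (g l[k] v) hk']
    have h1 : l.reverse[l.length - (k + 1)] = l[k] := by
      rw [List.getElem_reverse]
      congr 1
      omega
    rw [h1, hg]
    congr 1
    omega
  · rw [B2_T_ge l k v hk]
    have hkk : k = l.length := le_antisymm hs hk
    have hk' : l.reverse.length ≤ l.length - 0 := by
      rw [List.length_reverse]
      omega
    simp only
    rw [B2_T_ge l.reverse (l.length - 0) v hk', hkk, Nat.sub_self]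

private theorem B2_rev_iter (hg : ∀ a v, g a (g a v) = v) (l : List α) (s : ℕ × V)
    (hs : s.1 ≤ l.length) (n : ℕ) :
    ∀ j ≤ n, (T g l.reverse)^[j] (l.length - ((T g l)^[n] s).1, ((T g l)^[n] s).2) =
      (l.length - ((T g l)^[n - j] s).1, ((T g l)^[n - j] s).2) := by
  intro j
  induction j with
  | zero => intro _; rfl
  | succ j ih =>
    intro hj
    rw [Function.iterate_succ_apply', ih (by omega)]
    have h1 : n - j = (n - (j + 1)) + 1 := by omega
    rw [h1, Function.iterate_succ_apply']
    exact B2_rev_step hg l _ (B2_iter_le l s hs _)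

theorem Conn_reverse (hg : ∀ a v, g a (g a v) = v) (D : Set V) (x y : V) (l : List α)
    (h : Conn g D x y l) : Conn g D y x l.reverse := by
  obtain ⟨n, hn, hD⟩ := h
  rcases n with _ | m
  · have hxy : x = y := by
      have := congrArg Prod.snd hn
      simpa using this
    subst hxy
    refine ⟨0, rfl, ?_⟩
    intro i hi
    obtain rfl : i = 0 := by omega
    exact hD 0 le_rfl
  · -- the last step starts at time `l.length`
    have hs0 : ((0 : ℕ), x).1 ≤ l.length := Nat.zero_le _
    have hle : ∀ i, ((T g l)^[i] (0, x)).1 ≤ l.length := fun i => B2_iter_le l (0, x) hs0 i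
    have hlast : (T g l)^[m] (0, x) = (l.length, y) := by
      rw [Function.iterate_succ_apply'] at hn
      have hle' := hle m
      generalize (T g l)^[m] (0, x) = s at hn hle'
      obtain ⟨k, v⟩ := s
      rcases lt_or_ge k l.length with hk | hk
      · rw [B2_T_lt l k v hk] at hn
        exact absurd (congrArg Prod.fst hn) (by simp)
      · rw [B2_T_ge l k v hk] at hn
        have h1 : v = y := congrArg Prod.snd hn
        have h2 : k = l.length := le_antisymm hle' hk
        rw [h1, h2]
    have key := B2_rev_iter hg l (0, x) hs0 m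
    rw [hlast] at key
    simp only [Nat.sub_self] at key
    have hpos : ∀ j ≤ m, ((T g l.reverse)^[j] (0, y)) =
        (l.length - ((T g l)^[m - j] (0, x)).1, ((T g l)^[m - j] (0, x)).2) := key
    have hend : (T g l.reverse)^[m + 1] (0, y) = (0, x) := by
      rw [Function.iterate_succ_apply', hpos m le_rfl, Nat.sub_self]
      simp only [Function.iterate_zero, id_eq, Nat.sub_zero]
      exact B2_T_ge l.reverse l.length x (by rw [List.length_reverse])
    refine ⟨m + 1, hend, ?_⟩
    intro i hi
    rcases Nat.lt_or_ge i (m + 1) with h1 | h1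
    · rw [hpos i (by omega)]
      exact hD (m - i) (by omega)
    · obtain rfl : i = m + 1 := by omega
      rw [hend]
      exact hD 0 (Nat.zero_le _)

/-- the last time before `n` at which `p` holds -/
private theorem B2_last (p : ℕ → Prop) (n : ℕ) (h0 : p 0) (hn : 0 < n) :
    ∃ i < n, p i ∧ ∀ j, i < j → j < n → ¬ p j := by
  classical
  have hne : ((Finset.range n).filter p).Nonempty :=
    ⟨0, by simp [h0, hn]⟩
  refine ⟨((Finset.range n).filter p).max' hne, ?_, ?_, ?_⟩
  · have := Finset.max'_mem _ hne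
    simp only [Finset.mem_filter, Finset.mem_range] at this
    exact this.1
  · have := Finset.max'_mem _ hne
    simp only [Finset.mem_filter, Finset.mem_range] at this
    exact this.2
  · intro j hj hjn hpj
    have := Finset.le_max' ((Finset.range n).filter p) j (by simp [hjn, hpj])
    omega

/- B4 -/
theorem Reach_Seg (D : Set V) (x b : V) (hx : x ∈ D) (hb : b ∉ D) (l : List α)
    (h : Reach g D x b l) : Seg g (D \ {x}) x b l := by
  obtain ⟨n, hn, hD⟩ := h
  have hn0 : 0 < n := by
    rcases Nat.eq_zero_or_pos n with h0 | h0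
    · subst h0
      have hxb : x = b := hn
      exact absurd (hxb ▸ hx) hb
    · exact h0
  obtain ⟨i, hin, hi, hlast⟩ := B2_last (fun i => ((T g l)^[i] (0, x)).2 = x) n rfl hn0
  have hs : ((((T g l)^[i] (0, x)).1, x) : ℕ × V) = (T g l)^[i] (0, x) := by
    ext
    · rfl
    · exact hi.symm
  refine ⟨((T g l)^[i] (0, x)).1, B2_iter_le l (0, x) (Nat.zero_le _) i, n - 1 - i, ?_, ?_⟩
  · rw [hs, ← Function.iterate_add_apply]
    have : n - 1 - i + 1 + i = n := by omega
    rw [this]
    exact hn
  · intro j hj1 hj2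
    rw [hs, ← Function.iterate_add_apply]
    refine ⟨hD _ (by omega), ?_⟩
    intro hc
    exact hlast (j + i) (by omega) (by omega) hc

theorem Conn_Seg (D : Set V) (v₁ v₂ : V) (hne : v₁ ≠ v₂) (l : List α)
    (h : Conn g (D ∪ {v₁, v₂}) v₁ v₂ l) : Seg g D v₁ v₂ l := by
  classical
  obtain ⟨n, hn, hD⟩ := h
  have hex : ∃ j, ((T g l)^[j] (0, v₁)).2 = v₂ := ⟨n, by rw [hn]⟩
  obtain ⟨m, hm, hmin⟩ : ∃ m, ((T g l)^[m] (0, v₁)).2 = v₂ ∧
      ∀ j < m, ((T g l)^[j] (0, v₁)).2 ≠ v₂ :=
    ⟨Nat.find hex, Nat.find_spec hex, fun j hj => Nat.find_min hex hj⟩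
  have hmn : m ≤ n := by
    by_contra hlt
    exact hmin n (by omega) (by rw [hn])
  have hm0 : 0 < m := by
    rcases Nat.eq_zero_or_pos m with h0 | h0
    · subst h0
      exact absurd hm hne
    · exact h0
  obtain ⟨i, him, hi, hlast⟩ := B2_last (fun i => ((T g l)^[i] (0, v₁)).2 = v₁) m rfl hm0
  have hs : ((((T g l)^[i] (0, v₁)).1, v₁) : ℕ × V) = (T g l)^[i] (0, v₁) := by
    ext
    · rfl
    · exact hi.symm
  refine ⟨((T g l)^[i] (0, v₁)).1, B2_iter_le l (0, v₁) (Nat.zero_le _) i, m - 1 - i, ?_, ?_⟩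
  · rw [hs, ← Function.iterate_add_apply]
    have : m - 1 - i + 1 + i = m := by omega
    rw [this]
    exact hm
  · intro j hj1 hj2
    rw [hs, ← Function.iterate_add_apply]
    have h1 := hD (j + i) (by omega)
    rcases h1 with h1 | h1 | h1
    · exact h1
    · exact absurd h1 (hlast (j + i) (by omega) (by omega))
    · exact absurd h1 (hmin (j + i) (by omega))

end

end Pool.Agent.ThinTori

/-! Stirring on thin tori, row C1: the switching map -/


open Finset

namespace Pool.Agent.ThinTori

section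

variable {V α : Type*} [DecidableEq V] {g : α → Equiv.Perm V}

open Classical in
/-- Change the colours of the letters with times in `K`. -/
private noncomputable def C1_flip (K : Set ℕ) (m : List (α × Bool)) : List (α × Bool) :=
  m.mapIdx fun k x => (x.1, xor (decide (k ∈ K)) x.2)

open Classical in
private theorem C1_flip_get (K : Set ℕ) (m : List (α × Bool)) (k : ℕ) :
    (C1_flip K m)[k]? = (m[k]?).map fun x => (x.1, xor (decide (k ∈ K)) x.2) := by
  unfold C1_flip
  rw [List.getElem?_mapIdx]

private theorem C1_flip_flip (K : Set ℕ) (m : List (α × Bool)) :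
    C1_flip K (C1_flip K m) = m := by
  classical
  apply List.ext_getElem?
  intro k
  rw [C1_flip_get, C1_flip_get, Option.map_map]
  cases h : m[k]? with
  | none => rfl
  | some a =>
    simp only [Option.map_some, Function.comp]
    rcases a with ⟨e, c⟩
    by_cases hk : k ∈ K <;> cases c <;> simp [hk]

private theorem C1_flip_map (K : Set ℕ) (m : List (α × Bool)) :
    (C1_flip K m).map Prod.fst = m.map Prod.fst := by
  classical
  apply List.ext_getElem?
  intro k
  rw [List.getElem?_map, List.getElem?_map, C1_flip_get, Option.map_map]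
  rfl

omit [DecidableEq V] in
private theorem C1_T_some {β : Type*} (h : β → Equiv.Perm V) {l : List β} {s : ℕ × V} {a : β}
    (ha : l[s.1]? = some a) : T h l s = (s.1 + 1, h a s.2) := by
  unfold T
  rw [ha]

omit [DecidableEq V] in
private theorem C1_T_none {β : Type*} (h : β → Equiv.Perm V) {l : List β} {s : ℕ × V}
    (ha : l[s.1]? = none) : T h l s = (0, s.2) := by
  unfold T
  rw [ha]

omit [DecidableEq V] in
private theorem C1_T_time {β : Type*} (h : β → Equiv.Perm V) (l : List β) (s : ℕ × V) :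
    (T h l s).1 ≤ l.length := by
  cases ha : l[s.1]? with
  | none => rw [C1_T_none h ha]; exact Nat.zero_le _
  | some a =>
    rw [C1_T_some h ha]
    exact (List.getElem?_eq_some_iff.1 ha).1

omit [DecidableEq V] in
private theorem C1_iter_time {β : Type*} (h : β → Equiv.Perm V) (l : List β) (v : V) (n : ℕ) :
    ((T h l)^[n] (0, v)).1 ≤ l.length := by
  cases n with
  | zero => exact Nat.zero_le _
  | succ n => rw [Function.iterate_succ_apply']; exact C1_T_time _ _ _

/-- The times of the letters seen on the way from `j` to `(0, y)`. -/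
private def C1_K (g : α → Equiv.Perm V) (y : V) (j : ℕ × V) (w : List (α × Bool)) : Set ℕ :=
  {k | ∃ r, (∀ s ≤ r, (T (gc g true) w)^[s] j ≠ (0, y)) ∧ ((T (gc g true) w)^[r] j).1 = k ∧
    ∃ a, w[k]? = some a ∧ g a.1 ((T (gc g true) w)^[r] j).2 ≠ ((T (gc g true) w)^[r] j).2}

private theorem C1_core (hg : IsSw g) (D : Set V) (x z y : V) (m : List (α × Bool))
    (h1 : Conn (gc g true) D x z m) (h2 : Conn (gc g false) D z y m) :
    ∃ (j : ℕ × V) (K : Set ℕ), j.1 ≤ m.length ∧ j.2 ∈ D ∧
      Conn (gc g true) D x y (C1_flip K m) ∧ K = C1_K g y j (C1_flip K m) := by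
  classical
  obtain ⟨n0, hn0, hD0⟩ := h1
  obtain ⟨n1, hn1, hD1⟩ := h2
  have hex : ∃ n, (T (gc g false) m)^[n] (0, z) = (0, y) := ⟨n1, hn1⟩
  obtain ⟨N, hN, hNn, hmin⟩ : ∃ N, (T (gc g false) m)^[N] (0, z) = (0, y) ∧ N ≤ n1 ∧
      ∀ i < N, (T (gc g false) m)^[i] (0, z) ≠ (0, y) :=
    ⟨Nat.find hex, Nat.find_spec hex, Nat.find_min' hex hn1, fun i hi => Nat.find_min hex hi⟩
  have hinj : ∀ i i', i < i' → i' ≤ N →
      (T (gc g false) m)^[i] (0, z) ≠ (T (gc g false) m)^[i'] (0, z) := by
    intro i i' h h' he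
    have e : (T (gc g false) m)^[(N - i') + i] (0, z) = (0, y) := by
      rw [Function.iterate_add_apply, he, ← Function.iterate_add_apply, Nat.sub_add_cancel h', hN]
    exact hmin _ (by omega) e
  have hex2 : ∃ i, i ≤ n0 ∧ ∃ i' ≤ N, (T (gc g true) m)^[i] (0, x) =
      (T (gc g false) m)^[i'] (0, z) := ⟨n0, le_rfl, 0, Nat.zero_le _, hn0⟩
  obtain ⟨i0, hi0, ⟨i1, hi1, hj⟩, hfirst⟩ : ∃ i0, i0 ≤ n0 ∧
      (∃ i1 ≤ N, (T (gc g true) m)^[i0] (0, x) = (T (gc g false) m)^[i1] (0, z)) ∧
      ∀ i < i0, ∀ i' ≤ N, (T (gc g true) m)^[i] (0, x) ≠ (T (gc g false) m)^[i'] (0, z) := by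
    refine ⟨Nat.find hex2, (Nat.find_spec hex2).1, (Nat.find_spec hex2).2, fun i hi i' hi' he => ?_⟩
    exact Nat.find_min hex2 hi ⟨le_trans hi.le (Nat.find_spec hex2).1, i', hi', he⟩
  obtain ⟨K, hK⟩ : ∃ K : Set ℕ, ∀ k, k ∈ K ↔ ∃ i, i1 ≤ i ∧ i < N ∧
      ((T (gc g false) m)^[i] (0, z)).1 = k ∧
      ∃ a, m[k]? = some a ∧ g a.1 ((T (gc g false) m)^[i] (0, z)).2 ≠
        ((T (gc g false) m)^[i] (0, z)).2 := ⟨{k | _}, fun _ => Iff.rfl⟩
  obtain ⟨w, hw⟩ : ∃ w, w = C1_flip K m := ⟨_, rfl⟩
  have hwget : ∀ k, w[k]? = (m[k]?).map fun x => (x.1, xor (decide (k ∈ K)) x.2) :=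
    fun k => by rw [hw]; exact C1_flip_get K m k
  -- (a)
  have ha : ∀ i, i1 ≤ i → i < N → T (gc g true) w ((T (gc g false) m)^[i] (0, z)) =
      (T (gc g false) m)^[i + 1] (0, z) := by
    intro i h h'
    rw [Function.iterate_succ_apply']
    obtain ⟨k, p, hkp⟩ : ∃ k p, (T (gc g false) m)^[i] (0, z) = (k, p) := ⟨_, _, rfl⟩
    cases hmk : m[k]? with
    | none =>
      have hwk : w[k]? = none := by rw [hwget, hmk]; rfl
      rw [hkp, C1_T_none (s := (k, p)) _ hwk, C1_T_none (s := (k, p)) _ hmk]
    | some a =>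
      rcases a with ⟨e, c⟩
      have hwk : w[k]? = some (e, xor (decide (k ∈ K)) c) := by rw [hwget, hmk]; rfl
      rw [hkp, C1_T_some (s := (k, p)) _ hwk, C1_T_some (s := (k, p)) _ hmk]
      by_cases hp : g e p = p
      · unfold gc
        cases c <;> by_cases hkK : k ∈ K <;> simp [hkK, hp]
      · have hkK : k ∈ K := (hK k).2 ⟨i, h, h', by rw [hkp], (e, c), hmk, by rw [hkp]; exact hp⟩
        unfold gc
        cases c <;> simp [hkK]
  -- (b)
  have hb : ∀ i, i < i0 → T (gc g true) w ((T (gc g true) m)^[i] (0, x)) =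
      (T (gc g true) m)^[i + 1] (0, x) := by
    intro i h
    rw [Function.iterate_succ_apply']
    obtain ⟨k, p, hkp⟩ : ∃ k p, (T (gc g true) m)^[i] (0, x) = (k, p) := ⟨_, _, rfl⟩
    cases hmk : m[k]? with
    | none =>
      have hwk : w[k]? = none := by rw [hwget, hmk]; rfl
      rw [hkp, C1_T_none (s := (k, p)) _ hwk, C1_T_none (s := (k, p)) _ hmk]
    | some a =>
      rcases a with ⟨e, c⟩
      have hwk : w[k]? = some (e, xor (decide (k ∈ K)) c) := by rw [hwget, hmk]; rfl
      rw [hkp, C1_T_some (s := (k, p)) _ hwk, C1_T_some (s := (k, p)) _ hmk]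
      by_cases hkK : k ∈ K
      swap
      · simp [hkK]
      by_cases hp : g e p = p
      · unfold gc
        cases c <;> simp [hkK, hp]
      exfalso
      obtain ⟨i', hi', hi'N, hk', a', ha', hmv⟩ := (hK k).1 hkK
      obtain ⟨k2, q, hkq⟩ : ∃ k2 q, (T (gc g false) m)^[i'] (0, z) = (k2, q) := ⟨_, _, rfl⟩
      rw [hkq] at hk' hmv
      simp only at hk' hmv
      subst hk'
      rw [hmk] at ha'
      obtain rfl : (e, c) = a' := by simpa using ha'
      simp only at hmv
      have hpq : p ≠ q := by
        rintro rfl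
        exact hfirst i h i' hi'N.le (by rw [hkp, hkq])
      obtain ⟨u, v, huv⟩ := hg e
      have hep : g e p = q ∧ g e q = p := by
        rw [huv] at hp hmv ⊢
        have hp2 : p = u ∨ p = v := by
          by_contra hcon
          push Not at hcon
          exact hp (Equiv.swap_apply_of_ne_of_ne hcon.1 hcon.2)
        have hq2 : q = u ∨ q = v := by
          by_contra hcon
          push Not at hcon
          exact hmv (Equiv.swap_apply_of_ne_of_ne hcon.1 hcon.2)
        rcases hp2 with rfl | rfl <;> rcases hq2 with rfl | rfl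
        · exact absurd rfl hpq
        · exact ⟨Equiv.swap_apply_left _ _, Equiv.swap_apply_right _ _⟩
        · exact ⟨Equiv.swap_apply_right _ _, Equiv.swap_apply_left _ _⟩
        · exact absurd rfl hpq
      have hnext : (T (gc g true) m)^[i + 1] (0, x) = (T (gc g false) m)^[i' + 1] (0, z) := by
        rw [Function.iterate_succ_apply', Function.iterate_succ_apply', hkp, hkq,
          C1_T_some (s := (k2, p)) _ hmk, C1_T_some (s := (k2, q)) _ hmk]
        unfold gc
        cases c <;> simp [hep.1, hep.2]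
      have hi0' : i + 1 = i0 := by
        by_contra hne
        exact hfirst (i + 1) (by omega) (i' + 1) (by omega) hnext
      rw [hi0', hj] at hnext
      exact hinj i1 (i' + 1) (by omega) (by omega) hnext
  have hA : ∀ r, r ≤ N - i1 → (T (gc g true) w)^[r] ((T (gc g false) m)^[i1] (0, z)) =
      (T (gc g false) m)^[i1 + r] (0, z) := by
    intro r
    induction r with
    | zero => intro _; rfl
    | succ r ih =>
      intro hr
      rw [Function.iterate_succ_apply', ih (by omega), ha (i1 + r) (by omega) (by omega)]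
      rfl
  have hB : ∀ i, i ≤ i0 → (T (gc g true) w)^[i] (0, x) = (T (gc g true) m)^[i] (0, x) := by
    intro i
    induction i with
    | zero => intro _; rfl
    | succ i ih =>
      intro hi
      rw [Function.iterate_succ_apply', ih (by omega), hb i (by omega)]
  refine ⟨(T (gc g false) m)^[i1] (0, z), K, C1_iter_time _ _ _ _, hD1 i1 (by omega), ?_, ?_⟩
  · rw [← hw]
    refine ⟨(N - i1) + i0, ?_, ?_⟩
    · rw [Function.iterate_add_apply, hB i0 le_rfl, hj, hA _ le_rfl,
        show i1 + (N - i1) = N by omega, hN]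
    · intro i hi
      by_cases hii : i ≤ i0
      · rw [hB i hii]
        exact hD0 i (by omega)
      · obtain ⟨r, rfl⟩ : ∃ r, i = r + i0 := ⟨i - i0, by omega⟩
        rw [Function.iterate_add_apply, hB i0 le_rfl, hj, hA r (by omega)]
        exact hD1 _ (by omega)
  · rw [← hw]
    ext k
    rw [hK]
    constructor
    · rintro ⟨i, h, h', hk, a, hak, hmv⟩
      refine ⟨i - i1, ?_, ?_, ?_⟩
      · intro s hs
        rw [hA s (by omega)]
        exact hmin _ (by omega)
      · rw [hA _ (by omega), show i1 + (i - i1) = i by omega, hk]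
      · refine ⟨(a.1, xor (decide (k ∈ K)) a.2), ?_, ?_⟩
        · rw [hwget, hak]; rfl
        · rw [hA _ (by omega), show i1 + (i - i1) = i by omega]
          exact hmv
    · rintro ⟨r, hs, hk, a, hak, hmv⟩
      have hr : r < N - i1 := by
        by_contra hcon
        push Not at hcon
        apply hs (N - i1) hcon
        rw [hA _ le_rfl, show i1 + (N - i1) = N by omega, hN]
      rw [hA r hr.le] at hk hmv
      rw [hwget] at hak
      cases hmk : m[k]? with
      | none => rw [hmk] at hak; simp at hak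
      | some b =>
        rw [hmk] at hak
        simp only [Option.map_some, Option.some.injEq] at hak
        refine ⟨i1 + r, by omega, by omega, hk, b, rfl, ?_⟩
        rw [← hak] at hmv
        exact hmv

/- C1 the switching map -/
theorem switching (hg : IsSw g) (D : Set V) (x z y : V) :
    ∃ (Φ : List (α × Bool) → List (α × Bool)) (J : List (α × Bool) → ℕ × V),
      ∀ m, Conn (gc g true) D x z m → Conn (gc g false) D z y m →
        (J m).1 ≤ m.length ∧ (J m).2 ∈ D ∧ (Φ m).map Prod.fst = m.map Prod.fst ∧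
        Conn (gc g true) D x y (Φ m) ∧
        ∀ m', Conn (gc g true) D x z m' → Conn (gc g false) D z y m' → Φ m = Φ m' → J m = J m' →
          m = m' := by
  classical
  have key : ∀ m : List (α × Bool), ∃ p : List (α × Bool) × (ℕ × V),
      Conn (gc g true) D x z m → Conn (gc g false) D z y m →
        p.2.1 ≤ m.length ∧ p.2.2 ∈ D ∧ p.1.map Prod.fst = m.map Prod.fst ∧
        Conn (gc g true) D x y p.1 ∧ m = C1_flip (C1_K g y p.2 p.1) p.1 := by
    intro m
    by_cases h : Conn (gc g true) D x z m ∧ Conn (gc g false) D z y m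
    · obtain ⟨j, K, hj1, hj2, hc, hK⟩ := C1_core hg D x z y m h.1 h.2
      refine ⟨(C1_flip K m, j), fun _ _ => ⟨hj1, hj2, C1_flip_map K m, hc, ?_⟩⟩
      show m = C1_flip (C1_K g y j (C1_flip K m)) (C1_flip K m)
      rw [← hK, C1_flip_flip]
    · exact ⟨(m, (0, x)), fun a b => absurd ⟨a, b⟩ h⟩
  choose f hf using key
  refine ⟨fun m => (f m).1, fun m => (f m).2, fun m h1 h2 => ?_⟩
  obtain ⟨a, b, c, d, e⟩ := hf m h1 h2
  refine ⟨a, b, c, d, fun m' h1' h2' hΦ hJ => ?_⟩
  obtain ⟨-, -, -, -, e'⟩ := hf m' h1' h2'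
  simp only at hΦ hJ
  rw [e, e', hΦ, hJ]

end

end Pool.Agent.ThinTori

/-! Stirring on thin tori, row C2: supermultiplicativity -/


open Finset

namespace Pool.Agent.ThinTori

section

variable {V α : Type*} [DecidableEq V] {g : α → Equiv.Perm V}

/-- The number of a pair (time, point of `D`). -/
private noncomputable def C2_code (D : Finset V) (s : ℕ × V) : ℕ :=
  if h : s.2 ∈ D then s.1 * D.card + (D.equivFin ⟨s.2, h⟩ : ℕ) else 0

private theorem C2_code_lt (D : Finset V) {s : ℕ × V} {m : ℕ} (h : s.2 ∈ D) (hm : s.1 ≤ m) :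
    C2_code D s < (m + 1) * D.card := by
  rw [C2_code, dif_pos h]
  have h1 := (D.equivFin ⟨s.2, h⟩).isLt
  have h2 : s.1 * D.card ≤ m * D.card := Nat.mul_le_mul_right _ hm
  rw [Nat.add_mul]
  omega

private theorem C2_code_inj (D : Finset V) {s s' : ℕ × V} (h : s.2 ∈ D) (h' : s'.2 ∈ D)
    (he : C2_code D s = C2_code D s') : s = s' := by
  rw [C2_code, dif_pos h, C2_code, dif_pos h'] at he
  have h1 := (D.equivFin ⟨s.2, h⟩).isLt
  have h2 := (D.equivFin ⟨s'.2, h'⟩).isLt
  have h3 : (D.equivFin ⟨s.2, h⟩ : ℕ) = (D.equivFin ⟨s'.2, h'⟩ : ℕ) := by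
    have h4 := congrArg (fun n => n % D.card) he
    simp only [Nat.add_comm (_ * D.card), Nat.add_mul_mod_self_right, Nat.mod_eq_of_lt h1,
      Nat.mod_eq_of_lt h2] at h4
    exact h4
  have h5 : s.1 = s'.1 := by
    rw [h3, Nat.add_right_cancel_iff] at he
    exact Nat.eq_of_mul_eq_mul_right (lt_of_le_of_lt (Nat.zero_le _) h1) he
  have h6 : s.2 = s'.2 := by
    have := D.equivFin.injective (Fin.ext h3)
    exact congrArg Subtype.val this
  exact Prod.ext h5 h6

private theorem C2_sum_cc [Fintype α] (c : α → ℝ) : ∑ x, cc c x = 2 * ∑ a, c a := by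
  rw [Fintype.sum_prod_type]
  simp [cc, Finset.mul_sum, two_mul]

/- C2 -/
theorem SM [Fintype V] [Fintype α] (hg : IsSw g) {c : α → ℝ} (hc : ∀ a, 0 ≤ c a) (D : Finset V)
    (x z y : V) (m : ℕ) :
    Pr c (Conn g D x z) * Pr c (Conn g D z y) ≤
      ((m : ℝ) + 1) * D.card * Pr c (Conn g D x y) + Real.exp (4 * ∑ a, c a - m) := by
  classical
  have hcc : ∀ b : α × Bool, 0 ≤ cc c b := fun b => hc b.1
  obtain ⟨Φ, J, hΦ⟩ := switching hg (D : Set V) x z y
  -- the two colours
  have e1 : Pr c (Conn g D x z) * Pr c (Conn g D z y) =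
      Pr (cc c) (fun w => Conn (gc g true) D x z w ∧ Conn (gc g false) D z y w) := by
    rw [← Pr_two]
    exact Pr_congr _ fun w _ => and_congr (Conn_part _ _ _ _ _) (Conn_part _ _ _ _ _)
  have e2 : Pr (cc c) (Conn (gc g true) D x y) = Pr c (Conn g D x y) := by
    rw [← Pr_part c true (Conn g D x y)]
    exact Pr_congr _ fun w _ => (Conn_part _ _ _ _ _).symm
  -- long words
  have e3 : Pr (cc c) (fun w => m < w.length) ≤ Real.exp (4 * ∑ a, c a - m) := by
    refine (Pr_len hcc m).trans (le_of_eq ?_)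
    rw [C2_sum_cc]
    congr 1
    ring
  -- short words
  have e4 : Pr (cc c) (fun w => (Conn (gc g true) D x z w ∧ Conn (gc g false) D z y w) ∧
      w.length ≤ m) ≤ ((m : ℝ) + 1) * D.card * Pr (cc c) (Conn (gc g true) D x y) := by
    have h := Z_le_of_inj (cc c) (cc c) hcc hcc
      (fun w => (Conn (gc g true) D x z w ∧ Conn (gc g false) D z y w) ∧ w.length ≤ m)
      (Conn (gc g true) D x y) ((m + 1) * D.card) Φ (fun w => C2_code D (J w))
      (by
        rintro w ⟨⟨h1, h2⟩, h3⟩
        obtain ⟨h4, h5, -⟩ := hΦ w h1 h2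
        exact C2_code_lt D (Finset.mem_coe.1 h5) (h4.trans h3))
      (by
        rintro w ⟨⟨h1, h2⟩, -⟩
        obtain ⟨-, -, h6, -⟩ := hΦ w h1 h2
        simpa using congrArg List.length h6)
      (by
        rintro w ⟨⟨h1, h2⟩, -⟩
        obtain ⟨-, -, h6, -⟩ := hΦ w h1 h2
        have h7 : ∀ u : List (α × Bool), u.map (cc c) = (u.map Prod.fst).map c := fun u => by
          rw [List.map_map]; rfl
        rw [h7, h7, h6])
      (by
        rintro w ⟨⟨h1, h2⟩, -⟩
        exact (hΦ w h1 h2).2.2.2.1)
      (by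
        rintro w w' ⟨⟨h1, h2⟩, -⟩ ⟨⟨h1', h2'⟩, -⟩ hw hJ
        obtain ⟨-, h5, -, -, h8⟩ := hΦ w h1 h2
        obtain ⟨-, h5', -⟩ := hΦ w' h1' h2'
        exact h8 w' h1' h2' hw
          (C2_code_inj D (Finset.mem_coe.1 h5) (Finset.mem_coe.1 h5') hJ))
    have h' := mul_le_mul_of_nonneg_left h (Real.exp_pos (-∑ x, cc c x)).le
    unfold Pr
    refine h'.trans (le_of_eq ?_)
    push_cast
    ring
  -- together
  have e5 : Pr (cc c) (fun w => Conn (gc g true) D x z w ∧ Conn (gc g false) D z y w) ≤
      Pr (cc c) (fun w => (Conn (gc g true) D x z w ∧ Conn (gc g false) D z y w) ∧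
        w.length ≤ m) + Pr (cc c) (fun w => m < w.length) := by
    have h := Pr_exists_le hcc (Finset.univ : Finset Bool)
      (fun β w => if β then (Conn (gc g true) D x z w ∧ Conn (gc g false) D z y w) ∧
        w.length ≤ m else m < w.length)
    simp only [Fintype.sum_bool, if_true, Bool.false_eq_true, if_false] at h
    refine le_trans (Pr_mono hcc fun w hw => ?_) h
    by_cases hl : w.length ≤ m
    · exact ⟨true, Finset.mem_univ _, by simpa using ⟨hw, hl⟩⟩
    · exact ⟨false, Finset.mem_univ _, by simpa using hl⟩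
  rw [e1, ← e2]
  linarith

end

end Pool.Agent.ThinTori

/-! Stirring on thin tori, row D1: isolation of the ends, gluing at one point -/


open Finset

namespace Pool.Agent.ThinTori

section

variable {V α : Type*}

/-! Tools: runs of a map in space-time. -/

/-- `F` leads from `s` to `s'`, the positions being in `D` all along. -/
def D1_Run (F : ℕ × V → ℕ × V) (D : Set V) (s s' : ℕ × V) : Prop :=
  ∃ n, F^[n] s = s' ∧ ∀ i ≤ n, (F^[i] s).2 ∈ D

theorem D1_Run_refl {F : ℕ × V → ℕ × V} {D : Set V} {s : ℕ × V} (h : s.2 ∈ D) : D1_Run F D s s :=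
  ⟨0, rfl, fun i hi => by
    have : i = 0 := Nat.le_zero.1 hi
    subst this
    exact h⟩

theorem D1_Run_trans {F : ℕ × V → ℕ × V} {D : Set V} {s s' s'' : ℕ × V} (h : D1_Run F D s s')
    (h' : D1_Run F D s' s'') : D1_Run F D s s'' := by
  obtain ⟨n, h1, h2⟩ := h
  obtain ⟨n', h3, h4⟩ := h'
  refine ⟨n' + n, ?_, fun i hi => ?_⟩
  · rw [Function.iterate_add_apply, h1, h3]
  · rcases le_or_gt i n with h5 | h5
    · exact h2 i h5
    · have h6 : i = (i - n) + n := by omega
      rw [h6, Function.iterate_add_apply, h1]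
      exact h4 _ (by omega)

theorem D1_Run_mono {F : ℕ × V → ℕ × V} {D D' : Set V} (hD : D ⊆ D') {s s' : ℕ × V}
    (h : D1_Run F D s s') : D1_Run F D' s s' := by
  obtain ⟨n, h1, h2⟩ := h
  exact ⟨n, h1, fun i hi => hD (h2 i hi)⟩

theorem D1_Run_one {F : ℕ × V → ℕ × V} {D : Set V} {s s' : ℕ × V} (h : s.2 ∈ D) (h' : s'.2 ∈ D)
    (hs : F s = s') : D1_Run F D s s' := by
  refine ⟨1, hs, fun i hi => ?_⟩
  rcases Nat.le_one_iff_eq_zero_or_eq_one.1 hi with rfl | rfl
  · exact h
  · show (F s).2 ∈ D
    rw [hs]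
    exact h'

/-- Waiting at `v` from time `j` to time `j'`. -/
theorem D1_wait {F : ℕ × V → ℕ × V} {D : Set V} {v : V} (hv : v ∈ D) {j j' : ℕ} (hj : j ≤ j')
    (h : ∀ i, j ≤ i → i < j' → F (i, v) = (i + 1, v)) : D1_Run F D (j, v) (j', v) := by
  induction j', hj using Nat.le_induction with
  | base => exact D1_Run_refl hv
  | succ k hk ih =>
    exact D1_Run_trans (ih fun i h1 h2 => h i h1 (h2.trans (Nat.lt_succ_self k)))
      (D1_Run_one hv hv (h k hk (Nat.lt_succ_self k)))

/-- Stability: two maps which agree on the states of an orbit have the same orbit. -/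
theorem D1_stab {F F' : ℕ × V → ℕ × V} {s : ℕ × V} {N : ℕ}
    (h : ∀ i < N, F' (F^[i] s) = F (F^[i] s)) : ∀ i ≤ N, F'^[i] s = F^[i] s := by
  intro i
  induction i with
  | zero => intro _; rfl
  | succ i ih =>
    intro hi
    rw [Function.iterate_succ_apply', Function.iterate_succ_apply', ih (by omega), h i (by omega)]

variable {g : α → Equiv.Perm V}

theorem D1_T_some {l : List α} {k : ℕ} {e : α} (h : l[k]? = some e) (p : V) :
    T g l (k, p) = (k + 1, g e p) := by
  unfold T
  simp only [h]

theorem D1_T_none {l : List α} {k : ℕ} (h : l[k]? = none) (p : V) : T g l (k, p) = (0, p) := by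
  unfold T
  simp only [h]

theorem D1_T_end (l : List α) (p : V) : T g l (l.length, p) = (0, p) :=
  D1_T_none (List.getElem?_eq_none le_rfl) p

/-- A step which changes the position takes place at a time `< l.length`. -/
theorem D1_step {l : List α} {s : ℕ × V} (h : (T g l s).2 ≠ s.2) :
    ∃ e, l[s.1]? = some e ∧ T g l s = (s.1 + 1, g e s.2) ∧ s.1 < l.length := by
  obtain ⟨k, p⟩ := s
  cases he : l[k]? with
  | none =>
    rw [D1_T_none he] at h
    exact absurd rfl h
  | some e => exact ⟨e, rfl, D1_T_some he p, (List.getElem?_eq_some_iff.1 he).1⟩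

/-- Times along an orbit stay at most `l.length`. -/
theorem D1_time_le {l : List α} {s : ℕ × V} (hs : s.1 ≤ l.length) (i : ℕ) :
    ((T g l)^[i] s).1 ≤ l.length := by
  induction i with
  | zero => exact hs
  | succ i ih =>
    rw [Function.iterate_succ_apply']
    generalize (T g l)^[i] s = s' at ih
    obtain ⟨k, p⟩ := s'
    cases he : l[k]? with
    | none => rw [D1_T_none he]; exact Nat.zero_le _
    | some e =>
      rw [D1_T_some he]
      exact (List.getElem?_eq_some_iff.1 he).1

/-! The recoloured word: the letters which move a point of `S` and whose time is not in `K` get the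
colour false. -/

/-- The recoloured word. -/
noncomputable def D1_col (g : α → Equiv.Perm V) (S : Set V) (K : ℕ → Bool) (l : List α) :
    List (α × Bool) := l.mapIdx fun k e => (e, K k || !(inc g S e))

theorem D1_col_fst (S : Set V) (K : ℕ → Bool) (l : List α) : (D1_col g S K l).map Prod.fst = l := by
  refine List.ext_getElem? fun i => ?_
  rw [List.getElem?_map, D1_col, List.getElem?_mapIdx]
  cases l[i]? <;> rfl

theorem D1_col_length (S : Set V) (K : ℕ → Bool) (l : List α) :
    (D1_col g S K l).length = l.length := by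
  rw [D1_col, List.length_mapIdx]

theorem D1_col_false (S : Set V) (K : ℕ → Bool) (l : List α) (x : α × Bool)
    (hx : x ∈ D1_col g S K l) (h : x.2 = false) : inc g S x.1 = true := by
  obtain ⟨i, hi⟩ := List.mem_iff_getElem?.1 hx
  rw [D1_col, List.getElem?_mapIdx] at hi
  cases he : l[i]? with
  | none => rw [he] at hi; simp at hi
  | some e =>
    rw [he, Option.map_some, Option.some_inj] at hi
    rw [← hi] at h ⊢
    simp only [Bool.or_eq_false_iff, Bool.not_eq_false'] at h
    exact h.2

theorem D1_col_get {S : Set V} {K : ℕ → Bool} {l : List α} {k : ℕ} {e : α} (h : l[k]? = some e) :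
    (D1_col g S K l)[k]? = some (e, K k || !(inc g S e)) := by
  rw [D1_col, List.getElem?_mapIdx, h, Option.map_some]

theorem D1_col_none {S : Set V} {K : ℕ → Bool} {l : List α} {k : ℕ} (h : l[k]? = none) :
    (D1_col g S K l)[k]? = none := by
  rw [D1_col, List.getElem?_mapIdx, h, Option.map_none]

/-- At the times in `K` nothing changes. -/
theorem D1_F1 {S : Set V} {K : ℕ → Bool} {l : List α} {s : ℕ × V} (hK : K s.1 = true) :
    T (gc g true) (D1_col g S K l) s = T g l s := by
  obtain ⟨k, p⟩ := s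
  cases he : l[k]? with
  | none => rw [D1_T_none he, D1_T_none (D1_col_none he)]
  | some e =>
    rw [D1_T_some he, D1_T_some (D1_col_get he)]
    have hK' : K k = true := hK
    simp [gc, hK']

/-- Steps between points outside `S` do not change. -/
theorem D1_F2 [DecidableEq V] (hg : IsSw g) {S : Set V} {K : ℕ → Bool} {l : List α} {s : ℕ × V}
    (hs : s.2 ∉ S) (hs' : (T g l s).2 ∉ S) :
    T (gc g true) (D1_col g S K l) s = T g l s := by
  obtain ⟨k, p⟩ := s
  cases he : l[k]? with
  | none => rw [D1_T_none he, D1_T_none (D1_col_none he)]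
  | some e =>
    rw [D1_T_some he] at hs' ⊢
    rw [D1_T_some (D1_col_get he)]
    have hp : p ∉ S := hs
    have hp' : g e p ∉ S := hs'
    by_cases hinc : inc g S e = true
    · have hfix : g e p = p := by
        by_contra hne
        have hinc' : ∃ v ∈ S, g e v ≠ v := by
          classical
          exact of_decide_eq_true hinc
        obtain ⟨v, hv, hgv⟩ := hinc'
        obtain ⟨u, w, huw⟩ := hg e
        rw [huw] at hne hp' hgv
        rcases eq_or_ne p u with rfl | hpu
        · rw [Equiv.swap_apply_left] at hp'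
          rcases eq_or_ne v p with rfl | hvp
          · exact hp hv
          rcases eq_or_ne v w with rfl | hvw
          · exact hp' hv
          exact hgv (Equiv.swap_apply_of_ne_of_ne hvp hvw)
        rcases eq_or_ne p w with rfl | hpw
        · rw [Equiv.swap_apply_right] at hp'
          rcases eq_or_ne v p with rfl | hvp
          · exact hp hv
          rcases eq_or_ne v u with rfl | hvu
          · exact hp' hv
          exact hgv (Equiv.swap_apply_of_ne_of_ne hvu hvp)
        exact hne (Equiv.swap_apply_of_ne_of_ne hpu hpw)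
      rw [hfix]
      unfold gc
      split_ifs
      · rw [hfix]
      · rfl
    · have : inc g S e = false := by simpa using hinc
      simp [gc, this]

/-- The points of `S` do not move at the times outside `K`. -/
theorem D1_F3 {S : Set V} {K : ℕ → Bool} {l : List α} {k : ℕ} {v : V} (hv : v ∈ S)
    (hK : K k = false) (hk : k < l.length) :
    T (gc g true) (D1_col g S K l) (k, v) = (k + 1, v) := by
  have he : l[k]? = some l[k] := List.getElem?_eq_getElem hk
  rw [D1_T_some (D1_col_get he), hK, Bool.false_or]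
  by_cases hinc : inc g S l[k] = true
  · simp [gc, hinc]
  · have hf : inc g S l[k] = false := by simpa using hinc
    have hfix : g l[k] v = v := by
      by_contra hne
      unfold inc at hf
      rw [decide_eq_false_iff_not] at hf
      exact hf ⟨v, hv, hne⟩
    simp [gc, hf, hfix]

/-- A transposition which moves `p` to `q ≠ p` fixes the other points. -/
theorem D1_sw [DecidableEq V] (hg : IsSw g) {e : α} {p q r : V} (h : g e p = q) (hpq : p ≠ q)
    (hrp : r ≠ p) (hrq : r ≠ q) : g e r = r := by
  obtain ⟨u, w, huw⟩ := hg e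
  rw [huw] at h ⊢
  rcases eq_or_ne p u with rfl | hpu
  · rw [Equiv.swap_apply_left] at h
    rw [h]
    exact Equiv.swap_apply_of_ne_of_ne hrp hrq
  rcases eq_or_ne p w with rfl | hpw
  · rw [Equiv.swap_apply_right] at h
    rw [h]
    exact Equiv.swap_apply_of_ne_of_ne hrq hrp
  · rw [Equiv.swap_apply_of_ne_of_ne hpu hpw] at h
    exact absurd h hpq

theorem D1_Conn_iff {D : Set V} {x y : V} {β : Bool} {m : List (α × Bool)} :
    Conn g D x y (part β m) ↔ D1_Run (T (gc g β) m) D (0, x) (0, y) := by
  rw [Conn_part]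
  rfl

variable [DecidableEq V]

/- D1 isolation of the two ends -/
theorem iso (hg : IsSw g) (D : Set V) (a b : V) (ha : a ∉ D) (hb : b ∉ D) (hab : a ≠ b)
    (l : List α) (h : Seg g D a b l) :
    ∃ m : List (α × Bool), m.map Prod.fst = l ∧
      (∀ x ∈ m, x.2 = false → inc g {a, b} x.1 = true) ∧
      Conn g (D ∪ {a, b}) a b (part true m) := by
  obtain ⟨k1, hk1, N, hN, hD⟩ := h
  -- the last state before `b`
  obtain ⟨s, hs⟩ : ∃ s, (T g l)^[N] (k1, a) = s := ⟨_, rfl⟩
  have hTs : (T g l s).2 = b := by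
    rw [← hs, ← Function.iterate_succ_apply' (T g l)]
    exact hN
  have hsb : s.2 ≠ b := by
    rcases Nat.eq_zero_or_pos N with h0 | h0
    · rw [h0] at hs
      rw [← hs]
      exact hab
    · intro hc
      have := hD N h0 le_rfl
      rw [hs, hc] at this
      exact hb this
  obtain ⟨e2, he2, hT2, hk2⟩ := D1_step (s := s) (g := g) (l := l) (by rw [hTs]; exact hsb.symm)
  have hg2 : g e2 s.2 = b := by rw [hT2] at hTs; exact hTs
  -- the first step moves `a`
  have hfirst : (T g l (k1, a)).2 ≠ a := by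
    rcases Nat.eq_zero_or_pos N with h0 | h0
    · rw [h0] at hs
      have : T g l (k1, a) = T g l s := by rw [← hs]; rfl
      rw [this, hTs]
      exact hab.symm
    · intro hc
      have := hD 1 le_rfl h0
      rw [Function.iterate_one, hc] at this
      exact ha this
  obtain ⟨e1, he1, hT1, hk1'⟩ := D1_step (s := (k1, a)) (g := g) (l := l) hfirst
  have hg1 : g e1 a ≠ a := by rw [hT1] at hfirst; exact hfirst
  set K : ℕ → Bool := fun k => decide (k = k1) || decide (k = s.1) with hKdef
  have hKk1 : K k1 = true := by simp [hKdef]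
  have hKs : K s.1 = true := by simp [hKdef]
  have hKo : ∀ k, k ≠ k1 → k ≠ s.1 → K k = false := by
    intro k h1 h2
    simp [hKdef, h1, h2]
  refine ⟨D1_col g {a, b} K l, D1_col_fst _ _ _, D1_col_false _ _ _, ?_⟩
  rw [D1_Conn_iff]
  set F' := T (gc g true) (D1_col g {a, b} K l) with hF'
  -- the path is the same
  have hstab : ∀ i ≤ N + 1, F'^[i] (k1, a) = (T g l)^[i] (k1, a) := by
    refine D1_stab fun i hi => ?_
    rcases Nat.eq_zero_or_pos i with h0 | h0
    · subst h0
      exact D1_F1 hKk1
    rcases Nat.lt_or_ge i N with h1 | h1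
    · refine D1_F2 hg ?_ ?_
      · have := hD i h0 h1.le
        rintro (h2 | h2)
        · rw [h2] at this; exact ha this
        · rw [Set.mem_singleton_iff] at h2
          rw [h2] at this; exact hb this
      · have := hD (i + 1) (by omega) h1
        rw [Function.iterate_succ_apply'] at this
        rintro (h2 | h2)
        · rw [h2] at this; exact ha this
        · rw [Set.mem_singleton_iff] at h2
          rw [h2] at this; exact hb this
    · have : i = N := by omega
      subst this
      rw [hs]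
      exact D1_F1 hKs
  have hend : (T g l)^[N + 1] (k1, a) = (s.1 + 1, b) := by
    rw [Function.iterate_succ_apply', hs, hT2, hg2]
  have hma : a ∈ D ∪ {a, b} := Or.inr (Or.inl rfl)
  have hmb : b ∈ D ∪ {a, b} := Or.inr (Or.inr rfl)
  -- waiting at `a`
  have w1 : D1_Run F' (D ∪ {a, b}) (0, a) (k1, a) := by
    refine D1_wait hma (Nat.zero_le _) fun i _ hi => ?_
    by_cases his : i = s.1
    · rw [hF', D1_F1 (by rw [his]; exact hKs), D1_T_some (by rw [his]; exact he2)]
      have hsa : a ≠ s.2 := by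
        rcases Nat.eq_zero_or_pos N with h0 | h0
        · exfalso
          rw [h0] at hs
          rw [← hs] at his
          have : i = k1 := his
          omega
        · intro hc
          have := hD N h0 le_rfl
          rw [hs, ← hc] at this
          exact ha this
      rw [D1_sw hg hg2 hsb hsa hab]
    · exact D1_F3 (Or.inl rfl) (hKo i (by omega) his) (hi.trans hk1')
  -- the path
  have w2 : D1_Run F' (D ∪ {a, b}) (k1, a) (s.1 + 1, b) := by
    refine ⟨N + 1, ?_, fun i hi => ?_⟩
    · rw [hstab _ le_rfl, hend]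
    · rw [hstab i hi]
      rcases Nat.eq_zero_or_pos i with h0 | h0
      · subst h0; exact hma
      rcases Nat.lt_or_ge N i with h1 | h1
      · have : i = N + 1 := by omega
        subst this
        rw [hend]
        exact hmb
      · exact Or.inl (hD i h0 h1)
  -- waiting at `b`
  have w3 : D1_Run F' (D ∪ {a, b}) (s.1 + 1, b) (l.length, b) := by
    refine D1_wait hmb hk2 fun i hi1 hi2 => ?_
    by_cases hik : i = k1
    · rw [hF', D1_F1 (by rw [hik]; exact hKk1), D1_T_some (by rw [hik]; exact he1)]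
      have h1 : g e1 a ≠ b := by
        intro hc
        rcases Nat.eq_zero_or_pos N with h0 | h0
        · rw [h0] at hs
          rw [← hs] at hi1
          have : k1 + 1 ≤ i := hi1
          omega
        · have := hD 1 le_rfl h0
          rw [Function.iterate_one, hT1, hc] at this
          exact hb this
      rw [D1_sw hg rfl hg1.symm hab.symm h1.symm]
    · exact D1_F3 (Or.inr rfl) (hKo i hik (by omega)) hi2
  have w4 : D1_Run F' (D ∪ {a, b}) (l.length, b) (0, b) := by
    refine D1_Run_one hmb hmb ?_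
    have := D1_T_end (g := gc g true) (D1_col g {a, b} K l) b
    rw [D1_col_length] at this
    exact this
  exact D1_Run_trans w1 (D1_Run_trans w2 (D1_Run_trans w3 w4))

omit [DecidableEq V] in
/-- Waiting at `v` from time `k1 + 1` to time `k2`, cyclically, if `v` may move at the times `k1`
and `k2` only. -/
theorem D1_cycle {S D : Set V} {K : ℕ → Bool} {l : List α} {v : V} {k1 k2 : ℕ}
    (hvD : v ∈ D) (hk1 : k1 < l.length) (hk2 : k2 < l.length)
    (hK : ∀ k, k ≠ k1 → k ≠ k2 → k < l.length →
      T (gc g true) (D1_col g S K l) (k, v) = (k + 1, v)) :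
    D1_Run (T (gc g true) (D1_col g S K l)) D (k1 + 1, v) (k2, v) := by
  rcases Nat.lt_or_ge k1 k2 with h | h
  · exact D1_wait hvD h fun i h1 h2 => hK i (by omega) (by omega) (by omega)
  · have w1 : D1_Run (T (gc g true) (D1_col g S K l)) D (k1 + 1, v) (l.length, v) :=
      D1_wait hvD hk1 fun i h1 h2 => hK i (by omega) (by omega) h2
    have w2 : D1_Run (T (gc g true) (D1_col g S K l)) D (l.length, v) (0, v) := by
      refine D1_Run_one hvD hvD ?_
      have := D1_T_end (g := gc g true) (D1_col g S K l) v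
      rw [D1_col_length] at this
      exact this
    have w3 : D1_Run (T (gc g true) (D1_col g S K l)) D (0, v) (k2, v) :=
      D1_wait hvD (Nat.zero_le _) fun i h1 h2 => hK i (by omega) (by omega) (by omega)
    exact D1_Run_trans w1 (D1_Run_trans w2 w3)

/- D3 -/
theorem glue_same (hg : IsSw g) (D₁ A : Set V) (v : V) (hv : v ∉ D₁ ∪ A) (h₁A : Disjoint D₁ A)
    (l : List α) (hin : ∃ a ∈ A, Seg g D₁ a v l) (hout : ∃ a ∈ A, Seg g D₁ v a l) :
    ∃ m : List (α × Bool), m.map Prod.fst = l ∧
      (∀ x ∈ m, x.2 = false → inc g {v} x.1 = true) ∧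
      Exc g (D₁ ∪ {v}) A {v} (part true m) := by
  obtain ⟨a, haA, k, hk, N, hN, hD⟩ := hin
  obtain ⟨a', haA', k2, hk2, N', hN', hD'⟩ := hout
  have hvD : v ∉ D₁ := fun h => hv (Or.inl h)
  have hvA : v ∉ A := fun h => hv (Or.inr h)
  have hav : a ≠ v := fun h => hvA (h ▸ haA)
  have hav' : a' ≠ v := fun h => hvA (h ▸ haA')
  -- the last state of the first path before `v`
  obtain ⟨s, hs⟩ : ∃ s, (T g l)^[N] (k, a) = s := ⟨_, rfl⟩
  have hTs : (T g l s).2 = v := by
    rw [← hs, ← Function.iterate_succ_apply' (T g l)]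
    exact hN
  have hsv : s.2 ≠ v := by
    rcases Nat.eq_zero_or_pos N with h0 | h0
    · rw [h0] at hs
      rw [← hs]
      exact hav
    · intro hc
      have := hD N h0 le_rfl
      rw [hs, hc] at this
      exact hvD this
  obtain ⟨e1, he1, hT1, hk1⟩ := D1_step (s := s) (g := g) (l := l) (by rw [hTs]; exact hsv.symm)
  have hg1 : g e1 s.2 = v := by rw [hT1] at hTs; exact hTs
  -- the first step of the second path moves `v`
  have hfirst : (T g l (k2, v)).2 ≠ v := by
    rcases Nat.eq_zero_or_pos N' with h0 | h0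
    · rw [h0] at hN'
      have : (T g l (k2, v)).2 = a' := hN'
      rw [this]
      exact hav'
    · intro hc
      have := hD' 1 le_rfl h0
      rw [Function.iterate_one, hc] at this
      exact hvD this
  obtain ⟨e2, he2, hT2, hk2'⟩ := D1_step (s := (k2, v)) (g := g) (l := l) hfirst
  set K : ℕ → Bool := fun k => decide (k = s.1) || decide (k = k2) with hKdef
  have hKs : K s.1 = true := by simp [hKdef]
  have hKk2 : K k2 = true := by simp [hKdef]
  have hKo : ∀ k, k ≠ s.1 → k ≠ k2 → K k = false := by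
    intro k h1 h2
    simp [hKdef, h1, h2]
  refine ⟨D1_col g {v} K l, D1_col_fst _ _ _, D1_col_false _ _ _, ?_⟩
  rw [Exc_part (D₁ ∪ {v}) A {v} (by
    rintro w hw (h1 | h1)
    · exact Set.disjoint_left.1 h₁A h1 hw
    · rw [Set.mem_singleton_iff] at h1
      exact hvA (h1 ▸ hw))]
  set F' := T (gc g true) (D1_col g {v} K l) with hF'
  have hstab1 : ∀ i ≤ N + 1, F'^[i] (k, a) = (T g l)^[i] (k, a) := by
    refine D1_stab fun i hi => ?_
    rcases Nat.lt_or_ge i N with h1 | h1
    · refine D1_F2 hg ?_ ?_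
      · rcases Nat.eq_zero_or_pos i with h0 | h0
        · subst h0; exact hav
        · intro h2
          have := hD i h0 h1.le
          rw [Set.mem_singleton_iff] at h2
          rw [h2] at this; exact hvD this
      · intro h2
        have := hD (i + 1) (by omega) h1
        rw [Function.iterate_succ_apply'] at this
        rw [Set.mem_singleton_iff] at h2
        rw [h2] at this; exact hvD this
    · have : i = N := by omega
      subst this
      rw [hs]
      exact D1_F1 hKs
  have hend : (T g l)^[N + 1] (k, a) = (s.1 + 1, v) := by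
    rw [Function.iterate_succ_apply', hs, hT1, hg1]
  have hstab2 : ∀ i ≤ N' + 1, F'^[i] (k2, v) = (T g l)^[i] (k2, v) := by
    refine D1_stab fun i hi => ?_
    rcases Nat.eq_zero_or_pos i with h0 | h0
    · subst h0; exact D1_F1 hKk2
    refine D1_F2 hg ?_ ?_
    · intro h2
      have := hD' i h0 (by omega)
      rw [Set.mem_singleton_iff] at h2
      rw [h2] at this; exact hvD this
    · intro h2
      rw [Set.mem_singleton_iff, ← Function.iterate_succ_apply' (T g l)] at h2
      rcases Nat.lt_or_ge i N' with h1 | h1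
      · have := hD' (i + 1) (by omega) h1
        rw [h2] at this; exact hvD this
      · have : i = N' := by omega
        subst this
        rw [hN'] at h2
        exact hav' h2
  have hmv : v ∈ D₁ ∪ {v} := Or.inr rfl
  -- the run from the first state after `a` to the last state before `a'`
  have w1 : D1_Run F' (D₁ ∪ {v}) (F' (k, a)) (s.1 + 1, v) := by
    refine ⟨N, ?_, fun i hi => ?_⟩
    · rw [← Function.iterate_succ_apply F', hstab1 _ le_rfl, hend]
    · rw [← Function.iterate_succ_apply F', hstab1 _ (by omega)]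
      rcases Nat.lt_or_ge i N with h1 | h1
      · exact Or.inl (hD (i + 1) (by omega) h1)
      · have : i = N := by omega
        subst this
        rw [Nat.succ_eq_add_one, hend]
        exact hmv
  have w2 : D1_Run F' (D₁ ∪ {v}) (s.1 + 1, v) (k2, v) :=
    D1_cycle hmv hk1 hk2' fun j h1 h2 h3 => D1_F3 rfl (hKo j h1 h2) h3
  have w3 : D1_Run F' (D₁ ∪ {v}) (k2, v) (F'^[N'] (k2, v)) := by
    refine ⟨N', rfl, fun i hi => ?_⟩
    rw [hstab2 i (by omega)]
    rcases Nat.eq_zero_or_pos i with h0 | h0
    · subst h0; exact hmv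
    · exact Or.inl (hD' i h0 hi)
  have hlast : (F' (F'^[N'] (k2, v))).2 = a' := by
    rw [← Function.iterate_succ_apply' F', hstab2 _ le_rfl]
    exact hN'
  obtain ⟨n1, p1, p2⟩ := D1_Run_trans w1 w2
  obtain ⟨n2, p3, p4⟩ := w3
  refine ⟨k, by rw [D1_col_length]; exact hk, a, haA, n2 + n1 + 1, ?_, fun i hi1 hi2 => ?_,
    n1 + 1, by omega, by omega, ?_⟩
  · rw [Function.iterate_succ_apply', Function.iterate_succ_apply, Function.iterate_add_apply, p1, p3,
      hlast]
    exact haA'
  · obtain ⟨i, rfl⟩ : ∃ j, i = j + 1 := ⟨i - 1, by omega⟩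
    rw [Function.iterate_succ_apply]
    rcases le_or_gt i n1 with h5 | h5
    · exact p2 i h5
    · have h6 : i = (i - n1) + n1 := by omega
      rw [h6, Function.iterate_add_apply, p1]
      exact p4 _ (by omega)
  · rw [Function.iterate_succ_apply, p1]
    exact rfl

end

end Pool.Agent.ThinTori

/-! Stirring on thin tori, row D2: gluing -/


open Finset

namespace Pool.Agent.ThinTori

section

variable {V α : Type*} [DecidableEq V] {g : α → Equiv.Perm V}

/- Auxiliary: the orbit under `f` goes from `s` to `s'` with all positions in `D`. -/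
omit [DecidableEq V] in
private theorem D2_trans {f : ℕ × V → ℕ × V} {D : Set V} {s s' s'' : ℕ × V}
    (h : ∃ n, f^[n] s = s' ∧ ∀ i ≤ n, (f^[i] s).2 ∈ D)
    (h' : ∃ n, f^[n] s' = s'' ∧ ∀ i ≤ n, (f^[i] s').2 ∈ D) :
    ∃ n, f^[n] s = s'' ∧ ∀ i ≤ n, (f^[i] s).2 ∈ D := by
  obtain ⟨n, hn, hD⟩ := h
  obtain ⟨n', hn', hD'⟩ := h'
  refine ⟨n' + n, ?_, fun i hi => ?_⟩
  · rw [Function.iterate_add_apply, hn, hn']
  · by_cases hin : i ≤ n
    · exact hD i hin
    · obtain ⟨j, rfl⟩ : ∃ j, i = j + n := ⟨i - n, by omega⟩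
      rw [Function.iterate_add_apply, hn]
      exact hD' j (by omega)

omit [DecidableEq V] in
private theorem D2_walk {f : ℕ × V → ℕ × V} {D : Set V} {v : V} (hv : v ∈ D) (j : ℕ) :
    ∀ j', j ≤ j' → (∀ i, j ≤ i → i < j' → f (i, v) = (i + 1, v)) →
      ∃ n, f^[n] (j, v) = (j', v) ∧ ∀ i ≤ n, (f^[i] (j, v)).2 ∈ D := by
  intro j' hj'
  induction j', hj' using Nat.le_induction with
  | base =>
    intro _
    refine ⟨0, rfl, fun i hi => ?_⟩
    obtain rfl : i = 0 := by omega
    exact hv
  | succ j' hj' ih =>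
    intro h
    refine D2_trans (ih fun i h1 h2 => h i h1 (by omega)) ⟨1, h j' hj' (by omega), fun i hi => ?_⟩
    rcases Nat.le_one_iff_eq_zero_or_eq_one.mp hi with rfl | rfl
    · exact hv
    · rw [Function.iterate_one, h j' hj' (by omega)]
      exact hv

omit [DecidableEq V] in
private theorem D2_wait {f : ℕ × V → ℕ × V} {D : Set V} {v : V} (hv : v ∈ D) {N k k' : ℕ}
    (hk : k < N) (hk' : k' < N) (hne : k ≠ k')
    (hstep : ∀ j < N, j ≠ k → j ≠ k' → f (j, v) = (j + 1, v)) (hend : f (N, v) = (0, v)) :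
    ∃ n, f^[n] (k + 1, v) = (k', v) ∧ ∀ i ≤ n, (f^[i] (k + 1, v)).2 ∈ D := by
  rcases lt_or_gt_of_ne hne with h | h
  · exact D2_walk hv (k + 1) k' (by omega) fun i h1 h2 => hstep i (by omega) (by omega) (by omega)
  · refine D2_trans (D2_walk hv (k + 1) N (by omega) fun i h1 h2 =>
      hstep i (by omega) (by omega) (by omega)) (D2_trans ⟨1, hend, fun i hi => ?_⟩
      (D2_walk hv 0 k' (by omega) fun i h1 h2 => hstep i (by omega) (by omega) (by omega)))
    rcases Nat.le_one_iff_eq_zero_or_eq_one.mp hi with rfl | rfl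
    · exact hv
    · rw [Function.iterate_one, hend]
      exact hv

omit [DecidableEq V] in
private theorem D2_stable {f f' : ℕ × V → ℕ × V} {s : ℕ × V} (n : ℕ)
    (h : ∀ i < n, f' (f^[i] s) = f (f^[i] s)) : ∀ i ≤ n, f'^[i] s = f^[i] s := by
  intro i
  induction i with
  | zero => intro _; rfl
  | succ i ih =>
    intro hi
    rw [Function.iterate_succ_apply', Function.iterate_succ_apply', ih (by omega), h i (by omega)]

private theorem D2_swap (hg : IsSw g) {a : α} {p q : V} (h : g a p = q) (hpq : p ≠ q) :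
    g a = Equiv.swap p q := by
  obtain ⟨u, w, hu⟩ := hg a
  rw [hu] at h ⊢
  by_cases h1 : p = u
  · subst h1
    rw [Equiv.swap_apply_left] at h
    rw [h]
  · by_cases h2 : p = w
    · subst h2
      rw [Equiv.swap_apply_right] at h
      rw [h, Equiv.swap_comm]
    · rw [Equiv.swap_apply_of_ne_of_ne h1 h2] at h
      exact absurd h hpq

/- A step which changes the position. -/
private theorem D2_move (hg : IsSw g) {l : List α} {s : ℕ × V} (h : (T g l s).2 ≠ s.2) :
    ∃ a, l[s.1]? = some a ∧ T g l s = (s.1 + 1, (T g l s).2) ∧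
      g a = Equiv.swap s.2 (T g l s).2 := by
  rcases hl : l[s.1]? with _ | a
  · exact absurd (by simp [T, hl]) h
  · have h1 : T g l s = (s.1 + 1, g a s.2) := by simp [T, hl]
    refine ⟨a, rfl, by rw [h1], ?_⟩
    rw [h1] at h ⊢
    exact D2_swap hg rfl (Ne.symm h)

/- D2 -/
theorem glue (hg : IsSw g) (D₁ D₂ A : Set V) (v₁ v₂ : V) (hne : v₁ ≠ v₂) (h₁ : v₁ ∉ D₁ ∪ D₂ ∪ A)
    (h₂ : v₂ ∉ D₁ ∪ D₂ ∪ A) (h₁₂ : Disjoint D₁ D₂) (h₁A : Disjoint D₁ A) (h₂A : Disjoint D₂ A)
    (l : List α) (hin : ∃ a ∈ A, Seg g D₁ a v₁ l) (hout : ∃ a ∈ A, Seg g D₁ v₂ a l)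
    (hr : Seg g D₂ v₁ v₂ l) :
    ∃ m : List (α × Bool), m.map Prod.fst = l ∧
      (∀ x ∈ m, x.2 = false → inc g {v₁, v₂} x.1 = true) ∧
      Exc g (D₁ ∪ D₂ ∪ {v₁, v₂}) A {v₁} (part true m) := by
  classical
  obtain ⟨a₁, ha₁, ka, hka, na, hna, hDa⟩ := hin
  obtain ⟨a₂, ha₂, kb, hkb, nb, hnb, hDb⟩ := hout
  obtain ⟨kc, hkc, nc, hnc, hDc⟩ := hr
  simp only [Set.mem_union, not_or] at h₁ h₂
  obtain ⟨⟨h11, h12⟩, h1A⟩ := h₁
  obtain ⟨⟨h21, h22⟩, h2A⟩ := h₂
  have e12 : ∀ v ∈ D₁, v ∉ D₂ := fun v hv hv' => Set.disjoint_left.mp h₁₂ hv hv'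
  have e1A : ∀ v ∈ D₁, v ∉ A := fun v hv hv' => Set.disjoint_left.mp h₁A hv hv'
  have e2A : ∀ v ∈ D₂, v ∉ A := fun v hv hv' => Set.disjoint_left.mp h₂A hv hv'
  set f : ℕ × V → ℕ × V := T g l with hf
  set N : ℕ := l.length with hN
  -- the last step of the first path
  set s1 : ℕ × V := f^[na] (ka, a₁) with hs1
  have hs1D : s1.2 ∈ D₁ ∨ s1.2 = a₁ := by
    rcases Nat.eq_zero_or_pos na with h0 | h0
    · right; rw [hs1, h0]; rfl
    · left; exact hDa na h0 le_rfl
  have hfs1 : (f s1).2 = v₁ := by rw [hs1, ← Function.iterate_succ_apply' f]; exact hna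
  have hs1v1 : s1.2 ≠ v₁ := by
    rintro h
    rcases hs1D with h' | h'
    · exact h11 (h ▸ h')
    · exact h1A (by rw [← h, h']; exact ha₁)
  have hs1v2 : s1.2 ≠ v₂ := by
    rintro h
    rcases hs1D with h' | h'
    · exact h21 (h ▸ h')
    · exact h2A (by rw [← h, h']; exact ha₁)
  obtain ⟨b1, hb1, hfs1', hgb1⟩ := D2_move hg (s := s1) (l := l) (by
    change (f s1).2 ≠ s1.2; rw [hfs1]; exact hs1v1.symm)
  change f s1 = (s1.1 + 1, (f s1).2) at hfs1'
  change g b1 = Equiv.swap s1.2 (f s1).2 at hgb1
  rw [hfs1] at hfs1' hgb1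
  -- the first step of the second path
  have hs2D : (f (kb, v₂)).2 ∈ D₁ ∨ (f (kb, v₂)).2 ∈ A := by
    rcases Nat.eq_zero_or_pos nb with h0 | h0
    · right; subst h0
      have : (f (kb, v₂)).2 = a₂ := hnb
      rw [this]; exact ha₂
    · left; exact hDb 1 le_rfl h0
  have hs2v1 : (f (kb, v₂)).2 ≠ v₁ := by
    rintro h
    rw [h] at hs2D
    exact hs2D.elim h11 h1A
  have hs2v2 : (f (kb, v₂)).2 ≠ v₂ := by
    rintro h
    rw [h] at hs2D
    exact hs2D.elim h21 h2A
  obtain ⟨b2, hb2, -, hgb2⟩ := D2_move hg (s := (kb, v₂)) (l := l) hs2v2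
  change g b2 = Equiv.swap v₂ (f (kb, v₂)).2 at hgb2
  change l[kb]? = some b2 at hb2
  -- the first step of the third path
  have hs3D : (f (kc, v₁)).2 ∈ D₂ ∨ (f (kc, v₁)).2 = v₂ ∧ nc = 0 := by
    rcases Nat.eq_zero_or_pos nc with h0 | h0
    · right; subst h0; exact ⟨hnc, rfl⟩
    · left; exact hDc 1 le_rfl h0
  have hs3v1 : (f (kc, v₁)).2 ≠ v₁ := by
    rintro h
    rw [h] at hs3D
    exact hs3D.elim h12 fun h' => hne h'.1
  obtain ⟨b3, hb3, -, hgb3⟩ := D2_move hg (s := (kc, v₁)) (l := l) hs3v1
  change g b3 = Equiv.swap v₁ (f (kc, v₁)).2 at hgb3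
  change l[kc]? = some b3 at hb3
  -- the last step of the third path
  set s4 : ℕ × V := f^[nc] (kc, v₁) with hs4
  have hs4D : s4.2 ∈ D₂ ∨ s4 = (kc, v₁) ∧ nc = 0 := by
    rcases Nat.eq_zero_or_pos nc with h0 | h0
    · right; rw [hs4, h0]; exact ⟨rfl, rfl⟩
    · left; exact hDc nc h0 le_rfl
  have hfs4 : (f s4).2 = v₂ := by rw [hs4, ← Function.iterate_succ_apply' f]; exact hnc
  have hs4v2 : s4.2 ≠ v₂ := by
    rintro h
    rcases hs4D with h' | h'
    · exact h22 (h ▸ h')
    · exact hne (by rw [← h, h'.1])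
  obtain ⟨b4, hb4, hfs4', hgb4⟩ := D2_move hg (s := s4) (l := l) (by
    change (f s4).2 ≠ s4.2; rw [hfs4]; exact hs4v2.symm)
  change f s4 = (s4.1 + 1, (f s4).2) at hfs4'
  change g b4 = Equiv.swap s4.2 (f s4).2 at hgb4
  rw [hfs4] at hfs4' hgb4
  -- times
  have lt_of_some : ∀ {k : ℕ} {b : α}, l[k]? = some b → k < N := fun {k b} h => by
    by_contra h'
    rw [List.getElem?_eq_none (by omega)] at h
    exact absurd h (by simp)
  have ht1 : s1.1 < N := lt_of_some hb1
  have ht2 : kb < N := lt_of_some hb2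
  have ht3 : kc < N := lt_of_some hb3
  have ht4 : s4.1 < N := lt_of_some hb4
  -- the colouring
  let col : ℕ → Bool := fun k => decide (k = s1.1 ∨ k = kb ∨ k = kc ∨ k = s4.1)
  let m : List (α × Bool) := l.mapIdx fun k a => (a, col k || !inc g {v₁, v₂} a)
  have hm1 : m.map Prod.fst = l := by
    refine List.ext_getElem? fun i => ?_
    simp only [m, List.getElem?_map, List.getElem?_mapIdx, Option.map_map]
    rcases l[i]? with _ | a <;> rfl
  have hm? : ∀ k, m[k]? = l[k]?.map fun a => (a, col k || !inc g {v₁, v₂} a) := fun k => by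
    simp only [m, List.getElem?_mapIdx]
  have hmlen : m.length = N := by simp [m, hN]
  refine ⟨m, hm1, fun x hx hx2 => ?_, ?_⟩
  · obtain ⟨k, hk⟩ := List.mem_iff_getElem?.mp hx
    rw [hm? k] at hk
    rcases hl : l[k]? with _ | a
    · rw [hl] at hk; exact absurd hk (by simp)
    · rw [hl] at hk
      simp only [Option.map_some, Option.some.injEq] at hk
      rw [← hk] at hx2 ⊢
      simp only [Bool.or_eq_false_iff, Bool.not_eq_false'] at hx2
      exact hx2.2
  rw [Exc_part _ _ _ (fun v hv => by
    simp only [Set.mem_union, Set.mem_insert_iff, Set.mem_singleton_iff, not_or]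
    exact ⟨⟨fun h => e1A v h hv, fun h => e2A v h hv⟩, fun h => h1A (h ▸ hv), fun h => h2A (h ▸ hv)⟩)]
  set f' : ℕ × V → ℕ × V := T (gc g true) m with hf'
  set D : Set V := D₁ ∪ D₂ ∪ {v₁, v₂} with hD
  have hD1 : ∀ v ∈ D₁, v ∈ D := fun v hv => Or.inl (Or.inl hv)
  have hD2 : ∀ v ∈ D₂, v ∈ D := fun v hv => Or.inl (Or.inr hv)
  have hDv1 : v₁ ∈ D := Or.inr (by simp)
  have hDv2 : v₂ ∈ D := Or.inr (by simp)
  have hfN : ∀ v, f' (N, v) = (0, v) := fun v => by
    simp only [hf', T]
    rw [hm? N, List.getElem?_eq_none (by omega)]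
    rfl
  -- one step in the coloured word
  have hstep : ∀ s : ℕ × V, (∀ a, l[s.1]? = some a → col s.1 = false → inc g {v₁, v₂} a = true →
      g a s.2 = s.2) → f' s = f s := by
    intro s h
    simp only [hf', hf, T]
    rw [hm? s.1]
    rcases hl : l[s.1]? with _ | a
    · rfl
    · simp only [Option.map_some]
      congr 1
      rcases hc : (col s.1 || !inc g {v₁, v₂} a) with _ | _
      · simp only [Bool.or_eq_false_iff, Bool.not_eq_false'] at hc
        simp only [gc, if_neg (by decide : ¬ (false = true))]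
        rw [h a hl hc.1 hc.2]
        rfl
      · simp [gc]
  -- a letter moving `v₁` or `v₂` and another point
  have hswap : ∀ (a : α) (p : V), inc g {v₁, v₂} a = true → p ≠ v₁ → p ≠ v₂ → g a p ≠ p →
      g a p = v₁ ∨ g a p = v₂ := by
    intro a p ha hp1 hp2 hp
    have hs := D2_swap hg (a := a) (p := p) rfl (Ne.symm hp)
    simp only [inc, Set.mem_insert_iff, Set.mem_singleton_iff, decide_eq_true_eq] at ha
    obtain ⟨v, hv, hva⟩ := ha
    have hvp : v = g a p := by
      by_contra h
      have hvp' : v ≠ p := by rcases hv with rfl | rfl <;> [exact hp1.symm; exact hp2.symm]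
      exact hva (by rw [hs]; exact Equiv.swap_apply_of_ne_of_ne hvp' h)
    rw [← hvp]
    exact hv
  -- steps at points different from `v₁`, `v₂`, which do not lead to `v₁` or `v₂`
  have hstep' : ∀ s : ℕ × V, s.2 ≠ v₁ → s.2 ≠ v₂ → (f s).2 ≠ v₁ → (f s).2 ≠ v₂ → f' s = f s := by
    intro s q1 q2 q3 q4
    refine hstep s fun a ha _ hi => ?_
    by_contra h
    have hfs : (f s).2 = g a s.2 := by simp [hf, T, ha]
    rw [hfs] at q3 q4
    exact (hswap a s.2 hi q1 q2 h).elim q3 q4
  have hcol : ∀ s : ℕ × V, col s.1 = true → f' s = f s := fun s hs =>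
    hstep s fun a _ h _ => absurd (hs.symm.trans h) (by decide)
  -- the first path
  have hp1 : ∀ i < na + 1, f' (f^[i] (ka, a₁)) = f (f^[i] (ka, a₁)) := by
    intro i hi
    rcases Nat.lt_or_ge i na with h | h
    · have q : (f^[i] (ka, a₁)).2 ∈ D₁ ∨ (f^[i] (ka, a₁)).2 = a₁ := by
        rcases Nat.eq_zero_or_pos i with h0 | h0
        · right; rw [h0]; rfl
        · left; exact hDa i h0 (by omega)
      have q' : (f (f^[i] (ka, a₁))).2 ∈ D₁ := by
        rw [← Function.iterate_succ_apply' f]
        exact hDa (i + 1) (by omega) (by omega)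
      refine hstep' _ ?_ ?_ (fun h => h11 (h ▸ q')) (fun h => h21 (h ▸ q'))
      · rintro h
        rw [h] at q
        exact q.elim h11 fun h' => h1A (h' ▸ ha₁)
      · rintro h
        rw [h] at q
        exact q.elim h21 fun h' => h2A (h' ▸ ha₁)
    · obtain rfl : i = na := by omega
      exact hcol _ (by simp [col, hs1])
  -- the second path
  have hp2 : ∀ i < nb + 1, f' (f^[i] (kb, v₂)) = f (f^[i] (kb, v₂)) := by
    intro i hi
    rcases Nat.eq_zero_or_pos i with h0 | h0
    · rw [h0]
      exact hcol _ (by simp [col])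
    · have q : (f^[i] (kb, v₂)).2 ∈ D₁ := hDb i h0 (by omega)
      have q' : (f (f^[i] (kb, v₂))).2 ∈ D₁ ∨ (f (f^[i] (kb, v₂))).2 ∈ A := by
        rw [← Function.iterate_succ_apply' f]
        rcases Nat.lt_or_ge i nb with h | h
        · left; exact hDb (i + 1) (by omega) (by omega)
        · right
          obtain rfl : i = nb := by omega
          rw [hnb]; exact ha₂
      refine hstep' _ (fun h => h11 (h ▸ q)) (fun h => h21 (h ▸ q)) ?_ ?_
      · rintro h
        rw [h] at q'
        exact q'.elim h11 h1A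
      · rintro h
        rw [h] at q'
        exact q'.elim h21 h2A
  -- the third path
  have hp3 : ∀ i < nc + 1, f' (f^[i] (kc, v₁)) = f (f^[i] (kc, v₁)) := by
    intro i hi
    rcases Nat.eq_zero_or_pos i with h0 | h0
    · rw [h0]
      exact hcol _ (by simp [col])
    · rcases Nat.lt_or_ge i nc with h | h
      · have q : (f^[i] (kc, v₁)).2 ∈ D₂ := hDc i h0 (by omega)
        have q' : (f (f^[i] (kc, v₁))).2 ∈ D₂ := by
          rw [← Function.iterate_succ_apply' f]
          exact hDc (i + 1) (by omega) (by omega)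
        exact hstep' _ (fun h => h12 (h ▸ q)) (fun h => h22 (h ▸ q)) (fun h => h12 (h ▸ q'))
          (fun h => h22 (h ▸ q'))
      · obtain rfl : i = nc := by omega
        exact hcol _ (by simp [col, hs4])
  have hq1 := D2_stable (na + 1) hp1
  have hq2 := D2_stable (nb + 1) hp2
  have hq3 := D2_stable (nc + 1) hp3
  -- waiting
  have hw : ∀ (v : V) (k k' : ℕ), (v = v₁ ∨ v = v₂) → (∀ j a, j ≠ k → j ≠ k' → l[j]? = some a →
      col j = true → g a v = v) → ∀ j < N, j ≠ k → j ≠ k' → f' (j, v) = (j + 1, v) := by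
    intro v k k' hv h j hj h1 h2
    simp only [hf', T]
    rw [hm? j]
    have hl : l[j]? = some l[j] := List.getElem?_eq_getElem hj
    rw [hl]
    simp only [Option.map_some]
    congr 1
    rcases hc : (col j || !inc g {v₁, v₂} l[j]) with _ | _
    · simp [gc]
    · simp only [gc, if_true]
      rcases hc' : col j with _ | _
      · rw [hc'] at hc
        simp only [Bool.false_or, Bool.not_eq_true'] at hc
        simp only [inc, decide_eq_false_iff_not, not_exists, not_and, not_not] at hc
        exact hc v (by rcases hv with rfl | rfl <;> simp)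
      · exact h j _ h1 h2 hl hc'
  have hb_eq : ∀ {j : ℕ} {a b : α}, l[j]? = some a → l[j]? = some b → a = b := fun h h' =>
    Option.some.inj (h.symm.trans h')
  have hk13 : s1.1 ≠ kc := by
    intro h
    have hb : b1 = b3 := hb_eq (h ▸ hb1) hb3
    rw [hb, hgb3] at hgb1
    have e1 : (f (kc, v₁)).2 = s1.2 := by
      have := congrArg (fun e : Equiv.Perm V => e v₁) hgb1
      simpa using this
    rcases hs3D with h' | h'
    · rw [e1] at h'
      rcases hs1D with h'' | h''
      · exact e12 _ h'' h'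
      · exact e2A _ h' (h'' ▸ ha₁)
    · exact hs1v2 (e1 ▸ h'.1)
  have hk42 : s4.1 ≠ kb := by
    intro h
    have hb : b4 = b2 := hb_eq (h ▸ hb4) hb2
    rw [hb, hgb2] at hgb4
    have e1 : (f (kb, v₂)).2 = s4.2 := by
      have := congrArg (fun e : Equiv.Perm V => e v₂) hgb4
      simpa using this
    rcases hs4D with h' | h'
    · rw [← e1] at h'
      exact hs2D.elim (fun q => e12 _ q h') (fun q => e2A _ h' q)
    · rw [h'.1] at e1
      exact hs2v1 e1
  have hw1 : ∀ j a, j ≠ s1.1 → j ≠ kc → l[j]? = some a → col j = true → g a v₁ = v₁ := by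
    intro j a h1 h3 hj hc
    simp only [col, decide_eq_true_eq] at hc
    rcases hc with h | h | h | h
    · exact absurd h h1
    · rw [hb_eq hj (h ▸ hb2), hgb2]
      exact Equiv.swap_apply_of_ne_of_ne hne hs2v1.symm
    · exact absurd h h3
    · rcases hs4D with h' | h'
      · rw [hb_eq hj (h ▸ hb4), hgb4]
        exact Equiv.swap_apply_of_ne_of_ne (fun q => h12 (q ▸ h')) hne
      · rw [h'.1] at h
        exact absurd h h3
  have hw2 : ∀ j a, j ≠ s4.1 → j ≠ kb → l[j]? = some a → col j = true → g a v₂ = v₂ := by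
    intro j a h4 h2 hj hc
    simp only [col, decide_eq_true_eq] at hc
    rcases hc with h | h | h | h
    · rw [hb_eq hj (h ▸ hb1), hgb1]
      exact Equiv.swap_apply_of_ne_of_ne hs1v2.symm hne.symm
    · exact absurd h h2
    · rcases hs3D with h' | h'
      · rw [hb_eq hj (h ▸ hb3), hgb3]
        exact Equiv.swap_apply_of_ne_of_ne hne.symm (fun q => h22 (q ▸ h'))
      · have : s4.1 = kc := by rw [hs4, h'.2]; rfl
        exact absurd (h.trans this.symm) h4
    · exact absurd h h4
  -- the parts of the excursion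
  have g1 : ∃ n, f'^[n] (f' (ka, a₁)) = (s1.1 + 1, v₁) ∧
      ∀ i ≤ n, (f'^[i] (f' (ka, a₁))).2 ∈ D := by
    refine ⟨na, ?_, fun i hi => ?_⟩
    · rw [← Function.iterate_succ_apply, hq1 (na + 1) le_rfl, Function.iterate_succ_apply']
      exact hfs1'
    · rw [← Function.iterate_succ_apply, hq1 (i + 1) (by omega)]
      rcases Nat.lt_or_ge i na with h | h
      · exact hD1 _ (hDa (i + 1) (by omega) (by omega))
      · obtain rfl : i = na := by omega
        rw [hna]; exact hDv1
  have g2 : ∃ n, f'^[n] (s1.1 + 1, v₁) = (kc, v₁) ∧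
      ∀ i ≤ n, (f'^[i] (s1.1 + 1, v₁)).2 ∈ D :=
    D2_wait hDv1 ht1 ht3 hk13 (hw v₁ s1.1 kc (Or.inl rfl) hw1) (hfN v₁)
  have g3 : ∃ n, f'^[n] (kc, v₁) = (s4.1 + 1, v₂) ∧
      ∀ i ≤ n, (f'^[i] (kc, v₁)).2 ∈ D := by
    refine ⟨nc + 1, ?_, fun i hi => ?_⟩
    · rw [hq3 (nc + 1) le_rfl, Function.iterate_succ_apply']
      exact hfs4'
    · rw [hq3 i hi]
      rcases Nat.eq_zero_or_pos i with h0 | h0
      · rw [h0]; exact hDv1
      rcases Nat.lt_or_ge nc i with h | h
      · obtain rfl : i = nc + 1 := by omega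
        rw [hnc]; exact hDv2
      · exact hD2 _ (hDc i h0 h)
  have g4 : ∃ n, f'^[n] (s4.1 + 1, v₂) = (kb, v₂) ∧
      ∀ i ≤ n, (f'^[i] (s4.1 + 1, v₂)).2 ∈ D :=
    D2_wait hDv2 ht4 ht2 hk42 (hw v₂ s4.1 kb (Or.inr rfl) hw2) (hfN v₂)
  have g5 : ∃ n, f'^[n] (kb, v₂) = f^[nb] (kb, v₂) ∧
      ∀ i ≤ n, (f'^[i] (kb, v₂)).2 ∈ D := by
    refine ⟨nb, hq2 nb (by omega), fun i hi => ?_⟩
    rw [hq2 i (by omega)]
    rcases Nat.eq_zero_or_pos i with h0 | h0
    · rw [h0]; exact hDv2
    · exact hD1 _ (hDb i h0 hi)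
  obtain ⟨n2, hn2, hn2D⟩ := D2_trans g2 (D2_trans g3 (D2_trans g4 g5))
  obtain ⟨n1, hn1, hn1D⟩ := g1
  refine ⟨ka, by omega, a₁, ha₁, n2 + n1 + 1, ?_, fun i hi1 hi2 => ?_, n1 + 1, by omega, by omega, ?_⟩
  · have e := hp2 nb (by omega)
    rw [← Function.iterate_succ_apply' f] at e
    change (f'^[n2 + n1 + 1 + 1] (ka, a₁)).2 ∈ A
    rw [Function.iterate_succ_apply' f', Function.iterate_succ_apply, Function.iterate_add_apply, hn1,
      hn2, e, hnb]
    exact ha₂
  · obtain ⟨j, rfl⟩ : ∃ j, i = j + 1 := ⟨i - 1, by omega⟩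
    change (f'^[j + 1] (ka, a₁)).2 ∈ D
    rw [Function.iterate_succ_apply]
    by_cases hj : j ≤ n1
    · exact hn1D j hj
    · obtain ⟨j', rfl⟩ : ∃ j', j = j' + n1 := ⟨j - n1, by omega⟩
      rw [Function.iterate_add_apply, hn1]
      exact hn2D j' (by omega)
  · change (f'^[n1 + 1] (ka, a₁)).2 ∈ ({v₁} : Set V)
    rw [Function.iterate_succ_apply, hn1]
    rfl

end

end Pool.Agent.ThinTori

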