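import Pool.Agent.Lib.MP_6c3d62_pr.Tube1

/-! Stirring on tubes, part 2: geometry and symmetries of the torus, moves. -/

set_option autoImplicit false

/-! Stirring on thin tori of any dimension, row E0: the torus, events (definitions) -/


open Finset

namespace Pool.Agent.ThinTori.Dim

section



/-- The vertices of the torus `ℤ_L × (ℤ_W) ^ n`. -/
abbrev Vx (L W n : ℕ) := ZMod L × (Fin n → ZMod W)

/-- The edges: `(v, o)` is the edge `{v, v + dir o}`. -/
abbrev Ed (L W n : ℕ) := Vx L W n × Option (Fin n)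

/-- The unit vectors: `none` is the long direction. -/
def dir (L W n : ℕ) (o : Option (Fin n)) : Vx L W n :=
  match o with
  | none => (1, 0)
  | some j => (0, Pi.single j 1)

/-- The transposition of the two ends of an edge. -/
def gT (L W n : ℕ) (e : Ed L W n) : Equiv.Perm (Vx L W n) :=
  Equiv.swap e.1 (e.1 + dir L W n e.2)

/-- The vertex with integer coordinates `i`, `u`. -/
def pt (L W n : ℕ) (i : ℤ) (u : Fin n → ℤ) : Vx L W n := ((i : ZMod L), fun j => (u j : ZMod W))

/-- The vertices in the columns `i₁, ..., i₂`. -/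
def strip (L W n : ℕ) (i₁ i₂ : ℤ) : Set (Vx L W n) :=
  {v | ∃ i : ℤ, i₁ ≤ i ∧ i ≤ i₂ ∧ v.1 = (i : ZMod L)}

/-- The box of the points at sup-distance less than `R` of the origin. -/
def box (L W n : ℕ) (R : ℤ) : Set (Vx L W n) :=
  {v | ∃ (i : ℤ) (u : Fin n → ℤ), |i| ≤ R - 1 ∧ (∀ j, |u j| ≤ R - 1) ∧ v = pt L W n i u}

/-- The points of the box whose coordinate `m` is less than `k`. -/
def boxlt (L W n : ℕ) (R : ℤ) (m : Fin n) (k : ℤ) : Set (Vx L W n) :=
  {v | ∃ (i : ℤ) (u : Fin n → ℤ), |i| ≤ R - 1 ∧ (∀ j, |u j| ≤ R - 1) ∧ u m ≤ k - 1 ∧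
    v = pt L W n i u}

/-- The integer vectors with coordinates less than `R` in absolute value. -/
noncomputable def cube (n : ℕ) (R : ℤ) : Finset (Fin n → ℤ) :=
  Fintype.piFinset fun _ : Fin n => Finset.Icc (-(R - 1)) (R - 1)

/-- The probability of an event at time `t`, all edges having rate one. -/
noncomputable def P (L W n : ℕ) [NeZero L] [NeZero W] (t : ℝ) (A : List (Ed L W n) → Prop) : ℝ :=
  Pr (fun _ => t) A

/-- The particle of `x` leaves the box around `x`. -/
def Exit (L W n : ℕ) (R : ℤ) (x : Vx L W n) (l : List (Ed L W n)) : Prop :=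
  ∃ k, ((T (gT L W n) l)^[k] (0, x)).2 - x ∉ box L W n R

/-- Some particle goes from the column `i` to the column `i + m` through the columns in between. -/
def Cross (L W n : ℕ) (i m : ℤ) (l : List (Ed L W n)) : Prop :=
  ∃ y y' : Fin n → ZMod W, Seg (gT L W n) (strip L W n (i + 1) (i + m - 1)) ((i : ZMod L), y)
    (((i + m : ℤ) : ZMod L), y') l

/-- Some particle goes from the column `i + m` to the column `i` through the columns in between. -/
def Cross' (L W n : ℕ) (i m : ℤ) (l : List (Ed L W n)) : Prop :=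
  ∃ y y' : Fin n → ZMod W, Seg (gT L W n) (strip L W n (i + 1) (i + m - 1))
    (((i + m : ℤ) : ZMod L), y) ((i : ZMod L), y') l

/-- The column `i`. -/
def col (L W n : ℕ) (i : ℤ) : Set (Vx L W n) := {v | v.1 = (i : ZMod L)}

/-- Some particle goes from the column `0` to the right, reaches the column `x`, and comes back to the
column `0`, without leaving the columns `1, ..., x + W`. -/
def Win (L W n : ℕ) (x : ℤ) : List (Ed L W n) → Prop :=
  Exc (gT L W n) (strip L W n 1 (x + W)) (col L W n 0) (col L W n x)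

open Classical in
/-- The number of vertices of the cycle of `x`. -/
noncomputable def cyc (L W n : ℕ) [NeZero L] [NeZero W] (x : Vx L W n) (l : List (Ed L W n)) : ℕ :=
  (Finset.univ.filter fun y => (l.map (gT L W n)).prod.SameCycle x y).card

end

end Pool.Agent.ThinTori.Dim

/-! Stirring on thin tori of any dimension, row E1: first exits from the box -/


open Finset

namespace Pool.Agent.ThinTori.Dim

section

variable {L W n : ℕ} [NeZero L] [NeZero W]

omit [NeZero L] [NeZero W] in
private theorem E1_inj {k : ℕ} {a b : ℤ} (h : (a : ZMod k) = (b : ZMod k)) (h1 : b - a < k)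
    (h2 : a - b < k) : a = b := by
  have h3 := (ZMod.intCast_eq_intCast_iff_dvd_sub _ _ _).1 h
  have h4 := Int.eq_zero_of_abs_lt_dvd h3 (abs_lt.2 ⟨by omega, h1⟩)
  omega

omit [NeZero L] [NeZero W] in
private theorem E1_add1 (i : ℤ) (u : Fin n → ℤ) :
    pt L W n i u + dir L W n none = pt L W n (i + 1) u := by
  unfold pt dir
  refine Prod.ext ?_ ?_
  · show (i : ZMod L) + 1 = ((i + 1 : ℤ) : ZMod L)
    push_cast
    rfl
  · funext j
    show (u j : ZMod W) + 0 = _
    rw [add_zero]

omit [NeZero L] [NeZero W] in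
private theorem E1_add2 (i : ℤ) (u : Fin n → ℤ) (j : Fin n) :
    pt L W n i u + dir L W n (some j) = pt L W n i (Function.update u j (u j + 1)) := by
  unfold pt dir
  refine Prod.ext ?_ ?_
  · show (i : ZMod L) + 0 = _
    rw [add_zero]
  · funext k
    show (u k : ZMod W) + (Pi.single j (1 : ZMod W) : Fin n → ZMod W) k =
      ((Function.update u j (u j + 1) k : ℤ) : ZMod W)
    by_cases hk : k = j
    · subst hk
      rw [Pi.single_eq_same, Function.update_self]
      push_cast
      rfl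
    · rw [Pi.single_eq_of_ne hk, Function.update_of_ne hk, add_zero]

omit [NeZero L] [NeZero W] in
private theorem E1_step (l : List (Ed L W n)) (s : ℕ × Vx L W n) {i : ℤ} {u : Fin n → ℤ}
    (h : s.2 = pt L W n i u) :
    (T (gT L W n) l s).2 = pt L W n i u ∨ (T (gT L W n) l s).2 = pt L W n (i + 1) u ∨
      (T (gT L W n) l s).2 = pt L W n (i - 1) u ∨
      (∃ j, (T (gT L W n) l s).2 = pt L W n i (Function.update u j (u j + 1))) ∨
      ∃ j, (T (gT L W n) l s).2 = pt L W n i (Function.update u j (u j - 1)) := by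
  unfold T
  cases hl : l[s.1]? with
  | none => exact Or.inl h
  | some a =>
    obtain ⟨v, o⟩ := a
    show (gT L W n (v, o) s.2 = _) ∨ (gT L W n (v, o) s.2 = _) ∨ (gT L W n (v, o) s.2 = _) ∨
      (∃ j, gT L W n (v, o) s.2 = _) ∨ (∃ j, gT L W n (v, o) s.2 = _)
    rw [h]
    unfold gT
    have e1 : pt L W n (i - 1) u + dir L W n none = pt L W n i u := by rw [E1_add1, sub_add_cancel]
    have e2 : ∀ j, pt L W n i (Function.update u j (u j - 1)) + dir L W n (some j) =
        pt L W n i u := by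
      intro j
      rw [E1_add2, Function.update_self, Function.update_idem, sub_add_cancel,
        Function.update_eq_self]
    cases o with
    | none =>
      show (Equiv.swap v (v + dir L W n none) (pt L W n i u) = _) ∨
        (Equiv.swap v (v + dir L W n none) (pt L W n i u) = _) ∨
        (Equiv.swap v (v + dir L W n none) (pt L W n i u) = _) ∨ (∃ j, _) ∨ (∃ j, _)
      by_cases h1 : pt L W n i u = v
      · right; left
        rw [← h1, Equiv.swap_apply_left, E1_add1]
      · by_cases h2 : pt L W n i u = v + dir L W n none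
        · right; right; left
          rw [h2, Equiv.swap_apply_right]
          rw [← e1] at h2
          exact (add_right_cancel h2).symm
        · left
          exact Equiv.swap_apply_of_ne_of_ne h1 h2
    | some j =>
      show (Equiv.swap v (v + dir L W n (some j)) (pt L W n i u) = _) ∨
        (Equiv.swap v (v + dir L W n (some j)) (pt L W n i u) = _) ∨
        (Equiv.swap v (v + dir L W n (some j)) (pt L W n i u) = _) ∨
        (∃ j', Equiv.swap v (v + dir L W n (some j)) (pt L W n i u) = _) ∨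
        (∃ j', Equiv.swap v (v + dir L W n (some j)) (pt L W n i u) = _)
      by_cases h1 : pt L W n i u = v
      · right; right; right; left
        refine ⟨j, ?_⟩
        rw [← h1, Equiv.swap_apply_left, E1_add2]
      · by_cases h2 : pt L W n i u = v + dir L W n (some j)
        · right; right; right; right
          refine ⟨j, ?_⟩
          rw [h2, Equiv.swap_apply_right]
          rw [← e2 j] at h2
          exact (add_right_cancel h2).symm
        · left
          exact Equiv.swap_apply_of_ne_of_ne h1 h2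

omit [NeZero L] [NeZero W] in
private theorem E1_time (l : List (Ed L W n)) (x : Vx L W n) (k : ℕ) :
    ((T (gT L W n) l)^[k] (0, x)).1 ≤ l.length := by
  induction k with
  | zero => exact Nat.zero_le _
  | succ k ih =>
    rw [Function.iterate_succ_apply']
    generalize (T (gT L W n) l)^[k] (0, x) = s at ih ⊢
    unfold T
    cases hl : l[s.1]? with
    | none => exact Nat.zero_le _
    | some a =>
      obtain ⟨h1, _⟩ := List.getElem?_eq_some_iff.1 hl
      exact h1

private theorem E1_cube {R : ℤ} {u : Fin n → ℤ} (h : ∀ j, |u j| ≤ R - 1) : u ∈ cube n R := by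
  unfold cube
  rw [Fintype.mem_piFinset]
  intro j
  rw [Finset.mem_Icc]
  exact abs_le.1 (h j)

private theorem E1_upd {R : ℤ} {u : Fin n → ℤ} (h : ∀ j, |u j| ≤ R - 1) {i : ℤ}
    (hi : |i| ≤ R - 1) (m : Fin n) : ∀ j, |Function.update u m i j| ≤ R - 1 := by
  intro j
  by_cases hj : j = m
  · subst hj
    rw [Function.update_self]
    exact hi
  · rw [Function.update_of_ne hj]
    exact h j

/- E1 -/
theorem exit_sides (R : ℤ) (hR : 1 ≤ R) (hL : 2 * R + 1 ≤ L) (hW : 2 * R + 1 ≤ W)
    (l : List (Ed L W n)) (h : Exit L W n R (pt L W n 0 0) l) :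
    ∃ c ∈ cube n R,
      Reach (gT L W n) (box L W n R) (pt L W n 0 0) (pt L W n R c) l ∨
      Reach (gT L W n) (box L W n R) (pt L W n 0 0) (pt L W n (-R) c) l ∨
      (∃ m, Reach (gT L W n) (box L W n R) (pt L W n 0 0)
        (pt L W n (c m) (Function.update c m R)) l) ∨
      ∃ m, Reach (gT L W n) (box L W n R) (pt L W n 0 0)
        (pt L W n (c m) (Function.update c m (-R))) l := by
  classical
  have h00 : pt L W n 0 0 = 0 := by
    unfold pt
    refine Prod.ext ?_ ?_
    · exact Int.cast_zero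
    · funext j
      exact Int.cast_zero
  have h' : ∃ k, ((T (gT L W n) l)^[k] (0, pt L W n 0 0)).2 ∉ box L W n R := by
    obtain ⟨k, hk⟩ := h
    refine ⟨k, ?_⟩
    rwa [h00, sub_zero, ← h00] at hk
  obtain ⟨N, hN, hmin⟩ : ∃ N, ((T (gT L W n) l)^[N] (0, pt L W n 0 0)).2 ∉ box L W n R ∧
      ∀ i < N, ((T (gT L W n) l)^[i] (0, pt L W n 0 0)).2 ∈ box L W n R :=
    ⟨Nat.find h', Nat.find_spec h', fun i hi => not_not.1 (Nat.find_min h' hi)⟩
  have hN0 : N ≠ 0 := by
    rintro rfl
    refine hN ⟨0, 0, ?_, fun j => ?_, rfl⟩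
    · rw [abs_zero]
      omega
    · show |(0 : ℤ)| ≤ R - 1
      rw [abs_zero]
      omega
  obtain ⟨M, rfl⟩ := Nat.exists_eq_succ_of_ne_zero hN0
  obtain ⟨i, u, h1, h2, h5⟩ := hmin M (Nat.lt_succ_self M)
  have hstep := E1_step l _ h5
  rw [← Function.iterate_succ_apply' (T (gT L W n) l)] at hstep
  have hout : ∀ (i' : ℤ) (u' : Fin n → ℤ),
      ((T (gT L W n) l)^[M.succ] (0, pt L W n 0 0)).2 = pt L W n i' u' →
      |i'| ≤ R - 1 → ¬ ∀ j, |u' j| ≤ R - 1 := by
    intro i' u' he k1 k2
    exact hN ⟨i', u', k1, k2, he⟩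
  have h1' := abs_le.1 h1
  rcases hstep with he | he | he | ⟨j, he⟩ | ⟨j, he⟩
  · exact absurd h2 (hout _ _ he h1)
  · have h7 : i + 1 = R := by
      by_contra hcon
      exact hout _ _ he (abs_le.2 ⟨by omega, by omega⟩) h2
    rw [h7] at he
    exact ⟨u, E1_cube h2, Or.inl ⟨_, he, hmin⟩⟩
  · have h7 : i - 1 = -R := by
      by_contra hcon
      exact hout _ _ he (abs_le.2 ⟨by omega, by omega⟩) h2
    rw [h7] at he
    exact ⟨u, E1_cube h2, Or.inr (Or.inl ⟨_, he, hmin⟩)⟩
  · have h3 := abs_le.1 (h2 j)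
    have h7 : u j + 1 = R := by
      by_contra hcon
      exact hout _ _ he h1 (E1_upd h2 (abs_le.2 ⟨by omega, by omega⟩) j)
    rw [h7] at he
    refine ⟨Function.update u j i, E1_cube (E1_upd h2 h1 j), Or.inr (Or.inr (Or.inl ⟨j, _, ?_, hmin⟩))⟩
    rw [Function.update_self, Function.update_idem]
    exact he
  · have h3 := abs_le.1 (h2 j)
    have h7 : u j - 1 = -R := by
      by_contra hcon
      exact hout _ _ he h1 (E1_upd h2 (abs_le.2 ⟨by omega, by omega⟩) j)
    rw [h7] at he
    refine ⟨Function.update u j i, E1_cube (E1_upd h2 h1 j), Or.inr (Or.inr (Or.inr ⟨j, _, ?_, hmin⟩))⟩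
    rw [Function.update_self, Function.update_idem]
    exact he

/- E2 -/
theorem reach_row (R : ℤ) (hR : 1 ≤ R) (hL : 2 * R + 1 ≤ L) (hW : 2 * R + 1 ≤ W)
    (m : Fin n) (c : Fin n → ℤ) (hc : c ∈ cube n R) (k : ℤ) (hk : 1 ≤ k) (hk' : k ≤ R - 1)
    (l : List (Ed L W n)) (h : Reach (gT L W n) (box L W n R) (pt L W n 0 0)
      (pt L W n (c m) (Function.update c m R)) l) :
    ∃ b ∈ cube n R, Reach (gT L W n) (boxlt L W n R m k) (pt L W n 0 0)
      (pt L W n (b m) (Function.update b m k)) l := by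
  classical
  have hc' : ∀ j, -(R - 1) ≤ c j ∧ c j ≤ R - 1 := by
    intro j
    exact Finset.mem_Icc.1 (Fintype.mem_piFinset.1 hc j)
  obtain ⟨N, hN, hbox⟩ := h
  have hend : ((T (gT L W n) l)^[N] (0, pt L W n 0 0)).2 ∉ boxlt L W n R m k := by
    rw [hN]
    rintro ⟨i, u, h1, h2, h3, h5⟩
    have h6 : ((Function.update c m R m : ℤ) : ZMod W) = (u m : ZMod W) :=
      congrFun (congrArg Prod.snd h5) m
    rw [Function.update_self] at h6
    have h8 := abs_le.1 (h2 m)
    have h7 := E1_inj h6 (by omega) (by omega)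
    omega
  have h' : ∃ k', ((T (gT L W n) l)^[k'] (0, pt L W n 0 0)).2 ∉ boxlt L W n R m k := ⟨N, hend⟩
  obtain ⟨M, hM, hmin, hMN⟩ : ∃ M, ((T (gT L W n) l)^[M] (0, pt L W n 0 0)).2 ∉ boxlt L W n R m k ∧
      (∀ i < M, ((T (gT L W n) l)^[i] (0, pt L W n 0 0)).2 ∈ boxlt L W n R m k) ∧ M ≤ N :=
    ⟨Nat.find h', Nat.find_spec h', fun i hi => not_not.1 (Nat.find_min h' hi),
      Nat.find_min' h' hend⟩
  have hM0 : M ≠ 0 := by
    rintro rfl
    refine hM ⟨0, 0, ?_, fun j => ?_, ?_, rfl⟩
    · rw [abs_zero]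
      omega
    · show |(0 : ℤ)| ≤ R - 1
      rw [abs_zero]
      omega
    · show (0 : ℤ) ≤ k - 1
      omega
  obtain ⟨M, rfl⟩ := Nat.exists_eq_succ_of_ne_zero hM0
  obtain ⟨i, u, h1, h2, h3, h5⟩ := hmin M (Nat.lt_succ_self M)
  have hstep := E1_step l _ h5
  rw [← Function.iterate_succ_apply' (T (gT L W n) l)] at hstep
  have hout : ∀ (i' : ℤ) (u' : Fin n → ℤ),
      ((T (gT L W n) l)^[M.succ] (0, pt L W n 0 0)).2 = pt L W n i' u' →
      |i'| ≤ R - 1 → (∀ j, |u' j| ≤ R - 1) → ¬ u' m ≤ k - 1 := by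
    intro i' u' he k1 k2 k3
    exact hM ⟨i', u', k1, k2, k3, he⟩
  -- the position is in the box or the end point
  have hin : ∃ (i' : ℤ) (u' : Fin n → ℤ), -(R - 1) ≤ i' ∧ i' ≤ R - 1 ∧
      (∀ j, -(R - 1) ≤ u' j ∧ u' j ≤ R ∧ (j ≠ m → u' j ≤ R - 1)) ∧
      ((T (gT L W n) l)^[M.succ] (0, pt L W n 0 0)).2 = pt L W n i' u' := by
    rcases Nat.lt_or_ge M.succ N with hlt | hge
    · obtain ⟨i', u', k1, k2, k5⟩ := hbox _ hlt
      have k1' := abs_le.1 k1
      refine ⟨i', u', k1'.1, k1'.2, fun j => ?_, k5⟩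
      have k2' := abs_le.1 (k2 j)
      exact ⟨k2'.1, by omega, fun _ => k2'.2⟩
    · have h6 : M.succ = N := le_antisymm hMN hge
      rw [h6]
      refine ⟨c m, Function.update c m R, (hc' m).1, (hc' m).2, fun j => ?_, hN⟩
      by_cases hj : j = m
      · subst hj
        rw [Function.update_self]
        exact ⟨by omega, le_rfl, fun h => absurd rfl h⟩
      · rw [Function.update_of_ne hj]
        exact ⟨(hc' j).1, by have := (hc' j).2; omega, fun _ => (hc' j).2⟩
  obtain ⟨i', u', k1, k2, k3, k5⟩ := hin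
  have hcoord : ∀ (i'' : ℤ) (u'' : Fin n → ℤ),
      ((T (gT L W n) l)^[M.succ] (0, pt L W n 0 0)).2 = pt L W n i'' u'' →
      -R ≤ i'' → i'' ≤ R → (∀ j, -R ≤ u'' j ∧ u'' j ≤ R) → i'' = i' ∧ ∀ j, u'' j = u' j := by
    intro i'' u'' he q1 q2 q3
    have h6 : pt L W n i'' u'' = pt L W n i' u' := he.symm.trans k5
    have h7 : (i'' : ZMod L) = (i' : ZMod L) := congrArg Prod.fst h6
    refine ⟨E1_inj h7 (by omega) (by omega), fun j => ?_⟩
    have h8 : (u'' j : ZMod W) = (u' j : ZMod W) := congrFun (congrArg Prod.snd h6) j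
    have h9 := q3 j
    have h10 := k3 j
    exact E1_inj h8 (by omega) (by omega)
  have h1' := abs_le.1 h1
  have h2' : ∀ j, -R ≤ u j ∧ u j ≤ R := by
    intro j
    have h4 := abs_le.1 (h2 j)
    exact ⟨by omega, by omega⟩
  have hupd : ∀ (j : Fin n) (x : ℤ), -R ≤ x → x ≤ R →
      ∀ j', -R ≤ Function.update u j x j' ∧ Function.update u j x j' ≤ R := by
    intro j x hx1 hx2 j'
    by_cases hj : j' = j
    · subst hj
      rw [Function.update_self]
      exact ⟨hx1, hx2⟩
    · rw [Function.update_of_ne hj]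
      exact h2' j'
  rcases hstep with he | he | he | ⟨j, he⟩ | ⟨j, he⟩
  · exact absurd h3 (hout _ _ he h1 h2)
  · obtain ⟨h7, _⟩ := hcoord _ _ he (by omega) (by omega) h2'
    exact absurd h3 (hout _ _ he (abs_le.2 ⟨by omega, by omega⟩) h2)
  · obtain ⟨h7, _⟩ := hcoord _ _ he (by omega) (by omega) h2'
    exact absurd h3 (hout _ _ he (abs_le.2 ⟨by omega, by omega⟩) h2)
  · have h4 := abs_le.1 (h2 j)
    obtain ⟨_, h8⟩ := hcoord _ _ he (by omega) (by omega) (hupd j _ (by omega) (by omega))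
    have h9 := h8 j
    rw [Function.update_self] at h9
    have h10 := k3 j
    by_cases hj : j = m
    · subst hj
      have h11 : |u j + 1| ≤ R - 1 := abs_le.2 ⟨by omega, by omega⟩
      have h12 := hout _ _ he h1 (E1_upd h2 h11 j)
      rw [Function.update_self] at h12
      have h13 : u j + 1 = k := by omega
      rw [h13] at he
      refine ⟨Function.update u j i, E1_cube (E1_upd h2 h1 j), _, ?_, hmin⟩
      rw [Function.update_self, Function.update_idem]
      exact he
    · have h11 : |u j + 1| ≤ R - 1 := abs_le.2 ⟨by omega, by have := h10.2.2 hj; omega⟩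
      have h12 := hout _ _ he h1 (E1_upd h2 h11 j)
      rw [Function.update_of_ne (Ne.symm hj)] at h12
      exact absurd h3 h12
  · have h4 := abs_le.1 (h2 j)
    obtain ⟨_, h8⟩ := hcoord _ _ he (by omega) (by omega) (hupd j _ (by omega) (by omega))
    have h9 := h8 j
    rw [Function.update_self] at h9
    have h10 := k3 j
    have h11 : |u j - 1| ≤ R - 1 := abs_le.2 ⟨by omega, by omega⟩
    have h12 := hout _ _ he h1 (E1_upd h2 h11 j)
    by_cases hj : j = m
    · subst hj
      rw [Function.update_self] at h12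
      omega
    · rw [Function.update_of_ne (Ne.symm hj)] at h12
      exact absurd h3 h12

/- E3 -/
theorem reach_half (R : ℤ) (hR : 1 ≤ R) (hL : 2 * R + 1 ≤ L) (hW : 2 * R + 1 ≤ W)
    (c : Fin n → ℤ) (hc : c ∈ cube n R)
    (l : List (Ed L W n)) (h : Reach (gT L W n) (box L W n R) (pt L W n 0 0) (pt L W n R c) l) :
    ∃ b ∈ cube n R,
      Seg (gT L W n) (strip L W n 1 (R - 1)) (pt L W n 0 b) (pt L W n R c) l := by
  classical
  obtain ⟨N, hN, hbox⟩ := h
  have hN0 : 0 < N := by
    rcases Nat.eq_zero_or_pos N with h0 | h0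
    · rw [h0] at hN
      have h1 : ((0 : ℤ) : ZMod L) = (R : ZMod L) := congrArg Prod.fst hN
      have h2 := E1_inj h1 (by omega) (by omega)
      omega
    · exact h0
  have h0 : ((T (gT L W n) l)^[0] (0, pt L W n 0 0)).2 ∉ strip L W n 1 (R - 1) := by
    rintro ⟨i, h1, h2, h3⟩
    have h4 : ((0 : ℤ) : ZMod L) = (i : ZMod L) := h3
    have h5 := E1_inj h4 (by omega) (by omega)
    omega
  -- the last time outside of the strip
  obtain ⟨q, hqN, hq, hlast⟩ : ∃ q < N,
      ((T (gT L W n) l)^[q] (0, pt L W n 0 0)).2 ∉ strip L W n 1 (R - 1) ∧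
      ∀ m, q < m → m < N → ((T (gT L W n) l)^[m] (0, pt L W n 0 0)).2 ∈ strip L W n 1 (R - 1) := by
    let S : Finset ℕ := (Finset.range N).filter fun q =>
        ((T (gT L W n) l)^[q] (0, pt L W n 0 0)).2 ∉ strip L W n 1 (R - 1)
    have hne : S.Nonempty := ⟨0, Finset.mem_filter.2 ⟨Finset.mem_range.2 hN0, h0⟩⟩
    have hmax := Finset.mem_filter.1 (S.max'_mem hne)
    refine ⟨S.max' hne, Finset.mem_range.1 hmax.1, hmax.2, fun m h1 h2 => ?_⟩
    by_contra h3
    have h4 := S.le_max' m (Finset.mem_filter.2 ⟨Finset.mem_range.2 h2, h3⟩)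
    omega
  obtain ⟨i, u, h1, h2, h5⟩ := hbox q hqN
  have h1' := abs_le.1 h1
  have hi0 : i ≤ 0 := by
    by_contra hcon
    refine hq ⟨i, by omega, h1'.2, ?_⟩
    rw [h5]
    rfl
  have hnext : ∃ x : ℤ, 1 ≤ x ∧ x ≤ R ∧
      ((T (gT L W n) l)^[q + 1] (0, pt L W n 0 0)).2.1 = (x : ZMod L) := by
    rcases Nat.lt_or_ge (q + 1) N with hlt | hge
    · obtain ⟨x, k1, k2, k3⟩ := hlast (q + 1) (Nat.lt_succ_self q) hlt
      exact ⟨x, k1, by omega, k3⟩
    · have h6 : q + 1 = N := le_antisymm hqN hge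
      rw [h6, hN]
      exact ⟨R, hR, le_rfl, rfl⟩
  obtain ⟨x, k1, k2, k3⟩ := hnext
  have hstep := E1_step l _ h5
  rw [← Function.iterate_succ_apply' (T (gT L W n) l)] at hstep
  have hcol : ∀ (i' : ℤ) (u' : Fin n → ℤ),
      ((T (gT L W n) l)^[q.succ] (0, pt L W n 0 0)).2 = pt L W n i' u' →
      i - 1 ≤ i' → i' ≤ i + 1 → i' = x := by
    intro i' u' he q1 q2
    have h6 : (i' : ZMod L) = (x : ZMod L) := by
      rw [← k3]
      exact (congrArg Prod.fst he).symm
    exact E1_inj h6 (by omega) (by omega)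
  have hi : i = 0 := by
    rcases hstep with he | he | he | ⟨j, he⟩ | ⟨j, he⟩
    · have := hcol _ _ he (by omega) (by omega)
      omega
    · have := hcol _ _ he (by omega) (by omega)
      omega
    · have := hcol _ _ he (by omega) (by omega)
      omega
    · have := hcol _ _ he (by omega) (by omega)
      omega
    · have := hcol _ _ he (by omega) (by omega)
      omega
  subst hi
  have hst : ((((T (gT L W n) l)^[q] (0, pt L W n 0 0)).1, pt L W n 0 u) : ℕ × Vx L W n) =
      (T (gT L W n) l)^[q] (0, pt L W n 0 0) := by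
    rw [← h5]
  refine ⟨u, E1_cube h2, ((T (gT L W n) l)^[q] (0, pt L W n 0 0)).1, E1_time l _ q,
    N - q - 1, ?_, ?_⟩
  · rw [hst, ← Function.iterate_add_apply, show N - q - 1 + 1 + q = N by omega]
    exact hN
  · intro m hm1 hm2
    rw [hst, ← Function.iterate_add_apply]
    exact hlast _ (by omega) (by omega)

end

end Pool.Agent.ThinTori.Dim

/-! Stirring on thin tori of any dimension, row E4: conservation -/


open Finset

namespace Pool.Agent.ThinTori.Dim

section

private theorem E4_per {X : Type*} [Finite X] {f : X → X} (hf : Function.Injective f) (x : X) :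
    ∃ p, 0 < p ∧ f^[p] x = x := by
  obtain ⟨i, j, hij, h⟩ := Finite.exists_ne_map_eq_of_infinite (fun n : ℕ => f^[n] x)
  have h' : f^[i] x = f^[j] x := h
  rcases lt_or_gt_of_ne hij with h1 | h1
  · refine ⟨j - i, by omega, ?_⟩
    apply hf.iterate i
    rw [← Function.iterate_add_apply, show i + (j - i) = j by omega]
    exact h'.symm
  · refine ⟨i - j, by omega, ?_⟩
    apply hf.iterate j
    rw [← Function.iterate_add_apply, show j + (i - j) = i by omega]
    exact h'

private theorem E4_abs {X : Type*} [Finite X] {f : X → X} (hf : Function.Injective f)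
    (D : X → Prop) (ER LR : Finset X) (hcard : ER.card = LR.card)
    (hER : ∀ x ∈ ER, ¬ D x ∧ D (f x)) (s : X) (hs : ¬ D s) (hs' : s ∉ ER) (n : ℕ)
    (hD : ∀ i, 1 ≤ i → i ≤ n → D (f^[i] s)) (hex : f^[n] s ∈ LR) :
    ∃ x ∈ ER, ∃ m, 1 ≤ m ∧ (∀ i, 1 ≤ i → i ≤ m → D (f^[i] x)) ∧ ¬ D (f^[m + 1] x) ∧
      f^[m] x ∉ LR := by
  classical
  by_contra hcon
  push Not at hcon
  have hex1 : ∀ x ∈ ER, ∃ m, 1 ≤ m ∧ (∀ i, 1 ≤ i → i ≤ m → D (f^[i] x)) ∧
      ¬ D (f^[m + 1] x) := by
    intro x hx
    obtain ⟨p, hp, hpx⟩ := E4_per hf x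
    have hex2 : ∃ m, ¬ D (f^[m + 1] x) :=
      ⟨p - 1, by rw [Nat.sub_add_cancel hp, hpx]; exact (hER x hx).1⟩
    refine ⟨Nat.find hex2, ?_, ?_, Nat.find_spec hex2⟩
    · by_contra h0
      have h0' : Nat.find hex2 = 0 := by omega
      have := Nat.find_spec hex2
      rw [h0'] at this
      exact this (hER x hx).2
    · intro i h1 h2
      have := Nat.find_min hex2 (m := i - 1) (by omega)
      rw [not_not, Nat.sub_add_cancel h1] at this
      exact this
  choose! m hm1 hm2 hm3 using hex1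
  have hmem : ∀ x ∈ ER, f^[m x] x ∈ LR :=
    fun x hx => hcon x hx (m x) (hm1 x hx) (hm2 x hx) (hm3 x hx)
  have key : ∀ (x y : X) (a b : ℕ), ¬ D x → (∀ i, 1 ≤ i → i ≤ b → D (f^[i] y)) →
      f^[a] x = f^[b] y → a ≤ b → x = y := by
    intro x y a b hx hb h hab
    have hxy : x = f^[b - a] y := by
      apply hf.iterate a
      rw [← Function.iterate_add_apply, show a + (b - a) = b by omega]
      exact h
    rcases Nat.eq_zero_or_pos (b - a) with h0 | h0
    · rw [h0] at hxy; exact hxy
    · exact absurd (hxy ▸ hb _ h0 (by omega)) hx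
  have hinj : Set.InjOn (fun x => f^[m x] x) (ER : Set X) := by
    intro x hx y hy h
    have h' : f^[m x] x = f^[m y] y := h
    rcases le_total (m x) (m y) with h1 | h1
    · exact key x y _ _ (hER x hx).1 (hm2 y hy) h' h1
    · exact (key y x _ _ (hER y hy).1 (hm2 x hx) h'.symm h1).symm
  have himg : ER.image (fun x => f^[m x] x) ⊆ LR.erase (f^[n] s) := by
    intro z hz
    obtain ⟨x, hx, rfl⟩ := Finset.mem_image.1 hz
    refine Finset.mem_erase.2 ⟨?_, hmem x hx⟩
    intro h
    have hxs : x = s := by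
      rcases le_total (m x) n with h1 | h1
      · exact key x s _ _ (hER x hx).1 hD h h1
      · exact (key s x _ _ hs (hm2 x hx) h.symm h1).symm
    exact hs' (hxs ▸ hx)
  have hle := Finset.card_le_card himg
  rw [Finset.card_image_of_injOn hinj, Finset.card_erase_of_mem hex] at hle
  have hpos : 0 < LR.card := Finset.card_pos.2 ⟨_, hex⟩
  omega

variable {V α : Type*} {g : α → Equiv.Perm V}

/-- The motion on the finite set of states. -/
private def E4_f (g : α → Equiv.Perm V) (l : List α) (s : Fin (l.length + 1) × V) :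
    Fin (l.length + 1) × V :=
  if h : s.1.val < l.length then (⟨s.1.val + 1, by omega⟩, g (l[s.1.val]) s.2) else (0, s.2)

private def E4_c {l : List α} (s : Fin (l.length + 1) × V) : ℕ × V := (s.1.val, s.2)

private theorem E4_T (l : List α) (s : Fin (l.length + 1) × V) :
    T g l (E4_c s) = E4_c (E4_f g l s) := by
  unfold T E4_f
  by_cases h : s.1.val < l.length
  · have h2 : l[(E4_c s).1]? = some (l[s.1.val]) := List.getElem?_eq_getElem h
    rw [h2, dif_pos h]
    rfl
  · have h2 : l[(E4_c s).1]? = none := List.getElem?_eq_none (by simpa [E4_c] using h)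
    rw [h2, dif_neg h]
    rfl

private theorem E4_iter (l : List α) (j : ℕ) (s : Fin (l.length + 1) × V) :
    (T g l)^[j] (E4_c s) = E4_c ((E4_f g l)^[j] s) := by
  induction j generalizing s with
  | zero => rfl
  | succ j ih => rw [Function.iterate_succ_apply, Function.iterate_succ_apply, E4_T, ih]

private theorem E4_inj (l : List α) : Function.Injective (E4_f g l) := by
  rintro ⟨k, v⟩ ⟨k', v'⟩ h
  unfold E4_f at h
  simp only at h
  split_ifs at h with h1 h2 h2
  · simp only [Prod.mk.injEq, Fin.mk.injEq, Nat.add_right_cancel_iff] at h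
    obtain ⟨ha, hb⟩ := h
    have hk : k = k' := Fin.ext ha
    subst hk
    simp only [EmbeddingLike.apply_eq_iff_eq] at hb
    rw [hb]
  · simp only [Prod.mk.injEq, Fin.ext_iff] at h
    simp at h
  · simp only [Prod.mk.injEq, Fin.ext_iff] at h
    simp at h
  · simp only [Prod.mk.injEq, true_and] at h
    have hk : k = k' := Fin.ext (by have := k.2; have := k'.2; omega)
    rw [hk, h]

/-- The state with the other end of the letter. -/
private def E4_psi (g : α → Equiv.Perm V) (l : List α) (s : Fin (l.length + 1) × V) :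
    Fin (l.length + 1) × V := (s.1, (E4_f g l s).2)

private theorem E4_psi_f (hg : ∀ a v, g a (g a v) = v) (l : List α)
    (s : Fin (l.length + 1) × V) : (E4_f g l (E4_psi g l s)).2 = s.2 := by
  obtain ⟨k, v⟩ := s
  unfold E4_psi E4_f
  by_cases h : k.val < l.length
  · simp [h, hg]
  · simp [h]

private theorem E4_psi_psi (hg : ∀ a v, g a (g a v) = v) (l : List α)
    (s : Fin (l.length + 1) × V) : E4_psi g l (E4_psi g l s) = s := by
  have h := E4_psi_f hg l s
  ext
  · rfl
  · exact h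

private theorem E4_step (l : List α) (s : Fin (l.length + 1) × V) :
    (E4_f g l s).2 = s.2 ∨ ∃ a, (E4_f g l s).2 = g a s.2 := by
  unfold E4_f
  split_ifs with h
  · exact Or.inr ⟨_, rfl⟩
  · exact Or.inl rfl

private theorem E4_cons [Finite V] (hg : ∀ a v, g a (g a v) = v) (D A B : Set V)
    (hAD : ∀ v ∈ A, v ∉ D) (hBD : ∀ v ∈ B, v ∉ D) (hAB : ∀ v ∈ A, v ∉ B)
    (hn : ∀ a, ∀ v ∈ D, g a v ∈ D ∨ g a v ∈ A ∨ g a v ∈ B) (hAB' : ∀ a, ∀ v ∈ A, g a v ∉ B)
    (l : List α) (h : ∃ a ∈ A, ∃ b ∈ B, Seg g D a b l) : ∃ b ∈ B, ∃ a ∈ A, Seg g D b a l := by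
  classical
  have := Fintype.ofFinite V
  obtain ⟨a, ha, b, hb, k, hk, n, hend, hD⟩ := h
  set s : Fin (l.length + 1) × V := (⟨k, by omega⟩, a) with hs
  have hcs : E4_c s = (k, a) := rfl
  set ER : Finset (Fin (l.length + 1) × V) :=
    Finset.univ.filter fun x => x.2 ∈ B ∧ (E4_f g l x).2 ∈ D with hER
  set LR : Finset (Fin (l.length + 1) × V) :=
    Finset.univ.filter fun x => x.2 ∈ D ∧ (E4_f g l x).2 ∈ B with hLR
  have hcard : ER.card = LR.card := by
    apply Finset.card_nbij' (E4_psi g l) (E4_psi g l)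
    · intro x hx
      simp only [hER, hLR, Finset.coe_filter, Finset.mem_univ, true_and, Set.mem_ofPred_eq] at hx ⊢
      exact ⟨hx.2, by rw [E4_psi_f hg]; exact hx.1⟩
    · intro x hx
      simp only [hER, hLR, Finset.coe_filter, Finset.mem_univ, true_and, Set.mem_ofPred_eq] at hx ⊢
      exact ⟨hx.2, by rw [E4_psi_f hg]; exact hx.1⟩
    · intro x _; exact E4_psi_psi hg l x
    · intro x _; exact E4_psi_psi hg l x
  have hit : ∀ j, ((T g l)^[j] (k, a)).2 = ((E4_f g l)^[j] s).2 := by
    intro j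
    rw [← hcs, E4_iter]
    rfl
  have hn1 : 1 ≤ n := by
    by_contra h0
    have h0' : n = 0 := by omega
    subst h0'
    rw [hit] at hend
    simp only [zero_add, Function.iterate_one] at hend
    rcases E4_step (g := g) l s with h1 | ⟨a', h1⟩
    · rw [h1] at hend
      exact hAB a ha (by have : a = b := hend
                         rw [this]; exact hb)
    · rw [h1] at hend
      exact hAB' a' a ha (by have : g a' a = b := hend
                             rw [this]; exact hb)
  obtain ⟨x, hx, m, hm1, hm2, hm3, hm4⟩ := E4_abs (E4_inj (g := g) l) (fun x => x.2 ∈ D) ER LR hcard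
    (by
      intro x hx
      simp only [hER, Finset.mem_filter, Finset.mem_univ, true_and] at hx
      exact ⟨hBD _ hx.1, hx.2⟩)
    s (hAD a ha)
    (by
      intro hx
      simp only [hER, Finset.mem_filter, Finset.mem_univ, true_and] at hx
      exact hAB a ha hx.1)
    n (by
      intro i h1 h2
      rw [← hit]
      exact hD i h1 h2)
    (by
      simp only [hLR, Finset.mem_filter, Finset.mem_univ, true_and]
      refine ⟨?_, ?_⟩
      · rw [← hit]; exact hD n hn1 le_rfl
      · rw [← Function.iterate_succ_apply' (E4_f g l) n s, ← hit, hend]; exact hb)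
  simp only [hER, Finset.mem_filter, Finset.mem_univ, true_and] at hx
  have hmD := hm2 m hm1 le_rfl
  have hfin : ((E4_f g l)^[m + 1] x).2 ∈ A := by
    rw [Function.iterate_succ_apply'] at hm3 ⊢
    rcases E4_step (g := g) l ((E4_f g l)^[m] x) with h1 | ⟨a', h1⟩
    · rw [h1] at hm3; exact absurd hmD hm3
    · rcases hn a' _ hmD with h2 | h2 | h2
      · rw [h1] at hm3; exact absurd h2 hm3
      · rw [h1]; exact h2
      · exfalso
        apply hm4
        simp only [hLR, Finset.mem_filter, Finset.mem_univ, true_and]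
        exact ⟨hmD, by rw [h1]; exact h2⟩
  have hit' : ∀ j, ((T g l)^[j] (x.1.val, x.2)).2 = ((E4_f g l)^[j] x).2 := by
    intro j
    have : (x.1.val, x.2) = E4_c x := rfl
    rw [this, E4_iter]
    rfl
  refine ⟨x.2, hx.1, _, hfin, x.1.val, by have := x.1.2; omega, m, ?_, ?_⟩
  · rw [hit']
  · intro i h1 h2
    rw [hit']
    exact hm2 i h1 h2

end

section

variable {L W n : ℕ} [NeZero L] [NeZero W]

omit [NeZero W] [NeZero L] in
private theorem E4_invol (e : Ed L W n) (v : Vx L W n) : gT L W n e (gT L W n e v) = v := by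
  unfold gT
  rw [← Equiv.Perm.mul_apply, Equiv.swap_mul_self, Equiv.Perm.one_apply]

omit [NeZero W] [NeZero L] in
private theorem E4_nbr (e : Ed L W n) (v : Vx L W n) :
    (gT L W n e v).1 = v.1 ∨ (gT L W n e v).1 = v.1 + 1 ∨ (gT L W n e v).1 = v.1 - 1 := by
  obtain ⟨u, b⟩ := e
  unfold gT
  rw [Equiv.swap_apply_def]
  cases b with
  | some j =>
    split_ifs with h1 h2
    · left; rw [h1]; simp [dir]
    · left; rw [h2]; simp [dir]
    · left; rfl
  | none =>
    split_ifs with h1 h2
    · right; left; rw [h1]; simp [dir]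
    · right; right; rw [h2]; simp [dir]
    · left; rfl

omit [NeZero L] in
private theorem E4_cast {a b : ℤ} (h : ((a : ℤ) : ZMod L) = ((b : ℤ) : ZMod L)) (h1 : a - b < L)
    (h2 : b - a < L) : a = b := by
  rw [← sub_eq_zero, ← Int.cast_sub, ZMod.intCast_zmod_eq_zero_iff_dvd] at h
  have := Int.eq_zero_of_abs_lt_dvd h (by rw [abs_lt]; constructor <;> linarith)
  linarith

/- E4 conservation -/
theorem cross_back (i m : ℤ) (hm : 2 ≤ m) (hmL : m + 2 ≤ L) (l : List (Ed L W n)) :
    Cross L W n i m l ↔ Cross' L W n i m l := by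
  have hAD : ∀ v ∈ col L W n i, v ∉ strip L W n (i + 1) (i + m - 1) := by
    rintro v hv ⟨i', h1, h2, h3⟩
    have hv' : v.1 = (i : ZMod L) := hv
    rw [hv'] at h3
    have := E4_cast h3 (by linarith) (by linarith)
    linarith
  have hBD : ∀ v ∈ col L W n (i + m), v ∉ strip L W n (i + 1) (i + m - 1) := by
    rintro v hv ⟨i', h1, h2, h3⟩
    have hv' : v.1 = ((i + m : ℤ) : ZMod L) := hv
    rw [hv'] at h3
    have := E4_cast h3 (by linarith) (by linarith)
    linarith
  have hAB : ∀ v ∈ col L W n i, v ∉ col L W n (i + m) := by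
    intro v hv hv2
    have hv' : v.1 = (i : ZMod L) := hv
    have hv2' : v.1 = ((i + m : ℤ) : ZMod L) := hv2
    rw [hv'] at hv2'
    have := E4_cast hv2' (by linarith) (by linarith)
    linarith
  have hn : ∀ e, ∀ v ∈ strip L W n (i + 1) (i + m - 1),
      gT L W n e v ∈ strip L W n (i + 1) (i + m - 1) ∨ gT L W n e v ∈ col L W n i ∨
        gT L W n e v ∈ col L W n (i + m) := by
    rintro e v ⟨i', h1, h2, h3⟩
    rcases E4_nbr e v with h | h | h
    · left; exact ⟨i', h1, h2, by rw [h, h3]⟩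
    · rw [h3] at h
      rcases lt_or_ge i' (i + m - 1) with h4 | h4
      · left; exact ⟨i' + 1, by linarith, by linarith, by rw [h]; push_cast; rfl⟩
      · right; right
        have : i' = i + m - 1 := le_antisymm h2 h4
        show (gT L W n e v).1 = ((i + m : ℤ) : ZMod L)
        rw [h, this]; push_cast; ring
    · rw [h3] at h
      rcases lt_or_ge (i + 1) i' with h4 | h4
      · left; exact ⟨i' - 1, by linarith, by linarith, by rw [h]; push_cast; rfl⟩
      · right; left
        have : i' = i + 1 := le_antisymm h4 h1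
        show (gT L W n e v).1 = (i : ZMod L)
        rw [h, this]; push_cast; ring
  have hAB' : ∀ e, ∀ v ∈ col L W n i, gT L W n e v ∉ col L W n (i + m) := by
    intro e v hv hv2
    have hv' : v.1 = (i : ZMod L) := hv
    have hv2' : (gT L W n e v).1 = ((i + m : ℤ) : ZMod L) := hv2
    rcases E4_nbr e v with h | h | h
    · rw [h, hv'] at hv2'
      have := E4_cast hv2' (by linarith) (by linarith)
      linarith
    · rw [h, hv'] at hv2'
      have h5 : ((i + 1 : ℤ) : ZMod L) = ((i + m : ℤ) : ZMod L) := by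
        rw [← hv2']; push_cast; rfl
      have := E4_cast h5 (by linarith) (by linarith)
      linarith
    · rw [h, hv'] at hv2'
      have h5 : ((i - 1 : ℤ) : ZMod L) = ((i + m : ℤ) : ZMod L) := by
        rw [← hv2']; push_cast; rfl
      have := E4_cast h5 (by linarith) (by linarith)
      linarith
  have hBA : ∀ v ∈ col L W n (i + m), v ∉ col L W n i := fun v hv hv2 => hAB v hv2 hv
  have hBA' : ∀ e, ∀ v ∈ col L W n (i + m), gT L W n e v ∉ col L W n i := by
    intro e v hv hv2
    have := hAB' e _ hv2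
    rw [E4_invol] at this
    exact this hv
  constructor
  · rintro ⟨y, y', h⟩
    obtain ⟨b, hb, a, ha, h'⟩ := E4_cons E4_invol _ (col L W n i) (col L W n (i + m)) hAD hBD hAB hn
      hAB' l ⟨_, rfl, _, rfl, h⟩
    have hb' : b.1 = ((i + m : ℤ) : ZMod L) := hb
    have ha' : a.1 = (i : ZMod L) := ha
    refine ⟨b.2, a.2, ?_⟩
    rw [← hb', ← ha']
    exact h'
  · rintro ⟨y, y', h⟩
    obtain ⟨a, ha, b, hb, h'⟩ := E4_cons E4_invol _ (col L W n (i + m)) (col L W n i) hBD hAD hBA
      (fun e v hv => by rcases hn e v hv with h | h | h <;> tauto) hBA' l ⟨_, rfl, _, rfl, h⟩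
    have hb' : b.1 = ((i + m : ℤ) : ZMod L) := hb
    have ha' : a.1 = (i : ZMod L) := ha
    refine ⟨a.2, b.2, ?_⟩
    rw [← hb', ← ha']
    exact h'

end

end Pool.Agent.ThinTori.Dim

/-! Stirring on thin tori of any dimension, row E5: windows -/


open Finset

namespace Pool.Agent.ThinTori.Dim

section

variable {L W n : ℕ} [NeZero L] [NeZero W]

private theorem E5_g (e : Ed L W n) (v : Vx L W n) :
    (gT L W n e v).1 = v.1 ∨ ((gT L W n e v).1 = v.1 + 1 ∧ e.2 = none ∧ e.1 = v) ∨
      (gT L W n e v).1 = v.1 - 1 := by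
  obtain ⟨u, b⟩ := e
  unfold gT
  dsimp only
  rcases eq_or_ne v u with rfl | h1
  · rw [Equiv.swap_apply_left]
    cases b
    · right; left; simp [dir]
    · left; simp [dir]
  · rcases eq_or_ne v (u + dir L W n b) with h2 | h2
    · rw [h2, Equiv.swap_apply_right]
      cases b
      · right; right; simp [dir]
      · left; simp [dir]
    · rw [Equiv.swap_apply_of_ne_of_ne h1 h2]
      left; rfl

private theorem E5_T (l : List (Ed L W n)) (s : ℕ × Vx L W n) :
    ∃ d : ℤ, -1 ≤ d ∧ d ≤ 1 ∧ (T (gT L W n) l s).2.1 = s.2.1 + (d : ZMod L) := by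
  unfold T
  split
  · rename_i a _
    rcases E5_g a s.2 with h | h | h
    · exact ⟨0, by norm_num, by norm_num, by simpa using h⟩
    · exact ⟨1, by norm_num, by norm_num, by simpa using h.1⟩
    · exact ⟨-1, by norm_num, by norm_num, by simpa [sub_eq_add_neg] using h⟩
  · exact ⟨0, by norm_num, by norm_num, by simp⟩

private theorem E5_cast (a b : ℤ) (h : (a : ZMod L) = (b : ZMod L)) (h1 : a - b < L)
    (h2 : b - a < L) : a = b := by
  have h3 : ((a - b : ℤ) : ZMod L) = 0 := by push_cast; rw [h, sub_self]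
  rw [ZMod.intCast_zmod_eq_zero_iff_dvd] at h3
  have h4 : a - b = 0 := by
    apply Int.eq_zero_of_abs_lt_dvd h3
    rw [abs_lt]; constructor <;> linarith
  linarith

/- E5 -/
theorem cross_mono (i m m' : ℤ) (hm : 1 ≤ m) (hmm : m ≤ m') (hmL : m' + 2 ≤ L)
    (l : List (Ed L W n)) (h : Cross L W n i m' l) : Cross L W n i m l := by
  classical
  obtain ⟨y, y', k, hk, N, hn, hs⟩ := h
  set p : ℕ → Vx L W n := fun j => ((T (gT L W n) l)^[j] (k, ((i : ZMod L), y))).2 with hp
  have hstep : ∀ j, ∃ d : ℤ, -1 ≤ d ∧ d ≤ 1 ∧ (p (j + 1)).1 = (p j).1 + (d : ZMod L) := by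
    intro j
    obtain ⟨d, h1, h2, h3⟩ := E5_T l ((T (gT L W n) l)^[j] (k, ((i : ZMod L), y)))
    refine ⟨d, h1, h2, ?_⟩
    simp only [hp]
    rw [Function.iterate_succ_apply']
    exact h3
  have hin : ∀ j, j ≤ N → (∀ j', 1 ≤ j' → j' ≤ j → (p j').1 ≠ ((i + m : ℤ) : ZMod L)) →
      ∃ a : ℤ, 0 ≤ a ∧ a ≤ m - 1 ∧ (1 ≤ j → 1 ≤ a) ∧ (p j).1 = ((i + a : ℤ) : ZMod L) := by
    intro j
    induction j with
    | zero =>
      intro _ _
      exact ⟨0, le_refl _, by linarith, by omega, by simp [hp]⟩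
    | succ j ih =>
      intro hj hno
      obtain ⟨a, ha0, ham, -, hpa⟩ := ih (by omega) (fun j' h1 h2 => hno j' h1 (by omega))
      obtain ⟨d, hd1, hd2, hd3⟩ := hstep j
      obtain ⟨b, hb1, hb2, hb3⟩ := hs (j + 1) (by omega) hj
      have hb3' : (p (j + 1)).1 = (b : ZMod L) := hb3
      have h5 : ((b : ℤ) : ZMod L) = ((i + a + d : ℤ) : ZMod L) := by
        rw [← hb3', hd3, hpa]; push_cast; ring
      have h6 : b = i + a + d := E5_cast b (i + a + d) h5 (by linarith) (by linarith)
      have h7 : b ≠ i + m := by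
        intro h8
        exact hno (j + 1) (by omega) le_rfl (by rw [hb3', h8])
      refine ⟨b - i, by linarith, ?_, fun _ => by linarith, ?_⟩
      · have : b - i ≤ m := by linarith
        have : b - i ≠ m := fun h8 => h7 (by linarith)
        omega
      · rw [hb3']; congr 1; ring
  have hex : ∃ j, 1 ≤ j ∧ j ≤ N + 1 ∧ (p j).1 = ((i + m : ℤ) : ZMod L) := by
    by_contra hcon
    push Not at hcon
    obtain ⟨a, ha0, ham, -, hpa⟩ := hin N le_rfl (fun j' h1 h2 => hcon j' h1 (by omega))
    obtain ⟨d, hd1, hd2, hd3⟩ := hstep N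
    have h1 : (p (N + 1)).1 = ((i + m' : ℤ) : ZMod L) := by
      have : p (N + 1) = (((i + m' : ℤ) : ZMod L), y') := hn
      rw [this]
    have h5 : ((i + m' : ℤ) : ZMod L) = ((i + a + d : ℤ) : ZMod L) := by
      rw [← h1, hd3, hpa]; push_cast; ring
    have h6 : i + m' = i + a + d := E5_cast _ _ h5 (by linarith) (by linarith)
    have h7 : m' = m := by linarith
    exact hcon (N + 1) (by omega) le_rfl (by rw [h1, h7])
  obtain ⟨hj1, hj2, hj3⟩ := Nat.find_spec hex
  have hmin : ∀ j', j' < Nat.find hex → ¬ (1 ≤ j' ∧ j' ≤ N + 1 ∧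
      (p j').1 = ((i + m : ℤ) : ZMod L)) := fun j' h => Nat.find_min hex h
  refine ⟨y, (p (Nat.find hex)).2, k, hk, Nat.find hex - 1, ?_, ?_⟩
  · rw [Nat.sub_add_cancel hj1]
    exact Prod.ext hj3 rfl
  · intro j h1 h2
    obtain ⟨a, ha0, ham, ha1, hpa⟩ := hin j (by omega) (fun j' h3 h4 h5 =>
      hmin j' (by omega) ⟨h3, by omega, h5⟩)
    exact ⟨i + a, by linarith [ha1 h1], by linarith, hpa⟩

private theorem E5_card {β : Type*} (p : β → Bool) (l : List β) (K : Finset ℕ)
    (h : ∀ k ∈ K, ∃ e, l[k]? = some e ∧ p e = true) : K.card ≤ l.countP p := by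
  induction l generalizing K with
  | nil =>
    have : K = ∅ := by
      apply Finset.eq_empty_of_forall_notMem
      intro k hk
      obtain ⟨e, he, _⟩ := h k hk
      simp at he
    simp [this]
  | cons a l ih =>
    have h1 : ((K.erase 0).image Nat.pred).card = (K.erase 0).card := by
      apply Finset.card_image_of_injOn
      intro x hx z hz hxz
      have hx0 : x ≠ 0 := Finset.ne_of_mem_erase hx
      have hz0 : z ≠ 0 := Finset.ne_of_mem_erase hz
      have : Nat.pred x = Nat.pred z := hxz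
      simp only [Nat.pred_eq_sub_one] at this
      omega
    have h2 := ih ((K.erase 0).image Nat.pred) (by
      intro k hk
      rw [Finset.mem_image] at hk
      obtain ⟨x, hx, rfl⟩ := hk
      have hx0 : x ≠ 0 := Finset.ne_of_mem_erase hx
      obtain ⟨e, he, hpe⟩ := h x (Finset.mem_of_mem_erase hx)
      refine ⟨e, ?_, hpe⟩
      obtain ⟨x', rfl⟩ := Nat.exists_eq_succ_of_ne_zero hx0
      simpa using he)
    rw [h1] at h2
    by_cases h0 : 0 ∈ K
    · obtain ⟨e, he, hpe⟩ := h 0 h0
      have hae : a = e := by simpa using he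
      subst hae
      rw [List.countP_cons_of_pos hpe]
      have := Finset.card_erase_add_one h0
      omega
    · rw [Finset.erase_eq_of_notMem h0] at h2
      rw [List.countP_cons]
      omega

private theorem E5_start (X : ℤ) (hX : X + 2 ≤ L) (l : List (Ed L W n)) (k : ℕ) (a : Vx L W n)
    (ha : a ∈ col L W n 0) (N : ℕ) (hn : 1 ≤ N)
    (hs : ∀ i, 1 ≤ i → i ≤ N → ((T (gT L W n) l)^[i] (k, a)).2 ∈ strip L W n 1 X) :
    l[k]? = some (a, none) ∧ a.1 = 0 := by
  have ha0 : a.1 = 0 := by
    have : a.1 = ((0 : ℤ) : ZMod L) := ha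
    simpa using this
  refine ⟨?_, ha0⟩
  obtain ⟨b, hb1, hb2, hb3⟩ := hs 1 le_rfl hn
  have h1 : (T (gT L W n) l (k, a)).2.1 = (b : ZMod L) := hb3
  unfold T at h1
  split at h1
  · rename_i e he
    have he' : l[k]? = some e := he
    rw [he']
    have h1' : (gT L W n e a).1 = (b : ZMod L) := h1
    rcases E5_g e a with h | h | h
    · exfalso
      have h2 : ((b : ℤ) : ZMod L) = ((0 : ℤ) : ZMod L) := by
        rw [← h1', h, ha0]; simp
      have := E5_cast b 0 h2 (by linarith) (by linarith)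
      linarith
    · obtain ⟨_, h3, h4⟩ := h
      have : e = (a, none) := Prod.ext h4 h3
      rw [this]
    · exfalso
      have h2 : ((b : ℤ) : ZMod L) = ((-1 : ℤ) : ZMod L) := by
        rw [← h1', h, ha0]; simp
      have := E5_cast b (-1) h2 (by linarith) (by linarith)
      linarith
  · exfalso
    have h1' : a.1 = (b : ZMod L) := h1
    have h2 : ((b : ℤ) : ZMod L) = ((0 : ℤ) : ZMod L) := by
      rw [← h1', ha0]; simp
    have := E5_cast b 0 h2 (by linarith) (by linarith)
    linarith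

open Classical in
/- E6: the windows `x = (W + 1) j`, `j ∈ s` -/
theorem win_count (s : Finset ℕ) (hs : ∀ j ∈ s, 1 ≤ j ∧ (W + 1) * (j + 1) + 1 ≤ L)
    (l : List (Ed L W n)) :
    (s.filter fun j => Win L W n (((W + 1) * j : ℕ) : ℤ) l).card ≤
      l.countP (fun e => e.2.isNone && decide (e.1.1 = 0)) := by
  -- start of the window
  have hdat : ∀ j, ∃ k : ℕ, j ∈ (s.filter fun j => Win L W n (((W + 1) * j : ℕ) : ℤ) l) →
      ∃ a : Vx L W n, l[k]? = some (a, none) ∧ a.1 = 0 ∧ ∃ N,
        ((T (gT L W n) l)^[N + 1] (k, a)).2.1 = 0 ∧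
        (∀ i, 1 ≤ i → i ≤ N → ((T (gT L W n) l)^[i] (k, a)).2 ∈
          strip L W n 1 ((((W + 1) * j : ℕ) : ℤ) + W)) ∧
        ∃ i, 1 ≤ i ∧ i ≤ N ∧ ((T (gT L W n) l)^[i] (k, a)).2.1 =
          ((((W + 1) * j : ℕ) : ℤ) : ZMod L) := by
    intro j
    by_cases hj : j ∈ (s.filter fun j => Win L W n (((W + 1) * j : ℕ) : ℤ) l)
    · have hj' := Finset.mem_filter.1 hj
      obtain ⟨k, hk, a, ha, N, hn, h1, i, hi1, hi2, hi3⟩ := hj'.2
      refine ⟨k, fun _ => ⟨a, ?_⟩⟩
      have hL : ((((W + 1) * j : ℕ) : ℤ) + W) + 2 ≤ L := by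
        have := (hs j hj'.1).2
        have h2 : (W + 1) * j + W + 2 ≤ L := by
          calc (W + 1) * j + W + 2 = (W + 1) * (j + 1) + 1 := by ring
            _ ≤ L := this
        exact_mod_cast h2
      obtain ⟨e1, e2⟩ := E5_start _ hL l k a ha N (by omega) h1
      refine ⟨e1, e2, N, ?_, h1, i, hi1, hi2, hi3⟩
      have : ((T (gT L W n) l)^[N + 1] (k, a)).2.1 = ((0 : ℤ) : ZMod L) := hn
      simpa using this
    · exact ⟨0, fun h => absurd h hj⟩
  choose f hf using hdat
  have hinj : Set.InjOn f ((s.filter fun j => Win L W n (((W + 1) * j : ℕ) : ℤ) l) : Set ℕ) := by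
    -- two windows with the same start
    have key : ∀ j j' : ℕ, j ∈ (s.filter fun j => Win L W n (((W + 1) * j : ℕ) : ℤ) l) →
        j' ∈ (s.filter fun j => Win L W n (((W + 1) * j : ℕ) : ℤ) l) → j < j' → f j ≠ f j' := by
      intro j j' hj hj' hlt hff
      obtain ⟨a, ha, ha0, N, hn, h1, i, hi1, hi2, hi3⟩ := hf j hj
      obtain ⟨a', ha', ha0', N', hn', h1', i', hi1', hi2', hi3'⟩ := hf j' hj'
      rw [← hff] at ha' hn' h1' hi3'
      have haa : a = a' := by
        rw [ha] at ha'
        have := Option.some.inj ha'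
        exact congrArg Prod.fst this
      subst haa
      have hLj : (((W + 1) * j : ℕ) : ℤ) + W + 2 ≤ L := by
        have := (hs j (Finset.mem_filter.1 hj).1).2
        have h2 : (W + 1) * j + W + 2 ≤ L := by
          calc (W + 1) * j + W + 2 = (W + 1) * (j + 1) + 1 := by ring
            _ ≤ L := this
        exact_mod_cast h2
      have hLj' : (((W + 1) * j' : ℕ) : ℤ) + W + 2 ≤ L := by
        have := (hs j' (Finset.mem_filter.1 hj').1).2
        have h2 : (W + 1) * j' + W + 2 ≤ L := by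
          calc (W + 1) * j' + W + 2 = (W + 1) * (j' + 1) + 1 := by ring
            _ ≤ L := this
        exact_mod_cast h2
      have hjj : (((W + 1) * j : ℕ) : ℤ) + W + 1 ≤ (((W + 1) * j' : ℕ) : ℤ) := by
        have h2 : (W + 1) * j + W + 1 ≤ (W + 1) * j' := by
          calc (W + 1) * j + W + 1 = (W + 1) * (j + 1) := by ring
            _ ≤ (W + 1) * j' := Nat.mul_le_mul_left _ hlt
        exact_mod_cast h2
      -- not zero in the strips
      have hnz : ∀ (X : ℤ) (q : Vx L W n), X + 2 ≤ L → q ∈ strip L W n 1 X → q.1 ≠ 0 := by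
        intro X q hX hq hq0
        obtain ⟨b, hb1, hb2, hb3⟩ := hq
        have h2 : ((b : ℤ) : ZMod L) = ((0 : ℤ) : ZMod L) := by
          rw [← hb3, hq0]; simp
        have := E5_cast b 0 h2 (by linarith) (by linarith)
        linarith
      have hnn : N' ≤ N := by
        by_contra hcon
        push Not at hcon
        exact hnz _ _ hLj' (h1' (N + 1) (by omega) hcon) hn
      obtain ⟨b, hb1, hb2, hb3⟩ := h1 i' hi1' (le_trans hi2' hnn)
      have h2 : ((b : ℤ) : ZMod L) = ((((W + 1) * j' : ℕ) : ℤ) : ZMod L) := by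
        rw [← hb3, hi3']
      have h4 := E5_cast b _ h2 (by linarith) (by linarith)
      linarith
    intro j hj j' hj' hff
    rcases lt_trichotomy j j' with h | h | h
    · exact absurd hff (key j j' hj hj' h)
    · exact h
    · exact absurd hff.symm (key j' j hj' hj h)
  rw [← Finset.card_image_of_injOn hinj]
  apply E5_card
  intro k hk
  rw [Finset.mem_image] at hk
  obtain ⟨j, hj, rfl⟩ := hk
  obtain ⟨a, ha, ha0, _⟩ := hf j hj
  refine ⟨(a, none), ha, ?_⟩
  simp [ha0]

end

end Pool.Agent.ThinTori.Dim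

/-! Stirring on thin tori, row E7: confinement of the cycles -/


open Finset

namespace Pool.Agent.ThinTori.Dim

section E7aux

variable {V α : Type*}

private lemma E7_time (g : α → Equiv.Perm V) (l : List α) (s : ℕ × V) :
    (T g l s).1 ≤ l.length := by
  unfold T
  rcases h : l[s.1]? with _ | a
  · exact Nat.zero_le _
  · obtain ⟨h1, -⟩ := List.getElem?_eq_some_iff.1 h
    exact h1

private lemma E7_time_iter (g : α → Equiv.Perm V) (l : List α) (x : V) (n : ℕ) :
    ((T g l)^[n] (0, x)).1 ≤ l.length := by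
  cases n with
  | zero => exact Nat.zero_le _
  | succ n =>
    rw [Function.iterate_succ_apply']
    exact E7_time g l _

private lemma E7_seg (g : α → Equiv.Perm V) (l : List α) (D : Set V) (x : V) (n' n : ℕ)
    (hn : n' < n) (hD : ∀ i, n' < i → i < n → ((T g l)^[i] (0, x)).2 ∈ D) :
    Seg g D ((T g l)^[n'] (0, x)).2 ((T g l)^[n] (0, x)).2 l := by
  refine ⟨((T g l)^[n'] (0, x)).1, E7_time_iter g l x n', n - n' - 1, ?_, ?_⟩
  · rw [Prod.mk.eta, ← Function.iterate_add_apply]
    congr 3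
    omega
  · intro i h1 h2
    rw [Prod.mk.eta, ← Function.iterate_add_apply]
    exact hD _ (by omega) (by omega)

/-- the orbit over one lap -/
private lemma E7_lap (g : α → Equiv.Perm V) (hg : ∀ a, (g a)⁻¹ = g a) (l₀ l : List α) (v : V)
    (l' : List α) (hl : l' = l₀ ++ l) :
    (T g l')^[l.length] (l₀.length, v) = (l'.length, ((l.map g).prod)⁻¹ v) := by
  induction l generalizing l₀ v with
  | nil =>
    subst hl
    simp
  | cons a l ih =>
    have h1 : T g l' (l₀.length, v) = (l₀.length + 1, g a v) := by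
      unfold T
      have h2 : l'[l₀.length]? = some a := by
        rw [hl]
        simp
      simp only [h2]
    have h3 := ih (l₀ ++ [a]) (g a v) (by rw [hl]; simp)
    rw [List.length_cons, Function.iterate_succ_apply, h1]
    rw [List.length_append, List.length_singleton] at h3
    rw [h3, List.map_cons, List.prod_cons, mul_inv_rev, hg]
    rfl

private lemma E7_return (g : α → Equiv.Perm V) (hg : ∀ a, (g a)⁻¹ = g a) (l : List α) (v : V) :
    (T g l)^[l.length + 1] (0, v) = (0, ((l.map g).prod)⁻¹ v) := by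
  have h := E7_lap g hg [] l v l rfl
  rw [Function.iterate_succ_apply', show (0, v) = (([] : List α).length, v) from rfl, h]
  unfold T
  have h2 : l[l.length]? = none := by simp
  simp only [h2]

private lemma E7_cycle [Finite V] (g : α → Equiv.Perm V) (hg : ∀ a, (g a)⁻¹ = g a) (l : List α)
    (x y : V) (h : (l.map g).prod.SameCycle x y) : ∃ n, ((T g l)^[n] (0, x)).2 = y := by
  have h1 := Equiv.Perm.sameCycle_inv.2 h
  obtain ⟨j, hj⟩ := h1.exists_pow_eq'
  have h2 : ∀ j : ℕ, (T g l)^[(l.length + 1) * j] (0, x) = (0, (((l.map g).prod)⁻¹ ^ j) x) := by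
    intro j
    induction j with
    | zero => simp
    | succ j ih =>
      rw [Nat.mul_succ, Nat.add_comm, Function.iterate_add_apply, ih, E7_return g hg, pow_succ',
        Equiv.Perm.mul_apply]
  exact ⟨(l.length + 1) * j, by rw [h2 j]; exact hj.2⟩

/-- the last passage, going up -/
private lemma E7_up (z : ℕ → ℤ) (hz : ∀ n, z (n + 1) ≤ z n + 1) (B : ℤ) (h0 : z 0 ≤ B) (n : ℕ)
    (hn : B < z n) : ∃ n' < n, z n' = B ∧ ∀ i, n' < i → i ≤ n → B + 1 ≤ z i := by
  induction n with
  | zero => omega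
  | succ n ih =>
    by_cases h : B < z n
    · obtain ⟨n', h1, h2, h3⟩ := ih h
      refine ⟨n', by omega, h2, fun i hi hi' => ?_⟩
      rcases Nat.lt_or_ge n i with h4 | h4
      · have : i = n + 1 := by omega
        subst this
        omega
      · exact h3 i hi h4
    · have h1 := hz n
      refine ⟨n, by omega, by omega, fun i hi hi' => ?_⟩
      have : i = n + 1 := by omega
      subst this
      omega

/-- the last passage, going down -/
private lemma E7_down (z : ℕ → ℤ) (hz : ∀ n, z n ≤ z (n + 1) + 1) (A : ℤ) (h0 : A ≤ z 0) (n : ℕ)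
    (hn : z n < A) : ∃ n' < n, z n' = A ∧ ∀ i, n' < i → i ≤ n → z i ≤ A - 1 := by
  obtain ⟨n', h1, h2, h3⟩ := E7_up (fun n => -z n) (fun n => by have := hz n; omega)
    (-A) (by omega) n (by omega)
  refine ⟨n', h1, by omega, fun i hi hi' => ?_⟩
  have := h3 i hi hi'
  omega

end E7aux

section

variable {L W n : ℕ} [NeZero L] [NeZero W]

omit [NeZero L] [NeZero W] in
private lemma E7_inv (e : Ed L W n) : (gT L W n e)⁻¹ = gT L W n e := by
  unfold gT
  exact Equiv.swap_inv _ _

omit [NeZero L] [NeZero W] in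
private lemma E7_gT (e : Ed L W n) (v : Vx L W n) :
    ∃ d : ℤ, (-1 ≤ d ∧ d ≤ 1) ∧ (gT L W n e v).1 = v.1 + (d : ZMod L) := by
  unfold gT
  by_cases h1 : v = e.1
  · rw [h1, Equiv.swap_apply_left]
    rcases h : e.2 with _ | j
    · exact ⟨1, ⟨by norm_num, by norm_num⟩, by simp [dir]⟩
    · exact ⟨0, ⟨by norm_num, by norm_num⟩, by simp [dir]⟩
  by_cases h2 : v = e.1 + dir L W n e.2
  · rw [h2, Equiv.swap_apply_right]
    rcases h : e.2 with _ | j
    · exact ⟨-1, ⟨by norm_num, by norm_num⟩, by simp [dir]⟩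
    · exact ⟨0, ⟨by norm_num, by norm_num⟩, by simp [dir]⟩
  · rw [Equiv.swap_apply_of_ne_of_ne h1 h2]
    exact ⟨0, ⟨by norm_num, by norm_num⟩, by simp⟩

omit [NeZero L] [NeZero W] in
private lemma E7_step (l : List (Ed L W n)) (s : ℕ × Vx L W n) :
    ∃ d : ℤ, (-1 ≤ d ∧ d ≤ 1) ∧ (T (gT L W n) l s).2.1 = s.2.1 + (d : ZMod L) := by
  unfold T
  rcases h : l[s.1]? with _ | e
  · exact ⟨0, ⟨by norm_num, by norm_num⟩, by simp⟩
  · exact E7_gT e s.2

omit [NeZero L] [NeZero W] in
private lemma E7_lift (l : List (Ed L W n)) (x : Vx L W n) (X : ℤ) (hX : x.1 = (X : ZMod L)) :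
    ∃ z : ℕ → ℤ, z 0 = X ∧ (∀ q, z (q + 1) ≤ z q + 1) ∧ (∀ q, z q ≤ z (q + 1) + 1) ∧
      ∀ q, ((T (gT L W n) l)^[q] (0, x)).2.1 = (z q : ZMod L) := by
  choose d hd1 hd2 using E7_step (L := L) (W := W) l
  refine ⟨fun q => X + ∑ i ∈ Finset.range q, d ((T (gT L W n) l)^[i] (0, x)), by simp, ?_, ?_, ?_⟩
  · intro q
    have := hd1 ((T (gT L W n) l)^[q] (0, x))
    simp only [Finset.sum_range_succ]
    omega
  · intro q
    have := hd1 ((T (gT L W n) l)^[q] (0, x))
    simp only [Finset.sum_range_succ]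
    omega
  · intro q
    induction q with
    | zero => simpa using hX
    | succ q ih =>
      rw [Function.iterate_succ_apply', hd2, ih]
      simp only [Finset.sum_range_succ]
      push_cast
      ring

omit [NeZero L] [NeZero W] in
/-- the particle stays between the two good blocks -/
private lemma E7_stay (l : List (Ed L W n)) (k A B X : ℤ) (hA : A + k ≤ X) (hB : X ≤ B) (hk : 1 ≤ k)
    (hcA : ¬ Cross' L W n A k l) (hcB : ¬ Cross L W n B k l) (x : Vx L W n) (hx : x.1 = (X : ZMod L))
    (q : ℕ) : ∃ i ∈ Finset.Icc (A + 1) (B + k - 1), ((T (gT L W n) l)^[q] (0, x)).2.1 = (i : ZMod L) := by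
  obtain ⟨z, h0, hup, hdown, hz⟩ := E7_lift l x X hx
  have key : ∀ q, A + 1 ≤ z q ∧ z q ≤ B + k - 1 := by
    intro q
    induction q using Nat.strong_induction_on with
    | _ q ih =>
      by_contra hcon
      have hn0 : q ≠ 0 := by
        intro h
        subst h
        omega
      obtain ⟨p, rfl⟩ : ∃ p, q = p + 1 := ⟨q - 1, by omega⟩
      have h1 := ih p (by omega)
      have h2 := hup p
      have h3 := hdown p
      rcases le_or_gt (z (p + 1)) A with h4 | h4
      · -- crosses the left block to the left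
        have h5 : z (p + 1) = A := by omega
        obtain ⟨q', h6, h7, h8⟩ := E7_down z hdown (A + k) (by omega) (p + 1) (by omega)
        apply hcA
        refine ⟨((T (gT L W n) l)^[q'] (0, x)).2.2, ((T (gT L W n) l)^[p + 1] (0, x)).2.2, ?_⟩
        have h9 := E7_seg (gT L W n) l (strip L W n (A + 1) (A + k - 1)) x q' (p + 1) h6 (by
          intro i hi hi'
          have h10 := h8 i hi hi'.le
          have h11 := ih i hi'
          exact ⟨z i, by omega, by omega, hz i⟩)
        have e1 : ((T (gT L W n) l)^[q'] (0, x)).2 =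
            (((A + k : ℤ) : ZMod L), ((T (gT L W n) l)^[q'] (0, x)).2.2) :=
          Prod.ext (by rw [hz, h7]) rfl
        have e2 : ((T (gT L W n) l)^[p + 1] (0, x)).2 =
            ((A : ZMod L), ((T (gT L W n) l)^[p + 1] (0, x)).2.2) :=
          Prod.ext (by rw [hz, h5]) rfl
        rw [e1, e2] at h9
        exact h9
      · have h5 : z (p + 1) = B + k := by omega
        obtain ⟨q', h6, h7, h8⟩ := E7_up z hup B (by omega) (p + 1) (by omega)
        apply hcB
        refine ⟨((T (gT L W n) l)^[q'] (0, x)).2.2, ((T (gT L W n) l)^[p + 1] (0, x)).2.2, ?_⟩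
        have h9 := E7_seg (gT L W n) l (strip L W n (B + 1) (B + k - 1)) x q' (p + 1) h6 (by
          intro i hi hi'
          have h10 := h8 i hi hi'.le
          have h11 := ih i hi'
          exact ⟨z i, by omega, by omega, hz i⟩)
        have e1 : ((T (gT L W n) l)^[q'] (0, x)).2 =
            ((B : ZMod L), ((T (gT L W n) l)^[q'] (0, x)).2.2) :=
          Prod.ext (by rw [hz, h7]) rfl
        have e2 : ((T (gT L W n) l)^[p + 1] (0, x)).2 =
            (((B + k : ℤ) : ZMod L), ((T (gT L W n) l)^[p + 1] (0, x)).2.2) :=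
          Prod.ext (by rw [hz, h5]) rfl
        rw [e1, e2] at h9
        exact h9
  exact ⟨z q, Finset.mem_Icc.2 (key q), hz q⟩

/-- the size of the cycle -/
private lemma E7_card (l : List (Ed L W n)) (k A B X : ℤ) (hA : A + k ≤ X) (hB : X ≤ B) (hk : 1 ≤ k)
    (hcA : ¬ Cross' L W n A k l) (hcB : ¬ Cross L W n B k l) (x : Vx L W n) (hx : x.1 = (X : ZMod L))
    (S : Finset (Vx L W n)) (hS : ∀ y ∈ S, (l.map (gT L W n)).prod.SameCycle x y) :
    S.card ≤ (B + k - 1 - A).toNat * W ^ n := by
  classical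
  have h1 : S ⊆ ((Finset.Icc (A + 1) (B + k - 1)) ×ˢ (Finset.univ : Finset (Fin n → ZMod W))).image
      (fun p => ((p.1 : ZMod L), p.2)) := by
    intro y hy
    obtain ⟨q, hn⟩ := E7_cycle (gT L W n) E7_inv l x y (hS y hy)
    obtain ⟨i, hi, hi'⟩ := E7_stay l k A B X hA hB hk hcA hcB x hx q
    refine Finset.mem_image.2 ⟨(i, y.2), Finset.mem_product.2 ⟨hi, Finset.mem_univ _⟩, ?_⟩
    rw [hn] at hi'
    exact Prod.ext hi'.symm rfl
  have h2 := (Finset.card_le_card h1).trans Finset.card_image_le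
  rw [Finset.card_product, Int.card_Icc, Finset.card_univ, Fintype.card_fun, ZMod.card,
    Fintype.card_fin] at h2
  refine h2.trans_eq ?_
  congr 2
  ring

/- E7: there is a block which is not crossed among the `m` blocks of `k₀` columns to the right of the
column `i` of `x`, and one among the `m` blocks to the left -/
theorem confined (m k₀ : ℕ) (hm : 1 ≤ m) (hk : 2 ≤ k₀) (hL : 2 * m * k₀ + 2 ≤ L) (x : Vx L W n)
    (i : ℤ) (hi : x.1 = (i : ZMod L)) (l : List (Ed L W n))
    (hright : ∃ b < m, ¬ Cross L W n (i + b * k₀) k₀ l)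
    (hleft : ∃ b < m, ¬ Cross L W n (i - (b + 1) * k₀) k₀ l) :
    cyc L W n x l ≤ (2 * m * k₀ + 1) * W ^ n := by
  classical
  obtain ⟨b, hb, hcb⟩ := hright
  obtain ⟨c, hc, hcc⟩ := hleft
  have hM : 1 * k₀ ≤ m * k₀ := Nat.mul_le_mul_right _ hm
  have hL' : 2 * (m * k₀) + 2 ≤ L := by
    rw [← Nat.mul_assoc]
    exact hL
  have hcc' : ¬ Cross' L W n (i - ((c : ℤ) + 1) * k₀) k₀ l := by
    rw [← cross_back _ _ (by exact_mod_cast hk) (by
      have : k₀ + 2 ≤ L := by omega
      exact_mod_cast this)]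
    exact hcc
  have hb' : ((b : ℤ) + 1) * k₀ ≤ m * k₀ :=
    mul_le_mul_of_nonneg_right (by exact_mod_cast hb) (by positivity)
  have hc' : ((c : ℤ) + 1) * k₀ ≤ m * k₀ :=
    mul_le_mul_of_nonneg_right (by exact_mod_cast hc) (by positivity)
  have hb0 : (0 : ℤ) ≤ b * k₀ := by positivity
  have hc0 : (0 : ℤ) ≤ c * k₀ := by positivity
  have e1 : ((b : ℤ) + 1) * k₀ = b * k₀ + k₀ := by ring
  have e2 : ((c : ℤ) + 1) * k₀ = c * k₀ + k₀ := by ring
  have h1 := E7_card l k₀ (i - ((c : ℤ) + 1) * k₀) (i + b * k₀) i (by omega) (by omega)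
    (by exact_mod_cast (by omega : 1 ≤ k₀)) hcc' hcb x hi
    (Finset.univ.filter fun y => (l.map (gT L W n)).prod.SameCycle x y)
    (fun y hy => (Finset.mem_filter.1 hy).2)
  have h2 : cyc L W n x l =
      (Finset.univ.filter fun y => (l.map (gT L W n)).prod.SameCycle x y).card := by
    unfold cyc
    congr 1
  rw [h2]
  refine h1.trans (Nat.mul_le_mul_right _ ?_)
  rw [Int.toNat_le]
  push_cast
  have e3 : (2 : ℤ) * m * k₀ = m * k₀ + m * k₀ := by ring
  omega

end

end Pool.Agent.ThinTori.Dim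

/-! Stirring on thin tori of any dimension, row F1: translations, reflections, reversal -/


open Finset

namespace Pool.Agent.ThinTori.Dim

section

variable {V α : Type*} {g : α → Equiv.Perm V}

private theorem F1_map_symm_map (e : Equiv.Perm α) (l : List α) : (l.map e).map e.symm = l := by
  rw [List.map_map]
  simp

private theorem F1_symm (φ : Equiv.Perm V) (e : Equiv.Perm α) (h : ∀ a v, g (e a) (φ v) = φ (g a v))
    (a : α) (v : V) : g (e.symm a) (φ.symm v) = φ.symm (g a v) := by
  have h1 := h (e.symm a) (φ.symm v)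
  rw [e.apply_symm_apply, φ.apply_symm_apply] at h1
  rw [h1, φ.symm_apply_apply]

private theorem F1_Conn_iff (φ : Equiv.Perm V) (e : Equiv.Perm α)
    (h : ∀ a v, g (e a) (φ v) = φ (g a v)) (D : Set V) (x y : V) (l : List α) :
    Conn g (φ '' D) (φ x) (φ y) (l.map e) ↔ Conn g D x y l := by
  constructor
  · intro hC
    have h1 := Conn_transport (g := g) φ.symm e.symm (φ '' D) D
      (by rintro _ ⟨v, hv, rfl⟩; simpa using hv) (fun a v _ => F1_symm φ e h a v) _ _ _ hC
    rw [F1_map_symm_map, φ.symm_apply_apply, φ.symm_apply_apply] at h1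
    exact h1
  · intro hC
    exact Conn_transport (g := g) φ e D (φ '' D) (fun v hv => ⟨v, hv, rfl⟩) (fun a v _ => h a v) _ _ _ hC

private theorem F1_Seg_iff (φ : Equiv.Perm V) (e : Equiv.Perm α)
    (h : ∀ a v, g (e a) (φ v) = φ (g a v)) (D : Set V) (x y : V) (l : List α) :
    Seg g (φ '' D) (φ x) (φ y) (l.map e) ↔ Seg g D x y l := by
  constructor
  · intro hC
    have h1 := Seg_transport (g := g) φ.symm e.symm (φ '' D) D
      (by rintro _ ⟨v, hv, rfl⟩; simpa using hv) (fun a v _ => F1_symm φ e h a v) _ _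
      (fun a => F1_symm φ e h a _) _ hC
    rw [F1_map_symm_map, φ.symm_apply_apply, φ.symm_apply_apply] at h1
    exact h1
  · intro hC
    exact Seg_transport (g := g) φ e D (φ '' D) (fun v hv => ⟨v, hv, rfl⟩) (fun a v _ => h a v) _ _
      (fun a => h a _) _ hC

private theorem F1_T (φ : V → V) (e : α → α) (h : ∀ a v, g (e a) (φ v) = φ (g a v)) (l : List α)
    (k : ℕ) (v : V) : T g (l.map e) (k, φ v) = ((T g l (k, v)).1, φ (T g l (k, v)).2) := by
  unfold T
  simp only [List.getElem?_map]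
  cases l[k]? with
  | none => simp
  | some a => simp [h]

private theorem F1_T_iter (φ : V → V) (e : α → α) (h : ∀ a v, g (e a) (φ v) = φ (g a v)) (l : List α)
    (k : ℕ) (v : V) (n : ℕ) :
    (T g (l.map e))^[n] (k, φ v) = (((T g l)^[n] (k, v)).1, φ ((T g l)^[n] (k, v)).2) := by
  induction n with
  | zero => simp
  | succ n ih =>
    rw [Function.iterate_succ_apply', Function.iterate_succ_apply', ih]
    exact F1_T φ e h l _ _

end

section

variable {L W n : ℕ}

/-- The translation of the letters. -/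
private def F1_e (u : Vx L W n) : Equiv.Perm (Ed L W n) :=
  (Equiv.addRight u).prodCongr (Equiv.refl (Option (Fin n)))

private theorem F1_e_spec (u : Vx L W n) (a : Ed L W n) (v : Vx L W n) :
    gT L W n (F1_e u a) (Equiv.addRight u v) = Equiv.addRight u (gT L W n a v) := by
  obtain ⟨w, b⟩ := a
  rw [gT, gT, (Equiv.addRight u).injective.map_swap]
  congr 2
  show w + u + _ = w + _ + u
  rw [add_right_comm]
  rfl

/-- The reflection of the vertices. -/
private def F1_r (m : Fin n) (v : Vx L W n) : Vx L W n := (v.1, Function.update v.2 m (-v.2 m))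

private theorem F1_r_inv (m : Fin n) : Function.Involutive (F1_r m : Vx L W n → Vx L W n) := by
  rintro ⟨v, w⟩
  simp [F1_r]

private theorem F1_r_add (m : Fin n) (v w : Vx L W n) : F1_r m (v + w) = F1_r m v + F1_r m w := by
  refine Prod.ext rfl ?_
  funext j
  by_cases hj : j = m
  · subst hj
    simp [F1_r, add_comm]
  · simp [F1_r, hj]

private theorem F1_r_neg (m : Fin n) (v : Vx L W n) : F1_r m (-v) = -F1_r m v := by
  refine Prod.ext rfl ?_
  funext j
  by_cases hj : j = m
  · subst hj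
    simp [F1_r]
  · simp [F1_r, hj]

private theorem F1_r_dir (m : Fin n) (o : Option (Fin n)) (h : o ≠ some m) :
    F1_r m (dir L W n o) = dir L W n o := by
  cases o with
  | none =>
    refine Prod.ext rfl ?_
    funext j
    by_cases hj : j = m
    · subst hj
      simp [F1_r, dir]
    · simp [F1_r, dir]
  | some i =>
    have hi : i ≠ m := fun h' => h (by rw [h'])
    refine Prod.ext rfl ?_
    funext j
    by_cases hj : j = m
    · subst hj
      simp [F1_r, dir, Pi.single_eq_of_ne hi.symm]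
    · simp [F1_r, dir, hj]

private theorem F1_r_dir' (m : Fin n) :
    F1_r m (dir L W n (some m)) = -dir L W n (some m) := by
  refine Prod.ext (by simp [F1_r, dir]) ?_
  funext j
  by_cases hj : j = m
  · subst hj
    simp [F1_r, dir]
  · simp [F1_r, dir, hj]

/-- The reflection of the letters. -/
private def F1_f (m : Fin n) (a : Ed L W n) : Ed L W n :=
  (if a.2 = some m then F1_r m a.1 - dir L W n (some m) else F1_r m a.1, a.2)

private theorem F1_f_inv (m : Fin n) : Function.Involutive (F1_f m : Ed L W n → Ed L W n) := by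
  rintro ⟨v, o⟩
  by_cases h : o = some m
  · subst h
    simp only [F1_f, if_true]
    have h1 : F1_r m (F1_r m v - dir L W n (some m)) = v + dir L W n (some m) := by
      rw [sub_eq_add_neg, F1_r_add, F1_r_neg, F1_r_dir', F1_r_inv, neg_neg]
    rw [h1, add_sub_cancel_right]
  · simp only [F1_f, if_neg h]
    rw [F1_r_inv]

private theorem F1_f_spec (m : Fin n) (a : Ed L W n) (v : Vx L W n) :
    gT L W n ((F1_f_inv m).toPerm (F1_f m) a) ((F1_r_inv m).toPerm (F1_r m) v) =
      (F1_r_inv m).toPerm (F1_r m) (gT L W n a v) := by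
  obtain ⟨w, o⟩ := a
  rw [gT, gT, ((F1_r_inv m).toPerm (F1_r m)).injective.map_swap]
  show Equiv.swap (F1_f m (w, o)).1 ((F1_f m (w, o)).1 + dir L W n o) (F1_r m v) =
    Equiv.swap (F1_r m w) (F1_r m (w + dir L W n o)) (F1_r m v)
  by_cases h : o = some m
  · subst h
    simp only [F1_f, if_true]
    rw [sub_add_cancel, F1_r_add, F1_r_dir', Equiv.swap_comm, sub_eq_add_neg]
  · simp only [F1_f, if_neg h]
    rw [F1_r_add, F1_r_dir m o h]

private theorem F1_shift_set (u : Vx L W n) (D : Set (Vx L W n)) :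
    (fun v => v + u) '' D = Equiv.addRight u '' D := rfl

private theorem F1_shift_strip (i m : ℤ) :
    Equiv.addRight (((i : ℤ) : ZMod L), (0 : Fin n → ZMod W)) '' strip L W n (0 + 1) (0 + m - 1) =
      strip L W n (i + 1) (i + m - 1) := by
  ext v
  constructor
  · rintro ⟨w, ⟨j, h1, h2, h3⟩, rfl⟩
    refine ⟨j + i, by omega, by omega, ?_⟩
    show w.1 + (i : ZMod L) = _
    rw [h3]
    push_cast
    rfl
  · rintro ⟨j, h1, h2, h3⟩
    refine ⟨v - (((i : ℤ) : ZMod L), (0 : Fin n → ZMod W)), ⟨j - i, by omega, by omega, ?_⟩, by simp⟩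
    show v.1 - (i : ZMod L) = _
    rw [h3]
    push_cast
    rfl

end

section

variable {L W n : ℕ} [NeZero L] [NeZero W] {t : ℝ}

private theorem F1_P (e : Equiv.Perm (Ed L W n)) (A B : List (Ed L W n) → Prop)
    (h : ∀ l, B (l.map e) ↔ A l) : P L W n t A = P L W n t B := by
  have h1 : A = fun l => B (l.map e) := by
    funext l
    exact propext (h l).symm
  unfold P
  rw [h1]
  exact Pr_perm (fun _ => t) e (fun _ => rfl) B

theorem P_Conn_shift (u : Vx L W n) (D : Set (Vx L W n)) (x y : Vx L W n) :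
    P L W n t (Conn (gT L W n) D x y) =
      P L W n t (Conn (gT L W n) ((fun v => v + u) '' D) (x + u) (y + u)) := by
  rw [F1_shift_set]
  exact F1_P (F1_e u) _ _ fun l => F1_Conn_iff (Equiv.addRight u) (F1_e u) (F1_e_spec u) D x y l

theorem P_Seg_shift (u : Vx L W n) (D : Set (Vx L W n)) (x y : Vx L W n) :
    P L W n t (Seg (gT L W n) D x y) =
      P L W n t (Seg (gT L W n) ((fun v => v + u) '' D) (x + u) (y + u)) := by
  rw [F1_shift_set]
  exact F1_P (F1_e u) _ _ fun l => F1_Seg_iff (Equiv.addRight u) (F1_e u) (F1_e_spec u) D x y l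

theorem P_Cross_shift (i m : ℤ) : P L W n t (Cross L W n i m) = P L W n t (Cross L W n 0 m) := by
  symm
  refine F1_P (F1_e (((i : ℤ) : ZMod L), (0 : Fin n → ZMod W))) _ _ fun l => ?_
  unfold Cross
  refine exists_congr fun y => exists_congr fun y' => ?_
  rw [← F1_Seg_iff (Equiv.addRight (((i : ℤ) : ZMod L), (0 : Fin n → ZMod W))) (F1_e _) (F1_e_spec _)
    (strip L W n (0 + 1) (0 + m - 1)) _ _ l, F1_shift_strip]
  have h1 : (Equiv.addRight (((i : ℤ) : ZMod L), (0 : Fin n → ZMod W)))
      ((((0 : ℤ) : ZMod L), y) : Vx L W n) = ((i : ZMod L), y) := by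
    simp
  have h2 : (Equiv.addRight (((i : ℤ) : ZMod L), (0 : Fin n → ZMod W)))
      (((((0 : ℤ) + m : ℤ) : ZMod L), y') : Vx L W n) = (((i + m : ℤ) : ZMod L), y') := by
    simp [add_comm]
  rw [h1, h2]

theorem P_Exit_shift (R : ℤ) (x : Vx L W n) :
    P L W n t (Exit L W n R x) = P L W n t (Exit L W n R (pt L W n 0 0)) := by
  symm
  refine F1_P (F1_e x) _ _ fun l => ?_
  unfold Exit
  refine exists_congr fun k => ?_
  have h0 : pt L W n 0 0 = 0 := by
    refine Prod.ext ?_ ?_
    · simp [pt]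
    · funext j
      simp [pt]
  rw [h0]
  have h1 := F1_T_iter (g := gT L W n) (Equiv.addRight x) (F1_e x) (F1_e_spec x) l 0 0 k
  have h2 : (Equiv.addRight x) (0 : Vx L W n) = x := by simp
  rw [h2] at h1
  rw [h1]
  simp

/-- reflection of the coordinate `m` -/
theorem P_Conn_flip (m : Fin n) (D : Set (Vx L W n)) (x y : Vx L W n) :
    P L W n t (Conn (gT L W n) D x y) =
      P L W n t (Conn (gT L W n) ((fun v => (v.1, Function.update v.2 m (-v.2 m))) '' D)
        (x.1, Function.update x.2 m (-x.2 m)) (y.1, Function.update y.2 m (-y.2 m))) :=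
  F1_P ((F1_f_inv m).toPerm (F1_f m)) _ _ fun l =>
    F1_Conn_iff ((F1_r_inv m).toPerm (F1_r m)) ((F1_f_inv m).toPerm (F1_f m)) (F1_f_spec m) D x y l

theorem P_Conn_reverse (D : Set (Vx L W n)) (x y : Vx L W n) :
    P L W n t (Conn (gT L W n) D x y) = P L W n t (Conn (gT L W n) D y x) := by
  have hg : ∀ a v, gT L W n a (gT L W n a v) = v := fun a v => by
    unfold gT
    exact Equiv.swap_apply_self _ _ _
  have h1 : Conn (gT L W n) D x y = fun l => Conn (gT L W n) D y x l.reverse := by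
    funext l
    refine propext ⟨fun h => Conn_reverse hg D x y l h, fun h => ?_⟩
    have h2 := Conn_reverse hg D y x _ h
    rwa [List.reverse_reverse] at h2
  unfold P
  rw [h1]
  exact Pr_reverse _ _

end

end Pool.Agent.ThinTori.Dim

/-! Stirring on thin tori of any dimension, row F2: the sides of the box are alike -/


open Finset

namespace Pool.Agent.ThinTori.Dim

section

variable {L W n : ℕ} [NeZero L] [NeZero W] {t : ℝ}

omit [NeZero L] [NeZero W] in
private theorem F2_swap_apply_eq (φ : Vx L W n → Vx L W n) (hφ : Function.Injective φ)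
    (a b v : Vx L W n) : Equiv.swap (φ a) (φ b) (φ v) = φ (Equiv.swap a b v) := by
  classical
  rcases eq_or_ne v a with h1 | h1
  · subst h1
    rw [Equiv.swap_apply_left, Equiv.swap_apply_left]
  · rcases eq_or_ne v b with h2 | h2
    · subst h2
      rw [Equiv.swap_apply_right, Equiv.swap_apply_right]
    · rw [Equiv.swap_apply_of_ne_of_ne h1 h2,
        Equiv.swap_apply_of_ne_of_ne (hφ.ne h1) (hφ.ne h2)]

/-- a symmetry (an involution) of the set `D` and of the letters does not change the probability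
of `Reach` -/
private theorem F2_transport (φ : Vx L W n → Vx L W n) (e : Ed L W n → Ed L W n)
    (he : ∀ a, e (e a) = a) (hφφ : ∀ v, φ (φ v) = v) (D : Set (Vx L W n))
    (hφ : ∀ v ∈ D, φ v ∈ D)
    (h : ∀ a, ∀ v ∈ D, gT L W n (e a) (φ v) = φ (gT L W n a v)) (x b : Vx L W n) :
    P L W n t (Reach (gT L W n) D x b) = P L W n t (Reach (gT L W n) D (φ x) (φ b)) := by
  have h1 := Pr_perm (fun _ : Ed L W n => t) ⟨e, e, he, he⟩ (fun _ => rfl)
    (Reach (gT L W n) D (φ x) (φ b))
  unfold P
  rw [← h1]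
  congr 1
  funext l
  apply propext
  have hcoe : l.map (⟨e, e, he, he⟩ : Equiv.Perm (Ed L W n)) = l.map e := rfl
  rw [hcoe]
  constructor
  · exact fun hR => Reach_transport φ e D D hφ h x b l hR
  · intro hR
    have h2 := Reach_transport φ e D D hφ h (φ x) (φ b) (l.map e) hR
    rw [hφφ, hφφ, List.map_map] at h2
    have h3 : (e ∘ e) = id := funext he
    rwa [h3, List.map_id] at h2

/-! Integer coordinates -/

private def F2_q (w : Option (Fin n) → ℤ) : Vx L W n :=
  ((w none : ZMod L), fun j => (w (some j) : ZMod W))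

omit [NeZero L] [NeZero W] in
private theorem F2_pt_eq (i : ℤ) (u : Fin n → ℤ) :
    pt L W n i u = F2_q (fun o => o.elim i u) := rfl

omit [NeZero L] [NeZero W] in
private theorem F2_q_add (w : Option (Fin n) → ℤ) (o : Option (Fin n)) :
    (F2_q w : Vx L W n) + dir L W n o = F2_q (w + Pi.single o 1) := by
  classical
  cases o with
  | none =>
    refine Prod.ext ?_ ?_
    · simp [F2_q, dir]
    · funext j
      simp [F2_q, dir]
  | some k =>
    refine Prod.ext ?_ ?_
    · simp [F2_q, dir]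
    · funext j
      by_cases hj : j = k
      · subst hj
        simp [F2_q, dir]
      · simp [F2_q, dir, hj]

omit [NeZero L] [NeZero W] in
private theorem F2_mem_box (R : ℤ) (v : Vx L W n) (h : v ∈ box L W n R) :
    ∃ w : Option (Fin n) → ℤ, (∀ o, |w o| ≤ R - 1) ∧ v = F2_q w := by
  obtain ⟨i, u, h1, h2, h3⟩ := h
  refine ⟨fun o => o.elim i u, ?_, h3⟩
  intro o
  cases o with
  | none => exact h1
  | some j => exact h2 j

omit [NeZero L] [NeZero W] in
private theorem F2_box_mem (R : ℤ) (w : Option (Fin n) → ℤ) (hw : ∀ o, |w o| ≤ R - 1) :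
    (F2_q w : Vx L W n) ∈ box L W n R :=
  ⟨w none, fun j => w (some j), hw none, fun j => hw (some j), rfl⟩

/-! The reflection of the long coordinate -/

private def F2_c (v : Vx L W n) : Vx L W n := (-v.1, v.2)

private def F2_ce (a : Ed L W n) : Ed L W n :=
  match a.2 with
  | none => ((-a.1.1 - 1, a.1.2), none)
  | some j => ((-a.1.1, a.1.2), some j)

omit [NeZero L] [NeZero W] in
private theorem F2_cc (v : Vx L W n) : F2_c (F2_c v) = v := by
  simp [F2_c]

omit [NeZero L] [NeZero W] in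
private theorem F2_cece (a : Ed L W n) : F2_ce (F2_ce a) = a := by
  obtain ⟨⟨x, y⟩, o⟩ := a
  cases o <;> simp [F2_ce]

omit [NeZero L] [NeZero W] in
private theorem F2_c_gT (a : Ed L W n) (v : Vx L W n) :
    gT L W n (F2_ce a) (F2_c v) = F2_c (gT L W n a v) := by
  obtain ⟨⟨x, y⟩, o⟩ := a
  have hinj : Function.Injective (F2_c : Vx L W n → Vx L W n) :=
    fun u w h => by rw [← F2_cc u, h, F2_cc]
  cases o with
  | none =>
    have h0 : gT L W n (F2_ce ((x, y), none)) =
        Equiv.swap (F2_c ((x, y) + dir L W n none)) (F2_c (x, y)) := by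
      unfold gT F2_ce F2_c dir
      congr 1
      · simp [sub_eq_add_neg, add_comm]
      · simp
    rw [h0, F2_swap_apply_eq F2_c hinj, Equiv.swap_comm]
    rfl
  | some j =>
    have h0 : gT L W n (F2_ce ((x, y), some j)) =
        Equiv.swap (F2_c (x, y)) (F2_c ((x, y) + dir L W n (some j))) := by
      unfold gT F2_ce F2_c dir
      congr 1
      simp
    rw [h0, F2_swap_apply_eq F2_c hinj]
    rfl

omit [NeZero L] [NeZero W] in
private theorem F2_c_pt (i : ℤ) (u : Fin n → ℤ) : F2_c (pt L W n i u) = pt L W n (-i) u := by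
  simp [F2_c, pt]

omit [NeZero L] [NeZero W] in
private theorem F2_c_box (R : ℤ) (v : Vx L W n) (hv : v ∈ box L W n R) :
    F2_c v ∈ box L W n R := by
  obtain ⟨i, u, h1, h2, rfl⟩ := hv
  exact ⟨-i, u, by rwa [abs_neg], h2, F2_c_pt i u⟩

/-! The exchange of coordinates -/

private noncomputable def F2_w (v : Vx L W n) : Option (Fin n) → ℤ :=
  fun o => o.elim v.1.valMinAbs fun j => (v.2 j).valMinAbs

open Classical in
private noncomputable def F2_x (σ : Option (Fin n) → Option (Fin n)) (R : ℤ) (v : Vx L W n) :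
    Vx L W n :=
  if ∀ o, |F2_w v o| ≤ R then F2_q fun o => F2_w v (σ o) else v

open Classical in
private noncomputable def F2_xe (σ : Option (Fin n) → Option (Fin n)) (R : ℤ) (a : Ed L W n) :
    Ed L W n :=
  if ∀ o, |F2_w a.1 o| ≤ R then (F2_x σ R a.1, σ a.2) else a

private theorem F2_lift {N : ℕ} [NeZero N] {R : ℤ} (hN : 2 * R + 1 ≤ N) {i : ℤ} (hi : |i| ≤ R) :
    ((i : ℤ) : ZMod N).valMinAbs = i := by
  have h := abs_le.1 hi
  refine (ZMod.valMinAbs_spec _ _).2 ⟨rfl, ?_⟩
  constructor <;> omega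

private theorem F2_w_q {R : ℤ} (hL : 2 * R + 1 ≤ L) (hW : 2 * R + 1 ≤ W)
    (w : Option (Fin n) → ℤ) (hw : ∀ o, |w o| ≤ R) : F2_w (F2_q w : Vx L W n) = w := by
  funext o
  cases o with
  | none => exact F2_lift hL (hw none)
  | some j => exact F2_lift hW (hw (some j))

omit [NeZero L] [NeZero W] in
private theorem F2_q_w (v : Vx L W n) : F2_q (F2_w v) = v := by
  refine Prod.ext ?_ ?_
  · simp [F2_q, F2_w]
  · funext j
    simp [F2_q, F2_w]

private theorem F2_x_q (σ : Option (Fin n) → Option (Fin n)) {R : ℤ} (hL : 2 * R + 1 ≤ L)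
    (hW : 2 * R + 1 ≤ W) (w : Option (Fin n) → ℤ) (hw : ∀ o, |w o| ≤ R) :
    F2_x σ R (F2_q w : Vx L W n) = F2_q fun o => w (σ o) := by
  unfold F2_x
  rw [F2_w_q hL hW w hw, if_pos hw]

private theorem F2_xx (σ : Option (Fin n) → Option (Fin n)) (hσ : ∀ o, σ (σ o) = o) {R : ℤ}
    (hL : 2 * R + 1 ≤ L) (hW : 2 * R + 1 ≤ W) (v : Vx L W n) :
    F2_x σ R (F2_x σ R v) = v := by
  by_cases h : ∀ o, |F2_w v o| ≤ R
  · have h1 : F2_x σ R v = F2_q fun o => F2_w v (σ o) := by
      unfold F2_x
      rw [if_pos h]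
    rw [h1, F2_x_q σ hL hW _ (fun o => h (σ o))]
    simp only [hσ]
    exact F2_q_w v
  · have h1 : F2_x σ R v = v := by
      unfold F2_x
      rw [if_neg h]
    rw [h1, h1]

private theorem F2_xe_q (σ : Option (Fin n) → Option (Fin n)) {R : ℤ} (hL : 2 * R + 1 ≤ L)
    (hW : 2 * R + 1 ≤ W) (w : Option (Fin n) → ℤ) (hw : ∀ o, |w o| ≤ R) (o : Option (Fin n)) :
    F2_xe σ R ((F2_q w : Vx L W n), o) = (F2_q (fun o => w (σ o)), σ o) := by
  unfold F2_xe
  simp only
  rw [F2_w_q hL hW w hw, if_pos hw, F2_x_q σ hL hW w hw]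

private theorem F2_xexe (σ : Option (Fin n) → Option (Fin n)) (hσ : ∀ o, σ (σ o) = o) {R : ℤ}
    (hL : 2 * R + 1 ≤ L) (hW : 2 * R + 1 ≤ W) (a : Ed L W n) :
    F2_xe σ R (F2_xe σ R a) = a := by
  obtain ⟨v, o⟩ := a
  by_cases h : ∀ o, |F2_w v o| ≤ R
  · have h1 := F2_xe_q σ hL hW (F2_w v) h o
    rw [F2_q_w] at h1
    rw [h1, F2_xe_q σ hL hW _ (fun o => h (σ o))]
    simp only [hσ]
    rw [F2_q_w]
  · have h1 : F2_xe σ R (v, o) = (v, o) := by
      unfold F2_xe
      rw [if_neg h]
    rw [h1, h1]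

private theorem F2_single (σ : Option (Fin n) → Option (Fin n)) (hσ : ∀ o, σ (σ o) = o)
    (o : Option (Fin n)) (z : ℤ) :
    (fun o' => (Pi.single o z : Option (Fin n) → ℤ) (σ o')) = Pi.single (σ o) z := by
  funext o'
  by_cases h : o' = σ o
  · subst h
    rw [hσ, Pi.single_eq_same, Pi.single_eq_same]
  · have h2 : σ o' ≠ o := fun hh => h (by rw [← hh, hσ])
    rw [Pi.single_eq_of_ne h2, Pi.single_eq_of_ne h]

private theorem F2_single_abs (o o' : Option (Fin n)) :
    |(Pi.single o (1 : ℤ) : Option (Fin n) → ℤ) o'| ≤ 1 := by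
  by_cases h : o' = o
  · subst h
    rw [Pi.single_eq_same]; norm_num
  · rw [Pi.single_eq_of_ne h]; norm_num

private theorem F2_x_move (σ : Option (Fin n) → Option (Fin n)) (hσ : ∀ o, σ (σ o) = o) {R : ℤ}
    (hL : 2 * R + 1 ≤ L) (hW : 2 * R + 1 ≤ W)
    (a : Ed L W n) (v : Vx L W n) (hv : v ∈ box L W n R) (hm : gT L W n a v ≠ v) :
    gT L W n (F2_xe σ R a) (F2_x σ R v) = F2_x σ R (gT L W n a v) := by
  obtain ⟨w, hw, rfl⟩ := F2_mem_box R v hv
  have hw0 : ∀ o, |w o| ≤ R := fun o => by have := hw o; omega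
  obtain ⟨p, o⟩ := a
  have hends : F2_q w = p ∨ F2_q w = p + dir L W n o := by
    by_contra hcon
    push Not at hcon
    exact hm (Equiv.swap_apply_of_ne_of_ne hcon.1 hcon.2)
  rcases hends with h1 | h1
  · subst h1
    have e1 : gT L W n (F2_q w, o) (F2_q w) = F2_q (w + Pi.single o 1) := by
      unfold gT
      rw [Equiv.swap_apply_left]
      exact F2_q_add w o
    have hw1 : ∀ o', |(w + Pi.single o 1 : Option (Fin n) → ℤ) o'| ≤ R := by
      intro o'
      have h2 := F2_single_abs o o'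
      have h3 := hw o'
      have h4 := abs_add_le (w o') ((Pi.single o (1 : ℤ) : Option (Fin n) → ℤ) o')
      rw [Pi.add_apply]
      omega
    rw [e1, F2_xe_q σ hL hW w hw0, F2_x_q σ hL hW w hw0, F2_x_q σ hL hW _ hw1]
    unfold gT
    rw [Equiv.swap_apply_left, F2_q_add, ← F2_single σ hσ o 1]
    rfl
  · have hp : p = F2_q (w - Pi.single o 1) := by
      have h2 := F2_q_add (L := L) (W := W) (w - Pi.single o 1) o
      rw [sub_add_cancel, h1] at h2
      exact (add_right_cancel h2).symm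
    subst hp
    have hw1 : ∀ o', |(w - Pi.single o 1 : Option (Fin n) → ℤ) o'| ≤ R := by
      intro o'
      have h2 := F2_single_abs o o'
      have h3 := hw o'
      have h4 := abs_sub (w o') ((Pi.single o (1 : ℤ) : Option (Fin n) → ℤ) o')
      rw [Pi.sub_apply]
      omega
    have e1 : gT L W n (F2_q (w - Pi.single o 1), o) (F2_q w) =
        F2_q (w - Pi.single o 1) := by
      rw [h1]
      exact Equiv.swap_apply_right _ _
    rw [e1, F2_xe_q σ hL hW _ hw1, F2_x_q σ hL hW w hw0, F2_x_q σ hL hW _ hw1]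
    have e2 : (F2_q (fun o => w (σ o)) : Vx L W n) =
        F2_q (fun o' => (w - Pi.single o 1 : Option (Fin n) → ℤ) (σ o')) + dir L W n (σ o) := by
      rw [F2_q_add, ← F2_single σ hσ o 1]
      congr 1
      funext o'
      simp
    rw [e2]
    exact Equiv.swap_apply_right _ _

private theorem F2_x_box (σ : Option (Fin n) → Option (Fin n)) {R : ℤ} (hL : 2 * R + 1 ≤ L)
    (hW : 2 * R + 1 ≤ W) (v : Vx L W n) (hv : v ∈ box L W n R) :
    F2_x σ R v ∈ box L W n R := by
  obtain ⟨w, hw, rfl⟩ := F2_mem_box R v hv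
  rw [F2_x_q σ hL hW w (fun o => by have := hw o; omega)]
  exact F2_box_mem R _ fun o => hw (σ o)

private theorem F2_x_gT (σ : Option (Fin n) → Option (Fin n)) (hσ : ∀ o, σ (σ o) = o) {R : ℤ}
    (hL : 2 * R + 1 ≤ L) (hW : 2 * R + 1 ≤ W)
    (a : Ed L W n) (v : Vx L W n) (hv : v ∈ box L W n R) :
    gT L W n (F2_xe σ R a) (F2_x σ R v) = F2_x σ R (gT L W n a v) := by
  by_cases hm : gT L W n a v = v
  · rw [hm]
    by_contra hcon
    have h1 := F2_x_move σ hσ hL hW (F2_xe σ R a) (F2_x σ R v) (F2_x_box σ hL hW v hv) hcon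
    rw [F2_xexe σ hσ hL hW, F2_xx σ hσ hL hW, hm] at h1
    have h2 := congrArg (F2_x σ R) h1
    rw [F2_xx σ hσ hL hW] at h2
    exact hcon h2.symm
  · exact F2_x_move σ hσ hL hW a v hv hm

/-- the exchange of the long coordinate with the coordinate `m` -/
private theorem F2_exchange (R : ℤ) (hL : 2 * R + 1 ≤ L) (hW : 2 * R + 1 ≤ W) (m : Fin n)
    (i : ℤ) (hi : |i| ≤ R) (u : Fin n → ℤ) (hu : ∀ j, |u j| ≤ R) (h0 : 0 ≤ R) :
    P L W n t (Reach (gT L W n) (box L W n R) (pt L W n 0 0) (pt L W n i u)) =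
      P L W n t (Reach (gT L W n) (box L W n R) (pt L W n 0 0)
        (pt L W n (u m) (Function.update u m i))) := by
  classical
  have hσ : ∀ o : Option (Fin n), Equiv.swap none (some m) (Equiv.swap none (some m) o) = o :=
    fun o => Equiv.swap_apply_self _ _ _
  rw [F2_transport (F2_x (Equiv.swap none (some m)) R) (F2_xe (Equiv.swap none (some m)) R)
    (F2_xexe _ hσ hL hW) (F2_xx _ hσ hL hW) (box L W n R)
    (F2_x_box _ hL hW) (F2_x_gT _ hσ hL hW)]
  have hz : F2_x (Equiv.swap none (some m)) R (pt L W n 0 0) = pt L W n 0 0 := by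
    rw [F2_pt_eq, F2_x_q _ hL hW _ (by
      intro o
      cases o <;> simpa using h0)]
    congr 1
    funext o
    cases Equiv.swap none (some m) o <;> cases o <;> rfl
  have hb : F2_x (Equiv.swap none (some m)) R (pt L W n i u) =
      pt L W n (u m) (Function.update u m i) := by
    rw [F2_pt_eq, F2_x_q _ hL hW _ (by
      intro o
      cases o with
      | none => exact hi
      | some j => exact hu j), F2_pt_eq]
    congr 1
    funext o
    cases o with
    | none => rw [Equiv.swap_apply_left]; rfl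
    | some j =>
      by_cases hj : j = m
      · subst hj
        rw [Equiv.swap_apply_right]
        simp
      · rw [Equiv.swap_apply_of_ne_of_ne (by simp) (by simpa using hj)]
        simp [hj]
  rw [hz, hb]

theorem P_sides (R : ℤ) (hR : 1 ≤ R) (hL : 2 * R + 1 ≤ L) (hW : 2 * R + 1 ≤ W)
    (c : Fin n → ℤ) (hc : c ∈ cube n R) :
    P L W n t (Reach (gT L W n) (box L W n R) (pt L W n 0 0) (pt L W n (-R) c)) =
      P L W n t (Reach (gT L W n) (box L W n R) (pt L W n 0 0) (pt L W n R c)) ∧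
    ∀ m : Fin n,
      P L W n t (Reach (gT L W n) (box L W n R) (pt L W n 0 0)
          (pt L W n (c m) (Function.update c m R))) =
        P L W n t (Reach (gT L W n) (box L W n R) (pt L W n 0 0) (pt L W n R c)) ∧
      P L W n t (Reach (gT L W n) (box L W n R) (pt L W n 0 0)
          (pt L W n (c m) (Function.update c m (-R)))) =
        P L W n t (Reach (gT L W n) (box L W n R) (pt L W n 0 0) (pt L W n R c)) := by
  have hc' : ∀ j, |c j| ≤ R - 1 := by
    intro j
    have h := Finset.mem_Icc.1 (Fintype.mem_piFinset.1 hc j)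
    exact abs_le.2 h
  have hc0 : ∀ j, |c j| ≤ R := fun j => by have := hc' j; omega
  have hR0 : |R| ≤ R := by rw [abs_le]; constructor <;> omega
  have hR1 : |-R| ≤ R := by rw [abs_neg]; exact hR0
  have hflip : P L W n t (Reach (gT L W n) (box L W n R) (pt L W n 0 0) (pt L W n (-R) c)) =
      P L W n t (Reach (gT L W n) (box L W n R) (pt L W n 0 0) (pt L W n R c)) := by
    rw [F2_transport F2_c F2_ce F2_cece F2_cc (box L W n R) (F2_c_box R)
      (fun a v _ => F2_c_gT a v), F2_c_pt, F2_c_pt, neg_zero, neg_neg]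
  refine ⟨hflip, fun m => ⟨?_, ?_⟩⟩
  · rw [F2_exchange R hL hW m (c m) (hc0 m) (Function.update c m R) ?_ (by omega)]
    · rw [Function.update_self, Function.update_idem, Function.update_eq_self]
    · intro j
      by_cases hj : j = m
      · subst hj; rw [Function.update_self]; exact hR0
      · rw [Function.update_of_ne hj]; exact hc0 j
  · rw [F2_exchange R hL hW m (c m) (hc0 m) (Function.update c m (-R)) ?_ (by omega)]
    · rw [Function.update_self, Function.update_idem, Function.update_eq_self]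
      exact hflip
    · intro j
      by_cases hj : j = m
      · subst hj; rw [Function.update_self]; exact hR1
      · rw [Function.update_of_ne hj]; exact hc0 j

end

end Pool.Agent.ThinTori.Dim

/-! Stirring on thin tori of any dimension, row F3: masses of letters, isolation, unit step -/


open Finset

namespace Pool.Agent.ThinTori.Dim

section

variable {L W n : ℕ} [NeZero L] [NeZero W] {t : ℝ}

omit [NeZero L] [NeZero W] in
private theorem F3_isSw : IsSw (gT L W n) := fun _ => ⟨_, _, rfl⟩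

theorem inc_mass (ht : 0 ≤ t) (S : Set (Vx L W n)) :
    ∑ a, restr (fun _ : Ed L W n => t) (inc (gT L W n) S) a ≤ 2 * (n + 1) * t * S.ncard := by
  classical
  have hsub : (Finset.univ.filter fun a : Ed L W n => inc (gT L W n) S a = true) ⊆
      S.toFinset.biUnion fun v =>
        (Finset.univ.image fun p : Bool × Option (Fin n) =>
          ((if p.1 then (v, p.2) else (v - dir L W n p.2, p.2)) : Ed L W n)) := by
    intro a ha
    rw [Finset.mem_filter] at ha
    obtain ⟨v, hv, hmv⟩ : ∃ v ∈ S, gT L W n a v ≠ v := by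
      have h2 := ha.2
      unfold inc at h2
      exact @of_decide_eq_true _ (_) h2
    rw [Finset.mem_biUnion]
    refine ⟨v, by rw [Set.mem_toFinset]; exact hv, ?_⟩
    obtain ⟨u, b⟩ := a
    unfold gT at hmv
    have hor : v = u ∨ v = u + dir L W n b := by
      by_contra hcon
      push Not at hcon
      exact hmv (Equiv.swap_apply_of_ne_of_ne hcon.1 hcon.2)
    rw [Finset.mem_image]
    rcases hor with rfl | h
    · exact ⟨(true, b), Finset.mem_univ _, by simp⟩
    · refine ⟨(false, b), Finset.mem_univ _, ?_⟩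
      rw [h]
      simp
  have hcard : (Finset.univ.filter fun a : Ed L W n => inc (gT L W n) S a = true).card ≤
      S.ncard * (2 * (n + 1)) := by
    refine le_trans (Finset.card_le_card hsub) ?_
    rw [Set.ncard_eq_toFinset_card']
    refine Finset.card_biUnion_le_card_mul _ _ _ fun v _ => ?_
    refine le_trans Finset.card_image_le ?_
    rw [Finset.card_univ, Fintype.card_prod, Fintype.card_bool, Fintype.card_option,
      Fintype.card_fin]
  have hsum : ∑ a, restr (fun _ : Ed L W n => t) (inc (gT L W n) S) a =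
      ((Finset.univ.filter fun a : Ed L W n => inc (gT L W n) S a = true).card : ℝ) * t := by
    unfold restr
    rw [← Finset.sum_filter, Finset.sum_const, nsmul_eq_mul]
  rw [hsum]
  have h4 : ((Finset.univ.filter fun a : Ed L W n => inc (gT L W n) S a = true).card : ℝ) ≤
      (S.ncard : ℝ) * (2 * (n + 1)) := by exact_mod_cast hcard
  calc _ ≤ (S.ncard : ℝ) * (2 * (n + 1)) * t := mul_le_mul_of_nonneg_right h4 ht
    _ = _ := by ring

theorem P_iso (ht : 0 ≤ t) (D : Set (Vx L W n)) (a b : Vx L W n) (ha : a ∉ D) (hb : b ∉ D)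
    (hab : a ≠ b) :
    P L W n t (Seg (gT L W n) D a b) ≤
      Real.exp (4 * (n + 1) * t) * P L W n t (Conn (gT L W n) (D ∪ {a, b}) a b) := by
  classical
  unfold P
  have h := Pr_delete (c := fun _ : Ed L W n => t) (fun _ => ht) (inc (gT L W n) {a, b})
    (Seg (gT L W n) D a b) (Conn (gT L W n) (D ∪ {a, b}) a b)
    (fun l hl => iso F3_isSw D a b ha hb hab l hl)
  refine le_trans h ?_
  have hm : ∑ x, restr (fun _ : Ed L W n => t) (inc (gT L W n) {a, b}) x ≤
      4 * (n + 1) * t := by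
    refine le_trans (inc_mass ht {a, b}) ?_
    have h2 : (({a, b} : Set (Vx L W n)).ncard : ℝ) ≤ 2 := by
      have h3 := Set.ncard_insert_le a ({b} : Set (Vx L W n))
      rw [Set.ncard_singleton] at h3
      exact_mod_cast h3
    calc 2 * ((n : ℝ) + 1) * t * (({a, b} : Set (Vx L W n)).ncard : ℝ) ≤
          2 * ((n : ℝ) + 1) * t * 2 := mul_le_mul_of_nonneg_left h2 (by positivity)
      _ = _ := by ring
  exact mul_le_mul_of_nonneg_right (Real.exp_le_exp.2 hm) (Pr_nonneg (fun _ => ht) _)

theorem P_unit (ht : 0 ≤ t) (hW : 2 ≤ W) (m : Fin n) (z : Vx L W n) :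
    Real.exp (-(4 * (n + 1) * t)) * (1 - Real.exp (-t)) ≤
      P L W n t (Conn (gT L W n) {z, z + dir L W n (some m)} z (z + dir L W n (some m))) := by
  classical
  have hne : z ≠ z + dir L W n (some m) := by
    intro h
    have h1 : dir L W n (some m) = 0 := by
      have := congrArg (fun w => w - z) h
      simpa using this.symm
    have h2 : (1 : ZMod W) = 0 := by
      have h3 := congrFun (congrArg Prod.snd h1) m
      simpa [dir] using h3
    have : Fact (1 < W) := ⟨hW⟩
    exact one_ne_zero h2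
  have h1 := P_iso (L := L) (W := W) (n := n) ht ∅ z (z + dir L W n (some m))
    (Set.notMem_empty _) (Set.notMem_empty _) hne
  rw [Set.empty_union] at h1
  have h2 : 1 - Real.exp (-t) ≤ P L W n t (Seg (gT L W n) ∅ z (z + dir L W n (some m))) := by
    unfold P
    have h3 := Pr_none (fun _ : Ed L W n => t) (fun a => decide (a = (z, some m)))
    have h4 : ∑ a, restr (fun _ : Ed L W n => t) (fun a => decide (a = (z, some m))) a = t := by
      unfold restr
      simp
    rw [h4] at h3
    rw [← h3, ← Pr_not]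
    refine Pr_mono (fun _ => ht) fun l hl => ?_
    push Not at hl
    obtain ⟨a, hal, hane⟩ := hl
    obtain rfl : a = (z, some m) := by
      by_contra hcon
      exact hane (by simp [hcon])
    obtain ⟨k, hk, hke⟩ := List.mem_iff_getElem.1 hal
    refine ⟨k, hk.le, 0, ?_, fun i h1 h2 => absurd (le_trans h1 h2) (by norm_num)⟩
    have hk2 : l[k]? = some (z, some m) := by rw [List.getElem?_eq_getElem hk, hke]
    show (T (gT L W n) l (k, z)).2 = z + dir L W n (some m)
    unfold T
    rw [hk2]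
    show gT L W n (z, some m) z = z + dir L W n (some m)
    unfold gT
    simp
  have h5 : Real.exp (-(4 * (n + 1) * t)) *
      P L W n t (Seg (gT L W n) ∅ z (z + dir L W n (some m))) ≤
      P L W n t (Conn (gT L W n) {z, z + dir L W n (some m)} z (z + dir L W n (some m))) := by
    have h6 := mul_le_mul_of_nonneg_left h1 (Real.exp_pos (-(4 * (n + 1) * t))).le
    rw [← mul_assoc, ← Real.exp_add, neg_add_cancel, Real.exp_zero, one_mul] at h6
    exact h6
  exact le_trans (mul_le_mul_of_nonneg_left h2 (Real.exp_pos _).le) h5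

end

end Pool.Agent.ThinTori.Dim

/-! Stirring on thin tori of any dimension, row F6: moves -/


open Finset

namespace Pool.Agent.ThinTori.Dim

section

variable {L W n : ℕ} [NeZero L] [NeZero W] {t : ℝ}

private theorem F6_cast_ne {q : ℕ} {i j : ℤ} (h1 : i < j) (h2 : j - i < q) :
    (i : ZMod q) ≠ (j : ZMod q) := by
  intro h
  have h3 : ((j - i : ℤ) : ZMod q) = 0 := by push_cast; rw [h]; ring
  rw [ZMod.intCast_zmod_eq_zero_iff_dvd] at h3
  have := Int.le_of_dvd (by omega) h3
  omega

omit [NeZero L] [NeZero W] in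
private theorem F6_Conn_mono {D D' : Set (Vx L W n)} (h : D ⊆ D') (x y : Vx L W n)
    (l : List (Ed L W n)) (hC : Conn (gT L W n) D x y l) : Conn (gT L W n) D' x y l := by
  obtain ⟨k, h1, h2⟩ := hC
  exact ⟨k, h1, fun i hi => h (h2 i hi)⟩

private theorem F6_mem {R : ℤ} {c : Fin n → ℤ} (hc : c ∈ cube n R) (j : Fin n) :
    |c j| ≤ R - 1 := by
  have h1 := Fintype.mem_piFinset.1 hc j
  rw [Finset.mem_Icc] at h1
  exact abs_le.2 ⟨h1.1, h1.2⟩

private theorem F6_card {R : ℤ} (hR : 1 ≤ R) :
    ((cube n R).card : ℝ) = (2 * (R : ℝ) - 1) ^ n := by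
  have h : ((R - 1 + 1 - -(R - 1)).toNat : ℤ) = 2 * R - 1 := by
    rw [Int.toNat_of_nonneg (by omega)]; ring
  have h1 : ((Finset.Icc (-(R - 1)) (R - 1)).card : ℝ) = 2 * (R : ℝ) - 1 := by
    rw [Int.card_Icc]
    exact_mod_cast h
  unfold cube
  rw [Fintype.card_piFinset, Finset.prod_const, Finset.card_univ, Fintype.card_fin]
  push_cast
  rw [h1]

/-- the side points -/
private noncomputable def F6_sd (L W n : ℕ) (R : ℤ) (c : Fin n → ℤ) (p : Bool × Option (Fin n)) :
    Vx L W n :=
  match p with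
  | (true, none) => pt L W n R c
  | (false, none) => pt L W n (-R) c
  | (true, some m) => pt L W n (c m) (Function.update c m R)
  | (false, some m) => pt L W n (c m) (Function.update c m (-R))

/-- a side point which is reached with a good probability -/
private theorem F6_side (ht : 0 ≤ t) (R : ℤ) (hR : 1 ≤ R) (hL : 2 * R + 1 ≤ L)
    (hW : 2 * R + 1 ≤ W) (θ : ℝ) (hθ : θ ≤ P L W n t (Exit L W n R (pt L W n 0 0))) :
    ∃ c ∈ cube n R,
      θ / ((2 * n + 2) * (2 * (R : ℝ) - 1) ^ n) ≤
        P L W n t (Reach (gT L W n) (box L W n R) (pt L W n 0 0) (pt L W n R c)) := by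
  have hc : ∀ _ : Ed L W n, (0 : ℝ) ≤ t := fun _ => ht
  set s := cube n R with hs
  have hsn : s.Nonempty := ⟨0, by
    rw [hs]
    refine Fintype.mem_piFinset.2 fun j => ?_
    rw [Finset.mem_Icc]
    show -(R - 1) ≤ 0 ∧ 0 ≤ R - 1
    omega⟩
  have hcard := F6_card (n := n) hR
  rw [← hs] at hcard
  have hR' : (1 : ℝ) ≤ R := by exact_mod_cast hR
  by_contra hcon
  push Not at hcon
  have h1 : P L W n t (Exit L W n R (pt L W n 0 0)) ≤
      ∑ p ∈ s ×ˢ (Finset.univ : Finset (Bool × Option (Fin n))),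
        P L W n t (Reach (gT L W n) (box L W n R) (pt L W n 0 0) (F6_sd L W n R p.1 p.2)) := by
    refine le_trans (Pr_mono hc
      (B := fun l => ∃ p ∈ s ×ˢ (Finset.univ : Finset (Bool × Option (Fin n))),
        Reach (gT L W n) (box L W n R) (pt L W n 0 0) (F6_sd L W n R p.1 p.2) l) ?_)
      (Pr_exists_le hc _ (fun p : (Fin n → ℤ) × Bool × Option (Fin n) =>
        Reach (gT L W n) (box L W n R) (pt L W n 0 0) (F6_sd L W n R p.1 p.2)))
    intro l hl
    obtain ⟨c, hcs, h | h | ⟨m, h⟩ | ⟨m, h⟩⟩ := exit_sides R hR hL hW l hl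
    · exact ⟨(c, true, none), Finset.mem_product.2 ⟨hcs, Finset.mem_univ _⟩, h⟩
    · exact ⟨(c, false, none), Finset.mem_product.2 ⟨hcs, Finset.mem_univ _⟩, h⟩
    · exact ⟨(c, true, some m), Finset.mem_product.2 ⟨hcs, Finset.mem_univ _⟩, h⟩
    · exact ⟨(c, false, some m), Finset.mem_product.2 ⟨hcs, Finset.mem_univ _⟩, h⟩
  have h2 : ∑ p ∈ s ×ˢ (Finset.univ : Finset (Bool × Option (Fin n))),
        P L W n t (Reach (gT L W n) (box L W n R) (pt L W n 0 0) (F6_sd L W n R p.1 p.2))
      = ∑ c ∈ s, (2 * n + 2) *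
        P L W n t (Reach (gT L W n) (box L W n R) (pt L W n 0 0) (pt L W n R c)) := by
    rw [Finset.sum_product]
    refine Finset.sum_congr rfl fun c hcs => ?_
    obtain ⟨e1, e2⟩ := P_sides (L := L) (W := W) (n := n) (t := t) R hR hL hW c hcs
    have e3 : ∀ p ∈ (Finset.univ : Finset (Bool × Option (Fin n))),
        P L W n t (Reach (gT L W n) (box L W n R) (pt L W n 0 0) (F6_sd L W n R c p)) =
          P L W n t (Reach (gT L W n) (box L W n R) (pt L W n 0 0) (pt L W n R c)) := by
      rintro ⟨b, o⟩ _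
      cases b with
      | true =>
        cases o with
        | none => rfl
        | some m => exact (e2 m).1
      | false =>
        cases o with
        | none => exact e1
        | some m => exact (e2 m).2
    rw [Finset.sum_congr rfl e3, Finset.sum_const, Finset.card_univ, Fintype.card_prod,
      Fintype.card_bool, Fintype.card_option, Fintype.card_fin, nsmul_eq_mul]
    push_cast
    ring
  have hpos : (0 : ℝ) < (2 * n + 2) * (2 * (R : ℝ) - 1) ^ n := by
    have h0 : (0 : ℝ) < 2 * (R : ℝ) - 1 := by linarith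
    positivity
  have h3 : ∑ c ∈ s, (2 * n + 2) *
        P L W n t (Reach (gT L W n) (box L W n R) (pt L W n 0 0) (pt L W n R c)) <
      ∑ _c ∈ s, (2 * n + 2) * (θ / ((2 * n + 2) * (2 * (R : ℝ) - 1) ^ n)) := by
    refine Finset.sum_lt_sum_of_nonempty hsn fun c hcs => ?_
    exact mul_lt_mul_of_pos_left (hcon c hcs) (by positivity)
  have h4 : ∑ _c ∈ s, ((2 : ℝ) * n + 2) * (θ / ((2 * n + 2) * (2 * (R : ℝ) - 1) ^ n)) = θ := by
    rw [Finset.sum_const, nsmul_eq_mul, hcard]
    have h0 : (2 * (R : ℝ) - 1) ^ n ≠ 0 := by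
      have : (0 : ℝ) < 2 * (R : ℝ) - 1 := by linarith
      positivity
    have h5 : (2 * (n : ℝ) + 2) ≠ 0 := by positivity
    field_simp
  linarith [h1, h2, h3, h4]

private theorem F6_arith {R : ℤ} (hR : 1 ≤ R) {θ : ℝ} (hθ0 : 0 < θ) :
    θ / ((2 * n + 2) * (2 * (R : ℝ)) ^ (2 * n)) ≤
      θ / ((2 * n + 2) * (2 * (R : ℝ) - 1) ^ n) / (2 * (R : ℝ) - 1) ^ n := by
  have hR' : (1 : ℝ) ≤ R := by exact_mod_cast hR
  rw [div_div]
  have h1 : (0 : ℝ) < 2 * (R : ℝ) - 1 := by linarith
  refine div_le_div_of_nonneg_left hθ0.le (by positivity) ?_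
  rw [mul_assoc, ← pow_add, ← two_mul]
  refine mul_le_mul_of_nonneg_left ?_ (by positivity)
  exact pow_le_pow_left₀ h1.le (by linarith) _

private theorem F6_exp {a x y : ℝ} (h : x ≤ Real.exp a * y) :
    Real.exp (-a) * x ≤ y := by
  have h1 := mul_le_mul_of_nonneg_left h (Real.exp_pos (-a)).le
  rw [← mul_assoc, ← Real.exp_add] at h1
  simpa using h1

omit [NeZero L] [NeZero W] in
private theorem F6_pt_add (i j : ℤ) (u v : Fin n → ℤ) :
    pt L W n i u + pt L W n j v = pt L W n (i + j) (u + v) := by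
  unfold pt
  refine Prod.ext ?_ ?_
  · show (i : ZMod L) + (j : ZMod L) = ((i + j : ℤ) : ZMod L)
    push_cast
    rfl
  · funext k
    show (u k : ZMod W) + (v k : ZMod W) = ((u k + v k : ℤ) : ZMod W)
    push_cast
    rfl

omit [NeZero L] [NeZero W] in
private theorem F6_strip_shift (i₁ i₂ : ℤ) (b : Fin n → ℤ) :
    (fun v : Vx L W n => v + pt L W n 0 b) '' strip L W n i₁ i₂ = strip L W n i₁ i₂ := by
  have h0 : (pt L W n 0 b).1 = 0 := Int.cast_zero
  ext v
  constructor
  · rintro ⟨w, ⟨i, h1, h2, h3⟩, rfl⟩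
    exact ⟨i, h1, h2, by rw [Prod.fst_add, h0, add_zero]; exact h3⟩
  · rintro ⟨i, h1, h2, h3⟩
    exact ⟨v - pt L W n 0 b, ⟨i, h1, h2, by rw [Prod.fst_sub, h0, sub_zero]; exact h3⟩,
      sub_add_cancel _ _⟩

theorem moves (hn : 1 ≤ n) (ht : 0 ≤ t) (R : ℤ) (hR : 1 ≤ R) (hL : 2 * R + 1 ≤ L)
    (hW : 2 * R + 1 ≤ W) (θ : ℝ) (hθ0 : 0 < θ)
    (hθ : θ ≤ P L W n t (Exit L W n R (pt L W n 0 0))) :
    (∀ (m : Fin n) (k : ℤ), 1 ≤ k → k ≤ R - 1 → ∃ b ∈ cube n R,
      Real.exp (-(4 * (n + 1) * t)) * θ / ((2 * n + 2) * (2 * (R : ℝ)) ^ (2 * n)) ≤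
        P L W n t (Conn (gT L W n) (strip L W n (-(R - 1)) (R - 1)) (pt L W n 0 0)
          (pt L W n (b m) (Function.update b m k)))) ∧
    ∃ c : Fin n → ℤ, Real.exp (-(4 * (n + 1) * t)) * θ / ((2 * n + 2) * (2 * (R : ℝ)) ^ (2 * n)) ≤
      P L W n t (Conn (gT L W n) (strip L W n 1 (R - 1) ∪ {pt L W n 0 0, pt L W n R c})
        (pt L W n 0 0) (pt L W n R c)) := by
  have hc0 : ∀ _ : Ed L W n, (0 : ℝ) ≤ t := fun _ => ht
  have hR' : (1 : ℝ) ≤ R := by exact_mod_cast hR
  have h2R : (0 : ℝ) < 2 * (R : ℝ) - 1 := by linarith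
  have hcard := F6_card (n := n) hR
  obtain ⟨c, hcs, hc⟩ := F6_side ht R hR hL hW θ hθ
  have hpos : 0 < θ / ((2 * n + 2) * (2 * (R : ℝ) - 1) ^ n) := by positivity
  have hpown : (0 : ℝ) ≤ (2 * (R : ℝ) - 1) ^ n := by positivity
  obtain ⟨e1, e2⟩ := P_sides (L := L) (W := W) (n := n) (t := t) R hR hL hW c hcs
  constructor
  · intro m k hk hk'
    have hc3 : θ / ((2 * n + 2) * (2 * (R : ℝ) - 1) ^ n) ≤
        P L W n t (Reach (gT L W n) (box L W n R) (pt L W n 0 0)
          (pt L W n (c m) (Function.update c m R))) := by rw [(e2 m).1]; exact hc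
    obtain ⟨b, hbs, hb⟩ := Pr_pigeon (c := fun _ : Ed L W n => t) hc0 (cube n R)
      (Reach (gT L W n) (box L W n R) (pt L W n 0 0) (pt L W n (c m) (Function.update c m R)))
      (fun b => Reach (gT L W n) (boxlt L W n R m k) (pt L W n 0 0)
        (pt L W n (b m) (Function.update b m k)))
      (fun l hl => reach_row R hR hL hW m c hcs k hk hk' l hl) (lt_of_lt_of_le hpos hc3)
    refine ⟨b, hbs, ?_⟩
    rw [hcard] at hb
    have hb1 : θ / ((2 * n + 2) * (2 * (R : ℝ)) ^ (2 * n)) ≤ P L W n t (Reach (gT L W n)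
        (boxlt L W n R m k) (pt L W n 0 0) (pt L W n (b m) (Function.update b m k))) := by
      refine le_trans (F6_arith hR hθ0) (le_trans ?_ hb)
      exact div_le_div_of_nonneg_right hc3 hpown
    set D := boxlt L W n R m k with hD
    set z := pt L W n (b m) (Function.update b m k) with hz
    have hz2 : z.2 m = (k : ZMod W) := by
      rw [hz]
      show ((Function.update b m k m : ℤ) : ZMod W) = _
      rw [Function.update_self]
    have h0 : pt L W n 0 0 ∈ D :=
      ⟨0, 0, by rw [abs_zero]; omega, fun j => by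
        show |(0 : ℤ)| ≤ R - 1
        rw [abs_zero]; omega, by
        show (0 : ℤ) ≤ k - 1
        omega, rfl⟩
    have hbD : z ∉ D := by
      rintro ⟨i, u, _, h3, h4, h5⟩
      have h6 : (k : ZMod W) = (u m : ZMod W) := by
        rw [← hz2, h5]
        rfl
      have h7 := abs_le.1 (h3 m)
      exact F6_cast_ne (by omega) (by omega) h6.symm
    have hne : pt L W n 0 0 ≠ z := by
      intro h
      have h6 : ((0 : ℤ) : ZMod W) = (k : ZMod W) := by
        rw [← hz2, ← h]
        rfl
      exact F6_cast_ne (by omega) (by omega) h6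
    have hseg : P L W n t (Reach (gT L W n) D (pt L W n 0 0) z) ≤
        P L W n t (Seg (gT L W n) (D \ {pt L W n 0 0}) (pt L W n 0 0) z) :=
      Pr_mono hc0 fun l hl => Reach_Seg D _ _ h0 hbD l hl
    have hiso := P_iso (L := L) (W := W) (n := n) (t := t) ht (D \ {pt L W n 0 0})
      (pt L W n 0 0) z (fun h => h.2 rfl) (fun h => hbD h.1) hne
    have hmono : P L W n t (Conn (gT L W n) (D \ {pt L W n 0 0} ∪ {pt L W n 0 0, z})
        (pt L W n 0 0) z) ≤
        P L W n t (Conn (gT L W n) (strip L W n (-(R - 1)) (R - 1)) (pt L W n 0 0) z) := by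
      refine Pr_mono hc0 fun l hl => F6_Conn_mono ?_ _ _ l hl
      rintro v (⟨⟨i, u, h1, _, _, rfl⟩, _⟩ | h | h)
      · exact ⟨i, (abs_le.1 h1).1, (abs_le.1 h1).2, rfl⟩
      · exact ⟨0, by omega, by omega, by rw [h]; rfl⟩
      · have h1 := F6_mem hbs m
        exact ⟨b m, (abs_le.1 h1).1, (abs_le.1 h1).2, by rw [h]; rfl⟩
    rw [mul_div_assoc]
    refine le_trans (F6_exp ?_) hmono
    exact le_trans hb1 (le_trans hseg hiso)
  · obtain ⟨b, hbs, hb⟩ := Pr_pigeon (c := fun _ : Ed L W n => t) hc0 (cube n R)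
      (Reach (gT L W n) (box L W n R) (pt L W n 0 0) (pt L W n R c))
      (fun b => Seg (gT L W n) (strip L W n 1 (R - 1)) (pt L W n 0 b) (pt L W n R c))
      (fun l hl => reach_half R hR hL hW c hcs l hl) (lt_of_lt_of_le hpos hc)
    rw [hcard] at hb
    have hb1 : θ / ((2 * n + 2) * (2 * (R : ℝ)) ^ (2 * n)) ≤
        P L W n t (Seg (gT L W n) (strip L W n 1 (R - 1)) (pt L W n 0 b) (pt L W n R c)) := by
      refine le_trans (F6_arith hR hθ0) (le_trans ?_ hb)
      exact div_le_div_of_nonneg_right hc hpown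
    refine ⟨c - b, ?_⟩
    rw [P_Seg_shift (pt L W n 0 (-b)), F6_strip_shift] at hb1
    have q1 : pt L W n 0 b + pt L W n 0 (-b) = pt L W n 0 0 := by
      rw [F6_pt_add, add_zero, add_neg_cancel]
    have q2 : pt L W n R c + pt L W n 0 (-b) = pt L W n R (c - b) := by
      rw [F6_pt_add, add_zero, sub_eq_add_neg]
    rw [q1, q2] at hb1
    have ha : pt L W n 0 0 ∉ strip L W n 1 (R - 1) := by
      rintro ⟨i, h1, h2, h3⟩
      have h4 : ((0 : ℤ) : ZMod L) = (i : ZMod L) := h3
      exact F6_cast_ne (by omega) (by omega) h4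
    have hb' : pt L W n R (c - b) ∉ strip L W n 1 (R - 1) := by
      rintro ⟨i, h1, h2, h3⟩
      have h4 : (R : ZMod L) = (i : ZMod L) := h3
      exact F6_cast_ne (by omega) (by omega) h4.symm
    have hne : pt L W n 0 0 ≠ pt L W n R (c - b) := by
      intro h
      have h6 : ((0 : ℤ) : ZMod L) = (R : ZMod L) := congrArg Prod.fst h
      exact F6_cast_ne (by omega) (by omega) h6
    have hiso := P_iso (L := L) (W := W) (n := n) (t := t) ht (strip L W n 1 (R - 1))
      (pt L W n 0 0) (pt L W n R (c - b)) ha hb' hne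
    rw [mul_div_assoc]
    exact F6_exp (le_trans hb1 hiso)

end

end Pool.Agent.ThinTori.Dim

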