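import Pool.Agent.Lib.MP_6c3d62_pr.Tube2

/-! Stirring on tubes, part 3: connections, turning back, blocks, the theorem. -/

set_option autoImplicit false

/-! Stirring on thin tori of any dimension, row G1: polynomial supermultiplicativity -/


open Finset

namespace Pool.Agent.ThinTori.Dim

section



/- Only the letters which move a point of `D` matter. -/
private theorem G1_P_eq (L W n : ℕ) [NeZero L] [NeZero W] (t : ℝ) (D : Set (Vx L W n)) (x z : Vx L W n) :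
    P L W n t (Conn (gT L W n) D x z) =
      Pr (restr (fun _ : Ed L W n => t) (inc (gT L W n) D)) (Conn (gT L W n) D x z) := by
  have hp : ∀ a, inc (gT L W n) D a = false → ∀ v ∈ D, gT L W n a v = v := by
    intro a ha v hv
    by_contra hne
    have h1 : inc (gT L W n) D a = true := by
      exact @decide_eq_true _ (Classical.propDecidable _) ⟨v, hv, hne⟩
    rw [h1] at ha
    exact absurd ha (by decide)
  have h1 : (fun l : List (Ed L W n) => Conn (gT L W n) D x z (l.filter (inc (gT L W n) D))) =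
      Conn (gT L W n) D x z := by
    funext l
    exact propext (Conn_filter (g := gT L W n) (inc (gT L W n) D) D hp x z l)
  rw [← Pr_filter, h1]
  rfl

private theorem G1_arith {A B X S w : ℝ} {i j k : ℕ} (κ₁ κ₂ C : ℝ) (h₁ : 0 < κ₁) (h₂ : 0 < κ₂) (hC : 0 < C)
    (hw : 1 ≤ w) (hA : κ₁ / w ^ i ≤ A) (hB : κ₂ / w ^ j ≤ B)
    (hS : S ≤ C * w ^ k * X + κ₁ * κ₂ / (2 * w ^ (i + j))) (hAB : A * B ≤ S) :
    κ₁ * κ₂ / (2 * C) / w ^ (i + j + k) ≤ X := by
  have hw0 : 0 < w := by linarith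
  have hwi : 0 < w ^ i := pow_pos hw0 i
  have hwj : 0 < w ^ j := pow_pos hw0 j
  have hwij : 0 < w ^ (i + j) := pow_pos hw0 _
  have hw4 : 0 < w ^ k := pow_pos hw0 k
  have h1 : κ₁ / w ^ i * (κ₂ / w ^ j) ≤ A * B :=
    mul_le_mul hA hB (div_pos h₂ hwj).le ((div_pos h₁ hwi).le.trans hA)
  have h2 : κ₁ / w ^ i * (κ₂ / w ^ j) = κ₁ * κ₂ / w ^ (i + j) := by
    rw [pow_add]
    field_simp
  have h3 : κ₁ * κ₂ / (2 * w ^ (i + j)) = κ₁ * κ₂ / w ^ (i + j) / 2 := by
    field_simp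
  rw [h2] at h1
  rw [h3] at hS
  have h4 : κ₁ * κ₂ / w ^ (i + j) / 2 ≤ C * w ^ k * X := by linarith
  have h5 : κ₁ * κ₂ / (2 * C) / w ^ (i + j + k) = κ₁ * κ₂ / w ^ (i + j) / 2 / (C * w ^ k) := by
    rw [pow_add w (i + j) k]
    field_simp
  rw [h5, div_le_iff₀ (mul_pos hC hw4)]
  linarith

theorem SMpoly (n : ℕ) (t : ℝ) (ht : 0 ≤ t) (κ₁ κ₂ : ℝ) (h₁ : 0 < κ₁) (h₂ : 0 < κ₂) (i j : ℕ) :
    ∃ κ : ℝ, 0 < κ ∧ ∀ (L W : ℕ) [NeZero L] [NeZero W] (D : Set (Vx L W n)),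
      D.ncard ≤ W ^ (n + 1) →
      ∀ x z y : Vx L W n, κ₁ / (W : ℝ) ^ i ≤ P L W n t (Conn (gT L W n) D x z) →
        κ₂ / (W : ℝ) ^ j ≤ P L W n t (Conn (gT L W n) D z y) →
        κ / (W : ℝ) ^ (i + j + 2 * (n + 1)) ≤ P L W n t (Conn (gT L W n) D x y) := by
  classical
  obtain ⟨lg, hlg⟩ : ∃ lg : ℝ, lg = |Real.log (2 / (κ₁ * κ₂))| := ⟨_, rfl⟩
  have hlg0 : 0 ≤ lg := by rw [hlg]; exact abs_nonneg _
  obtain ⟨r, hr⟩ : ∃ r : ℝ, r = 2 * ((n : ℝ) + 1) * t := ⟨_, rfl⟩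
  have hr0 : 0 ≤ r := by rw [hr]; positivity
  obtain ⟨C, hCdef⟩ : ∃ C : ℝ, C = 4 * r + lg + ((i : ℝ) + j) + 2 := ⟨_, rfl⟩
  have hC : 0 < C := by
    have h3 : (0 : ℝ) ≤ (i : ℝ) + j := by positivity
    rw [hCdef]
    linarith
  have hκ : 0 < κ₁ * κ₂ := mul_pos h₁ h₂
  refine ⟨κ₁ * κ₂ / (2 * C), div_pos hκ (by linarith), ?_⟩
  intro L W _ _ D hD x z y hxz hzy
  have hW1 : 1 ≤ W := Nat.one_le_iff_ne_zero.2 (NeZero.ne W)
  have hw : (1 : ℝ) ≤ (W : ℝ) := by exact_mod_cast hW1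
  obtain ⟨w, hwdef⟩ : ∃ w : ℝ, w = (W : ℝ) ^ (n + 1) := ⟨_, rfl⟩
  have hw1 : 1 ≤ w := by rw [hwdef]; exact one_le_pow₀ hw
  have hWw : (W : ℝ) ≤ w := by
    rw [hwdef, pow_succ]
    have h3 : (1 : ℝ) ≤ (W : ℝ) ^ n := one_le_pow₀ hw
    nlinarith
  obtain ⟨c, hcdef⟩ : ∃ c : Ed L W n → ℝ, c = restr (fun _ : Ed L W n => t) (inc (gT L W n) D) := ⟨_, rfl⟩
  have hc : ∀ a, 0 ≤ c a := by
    intro a
    rw [hcdef]
    unfold restr
    split_ifs
    · exact ht
    · exact le_rfl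
  have hDw : (D.ncard : ℝ) ≤ w := by rw [hwdef]; exact_mod_cast hD
  have hΛ : ∑ a, c a ≤ r * w := by
    rw [hcdef]
    refine (inc_mass ht D).trans ?_
    rw [← hr]
    exact mul_le_mul_of_nonneg_left hDw hr0
  have hsw : IsSw (gT L W n) := fun a => ⟨_, _, rfl⟩
  have hDf : ((D.toFinite.toFinset : Finset (Vx L W n)) : Set (Vx L W n)) = D := D.toFinite.coe_toFinset
  have hcard : (D.toFinite.toFinset.card : ℝ) ≤ w := by
    rw [← Set.ncard_eq_toFinset_card D]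
    exact hDw
  rw [G1_P_eq, ← hcdef] at hxz hzy ⊢
  have hX : 0 ≤ Pr c (Conn (gT L W n) D x y) := Pr_nonneg hc _
  obtain ⟨m, hm⟩ : ∃ m : ℕ, m = ⌈4 * r * w + lg + ((i : ℝ) + j) * W⌉₊ := ⟨_, rfl⟩
  have hnn : 0 ≤ 4 * r * w + lg + ((i : ℝ) + j) * W := by positivity
  have hm1 : 4 * r * w + lg + ((i : ℝ) + j) * W ≤ m := by
    rw [hm]
    exact Nat.le_ceil _
  have hm2 : (m : ℝ) + 1 ≤ C * w := by
    have h3 : (m : ℝ) < 4 * r * w + lg + ((i : ℝ) + j) * W + 1 := by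
      rw [hm]
      exact Nat.ceil_lt_add_one hnn
    have h6 : ((i : ℝ) + j) * W ≤ ((i : ℝ) + j) * w := mul_le_mul_of_nonneg_left hWw (by positivity)
    have h7 : lg ≤ lg * w := by nlinarith
    rw [hCdef]
    nlinarith
  have hSM := SM hsw hc (D.toFinite.toFinset) x z y m
  rw [hDf] at hSM
  refine G1_arith κ₁ κ₂ C h₁ h₂ hC hw hxz hzy ?_ hSM
  have h3 : ((m : ℝ) + 1) * (D.toFinite.toFinset.card : ℝ) * Pr c (Conn (gT L W n) D x y) ≤
      C * (W : ℝ) ^ (2 * (n + 1)) * Pr c (Conn (gT L W n) D x y) := by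
    refine mul_le_mul_of_nonneg_right ?_ hX
    calc ((m : ℝ) + 1) * (D.toFinite.toFinset.card : ℝ) ≤ C * w * w :=
          mul_le_mul hm2 hcard (by positivity) (by positivity)
      _ = C * (W : ℝ) ^ (2 * (n + 1)) := by rw [hwdef, mul_comm 2 (n + 1), pow_mul]; ring
  have h4 : Real.exp (4 * ∑ a, c a - m) ≤ κ₁ * κ₂ / (2 * (W : ℝ) ^ (i + j)) := by
    have hWp : (0 : ℝ) < (W : ℝ) ^ (i + j) := by positivity
    have h5 : 0 < κ₁ * κ₂ / (2 * (W : ℝ) ^ (i + j)) := by positivity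
    rw [← Real.le_log_iff_exp_le h5]
    have h6 : κ₁ * κ₂ / (2 * (W : ℝ) ^ (i + j)) = (2 / (κ₁ * κ₂))⁻¹ * ((W : ℝ) ^ (i + j))⁻¹ := by
      rw [inv_div]
      field_simp
    have h7 : (0 : ℝ) < (2 / (κ₁ * κ₂))⁻¹ := by positivity
    rw [h6, Real.log_mul h7.ne' (inv_pos.2 hWp).ne', Real.log_inv, Real.log_inv, Real.log_pow]
    have h8 : Real.log (2 / (κ₁ * κ₂)) ≤ lg := by
      rw [hlg]
      exact le_abs_self _
    have h9 : Real.log (W : ℝ) ≤ (W : ℝ) := (Real.log_le_sub_one_of_pos (by linarith)).trans (by linarith)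
    have h10 : ((i + j : ℕ) : ℝ) * Real.log (W : ℝ) ≤ ((i : ℝ) + j) * W := by
      push_cast
      exact mul_le_mul_of_nonneg_left h9 (by positivity)
    linarith
  linarith

end

end Pool.Agent.ThinTori.Dim

/-! Stirring on thin tori of any dimension, row G2a: moves along one coordinate -/


open Finset

namespace Pool.Agent.ThinTori.Dim

section

private theorem G2a_Conn_mono {V α : Type*} {g : α → Equiv.Perm V} {D D' : Set V} (hD : D ⊆ D')
    {x y : V} {l : List α} (h : Conn g D x y l) : Conn g D' x y l := by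
  obtain ⟨n, h1, h2⟩ := h
  exact ⟨n, h1, fun i hi => hD (h2 i hi)⟩

variable {L W n : ℕ}

private theorem G2a_pt_add (i i' : ℤ) (u u' : Fin n → ℤ) :
    pt L W n i u + pt L W n i' u' = pt L W n (i + i') (u + u') := by
  unfold pt
  ext j
  · simp
  · simp

private theorem G2a_pt_flip (m : Fin n) (i : ℤ) (u : Fin n → ℤ) :
    ((pt L W n i u).1, Function.update (pt L W n i u).2 m (-(pt L W n i u).2 m)) =
      pt L W n i (Function.update u m (-u m)) := by
  unfold pt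
  ext j
  · rfl
  · by_cases hj : j = m
    · subst hj; simp
    · simp [Function.update_of_ne hj]

private theorem G2a_pt_dir (m : Fin n) (i : ℤ) (u : Fin n → ℤ) :
    pt L W n i u + dir L W n (some m) = pt L W n i (Function.update u m (u m + 1)) := by
  unfold pt dir
  ext j
  · simp
  · by_cases hj : j = m
    · subst hj; simp
    · simp [Function.update_of_ne hj, Pi.single_eq_of_ne hj]

private theorem G2a_strip_shift (i i₁ i₂ : ℤ) (u : Fin n → ℤ) :
    (fun v : Vx L W n => v + pt L W n i u) '' strip L W n i₁ i₂ =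
      strip L W n (i₁ + i) (i₂ + i) := by
  ext v
  constructor
  · rintro ⟨w, ⟨j, h1, h2, h3⟩, rfl⟩
    refine ⟨j + i, by linarith, by linarith, ?_⟩
    simp [pt, h3]
  · rintro ⟨j, h1, h2, h3⟩
    refine ⟨v - pt L W n i u, ⟨j - i, by linarith, by linarith, ?_⟩, by simp⟩
    simp [pt, h3]

private theorem G2a_strip_flip (m : Fin n) (i₁ i₂ : ℤ) :
    (fun v : Vx L W n => (v.1, Function.update v.2 m (-v.2 m))) '' strip L W n i₁ i₂ =
      strip L W n i₁ i₂ := by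
  ext v
  constructor
  · rintro ⟨w, ⟨j, h1, h2, h3⟩, rfl⟩
    exact ⟨j, h1, h2, h3⟩
  · rintro ⟨j, h1, h2, h3⟩
    refine ⟨(v.1, Function.update v.2 m (-v.2 m)), ⟨j, h1, h2, h3⟩, ?_⟩
    ext k
    · rfl
    · by_cases hk : k = m
      · subst hk; simp
      · simp [Function.update_of_ne hk]

variable [NeZero L] [NeZero W] {t : ℝ}

omit [NeZero L] in
private theorem G2a_strip_card {R : ℤ} (_hR : 1 ≤ R) (hRW : 2 * R ≤ W) :
    (strip L W n 1 (2 * R - 1)).ncard ≤ W ^ (n + 1) := by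
  classical
  have h1 : strip L W n 1 (2 * R - 1) ⊆
      (((Finset.Icc (1 : ℤ) (2 * R - 1)).image fun i : ℤ => (i : ZMod L)) ×ˢ
        (Finset.univ : Finset (Fin n → ZMod W)) : Finset (Vx L W n)) := by
    rintro v ⟨i, h1, h2, h3⟩
    rw [Finset.coe_product]
    refine ⟨?_, Finset.mem_coe.2 (Finset.mem_univ _)⟩
    rw [h3]
    exact Finset.mem_coe.2 (Finset.mem_image_of_mem _ (Finset.mem_Icc.2 ⟨h1, h2⟩))
  refine (Set.ncard_le_ncard h1 (Finset.finite_toSet _)).trans ?_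
  rw [Set.ncard_coe_finset, Finset.card_product]
  have h2 : ((Finset.Icc (1 : ℤ) (2 * R - 1)).image fun i : ℤ => (i : ZMod L)).card ≤ W := by
    refine Finset.card_image_le.trans ?_
    rw [Int.card_Icc]
    have : (2 * R - 1 + 1 - 1).toNat ≤ (W : ℤ).toNat := Int.toNat_le_toNat (by linarith)
    simpa using this
  have h3 : (Finset.univ : Finset (Fin n → ZMod W)).card = W ^ n := by
    rw [Finset.card_univ, Fintype.card_fun, ZMod.card, Fintype.card_fin]
  rw [h3, pow_succ']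
  exact Nat.mul_le_mul_right _ h2

private theorem G2a_refl (ht : 0 ≤ t) (D : Set (Vx L W n)) (x : Vx L W n) (hx : x ∈ D) :
    1 ≤ P L W n t (Conn (gT L W n) D x x) := by
  unfold P
  have h1 := Pr_none (fun _ : Ed L W n => t) (fun _ => false)
  have h2 : ∑ a, restr (fun _ : Ed L W n => t) (fun _ => false) a = 0 := by simp [restr]
  rw [h2, neg_zero, Real.exp_zero] at h1
  rw [← h1]
  refine Pr_mono (fun _ => ht) fun l _ => ⟨0, rfl, fun i hi => ?_⟩
  have : i = 0 := by omega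
  rw [this]
  exact hx

/-- the move by `2 k` -/
private theorem G2a_two (n : ℕ) (hn : 1 ≤ n) (t θ : ℝ) (ht : 0 < t) (hθ : 0 < θ) :
    ∃ κ : ℝ, 0 < κ ∧ κ ≤ 1 ∧ ∀ (L W : ℕ) [NeZero L] [NeZero W], 8 ≤ W → W ≤ L → ∀ R : ℤ,
      R = ((W / 4 : ℕ) : ℤ) + 1 →
      θ / (W : ℝ) ^ (2 * n) ≤ P L W n t (Exit L W n R (pt L W n 0 0)) →
      ∀ (m : Fin n) (u : Fin n → ℤ) (k : ℤ), 0 ≤ k → k ≤ R - 1 →
        κ / (W : ℝ) ^ (10 * n + 2) ≤ P L W n t (Conn (gT L W n) (strip L W n 1 (2 * R - 1))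
          (pt L W n R u) (pt L W n R (Function.update u m (u m + 2 * k)))) := by
  set κ₁ : ℝ := Real.exp (-(4 * (n + 1) * t)) * θ / (2 * n + 2) with hκ₁
  have hκ₁0 : 0 < κ₁ := by positivity
  obtain ⟨κ, hκ, hSM⟩ := SMpoly n t ht.le κ₁ κ₁ hκ₁0 hκ₁0 (4 * n) (4 * n)
  refine ⟨min κ 1, lt_min hκ one_pos, min_le_right _ _, ?_⟩
  intro L W _ _ hW hWL R hR hex m u k hk0 hk
  have hW' : (8 : ℝ) ≤ W := by exact_mod_cast hW
  have hR1 : 1 ≤ R := by omega
  have hRW : 2 * R + 1 ≤ W := by omega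
  have hRL : 2 * R + 1 ≤ L := by omega
  have hpow : ∀ j : ℕ, (1 : ℝ) ≤ (W : ℝ) ^ j := fun j => one_le_pow₀ (by linarith)
  have hmem : pt L W n R u ∈ strip L W n 1 (2 * R - 1) := ⟨R, hR1, by linarith, rfl⟩
  rcases hk0.eq_or_lt with hk0 | hk0
  · -- no move
    have e : Function.update u m (u m + 2 * k) = u := by
      rw [← hk0]; simp
    rw [e]
    refine le_trans ?_ (G2a_refl ht.le _ _ hmem)
    rw [div_le_one (by linarith [hpow (10 * n + 2)])]
    exact (min_le_right _ _).trans (hpow _)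
  · have hθ' : 0 < θ / (W : ℝ) ^ (2 * n) := by positivity
    obtain ⟨h1, -⟩ := moves hn ht.le R hR1 hRL hRW _ hθ' hex
    obtain ⟨b, -, hb⟩ := h1 m k (by linarith) hk
    have hlow : κ₁ / (W : ℝ) ^ (4 * n) ≤ Real.exp (-(4 * (n + 1) * t)) *
        (θ / (W : ℝ) ^ (2 * n)) / ((2 * n + 2) * (2 * (R : ℝ)) ^ (2 * n)) := by
      have h2R : 2 * (R : ℝ) ≤ W := by exact_mod_cast (by linarith : 2 * R ≤ (W : ℤ))
      have hR0 : (0 : ℝ) < R := by exact_mod_cast (by linarith : 0 < R)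
      have h3 : (2 * (R : ℝ)) ^ (2 * n) ≤ (W : ℝ) ^ (2 * n) :=
        pow_le_pow_left₀ (by positivity) h2R _
      have h4 : κ₁ / (W : ℝ) ^ (4 * n) = Real.exp (-(4 * (n + 1) * t)) *
        (θ / (W : ℝ) ^ (2 * n)) / ((2 * n + 2) * (W : ℝ) ^ (2 * n)) := by
        rw [hκ₁]
        have h5 : (W : ℝ) ^ (4 * n) = (W : ℝ) ^ (2 * n) * (W : ℝ) ^ (2 * n) := by
          rw [← pow_add]; congr 1; ring
        rw [h5]
        field_simp
      rw [h4]
      refine div_le_div_of_nonneg_left (by positivity) (by positivity) ?_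
      exact mul_le_mul_of_nonneg_left h3 (by positivity)
    have hb1 := hlow.trans hb
    -- first step
    have s1 : κ₁ / (W : ℝ) ^ (4 * n) ≤ P L W n t (Conn (gT L W n) (strip L W n 1 (2 * R - 1))
        (pt L W n R u) (pt L W n (R + b m) (u + Function.update b m k))) := by
      have h2 := hb1
      rw [P_Conn_shift (pt L W n R u), G2a_strip_shift, G2a_pt_add, G2a_pt_add] at h2
      have e1 : -(R - 1) + R = 1 := by ring
      have e2 : R - 1 + R = 2 * R - 1 := by ring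
      rw [e1, e2, zero_add, zero_add, add_comm (b m) R, add_comm (Function.update b m k) u] at h2
      exact h2
    -- second step
    have s2 : κ₁ / (W : ℝ) ^ (4 * n) ≤ P L W n t (Conn (gT L W n) (strip L W n 1 (2 * R - 1))
        (pt L W n (R + b m) (u + Function.update b m k))
        (pt L W n R (Function.update u m (u m + 2 * k)))) := by
      have h2 := hb1
      rw [P_Conn_reverse, P_Conn_flip m, G2a_strip_flip, G2a_pt_flip, G2a_pt_flip,
        P_Conn_shift (pt L W n R (Function.update u m (u m + 2 * k))), G2a_strip_shift,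
        G2a_pt_add, G2a_pt_add] at h2
      have e1 : -(R - 1) + R = 1 := by ring
      have e2 : R - 1 + R = 2 * R - 1 := by ring
      have e3 : Function.update (Function.update b m k) m (-(Function.update b m k) m) +
          Function.update u m (u m + 2 * k) = u + Function.update b m k := by
        ext j
        by_cases hj : j = m
        · subst hj; simp; ring
        · simp [Function.update_of_ne hj, add_comm]
      have e4 : Function.update (0 : Fin n → ℤ) m (-(0 : Fin n → ℤ) m) = 0 := by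
        ext j
        by_cases hj : j = m
        · subst hj; simp
        · simp [Function.update_of_ne hj]
      rw [e1, e2, e3, e4, zero_add, zero_add, add_comm (b m) R] at h2
      exact h2
    have h3 := hSM L W (strip L W n 1 (2 * R - 1)) (G2a_strip_card hR1 (by linarith)) _ _ _ s1 s2
    have e : 4 * n + 4 * n + 2 * (n + 1) = 10 * n + 2 := by ring
    rw [e] at h3
    refine le_trans ?_ h3
    exact div_le_div_of_nonneg_right (min_le_left _ _) (by positivity)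

/-- moves upwards -/
private theorem G2a_up (n : ℕ) (hn : 1 ≤ n) (t θ : ℝ) (ht : 0 < t) (hθ : 0 < θ) :
    ∃ κ : ℝ, 0 < κ ∧ ∀ (L W : ℕ) [NeZero L] [NeZero W], 8 ≤ W → W ≤ L → ∀ R : ℤ,
      R = ((W / 4 : ℕ) : ℤ) + 1 →
      θ / (W : ℝ) ^ (2 * n) ≤ P L W n t (Exit L W n R (pt L W n 0 0)) →
      ∀ (m : Fin n) (u : Fin n → ℤ) (w : ℤ), 0 ≤ w → 2 * w ≤ W →
        κ / (W : ℝ) ^ (12 * n + 4) ≤ P L W n t (Conn (gT L W n) (strip L W n 1 (2 * R - 1))
          (pt L W n R u) (pt L W n R (Function.update u m (u m + w)))) := by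
  obtain ⟨κ₁, hκ₁, -, h1⟩ := G2a_two n hn t θ ht hθ
  set κ₂ : ℝ := Real.exp (-(4 * (n + 1) * t)) * (1 - Real.exp (-t)) with hκ₂
  have he : Real.exp (-t) < 1 := Real.exp_lt_one_iff.2 (by linarith)
  have hκ₂0 : 0 < κ₂ := mul_pos (Real.exp_pos _) (by linarith)
  have hκ₂1 : κ₂ ≤ 1 := by
    have h2 : Real.exp (-(4 * ((n : ℝ) + 1) * t)) ≤ 1 := by
      rw [Real.exp_le_one_iff]
      have : 0 ≤ 4 * ((n : ℝ) + 1) * t := by positivity
      linarith
    have h3 : 1 - Real.exp (-t) ≤ 1 := by linarith [Real.exp_pos (-t)]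
    exact mul_le_one₀ h2 (by linarith) h3
  obtain ⟨κ, hκ, hSM⟩ := SMpoly n t ht.le κ₁ κ₂ hκ₁ hκ₂0 (10 * n + 2) 0
  refine ⟨κ, hκ, ?_⟩
  intro L W _ _ hW hWL R hR hex m u w hw hwW
  have hR1 : 1 ≤ R := by omega
  have hRW : 2 * R + 1 ≤ W := by omega
  have hk : w / 2 ≤ R - 1 := by omega
  have s1 := h1 L W hW hWL R hR hex m u (w / 2) (by omega) hk
  have s2 : κ₂ / (W : ℝ) ^ 0 ≤ P L W n t (Conn (gT L W n) (strip L W n 1 (2 * R - 1))
      (pt L W n R (Function.update u m (u m + 2 * (w / 2))))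
      (pt L W n R (Function.update u m (u m + w)))) := by
    rw [pow_zero, div_one]
    rcases Int.emod_two_eq_zero_or_one w with h2 | h2
    · have e : 2 * (w / 2) = w := by omega
      rw [e]
      exact hκ₂1.trans (G2a_refl ht.le _ _ ⟨R, hR1, by linarith, rfl⟩)
    · have h3 := P_unit (t := t) ht.le (by omega : 2 ≤ W) m
        (pt L W n R (Function.update u m (u m + 2 * (w / 2))))
      rw [G2a_pt_dir] at h3
      have e : Function.update (Function.update u m (u m + 2 * (w / 2))) m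
          ((Function.update u m (u m + 2 * (w / 2))) m + 1) = Function.update u m (u m + w) := by
        rw [Function.update_idem, Function.update_self]
        congr 1
        omega
      rw [e] at h3
      refine h3.trans (Pr_mono (fun _ => ht.le) fun l hl => G2a_Conn_mono ?_ hl)
      rintro v (hv | hv)
      · rw [hv]; exact ⟨R, hR1, by linarith, rfl⟩
      · rw [Set.mem_singleton_iff.1 hv]; exact ⟨R, hR1, by linarith, rfl⟩
  have h3 := hSM L W (strip L W n 1 (2 * R - 1)) (G2a_strip_card hR1 (by linarith)) _ _ _ s1 s2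
  have e : 10 * n + 2 + 0 + 2 * (n + 1) = 12 * n + 4 := by ring
  rw [e] at h3
  exact h3

end

section

/-- moves along the coordinate `m`, inside the columns `1, ..., W`, from the column `R` to itself -/
theorem coord_move_exp (n : ℕ) (hn : 1 ≤ n) : ∀ t θ : ℝ, 0 < t → 0 < θ → ∃ κ : ℝ, 0 < κ ∧
    ∀ (L W : ℕ) [NeZero L] [NeZero W], 8 ≤ W → W ≤ L → ∀ R : ℤ, R = ((W / 4 : ℕ) : ℤ) + 1 →
      θ / (W : ℝ) ^ (2 * n) ≤ P L W n t (Exit L W n R (pt L W n 0 0)) →
      ∀ (m : Fin n) (u : Fin n → ℤ) (w : ℤ), 2 * |w| ≤ W →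
        κ / (W : ℝ) ^ (12 * n + 4) ≤ P L W n t (Conn (gT L W n) (strip L W n 1 (2 * R - 1))
          (pt L W n R u) (pt L W n R (Function.update u m (u m + w)))) := by
  intro t θ ht hθ
  obtain ⟨κ, hκ, h1⟩ := G2a_up n hn t θ ht hθ
  refine ⟨κ, hκ, ?_⟩
  intro L W _ _ hW hWL R hR hex m u w hw
  rcases le_total 0 w with h0 | h0
  · rw [abs_of_nonneg h0] at hw
    exact h1 L W hW hWL R hR hex m u w h0 hw
  · rw [abs_of_nonpos h0] at hw
    have h2 := h1 L W hW hWL R hR hex m (Function.update u m (u m + w)) (-w) (by linarith) hw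
    have e : Function.update (Function.update u m (u m + w)) m
        ((Function.update u m (u m + w)) m + -w) = u := by
      rw [Function.update_idem, Function.update_self]
      simp
    rw [e, P_Conn_reverse] at h2
    exact h2

theorem coord_move (n : ℕ) (hn : 1 ≤ n) : ∃ C : ℕ, ∀ t θ : ℝ, 0 < t → 0 < θ → ∃ κ : ℝ, 0 < κ ∧
    ∀ (L W : ℕ) [NeZero L] [NeZero W], 8 ≤ W → W ≤ L → ∀ R : ℤ, R = ((W / 4 : ℕ) : ℤ) + 1 →
      θ / (W : ℝ) ^ (2 * n) ≤ P L W n t (Exit L W n R (pt L W n 0 0)) →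
      ∀ (m : Fin n) (u : Fin n → ℤ) (w : ℤ), 2 * |w| ≤ W →
        κ / (W : ℝ) ^ C ≤ P L W n t (Conn (gT L W n) (strip L W n 1 (2 * R - 1))
          (pt L W n R u) (pt L W n R (Function.update u m (u m + w)))) :=
  ⟨12 * n + 4, coord_move_exp n hn⟩

end

end Pool.Agent.ThinTori.Dim

/-! Stirring on thin tori of any dimension, row G2: connections to the right -/


open Finset

namespace Pool.Agent.ThinTori.Dim

section

private theorem G2_Conn_mono {V α : Type*} {g : α → Equiv.Perm V} {D D' : Set V} (h : D ⊆ D')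
    (x y : V) (l : List α) (hC : Conn g D x y l) : Conn g D' x y l := by
  obtain ⟨n, h1, h2⟩ := hC
  exact ⟨n, h1, fun i hi => h (h2 i hi)⟩

private theorem G2_P_mono {L W n : ℕ} [NeZero L] [NeZero W] {t : ℝ} (ht : 0 ≤ t)
    {D D' : Set (Vx L W n)} (h : D ⊆ D') (x y : Vx L W n) :
    P L W n t (Conn (gT L W n) D x y) ≤ P L W n t (Conn (gT L W n) D' x y) :=
  Pr_mono (fun _ => ht) fun l hl => G2_Conn_mono h x y l hl

private theorem G2_strip_ncard (L W n : ℕ) [NeZero L] [NeZero W] (i₁ i₂ : ℤ) :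
    (strip L W n i₁ i₂).ncard ≤ (i₂ + 1 - i₁).toNat * W ^ n := by
  classical
  have h : strip L W n i₁ i₂ ⊆ (((Finset.Icc i₁ i₂) ×ˢ (Finset.univ : Finset (Fin n → ZMod W))).image
      (fun p : ℤ × (Fin n → ZMod W) => (((p.1 : ZMod L), p.2) : Vx L W n)) : Finset (Vx L W n)) := by
    rintro v ⟨i, h1, h2, h3⟩
    rw [Finset.mem_coe, Finset.mem_image]
    exact ⟨(i, v.2), Finset.mem_product.mpr ⟨Finset.mem_Icc.mpr ⟨h1, h2⟩, Finset.mem_univ _⟩,
      Prod.ext h3.symm rfl⟩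
  refine (Set.ncard_le_ncard h (Finset.finite_toSet _)).trans ?_
  rw [Set.ncard_coe_finset]
  refine Finset.card_image_le.trans ?_
  rw [Finset.card_product, Int.card_Icc, Finset.card_univ, Fintype.card_fun, Fintype.card_fin,
    ZMod.card]

private theorem G2_ncard {L W n : ℕ} [NeZero L] [NeZero W] (hn : 1 ≤ n) (hW : 8 ≤ W) (R : ℤ)
    (hR : R = ((W / 4 : ℕ) : ℤ) + 1) (a b : Vx L W n) :
    (strip L W n 1 (2 * R - 1) ∪ {a, b}).ncard ≤ W ^ (n + 1) := by
  have h1 := G2_strip_ncard L W n 1 (2 * R - 1)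
  have h2 : ((2 * R - 1) + 1 - 1).toNat = 2 * (W / 4) + 1 := by
    subst hR
    omega
  rw [h2] at h1
  have h3 : ({a, b} : Set (Vx L W n)).ncard ≤ 2 := by
    have h := Set.ncard_insert_le a ({b} : Set (Vx L W n))
    rwa [Set.ncard_singleton] at h
  have h4 := Set.ncard_union_le (strip L W n 1 (2 * R - 1)) {a, b}
  have h5 : 8 ≤ W ^ n := le_trans hW (Nat.le_self_pow (by omega) W)
  have h6 : 2 * (W / 4) + 1 + 1 ≤ W := by omega
  calc (strip L W n 1 (2 * R - 1) ∪ {a, b}).ncard ≤ (2 * (W / 4) + 1) * W ^ n + 2 := by omega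
    _ ≤ (2 * (W / 4) + 1) * W ^ n + W ^ n := by omega
    _ = (2 * (W / 4) + 1 + 1) * W ^ n := by ring
    _ ≤ W * W ^ n := Nat.mul_le_mul_right _ h6
    _ = W ^ (n + 1) := by ring

/-- the statement of `coord_move` for one exponent -/
private def G2_CM (n C : ℕ) : Prop := ∀ t θ : ℝ, 0 < t → 0 < θ → ∃ κ : ℝ, 0 < κ ∧
    ∀ (L W : ℕ) [NeZero L] [NeZero W], 8 ≤ W → W ≤ L → ∀ R : ℤ, R = ((W / 4 : ℕ) : ℤ) + 1 →
      θ / (W : ℝ) ^ (2 * n) ≤ P L W n t (Exit L W n R (pt L W n 0 0)) →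
      ∀ (m : Fin n) (u : Fin n → ℤ) (w : ℤ), 2 * |w| ≤ W →
        κ / (W : ℝ) ^ C ≤ P L W n t (Conn (gT L W n) (strip L W n 1 (2 * R - 1))
          (pt L W n R u) (pt L W n R (Function.update u m (u m + w))))

/-- moves along several coordinates -/
private theorem G2_coords (n : ℕ) (hn : 1 ≤ n) (C₀ : ℕ) (hC : G2_CM n C₀) (t θ : ℝ) (ht : 0 < t)
    (hθ : 0 < θ) (k : ℕ) : ∃ κ : ℝ, 0 < κ ∧
    ∀ (L W : ℕ) [NeZero L] [NeZero W], 8 ≤ W → W ≤ L → ∀ R : ℤ, R = ((W / 4 : ℕ) : ℤ) + 1 →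
      θ / (W : ℝ) ^ (2 * n) ≤ P L W n t (Exit L W n R (pt L W n 0 0)) →
      ∀ s : Finset (Fin n), s.card = k → ∀ c u : Fin n → ℤ, (∀ j, 2 * |u j| ≤ W) →
        κ / (W : ℝ) ^ (C₀ + k * (C₀ + 2 * (n + 1))) ≤
          P L W n t (Conn (gT L W n) (strip L W n 1 (2 * R - 1))
            (pt L W n R c) (pt L W n R (fun j => if j ∈ s then c j + u j else c j))) := by
  classical
  obtain ⟨κ₀, hκ₀, h0⟩ := hC t θ ht hθ
  induction k with
  | zero =>
    refine ⟨κ₀, hκ₀, ?_⟩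
    intro L W _ _ hW hL R hR hE s hs c u hu
    have h1 := h0 L W hW hL R hR hE ⟨0, hn⟩ c 0 (by simp)
    rw [Finset.card_eq_zero] at hs
    subst hs
    have h2 : Function.update c (⟨0, hn⟩ : Fin n) (c ⟨0, hn⟩ + 0) = c := by simp
    rw [h2] at h1
    simpa using h1
  | succ k ih =>
    obtain ⟨κk, hκk, hk⟩ := ih
    obtain ⟨κ, hκ, hSM⟩ := SMpoly n t ht.le κk κ₀ hκk hκ₀ (C₀ + k * (C₀ + 2 * (n + 1))) C₀
    refine ⟨κ, hκ, ?_⟩
    intro L W _ _ hW hL R hR hE s hs c u hu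
    obtain ⟨m, s', hm, rfl, hs'⟩ := Finset.card_eq_succ.mp hs
    have h1 := hk L W hW hL R hR hE s' hs' c u hu
    have h2 := h0 L W hW hL R hR hE m (fun j => if j ∈ s' then c j + u j else c j) (u m) (hu m)
    have hD : (strip L W n 1 (2 * R - 1)).ncard ≤ W ^ (n + 1) :=
      (Set.ncard_le_ncard Set.subset_union_left (Set.toFinite _)).trans
        (G2_ncard hn hW R hR (pt L W n 0 0) (pt L W n 0 0))
    have h3 := hSM L W (strip L W n 1 (2 * R - 1)) hD _ _ _ h1 h2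
    have h4 : Function.update (fun j => if j ∈ s' then c j + u j else c j) m
        ((if m ∈ s' then c m + u m else c m) + u m) =
        fun j => if j ∈ insert m s' then c j + u j else c j := by
      funext j
      by_cases hj : j = m
      · subst hj
        simp [hm]
      · rw [Function.update_of_ne hj]
        simp [Finset.mem_insert, hj]
    have h5 : C₀ + k * (C₀ + 2 * (n + 1)) + C₀ + 2 * (n + 1) =
        C₀ + (k + 1) * (C₀ + 2 * (n + 1)) := by ring
    rw [h5] at h3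
    rw [h4] at h3
    exact h3

/-- The second part of `moves` with a power of `W`. -/
private theorem G2_start (n : ℕ) (hn : 1 ≤ n) (t θ : ℝ) (ht : 0 < t) (hθ : 0 < θ) :
    ∃ κ : ℝ, 0 < κ ∧ ∀ (L W : ℕ) [NeZero L] [NeZero W], 8 ≤ W → W ≤ L →
      ∀ R : ℤ, R = ((W / 4 : ℕ) : ℤ) + 1 →
      θ / (W : ℝ) ^ (2 * n) ≤ P L W n t (Exit L W n R (pt L W n 0 0)) →
      ∃ c : Fin n → ℤ, κ / (W : ℝ) ^ (4 * n) ≤
        P L W n t (Conn (gT L W n) (strip L W n 1 (R - 1) ∪ {pt L W n 0 0, pt L W n R c})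
          (pt L W n 0 0) (pt L W n R c)) := by
  refine ⟨Real.exp (-(4 * (n + 1) * t)) * θ / ((2 * n + 2) * 2 ^ (2 * n)), by positivity, ?_⟩
  intro L W _ _ hW hL R hR hE
  have hW0 : (0 : ℝ) < W := by exact_mod_cast (by omega : 0 < W)
  have hR1 : 1 ≤ R := by omega
  obtain ⟨-, c, hc⟩ := moves (L := L) (W := W) (t := t) hn ht.le R hR1 (by omega) (by omega)
    (θ / (W : ℝ) ^ (2 * n)) (by positivity) hE
  refine ⟨c, le_trans ?_ hc⟩
  have hRW : (R : ℝ) ≤ W := by exact_mod_cast (by omega : R ≤ (W : ℤ))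
  have hR0 : (0 : ℝ) < R := by exact_mod_cast (by omega : 0 < R)
  have h1 : (2 * (R : ℝ)) ^ (2 * n) ≤ 2 ^ (2 * n) * (W : ℝ) ^ (2 * n) := by
    rw [← mul_pow]
    exact pow_le_pow_left₀ (by positivity) (by linarith) _
  have h2 : Real.exp (-(4 * (n + 1) * t)) * θ / ((2 * n + 2) * 2 ^ (2 * n)) / (W : ℝ) ^ (4 * n) =
      Real.exp (-(4 * (n + 1) * t)) * (θ / (W : ℝ) ^ (2 * n)) /
        ((2 * n + 2) * (2 ^ (2 * n) * (W : ℝ) ^ (2 * n))) := by
    have h3 : (W : ℝ) ^ (4 * n) = (W : ℝ) ^ (2 * n) * (W : ℝ) ^ (2 * n) := by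
      rw [← pow_add]
      congr 1
      ring
    rw [h3]
    field_simp
  rw [h2]
  refine div_le_div_of_nonneg_left (by positivity) (by positivity) ?_
  exact mul_le_mul_of_nonneg_left h1 (by positivity)

theorem right_conn_exp (n : ℕ) (hn : 1 ≤ n) : ∀ t θ : ℝ, 0 < t → 0 < θ → ∃ κ : ℝ, 0 < κ ∧
    ∀ (L W : ℕ) [NeZero L] [NeZero W], 8 ≤ W → W ≤ L →
      θ / (W : ℝ) ^ (2 * n) ≤ P L W n t (Exit L W n (((W / 4 : ℕ) : ℤ) + 1) (pt L W n 0 0)) →
      ∀ u : Fin n → ℤ, (∀ j, 2 * |u j| ≤ W) →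
        κ / (W : ℝ) ^ (14 * n ^ 2 + 30 * n + 8) ≤
          P L W n t (Conn (gT L W n) (strip L W n 1 W ∪ {pt L W n 0 0, pt L W n 0 u})
            (pt L W n 0 0) (pt L W n 0 u)) := by
  classical
  obtain ⟨C₀, hC₀', hC₀⟩ : ∃ C₀ : ℕ, C₀ = 12 * n + 4 ∧ G2_CM n C₀ := ⟨_, rfl, coord_move_exp n hn⟩
  have hexp : 4 * n + (C₀ + n * (C₀ + 2 * (n + 1))) + 2 * (n + 1) + 4 * n + 2 * (n + 1) =
      14 * n ^ 2 + 30 * n + 8 := by
    rw [hC₀']; ring
  intro t θ ht hθ
  obtain ⟨κ₁, hκ₁, h₁⟩ := G2_start n hn t θ ht hθ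
  obtain ⟨κ₂, hκ₂, h₂⟩ := G2_coords n hn C₀ hC₀ t θ ht hθ n
  obtain ⟨κ₃, hκ₃, hSM₁⟩ := SMpoly n t ht.le κ₁ κ₂ hκ₁ hκ₂ (4 * n)
    (C₀ + n * (C₀ + 2 * (n + 1)))
  obtain ⟨κ₄, hκ₄, hSM₂⟩ := SMpoly n t ht.le κ₃ κ₁ hκ₃ hκ₁
    (4 * n + (C₀ + n * (C₀ + 2 * (n + 1))) + 2 * (n + 1)) (4 * n)
  refine ⟨κ₄, hκ₄, ?_⟩
  intro L W _ _ hW hL hE u hu
  obtain ⟨R, hR⟩ : ∃ R : ℤ, R = ((W / 4 : ℕ) : ℤ) + 1 := ⟨_, rfl⟩
  rw [← hR] at hE
  have hR1 : 1 ≤ R := by omega
  have hR2 : 2 * R - 1 ≤ (W : ℤ) := by omega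
  obtain ⟨c, hc⟩ := h₁ L W hW hL R hR hE
  have hcu := h₂ L W hW hL R hR hE Finset.univ (by simp) c u hu
  simp only [Finset.mem_univ, if_true] at hcu
  set D : Set (Vx L W n) := strip L W n 1 (2 * R - 1) ∪ {pt L W n 0 0, pt L W n 0 u} with hD
  have hDn : D.ncard ≤ W ^ (n + 1) := G2_ncard hn hW R hR _ _
  have hstrip : strip L W n 1 (R - 1) ⊆ strip L W n 1 (2 * R - 1) := by
    rintro v ⟨i, h1, h2, h3⟩
    exact ⟨i, h1, by omega, h3⟩
  have hpR : ∀ v : Fin n → ℤ, pt L W n R v ∈ strip L W n 1 (2 * R - 1) := fun v =>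
    ⟨R, hR1, by omega, rfl⟩
  -- first part
  have hA : κ₁ / (W : ℝ) ^ (4 * n) ≤
      P L W n t (Conn (gT L W n) D (pt L W n 0 0) (pt L W n R c)) := by
    refine hc.trans (G2_P_mono ht.le ?_ _ _)
    rintro v (hv | hv | hv)
    · exact Or.inl (hstrip hv)
    · exact Or.inr (Or.inl hv)
    · exact Or.inl (hv ▸ hpR c)
  -- second part
  have hB : κ₂ / (W : ℝ) ^ (C₀ + n * (C₀ + 2 * (n + 1))) ≤
      P L W n t (Conn (gT L W n) D (pt L W n R c) (pt L W n R fun j => c j + u j)) :=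
    hcu.trans (G2_P_mono ht.le Set.subset_union_left _ _)
  -- third part
  have hCC : κ₁ / (W : ℝ) ^ (4 * n) ≤
      P L W n t (Conn (gT L W n) D (pt L W n R fun j => c j + u j) (pt L W n 0 u)) := by
    rw [P_Conn_reverse]
    have e1 : pt L W n 0 0 + pt L W n 0 u = pt L W n 0 u := by
      ext <;> simp [pt]
    have e2 : pt L W n R c + pt L W n 0 u = pt L W n R fun j => c j + u j := by
      ext <;> simp [pt]
    have h3 := hc
    rw [P_Conn_shift (pt L W n 0 u), e1, e2] at h3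
    refine h3.trans (G2_P_mono ht.le ?_ _ _)
    rintro v ⟨v', (⟨i, hi1, hi2, hi⟩ | hv | hv), rfl⟩
    · refine Or.inl ⟨i, hi1, by omega, ?_⟩
      simp [pt, hi]
    · show v' + pt L W n 0 u ∈ D
      rw [hv, e1]
      exact Or.inr (Or.inr rfl)
    · show v' + pt L W n 0 u ∈ D
      rw [Set.mem_singleton_iff] at hv
      rw [hv, e2]
      exact Or.inl (hpR _)
  have h12 := hSM₁ L W D hDn _ _ _ hA hB
  have h123 := hSM₂ L W D hDn _ _ _ h12 hCC
  rw [hexp] at h123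
  refine h123.trans (G2_P_mono ht.le ?_ _ _)
  rintro v (⟨i, hi1, hi2, hi⟩ | hv)
  · exact Or.inl ⟨i, hi1, by omega, hi⟩
  · exact Or.inr hv

theorem right_conn (n : ℕ) (hn : 1 ≤ n) : ∃ C : ℕ, ∀ t θ : ℝ, 0 < t → 0 < θ → ∃ κ : ℝ, 0 < κ ∧
    ∀ (L W : ℕ) [NeZero L] [NeZero W], 8 ≤ W → W ≤ L →
      θ / (W : ℝ) ^ (2 * n) ≤ P L W n t (Exit L W n (((W / 4 : ℕ) : ℤ) + 1) (pt L W n 0 0)) →
      ∀ u : Fin n → ℤ, (∀ j, 2 * |u j| ≤ W) →
        κ / (W : ℝ) ^ C ≤ P L W n t (Conn (gT L W n) (strip L W n 1 W ∪ {pt L W n 0 0, pt L W n 0 u})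
          (pt L W n 0 0) (pt L W n 0 u)) :=
  ⟨14 * n ^ 2 + 30 * n + 8, right_conn_exp n hn⟩

end

end Pool.Agent.ThinTori.Dim

/-! Stirring on thin tori of any dimension, row G3: segments to the right -/


open Finset

namespace Pool.Agent.ThinTori.Dim

section

private theorem G3_Seg_mono {V α : Type*} {g : α → Equiv.Perm V} {D D' : Set V}
    (h : ∀ v ∈ D, v ∈ D') (a b : V) (l : List α) (hS : Seg g D a b l) : Seg g D' a b l := by
  obtain ⟨k, hk, n, hn, hD⟩ := hS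
  exact ⟨k, hk, n, hn, fun i h1 h2 => h _ (hD i h1 h2)⟩

theorem right_seg (n : ℕ) (hn : 1 ≤ n) : ∀ t θ : ℝ, 0 < t → 0 < θ → ∃ κ : ℝ, 0 < κ ∧
    ∀ (L W : ℕ) [NeZero L] [NeZero W], 8 ≤ W → W + 2 ≤ L →
      θ / (W : ℝ) ^ (2 * n) ≤ P L W n t (Exit L W n (((W / 4 : ℕ) : ℤ) + 1) (pt L W n 0 0)) →
      ∀ (x : ℤ) (y₁ y₂ : Fin n → ZMod W), y₁ ≠ y₂ →
        κ / (W : ℝ) ^ (14 * n ^ 2 + 30 * n + 8) ≤ P L W n t (Seg (gT L W n) (strip L W n (x + 1) (x + W))
          ((x : ZMod L), y₁) ((x : ZMod L), y₂)) := by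
  intro t θ ht hθ0
  obtain ⟨κ, hκ, h⟩ := right_conn_exp n hn t θ ht hθ0
  refine ⟨κ, hκ, ?_⟩
  intro L W _ _ hW hL hθ x y₁ y₂ hy
  have hnn : ∀ _ : Ed L W n, (0 : ℝ) ≤ t := fun _ => ht.le
  -- integer representatives of the difference
  let u : Fin n → ℤ := fun j => (y₂ j - y₁ j).valMinAbs
  have hu : ∀ j, 2 * |u j| ≤ W := by
    intro j
    have h1 := ZMod.natAbs_valMinAbs_le (y₂ j - y₁ j)
    have h2 : |u j| = ((u j).natAbs : ℤ) := Int.abs_eq_natAbs _
    have h3 : (u j).natAbs ≤ W / 2 := h1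
    rw [h2]
    omega
  have huc : ∀ j, ((u j : ℤ) : ZMod W) = y₂ j - y₁ j := fun j => ZMod.coe_valMinAbs _
  have hne : pt L W n 0 0 ≠ pt L W n 0 u := by
    intro he
    apply hy
    have h1 : (fun j => (((0 : Fin n → ℤ) j : ℤ) : ZMod W)) = fun j => ((u j : ℤ) : ZMod W) :=
      congrArg Prod.snd he
    funext j
    have h2 := congrFun h1 j
    rw [huc] at h2
    simp only [Pi.zero_apply, Int.cast_zero] at h2
    exact (sub_eq_zero.1 h2.symm).symm
  have h1 := h L W hW (by omega) hθ u hu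
  refine h1.trans ?_
  have h2 : P L W n t (Conn (gT L W n) (strip L W n 1 W ∪ {pt L W n 0 0, pt L W n 0 u})
      (pt L W n 0 0) (pt L W n 0 u)) ≤
      P L W n t (Seg (gT L W n) (strip L W n 1 W) (pt L W n 0 0) (pt L W n 0 u)) :=
    Pr_mono hnn fun l hl => Conn_Seg _ _ _ hne l hl
  refine h2.trans ?_
  rw [P_Seg_shift (((x : ℤ) : ZMod L), y₁)]
  have e1 : pt L W n 0 0 + (((x : ℤ) : ZMod L), y₁) = (((x : ℤ) : ZMod L), y₁) := by
    unfold pt
    ext j
    · simp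
    · simp
  have e2 : pt L W n 0 u + (((x : ℤ) : ZMod L), y₁) = (((x : ℤ) : ZMod L), y₂) := by
    unfold pt
    ext j
    · simp
    · simp only [Prod.snd_add, Pi.add_apply, huc]
      ring
  rw [e1, e2]
  refine Pr_mono hnn fun l hl => G3_Seg_mono ?_ _ _ l hl
  rintro v ⟨w, ⟨i, hi1, hi2, hi3⟩, rfl⟩
  refine ⟨i + x, by omega, by omega, ?_⟩
  simp only [Prod.fst_add, hi3]
  push_cast
  ring

end

end Pool.Agent.ThinTori.Dim

/-! Stirring on thin tori of any dimension, row G4: turning back -/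


open Finset

namespace Pool.Agent.ThinTori.Dim

section

private theorem G4_cast_ne {L : ℕ} (i j : ℤ) (h1 : 1 ≤ j - i) (h2 : j - i < L) :
    (i : ZMod L) ≠ (j : ZMod L) := by
  intro h
  rw [ZMod.intCast_eq_intCast_iff_dvd_sub] at h
  have := Int.le_of_dvd (by omega) h
  omega

private theorem G4_step {L W n : ℕ} (e : Ed L W n) (v : Vx L W n) :
    (gT L W n e v).1 = v.1 ∨ (gT L W n e v).1 = v.1 + 1 ∨ v.1 = (gT L W n e v).1 + 1 := by
  obtain ⟨u, b⟩ := e
  unfold gT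
  rcases eq_or_ne v u with rfl | h1
  · rw [Equiv.swap_apply_left]
    cases b
    · right; left; simp [dir]
    · left; simp [dir]
  · rcases eq_or_ne v (u + dir L W n b) with rfl | h2
    · rw [Equiv.swap_apply_right]
      cases b
      · right; right; simp [dir]
      · left; simp [dir]
    · rw [Equiv.swap_apply_of_ne_of_ne h1 h2]
      left; rfl

private theorem G4_moved {L W n : ℕ} (e : Ed L W n) (u w : Vx L W n) (hu : gT L W n e u ≠ u)
    (hw : gT L W n e w ≠ w) : w = u ∨ w = gT L W n e u := by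
  obtain ⟨a, b⟩ := e
  unfold gT at *
  rcases eq_or_ne u a with rfl | h1
  · rw [Equiv.swap_apply_left]
    by_contra hc
    push Not at hc
    exact hw (Equiv.swap_apply_of_ne_of_ne hc.1 hc.2)
  · rcases eq_or_ne u (a + dir L W n b) with rfl | h2
    · rw [Equiv.swap_apply_right]
      by_contra hc
      push Not at hc
      exact hw (Equiv.swap_apply_of_ne_of_ne hc.2 hc.1)
    · exact absurd (Equiv.swap_apply_of_ne_of_ne h1 h2) hu

private theorem G4_invol {L W n : ℕ} (e : Ed L W n) (u : Vx L W n) : gT L W n e (gT L W n e u) = u := by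
  unfold gT
  exact Equiv.swap_apply_self _ _ _

private theorem G4_isSw (L W n : ℕ) : IsSw (gT L W n) := fun _ => ⟨_, _, rfl⟩

/-- two columns at distance at least two -/
private theorem G4_far {L : ℕ} (i j : ℤ) (h1 : 2 ≤ j - i) (h2 : j - i + 2 ≤ L) :
    (j : ZMod L) ≠ (i : ZMod L) ∧ (j : ZMod L) ≠ (i : ZMod L) + 1 ∧
      (i : ZMod L) ≠ (j : ZMod L) + 1 := by
  refine ⟨(G4_cast_ne i j (by omega) (by omega)).symm, ?_, ?_⟩
  · have := (G4_cast_ne (L := L) (i + 1) j (by omega) (by omega)).symm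
    push_cast at this
    exact this
  · intro h
    have h3 := G4_cast_ne (L := L) i (j + 1) (by omega) (by omega)
    push_cast at h3
    exact h3 h

private theorem G4_exc_mono {V α : Type*} {g : α → Equiv.Perm V} {D D' A P P' : Set V}
    (hD : D ⊆ D') (hP : P ⊆ P') {l : List α} (h : Exc g D A P l) : Exc g D' A P' l := by
  obtain ⟨k, hk, a, ha, n, h1, h2, i, hi1, hi2, hi3⟩ := h
  exact ⟨k, hk, a, ha, n, h1, fun i hi1 hi2 => hD (h2 i hi1 hi2), i, hi1, hi2, hP hi3⟩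

/-- there and back -/
private def G4_A (L W n : ℕ) (x : ℤ) (y₁ y₂ : Fin n → ZMod W) (l : List (Ed L W n)) : Prop :=
  (∃ a ∈ col L W n 0, Seg (gT L W n) (strip L W n 1 (x - 1)) a ((x : ZMod L), y₁) l) ∧
    ∃ a ∈ col L W n 0, Seg (gT L W n) (strip L W n 1 (x - 1)) ((x : ZMod L), y₂) a l

private theorem G4_cross {L W n : ℕ} [NeZero L] [NeZero W] (x : ℤ) (hx : 2 ≤ x) (hxL : x + 2 ≤ L)
    (l : List (Ed L W n)) (h : Cross L W n 0 x l) :
    ∃ z ∈ (Finset.univ : Finset ((Fin n → ZMod W) × (Fin n → ZMod W))), G4_A L W n x z.1 z.2 l := by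
  have h' := (cross_back 0 x hx hxL l).mp h
  obtain ⟨y, y', hs⟩ := h
  obtain ⟨z, z', hs'⟩ := h'
  rw [zero_add, zero_add] at hs hs'
  exact ⟨(y', z), Finset.mem_univ _, ⟨((0 : ℤ), y), rfl, hs⟩, ⟨((0 : ℤ), z'), rfl, hs'⟩⟩

section Fix

variable {L W n : ℕ} [NeZero L] [NeZero W] {t : ℝ}

omit [NeZero L] [NeZero W] in
private theorem G4_strip_col {i₁ i₂ : ℤ} {v : Vx L W n} (hv : v ∈ strip L W n i₁ i₂) (j : ℤ)
    (h : (∀ i, i₁ ≤ i → i ≤ i₂ → (i : ZMod L) ≠ (j : ZMod L))) : v.1 ≠ (j : ZMod L) := by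
  obtain ⟨i, h1, h2, h3⟩ := hv
  rw [h3]
  exact h i h1 h2

private theorem G4_same (ht : 0 ≤ t) (x : ℤ) (hx : 2 ≤ x) (hxL : x + W + 1 ≤ L) (y : Fin n → ZMod W) :
    P L W n t (G4_A L W n x y y) ≤ Real.exp (4 * (n + 1) * t) * P L W n t (Win L W n x) := by
  have hv1 : ((x : ZMod L), y) ∉ strip L W n 1 (x - 1) := by
    intro hv
    exact G4_strip_col hv x (fun i h1 h2 => G4_cast_ne i x (by omega) (by omega)) rfl
  have hv2 : ((x : ZMod L), y) ∉ col L W n 0 := by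
    intro hv
    exact G4_cast_ne (L := L) 0 x (by omega) (by omega) hv.symm
  have hdis : Disjoint (strip L W n 1 (x - 1)) (col L W n 0) := by
    rw [Set.disjoint_left]
    intro v hv hv'
    exact G4_strip_col hv 0 (fun i h1 h2 => (G4_cast_ne 0 i (by omega) (by omega)).symm) hv'
  have key := Pr_delete (c := fun _ : Ed L W n => t) (fun _ => ht) (inc (gT L W n) {((x : ZMod L), y)})
    (G4_A L W n x y y) (Win L W n x) (fun l hl => by
      obtain ⟨m, hm1, hm2, hm3⟩ := glue_same (G4_isSw L W n) (strip L W n 1 (x - 1)) (col L W n 0)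
        ((x : ZMod L), y) (by rintro (h | h); exacts [hv1 h, hv2 h]) hdis l hl.1 hl.2
      refine ⟨m, hm1, hm2, G4_exc_mono ?_ ?_ hm3⟩
      · rintro v (⟨i, h1, h2, h3⟩ | hv)
        · exact ⟨i, h1, by omega, h3⟩
        · rw [Set.mem_singleton_iff.mp hv]
          exact ⟨x, by omega, by omega, rfl⟩
      · rintro v hv
        rw [Set.mem_singleton_iff.mp hv]
        rfl)
  have hmass := inc_mass (L := L) (W := W) ht {((x : ZMod L), y)}
  rw [Set.ncard_singleton] at hmass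
  have hP : 0 ≤ P L W n t (Win L W n x) := Pr_nonneg (fun _ => ht) _
  refine le_trans key (mul_le_mul_of_nonneg_right (Real.exp_le_exp.mpr ?_) hP)
  refine le_trans hmass ?_
  have h0 : 0 ≤ ((n : ℝ) + 1) * t := by positivity
  push_cast
  linarith

private theorem G4_ne (ht : 0 ≤ t) (x : ℤ) (hx : 2 ≤ x) (hxL : x + W + 1 ≤ L) (hW : 2 ≤ W)
    (y₁ y₂ : Fin n → ZMod W) (hy : y₁ ≠ y₂) :
    P L W n t (G4_A L W n x y₁ y₂) * P L W n t (Seg (gT L W n) (strip L W n (x + 1) (x + W))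
          ((x : ZMod L), y₁) ((x : ZMod L), y₂)) ≤
      Real.exp (4 * (n + 1) * t) * P L W n t (Win L W n x) := by
  classical
  set v₁ : Vx L W n := ((x : ZMod L), y₁) with hv₁
  set v₂ : Vx L W n := ((x : ZMod L), y₂) with hv₂
  set D₁ : Set (Vx L W n) := strip L W n 1 (x - 1) with hD₁
  set D₂ : Set (Vx L W n) := strip L W n (x + 1) (x + W) with hD₂
  have hne : v₁ ≠ v₂ := by
    intro h
    exact hy (congrArg Prod.snd h)
  have hD₁x : ∀ v ∈ D₁, v.1 ≠ (x : ZMod L) := fun v hv =>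
    G4_strip_col hv x (fun i h1 h2 => G4_cast_ne i x (by omega) (by omega))
  have hD₁0 : ∀ v ∈ D₁, v.1 ≠ ((0 : ℤ) : ZMod L) := fun v hv =>
    G4_strip_col hv 0 (fun i h1 h2 => (G4_cast_ne 0 i (by omega) (by omega)).symm)
  have hD₂x : ∀ v ∈ D₂, v.1 ≠ (x : ZMod L) := fun v hv =>
    G4_strip_col hv x (fun i h1 h2 => (G4_cast_ne x i (by omega) (by omega)).symm)
  have hD₂0 : ∀ v ∈ D₂, v.1 ≠ ((0 : ℤ) : ZMod L) := fun v hv =>
    G4_strip_col hv 0 (fun i h1 h2 => (G4_cast_ne 0 i (by omega) (by omega)).symm)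
  have h0x : ((0 : ℤ) : ZMod L) ≠ (x : ZMod L) := G4_cast_ne 0 x (by omega) (by omega)
  have hfar : ∀ v ∈ D₁, ∀ w ∈ D₂, w.1 ≠ v.1 ∧ w.1 ≠ v.1 + 1 ∧ v.1 ≠ w.1 + 1 := by
    rintro v ⟨i, h1, h2, h3⟩ w ⟨j, h4, h5, h6⟩
    rw [h3, h6]
    exact G4_far i j (by omega) (by omega)
  have hfar0 := G4_far (L := L) 0 x (by omega) (by omega)
  -- the letters
  set p : Ed L W n → Bool := inc (gT L W n) D₁ with hp
  set q : Ed L W n → Bool := fun e => decide ((∃ v ∈ D₂, gT L W n e v ≠ v) ∨ gT L W n e v₁ = v₂) with hq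
  have hpf : ∀ a, p a = false → ∀ v ∈ D₁, gT L W n a v = v := by
    intro a ha v hv
    by_contra hc
    have : p a = true := by
      simp only [hp, inc, decide_eq_true_eq]
      exact ⟨v, hv, hc⟩
    rw [this] at ha
    exact Bool.noConfusion ha
  have hqf : ∀ a, q a = false → (∀ v ∈ D₂, gT L W n a v = v) ∧ gT L W n a v₁ ≠ v₂ := by
    intro a ha
    simp only [hq, decide_eq_false_iff_not, not_or, not_exists, not_and, not_not] at ha
    exact ⟨ha.1, ha.2⟩
  have hpq : ∀ a, p a = true → q a = false := by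
    intro a ha
    simp only [hp, inc, decide_eq_true_eq] at ha
    obtain ⟨u, hu, hu'⟩ := ha
    simp only [hq, decide_eq_false_iff_not]
    rintro (⟨w, hw, hw'⟩ | h12)
    · obtain ⟨f1, f2, f3⟩ := hfar u hu w hw
      rcases G4_moved a u w hu' hw' with h | h
      · exact f1 (by rw [h])
      · rcases G4_step a u with h' | h' | h'
        · exact f1 (by rw [h]; exact h')
        · exact f2 (by rw [h]; exact h')
        · exact f3 (by rw [h]; exact h')
    · have hmv : gT L W n a v₁ ≠ v₁ := by rw [h12]; exact hne.symm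
      rcases G4_moved a u v₁ hu' hmv with h | h
      · exact hD₁x u hu (by rw [← h])
      · have : u = v₂ := by rw [← h12, h, G4_invol]
        exact hD₁x u hu (by rw [this])
  -- nothing joins the column `0` and the column `x`
  have hno1 : ∀ (e : Ed L W n) (a : Vx L W n), a ∈ col L W n 0 → gT L W n e a ≠ v₁ := by
    intro e a ha h
    have ha' : a.1 = ((0 : ℤ) : ZMod L) := ha
    have hx' : (gT L W n e a).1 = (x : ZMod L) := by rw [h]
    rcases G4_step e a with h' | h' | h'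
    · exact hfar0.1 (by rw [← hx', h', ha'])
    · exact hfar0.2.1 (by rw [← hx', h', ha'])
    · exact hfar0.2.2 (by rw [← hx', ← h', ha'])
  have hno2 : ∀ (e : Ed L W n) (a : Vx L W n), a ∈ col L W n 0 → gT L W n e v₂ ≠ a := by
    intro e a ha h
    have ha' : (gT L W n e v₂).1 = ((0 : ℤ) : ZMod L) := by rw [h]; exact ha
    have hx' : v₂.1 = (x : ZMod L) := rfl
    rcases G4_step e v₂ with h' | h' | h'
    · exact hfar0.1 (by rw [← hx', ← h', ha'])
    · exact hfar0.2.2 (by rw [← hx', ← h', ha'])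
    · exact hfar0.2.1 (by rw [← hx', h', ha'])
  have hv₁D₁ : v₁ ∉ D₁ := fun h => hD₁x _ h rfl
  have hv₂D₁ : v₂ ∉ D₁ := fun h => hD₁x _ h rfl
  have hv₁D₂ : v₁ ∉ D₂ := fun h => hD₂x _ h rfl
  have hv₂D₂ : v₂ ∉ D₂ := fun h => hD₂x _ h rfl
  have hv₁A : v₁ ∉ col L W n 0 := fun h => h0x h.symm
  have hv₂A : v₂ ∉ col L W n 0 := fun h => h0x h.symm
  have hAfilt : ∀ l, G4_A L W n x y₁ y₂ (l.filter p) ↔ G4_A L W n x y₁ y₂ l := by
    intro l
    unfold G4_A
    refine and_congr ?_ ?_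
    · refine exists_congr fun a => and_congr_right fun ha => ?_
      have haD : a ∉ D₁ := fun h => hD₁0 _ h ha
      have hav : a ≠ v₁ := by rintro rfl; exact hv₁A ha
      exact Seg_filter p D₁ hpf a v₁ haD hav (fun e _ => hno1 e a ha) l
    · refine exists_congr fun a => and_congr_right fun ha => ?_
      have hav : v₂ ≠ a := by rintro rfl; exact hv₂A ha
      exact Seg_filter p D₁ hpf v₂ a hv₂D₁ hav (fun e _ => hno2 e a ha) l
  have hSfilt : ∀ l, Seg (gT L W n) D₂ v₁ v₂ (l.filter q) ↔ Seg (gT L W n) D₂ v₁ v₂ l := fun l =>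
    Seg_filter q D₂ (fun a ha => (hqf a ha).1) v₁ v₂ hv₁D₂ hne (fun e he => (hqf e he).2) l
  have hindep : P L W n t (G4_A L W n x y₁ y₂) * P L W n t (Seg (gT L W n) D₂ v₁ v₂) =
      P L W n t (fun l => G4_A L W n x y₁ y₂ l ∧ Seg (gT L W n) D₂ v₁ v₂ l) := by
    unfold P
    have e1 : Pr (fun _ : Ed L W n => t) (G4_A L W n x y₁ y₂) =
        Pr (restr (fun _ : Ed L W n => t) p) (G4_A L W n x y₁ y₂) := by
      rw [← Pr_filter]
      exact Pr_congr _ fun l _ => (hAfilt l).symm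
    have e2 : Pr (fun _ : Ed L W n => t) (Seg (gT L W n) D₂ v₁ v₂) =
        Pr (restr (fun _ : Ed L W n => t) q) (Seg (gT L W n) D₂ v₁ v₂) := by
      rw [← Pr_filter]
      exact Pr_congr _ fun l _ => (hSfilt l).symm
    rw [e1, e2, ← Pr_indep (fun _ : Ed L W n => t) p q hpq]
    exact Pr_congr _ fun l _ => and_congr (hAfilt l) (hSfilt l)
  rw [hindep]
  have hd12 : Disjoint D₁ D₂ := by
    rw [Set.disjoint_left]
    intro v h1 h2
    exact (hfar v h1 v h2).1 rfl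
  have hd1A : Disjoint D₁ (col L W n 0) := by
    rw [Set.disjoint_left]
    intro v h1 h2
    exact hD₁0 v h1 h2
  have hd2A : Disjoint D₂ (col L W n 0) := by
    rw [Set.disjoint_left]
    intro v h1 h2
    exact hD₂0 v h1 h2
  have key := Pr_delete (c := fun _ : Ed L W n => t) (fun _ => ht) (inc (gT L W n) {v₁, v₂})
    (fun l => G4_A L W n x y₁ y₂ l ∧ Seg (gT L W n) D₂ v₁ v₂ l) (Win L W n x) (fun l hl => by
      obtain ⟨m, hm1, hm2, hm3⟩ := glue (G4_isSw L W n) D₁ D₂ (col L W n 0) v₁ v₂ hne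
        (by rintro ((h | h) | h); exacts [hv₁D₁ h, hv₁D₂ h, hv₁A h])
        (by rintro ((h | h) | h); exacts [hv₂D₁ h, hv₂D₂ h, hv₂A h])
        hd12 hd1A hd2A l hl.1.1 hl.1.2 hl.2
      refine ⟨m, hm1, hm2, G4_exc_mono ?_ ?_ hm3⟩
      · rintro v ((⟨i, h1, h2, h3⟩ | ⟨i, h1, h2, h3⟩) | hv)
        · exact ⟨i, h1, by omega, h3⟩
        · exact ⟨i, by omega, h2, h3⟩
        · rcases hv with hv | hv
          · rw [hv]
            exact ⟨x, by omega, by omega, rfl⟩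
          · rw [Set.mem_singleton_iff.mp hv]
            exact ⟨x, by omega, by omega, rfl⟩
      · rintro v hv
        rw [Set.mem_singleton_iff.mp hv]
        rfl)
  have hmass := inc_mass (L := L) (W := W) ht {v₁, v₂}
  rw [Set.ncard_pair hne] at hmass
  have hP : 0 ≤ P L W n t (Win L W n x) := Pr_nonneg (fun _ => ht) _
  refine le_trans key (mul_le_mul_of_nonneg_right (Real.exp_le_exp.mpr ?_) hP)
  refine le_trans hmass ?_
  have h0 : 0 ≤ ((n : ℝ) + 1) * t := by positivity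
  push_cast
  linarith

end Fix

/- G4 -/
theorem window (n : ℕ) (hn : 1 ≤ n) : ∀ t θ : ℝ, 0 < t → 0 < θ → ∃ K : ℝ, 0 < K ∧
    ∀ (L W : ℕ) [NeZero L] [NeZero W], 8 ≤ W →
      θ / (W : ℝ) ^ (2 * n) ≤ P L W n t (Exit L W n (((W / 4 : ℕ) : ℤ) + 1) (pt L W n 0 0)) →
      ∀ x : ℤ, 2 ≤ x → x + W + 1 ≤ L →
        P L W n t (Cross L W n 0 x) ≤
          K * (W : ℝ) ^ (14 * n ^ 2 + 32 * n + 8) * P L W n t (Win L W n x) := by
  obtain ⟨C₀, hC₀', hC₀⟩ : ∃ C₀ : ℕ, C₀ = 14 * n ^ 2 + 30 * n + 8 ∧ ∀ t θ : ℝ, 0 < t → 0 < θ →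
      ∃ κ : ℝ, 0 < κ ∧ ∀ (L W : ℕ) [NeZero L] [NeZero W], 8 ≤ W → W + 2 ≤ L →
      θ / (W : ℝ) ^ (2 * n) ≤ P L W n t (Exit L W n (((W / 4 : ℕ) : ℤ) + 1) (pt L W n 0 0)) →
      ∀ (x : ℤ) (y₁ y₂ : Fin n → ZMod W), y₁ ≠ y₂ →
        κ / (W : ℝ) ^ C₀ ≤ P L W n t (Seg (gT L W n) (strip L W n (x + 1) (x + W))
          ((x : ZMod L), y₁) ((x : ZMod L), y₂)) := ⟨_, rfl, right_seg n hn⟩
  have hexp : 14 * n ^ 2 + 32 * n + 8 = C₀ + 2 * n := by
    rw [hC₀']; ring
  rw [hexp]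
  intro t θ ht hθ0
  obtain ⟨κ, hκ, hseg⟩ := hC₀ t θ ht hθ0
  refine ⟨Real.exp (4 * (n + 1) * t) * (1 + 1 / κ), by positivity, ?_⟩
  intro L W _ _ hW hθ x hx hxL
  have hW0 : (0 : ℝ) < W := by
    have : 0 < W := by omega
    exact_mod_cast this
  have hW1 : (1 : ℝ) ≤ W := by
    have : 1 ≤ W := by omega
    exact_mod_cast this
  have hPW : 0 ≤ P L W n t (Win L W n x) := Pr_nonneg (fun _ => ht.le) _
  have hbd : ∀ z : (Fin n → ZMod W) × (Fin n → ZMod W), P L W n t (G4_A L W n x z.1 z.2) ≤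
      Real.exp (4 * (n + 1) * t) * (1 + 1 / κ) * (W : ℝ) ^ C₀ * P L W n t (Win L W n x) := by
    rintro ⟨y₁, y₂⟩
    dsimp only
    have hpow : (1 : ℝ) ≤ (W : ℝ) ^ C₀ := one_le_pow₀ hW1
    rcases eq_or_ne y₁ y₂ with rfl | hy
    · refine le_trans (G4_same ht.le x hx hxL y₁) (mul_le_mul_of_nonneg_right ?_ hPW)
      have h1 : (1 : ℝ) ≤ (1 + 1 / κ) * (W : ℝ) ^ C₀ := by
        have : (0 : ℝ) < 1 / κ := by positivity
        nlinarith
      calc Real.exp (4 * (n + 1) * t) = Real.exp (4 * (n + 1) * t) * 1 := by ring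
        _ ≤ Real.exp (4 * (n + 1) * t) * ((1 + 1 / κ) * (W : ℝ) ^ C₀) :=
            mul_le_mul_of_nonneg_left h1 (Real.exp_pos _).le
        _ = _ := by ring
    · have h1 := G4_ne (t := t) ht.le x hx hxL (by omega) y₁ y₂ hy
      have h2 := hseg L W hW (by omega) hθ x y₁ y₂ hy
      have h3 : 0 ≤ P L W n t (G4_A L W n x y₁ y₂) := Pr_nonneg (fun _ => ht.le) _
      have h4 : P L W n t (G4_A L W n x y₁ y₂) * (κ / (W : ℝ) ^ C₀) ≤
          Real.exp (4 * (n + 1) * t) * P L W n t (Win L W n x) :=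
        le_trans (mul_le_mul_of_nonneg_left h2 h3) h1
      have h5 : P L W n t (G4_A L W n x y₁ y₂) ≤
          Real.exp (4 * (n + 1) * t) * P L W n t (Win L W n x) * ((W : ℝ) ^ C₀ / κ) := by
        have h6 : 0 < κ / (W : ℝ) ^ C₀ := by positivity
        rw [← div_le_iff₀ (by positivity)]
        refine le_trans (le_of_eq ?_) h4
        field_simp
      refine le_trans h5 ?_
      have h7 : (0 : ℝ) ≤ Real.exp (4 * (n + 1) * t) * P L W n t (Win L W n x) *
          (W : ℝ) ^ C₀ := by positivity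
      have h8 : Real.exp (4 * (n + 1) * t) * P L W n t (Win L W n x) * ((W : ℝ) ^ C₀ / κ) =
          Real.exp (4 * (n + 1) * t) * P L W n t (Win L W n x) * (W : ℝ) ^ C₀ * (1 / κ) := by
        ring
      rw [h8]
      have h9 : Real.exp (4 * (n + 1) * t) * (1 + 1 / κ) * (W : ℝ) ^ C₀ *
          P L W n t (Win L W n x) =
          Real.exp (4 * (n + 1) * t) * P L W n t (Win L W n x) * (W : ℝ) ^ C₀ +
          Real.exp (4 * (n + 1) * t) * P L W n t (Win L W n x) * (W : ℝ) ^ C₀ * (1 / κ) := by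
        ring
      rw [h9]
      linarith
  have hsum : P L W n t (Cross L W n 0 x) ≤
      ∑ z : (Fin n → ZMod W) × (Fin n → ZMod W), P L W n t (G4_A L W n x z.1 z.2) := by
    refine le_trans (Pr_mono (fun _ => ht.le) (fun l hl => G4_cross x hx (by omega) l hl)) ?_
    exact Pr_exists_le (fun _ => ht.le) _
      (fun z : (Fin n → ZMod W) × (Fin n → ZMod W) => G4_A L W n x z.1 z.2)
  refine le_trans hsum (le_trans (Finset.sum_le_sum fun z _ => hbd z) ?_)
  rw [Finset.sum_const, Finset.card_univ, Fintype.card_prod, Fintype.card_pi_const, ZMod.card,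
    nsmul_eq_mul]
  push_cast
  refine le_of_eq ?_
  ring

end

end Pool.Agent.ThinTori.Dim

/-! Stirring on thin tori of any dimension, row G5: the drop -/


open Finset

namespace Pool.Agent.ThinTori.Dim

section

/-- the total weight of the letters between the columns `0` and `1` -/
private theorem G5_mass (L W n : ℕ) [NeZero L] [NeZero W] (t : ℝ) :
    ∑ e : Ed L W n, restr (fun _ : Ed L W n => t) (fun e => e.2.isNone && decide (e.1.1 = 0)) e =
      t * (W : ℝ) ^ n := by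
  classical
  rw [Fintype.sum_prod_type]
  have h1 : ∀ v : Vx L W n, ∑ o : Option (Fin n), restr (fun _ : Ed L W n => t)
      (fun e => e.2.isNone && decide (e.1.1 = 0)) (v, o) = if v.1 = 0 then t else 0 := by
    intro v
    rw [Fintype.sum_option]
    by_cases hv : v.1 = 0
    · simp [restr, hv]
    · simp [restr, hv]
  rw [Finset.sum_congr rfl fun v _ => h1 v, Fintype.sum_prod_type]
  have h2 : ∀ a : ZMod L, ∑ _y : Fin n → ZMod W, (if a = 0 then t else 0) =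
      if a = 0 then t * (W : ℝ) ^ n else 0 := by
    intro a
    rw [Finset.sum_const, Finset.card_univ, Fintype.card_fun, ZMod.card, Fintype.card_fin,
      nsmul_eq_mul]
    by_cases ha : a = 0
    · simp [ha, mul_comm]
    · simp [ha]
  rw [Finset.sum_congr rfl fun a _ => h2 a]
  simp

theorem half (n : ℕ) (hn : 1 ≤ n) : ∀ t θ : ℝ, 0 < t → 0 < θ → ∃ K : ℝ, 0 < K ∧
    ∀ (L W : ℕ) [NeZero L] [NeZero W], 8 ≤ W →
      θ / (W : ℝ) ^ (2 * n) ≤ P L W n t (Exit L W n (((W / 4 : ℕ) : ℤ) + 1) (pt L W n 0 0)) →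
      ∀ k₀ : ℕ, K * (W : ℝ) ^ (14 * n ^ 2 + 33 * n + 9) ≤ k₀ → k₀ + 2 ≤ L →
        P L W n t (Cross L W n 0 k₀) ≤ 1 / 2 := by
  classical
  obtain ⟨C, hC', hC⟩ : ∃ C : ℕ, C = 14 * n ^ 2 + 32 * n + 8 ∧ ∀ t θ : ℝ, 0 < t → 0 < θ →
      ∃ K : ℝ, 0 < K ∧ ∀ (L W : ℕ) [NeZero L] [NeZero W], 8 ≤ W →
      θ / (W : ℝ) ^ (2 * n) ≤ P L W n t (Exit L W n (((W / 4 : ℕ) : ℤ) + 1) (pt L W n 0 0)) →
      ∀ x : ℤ, 2 ≤ x → x + W + 1 ≤ L →
        P L W n t (Cross L W n 0 x) ≤ K * (W : ℝ) ^ C * P L W n t (Win L W n x) :=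
    ⟨_, rfl, window n hn⟩
  have hexp : 14 * n ^ 2 + 33 * n + 9 = C + n + 1 := by
    rw [hC']; ring
  rw [hexp]
  intro t θ ht hθ
  obtain ⟨K, hK, H⟩ := hC t θ ht hθ
  refine ⟨4 * K * t + 4, by positivity, ?_⟩
  intro L W _ _ hW hexit k₀ hk hkL
  have hW1 : (1 : ℝ) ≤ W := by exact_mod_cast (by omega : 1 ≤ W)
  obtain ⟨a, ha⟩ : ∃ a : ℝ, a = 2 * K * t * (W : ℝ) ^ (C + n) := ⟨_, rfl⟩
  have ha0 : 0 < a := by rw [ha]; positivity
  -- the number of windows
  obtain ⟨q, hq⟩ : ∃ q : ℕ, q = k₀ / (W + 1) := ⟨_, rfl⟩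
  have hq1 : (W + 1) * q ≤ k₀ := by rw [hq]; exact Nat.mul_div_le _ _
  have hq2 : k₀ < (W + 1) * (q + 1) := by
    rw [hq]
    have := Nat.lt_mul_div_succ k₀ (Nat.succ_pos W)
    simpa using this
  have hk2 : ((W : ℝ) + 1) * (a + 2) ≤ k₀ := by
    have h1 : (W : ℝ) ≤ (W : ℝ) ^ (C + n + 1) := le_self_pow₀ hW1 (by omega)
    calc ((W : ℝ) + 1) * (a + 2) ≤ (2 * (W : ℝ)) * (a + 2) :=
          mul_le_mul_of_nonneg_right (by linarith) (by linarith)
      _ = 4 * K * t * ((W : ℝ) ^ (C + n + 1)) + 4 * W := by rw [ha, pow_succ]; ring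
      _ ≤ 4 * K * t * ((W : ℝ) ^ (C + n + 1)) + 4 * (W : ℝ) ^ (C + n + 1) := by linarith
      _ = (4 * K * t + 4) * (W : ℝ) ^ (C + n + 1) := by ring
      _ ≤ k₀ := hk
  have hq3 : a + 1 < q := by
    have h2 : (k₀ : ℝ) < ((W : ℝ) + 1) * ((q : ℝ) + 1) := by exact_mod_cast hq2
    have h3 : ((W : ℝ) + 1) * (a + 2) < ((W : ℝ) + 1) * ((q : ℝ) + 1) := hk2.trans_lt h2
    have h4 := lt_of_mul_lt_mul_left h3 (by positivity)
    linarith
  have hq4 : 2 ≤ q := by
    have : (1 : ℝ) < q := by linarith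
    have : 1 < q := by exact_mod_cast this
    omega
  obtain ⟨J, hJ⟩ : ∃ J : ℕ, J + 1 = q := ⟨q - 1, by omega⟩
  have hJa : a ≤ J := by
    have : ((J : ℝ) + 1) = q := by exact_mod_cast hJ
    linarith
  have hJ0 : (0 : ℝ) < J := ha0.trans_le hJa
  -- the windows
  have hs : ∀ j ∈ Finset.Icc 1 J, 1 ≤ j ∧ (W + 1) * (j + 1) + 1 ≤ L := by
    intro j hj
    obtain ⟨h1, h2⟩ := Finset.mem_Icc.1 hj
    refine ⟨h1, ?_⟩
    have : (W + 1) * (j + 1) ≤ (W + 1) * q := Nat.mul_le_mul_left _ (by omega)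
    omega
  have hsum : ∑ j ∈ Finset.Icc 1 J, P L W n t (Win L W n (((W + 1) * j : ℕ) : ℤ)) ≤
      t * (W : ℝ) ^ n := by
    rw [← G5_mass L W n t]
    refine sum_Pr_le (c := fun _ : Ed L W n => t) (fun _ => ht.le) (Finset.Icc 1 J)
      (fun j => Win L W n (((W + 1) * j : ℕ) : ℤ))
      (fun e => e.2.isNone && decide (e.1.1 = 0)) fun l => ?_
    have := win_count (L := L) (W := W) (n := n) (Finset.Icc 1 J) hs l
    convert this
  have hone : ∀ j ∈ Finset.Icc 1 J, P L W n t (Cross L W n 0 k₀) ≤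
      K * (W : ℝ) ^ C * P L W n t (Win L W n (((W + 1) * j : ℕ) : ℤ)) := by
    intro j hj
    obtain ⟨h1, h2⟩ := Finset.mem_Icc.1 hj
    have h3 : (W + 1) * (j + 1) ≤ (W + 1) * q := Nat.mul_le_mul_left _ (by omega)
    have h4 : (W + 1) * (j + 1) = (W + 1) * j + (W + 1) := by ring
    have h5 : (W + 1) * 1 ≤ (W + 1) * j := Nat.mul_le_mul_left _ h1
    refine le_trans ?_ (H L W hW hexit (((W + 1) * j : ℕ) : ℤ) (by omega) (by omega))
    refine Pr_mono (fun _ => ht.le) fun l hl => ?_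
    exact cross_mono 0 (((W + 1) * j : ℕ) : ℤ) (k₀ : ℤ) (by omega) (by omega) (by omega) l hl
  have hfin : (J : ℝ) * P L W n t (Cross L W n 0 k₀) ≤ (J : ℝ) * (1 / 2) := by
    calc (J : ℝ) * P L W n t (Cross L W n 0 k₀)
        = ∑ _j ∈ Finset.Icc 1 J, P L W n t (Cross L W n 0 k₀) := by
          rw [Finset.sum_const, Nat.card_Icc, nsmul_eq_mul]
          simp
      _ ≤ ∑ j ∈ Finset.Icc 1 J,
            K * (W : ℝ) ^ C * P L W n t (Win L W n (((W + 1) * j : ℕ) : ℤ)) :=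
          Finset.sum_le_sum hone
      _ = K * (W : ℝ) ^ C *
            ∑ j ∈ Finset.Icc 1 J, P L W n t (Win L W n (((W + 1) * j : ℕ) : ℤ)) := by
          rw [Finset.mul_sum]
      _ ≤ K * (W : ℝ) ^ C * (t * (W : ℝ) ^ n) :=
          mul_le_mul_of_nonneg_left hsum (by positivity)
      _ = a * (1 / 2) := by rw [ha, pow_add]; ring
      _ ≤ (J : ℝ) * (1 / 2) := by linarith
  exact le_of_mul_le_mul_left hfin hJ0

end

end Pool.Agent.ThinTori.Dim

/-! Stirring on thin tori of any dimension, row G6: narrow tori -/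


open Finset

namespace Pool.Agent.ThinTori.Dim

section

variable {L W n : ℕ}

private theorem G6_img (e : Ed L W n) (u : Vx L W n) :
    (gT L W n e u).1 = u.1 ∨ ((gT L W n e u).1 = u.1 + 1 ∧ e.2 = none ∧ e.1.1 = u.1) ∨
      (gT L W n e u).1 = u.1 - 1 := by
  unfold gT
  by_cases h1 : u = e.1
  · rw [h1, Equiv.swap_apply_left]
    cases he : e.2
    · right; left
      exact ⟨by simp [dir], rfl, rfl⟩
    · left
      simp [dir]
  · by_cases h2 : u = e.1 + dir L W n e.2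
    · rw [h2, Equiv.swap_apply_right]
      cases he : e.2
      · right; right
        simp [dir]
      · left
        simp [dir]
    · rw [Equiv.swap_apply_of_ne_of_ne h1 h2]
      exact Or.inl rfl

private theorem G6_eq (x y : ℤ) (h : (x : ZMod L) = (y : ZMod L)) (h1 : y - x < L)
    (h2 : x - y < L) : x = y := by
  rw [ZMod.intCast_eq_intCast_iff_dvd_sub] at h
  have h3 : |y - x| < (L : ℤ) := abs_lt.mpr ⟨by linarith, h1⟩
  have h4 := Int.eq_zero_of_abs_lt_dvd h h3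
  linarith

/-- One step: the position is the same, or it is moved by a letter of the word. -/
private theorem G6_T {V α : Type*} (g : α → Equiv.Perm V) (l : List α) (s : ℕ × V) :
    (T g l s).2 = s.2 ∨ ∃ a ∈ l, (T g l s).2 = g a s.2 := by
  unfold T
  rcases h : l[s.1]? with _ | a
  · left
    rfl
  · right
    exact ⟨a, List.mem_of_getElem? h, rfl⟩

private theorem G6_letter {k : ℕ} (hkL : k + 2 ≤ L) {l : List (Ed L W n)} (h : Cross L W n 0 k l)
    (j : ℕ) (hj : j < k) : ∃ e ∈ l, e.2 = none ∧ e.1.1 = ((j : ℤ) : ZMod L) := by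
  by_contra hcon
  push Not at hcon
  obtain ⟨y, y', k₀, -, N, hN, hD⟩ := h
  have hkz : (k : ℤ) + 2 ≤ L := by exact_mod_cast hkL
  have hjz : (j : ℤ) < k := by exact_mod_cast hj
  -- the column of the next position
  have hcol : ∀ i, i ≤ N → ∃ c' : ℤ, 1 ≤ c' ∧ c' ≤ k ∧
      ((T (gT L W n) l)^[i + 1] (k₀, (((0 : ℤ) : ZMod L), y))).2.1 = (c' : ZMod L) := by
    intro i hi
    rcases Nat.lt_or_eq_of_le hi with h1 | h1
    · obtain ⟨c, hc1, hc2, hc⟩ := hD (i + 1) (by omega) (by omega)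
      exact ⟨c, by linarith, by linarith, hc⟩
    · subst h1
      refine ⟨k, by omega, le_rfl, ?_⟩
      rw [hN]
      simp
  have key : ∀ i, i ≤ N + 1 → ∃ c : ℤ, 0 ≤ c ∧ c ≤ j ∧
      ((T (gT L W n) l)^[i] (k₀, (((0 : ℤ) : ZMod L), y))).2.1 = (c : ZMod L) := by
    intro i
    induction i with
    | zero =>
      intro _
      exact ⟨0, le_rfl, by positivity, rfl⟩
    | succ i ih =>
      intro hi
      obtain ⟨c, hc1, hc2, hc⟩ := ih (by omega)
      obtain ⟨c', hc1', hc2', hc'⟩ := hcol i (by omega)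
      refine ⟨c', by linarith, ?_, hc'⟩
      rw [Function.iterate_succ_apply'] at hc'
      set s := (T (gT L W n) l)^[i] (k₀, (((0 : ℤ) : ZMod L), y)) with hs
      rcases G6_T (gT L W n) l s with h1 | ⟨a, ha, h1⟩
      · rw [h1, hc] at hc'
        have := G6_eq _ _ hc' (by linarith) (by linarith)
        linarith
      · rw [h1] at hc'
        rcases G6_img a s.2 with h2 | ⟨h2, h3, h4⟩ | h2
        · rw [h2, hc] at hc'
          have := G6_eq _ _ hc' (by linarith) (by linarith)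
          linarith
        · have h5 : ((c + 1 : ℤ) : ZMod L) = (c' : ZMod L) := by
            rw [← hc', h2, hc]
            push_cast
            ring
          have h6 := G6_eq _ _ h5 (by linarith) (by linarith)
          rcases lt_or_eq_of_le hc2 with h7 | h7
          · linarith
          · exfalso
            refine hcon a ha h3 ?_
            rw [h4, hc, h7]
        · have h5 : ((c - 1 : ℤ) : ZMod L) = (c' : ZMod L) := by
            rw [← hc', h2, hc]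
            push_cast
            ring
          have h6 := G6_eq _ _ h5 (by linarith) (by linarith)
          linarith
  obtain ⟨c, hc1, hc2, hc⟩ := key (N + 1) le_rfl
  rw [hN] at hc
  have h1 : ((k : ℤ) : ZMod L) = (c : ZMod L) := by
    rw [← hc]
    simp
  have := G6_eq _ _ h1 (by linarith) (by linarith)
  linarith

end

section

variable {L W n : ℕ} [NeZero L] [NeZero W] {t : ℝ}

open Classical in
private theorem G6_sum (j : ZMod L) (q : Ed L W n → Bool) (hq : ∀ e, q e = true ↔ e.2 = none ∧ e.1.1 = j) :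
    ∑ a, restr (fun _ : Ed L W n => t) q a = t * (W : ℝ) ^ n := by
  have h1 : ∀ a : Ed L W n, restr (fun _ : Ed L W n => t) q a =
      if a.2 = none then (if a.1.1 = j then t else 0) else 0 := by
    intro a
    unfold restr
    by_cases h2 : a.2 = none
    · by_cases h3 : a.1.1 = j
      · rw [if_pos ((hq a).2 ⟨h2, h3⟩), if_pos h2, if_pos h3]
      · rw [if_neg (fun h => h3 ((hq a).1 h).2), if_pos h2, if_neg h3]
    · rw [if_neg (fun h => h2 ((hq a).1 h).1), if_neg h2]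
  rw [Finset.sum_congr rfl fun a _ => h1 a, Fintype.sum_prod_type]
  simp only [Finset.sum_ite_eq', Finset.mem_univ, if_true]
  rw [Fintype.sum_prod_type, Finset.sum_comm]
  have h2 : ∀ _x : Fin n → ZMod W, ∑ y : ZMod L, (if y = j then t else 0) = t := by
    intro _
    simp
  rw [Finset.sum_congr rfl fun x _ => h2 x, Finset.sum_const, Finset.card_univ, nsmul_eq_mul,
    Fintype.card_fun, ZMod.card, Fintype.card_fin]
  push_cast
  ring

theorem cross_le (ht : 0 ≤ t) (k : ℕ) (hk : 1 ≤ k)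
    (hkL : k + 2 ≤ L) : P L W n t (Cross L W n 0 k) ≤ (1 - Real.exp (-(t * (W : ℝ) ^ n))) ^ k := by
  classical
  have hkz : (k : ℤ) + 2 ≤ L := by exact_mod_cast hkL
  set p : Fin k → Ed L W n → Bool := fun j e => decide (e.2 = none ∧ e.1.1 = (((j : ℕ) : ℤ) : ZMod L))
    with hp
  have hpq : ∀ j e, p j e = true ↔ e.2 = none ∧ e.1.1 = (((j : ℕ) : ℤ) : ZMod L) := by
    intro j e
    rw [hp]
    exact decide_eq_true_iff
  have hdis : ∀ i j : Fin k, i ≠ j → ∀ a, p i a = true → p j a = false := by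
    intro i j hij a ha
    by_contra hcon
    have ha' : p j a = true := by simpa using hcon
    rw [hpq] at ha ha'
    have h1 : (((i : ℕ) : ℤ) : ZMod L) = (((j : ℕ) : ℤ) : ZMod L) := by rw [← ha.2, ha'.2]
    have hi : ((i : ℕ) : ℤ) < k := by exact_mod_cast i.2
    have hj : ((j : ℕ) : ℤ) < k := by exact_mod_cast j.2
    have h2 := G6_eq _ _ h1 (by linarith [Int.natCast_nonneg (i : ℕ)]) (by linarith [Int.natCast_nonneg (j : ℕ)])
    exact hij (Fin.ext (by exact_mod_cast h2))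
  have h1 : P L W n t (Cross L W n 0 k) ≤
      Pr (fun _ : Ed L W n => t) (fun l => ∀ j : Fin k, ∃ a ∈ l.filter (p j), p j a = true) := by
    refine Pr_mono (fun _ => ht) fun l hl j => ?_
    obtain ⟨e, he, he1, he2⟩ := G6_letter hkL hl j j.2
    have h3 : p j e = true := (hpq j e).2 ⟨he1, he2⟩
    exact ⟨e, List.mem_filter.2 ⟨he, h3⟩, h3⟩
  refine h1.trans (le_of_eq ?_)
  rw [Pr_indep_fin (fun _ : Ed L W n => t) p hdis (fun j l => ∃ a ∈ l, p j a = true)]
  have h2 : ∀ j : Fin k, Pr (restr (fun _ : Ed L W n => t) (p j)) (fun l => ∃ a ∈ l, p j a = true) =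
      1 - Real.exp (-(t * (W : ℝ) ^ n)) := by
    intro j
    have h3 : (fun l : List (Ed L W n) => ∃ a ∈ l, p j a = true) = fun l => ¬ ∀ a ∈ l, p j a = false := by
      funext l
      apply propext
      push Not
      simp
    rw [h3, Pr_not, Pr_none]
    congr 3
    have h4 : restr (restr (fun _ : Ed L W n => t) (p j)) (p j) = restr (fun _ : Ed L W n => t) (p j) := by
      funext a
      unfold restr
      split_ifs <;> rfl
    rw [h4]
    exact G6_sum (((j : ℕ) : ℤ) : ZMod L) (p j) (hpq j)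
  rw [Finset.prod_congr rfl fun j _ => h2 j]
  simp

end

end Pool.Agent.ThinTori.Dim

/-! Stirring on thin tori of any dimension, row G7: independence of the blocks -/


open Finset

namespace Pool.Agent.ThinTori.Dim

section

variable {L W n : ℕ} [NeZero L] [NeZero W] {t : ℝ}

omit [NeZero L] [NeZero W] in
private theorem G7_dir (o : Option (Fin n)) :
    ∃ δ : ℤ, 0 ≤ δ ∧ δ ≤ 1 ∧ (dir L W n o).1 = (δ : ZMod L) := by
  cases o with
  | none => exact ⟨1, by norm_num, le_rfl, by simp [dir]⟩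
  | some j => exact ⟨0, le_rfl, by norm_num, by simp [dir]⟩

omit [NeZero L] [NeZero W] in
private theorem G7_col (e : Ed L W n) (u : Vx L W n) (h : gT L W n e u ≠ u) :
    ∃ δ : ℤ, 0 ≤ δ ∧ δ ≤ 1 ∧ u.1 = e.1.1 + (δ : ZMod L) := by
  unfold gT at h
  by_cases h1 : u = e.1
  · exact ⟨0, le_rfl, by norm_num, by rw [h1]; simp⟩
  · by_cases h2 : u = e.1 + dir L W n e.2
    · obtain ⟨δ, h3, h4, h5⟩ := G7_dir (L := L) (W := W) e.2
      exact ⟨δ, h3, h4, by rw [h2, Prod.fst_add, h5]⟩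
    · exact absurd (Equiv.swap_apply_of_ne_of_ne h1 h2) h

omit [NeZero L] [NeZero W] in
private theorem G7_img (e : Ed L W n) (u : Vx L W n) :
    ∃ δ : ℤ, -1 ≤ δ ∧ δ ≤ 1 ∧ (gT L W n e u).1 = u.1 + (δ : ZMod L) := by
  unfold gT
  obtain ⟨δ, h3, h4, h5⟩ := G7_dir (L := L) (W := W) e.2
  by_cases h1 : u = e.1
  · rw [h1, Equiv.swap_apply_left]
    exact ⟨δ, by linarith, h4, by rw [Prod.fst_add, h5]⟩
  · by_cases h2 : u = e.1 + dir L W n e.2
    · rw [h2, Equiv.swap_apply_right]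
      refine ⟨-δ, by linarith, by linarith, ?_⟩
      rw [Prod.fst_add, h5]
      push_cast
      ring
    · rw [Equiv.swap_apply_of_ne_of_ne h1 h2]
      exact ⟨0, by norm_num, by norm_num, by simp⟩

omit [NeZero L] in
private theorem G7_eq (x y : ℤ) (h : (x : ZMod L) = (y : ZMod L)) (h1 : y - x < L)
    (h2 : x - y < L) : x = y := by
  rw [ZMod.intCast_eq_intCast_iff_dvd_sub] at h
  have h3 : |y - x| < (L : ℤ) := abs_lt.mpr ⟨by linarith, h1⟩
  have h4 := Int.eq_zero_of_abs_lt_dvd h h3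
  linarith

omit [NeZero L] [NeZero W] in
private theorem G7_disj (i : ℤ) (k₀ m : ℕ) (hL : m * k₀ + 2 ≤ L) (b b' : ℕ) (_hb : b < m)
    (hb' : b' < m) (hbb : b < b') (e : Ed L W n)
    (h : ∃ v ∈ strip L W n (i + (b : ℕ) * k₀ + 1) (i + (b : ℕ) * k₀ + k₀ - 1), gT L W n e v ≠ v)
    (h' : ∃ v ∈ strip L W n (i + (b' : ℕ) * k₀ + 1) (i + (b' : ℕ) * k₀ + k₀ - 1), gT L W n e v ≠ v) :
    False := by
  obtain ⟨u, ⟨x, hx1, hx2, hx⟩, hu⟩ := h
  obtain ⟨u', ⟨x', hx1', hx2', hx'⟩, hu'⟩ := h'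
  obtain ⟨δ, hδ0, hδ1, hδ⟩ := G7_col e u hu
  obtain ⟨δ', hδ0', hδ1', hδ'⟩ := G7_col e u' hu'
  have hLz : (m : ℤ) * k₀ + 2 ≤ L := by exact_mod_cast hL
  have hA : ((b : ℤ) + 1) * k₀ ≤ (b' : ℤ) * k₀ := by
    have : (b : ℤ) + 1 ≤ b' := by exact_mod_cast hbb
    exact mul_le_mul_of_nonneg_right this (by positivity)
  have hB : ((b' : ℤ) + 1) * k₀ ≤ (m : ℤ) * k₀ := by
    have : (b' : ℤ) + 1 ≤ m := by exact_mod_cast hb'
    exact mul_le_mul_of_nonneg_right this (by positivity)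
  have hC : (0 : ℤ) ≤ (b : ℤ) * k₀ := by positivity
  have key : ((x - δ : ℤ) : ZMod L) = ((x' - δ' : ℤ) : ZMod L) := by
    push_cast
    rw [← hx, ← hx', hδ, hδ']
    ring
  have := G7_eq (x - δ) (x' - δ') key (by nlinarith) (by nlinarith)
  nlinarith

theorem blocks (ht : 0 ≤ t) (m k₀ : ℕ) (hk : 2 ≤ k₀) (hL : m * k₀ + 2 ≤ L)
    (h : P L W n t (Cross L W n 0 k₀) ≤ 1 / 2) (i : ℤ) :
    P L W n t (fun l => ∀ b < m, Cross L W n (i + (b : ℕ) * k₀) k₀ l) ≤ (1 / 2) ^ m := by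
  classical
  set p : Fin m → Ed L W n → Bool := fun b =>
    inc (gT L W n) (strip L W n (i + ((b : ℕ) : ℤ) * k₀ + 1) (i + ((b : ℕ) : ℤ) * k₀ + k₀ - 1)) with hpdef
  have hkz : (2 : ℤ) ≤ k₀ := by exact_mod_cast hk
  -- the event depends on the letters of the strip only
  have hfil : ∀ b : Fin m, ∀ l : List (Ed L W n),
      Cross L W n (i + ((b : ℕ) : ℤ) * k₀) k₀ (l.filter (p b)) ↔
        Cross L W n (i + ((b : ℕ) : ℤ) * k₀) k₀ l := by
    intro b l
    have hm : (1 : ℤ) ≤ m := by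
      have := b.2
      have h1 : 1 ≤ m := by omega
      exact_mod_cast h1
    have hLz : (m : ℤ) * k₀ + 2 ≤ L := by exact_mod_cast hL
    have hkL : (k₀ : ℤ) + 2 ≤ L := by nlinarith
    unfold Cross
    refine exists_congr fun y => exists_congr fun y' => ?_
    refine Seg_filter (p b) _ ?_ _ _ ?_ ?_ ?_ l
    · intro a ha v hv
      by_contra hne
      have : p b a = true := by
        simp only [hpdef, inc, decide_eq_true_eq]
        exact ⟨v, hv, hne⟩
      rw [this] at ha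
      exact absurd ha (by simp)
    · rintro ⟨x, hx1, hx2, hx⟩
      have := G7_eq _ _ hx (by linarith) (by linarith)
      linarith
    · intro hab
      have h1 := congrArg Prod.fst hab
      have := G7_eq _ _ h1 (by linarith) (by linarith)
      linarith
    · intro e _ hab
      obtain ⟨δ, hδ1, hδ2, hδ⟩ := G7_img e (((i + ((b : ℕ) : ℤ) * k₀ : ℤ) : ZMod L), y)
      rw [hab] at hδ
      have h1 : ((i + ((b : ℕ) : ℤ) * k₀ + k₀ : ℤ) : ZMod L) =
          ((i + ((b : ℕ) : ℤ) * k₀ + δ : ℤ) : ZMod L) := by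
        rw [Int.cast_add (i + ((b : ℕ) : ℤ) * k₀) δ]
        exact hδ
      have := G7_eq _ _ h1 (by linarith) (by linarith)
      linarith
  have hdis : ∀ b b' : Fin m, b ≠ b' → ∀ a, p b a = true → p b' a = false := by
    intro b b' hbb a ha
    by_contra hne
    have ha' : p b' a = true := by simpa using hne
    simp only [hpdef, inc, decide_eq_true_eq] at ha ha'
    rcases lt_or_gt_of_ne (fun hh : (b : ℕ) = (b' : ℕ) => hbb (Fin.ext hh)) with hlt | hlt
    · exact G7_disj i k₀ m hL b b' b.2 b'.2 hlt a ha ha'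
    · exact G7_disj i k₀ m hL b' b b'.2 b.2 hlt a ha' ha
  have hev : (fun l : List (Ed L W n) => ∀ b < m, Cross L W n (i + (b : ℕ) * k₀) k₀ l) =
      fun l => ∀ b : Fin m, Cross L W n (i + ((b : ℕ) : ℤ) * k₀) k₀ (l.filter (p b)) := by
    funext l
    apply propext
    constructor
    · intro hl b
      exact (hfil b l).mpr (hl b b.2)
    · intro hl b hb
      exact (hfil ⟨b, hb⟩ l).mp (hl ⟨b, hb⟩)
  rw [hev]
  unfold P
  rw [Pr_indep_fin (fun _ : Ed L W n => t) p hdis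
    (fun b => Cross L W n (i + ((b : ℕ) : ℤ) * k₀) k₀)]
  have hone : ∀ b : Fin m,
      Pr (restr (fun _ : Ed L W n => t) (p b)) (Cross L W n (i + ((b : ℕ) : ℤ) * k₀) k₀) =
        P L W n t (Cross L W n 0 k₀) := by
    intro b
    rw [← Pr_filter]
    have : (fun l : List (Ed L W n) => Cross L W n (i + ((b : ℕ) : ℤ) * k₀) k₀ (l.filter (p b))) =
        Cross L W n (i + ((b : ℕ) : ℤ) * k₀) k₀ := by
      funext l
      exact propext (hfil b l)
    rw [this]
    exact P_Cross_shift _ _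
  calc ∏ b : Fin m, Pr (restr (fun _ : Ed L W n => t) (p b))
        (Cross L W n (i + ((b : ℕ) : ℤ) * k₀) k₀)
      = ∏ _b : Fin m, P L W n t (Cross L W n 0 k₀) := Finset.prod_congr rfl fun b _ => hone b
    _ = (P L W n t (Cross L W n 0 k₀)) ^ m := by simp
    _ ≤ (1 / 2) ^ m := pow_le_pow_left₀ (Pr_nonneg (fun _ => ht) _) h m

end

end Pool.Agent.ThinTori.Dim

/-! Stirring on thin tori of any dimension, row G8: high case -/


open Finset

namespace Pool.Agent.ThinTori.Dim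

section

variable {L W n : ℕ} [NeZero L] [NeZero W] {t : ℝ}

theorem high (ht : 0 ≤ t) (m k₀ : ℕ) (hm : 1 ≤ m) (hk : 2 ≤ k₀) (hL : 2 * m * k₀ + 2 ≤ L)
    (h : P L W n t (Cross L W n 0 k₀) ≤ 1 / 2) (x : Vx L W n) :
    P L W n t (fun l => (2 * m * k₀ + 1) * W ^ n < cyc L W n x l) ≤ 2 * (1 / 2) ^ m := by
  have hi : x.1 = (((x.1.val : ℕ) : ℤ) : ZMod L) := by simp
  have hL' : m * k₀ + 2 ≤ L := by nlinarith
  have h1 := blocks (W := W) (n := n) ht m k₀ hk hL' h ((x.1.val : ℕ) : ℤ)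
  have h2 := blocks (W := W) (n := n) ht m k₀ hk hL' h (((x.1.val : ℕ) : ℤ) - m * k₀)
  generalize ((x.1.val : ℕ) : ℤ) = i at hi h1 h2
  have hc : ∀ _a : Ed L W n, (0 : ℝ) ≤ t := fun _ => ht
  have h3 : P L W n t (fun l => (2 * m * k₀ + 1) * W ^ n < cyc L W n x l) ≤
      P L W n t (fun l => ∃ j ∈ ({i, i - m * k₀} : Finset ℤ),
        ∀ b < m, Cross L W n (j + (b : ℕ) * k₀) k₀ l) := by
    refine Pr_mono hc fun l hl => ?_
    by_contra hcon
    push Not at hcon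
    obtain ⟨b, hb, hb'⟩ := hcon i (by simp)
    obtain ⟨b₁, hb₁, hb₁'⟩ := hcon (i - m * k₀) (by simp)
    refine absurd hl (not_lt.mpr (confined m k₀ hm hk hL x i hi l ⟨b, hb, hb'⟩
      ⟨m - 1 - b₁, by omega, ?_⟩))
    have he : i - (((m - 1 - b₁ : ℕ) : ℤ) + 1) * k₀ = i - m * k₀ + (b₁ : ℕ) * k₀ := by
      have : ((m - 1 - b₁ : ℕ) : ℤ) = m - 1 - b₁ := by omega
      rw [this]; ring
    rw [he]
    exact hb₁'
  refine h3.trans ((Pr_exists_le hc _ _).trans ?_)
  have hne : i ≠ i - m * k₀ := by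
    have : (0 : ℤ) < m * k₀ := by positivity
    omega
  rw [Finset.sum_pair hne]
  unfold P at h1 h2
  linarith

end

end Pool.Agent.ThinTori.Dim

/-! Stirring on thin tori of any dimension, row G9: blocks which are crossed with probability at most one half -/


open Finset

namespace Pool.Agent.ThinTori.Dim

section

private theorem G9_cast {N : ℕ} {i j : ℤ} (h : (i : ZMod N) = (j : ZMod N)) (h1 : j - i < N)
    (h2 : i - j < N) : i = j := by
  rw [ZMod.intCast_eq_intCast_iff_dvd_sub] at h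
  have h3 : j - i = 0 := Int.eq_zero_of_abs_lt_dvd h (abs_lt.2 ⟨by linarith, h1⟩)
  linarith

variable {L W n : ℕ} [NeZero L] [NeZero W] {t : ℝ}

/-- If a strip is often crossed then a particle often leaves its box. -/
private theorem G9_exit (ht : 0 ≤ t) {R : ℤ} (hR : 1 ≤ R) (hRL : 2 * R ≤ L)
    (hq : 1 / 2 < P L W n t (Cross L W n 0 R)) :
    (Real.exp (-(4 * (n + 1) * t)) / 2) / (W : ℝ) ^ (2 * n) ≤
      P L W n t (Exit L W n R (pt L W n 0 0)) := by
  classical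
  have hpos : 0 < P L W n t (Cross L W n 0 R) := by linarith
  obtain ⟨y, -, hy⟩ := Pr_pigeon (c := fun _ : Ed L W n => t) (fun _ => ht)
    (Finset.univ : Finset ((Fin n → ZMod W) × (Fin n → ZMod W))) (Cross L W n 0 R)
    (fun y => Seg (gT L W n) (strip L W n (0 + 1) (0 + R - 1)) (((0 : ℤ) : ZMod L), y.1)
      (((0 + R : ℤ) : ZMod L), y.2))
    (fun l ⟨a, b, h⟩ => ⟨(a, b), Finset.mem_univ _, h⟩) hpos
  have hW0 : (0 : ℝ) < W := by exact_mod_cast Nat.pos_of_ne_zero (NeZero.ne W)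
  have hcard : ((Finset.univ : Finset ((Fin n → ZMod W) × (Fin n → ZMod W))).card : ℝ) =
      (W : ℝ) ^ (2 * n) := by
    rw [Finset.card_univ, Fintype.card_prod, Fintype.card_fun, ZMod.card, Fintype.card_fin]
    push_cast
    rw [← pow_add]
    congr 1
    ring
  rw [hcard] at hy
  set a : Vx L W n := (((0 : ℤ) : ZMod L), y.1) with ha
  set b : Vx L W n := (((0 + R : ℤ) : ZMod L), y.2) with hb
  have ha' : a ∉ strip L W n (0 + 1) (0 + R - 1) := by
    rintro ⟨i, h1, h2, h3⟩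
    have h4 : ((0 : ℤ) : ZMod L) = (i : ZMod L) := h3
    have := G9_cast h4 (by linarith) (by linarith)
    linarith
  have hb' : b ∉ strip L W n (0 + 1) (0 + R - 1) := by
    rintro ⟨i, h1, h2, h3⟩
    have h4 : ((0 + R : ℤ) : ZMod L) = (i : ZMod L) := h3
    have := G9_cast h4 (by linarith) (by linarith)
    linarith
  have hab : a ≠ b := by
    intro h
    have h4 : ((0 : ℤ) : ZMod L) = ((0 + R : ℤ) : ZMod L) := congrArg Prod.fst h
    have := G9_cast h4 (by linarith) (by linarith)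
    linarith
  have h1 := P_iso ht (strip L W n (0 + 1) (0 + R - 1)) a b ha' hb' hab
  have h2 : P L W n t (Conn (gT L W n) (strip L W n (0 + 1) (0 + R - 1) ∪ {a, b}) a b) ≤
      P L W n t (Exit L W n R a) := by
    refine Pr_mono (fun _ => ht) fun l hl => ?_
    obtain ⟨k, hk, -⟩ := hl
    refine ⟨k, ?_⟩
    rw [hk]
    rintro ⟨i, u, hi, -, h3⟩
    have h4 : ((0 + R : ℤ) : ZMod L) - ((0 : ℤ) : ZMod L) = (i : ZMod L) := congrArg Prod.fst h3
    have h5 : ((0 + R : ℤ) : ZMod L) = (i : ZMod L) := by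
      rw [← h4]; simp
    have h6 := abs_le.1 hi
    have := G9_cast h5 (by linarith) (by linarith)
    linarith
  rw [P_Exit_shift] at h2
  have h3 : (1 / 2) / (W : ℝ) ^ (2 * n) ≤
      P L W n t (Seg (gT L W n) (strip L W n (0 + 1) (0 + R - 1)) a b) := by
    refine le_trans ?_ hy
    exact div_le_div_of_nonneg_right hq.le (by positivity)
  have h4 := (h3.trans h1).trans (mul_le_mul_of_nonneg_left h2 (Real.exp_pos _).le)
  have h5 : Real.exp (-(4 * (n + 1) * t)) * Real.exp (4 * (n + 1) * t) = 1 := by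
    rw [← Real.exp_add]; simp
  calc (Real.exp (-(4 * (n + 1) * t)) / 2) / (W : ℝ) ^ (2 * n)
      = Real.exp (-(4 * (n + 1) * t)) * ((1 / 2) / (W : ℝ) ^ (2 * n)) := by ring
    _ ≤ Real.exp (-(4 * (n + 1) * t)) * (Real.exp (4 * (n + 1) * t) *
        P L W n t (Exit L W n R (pt L W n 0 0))) :=
        mul_le_mul_of_nonneg_left h4 (Real.exp_pos _).le
    _ = P L W n t (Exit L W n R (pt L W n 0 0)) := by rw [← mul_assoc, h5, one_mul]

end

section

/-- blocks of `K W ^ C` columns are crossed with probability at most `1 / 2` -/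
theorem block (n : ℕ) (hn : 1 ≤ n) : ∀ t : ℝ, 0 ≤ t → ∃ K : ℕ,
    ∀ (L W : ℕ) [NeZero L] [NeZero W] (k₀ : ℕ), K * W ^ (14 * n ^ 2 + 33 * n + 9) ≤ k₀ →
      1 ≤ k₀ → k₀ + 2 ≤ L → P L W n t (Cross L W n 0 k₀) ≤ 1 / 2 := by
  obtain ⟨C, hC', hC⟩ : ∃ C : ℕ, C + 1 = 14 * n ^ 2 + 33 * n + 9 ∧ ∀ t θ : ℝ, 0 < t → 0 < θ →
      ∃ K : ℝ, 0 < K ∧ ∀ (L W : ℕ) [NeZero L] [NeZero W], 8 ≤ W →
      θ / (W : ℝ) ^ (2 * n) ≤ P L W n t (Exit L W n (((W / 4 : ℕ) : ℤ) + 1) (pt L W n 0 0)) →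
      ∀ k₀ : ℕ, K * (W : ℝ) ^ (C + 1) ≤ k₀ → k₀ + 2 ≤ L →
        P L W n t (Cross L W n 0 k₀) ≤ 1 / 2 :=
    ⟨14 * n ^ 2 + 33 * n + 8, by ring, half n hn⟩
  rw [← hC']
  intro t ht
  rcases ht.eq_or_lt with ht0 | ht0
  · -- nothing moves
    refine ⟨0, fun L W _ _ k₀ _ hk hkL => ?_⟩
    refine (cross_le ht k₀ hk hkL).trans ?_
    rw [← ht0]
    simp only [zero_mul, neg_zero, Real.exp_zero, sub_self]
    rw [zero_pow (by omega)]
    norm_num
  · obtain ⟨K₁, hK₁, h1⟩ := hC t (Real.exp (-(4 * (n + 1) * t)) / 2) ht0 (by positivity)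
    obtain ⟨K₂, hK₂⟩ := exists_pow_lt_of_lt_one (show (0 : ℝ) < 1 / 2 by norm_num)
      (show 1 - Real.exp (-(t * (8 : ℝ) ^ n)) < 1 by linarith [Real.exp_pos (-(t * (8 : ℝ) ^ n))])
    refine ⟨max ⌈K₁⌉₊ (max K₂ 1), fun L W _ _ k₀ hk hk1 hkL => ?_⟩
    have hW0 : 1 ≤ W := Nat.pos_of_ne_zero (NeZero.ne W)
    have hK : max ⌈K₁⌉₊ (max K₂ 1) * 1 ≤ max ⌈K₁⌉₊ (max K₂ 1) * W ^ (C + 1) :=
      Nat.mul_le_mul_left _ (Nat.one_le_pow _ _ hW0)
    rcases Nat.lt_or_ge W 8 with hW | hW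
    · -- narrow tori
      refine (cross_le ht k₀ hk1 hkL).trans ?_
      have h2 : K₂ ≤ k₀ := by
        have : K₂ ≤ max ⌈K₁⌉₊ (max K₂ 1) := le_trans (le_max_left _ _) (le_max_right _ _)
        omega
      have hW8 : (W : ℝ) ≤ 8 := by exact_mod_cast hW.le
      have h3 : 1 - Real.exp (-(t * (W : ℝ) ^ n)) ≤ 1 - Real.exp (-(t * (8 : ℝ) ^ n)) := by
        have h4 : (W : ℝ) ^ n ≤ (8 : ℝ) ^ n := pow_le_pow_left₀ (by positivity) hW8 _
        have h5 : Real.exp (-(t * (8 : ℝ) ^ n)) ≤ Real.exp (-(t * (W : ℝ) ^ n)) :=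
          Real.exp_le_exp.2 (by nlinarith)
        linarith
      have h6 : 0 ≤ 1 - Real.exp (-(t * (W : ℝ) ^ n)) := by
        have : Real.exp (-(t * (W : ℝ) ^ n)) ≤ 1 := by
          rw [Real.exp_le_one_iff]
          have : 0 ≤ t * (W : ℝ) ^ n := by positivity
          linarith
        linarith
      have h7 : 1 - Real.exp (-(t * (8 : ℝ) ^ n)) ≤ 1 := by
        linarith [Real.exp_pos (-(t * (8 : ℝ) ^ n))]
      calc (1 - Real.exp (-(t * (W : ℝ) ^ n))) ^ k₀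
          ≤ (1 - Real.exp (-(t * (8 : ℝ) ^ n))) ^ k₀ := pow_le_pow_left₀ h6 h3 _
        _ ≤ (1 - Real.exp (-(t * (8 : ℝ) ^ n))) ^ K₂ :=
            pow_le_pow_of_le_one (h6.trans h3) h7 h2
        _ ≤ 1 / 2 := hK₂.le
    · -- wide tori
      have hpowW : W ≤ W ^ (C + 1) := Nat.le_self_pow (by omega) W
      have hWk : W ≤ k₀ := by
        have h2 : 1 ≤ max ⌈K₁⌉₊ (max K₂ 1) := le_trans (le_max_right _ _) (le_max_right _ _)
        calc W ≤ W ^ (C + 1) := hpowW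
          _ = 1 * W ^ (C + 1) := (one_mul _).symm
          _ ≤ max ⌈K₁⌉₊ (max K₂ 1) * W ^ (C + 1) := Nat.mul_le_mul_right _ h2
          _ ≤ k₀ := hk
      set R : ℤ := ((W / 4 : ℕ) : ℤ) + 1 with hR
      by_cases hq : P L W n t (Cross L W n 0 R) ≤ 1 / 2
      · refine le_trans (Pr_mono (fun _ => ht) fun l hl => ?_) hq
        exact cross_mono 0 R k₀ (by omega) (by omega) (by omega) l hl
      · rw [not_le] at hq
        have hex := G9_exit ht (R := R) (by omega) (by omega) hq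
        refine h1 L W hW hex k₀ ?_ hkL
        have h2 : (⌈K₁⌉₊ : ℝ) ≤ (max ⌈K₁⌉₊ (max K₂ 1) : ℕ) := by
          exact_mod_cast le_max_left _ _
        have h3 : (W : ℝ) ^ (C + 1) ≤ (W : ℝ) ^ (C + 1) := le_rfl
        have h4 : (((max ⌈K₁⌉₊ (max K₂ 1)) * W ^ (C + 1) : ℕ) : ℝ) ≤ (k₀ : ℝ) := by
          exact_mod_cast hk
        calc K₁ * (W : ℝ) ^ (C + 1) ≤ ((max ⌈K₁⌉₊ (max K₂ 1) : ℕ) : ℝ) * (W : ℝ) ^ (C + 1) :=
              mul_le_mul ((Nat.le_ceil K₁).trans h2) h3 (by positivity) (by positivity)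
          _ = (((max ⌈K₁⌉₊ (max K₂ 1)) * W ^ (C + 1) : ℕ) : ℝ) := by push_cast; ring
          _ ≤ k₀ := h4

end

end Pool.Agent.ThinTori.Dim

/-! Stirring on thin tori of any dimension, row G10: the theorem -/


open Finset

namespace Pool.Agent.ThinTori.Dim

section

theorem G10_cyc_le (L W n : ℕ) [NeZero L] [NeZero W] (x : Vx L W n) (l : List (Ed L W n)) :
    cyc L W n x l ≤ L * W ^ n := by
  classical
  unfold cyc
  refine (Finset.card_le_univ _).trans (le_of_eq ?_)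
  rw [Fintype.card_prod, ZMod.card, Fintype.card_fun, ZMod.card, Fintype.card_fin]

theorem G10_Pr_false {α : Type*} [Fintype α] {c : α → ℝ} (hc : ∀ a, 0 ≤ c a)
    {A : List α → Prop} (h : ∀ l, ¬ A l) : Pr c A ≤ 0 := by
  have h1 : Pr c (fun l => ∃ i ∈ (∅ : Finset ℕ), A l) ≤ ∑ i ∈ (∅ : Finset ℕ), Pr c A :=
    Pr_exists_le hc ∅ (fun _ => A)
  rw [Finset.sum_empty] at h1
  refine le_trans (Pr_mono hc fun l hl => absurd hl (h l)) h1

theorem main (n : ℕ) (hn : 1 ≤ n) : ∀ t : ℝ, 0 ≤ t → ∃ K : ℕ,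
    ∀ (L W : ℕ) [NeZero L] [NeZero W] (x : Vx L W n) (m : ℕ),
      P L W n t (fun l => K * m * W ^ (14 * n ^ 2 + 34 * n + 9) < cyc L W n x l) ≤
        2 * (1 / 2) ^ m := by
  obtain ⟨C, hC', hC⟩ : ∃ C : ℕ, C = 14 * n ^ 2 + 33 * n + 9 ∧ ∀ t : ℝ, 0 ≤ t → ∃ K : ℕ,
    ∀ (L W : ℕ) [NeZero L] [NeZero W] (k₀ : ℕ), K * W ^ C ≤ k₀ →
      1 ≤ k₀ → k₀ + 2 ≤ L → P L W n t (Cross L W n 0 k₀) ≤ 1 / 2 := ⟨_, rfl, block n hn⟩
  have hexp : 14 * n ^ 2 + 34 * n + 9 = C + n := by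
    rw [hC']; ring
  rw [hexp]
  intro t ht
  obtain ⟨K₁, hK₁⟩ := hC t ht
  set K₂ : ℕ := max K₁ 2 with hK₂
  refine ⟨2 * K₂ + 2, ?_⟩
  intro L W _ _ x m
  have hc : ∀ a : Ed L W n, (0 : ℝ) ≤ (fun _ : Ed L W n => t) a := fun _ => ht
  rcases Nat.eq_zero_or_pos m with hm0 | hm1
  · rw [hm0]
    refine (Pr_le_one hc _).trans ?_
    norm_num
  have hW1 : 1 ≤ W := Nat.pos_of_ne_zero (NeZero.ne W)
  have hWp : 1 ≤ W ^ C := Nat.one_le_pow _ _ hW1
  have hbig : (2 * m * (K₂ * W ^ C) + 2) * W ^ n ≤ (2 * K₂ + 2) * m * W ^ (C + n) := by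
    have h1 : (2 * K₂ + 2) * m * W ^ (C + n) =
        (2 * m * (K₂ * W ^ C) + 2 * (m * W ^ C)) * W ^ n := by ring
    rw [h1]
    refine Nat.mul_le_mul_right _ ?_
    have : 1 ≤ m * W ^ C := Nat.mul_le_mul hm1 hWp
    omega
  by_cases hL : 2 * m * (K₂ * W ^ C) + 2 ≤ L
  · have hk2 : 2 ≤ K₂ * W ^ C := by
      calc 2 = 2 * 1 := rfl
        _ ≤ K₂ * W ^ C := Nat.mul_le_mul (le_max_right _ _) hWp
    have hk0L : K₂ * W ^ C + 2 ≤ L := by
      refine le_trans ?_ hL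
      have : K₂ * W ^ C ≤ 2 * m * (K₂ * W ^ C) :=
        Nat.le_mul_of_pos_left _ (by omega)
      omega
    have h1 := hK₁ L W (K₂ * W ^ C) (Nat.mul_le_mul_right _ (le_max_left _ _))
      (by omega) hk0L
    have h2 := high (L := L) (W := W) (n := n) ht m (K₂ * W ^ C) hm1 hk2 hL h1 x
    refine le_trans (Pr_mono hc fun l hl => ?_) h2
    refine lt_of_le_of_lt (le_trans ?_ hbig) hl
    exact Nat.mul_le_mul_right _ (by omega)
  · refine (G10_Pr_false hc fun l hl => ?_).trans (by positivity)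
    have h1 := G10_cyc_le L W n x l
    have h2 : L * W ^ n ≤ (2 * m * (K₂ * W ^ C) + 2) * W ^ n := Nat.mul_le_mul_right _ (by omega)
    omega

/-- All the cycles at once. -/
theorem main_all (n : ℕ) (hn : 1 ≤ n) : ∀ t : ℝ, 0 ≤ t → ∃ K : ℕ,
    ∀ (L W : ℕ) [NeZero L] [NeZero W],
      (∀ (x : Vx L W n) (m : ℕ),
        P L W n t (fun l => K * m * W ^ (14 * n ^ 2 + 34 * n + 10) < cyc L W n x l) ≤
          2 * (1 / 2) ^ m) ∧
      (2 ≤ L → P L W n t (fun l => ∃ x : Vx L W n,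
        (K : ℝ) * (W : ℝ) ^ (14 * n ^ 2 + 34 * n + 10) * Real.log L < (cyc L W n x l : ℝ)) ≤
          1 / L) := by
  obtain ⟨C, hC', hC⟩ : ∃ C : ℕ, C = 14 * n ^ 2 + 34 * n + 9 ∧ ∀ t : ℝ, 0 ≤ t → ∃ K : ℕ,
    ∀ (L W : ℕ) [NeZero L] [NeZero W] (x : Vx L W n) (m : ℕ),
      P L W n t (fun l => K * m * W ^ C < cyc L W n x l) ≤ 2 * (1 / 2) ^ m := ⟨_, rfl, main n hn⟩
  have hexp : 14 * n ^ 2 + 34 * n + 10 = C + 1 := by
    rw [hC']
  rw [hexp]
  intro t ht
  obtain ⟨K₁, hK₁⟩ := hC t ht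
  refine ⟨K₁ * (4 * n + 12), ?_⟩
  intro L W _ _
  have hW1 : 1 ≤ W := Nat.pos_of_ne_zero (NeZero.ne W)
  have hc : ∀ a : Ed L W n, (0 : ℝ) ≤ (fun _ : Ed L W n => t) a := fun _ => ht
  refine ⟨fun x m => ?_, fun hL => ?_⟩
  · refine le_trans (Pr_mono hc fun l hl => ?_) (hK₁ L W x m)
    refine lt_of_le_of_lt ?_ hl
    calc K₁ * m * W ^ C ≤ K₁ * (4 * n + 12) * m * W ^ (C + 1) := by
          refine Nat.mul_le_mul (Nat.mul_le_mul_right _ ?_) (Nat.pow_le_pow_right hW1 (by omega))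
          exact Nat.le_mul_of_pos_right _ (by omega)
      _ = _ := rfl
  · -- the number of halvings
    obtain ⟨m, hm1, hm2⟩ : ∃ m : ℕ, 2 * (L : ℝ) ^ 2 * (W : ℝ) ^ n ≤ 2 ^ m ∧
        (m : ℝ) ≤ (4 * n + 12) * ((W : ℝ) * Real.log L) := by
      have hL2 : (2 : ℝ) ≤ L := by exact_mod_cast hL
      have hWr : (1 : ℝ) ≤ W := by exact_mod_cast hW1
      have hlog2 : 1 / 2 < Real.log 2 := by have := Real.log_two_gt_d9; linarith
      have hlogL : Real.log 2 ≤ Real.log L := Real.log_le_log (by norm_num) hL2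
      have hpos : (0 : ℝ) < 2 * (L : ℝ) ^ 2 * (W : ℝ) ^ n := by positivity
      refine ⟨⌈Real.log (2 * (L : ℝ) ^ 2 * (W : ℝ) ^ n) / Real.log 2⌉₊, ?_, ?_⟩
      · have h1 := Nat.le_ceil (Real.log (2 * (L : ℝ) ^ 2 * (W : ℝ) ^ n) / Real.log 2)
        rw [div_le_iff₀ (by linarith)] at h1
        rw [← Real.log_le_log_iff hpos (by positivity), Real.log_pow]
        exact h1
      · have h0 : 0 ≤ Real.log (2 * (L : ℝ) ^ 2 * (W : ℝ) ^ n) / Real.log 2 := by
          refine div_nonneg (Real.log_nonneg ?_) (by linarith)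
          have h3 : (1 : ℝ) ≤ (L : ℝ) ^ 2 := one_le_pow₀ (by linarith)
          have h4 : (1 : ℝ) ≤ (W : ℝ) ^ n := one_le_pow₀ hWr
          nlinarith
        have h1 := (Nat.ceil_lt_add_one h0).le
        have h2 : Real.log (2 * (L : ℝ) ^ 2 * (W : ℝ) ^ n) =
            Real.log 2 + 2 * Real.log L + n * Real.log W := by
          rw [Real.log_mul (by positivity) (by positivity), Real.log_mul (by norm_num)
            (by positivity), Real.log_pow, Real.log_pow]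
          push_cast
          ring
        have h3 : Real.log W ≤ W := (Real.log_le_sub_one_of_pos (by linarith)).trans (by linarith)
        have h5 : Real.log (2 * (L : ℝ) ^ 2 * (W : ℝ) ^ n) / Real.log 2 ≤
            (2 * n + 6) * ((W : ℝ) * Real.log L) / (1 / 2) - 1 := by
          have h6 : Real.log (2 * (L : ℝ) ^ 2 * (W : ℝ) ^ n) ≤
              (2 * n + 4) * ((W : ℝ) * Real.log L) := by
            rw [h2]
            have h7 : Real.log L ≤ (W : ℝ) * Real.log L := by nlinarith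
            have h8 : (n : ℝ) * Real.log W ≤ n * (2 * ((W : ℝ) * Real.log L)) := by
              refine mul_le_mul_of_nonneg_left ?_ (Nat.cast_nonneg _)
              nlinarith
            nlinarith
          have h9 : Real.log (2 * (L : ℝ) ^ 2 * (W : ℝ) ^ n) / Real.log 2 ≤
              (2 * n + 4) * ((W : ℝ) * Real.log L) / (1 / 2) := by
            refine div_le_div₀ ?_ h6 (by norm_num) hlog2.le
            have : 0 ≤ (W : ℝ) * Real.log L := by nlinarith
            positivity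
          have h10 : 1 / 2 ≤ (W : ℝ) * Real.log L := by nlinarith
          have h11 : (2 * n + 6 : ℝ) * ((W : ℝ) * Real.log L) / (1 / 2) - 1 =
            (2 * n + 4) * ((W : ℝ) * Real.log L) / (1 / 2) +
              (4 * ((W : ℝ) * Real.log L) - 1) := by ring
          rw [h11]
          linarith
        calc ((⌈Real.log (2 * (L : ℝ) ^ 2 * (W : ℝ) ^ n) / Real.log 2⌉₊ : ℕ) : ℝ) ≤
              Real.log (2 * (L : ℝ) ^ 2 * (W : ℝ) ^ n) / Real.log 2 + 1 := h1
          _ ≤ (2 * n + 6) * ((W : ℝ) * Real.log L) / (1 / 2) := by linarith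
          _ = _ := by ring
    have hsum : P L W n t (fun l => ∃ x ∈ (Finset.univ : Finset (Vx L W n)),
        K₁ * m * W ^ C < cyc L W n x l) ≤
        ∑ x : Vx L W n, P L W n t (fun l => K₁ * m * W ^ C < cyc L W n x l) :=
      Pr_exists_le hc _ _
    have hcard : (Fintype.card (Vx L W n) : ℝ) = (L : ℝ) * (W : ℝ) ^ n := by
      rw [Fintype.card_prod, ZMod.card, Fintype.card_fun, ZMod.card, Fintype.card_fin]
      push_cast
      ring
    have hsum2 : ∑ x : Vx L W n, P L W n t (fun l => K₁ * m * W ^ C < cyc L W n x l) ≤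
        (L : ℝ) * (W : ℝ) ^ n * (2 * (1 / 2) ^ m) := by
      refine (Finset.sum_le_sum fun x _ => hK₁ L W x m).trans (le_of_eq ?_)
      rw [Finset.sum_const, Finset.card_univ, nsmul_eq_mul, hcard]
    have hLpos : (0 : ℝ) < L := by exact_mod_cast (by omega : 0 < L)
    have hlast : (L : ℝ) * (W : ℝ) ^ n * (2 * (1 / 2) ^ m) ≤ 1 / L := by
      rw [one_div_pow, le_div_iff₀ hLpos]
      have h2m : (0 : ℝ) < 2 ^ m := by positivity
      have : (L : ℝ) * (W : ℝ) ^ n * (2 * (1 / 2 ^ m)) * L =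
          (2 * (L : ℝ) ^ 2 * (W : ℝ) ^ n) / 2 ^ m := by
        field_simp
      rw [this]
      exact (div_le_one h2m).mpr hm1
    refine le_trans (Pr_mono hc fun l hl => ?_) (hsum.trans (hsum2.trans hlast))
    obtain ⟨x, hx⟩ := hl
    refine ⟨x, Finset.mem_univ _, ?_⟩
    have hx2 : ((K₁ * m * W ^ C : ℕ) : ℝ) < (cyc L W n x l : ℝ) := by
      refine lt_of_le_of_lt ?_ hx
      push_cast
      calc (K₁ : ℝ) * m * (W : ℝ) ^ C ≤
            (K₁ : ℝ) * ((4 * n + 12) * ((W : ℝ) * Real.log L)) * (W : ℝ) ^ C := by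
            refine mul_le_mul_of_nonneg_right (mul_le_mul_of_nonneg_left hm2 (Nat.cast_nonneg _))
              (by positivity)
        _ = (K₁ : ℝ) * (4 * n + 12) * (W : ℝ) ^ (C + 1) * Real.log L := by ring
    exact_mod_cast hx2

end

end Pool.Agent.ThinTori.Dim

/-! Stirring on thin tori of any dimension: the probability as a series. -/


open Finset

namespace Pool.Agent.ThinTori.Dim

open Classical in
theorem P_eq_tsum (L W n : ℕ) [NeZero L] [NeZero W] (t : ℝ) (A : List (Ed L W n) → Prop) :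
    P L W n t A = ∑' k : ℕ, Real.exp (-(((n : ℝ) + 1) * L * (W : ℝ) ^ n * t)) * t ^ k /
      (k.factorial : ℝ) *
      ((Finset.univ.filter fun w : Fin k → Ed L W n => A (List.ofFn w)).card : ℝ) := by
  have hcard : (Fintype.card (Ed L W n) : ℝ) = ((n : ℝ) + 1) * L * (W : ℝ) ^ n := by
    rw [Fintype.card_prod, Fintype.card_prod, ZMod.card, Fintype.card_fun, ZMod.card,
      Fintype.card_fin, Fintype.card_option, Fintype.card_fin]
    push_cast
    ring
  unfold P Pr Z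
  rw [← tsum_mul_left]
  refine tsum_congr fun k => ?_
  have h1 : ∑ _a : Ed L W n, t = ((n : ℝ) + 1) * L * (W : ℝ) ^ n * t := by
    rw [Finset.sum_const, Finset.card_univ, nsmul_eq_mul, hcard]
  rw [h1]
  unfold wordSum
  have h2 : ∑ w : Fin k → Ed L W n, (∏ _i : Fin k, t) * (if A (List.ofFn w) then (1 : ℝ) else 0) =
      t ^ k * ((Finset.univ.filter fun w : Fin k → Ed L W n => A (List.ofFn w)).card : ℝ) := by
    rw [Finset.card_filter]
    push_cast
    rw [Finset.mul_sum]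
    refine Finset.sum_congr rfl fun w _ => ?_
    rw [Finset.prod_const, Finset.card_univ, Fintype.card_fin]
  rw [h2]
  ring

end Pool.Agent.ThinTori.Dim

/-! Stirring on thin tori of any dimension: mean values. -/


open Finset

namespace Pool.Agent.ThinTori.Dim

/-- The mean value of a function of the word. -/
noncomputable def Ex (L W n : ℕ) [NeZero L] [NeZero W] (t : ℝ) (F : List (Ed L W n) → ℝ) : ℝ :=
  Real.exp (-∑ _a : Ed L W n, t) * Z (fun _ => t) F

theorem Ex_eq_tsum (L W n : ℕ) [NeZero L] [NeZero W] (t : ℝ) (F : List (Ed L W n) → ℝ) :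
    Ex L W n t F = ∑' k : ℕ, Real.exp (-(((n : ℝ) + 1) * L * (W : ℝ) ^ n * t)) * t ^ k /
      (k.factorial : ℝ) * ∑ w : Fin k → Ed L W n, F (List.ofFn w) := by
  have hcard : (Fintype.card (Ed L W n) : ℝ) = ((n : ℝ) + 1) * L * (W : ℝ) ^ n := by
    rw [Fintype.card_prod, Fintype.card_prod, ZMod.card, Fintype.card_fun, ZMod.card,
      Fintype.card_fin, Fintype.card_option, Fintype.card_fin]
    push_cast
    ring
  unfold Ex Z
  rw [← tsum_mul_left]
  refine tsum_congr fun k => ?_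
  have h1 : ∑ _a : Ed L W n, t = ((n : ℝ) + 1) * L * (W : ℝ) ^ n * t := by
    rw [Finset.sum_const, Finset.card_univ, nsmul_eq_mul, hcard]
  rw [h1]
  unfold wordSum
  have h2 : ∑ w : Fin k → Ed L W n, (∏ _i : Fin k, t) * F (List.ofFn w) =
      t ^ k * ∑ w : Fin k → Ed L W n, F (List.ofFn w) := by
    rw [Finset.mul_sum]
    refine Finset.sum_congr rfl fun w _ => ?_
    rw [Finset.prod_const, Finset.card_univ, Fintype.card_fin]
  rw [h2]
  ring

/-- `a ≤ M #{s < N : M s < a}` for `a ≤ N`. -/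
private theorem G12_layer (M N a : ℕ) (hM : 1 ≤ M) (ha : a ≤ N) :
    a ≤ M * ((Finset.range N).filter fun s => M * s < a).card := by
  rcases Nat.eq_zero_or_pos a with h0 | h0
  · rw [h0]; exact Nat.zero_le _
  obtain ⟨q, hq⟩ : ∃ q : ℕ, q = (a - 1) / M + 1 := ⟨_, rfl⟩
  have h1 : M * ((a - 1) / M) ≤ a - 1 := Nat.mul_div_le _ _
  have h2 : a - 1 < M * ((a - 1) / M + 1) := Nat.lt_mul_div_succ _ hM
  have h3 : Finset.range q ⊆ (Finset.range N).filter fun s => M * s < a := by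
    intro s hs
    have hs1 : s ≤ (a - 1) / M := by
      have := Finset.mem_range.1 hs
      omega
    have hs2 : M * s ≤ M * ((a - 1) / M) := Nat.mul_le_mul_left _ hs1
    have hs3 : s ≤ M * s := Nat.le_mul_of_pos_left _ hM
    rw [Finset.mem_filter, Finset.mem_range]
    constructor <;> omega
  have h4 := Finset.card_le_card h3
  rw [Finset.card_range] at h4
  calc a ≤ M * q := by rw [hq]; omega
    _ ≤ _ := Nat.mul_le_mul_left _ h4

/-- The mean size of a cycle. -/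
theorem mean_le {L W n : ℕ} [NeZero L] [NeZero W] {t : ℝ} (ht : 0 ≤ t) (x : Vx L W n) (M : ℕ)
    (hM : 1 ≤ M)
    (h : ∀ s : ℕ, P L W n t (fun l => M * s < cyc L W n x l) ≤ 2 * (1 / 2) ^ s) :
    Ex L W n t (fun l => (cyc L W n x l : ℝ)) ≤ 4 * M := by
  classical
  have hc : ∀ a : Ed L W n, (0 : ℝ) ≤ (fun _ : Ed L W n => t) a := fun _ => ht
  obtain ⟨N, hN⟩ : ∃ N : ℕ, N = L * W ^ n := ⟨_, rfl⟩
  have hind : ∀ s : ℕ, ∀ l : List (Ed L W n),
      |(if M * s < cyc L W n x l then (1 : ℝ) else 0)| ≤ 1 := by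
    intro s l
    split_ifs <;> simp
  have h1 : ∀ l : List (Ed L W n), (cyc L W n x l : ℝ) ≤
      (M : ℝ) * ∑ s ∈ Finset.range N, (if M * s < cyc L W n x l then (1 : ℝ) else 0) := by
    intro l
    have h2 := G12_layer M N (cyc L W n x l) hM (by rw [hN]; exact G10_cyc_le L W n x l)
    have h3 : ((cyc L W n x l : ℕ) : ℝ) ≤
        ((M * ((Finset.range N).filter fun s => M * s < cyc L W n x l).card : ℕ) : ℝ) := by
      exact_mod_cast h2
    refine h3.trans (le_of_eq ?_)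
    rw [Finset.card_filter]
    push_cast
    rfl
  have h2 : Z (fun _ : Ed L W n => t) (fun l => (cyc L W n x l : ℝ)) ≤
      (M : ℝ) * ∑ s ∈ Finset.range N,
        Z (fun _ : Ed L W n => t) (fun l => if M * s < cyc L W n x l then (1 : ℝ) else 0) := by
    rw [← Z_sum (Finset.range N) (fun _ : Ed L W n => t) (C := fun _ => 1) (fun s _ => hind s),
      ← Z_smul]
    refine Z_mono hc (C := (N : ℝ)) (C' := (M : ℝ) * N) (fun l => ?_) (fun l => ?_) h1
    · rw [Nat.abs_cast]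
      have := G10_cyc_le L W n x l
      rw [hN]
      exact_mod_cast this
    · rw [abs_mul, Nat.abs_cast]
      refine mul_le_mul_of_nonneg_left ?_ (Nat.cast_nonneg _)
      refine (Finset.abs_sum_le_sum_abs _ _).trans ?_
      refine (Finset.sum_le_sum fun s _ => hind s l).trans (le_of_eq ?_)
      rw [Finset.sum_const, Finset.card_range, nsmul_eq_mul, mul_one]
  have h3 : Ex L W n t (fun l => (cyc L W n x l : ℝ)) ≤
      (M : ℝ) * ∑ s ∈ Finset.range N, P L W n t (fun l => M * s < cyc L W n x l) := by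
    unfold Ex
    refine (mul_le_mul_of_nonneg_left h2 (Real.exp_pos _).le).trans (le_of_eq ?_)
    have h4 : ∀ s : ℕ, P L W n t (fun l => M * s < cyc L W n x l) =
        Real.exp (-∑ _a : Ed L W n, t) *
        Z (fun _ : Ed L W n => t) (fun l => if M * s < cyc L W n x l then (1 : ℝ) else 0) := by
      intro s
      unfold P Pr
      congr 2
      funext l
      congr 1
    rw [Finset.sum_congr rfl fun s _ => h4 s, ← Finset.mul_sum]
    ring
  refine h3.trans ?_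
  have h5 : ∑ s ∈ Finset.range N, P L W n t (fun l => M * s < cyc L W n x l) ≤ 4 := by
    refine (Finset.sum_le_sum fun s _ => h s).trans ?_
    rw [← Finset.mul_sum]
    have := sum_geometric_two_le N
    linarith
  calc (M : ℝ) * ∑ s ∈ Finset.range N, P L W n t (fun l => M * s < cyc L W n x l)
      ≤ (M : ℝ) * 4 := mul_le_mul_of_nonneg_left h5 (Nat.cast_nonneg _)
    _ = 4 * M := by ring

end Pool.Agent.ThinTori.Dim
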