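import Pool.Agent.Lib.MP_6c3d62_pr.Tube2
import Pool.Agent.Lib.MP_6c3d62_pr.Defs

/-! Stirring on the torus `(ℤ/N) ^ (n + 1)`: correlation length, part 1. -/

set_option autoImplicit false

/-! Stirring on the torus `(ℤ/N) ^ (n + 1)`, row E0: the size of a vector, the criterion -/

section

open Finset

namespace Pool.Agent.ThinTori.Dim

section

/-- The sup-norm of a point of the torus (the sup-distance to the origin). -/
def nrm {L W n : ℕ} (v : Vx L W n) : ℕ :=
  max v.1.valMinAbs.natAbs (Finset.univ.sup fun j => (v.2 j).valMinAbs.natAbs)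

/-- The finite size criterion at the scale `R`, on the torus of side `2 R + 1`. -/
def Crit (n : ℕ) (t : ℝ) (R : ℕ) : Prop :=
  P (2 * R + 1) (2 * R + 1) n t (Exit (2 * R + 1) (2 * R + 1) n R (pt (2 * R + 1) (2 * R + 1) n 0 0)) *
    (2 * (n + 1) * (4 * (R : ℝ)) ^ n * Real.exp (2 * (n + 1) * t)) < 1 / 2

/-- The correlation length: the least scale at which the criterion holds. -/
noncomputable def xi (n : ℕ) (t : ℝ) : ℕ∞ := ⨅ R : {R : ℕ // 1 ≤ R ∧ Crit n t R}, ((R : ℕ) : ℕ∞)

end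

end Pool.Agent.ThinTori.Dim

end

/-! Stirring on the torus `(ℤ/N) ^ (n + 1)`, row T1: the torus as `Fin (n + 1) → ZMod N` -/

section

open Finset

namespace Pool.Agent.ThinTori.Dim

section

variable {n N : ℕ}

/-- The vertices. -/
def T1_v (n N : ℕ) : (Fin (n + 1) → ZMod N) ≃ Vx N N n where
  toFun v := (v 0, fun j => v j.succ)
  invFun u := Fin.cons u.1 u.2
  left_inv v := by
    funext i
    refine Fin.cases ?_ (fun j => ?_) i
    · simp
    · simp
  right_inv u := by
    refine Prod.ext ?_ ?_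
    · simp
    · funext j
      simp

/-- The letters. -/
def T1_e (n N : ℕ) : ((Fin (n + 1) → ZMod N) × Fin (n + 1)) ≃ Ed N N n :=
  Equiv.prodCongr (T1_v n N) (finSuccEquiv n)

theorem T1_dir (v : Fin (n + 1) → ZMod N) (i : Fin (n + 1)) :
    T1_v n N (v + Pi.single i 1) = T1_v n N v + dir N N n (finSuccEquiv n i) := by
  refine Fin.cases ?_ (fun k => ?_) i
  · rw [finSuccEquiv_zero]
    refine Prod.ext ?_ ?_
    · simp [T1_v, dir]
    · funext j
      simp [T1_v, dir]
  · rw [finSuccEquiv_succ]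
    refine Prod.ext ?_ ?_
    · simp [T1_v, dir]
    · funext j
      by_cases hj : j = k
      · subst hj
        simp [T1_v, dir]
      · simp [T1_v, dir, hj]

theorem T1_swap (e : (Fin (n + 1) → ZMod N) × Fin (n + 1)) :
    gT N N n (T1_e n N e) = (T1_v n N).permCongr (Pool.Agent.Stirring.edgeSwap (n + 1) N e) := by
  ext1 u
  obtain ⟨v, rfl⟩ := (T1_v n N).surjective u
  rw [Equiv.permCongr_apply, Equiv.symm_apply_apply]
  unfold gT Pool.Agent.Stirring.edgeSwap T1_e
  rw [Equiv.prodCongr_apply, Prod.map_fst, Prod.map_snd, ← T1_dir]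
  exact ((T1_v n N).injective.map_swap _ _ _).symm

theorem T1_prod (l : List ((Fin (n + 1) → ZMod N) × Fin (n + 1))) :
    ((l.map (T1_e n N)).map (gT N N n)).prod =
      (T1_v n N).permCongr ((l.map (Pool.Agent.Stirring.edgeSwap (n + 1) N)).prod) := by
  induction l with
  | nil =>
    simp only [List.map_nil, List.prod_nil]
    ext1 u
    simp
  | cons e l ih =>
    rw [List.map_cons, List.map_cons, List.prod_cons, ih, T1_swap, List.map_cons, List.prod_cons]
    ext1 u
    simp [Equiv.permCongr_apply]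

theorem T1_same (σ : Equiv.Perm (Fin (n + 1) → ZMod N)) (x y : Fin (n + 1) → ZMod N) :
    ((T1_v n N).permCongr σ).SameCycle (T1_v n N x) (T1_v n N y) ↔ σ.SameCycle x y := by
  have h : ∀ i : ℤ, ((T1_v n N).permCongr σ ^ i) (T1_v n N x) = T1_v n N ((σ ^ i) x) := by
    intro i
    have h1 : (T1_v n N).permCongr σ ^ i = (T1_v n N).permCongr (σ ^ i) := by
      rw [← Equiv.permCongrHom_coe, map_zpow]
    rw [h1]
    simp [Equiv.permCongr_apply]
  unfold Equiv.Perm.SameCycle
  refine exists_congr fun i => ?_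
  rw [h i]
  exact (T1_v n N).injective.eq_iff

variable [NeZero N]

/-- the two laws -/
theorem T1_law (t : ℝ) (S : Set (Equiv.Perm (Fin (n + 1) → ZMod N))) :
    Pool.Agent.Stirring.expect (n + 1) N t (S.indicator fun _ => 1) =
      P N N n t (fun l => (T1_v n N).permCongr.symm ((l.map (gT N N n)).prod) ∈ S) := by
  classical
  have hcard : (Fintype.card (Ed N N n) : ℝ) = ((n : ℝ) + 1) * (N : ℝ) ^ (n + 1) := by
    rw [Fintype.card_prod, Fintype.card_prod, Fintype.card_fun, ZMod.card, Fintype.card_option,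
      Fintype.card_fin]
    push_cast
    ring
  unfold P Pr Z Pool.Agent.Stirring.expect
  rw [← tsum_mul_left]
  refine tsum_congr fun k => ?_
  have h1 : ∑ _a : Ed N N n, t = ((n : ℝ) + 1) * (N : ℝ) ^ (n + 1) * t := by
    rw [Finset.sum_const, Finset.card_univ, nsmul_eq_mul, hcard]
  rw [h1]
  unfold wordSum
  have h2 : ∑ w : Fin k → Ed N N n, (∏ _i : Fin k, t) *
      (if (T1_v n N).permCongr.symm (((List.ofFn w).map (gT N N n)).prod) ∈ S then (1 : ℝ) else 0) =
      t ^ k * ∑ w : Fin k → (Fin (n + 1) → ZMod N) × Fin (n + 1),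
        S.indicator (fun _ => (1 : ℝ))
          ((List.ofFn w).map (Pool.Agent.Stirring.edgeSwap (n + 1) N)).prod := by
    rw [Finset.mul_sum,
      ← (Equiv.arrowCongr (Equiv.refl (Fin k)) (T1_e n N)).sum_comp]
    refine Finset.sum_congr rfl fun w _ => ?_
    have h3 : List.ofFn ((Equiv.arrowCongr (Equiv.refl (Fin k)) (T1_e n N)) w) =
        (List.ofFn w).map (T1_e n N) := by
      rw [List.map_ofFn]
      rfl
    rw [h3, T1_prod, Equiv.symm_apply_apply, Finset.prod_const, Finset.card_univ,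
      Fintype.card_fin, Set.indicator_apply]
  rw [h2]
  push_cast
  ring

end

end Pool.Agent.ThinTori.Dim

end

/-! Stirring on tori, row S1: one-sided isolation -/

section

open Finset

namespace Pool.Agent.ThinTori

section

variable {V α : Type*} {g : α → Equiv.Perm V}

private theorem S1_T_part (β : Bool) (m : List (α × Bool)) :
    T g (part β m) = T (V := V) (gc g β) (m.filter fun x => x.2 == β) := by
  funext s
  simp only [T, part, List.getElem?_map]
  rcases h : (m.filter fun x => x.2 == β)[s.1]? with _ | x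
  · rw [h]
    rfl
  · have hx : x.2 = β := by
      have := List.of_mem_filter (List.mem_of_getElem? h)
      simpa using this
    rw [h]
    simp [gc, hx]

theorem Reach_part (D : Set V) (x b : V) (β : Bool) (m : List (α × Bool)) :
    Reach g D x b (part β m) ↔ Reach (gc g β) D x b m := by
  rw [← Reach_filter (g := gc g β) (fun x => x.2 == β) D (fun x hx v _ => by
    have : x.2 ≠ β := by simpa using hx
    simp [gc, this]) x b m]
  simp only [Reach, S1_T_part]

variable [DecidableEq V]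

omit [DecidableEq V] in
private theorem S1_walk {f : ℕ × V → ℕ × V} {v : V} (k : ℕ)
    (h : ∀ i < k, f (i, v) = (i + 1, v)) : ∀ j ≤ k, f^[j] (0, v) = (j, v) := by
  intro j
  induction j with
  | zero => intro _; rfl
  | succ j ih =>
    intro hj
    rw [Function.iterate_succ_apply', ih (by omega), h j (by omega)]

omit [DecidableEq V] in
private theorem S1_stable {f f' : ℕ × V → ℕ × V} {s : ℕ × V} (n : ℕ)
    (h : ∀ i < n, f' (f^[i] s) = f (f^[i] s)) : ∀ i ≤ n, f'^[i] s = f^[i] s := by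
  intro i
  induction i with
  | zero => intro _; rfl
  | succ i ih =>
    intro hi
    rw [Function.iterate_succ_apply', Function.iterate_succ_apply', ih (by omega), h i (by omega)]

private theorem S1_swap (hg : IsSw g) {a : α} {p q : V} (h : g a p = q) (hpq : p ≠ q) :
    g a = Equiv.swap p q := by
  obtain ⟨u, w, hu⟩ := hg a
  rw [hu] at h ⊢
  by_cases h1 : p = u
  · subst h1
    rw [Equiv.swap_apply_left] at h
    rw [h]
  · by_cases h2 : p = w
    · subst h2
      rw [Equiv.swap_apply_right] at h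
      rw [h, Equiv.swap_comm]
    · rw [Equiv.swap_apply_of_ne_of_ne h1 h2] at h
      exact absurd h hpq

/- S1: isolation of the starting point -/
theorem iso_left (hg : IsSw g) (D : Set V) (a b : V) (ha : a ∉ D) (hab : a ≠ b)
    (l : List α) (h : Seg g D a b l) :
    ∃ m : List (α × Bool), m.map Prod.fst = l ∧
      (∀ x ∈ m, x.2 = false → inc g {a} x.1 = true) ∧
      Reach g (D ∪ {a}) a b (part true m) := by
  classical
  obtain ⟨k, hk, n, hn, hD⟩ := h
  set f : ℕ × V → ℕ × V := T g l with hf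
  have hfirst : (f (k, a)).2 ≠ a := by
    rcases Nat.eq_zero_or_pos n with h0 | h0
    · subst h0
      have : (f (k, a)).2 = b := hn
      rw [this]
      exact hab.symm
    · intro h'
      exact ha (h' ▸ hD 1 le_rfl h0)
  have hkN : k < l.length := by
    by_contra h'
    have : f (k, a) = (0, a) := by
      simp only [hf, T]
      rw [List.getElem?_eq_none (by omega)]
    rw [this] at hfirst
    exact hfirst rfl
  let m : List (α × Bool) := l.mapIdx fun j e => (e, decide (j = k) || !inc g {a} e)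
  have hm1 : m.map Prod.fst = l := by
    refine List.ext_getElem? fun i => ?_
    simp only [m, List.getElem?_map, List.getElem?_mapIdx, Option.map_map]
    rcases l[i]? with _ | a <;> rfl
  have hm? : ∀ j, m[j]? = l[j]?.map fun e => (e, decide (j = k) || !inc g {a} e) := fun j => by
    simp only [m, List.getElem?_mapIdx]
  refine ⟨m, hm1, fun x hx hx2 => ?_, ?_⟩
  · obtain ⟨j, hj⟩ := List.mem_iff_getElem?.mp hx
    rw [hm? j] at hj
    rcases hl : l[j]? with _ | e
    · rw [hl] at hj; exact absurd hj (by simp)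
    · rw [hl] at hj
      simp only [Option.map_some, Option.some.injEq] at hj
      rw [← hj] at hx2 ⊢
      simp only [Bool.or_eq_false_iff, Bool.not_eq_false'] at hx2
      exact hx2.2
  rw [Reach_part]
  set f' : ℕ × V → ℕ × V := T (gc g true) m with hf'
  -- one step in the coloured word
  have hstep : ∀ s : ℕ × V, (∀ e, l[s.1]? = some e → s.1 ≠ k → inc g {a} e = true →
      g e s.2 = s.2) → f' s = f s := by
    intro s h
    simp only [hf', hf, T]
    rw [hm? s.1]
    rcases hl : l[s.1]? with _ | e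
    · rfl
    · simp only [Option.map_some]
      congr 1
      rcases hc : (decide (s.1 = k) || !inc g {a} e) with _ | _
      · simp only [Bool.or_eq_false_iff, Bool.not_eq_false', decide_eq_false_iff_not] at hc
        simp only [gc, if_neg (by decide : ¬ (false = true))]
        rw [h e hl hc.1 hc.2]
        rfl
      · simp [gc]
  -- waiting
  have hwait : ∀ i < k, f' (i, a) = (i + 1, a) := by
    intro i hi
    simp only [hf', T]
    rw [hm? i, List.getElem?_eq_getElem (show i < l.length by omega)]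
    simp only [Option.map_some]
    congr 1
    rcases hc : (decide (i = k) || !inc g {a} l[i]) with _ | _
    · simp [gc]
    · have hik : i ≠ k := by omega
      simp only [hik, decide_false, Bool.false_or, Bool.not_eq_true'] at hc
      simp only [gc, if_true]
      simp only [inc, decide_eq_false_iff_not, not_exists, not_and, not_not] at hc
      exact hc a rfl
  have hw := S1_walk k hwait
  -- the path
  have hp : ∀ i < n + 1, f' (f^[i] (k, a)) = f (f^[i] (k, a)) := by
    intro i hi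
    rcases Nat.eq_zero_or_pos i with h0 | h0
    · rw [h0]
      exact hstep _ fun e _ h1 => absurd rfl h1
    · have q : (f^[i] (k, a)).2 ∈ D := hD i h0 (by omega)
      have q' : (f (f^[i] (k, a))).2 ≠ a := by
        rw [← Function.iterate_succ_apply' f]
        rcases Nat.lt_or_ge i n with h | h
        · intro h'
          exact ha (h' ▸ hD (i + 1) (by omega) (by omega))
        · obtain rfl : i = n := by omega
          rw [hn]
          exact hab.symm
      have qa : (f^[i] (k, a)).2 ≠ a := fun h' => ha (h' ▸ q)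
      refine hstep _ fun e he _ hi => ?_
      by_contra hne
      have hfe : (f (f^[i] (k, a))).2 = g e (f^[i] (k, a)).2 := by
        have he' : f (f^[i] (k, a)) = ((f^[i] (k, a)).1 + 1, g e (f^[i] (k, a)).2) := by
          change T g l (f^[i] (k, a)) = _
          unfold T
          rw [he]
        rw [he']
      have hs := S1_swap hg (a := e) (p := (f^[i] (k, a)).2) rfl (Ne.symm hne)
      simp only [inc, decide_eq_true_eq] at hi
      obtain ⟨v, hv, hva⟩ := hi
      obtain rfl : v = a := hv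
      apply q'
      rw [hfe]
      by_contra h'
      exact hva (by rw [hs]; exact Equiv.swap_apply_of_ne_of_ne (Ne.symm qa) (Ne.symm h'))
  have hq := S1_stable (n + 1) hp
  refine ⟨n + 1 + k, ?_, fun i hi => ?_⟩
  · change (f'^[n + 1 + k] (0, a)).2 = b
    rw [Function.iterate_add_apply, hw k le_rfl, hq (n + 1) le_rfl]
    exact hn
  · change (f'^[i] (0, a)).2 ∈ D ∪ {a}
    rcases Nat.lt_or_ge k i with h | h
    · obtain ⟨j, rfl⟩ : ∃ j, i = j + k := ⟨i - k, by omega⟩
      rw [Function.iterate_add_apply, hw k le_rfl, hq j (by omega)]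
      exact Or.inl (hD j (by omega) (by omega))
    · rw [hw i h]
      exact Or.inr rfl

end

end Pool.Agent.ThinTori

end

/-! Stirring on tori, row S2: the last visit of a set before an exit -/

section

open Finset

namespace Pool.Agent.ThinTori

section

variable {V α : Type*} {g : α → Equiv.Perm V}

private theorem S2_T_le (l : List α) (s : ℕ × V) : (T g l s).1 ≤ l.length := by
  simp only [T]
  rcases h : l[s.1]? with _ | a
  · exact Nat.zero_le _
  · by_contra h'
    rw [List.getElem?_eq_none (by simp only at h'; omega)] at h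
    exact absurd h (by simp)

private theorem S2_iter_le (l : List α) {s : ℕ × V} (hs : s.1 ≤ l.length) (n : ℕ) :
    ((T g l)^[n] s).1 ≤ l.length := by
  cases n with
  | zero => exact hs
  | succ n => rw [Function.iterate_succ_apply']; exact S2_T_le l _

/- S2: last visit of `C` before the first exit of `E` -/
theorem exit_last {C E : Set V} (hCE : C ⊆ E) {x : V} (hx : x ∈ C) {l : List α}
    (h : ∃ n, ((T g l)^[n] (0, x)).2 ∉ E) :
    ∃ a ∈ C, ∃ b, b ∉ E ∧ Seg g (E \ C) a b l := by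
  classical
  set n₀ := Nat.find h with hn₀
  have h1 : ((T g l)^[n₀] (0, x)).2 ∉ E := Nat.find_spec h
  have h2 : ∀ i < n₀, ((T g l)^[i] (0, x)).2 ∈ E := fun i hi => by
    have := Nat.find_min h hi
    rwa [not_not] at this
  have h3 : 0 < n₀ := by
    rcases Nat.eq_zero_or_pos n₀ with h0 | h0
    · rw [h0] at h1
      exact absurd (hCE hx) h1
    · exact h0
  set i₀ := Nat.findGreatest (fun i => ((T g l)^[i] (0, x)).2 ∈ C) (n₀ - 1) with hi₀
  have h4 : ((T g l)^[i₀] (0, x)).2 ∈ C :=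
    Nat.findGreatest_spec (P := fun i => ((T g l)^[i] (0, x)).2 ∈ C) (Nat.zero_le _) hx
  have h5 : i₀ ≤ n₀ - 1 := Nat.findGreatest_le _
  have h6 : ∀ i, i₀ < i → i < n₀ → ((T g l)^[i] (0, x)).2 ∉ C := fun i hi1 hi2 =>
    Nat.findGreatest_is_greatest (P := fun i => ((T g l)^[i] (0, x)).2 ∈ C) hi1 (by omega)
  have h7 : ∀ j, (T g l)^[j] (((T g l)^[i₀] (0, x)).1, ((T g l)^[i₀] (0, x)).2) =
      (T g l)^[j + i₀] (0, x) := fun j => by
    rw [Function.iterate_add_apply]
  refine ⟨((T g l)^[i₀] (0, x)).2, h4, ((T g l)^[n₀] (0, x)).2, h1,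
    ((T g l)^[i₀] (0, x)).1, S2_iter_le l (Nat.zero_le _) i₀, n₀ - i₀ - 1, ?_, fun i hi1 hi2 => ?_⟩
  · rw [h7, show n₀ - i₀ - 1 + 1 + i₀ = n₀ by omega]
  · rw [h7]
    exact ⟨h2 _ (by omega), h6 _ (by omega) (by omega)⟩

end

end Pool.Agent.ThinTori

end

/-! Stirring on tori, row S3: a Simon-Lieb inequality for the exit probabilities -/

section

open Finset

namespace Pool.Agent.ThinTori.Dim

section

variable {L W n : ℕ} [NeZero L] [NeZero W] {t : ℝ}

omit [NeZero L] [NeZero W] in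
private theorem S3_isSw : IsSw (gT L W n) := fun _ => ⟨_, _, rfl⟩

omit [NeZero L] [NeZero W] in
theorem S3_box_mono {A B : ℤ} (h : A ≤ B) : box L W n A ⊆ box L W n B := by
  rintro v ⟨i, u, h1, h2, h3⟩
  exact ⟨i, u, by omega, fun j => by have := h2 j; omega, h3⟩

omit [NeZero L] [NeZero W] in
theorem S3_box_add {A B : ℤ} {u v : Vx L W n} (hu : u ∈ box L W n A) (hv : v ∈ box L W n B) :
    u + v ∈ box L W n (A + B - 1) := by
  obtain ⟨i, a, h1, h2, rfl⟩ := hu
  obtain ⟨j, b, h3, h4, rfl⟩ := hv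
  refine ⟨i + j, fun m => a m + b m, ?_, fun m => ?_, ?_⟩
  · have := abs_add_le i j
    omega
  · have h5 := abs_add_le (a m) (b m)
    have h6 := h2 m
    have h7 := h4 m
    show |a m + b m| ≤ A + B - 1 - 1
    omega
  · simp only [pt, Prod.mk_add_mk, Int.cast_add]
    rfl

omit [NeZero L] [NeZero W] in
private theorem S3_dir (o : Option (Fin n)) : dir L W n o ∈ box L W n 2 := by
  cases o with
  | none => exact ⟨1, fun _ => 0, by norm_num, fun _ => by norm_num, by
      simp only [dir, pt, Int.cast_one, Int.cast_zero]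
      rfl⟩
  | some j =>
    refine ⟨0, Pi.single j 1, by norm_num, fun m => ?_, ?_⟩
    · by_cases h : m = j
      · subst h; simp
      · simp [h]
    · simp only [dir, pt, Int.cast_zero, Prod.mk.injEq, true_and]
      funext m
      by_cases h : m = j
      · subst h; simp
      · simp [h]

omit [NeZero L] [NeZero W] in
private theorem S3_neg {A : ℤ} {v : Vx L W n} (h : v ∈ box L W n A) : -v ∈ box L W n A := by
  obtain ⟨i, u, h1, h2, rfl⟩ := h
  refine ⟨-i, fun j => -u j, by rwa [abs_neg], fun j => by rw [abs_neg]; exact h2 j, ?_⟩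
  simp only [pt, Int.cast_neg, Prod.neg_mk]
  rfl

omit [NeZero L] [NeZero W] in
theorem S3_gT_box {A : ℤ} (e : Ed L W n) {v : Vx L W n} (h : v ∈ box L W n A) :
    gT L W n e v ∈ box L W n (A + 1) := by
  unfold gT
  by_cases h1 : v = e.1
  · rw [← h1, Equiv.swap_apply_left]
    have := S3_box_add h (S3_dir (L := L) (W := W) e.2)
    rwa [show A + 2 - 1 = A + 1 by ring] at this
  · by_cases h2 : v = e.1 + dir L W n e.2
    · rw [← h2, Equiv.swap_apply_right]
      have h3 : e.1 = v + -dir L W n e.2 := by rw [h2]; abel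
      have := S3_box_add h (S3_neg (S3_dir (L := L) (W := W) e.2))
      rw [h3]
      rwa [show A + 2 - 1 = A + 1 by ring] at this
    · rw [Equiv.swap_apply_of_ne_of_ne h1 h2]
      exact S3_box_mono (by omega) h

omit [NeZero L] [NeZero W] in
private theorem S3_inc {S : Set (Vx L W n)} {a : Ed L W n} (h : inc (gT L W n) S a = true) :
    ∃ v ∈ S, gT L W n a v ≠ v := by
  unfold inc at h
  exact @of_decide_eq_true _ (_) h

omit [NeZero L] [NeZero W] in
private theorem S3_not_inc {S : Set (Vx L W n)} {a : Ed L W n} (h : inc (gT L W n) S a = false) :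
    ∀ v ∈ S, gT L W n a v = v := by
  intro v hv
  by_contra hne
  unfold inc at h
  exact @of_decide_eq_false _ (_) h ⟨v, hv, hne⟩

omit [NeZero L] [NeZero W] in
private theorem S3_exit_iff (g : Ed L W n → Equiv.Perm (Vx L W n)) (E : Set (Vx L W n))
    (x : Vx L W n) (l : List (Ed L W n)) :
    (∃ k, ((T g l)^[k] (0, x)).2 ∉ E) ↔ ∃ b, b ∉ E ∧ Reach g E x b l := by
  classical
  constructor
  · intro h
    refine ⟨((T g l)^[Nat.find h] (0, x)).2, Nat.find_spec h, Nat.find h, rfl, fun i hi => ?_⟩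
    have := Nat.find_min h hi
    rwa [not_not] at this
  · rintro ⟨b, hb, k, hk, -⟩
    exact ⟨k, by rw [hk]; exact hb⟩

omit [NeZero L] [NeZero W] in
private theorem S3_exit_filter (R : ℤ) (l : List (Ed L W n)) :
    Exit L W n R (pt L W n 0 0) (l.filter (inc (gT L W n) (box L W n R))) ↔
      Exit L W n R (pt L W n 0 0) l := by
  have h0 : (pt L W n 0 0 : Vx L W n) = 0 := by
    refine Prod.ext (by simp [pt]) ?_
    funext j
    simp [pt]
  unfold Exit
  simp only [h0, sub_zero]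
  rw [S3_exit_iff, S3_exit_iff]
  refine exists_congr fun b => and_congr_right fun _ => ?_
  exact Reach_filter _ _ (fun a ha v hv => S3_not_inc ha v hv) _ _ _

/- The particle of `a` leaves the box around `a` if a path leads far away from `a`. -/
omit [NeZero L] [NeZero W] in
private theorem S3_iso {R r : ℤ} (hr : 1 ≤ r) {a : Vx L W n} (ha : a ∈ box L W n (2 * R)) {l : List (Ed L W n)}
    (h : ∃ b, b ∉ box L W n (r + 2 * R) ∧
      Seg (gT L W n) (box L W n (r + 2 * R) \ box L W n (2 * R)) a b l) :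
    ∃ m : List (Ed L W n × Bool), m.map Prod.fst = l ∧
      (∀ x ∈ m, x.2 = false → inc (gT L W n) {a} x.1 = true) ∧
      Exit L W n r a (part true m) := by
  classical
  obtain ⟨b, hb, hs⟩ := h
  have hab : a ≠ b := by
    rintro rfl
    exact hb (S3_box_mono (by omega) ha)
  obtain ⟨m, hm1, hm2, k, hk, -⟩ := iso_left S3_isSw _ a b (fun h => h.2 ha) hab l hs
  refine ⟨m, hm1, hm2, k, fun hbox => hb ?_⟩
  rw [hk] at hbox
  have := S3_box_add ha hbox
  rw [add_sub_cancel] at this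
  exact S3_box_mono (by omega) this

omit [NeZero L] [NeZero W] in
theorem S3_card_box (M : ℤ) (hM : 1 ≤ M) : ((box L W n M).ncard : ℝ) ≤ (2 * (M : ℝ)) ^ (n + 1) := by
  classical
  have hsub : box L W n M ⊆ ((Finset.Icc (-(M - 1)) (M - 1) ×ˢ cube n M).image
      fun p : ℤ × (Fin n → ℤ) => pt L W n p.1 p.2 : Finset (Vx L W n)) := by
    rintro v ⟨i, u, h1, h2, rfl⟩
    rw [Finset.mem_coe, Finset.mem_image]
    refine ⟨(i, u), ?_, rfl⟩
    rw [Finset.mem_product, Finset.mem_Icc, cube, Fintype.mem_piFinset]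
    refine ⟨abs_le.mp h1, fun j => ?_⟩
    rw [Finset.mem_Icc]
    exact abs_le.mp (h2 j)
  have h1 : (box L W n M).ncard ≤ ((Finset.Icc (-(M - 1)) (M - 1) ×ˢ cube n M).image
      fun p : ℤ × (Fin n → ℤ) => pt L W n p.1 p.2 : Finset (Vx L W n)).card := by
    rw [← Set.ncard_coe_finset]
    exact Set.ncard_le_ncard hsub (Finset.finite_toSet _)
  have h2 : (box L W n M).ncard ≤ (2 * M - 1).toNat ^ (n + 1) := by
    refine h1.trans (Finset.card_image_le.trans ?_)
    rw [Finset.card_product, Int.card_Icc, cube, Fintype.card_piFinset]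
    simp only [Int.card_Icc, Finset.prod_const, Finset.card_univ, Fintype.card_fin]
    rw [show M - 1 + 1 - -(M - 1) = 2 * M - 1 by ring, pow_succ, mul_comm]
  have h3 : (((2 * M - 1).toNat : ℕ) : ℝ) = 2 * (M : ℝ) - 1 := by
    have h5 : (((2 * M - 1).toNat : ℤ)) = 2 * M - 1 := Int.toNat_of_nonneg (by omega)
    have h4 : (((2 * M - 1).toNat : ℤ) : ℝ) = ((2 * M - 1 : ℤ) : ℝ) := by rw [h5]
    rw [Int.cast_natCast] at h4
    rw [h4]
    push_cast
    ring
  calc ((box L W n M).ncard : ℝ) ≤ (((2 * M - 1).toNat : ℕ) : ℝ) ^ (n + 1) := by exact_mod_cast h2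
    _ = (2 * (M : ℝ) - 1) ^ (n + 1) := by rw [h3]
    _ ≤ (2 * (M : ℝ)) ^ (n + 1) := by
      have hM' : (1 : ℝ) ≤ M := by exact_mod_cast hM
      exact pow_le_pow_left₀ (by linarith) (by linarith) _

private theorem S3_pow {a b : ℕ} (h1 : b ≤ a) (h2 : a ≤ b + 2) (m : ℕ) :
    a ^ (m + 1) ≤ b ^ (m + 1) + 2 * (m + 1) * a ^ m := by
  induction m with
  | zero => simpa using h2
  | succ m ih =>
    calc a ^ (m + 1 + 1) = a ^ (m + 1) * a := pow_succ _ _
      _ ≤ a ^ (m + 1) * (b + 2) := Nat.mul_le_mul_left _ h2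
      _ = a ^ (m + 1) * b + 2 * a ^ (m + 1) := by ring
      _ ≤ (b ^ (m + 1) + 2 * (m + 1) * a ^ m) * b + 2 * a ^ (m + 1) :=
          Nat.add_le_add_right (Nat.mul_le_mul_right _ ih) _
      _ = b ^ (m + 1 + 1) + 2 * (m + 1) * (a ^ m * b) + 2 * a ^ (m + 1) := by ring
      _ ≤ b ^ (m + 1 + 1) + 2 * (m + 1) * (a ^ m * a) + 2 * a ^ (m + 1) :=
          Nat.add_le_add_right (Nat.add_le_add_left
            (Nat.mul_le_mul_left _ (Nat.mul_le_mul_left _ h1)) _) _
      _ = b ^ (m + 1 + 1) + 2 * (m + 1 + 1) * a ^ (m + 1) := by ring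

/- The number of points of the inner boundary of a box. -/
omit [NeZero L] [NeZero W] in
theorem S3_card_shell (M : ℤ) (hM : 1 ≤ M) : ((box L W n M \ box L W n (M - 1)).ncard : ℝ) ≤
    2 * (n + 1) * (2 * (M : ℝ)) ^ n := by
  classical
  set F : ℤ → Finset (ℤ × (Fin n → ℤ)) := fun m => Finset.Icc (-(m - 1)) (m - 1) ×ˢ cube n m with hF
  have hcard : ∀ m : ℤ, (F m).card = (2 * m - 1).toNat ^ (n + 1) := by
    intro m
    rw [hF]
    simp only
    rw [Finset.card_product, Int.card_Icc, cube, Fintype.card_piFinset]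
    simp only [Int.card_Icc, Finset.prod_const, Finset.card_univ, Fintype.card_fin]
    rw [show m - 1 + 1 - -(m - 1) = 2 * m - 1 by ring, pow_succ, mul_comm]
  have hFsub : F (M - 1) ⊆ F M := by
    intro p hp
    rw [hF] at hp ⊢
    simp only [Finset.mem_product, Finset.mem_Icc, cube, Fintype.mem_piFinset] at hp ⊢
    exact ⟨⟨by omega, by omega⟩, fun j => ⟨by have := (hp.2 j).1; omega, by have := (hp.2 j).2; omega⟩⟩
  have hsub : box L W n M \ box L W n (M - 1) ⊆ ((F M \ F (M - 1)).image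
      fun p : ℤ × (Fin n → ℤ) => pt L W n p.1 p.2 : Finset (Vx L W n)) := by
    rintro v ⟨⟨i, u, h1, h2, rfl⟩, h3⟩
    rw [Finset.mem_coe, Finset.mem_image]
    refine ⟨(i, u), ?_, rfl⟩
    rw [Finset.mem_sdiff]
    refine ⟨?_, fun h4 => h3 ?_⟩
    · rw [hF]
      simp only [Finset.mem_product, Finset.mem_Icc, cube, Fintype.mem_piFinset]
      exact ⟨abs_le.mp h1, fun j => abs_le.mp (h2 j)⟩
    · rw [hF] at h4
      simp only [Finset.mem_product, Finset.mem_Icc, cube, Fintype.mem_piFinset] at h4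
      exact ⟨i, u, abs_le.mpr h4.1, fun j => abs_le.mpr (h4.2 j), rfl⟩
  have h1 : (box L W n M \ box L W n (M - 1)).ncard ≤ (F M).card - (F (M - 1)).card := by
    rw [← Finset.card_sdiff_of_subset hFsub]
    refine le_trans ?_ (Finset.card_image_le (f := fun p : ℤ × (Fin n → ℤ) => pt L W n p.1 p.2))
    rw [← Set.ncard_coe_finset]
    exact Set.ncard_le_ncard hsub (Finset.finite_toSet _)
  have h2 : (box L W n M \ box L W n (M - 1)).ncard ≤ 2 * (n + 1) * (2 * M - 1).toNat ^ n := by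
    refine h1.trans ?_
    rw [hcard, hcard, Nat.sub_le_iff_le_add']
    exact S3_pow (by omega) (by omega) n
  have h3 : (((2 * M - 1).toNat : ℕ) : ℝ) = 2 * (M : ℝ) - 1 := by
    have h5 : (((2 * M - 1).toNat : ℤ)) = 2 * M - 1 := Int.toNat_of_nonneg (by omega)
    have h4 : (((2 * M - 1).toNat : ℤ) : ℝ) = ((2 * M - 1 : ℤ) : ℝ) := by rw [h5]
    rw [Int.cast_natCast] at h4
    rw [h4]
    push_cast
    ring
  have hM' : (1 : ℝ) ≤ M := by exact_mod_cast hM
  calc ((box L W n M \ box L W n (M - 1)).ncard : ℝ)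
      ≤ 2 * (n + 1) * (((2 * M - 1).toNat : ℕ) : ℝ) ^ n := by exact_mod_cast h2
    _ = 2 * (n + 1) * (2 * (M : ℝ) - 1) ^ n := by rw [h3]
    _ ≤ 2 * (n + 1) * (2 * (M : ℝ)) ^ n :=
      mul_le_mul_of_nonneg_left (pow_le_pow_left₀ (by linarith) (by linarith) _) (by positivity)

/- The first step of a segment leaves the box: its starting point is on the inner boundary. -/
omit [NeZero L] [NeZero W] in
private theorem S3_not_inner {R r : ℤ} (hr : 1 ≤ r) {a b : Vx L W n} {l : List (Ed L W n)}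
    (ha : a ∈ box L W n (2 * R)) (hb : b ∉ box L W n (r + 2 * R))
    (hs : Seg (gT L W n) (box L W n (r + 2 * R) \ box L W n (2 * R)) a b l) :
    a ∉ box L W n (2 * R - 1) := by
  intro ha'
  obtain ⟨k, -, m, hm, hi⟩ := hs
  have h1 : (T (gT L W n) l (k, a)).2 ∈ box L W n (2 * R) := by
    unfold T
    cases h : l[k]? with
    | none => simpa [h] using ha
    | some e =>
      have := S3_gT_box e ha'
      rw [show 2 * R - 1 + 1 = 2 * R by ring] at this
      simpa [h] using this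
  rcases Nat.eq_zero_or_pos m with rfl | hm0
  · rw [zero_add, Function.iterate_one] at hm
    rw [hm] at h1
    exact hb (S3_box_mono (by omega) h1)
  · have := hi 1 le_rfl hm0
    rw [Function.iterate_one] at this
    exact this.2 h1

private theorem S3_simon_lieb (ht : 0 ≤ t) (R r : ℤ) (hR : 1 ≤ R) (hr : 1 ≤ r) :
    P L W n t (Exit L W n (r + 2 * R) (pt L W n 0 0)) ≤
      P L W n t (Exit L W n R (pt L W n 0 0)) *
        (2 * (n + 1) * (4 * (R : ℝ)) ^ n * Real.exp (2 * (n + 1) * t)) *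
          P L W n t (Exit L W n r (pt L W n 0 0)) := by
  classical
  set C : Set (Vx L W n) := box L W n (2 * R) with hC
  set E : Set (Vx L W n) := box L W n (r + 2 * R) with hE
  set S : Set (Vx L W n) := box L W n (2 * R) \ box L W n (2 * R - 1) with hS
  have hCE : C ⊆ E := S3_box_mono (by omega)
  have h0 : (pt L W n 0 0 : Vx L W n) = 0 := by
    refine Prod.ext (by simp [pt]) ?_
    funext j
    simp [pt]
  have h0C : (pt L W n 0 0 : Vx L W n) ∈ C :=
    ⟨0, 0, by rw [abs_zero]; omega, fun j => by rw [Pi.zero_apply, abs_zero]; omega, rfl⟩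
  set c : Ed L W n → ℝ := fun _ => t with hc
  have hc0 : ∀ a, 0 ≤ c a := fun _ => ht
  set A1 : List (Ed L W n) → Prop := Exit L W n R (pt L W n 0 0) with hA1
  set A2 : Vx L W n → List (Ed L W n) → Prop := fun a l => ∃ b, b ∉ E ∧
    Seg (gT L W n) (E \ C) a b l with hA2
  set p : Ed L W n → Bool := inc (gT L W n) (box L W n R) with hp
  set q : Ed L W n → Bool := inc (gT L W n) (E \ C) with hq
  -- disjoint alphabets
  have hpq : ∀ a, p a = true → q a = false := by
    intro e hpe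
    by_contra hqe
    rw [Bool.not_eq_false] at hqe
    obtain ⟨v, hv, hve⟩ := S3_inc hpe
    obtain ⟨w, hw, hwe⟩ := S3_inc hqe
    have hv' : gT L W n e v ∈ box L W n (R + 1) := S3_gT_box e hv
    have hwor : w = v ∨ w = gT L W n e v := by
      unfold gT at hve hwe ⊢
      by_cases k1 : v = e.1
      · rw [k1, Equiv.swap_apply_left]
        by_cases k2 : w = e.1
        · exact Or.inl k2
        · by_cases k3 : w = e.1 + dir L W n e.2
          · exact Or.inr k3
          · exact absurd (Equiv.swap_apply_of_ne_of_ne k2 k3) hwe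
      · by_cases k4 : v = e.1 + dir L W n e.2
        · rw [k4, Equiv.swap_apply_right]
          by_cases k2 : w = e.1
          · exact Or.inr k2
          · by_cases k3 : w = e.1 + dir L W n e.2
            · exact Or.inl k3
            · exact absurd (Equiv.swap_apply_of_ne_of_ne k2 k3) hwe
        · exact absurd (Equiv.swap_apply_of_ne_of_ne k1 k4) hve
    rcases hwor with rfl | rfl
    · exact hw.2 (S3_box_mono (by omega) hv)
    · exact hw.2 (S3_box_mono (by omega) hv')
  -- the segment depends on the letters which touch `E \ C`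
  have hseg : ∀ a ∈ C, ∀ l, A2 a l → A2 a (l.filter q) := by
    rintro a ha l ⟨b, hb, hs⟩
    refine ⟨b, hb, ?_⟩
    have hab : a ≠ b := fun h => hb (hCE (h ▸ ha))
    refine (Seg_filter q (E \ C) (fun e he v hv => S3_not_inc he v hv) a b (fun h => h.2 ha) hab
      (fun e _ h => hb ?_) l).mpr hs
    rw [← h]
    exact S3_box_mono (by omega) (S3_gT_box e ha)
  have hincl : ∀ l, Exit L W n (r + 2 * R) (pt L W n 0 0) l →
      A1 (l.filter p) ∧ ∃ a ∈ S.toFinset, A2 a (l.filter q) := by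
    intro l hl
    have hl' : ∃ k, ((T (gT L W n) l)^[k] (0, pt L W n 0 0)).2 ∉ E := by
      obtain ⟨k, hk⟩ := hl
      refine ⟨k, ?_⟩
      rwa [h0, sub_zero, ← h0] at hk
    refine ⟨?_, ?_⟩
    · rw [hA1, hp, S3_exit_filter]
      obtain ⟨k, hk⟩ := hl
      exact ⟨k, fun h => hk (S3_box_mono (by omega) h)⟩
    · obtain ⟨a, ha, b, hb, hs⟩ := exit_last hCE h0C hl'
      exact ⟨a, Set.mem_toFinset.mpr ⟨ha, S3_not_inner hr ha hb hs⟩, hseg a ha l ⟨b, hb, hs⟩⟩
  -- deletion
  have hdel : ∀ a ∈ S.toFinset, Pr (restr c q) (A2 a) ≤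
      Real.exp (2 * (n + 1) * t) * P L W n t (Exit L W n r (pt L W n 0 0)) := by
    intro a ha'
    rw [Set.mem_toFinset] at ha'
    have ha : a ∈ C := ha'.1
    have h1 : Pr (restr c q) (A2 a) ≤ Pr c (A2 a) := by
      rw [← Pr_filter]
      refine Pr_mono hc0 fun l hl => ?_
      obtain ⟨b, hb, hs⟩ := hl
      refine ⟨b, hb, ?_⟩
      have hab : a ≠ b := fun h => hb (hCE (h ▸ ha))
      refine (Seg_filter q (E \ C) (fun e he v hv => S3_not_inc he v hv) a b (fun h => h.2 ha) hab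
        (fun e _ h => hb ?_) l).mp hs
      rw [← h]
      exact S3_box_mono (by omega) (S3_gT_box e ha)
    have h2 : Pr c (A2 a) ≤ Real.exp (∑ x, restr c (inc (gT L W n) {a}) x) *
        Pr c (Exit L W n r a) :=
      Pr_delete hc0 (inc (gT L W n) {a}) (A2 a) (Exit L W n r a) fun l hl => S3_iso hr ha hl
    have h3 : ∑ x, restr c (inc (gT L W n) {a}) x ≤ 2 * (n + 1) * t := by
      have := inc_mass ht ({a} : Set (Vx L W n))
      rwa [Set.ncard_singleton, Nat.cast_one, mul_one] at this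
    have h4 : Pr c (Exit L W n r a) = P L W n t (Exit L W n r (pt L W n 0 0)) :=
      P_Exit_shift r a
    rw [← h4]
    exact h1.trans (h2.trans (mul_le_mul_of_nonneg_right (Real.exp_le_exp.mpr h3)
      (Pr_nonneg hc0 _)))
  have hsum : Pr (restr c q) (fun l => ∃ a ∈ S.toFinset, A2 a l) ≤
      2 * (n + 1) * (4 * (R : ℝ)) ^ n * Real.exp (2 * (n + 1) * t) *
        P L W n t (Exit L W n r (pt L W n 0 0)) := by
    have hr0 : ∀ a, 0 ≤ restr c q a := fun a => by
      unfold restr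
      split_ifs
      · exact ht
      · exact le_rfl
    refine (Pr_exists_le hr0 S.toFinset A2).trans ((Finset.sum_le_sum hdel).trans ?_)
    rw [Finset.sum_const, nsmul_eq_mul, mul_assoc (2 * ((n : ℝ) + 1) * (4 * (R : ℝ)) ^ n)]
    refine mul_le_mul_of_nonneg_right ?_ (mul_nonneg (Real.exp_pos _).le (Pr_nonneg hc0 _))
    have h1 := S3_card_shell (L := L) (W := W) (n := n) (2 * R) (by omega)
    rw [Set.ncard_eq_toFinset_card'] at h1
    push_cast at h1
    rwa [show (2 : ℝ) * (2 * (R : ℝ)) = 4 * (R : ℝ) by ring] at h1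
  have hPA : Pr (restr c p) A1 = P L W n t A1 := by
    rw [← Pr_filter]
    refine Pr_congr c fun l _ => ?_
    rw [hA1, hp]
    exact S3_exit_filter R l
  calc P L W n t (Exit L W n (r + 2 * R) (pt L W n 0 0))
      ≤ Pr c (fun l => A1 (l.filter p) ∧ ∃ a ∈ S.toFinset, A2 a (l.filter q)) :=
        Pr_mono hc0 hincl
    _ = Pr (restr c p) A1 * Pr (restr c q) (fun l => ∃ a ∈ S.toFinset, A2 a l) :=
        Pr_indep c p q hpq A1 (fun l => ∃ a ∈ S.toFinset, A2 a l)
    _ ≤ P L W n t A1 * (2 * (n + 1) * (4 * (R : ℝ)) ^ n * Real.exp (2 * (n + 1) * t) *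
        P L W n t (Exit L W n r (pt L W n 0 0))) := by
        rw [hPA]
        exact mul_le_mul_of_nonneg_left hsum (Pr_nonneg hc0 _)
    _ = _ := by ring

/-- S3. The Simon-Lieb inequality. -/
theorem simon_lieb (ht : 0 ≤ t) (R r : ℤ) (hR : 1 ≤ R) (hr : 1 ≤ r) :
    P L W n t (Exit L W n (r + 2 * R) (pt L W n 0 0)) ≤
      P L W n t (Exit L W n R (pt L W n 0 0)) *
        (2 * (n + 1) * (4 * (R : ℝ)) ^ n * Real.exp (2 * (n + 1) * t)) *
          P L W n t (Exit L W n r (pt L W n 0 0)) :=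
  S3_simon_lieb ht R r hR hr

theorem exit_decay (ht : 0 ≤ t) (R : ℤ) (hR : 1 ≤ R)
    (hq : P L W n t (Exit L W n R (pt L W n 0 0)) *
      (2 * (n + 1) * (4 * (R : ℝ)) ^ n * Real.exp (2 * (n + 1) * t)) ≤ 1 / 2)
    (k : ℕ) (r : ℤ) (hr : 1 + 2 * R * k ≤ r) (x : Vx L W n) :
    P L W n t (Exit L W n r x) ≤ (1 / 2) ^ k := by
  have hc0 : ∀ a : Ed L W n, (0 : ℝ) ≤ (fun _ : Ed L W n => t) a := fun _ => ht
  rw [P_Exit_shift]
  have key : ∀ k : ℕ, P L W n t (Exit L W n (1 + 2 * R * k) (pt L W n 0 0)) ≤ (1 / 2) ^ k := by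
    intro k
    induction k with
    | zero =>
      rw [pow_zero]
      exact Pr_le_one hc0 _
    | succ k ih =>
      have h1 : (1 : ℤ) ≤ 1 + 2 * R * k := by
        have : 0 ≤ 2 * R * k := by positivity
        omega
      have h2 := S3_simon_lieb (L := L) (W := W) (n := n) ht R (1 + 2 * R * k) hR h1
      have h3 : 1 + 2 * R * (k : ℤ) + 2 * R = 1 + 2 * R * ((k + 1 : ℕ) : ℤ) := by
        push_cast
        ring
      rw [h3] at h2
      refine h2.trans ((mul_le_mul hq ih (Pr_nonneg hc0 _) (by norm_num)).trans (le_of_eq ?_))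
      ring
  refine (Pr_mono hc0 fun l hl => ?_).trans (key k)
  obtain ⟨j, hj⟩ := hl
  exact ⟨j, fun h => hj (S3_box_mono hr h)⟩

end

end Pool.Agent.ThinTori.Dim

end

/-! Stirring on tori, row S4: exponential decay from the finite size criterion -/

section

open Finset

namespace Pool.Agent.ThinTori.Dim

section

variable {L W n : ℕ} [NeZero L] [NeZero W] {t : ℝ}

theorem decay (ht : 0 ≤ t) (R : ℕ) (hR : 1 ≤ R)
    (h : P L W n t (Exit L W n R (pt L W n 0 0)) *
      (2 * (n + 1) * (4 * (R : ℝ)) ^ n * Real.exp (2 * (n + 1) * t)) ≤ 1 / 2) (r : ℕ) (hr : 1 ≤ r) :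
    P L W n t (Exit L W n r (pt L W n 0 0)) ≤
      2 * (2 : ℝ) ^ (-((r : ℝ) / (2 * (R : ℝ)))) := by
  have hR' : (0 : ℝ) < R := by exact_mod_cast hR
  set k : ℕ := (r - 1) / (2 * R) with hk
  have h1 : 1 + 2 * R * k ≤ r := by
    have := Nat.mul_div_le (r - 1) (2 * R)
    rw [← hk] at this
    omega
  have h2 : r ≤ 2 * R * (k + 1) := by
    have := Nat.lt_mul_div_succ (r - 1) (show 0 < 2 * R by omega)
    rw [← hk] at this
    omega
  have h3 := exit_decay (L := L) (W := W) (n := n) ht (R : ℤ) (by exact_mod_cast hR)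
    (by rw [Int.cast_natCast]; exact h) k (r : ℤ) (by exact_mod_cast h1) (pt L W n 0 0)
  refine h3.trans ?_
  have h4 : ((1 : ℝ) / 2) ^ k = (2 : ℝ) ^ (-(k : ℝ)) := by
    rw [Real.rpow_neg (by norm_num), Real.rpow_natCast, one_div, inv_pow]
  have h5 : (2 : ℝ) * (2 : ℝ) ^ (-((r : ℝ) / (2 * (R : ℝ)))) =
      (2 : ℝ) ^ (1 + -((r : ℝ) / (2 * (R : ℝ)))) := by
    rw [Real.rpow_add (by norm_num), Real.rpow_one]
  rw [h4, h5]
  refine Real.rpow_le_rpow_of_exponent_le (by norm_num) ?_
  have h6 : (r : ℝ) ≤ 2 * R * (k + 1) := by exact_mod_cast h2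
  have h7 : (r : ℝ) / (2 * (R : ℝ)) ≤ k + 1 := by
    rw [div_le_iff₀ (by positivity)]
    linarith
  linarith

end

end Pool.Agent.ThinTori.Dim

end

/-! Stirring on the torus `(ℤ/N) ^ (n + 1)`, row S8: exit probabilities do not depend on `N` -/

section

open Finset

namespace Pool.Agent.ThinTori.Dim

section Words

variable {α β : Type*} [Fintype α] [Fintype β]

private theorem S8_wordSum (t : ℝ) (q : α → Bool) (q' : β → Bool) (e : α → β) (e' : β → α)
    (he : ∀ a, q a = true → q' (e a) = true) (he' : ∀ b, q' b = true → q (e' b) = true)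
    (hl : ∀ a, q a = true → e' (e a) = a) (hr : ∀ b, q' b = true → e (e' b) = b)
    (F : List α → ℝ) (F' : List β → ℝ)
    (hF : ∀ l : List α, (∀ a ∈ l, q a = true) → F' (l.map e) = F l) (n : ℕ) :
    wordSum (restr (fun _ => t) q) F n = wordSum (restr (fun _ => t) q') F' n := by
  classical
  induction n generalizing F F' with
  | zero =>
    rw [wordSum_zero, wordSum_zero]
    exact (hF [] (by simp)).symm
  | succ n ih =>
    rw [wordSum_succ, wordSum_succ]
    have h1 : ∀ a, restr (fun _ => t) q a * wordSum (restr (fun _ => t) q) (fun l => F (a :: l)) n =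
        if q a = true then t * wordSum (restr (fun _ => t) q') (fun l => F' (e a :: l)) n else 0 := by
      intro a
      unfold restr
      by_cases h : q a = true
      · rw [if_pos h, if_pos h]
        congr 1
        refine ih _ _ fun l hl' => ?_
        have := hF (a :: l) (by
          intro b hb
          rcases List.mem_cons.1 hb with rfl | hb
          · exact h
          · exact hl' b hb)
        simpa using this
      · rw [if_neg h, if_neg h, zero_mul]
    have h2 : ∀ b, restr (fun _ => t) q' b * wordSum (restr (fun _ => t) q') (fun l => F' (b :: l)) n =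
        if q' b = true then t * wordSum (restr (fun _ => t) q') (fun l => F' (b :: l)) n else 0 := by
      intro b
      by_cases h : q' b = true
      · rw [if_pos h]
        simp [restr, h]
      · rw [if_neg h]
        simp [restr, h]
    rw [Finset.sum_congr rfl fun a _ => h1 a, Finset.sum_congr rfl fun b _ => h2 b,
      ← Finset.sum_filter, ← Finset.sum_filter]
    refine Finset.sum_nbij' e e' ?_ ?_ ?_ ?_ ?_
    · intro a ha
      exact Finset.mem_filter.2 ⟨Finset.mem_univ _, he a (Finset.mem_filter.1 ha).2⟩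
    · intro b hb
      exact Finset.mem_filter.2 ⟨Finset.mem_univ _, he' b (Finset.mem_filter.1 hb).2⟩
    · intro a ha
      exact hl a (Finset.mem_filter.1 ha).2
    · intro b hb
      exact hr b (Finset.mem_filter.1 hb).2
    · intro a _
      rfl

private theorem S8_Pr (t : ℝ) (q : α → Bool) (q' : β → Bool) (e : α → β) (e' : β → α)
    (he : ∀ a, q a = true → q' (e a) = true) (he' : ∀ b, q' b = true → q (e' b) = true)
    (hl : ∀ a, q a = true → e' (e a) = a) (hr : ∀ b, q' b = true → e (e' b) = b)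
    (A : List α → Prop) (A' : List β → Prop)
    (hA : ∀ l : List α, (∀ a ∈ l, q a = true) → (A' (l.map e) ↔ A l)) :
    Pr (restr (fun _ => t) q) A = Pr (restr (fun _ => t) q') A' := by
  classical
  unfold Pr
  have h1 : ∑ a, restr (fun _ => t) q a = ∑ b, restr (fun _ => t) q' b := by
    have := S8_wordSum t q q' e e' he he' hl hr (fun _ => 1) (fun _ => 1) (fun _ _ => rfl) 1
    rw [wordSum_const, wordSum_const] at this
    simpa using this
  rw [h1]
  congr 1
  unfold Z
  refine tsum_congr fun n => ?_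
  rw [S8_wordSum t q q' e e' he he' hl hr (fun l => if A l then 1 else 0)
    (fun l => if A' l then 1 else 0)]
  intro l hl'
  simp only [hA l hl']

end Words

section Torus

/-- the change of the torus -/
private noncomputable def S8_phi (N N' n : ℕ) (v : Vx N N n) : Vx N' N' n :=
  (((v.1.valMinAbs : ℤ) : ZMod N'), fun j => (((v.2 j).valMinAbs : ℤ) : ZMod N'))

private theorem S8_lift (N : ℕ) [NeZero N] (R : ℕ) (hN : 2 * R + 1 ≤ N) (i : ℤ) (hi : |i| ≤ R) :
    ((i : ZMod N)).valMinAbs = i := by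
  rw [ZMod.valMinAbs_spec]
  refine ⟨rfl, ?_⟩
  have h1 := abs_le.1 hi
  have h2 : (2 * R + 1 : ℤ) ≤ N := by exact_mod_cast hN
  constructor <;> linarith

private theorem S8_phi_pt (N N' n : ℕ) [NeZero N] (R : ℕ) (hN : 2 * R + 1 ≤ N) (i : ℤ)
    (u : Fin n → ℤ) (hi : |i| ≤ R) (hu : ∀ j, |u j| ≤ R) :
    S8_phi N N' n (pt N N n i u) = pt N' N' n i u := by
  unfold S8_phi pt
  simp only [S8_lift N R hN i hi, S8_lift N R hN _ (hu _)]

/-- the integer unit vectors -/
private def S8_di (n : ℕ) (o : Option (Fin n)) : ℤ :=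
  match o with
  | none => 1
  | some _ => 0

private def S8_du (n : ℕ) (o : Option (Fin n)) : Fin n → ℤ :=
  match o with
  | none => 0
  | some j => Pi.single j 1

private theorem S8_pt_dir (N n : ℕ) (i : ℤ) (u : Fin n → ℤ) (o : Option (Fin n)) :
    pt N N n i u + dir N N n o = pt N N n (i + S8_di n o) (u + S8_du n o) := by
  rcases o with _ | m
  · simp only [pt, dir, S8_di, S8_du]
    refine Prod.ext ?_ ?_
    · simp
    · funext j
      simp
  · simp only [pt, dir, S8_di, S8_du]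
    refine Prod.ext ?_ ?_
    · simp
    · funext j
      by_cases h : j = m
      · subst h
        simp
      · simp [Pi.single_eq_of_ne h]

private theorem S8_di_abs (n : ℕ) (o : Option (Fin n)) : |S8_di n o| ≤ 1 := by
  rcases o with _ | m <;> simp [S8_di]

private theorem S8_du_abs (n : ℕ) (o : Option (Fin n)) (j : Fin n) : |S8_du n o j| ≤ 1 := by
  rcases o with _ | m
  · simp [S8_du]
  · by_cases h : j = m
    · subst h
      simp [S8_du]
    · simp [S8_du, Pi.single_eq_of_ne h]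

/-- the letters which move a point of the box -/
private theorem S8_letter (N n R : ℕ) (e : Ed N N n)
    (he : inc (gT N N n) (box N N n R) e = true) :
    ∃ (i : ℤ) (u : Fin n → ℤ), |i| ≤ R ∧ (∀ j, |u j| ≤ R) ∧ |i + S8_di n e.2| ≤ R ∧
      (∀ j, |(u + S8_du n e.2) j| ≤ R) ∧ e.1 = pt N N n i u ∧
      ((|i| ≤ (R : ℤ) - 1 ∧ ∀ j, |u j| ≤ (R : ℤ) - 1) ∨
        (|i + S8_di n e.2| ≤ (R : ℤ) - 1 ∧ ∀ j, |(u + S8_du n e.2) j| ≤ (R : ℤ) - 1)) := by
  obtain ⟨v, ⟨i, u, hi, hu, rfl⟩, hv⟩ : ∃ v ∈ box N N n R, gT N N n e v ≠ v := by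
    unfold inc at he
    simpa using he
  have hd := abs_le.1 (S8_di_abs n e.2)
  have hd' : ∀ j, -1 ≤ S8_du n e.2 j ∧ S8_du n e.2 j ≤ 1 := fun j => abs_le.1 (S8_du_abs n e.2 j)
  have hi' := abs_le.1 hi
  have hu' : ∀ j, -((R : ℤ) - 1) ≤ u j ∧ u j ≤ (R : ℤ) - 1 := fun j => abs_le.1 (hu j)
  by_cases h1 : pt N N n i u = e.1
  · refine ⟨i, u, by rw [abs_le]; omega, fun j => by rw [abs_le]; have := hu' j; omega,
      by rw [abs_le]; omega, fun j => ?_, h1.symm, Or.inl ⟨hi, hu⟩⟩
    have h2 := hu' j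
    have h3 := hd' j
    rw [Pi.add_apply, abs_le]
    omega
  by_cases h2 : pt N N n i u = e.1 + dir N N n e.2
  · have h3 : e.1 = pt N N n (i - S8_di n e.2) (u - S8_du n e.2) := by
      have h4 := S8_pt_dir N n (i - S8_di n e.2) (u - S8_du n e.2) e.2
      rw [sub_add_cancel, sub_add_cancel, h2] at h4
      exact (add_right_cancel h4).symm
    refine ⟨i - S8_di n e.2, u - S8_du n e.2, by rw [abs_le]; omega, fun j => ?_,
      by rw [sub_add_cancel, abs_le]; omega, fun j => ?_, h3, Or.inr ⟨?_, fun j => ?_⟩⟩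
    · have h4 := hu' j
      have h5 := hd' j
      rw [Pi.sub_apply, abs_le]
      omega
    · rw [sub_add_cancel, abs_le]
      have h4 := hu' j
      omega
    · rw [sub_add_cancel]
      exact hi
    · rw [sub_add_cancel]
      exact hu j
  · exfalso
    apply hv
    unfold gT
    exact Equiv.swap_apply_of_ne_of_ne h1 h2

private theorem S8_inj (N n : ℕ) [NeZero N] (R : ℕ) (hN : 2 * R + 1 ≤ N) (i i' : ℤ)
    (u u' : Fin n → ℤ) (hi : |i| ≤ R) (hu : ∀ j, |u j| ≤ R) (hi' : |i'| ≤ R) (hu' : ∀ j, |u' j| ≤ R)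
    (h : pt N N n i u = pt N N n i' u') : i = i' ∧ u = u' := by
  unfold pt at h
  obtain ⟨h1, h2⟩ := Prod.mk.inj h
  constructor
  · rw [← S8_lift N R hN i hi, h1, S8_lift N R hN i' hi']
  · funext j
    rw [← S8_lift N R hN _ (hu j), congrFun h2 j, S8_lift N R hN _ (hu' j)]

private theorem S8_ne (n : ℕ) (i : ℤ) (u : Fin n → ℤ) (o : Option (Fin n)) :
    ¬ (i = i + S8_di n o ∧ u = u + S8_du n o) := by
  rintro ⟨h1, h2⟩
  rcases o with _ | m
  · simp [S8_di] at h1
  · have := congrFun h2 m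
    simp [S8_du] at this

/-- the letter map -/
private noncomputable def S8_e (N N' n : ℕ) (a : Ed N N n) : Ed N' N' n := (S8_phi N N' n a.1, a.2)

variable (N N' n R : ℕ) [NeZero N] [NeZero N'] (hN : 2 * R + 1 ≤ N) (hN' : 2 * R + 1 ≤ N')

include hN hN'

private theorem S8_he (a : Ed N N n) (ha : inc (gT N N n) (box N N n R) a = true) :
    inc (gT N' N' n) (box N' N' n R) (S8_e N N' n a) = true := by
  obtain ⟨i, u, hi, hu, hi', hu', h1, h2⟩ := S8_letter N n R a ha
  have h3 : (S8_e N N' n a).1 = pt N' N' n i u := by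
    unfold S8_e
    rw [h1]
    exact S8_phi_pt N N' n R hN i u hi hu
  have h4 : (S8_e N N' n a).2 = a.2 := rfl
  have h5 : pt N' N' n i u + dir N' N' n a.2 = pt N' N' n (i + S8_di n a.2) (u + S8_du n a.2) :=
    S8_pt_dir N' n i u a.2
  have h6 : pt N' N' n i u ≠ pt N' N' n (i + S8_di n a.2) (u + S8_du n a.2) := fun h =>
    S8_ne n i u a.2 (S8_inj N' n R hN' _ _ _ _ hi hu hi' hu' h)
  have h7 : ∃ v ∈ box N' N' n R, gT N' N' n (S8_e N N' n a) v ≠ v := by
    rcases h2 with h2 | h2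
    · refine ⟨pt N' N' n i u, ⟨i, u, h2.1, h2.2, rfl⟩, ?_⟩
      unfold gT
      rw [h3, h4, h5, Equiv.swap_apply_left]
      exact h6.symm
    · refine ⟨pt N' N' n (i + S8_di n a.2) (u + S8_du n a.2), ⟨_, _, h2.1, h2.2, rfl⟩, ?_⟩
      unfold gT
      rw [h3, h4, h5, Equiv.swap_apply_right]
      exact h6
  unfold inc
  simpa using h7

private theorem S8_back (a : Ed N N n) (ha : inc (gT N N n) (box N N n R) a = true) :
    S8_e N' N n (S8_e N N' n a) = a := by
  obtain ⟨i, u, hi, hu, hi', hu', h1, h2⟩ := S8_letter N n R a ha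
  have h3 : (S8_e N N' n a).1 = pt N' N' n i u := by
    unfold S8_e
    rw [h1]
    exact S8_phi_pt N N' n R hN i u hi hu
  refine Prod.ext ?_ rfl
  change S8_phi N' N n (S8_e N N' n a).1 = a.1
  rw [h3, S8_phi_pt N' N n R hN' i u hi hu, h1]

/-- one step -/
private theorem S8_step (a : Ed N N n) (ha : inc (gT N N n) (box N N n R) a = true) (v : Vx N N n)
    (hv : v ∈ box N N n R) :
    gT N' N' n (S8_e N N' n a) (S8_phi N N' n v) = S8_phi N N' n (gT N N n a v) ∧
      ∃ (i : ℤ) (u : Fin n → ℤ), |i| ≤ R ∧ (∀ j, |u j| ≤ R) ∧ gT N N n a v = pt N N n i u := by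
  obtain ⟨i, u, hi, hu, hi', hu', h1, h2⟩ := S8_letter N n R a ha
  obtain ⟨i₀, u₀, hi₀, hu₀, rfl⟩ := hv
  have hi₀' : |i₀| ≤ R := by omega
  have hu₀' : ∀ j, |u₀ j| ≤ R := fun j => by have := hu₀ j; omega
  have h3 : (S8_e N N' n a).1 = pt N' N' n i u := by
    unfold S8_e
    rw [h1]
    exact S8_phi_pt N N' n R hN i u hi hu
  have h4 : (S8_e N N' n a).2 = a.2 := rfl
  have h5 : pt N' N' n i u + dir N' N' n a.2 = pt N' N' n (i + S8_di n a.2) (u + S8_du n a.2) :=
    S8_pt_dir N' n i u a.2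
  have h5' : pt N N n i u + dir N N n a.2 = pt N N n (i + S8_di n a.2) (u + S8_du n a.2) :=
    S8_pt_dir N n i u a.2
  have e0 : S8_phi N N' n (pt N N n i₀ u₀) = pt N' N' n i₀ u₀ :=
    S8_phi_pt N N' n R hN i₀ u₀ hi₀' hu₀'
  have e1 : S8_phi N N' n (pt N N n i u) = pt N' N' n i u := S8_phi_pt N N' n R hN i u hi hu
  have e2 : S8_phi N N' n (pt N N n (i + S8_di n a.2) (u + S8_du n a.2)) =
      pt N' N' n (i + S8_di n a.2) (u + S8_du n a.2) := S8_phi_pt N N' n R hN _ _ hi' hu'
  unfold gT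
  rw [h3, h4, h5, h1, h5', e0]
  by_cases hA : i₀ = i ∧ u₀ = u
  · obtain ⟨rfl, rfl⟩ := hA
    rw [Equiv.swap_apply_left, Equiv.swap_apply_left, e2]
    exact ⟨rfl, _, _, hi', hu', rfl⟩
  by_cases hB : i₀ = i + S8_di n a.2 ∧ u₀ = u + S8_du n a.2
  · obtain ⟨hB1, hB2⟩ := hB
    rw [hB1, hB2, Equiv.swap_apply_right, Equiv.swap_apply_right, e1]
    exact ⟨rfl, _, _, hi, hu, rfl⟩
  · rw [Equiv.swap_apply_of_ne_of_ne, Equiv.swap_apply_of_ne_of_ne, e0]
    · exact ⟨rfl, _, _, hi₀', hu₀', rfl⟩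
    · exact fun h => hA (S8_inj N n R hN _ _ _ _ hi₀' hu₀' hi hu h)
    · exact fun h => hB (S8_inj N n R hN _ _ _ _ hi₀' hu₀' hi' hu' h)
    · exact fun h => hA (S8_inj N' n R hN' _ _ _ _ hi₀' hu₀' hi hu h)
    · exact fun h => hB (S8_inj N' n R hN' _ _ _ _ hi₀' hu₀' hi' hu' h)

/-- the orbit -/
private theorem S8_orbit (l : List (Ed N N n)) (hl : ∀ a ∈ l, inc (gT N N n) (box N N n R) a = true)
    (x : Vx N N n) (k : ℕ) (hk : ∀ i < k, ((T (gT N N n) l)^[i] (0, x)).2 ∈ box N N n R) :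
    (T (gT N' N' n) (l.map (S8_e N N' n)))^[k] (0, S8_phi N N' n x) =
      (((T (gT N N n) l)^[k] (0, x)).1, S8_phi N N' n ((T (gT N N n) l)^[k] (0, x)).2) := by
  induction k with
  | zero => rfl
  | succ k ih =>
    rw [Function.iterate_succ_apply', Function.iterate_succ_apply', ih fun i hi => hk i (by omega)]
    have h1 := hk k (by omega)
    set s := (T (gT N N n) l)^[k] (0, x) with hs
    unfold T
    simp only [List.getElem?_map]
    rcases h : l[s.1]? with _ | a
    · rfl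
    · simp only [Option.map_some]
      have ha : a ∈ l := List.mem_of_getElem? h
      rw [(S8_step N N' n R hN hN' a (hl a ha) s.2 h1).1]

private theorem S8_exit (hR : 1 ≤ R) (l : List (Ed N N n))
    (hl : ∀ a ∈ l, inc (gT N N n) (box N N n R) a = true)
    (h : Exit N N n R (pt N N n 0 0) l) :
    Exit N' N' n R (pt N' N' n 0 0) (l.map (S8_e N N' n)) := by
  classical
  have h00 : pt N N n 0 0 = 0 := by
    refine Prod.ext ?_ ?_
    · simp [pt]
    · funext j
      simp [pt]
  have h00' : pt N' N' n 0 0 = 0 := by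
    refine Prod.ext ?_ ?_
    · simp [pt]
    · funext j
      simp [pt]
  unfold Exit at h
  rw [h00] at h
  simp only [sub_zero] at h
  obtain ⟨k, hk, hmin⟩ : ∃ k, ((T (gT N N n) l)^[k] (0, (0 : Vx N N n))).2 ∉ box N N n R ∧
      ∀ i < k, ((T (gT N N n) l)^[i] (0, (0 : Vx N N n))).2 ∈ box N N n R :=
    ⟨Nat.find h, Nat.find_spec h, fun i hi => by
      have := Nat.find_min h hi
      exact not_not.1 this⟩
  have h0mem : (0 : Vx N N n) ∈ box N N n R := by
    refine ⟨0, 0, ?_, fun j => ?_, h00.symm⟩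
    · simp only [abs_zero]
      omega
    · simp only [Pi.zero_apply, abs_zero]
      omega
  have hk0 : k ≠ 0 := by
    rintro rfl
    exact hk h0mem
  obtain ⟨p, rfl⟩ : ∃ p, k = p + 1 := ⟨k - 1, by omega⟩
  -- the exit point is in the closed box
  have hcl : ∃ (i : ℤ) (u : Fin n → ℤ), |i| ≤ R ∧ (∀ j, |u j| ≤ R) ∧
      ((T (gT N N n) l)^[p + 1] (0, (0 : Vx N N n))).2 = pt N N n i u := by
    have h1 := hmin p (by omega)
    rw [Function.iterate_succ_apply']
    set s := (T (gT N N n) l)^[p] (0, (0 : Vx N N n)) with hs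
    unfold T
    rcases h : l[s.1]? with _ | a
    · obtain ⟨i, u, hi, hu, hv⟩ := h1
      exact ⟨i, u, by omega, fun j => by have := hu j; omega, hv⟩
    · have ha : a ∈ l := List.mem_of_getElem? h
      exact (S8_step N N' n R hN hN' a (hl a ha) s.2 h1).2
  obtain ⟨i, u, hi, hu, hv⟩ := hcl
  refine ⟨p + 1, ?_⟩
  have h1 := S8_orbit N N' n R hN hN' l hl 0 (p + 1) hmin
  have h2 : S8_phi N N' n 0 = 0 := by
    rw [← h00, S8_phi_pt N N' n R hN 0 0 (by simp) (by simp), h00']
  rw [h2] at h1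
  rw [h00', sub_zero, h1, hv]
  change S8_phi N N' n (pt N N n i u) ∉ _
  rw [S8_phi_pt N N' n R hN i u hi hu]
  rintro ⟨i', u', hi', hu', h3⟩
  obtain ⟨h4, h5⟩ := S8_inj N' n R hN' _ _ _ _ hi hu (by omega) (fun j => by
    have := hu' j
    omega) h3
  apply hk
  rw [hv]
  exact ⟨i, u, h4 ▸ hi', h5 ▸ hu', rfl⟩

omit N' [NeZero N] [NeZero N'] hN hN' in
private theorem S8_exit_iff (l : List (Ed N N n)) :
    Exit N N n R (pt N N n 0 0) l ↔
      ∃ b, b ∉ box N N n R ∧ Reach (gT N N n) (box N N n R) (pt N N n 0 0) b l := by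
  classical
  have h00 : pt N N n 0 0 = 0 := by
    refine Prod.ext ?_ ?_
    · simp [pt]
    · funext j
      simp [pt]
  unfold Exit
  rw [h00]
  simp only [sub_zero]
  constructor
  · intro h
    exact ⟨_, Nat.find_spec h, Nat.find h, rfl, fun i hi => by
      have := Nat.find_min h hi
      exact not_not.1 this⟩
  · rintro ⟨b, hb, k, hk, -⟩
    exact ⟨k, by rw [hk]; exact hb⟩

omit N' [NeZero N'] hN hN' in
private theorem S8_filter (t : ℝ) :
    P N N n t (Exit N N n R (pt N N n 0 0)) =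
      Pr (restr (fun _ => t) (inc (gT N N n) (box N N n R))) (Exit N N n R (pt N N n 0 0)) := by
  rw [← Pr_filter]
  unfold P
  refine Pr_congr _ fun l _ => ?_
  rw [S8_exit_iff N n R l, S8_exit_iff N n R]
  refine exists_congr fun b => and_congr_right fun _ => ?_
  rw [Reach_filter]
  intro a ha v hv
  by_contra hcon
  unfold inc at ha
  rw [decide_eq_false_iff_not] at ha
  exact ha ⟨v, hv, hcon⟩

/-- The probability of leaving the box does not depend on the torus. -/
private theorem S8_indep (hR : 1 ≤ R) (t : ℝ) :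
    P N N n t (Exit N N n R (pt N N n 0 0)) = P N' N' n t (Exit N' N' n R (pt N' N' n 0 0)) := by
  rw [S8_filter N n R t, S8_filter N' n R t]
  refine S8_Pr t _ _ (S8_e N N' n) (S8_e N' N n) (S8_he N N' n R hN hN') (S8_he N' N n R hN' hN)
    (S8_back N N' n R hN hN') (S8_back N' N n R hN' hN) _ _ fun l hl => ?_
  constructor
  · intro h
    have h1 := S8_exit N' N n R hN' hN hR (l.map (S8_e N N' n)) (by
      intro b hb
      obtain ⟨a, ha, rfl⟩ := List.mem_map.1 hb
      exact S8_he N N' n R hN hN' a (hl a ha)) h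
    rw [List.map_map] at h1
    have h2 : l.map (S8_e N' N n ∘ S8_e N N' n) = l := by
      conv_rhs => rw [← List.map_id l]
      refine List.map_congr_left fun a ha => ?_
      exact S8_back N N' n R hN hN' a (hl a ha)
    rwa [h2] at h1
  · exact S8_exit N N' n R hN hN' hR l hl

end Torus

section

/-- the exit probability from a box does not depend on the side of the torus -/
theorem exit_local (n : ℕ) (t : ℝ) (R N : ℕ) [NeZero N] (hR : 1 ≤ R) (hN : 2 * R + 1 ≤ N) :
    P N N n t (Exit N N n R (pt N N n 0 0)) =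
      P (2 * R + 1) (2 * R + 1) n t
        (Exit (2 * R + 1) (2 * R + 1) n R (pt (2 * R + 1) (2 * R + 1) n 0 0)) :=
  S8_indep N (2 * R + 1) n R hN le_rfl hR t

end

end Pool.Agent.ThinTori.Dim

end

/-! Stirring on tori, row S8a: continuity in the time -/

section

open Finset Filter Topology

namespace Pool.Agent.ThinTori

section Words

variable {α : Type*} [Fintype α]

private theorem S8a_wordSum (t : ℝ) (F : List α → ℝ) (n : ℕ) :
    wordSum (fun _ => t) F n = t ^ n * wordSum (fun _ => 1) F n := by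
  unfold wordSum
  rw [Finset.mul_sum]
  refine Finset.sum_congr rfl fun w _ => ?_
  simp

/-- the probability of an event is a continuous function of the time -/
theorem Pr_continuous (A : List α → Prop) : Continuous fun t : ℝ => Pr (fun _ : α => t) A := by
  classical
  unfold Pr
  have h1 : Continuous fun t : ℝ => Real.exp (-∑ _a : α, t) := by
    refine Real.continuous_exp.comp (Continuous.neg ?_)
    exact continuous_finsetSum _ fun _ _ => continuous_id
  refine h1.mul ?_
  unfold Z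
  rw [continuous_iff_continuousAt]
  intro t₀
  set M : ℝ := |t₀| + 1 with hM
  have hM0 : 0 ≤ M := by positivity
  have h2 : ContinuousOn (fun t : ℝ => ∑' n : ℕ,
      wordSum (fun _ : α => t) (fun l => if A l then 1 else 0) n / (n.factorial : ℝ))
      (Set.Ioo (-M) M) := by
    refine continuousOn_tsum (u := fun n : ℕ =>
      (M * ∑ _a : α, |(1 : ℝ)|) ^ n / (n.factorial : ℝ)) (fun n => ?_)
      (Real.summable_pow_div_factorial _) (fun n t ht => ?_)
    · have h3 : (fun t : ℝ => wordSum (fun _ : α => t) (fun l => if A l then 1 else 0) n /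
          (n.factorial : ℝ)) = fun t : ℝ => t ^ n *
          wordSum (fun _ : α => 1) (fun l => if A l then 1 else 0) n / (n.factorial : ℝ) := by
        funext t
        rw [S8a_wordSum]
      rw [h3]
      exact ((continuous_pow n).mul continuous_const).div_const _ |>.continuousOn
    · rw [S8a_wordSum, norm_div, norm_mul, norm_pow, Real.norm_eq_abs, Real.norm_eq_abs,
        Real.norm_eq_abs, Nat.abs_cast, mul_pow]
      refine div_le_div_of_nonneg_right ?_ (by positivity)
      refine mul_le_mul (pow_le_pow_left₀ (abs_nonneg t) (abs_le.2 ⟨ht.1.le, ht.2.le⟩) n) ?_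
        (abs_nonneg _) (by positivity)
      have h4 := abs_wordSum_le (fun _ : α => (1 : ℝ)) (fun l => if A l then (1 : ℝ) else 0)
        (C := 1) (R := 1) (fun l => by
          by_cases h : A l
          · simp [h]
          · simp [h]) n
      simpa using h4
  refine h2.continuousAt (Ioo_mem_nhds ?_ ?_)
  · have := neg_abs_le t₀
    linarith
  · have := le_abs_self t₀
    linarith

/-- at time `0` there are no letters -/
theorem Pr_zero_time (A : List α → Prop) (hA : ¬ A []) : Pr (fun _ : α => (0 : ℝ)) A = 0 := by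
  have h1 : Pr (fun _ : α => (0 : ℝ)) A = Pr (fun _ : α => (0 : ℝ)) fun _ => False := by
    refine Pr_congr _ fun l hl => ?_
    rcases l with _ | ⟨a, l⟩
    · exact ⟨fun h => hA h, fun h => h.elim⟩
    · exact absurd rfl (hl a (by simp))
  rw [h1]
  have h2 := Pr_not (fun _ : α => (0 : ℝ)) fun _ => True
  simp only [not_true_eq_false] at h2
  rw [h2, sub_eq_zero]
  have h3 := Pr_none (fun _ : α => (0 : ℝ)) fun _ => false
  simp only [implies_true] at h3
  rw [h3]
  simp [restr]

end Words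

end Pool.Agent.ThinTori

end

/-! Stirring on the torus `(ℤ/N) ^ (n + 1)`, row S9: the correlation length -/

section

open Finset

namespace Pool.Agent.ThinTori.Dim

section

theorem one_le_xi (n : ℕ) (t : ℝ) : 1 ≤ xi n t :=
  le_iInf fun R => by exact_mod_cast R.2.1

theorem xi_crit (n : ℕ) (t : ℝ) (k : ℕ) (hk : xi n t = k) : 1 ≤ k ∧ Crit n t k := by
  unfold xi at hk
  rcases isEmpty_or_nonempty {R : ℕ // 1 ≤ R ∧ Crit n t R} with he | he
  · rw [iInf_of_empty] at hk
    exact absurd hk (ENat.top_ne_natCast k)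
  · obtain ⟨R, hR⟩ := ciInf_mem (fun R : {R : ℕ // 1 ≤ R ∧ Crit n t R} => ((R : ℕ) : ℕ∞))
    have h : (R : ℕ) = k := by
      have h1 : (((R : ℕ) : ℕ∞)) = (k : ℕ∞) := by rw [← hk]; exact hR
      exact_mod_cast h1
    rw [← h]
    exact R.2

theorem xi_le (n : ℕ) (t : ℝ) (R : ℕ) (hR : 1 ≤ R) (h : Crit n t R) : xi n t ≤ R :=
  iInf_le_of_le (⟨R, hR, h⟩ : {R : ℕ // 1 ≤ R ∧ Crit n t R}) le_rfl

theorem crit_open (n : ℕ) (t : ℝ) (R : ℕ) (h : Crit n t R) :
    ∃ ε : ℝ, 0 < ε ∧ ∀ s : ℝ, |s - t| < ε → Crit n s R := by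
  have hc : Continuous fun s : ℝ =>
      P (2 * R + 1) (2 * R + 1) n s
        (Exit (2 * R + 1) (2 * R + 1) n R (pt (2 * R + 1) (2 * R + 1) n 0 0)) *
      (2 * (n + 1) * (4 * (R : ℝ)) ^ n * Real.exp (2 * (n + 1) * s)) := by
    refine Continuous.mul ?_ (by fun_prop)
    exact Pr_continuous _
  have ho := isOpen_lt hc (continuous_const (y := (1 / 2 : ℝ)))
  obtain ⟨ε, hε, hs⟩ := Metric.isOpen_iff.mp ho t h
  exact ⟨ε, hε, fun s hst => hs (by rw [Metric.mem_ball, Real.dist_eq]; exact hst)⟩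

theorem xi_usc (n : ℕ) (t : ℝ) (h : xi n t ≠ ⊤) :
    ∃ ε : ℝ, 0 < ε ∧ ∀ s : ℝ, |s - t| < ε → xi n s ≤ xi n t := by
  obtain ⟨k, hk⟩ := ENat.ne_top_iff_exists.mp h
  obtain ⟨hk1, hk2⟩ := xi_crit n t k hk.symm
  obtain ⟨ε, hε, hs⟩ := crit_open n t k hk2
  refine ⟨ε, hε, fun s hst => ?_⟩
  rw [← hk]
  exact xi_le n s k hk1 (hs s hst)

private theorem S9_nil {L W n : ℕ} (x : Vx L W n) (k : ℕ) :
    (T (gT L W n) [])^[k] (0, x) = (0, x) := by
  induction k with
  | zero => rfl
  | succ k ih =>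
    rw [Function.iterate_succ_apply', ih]
    rfl

theorem xi_zero (n : ℕ) : xi n 0 = 1 := by
  refine le_antisymm ?_ (one_le_xi n 0)
  have h := xi_le n 0 1 le_rfl ?_
  · exact_mod_cast h
  · unfold Crit P
    rw [Pr_zero_time]
    · norm_num
    · rintro ⟨k, hk⟩
      refine hk ?_
      rw [S9_nil]
      refine ⟨0, 0, by simp, fun j => by simp, ?_⟩
      simp only [sub_self]
      unfold pt
      ext <;> simp

end

end Pool.Agent.ThinTori.Dim

end

/-! Stirring on tori, row E1: boxes and the sup-norm -/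

section

open Finset

namespace Pool.Agent.ThinTori.Dim

section E1aux

variable {V α : Type*}

private theorem E1_iter (g : α → Equiv.Perm V) (l : List α) (x : V) (k : ℕ)
    (hk : k ≤ l.length) :
    (T g l)^[k] (0, x) = (k, ((l.take k).map g).reverse.prod x) := by
  induction k with
  | zero => simp
  | succ k ih =>
    rw [Function.iterate_succ_apply', ih (by omega)]
    have h : l[k]? = some l[k] := List.getElem?_eq_getElem (by omega)
    have h2 : l.take (k + 1) = l.take k ++ [l[k]] := by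
      rw [List.take_add_one, h]
      rfl
    rw [h2, List.map_append, List.reverse_append, List.prod_append]
    simp only [T, h, List.map_cons, List.map_nil, List.reverse_singleton, List.prod_singleton,
      Equiv.Perm.mul_apply]

private theorem E1_period (g : α → Equiv.Perm V) (l : List α) (x : V) :
    (T g l)^[l.length + 1] (0, x) = (0, (l.map g).reverse.prod x) := by
  rw [Function.iterate_succ_apply', E1_iter g l x _ le_rfl]
  simp [T]

private theorem E1_periods (g : α → Equiv.Perm V) (l : List α) (x : V) (j : ℕ) :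
    (T g l)^[j * (l.length + 1)] (0, x) = (0, ((l.map g).reverse.prod ^ j) x) := by
  induction j with
  | zero => simp
  | succ j ih =>
    rw [Nat.succ_mul, Nat.add_comm, Function.iterate_add_apply, ih, E1_period, pow_succ',
      Equiv.Perm.mul_apply]

end E1aux

section

variable {L W n : ℕ} [NeZero L] [NeZero W]

omit [NeZero L] [NeZero W] in
private theorem E1_rev (l : List (Ed L W n)) :
    (l.map (gT L W n)).reverse.prod = ((l.map (gT L W n)).prod)⁻¹ := by
  rw [List.prod_inv_reverse, List.map_map]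
  have : (fun x : Equiv.Perm (Vx L W n) => x⁻¹) ∘ gT L W n = gT L W n := by
    funext e
    simp [gT]
  rw [this]

private theorem E1_abs_le (N : ℕ) [NeZero N] (i : ℤ) :
    ((i : ZMod N)).valMinAbs.natAbs ≤ i.natAbs :=
  ZMod.natAbs_min_of_le_div_two N _ _ (ZMod.coe_valMinAbs _) (ZMod.natAbs_valMinAbs_le _)

omit [NeZero L] [NeZero W] in
private theorem E1_exists_pt (v : Vx L W n) : ∃ (i : ℤ) (u : Fin n → ℤ), |i| ≤ nrm v ∧
    (∀ j, |u j| ≤ nrm v) ∧ v = pt L W n i u := by
  refine ⟨v.1.valMinAbs, fun j => (v.2 j).valMinAbs, ?_, fun j => ?_, ?_⟩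
  · rw [Int.abs_eq_natAbs]
    exact_mod_cast le_max_left _ _
  · rw [Int.abs_eq_natAbs]
    have h1 : (v.2 j).valMinAbs.natAbs ≤ nrm v :=
      le_trans (Finset.le_sup (f := fun j => (v.2 j).valMinAbs.natAbs) (Finset.mem_univ j))
        (le_max_right _ _)
    exact_mod_cast h1
  · refine Prod.ext ?_ ?_
    · exact (ZMod.coe_valMinAbs v.1).symm
    · funext j
      exact (ZMod.coe_valMinAbs (v.2 j)).symm

theorem mem_box_iff (r : ℕ) (hr : 1 ≤ r) (v : Vx L W n) : v ∈ box L W n r ↔ nrm v < r := by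
  constructor
  · rintro ⟨i, u, hi, hu, rfl⟩
    have h1 : ((pt L W n i u).1).valMinAbs.natAbs ≤ r - 1 := by
      refine (E1_abs_le L i).trans ?_
      have := Int.abs_eq_natAbs i
      omega
    have h2 : ∀ j, ((pt L W n i u).2 j).valMinAbs.natAbs ≤ r - 1 := by
      intro j
      refine (E1_abs_le W (u j)).trans ?_
      have := Int.abs_eq_natAbs (u j)
      have := hu j
      omega
    have h3 : nrm (pt L W n i u) ≤ r - 1 := max_le h1 (Finset.sup_le fun j _ => h2 j)
    omega
  · intro h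
    obtain ⟨i, u, hi, hu, hv⟩ := E1_exists_pt v
    refine ⟨i, u, by omega, fun j => ?_, hv⟩
    have := hu j
    omega

/-- a point is `pt` of integers of absolute value at most `nrm` -/
theorem exists_pt (v : Vx L W n) : ∃ (i : ℤ) (u : Fin n → ℤ), |i| ≤ nrm v ∧ (∀ j, |u j| ≤ nrm v) ∧
    v = pt L W n i u := E1_exists_pt v

theorem nrm_pos (v : Vx L W n) (hv : v ≠ 0) : 1 ≤ nrm v := by
  by_contra h
  have h0 : nrm v = 0 := by omega
  apply hv
  obtain ⟨i, u, hi, hu, hv'⟩ := exists_pt v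
  rw [h0] at hi hu
  have hi0 : i = 0 := by
    have := abs_nonneg i
    have : |i| = 0 := le_antisymm (by exact_mod_cast hi) this
    exact abs_eq_zero.1 this
  have hu0 : ∀ j, u j = 0 := fun j => by
    have h1 := abs_nonneg (u j)
    have : |u j| = 0 := le_antisymm (by exact_mod_cast hu j) h1
    exact abs_eq_zero.1 this
  rw [hv', hi0]
  refine Prod.ext ?_ ?_
  · simp [pt]
  · funext j
    simp [pt, hu0 j]

theorem nrm_le (N : ℕ) [NeZero N] (v : Vx N N n) : 2 * nrm v ≤ N := by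
  have h1 : nrm v ≤ N / 2 :=
    max_le (ZMod.natAbs_valMinAbs_le _) (Finset.sup_le fun j _ => ZMod.natAbs_valMinAbs_le _)
  omega

theorem box_ncard (r : ℕ) (hr : 1 ≤ r) : (box L W n r).ncard ≤ (2 * r) ^ (n + 1) := by
  classical
  have hsub : box L W n r ⊆ (((Finset.Icc (-((r : ℤ) - 1)) ((r : ℤ) - 1)) ×ˢ
      (cube n (r : ℤ))).image (fun p : ℤ × (Fin n → ℤ) => pt L W n p.1 p.2) :
        Finset (Vx L W n)) := by
    rintro v ⟨i, u, hi, hu, rfl⟩
    refine Finset.mem_coe.2 (Finset.mem_image.2 ⟨(i, u), ?_, rfl⟩)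
    simp only [Finset.mem_product, Finset.mem_Icc, cube, Fintype.mem_piFinset]
    exact ⟨abs_le.1 hi, fun j => abs_le.1 (hu j)⟩
  refine (Set.ncard_le_ncard hsub (Finset.finite_toSet _)).trans ?_
  rw [Set.ncard_coe_finset]
  refine Finset.card_image_le.trans ?_
  rw [Finset.card_product, Int.card_Icc, cube, Fintype.card_piFinset]
  simp only [Int.card_Icc, Finset.prod_const, Finset.card_univ, Fintype.card_fin]
  have h1 : ((r : ℤ) - 1 + 1 - -((r : ℤ) - 1)).toNat ≤ 2 * r := by omega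
  calc _ ≤ (2 * r) * (2 * r) ^ n := Nat.mul_le_mul h1 (Nat.pow_le_pow_left h1 n)
    _ = (2 * r) ^ (n + 1) := by ring

/-- two points in one cycle: the particle of the first comes to the second, and conversely -/
theorem same_iff (l : List (Ed L W n)) (x y : Vx L W n) :
    (l.map (gT L W n)).prod.SameCycle x y ↔ Conn (gT L W n) Set.univ x y l := by
  constructor
  · intro h
    have h1 : ((l.map (gT L W n)).prod⁻¹).SameCycle x y := Equiv.Perm.sameCycle_inv.2 h
    obtain ⟨i, hi⟩ := h1.exists_nat_pow_eq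
    refine ⟨i * (l.length + 1), ?_, fun _ _ => Set.mem_univ _⟩
    rw [E1_periods, E1_rev, hi]
  · rintro ⟨k, hk, -⟩
    obtain ⟨q, r, hr, rfl⟩ : ∃ q r, r ≤ l.length ∧ k = r + q * (l.length + 1) :=
      ⟨k / (l.length + 1), k % (l.length + 1), Nat.lt_succ_iff.1 (Nat.mod_lt _ (Nat.succ_pos _)), by
        rw [Nat.mul_comm]
        exact (Nat.mod_add_div _ _).symm⟩
    rw [Function.iterate_add_apply, E1_periods, E1_iter _ _ _ _ hr, Prod.mk.injEq] at hk
    obtain ⟨hr0, hy⟩ := hk
    subst hr0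
    have h0 : ((l.take 0).map (gT L W n)).reverse.prod = 1 := by simp
    rw [h0, Equiv.Perm.one_apply, E1_rev] at hy
    refine Equiv.Perm.sameCycle_inv.1 ⟨(q : ℤ), ?_⟩
    rw [zpow_natCast]
    exact hy

/-- ... and then it leaves every box which does not contain it -/
theorem exit_of_same (r : ℕ) (hr : 1 ≤ r) (x y : Vx L W n) (hxy : r ≤ nrm (y - x))
    (l : List (Ed L W n)) (h : (l.map (gT L W n)).prod.SameCycle x y) : Exit L W n r x l := by
  obtain ⟨k, hk, -⟩ := (same_iff l x y).1 h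
  refine ⟨k, ?_⟩
  rw [hk, mem_box_iff r hr]
  exact not_lt.2 hxy

end

end Pool.Agent.ThinTori.Dim

end

/-! Stirring on the torus `(ℤ/N) ^ (n + 1)`, row S7u: the bound beyond the correlation length -/

section

open Finset

namespace Pool.Agent.ThinTori.Dim

section

/-- beyond the correlation length -/
theorem upper (n : ℕ) (t : ℝ) (ht : 0 ≤ t) (k : ℕ) (hk : xi n t = k) (N : ℕ) [NeZero N]
    (r : ℕ) (hr : 1 ≤ r) :
    P N N n t (Exit N N n r (pt N N n 0 0)) ≤ 2 * (2 : ℝ) ^ (-((r : ℝ) / (2 * (k : ℝ)))) := by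
  obtain ⟨hk1, hc⟩ := xi_crit n t k hk
  have hk0 : (0 : ℝ) < k := by exact_mod_cast hk1
  rcases Nat.lt_or_ge N (2 * k + 1) with hN | hN
  · rcases Nat.lt_or_ge (2 * k) r with h1 | h1
    · -- no particle can leave the box
      have hemp : ∀ l, Exit N N n r (pt N N n 0 0) l → False := by
        rintro l ⟨m, hm⟩
        apply hm
        rw [mem_box_iff r hr]
        have := nrm_le N (((T (gT N N n) l)^[m] (0, pt N N n 0 0)).2 - pt N N n 0 0)
        omega
      have h2 : P N N n t (Exit N N n r (pt N N n 0 0)) ≤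
          P N N n t (fun _ => False) := by
        unfold P
        exact Pr_mono (fun _ => ht) (fun l hl => hemp l hl)
      have h3 : P N N n t (fun _ => False) = 0 := by
        unfold P Pr Z wordSum
        simp
      rw [h3] at h2
      exact h2.trans (by positivity)
    · -- the right hand side is at least one
      have h2 : P N N n t (Exit N N n r (pt N N n 0 0)) ≤ 1 := by
        unfold P
        exact Pr_le_one (fun _ => ht) _
      refine h2.trans ?_
      have h3 : (r : ℝ) / (2 * (k : ℝ)) ≤ 1 := by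
        rw [div_le_one (by positivity)]
        exact_mod_cast h1
      have h4 : (2 : ℝ) ^ (-1 : ℝ) ≤ (2 : ℝ) ^ (-((r : ℝ) / (2 * (k : ℝ)))) :=
        Real.rpow_le_rpow_of_exponent_le (by norm_num) (by linarith)
      have h5 : (2 : ℝ) ^ (-1 : ℝ) = 1 / 2 := by
        rw [Real.rpow_neg_one]
        norm_num
      rw [h5] at h4
      linarith
  · apply decay ht k hk1 _ r hr
    rw [exit_local n t k N hk1 hN]
    exact le_of_lt hc

end

end Pool.Agent.ThinTori.Dim

end

/-! Stirring on the torus `(ℤ/N) ^ (n + 1)`, row S10: all cycles are small if the correlation length is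
finite -/

section

open Finset

namespace Pool.Agent.ThinTori.Dim

section

private theorem S10_iter {V α : Type*} (g : α → Equiv.Perm V) (l : List α) (x : V) (k : ℕ)
    (hk : k ≤ l.length) :
    (T g l)^[k] (0, x) = (k, ((l.take k).map g).reverse.prod x) := by
  induction k with
  | zero => simp
  | succ k ih =>
    rw [Function.iterate_succ_apply', ih (by omega)]
    have h : l[k]? = some l[k] := List.getElem?_eq_getElem (by omega)
    have h2 : l.take (k + 1) = l.take k ++ [l[k]] := by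
      rw [List.take_add_one, h]
      rfl
    rw [h2, List.map_append, List.reverse_append, List.prod_append]
    simp only [T, h, List.map_cons, List.map_nil, List.reverse_singleton, List.prod_singleton,
      Equiv.Perm.mul_apply]

private theorem S10_period {V α : Type*} (g : α → Equiv.Perm V) (l : List α) (x : V) :
    (T g l)^[l.length + 1] (0, x) = (0, (l.map g).reverse.prod x) := by
  rw [Function.iterate_succ_apply', S10_iter g l x _ le_rfl]
  simp [T]

private theorem S10_periods {V α : Type*} (g : α → Equiv.Perm V) (l : List α) (x : V) (j : ℕ) :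
    (T g l)^[j * (l.length + 1)] (0, x) = (0, ((l.map g).reverse.prod ^ j) x) := by
  induction j with
  | zero => simp
  | succ j ih =>
    rw [Nat.succ_mul, Nat.add_comm, Function.iterate_add_apply, ih, S10_period, pow_succ',
      Equiv.Perm.mul_apply]

private theorem S10_rev {L W n : ℕ} (l : List (Ed L W n)) :
    (l.map (gT L W n)).reverse.prod = ((l.map (gT L W n)).prod)⁻¹ := by
  rw [List.prod_inv_reverse, List.map_map]
  have : (fun x : Equiv.Perm (Vx L W n) => x⁻¹) ∘ gT L W n = gT L W n := by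
    funext e
    simp [gT]
  rw [this]

private theorem S10_mem_box {L W n : ℕ} [NeZero L] [NeZero W] (R : ℤ) (x y : Vx L W n) (l : List (Ed L W n))
    (h : ¬ Exit L W n R x l)
    (hy : (l.map (gT L W n)).prod.SameCycle x y) : y - x ∈ box L W n R := by
  have h1 : ((l.map (gT L W n)).prod⁻¹).SameCycle x y := Equiv.Perm.sameCycle_inv.2 hy
  obtain ⟨i, hi⟩ := h1.exists_nat_pow_eq
  by_contra hne
  refine h ⟨i * (l.length + 1), ?_⟩
  rw [S10_periods, S10_rev, hi]
  exact hne

theorem not_exit_small {L W n : ℕ} [NeZero L] [NeZero W] (R : ℕ) (hR : 1 ≤ R) (x : Vx L W n) (l : List (Ed L W n))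
    (h : ¬ Exit L W n R x l) : cyc L W n x l ≤ (2 * R) ^ (n + 1) := by
  classical
  have hsub : (Finset.univ.filter fun y => (l.map (gT L W n)).prod.SameCycle x y) ⊆
      ((Finset.Icc (-((R : ℤ) - 1)) ((R : ℤ) - 1)) ×ˢ (cube n (R : ℤ))).image
        (fun p : ℤ × (Fin n → ℤ) => pt L W n p.1 p.2 + x) := by
    intro y hy
    have hy' := (Finset.mem_filter.1 hy).2
    obtain ⟨i, u, hi, hu, he⟩ := S10_mem_box (R : ℤ) x y l h hy'
    refine Finset.mem_image.2 ⟨(i, u), ?_, ?_⟩
    · simp only [Finset.mem_product, Finset.mem_Icc, cube, Fintype.mem_piFinset]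
      exact ⟨abs_le.1 hi, fun j => abs_le.1 (hu j)⟩
    · change pt L W n i u + x = y
      rw [← he]
      abel
  have hcard : (Finset.univ.filter fun y => (l.map (gT L W n)).prod.SameCycle x y).card ≤
      (2 * R) ^ (n + 1) := by
    refine (Finset.card_le_card hsub).trans (Finset.card_image_le.trans ?_)
    rw [Finset.card_product, Int.card_Icc, cube, Fintype.card_piFinset]
    simp only [Int.card_Icc, Finset.prod_const, Finset.card_univ, Fintype.card_fin]
    have h1 : ((R : ℤ) - 1 + 1 - -((R : ℤ) - 1)).toNat ≤ 2 * R := by omega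
    calc _ ≤ (2 * R) * (2 * R) ^ n := Nat.mul_le_mul h1 (Nat.pow_le_pow_left h1 n)
      _ = (2 * R) ^ (n + 1) := by ring
  unfold cyc
  convert hcard

private theorem S10_all_small (n : ℕ) (t : ℝ) (ht : 0 ≤ t) (k : ℕ) (hk : xi n t = k)
    (N : ℕ) [NeZero N] (hN : 3 ≤ N) (c : ℝ) (hc : c = 2 * (((n : ℝ) + 2) / Real.log 2 + 1) + 1) :
      P N N n t (fun l => ∃ x : Vx N N n,
        (2 * c * k * Real.log N) ^ (n + 1) < (cyc N N n x l : ℝ)) ≤ 1 / N := by
  classical
  have hl2 : 0 < Real.log 2 := Real.log_pos (by norm_num)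
  have hn0 : (0 : ℝ) ≤ n := Nat.cast_nonneg n
  have hcpos : 0 < c := by
    rw [hc]
    positivity
  have hk1 : 1 ≤ k := (xi_crit n t k hk).1
  have hk1' : (1 : ℝ) ≤ k := by exact_mod_cast hk1
  have hN' : (3 : ℝ) ≤ N := by exact_mod_cast hN
  have hN0 : (0 : ℝ) < N := by linarith
  have hlog : 1 ≤ Real.log N := by
    rw [Real.le_log_iff_exp_le hN0]
    have := Real.exp_one_lt_d9
    linarith
  set z : ℝ := 2 * (k : ℝ) * (((n : ℝ) + 2) * (Real.log N / Real.log 2) + 1) with hz
  have hz0 : 0 < z := by positivity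
  set ρ : ℕ := ⌈z⌉₊ with hρ
  have hρ1 : 1 ≤ ρ := Nat.one_le_ceil_iff.mpr hz0
  have hzρ : z ≤ ρ := Nat.le_ceil z
  have hρc : (ρ : ℝ) ≤ c * k * Real.log N := by
    have h1 : (ρ : ℝ) < z + 1 := Nat.ceil_lt_add_one hz0.le
    have h2 : z + 1 ≤ c * k * Real.log N := by
      rw [hz, hc]
      have h3 : ((n : ℝ) + 2) * (Real.log N / Real.log 2) =
          ((n : ℝ) + 2) / Real.log 2 * Real.log N := by ring
      rw [h3]
      have h4 : (k : ℝ) ≤ k * Real.log N := by nlinarith
      nlinarith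
    linarith
  have hc0 : ∀ a : Ed N N n, (0 : ℝ) ≤ (fun _ : Ed N N n => t) a := fun _ => ht
  have hincl : ∀ l : List (Ed N N n),
      (∃ x : Vx N N n, (2 * c * k * Real.log N) ^ (n + 1) < (cyc N N n x l : ℝ)) →
      ∃ x ∈ (Finset.univ : Finset (Vx N N n)), Exit N N n ρ x l := by
    rintro l ⟨x, hx⟩
    refine ⟨x, Finset.mem_univ x, ?_⟩
    by_contra hcon
    have h1 := not_exit_small ρ hρ1 x l hcon
    have h2 : (cyc N N n x l : ℝ) ≤ (2 * (ρ : ℝ)) ^ (n + 1) := by exact_mod_cast h1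
    have h3 : (2 * (ρ : ℝ)) ^ (n + 1) ≤ (2 * c * k * Real.log N) ^ (n + 1) := by
      refine pow_le_pow_left₀ (by positivity) ?_ _
      nlinarith
    linarith
  have h1 : P N N n t (fun l => ∃ x : Vx N N n,
      (2 * c * k * Real.log N) ^ (n + 1) < (cyc N N n x l : ℝ)) ≤
      ∑ x : Vx N N n, P N N n t (Exit N N n ρ x) :=
    (Pr_mono hc0 hincl).trans (Pr_exists_le hc0 Finset.univ fun x => Exit N N n ρ x)
  have h2 : ∀ x : Vx N N n, P N N n t (Exit N N n ρ x) ≤
      2 * (2 : ℝ) ^ (-((ρ : ℝ) / (2 * (k : ℝ)))) := fun x => by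
    rw [P_Exit_shift]
    exact upper n t ht k hk N ρ hρ1
  have h3 : (2 : ℝ) * (2 : ℝ) ^ (-((ρ : ℝ) / (2 * (k : ℝ)))) ≤ ((N : ℝ) ^ (n + 2))⁻¹ := by
    have e1 : z / (2 * (k : ℝ)) = ((n : ℝ) + 2) * (Real.log N / Real.log 2) + 1 := by
      rw [hz]
      field_simp
    have e2 : ((n : ℝ) + 2) * (Real.log N / Real.log 2) + 1 ≤ (ρ : ℝ) / (2 * (k : ℝ)) := by
      rw [← e1]
      exact div_le_div_of_nonneg_right hzρ (by positivity)
    have e3 : (2 : ℝ) ^ (((n : ℝ) + 2) * (Real.log N / Real.log 2)) = (N : ℝ) ^ (n + 2) := by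
      rw [Real.rpow_def_of_pos (by norm_num : (0 : ℝ) < 2)]
      have : Real.log 2 * (((n : ℝ) + 2) * (Real.log N / Real.log 2)) =
          ((n + 2 : ℕ) : ℝ) * Real.log N := by
        push_cast
        field_simp
      rw [this, ← Real.log_pow, Real.exp_log (by positivity)]
    calc (2 : ℝ) * (2 : ℝ) ^ (-((ρ : ℝ) / (2 * (k : ℝ))))
        ≤ 2 * (2 : ℝ) ^ (-(((n : ℝ) + 2) * (Real.log N / Real.log 2) + 1)) := by
          refine mul_le_mul_of_nonneg_left ?_ (by norm_num)
          exact Real.rpow_le_rpow_of_exponent_le (by norm_num) (neg_le_neg e2)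
      _ = ((N : ℝ) ^ (n + 2))⁻¹ := by
          rw [neg_add, Real.rpow_add (by norm_num), Real.rpow_neg (by norm_num), e3,
            Real.rpow_neg (by norm_num), Real.rpow_one]
          ring
  have hcard : ((Finset.univ : Finset (Vx N N n)).card : ℝ) = (N : ℝ) ^ (n + 1) := by
    rw [Finset.card_univ, Fintype.card_prod, ZMod.card, Fintype.card_fun, ZMod.card,
      Fintype.card_fin]
    push_cast
    ring
  calc P N N n t (fun l => ∃ x : Vx N N n,
        (2 * c * k * Real.log N) ^ (n + 1) < (cyc N N n x l : ℝ))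
      ≤ ∑ x : Vx N N n, P N N n t (Exit N N n ρ x) := h1
    _ ≤ ∑ _x : Vx N N n, ((N : ℝ) ^ (n + 2))⁻¹ := Finset.sum_le_sum fun x _ => (h2 x).trans h3
    _ = (N : ℝ) ^ (n + 1) * ((N : ℝ) ^ (n + 2))⁻¹ := by
        rw [Finset.sum_const, nsmul_eq_mul, hcard]
    _ = 1 / N := by
        rw [pow_succ (N : ℝ) (n + 1)]
        field_simp

theorem all_small (n : ℕ) (t : ℝ) (ht : 0 ≤ t) (k : ℕ) (hk : xi n t = k) (N : ℕ) [NeZero N]
    (hN : 3 ≤ N) : P N N n t (fun l => ∃ x : Vx N N n,
      (6 * (n + 3) * k * Real.log N) ^ (n + 1) < (cyc N N n x l : ℝ)) ≤ 1 / N := by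
  refine le_trans (Pr_mono (fun _ => ht) fun l hl => ?_)
    (S10_all_small n t ht k hk N hN _ rfl)
  obtain ⟨x, hx⟩ := hl
  refine ⟨x, lt_of_le_of_lt ?_ hx⟩
  have hl2 : 0.6931471803 < Real.log 2 := Real.log_two_gt_d9
  have hn0 : (0 : ℝ) ≤ n := Nat.cast_nonneg n
  have hlog : 0 ≤ Real.log N := Real.log_nonneg (by
    have : (3 : ℝ) ≤ (N : ℝ) := by exact_mod_cast hN
    linarith)
  have h1 : ((n : ℝ) + 2) / Real.log 2 ≤ 3 / 2 * (n + 2) := by
    rw [div_le_iff₀ (by linarith)]
    nlinarith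
  have h2 : 2 * (2 * (((n : ℝ) + 2) / Real.log 2 + 1) + 1) ≤ 6 * (n + 3) := by linarith
  have h0 : 0 ≤ ((n : ℝ) + 2) / Real.log 2 := div_nonneg (by linarith) (by linarith)
  refine pow_le_pow_left₀ (by positivity) ?_ _
  refine mul_le_mul_of_nonneg_right ?_ hlog
  exact mul_le_mul_of_nonneg_right h2 (Nat.cast_nonneg k)

end

end Pool.Agent.ThinTori.Dim

end

/-! Stirring on tori, row S5: moves inside a box -/

section

open Finset

namespace Pool.Agent.ThinTori.Dim

section

variable {L W n : ℕ} [NeZero L] [NeZero W] {t : ℝ}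

private theorem S5_cast_ne {q : ℕ} {i j : ℤ} (h1 : i < j) (h2 : j - i < q) :
    (i : ZMod q) ≠ (j : ZMod q) := by
  intro h
  have h3 : ((j - i : ℤ) : ZMod q) = 0 := by push_cast; rw [h]; ring
  rw [ZMod.intCast_zmod_eq_zero_iff_dvd] at h3
  have := Int.le_of_dvd (by omega) h3
  omega

omit [NeZero L] [NeZero W] in
private theorem S5_Conn_mono {D D' : Set (Vx L W n)} (h : D ⊆ D') (x y : Vx L W n)
    (l : List (Ed L W n)) (hC : Conn (gT L W n) D x y l) : Conn (gT L W n) D' x y l := by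
  obtain ⟨k, h1, h2⟩ := hC
  exact ⟨k, h1, fun i hi => h (h2 i hi)⟩

private theorem S5_mem {R : ℤ} {c : Fin n → ℤ} (hc : c ∈ cube n R) (j : Fin n) :
    |c j| ≤ R - 1 := by
  have h1 := Fintype.mem_piFinset.1 hc j
  rw [Finset.mem_Icc] at h1
  exact abs_le.2 ⟨h1.1, h1.2⟩

private theorem S5_card {R : ℤ} (hR : 1 ≤ R) :
    ((cube n R).card : ℝ) = (2 * (R : ℝ) - 1) ^ n := by
  have h : ((R - 1 + 1 - -(R - 1)).toNat : ℤ) = 2 * R - 1 := by
    rw [Int.toNat_of_nonneg (by omega)]; ring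
  have h1 : ((Finset.Icc (-(R - 1)) (R - 1)).card : ℝ) = 2 * (R : ℝ) - 1 := by
    rw [Int.card_Icc]
    exact_mod_cast h
  unfold cube
  rw [Fintype.card_piFinset, Finset.prod_const, Finset.card_univ, Fintype.card_fin]
  push_cast
  rw [h1]

/-- the side points -/
private noncomputable def S5_sd (L W n : ℕ) (R : ℤ) (c : Fin n → ℤ) (p : Bool × Option (Fin n)) :
    Vx L W n :=
  match p with
  | (true, none) => pt L W n R c
  | (false, none) => pt L W n (-R) c
  | (true, some m) => pt L W n (c m) (Function.update c m R)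
  | (false, some m) => pt L W n (c m) (Function.update c m (-R))

/-- a side point which is reached with a good probability -/
private theorem S5_side (ht : 0 ≤ t) (R : ℤ) (hR : 1 ≤ R) (hL : 2 * R + 1 ≤ L)
    (hW : 2 * R + 1 ≤ W) (θ : ℝ) (hθ : θ ≤ P L W n t (Exit L W n R (pt L W n 0 0))) :
    ∃ c ∈ cube n R,
      θ / ((2 * n + 2) * (2 * (R : ℝ) - 1) ^ n) ≤
        P L W n t (Reach (gT L W n) (box L W n R) (pt L W n 0 0) (pt L W n R c)) := by
  have hc : ∀ _ : Ed L W n, (0 : ℝ) ≤ t := fun _ => ht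
  set s := cube n R with hs
  have hsn : s.Nonempty := ⟨0, by
    rw [hs]
    refine Fintype.mem_piFinset.2 fun j => ?_
    rw [Finset.mem_Icc]
    show -(R - 1) ≤ 0 ∧ 0 ≤ R - 1
    omega⟩
  have hcard := S5_card (n := n) hR
  rw [← hs] at hcard
  have hR' : (1 : ℝ) ≤ R := by exact_mod_cast hR
  by_contra hcon
  push Not at hcon
  have h1 : P L W n t (Exit L W n R (pt L W n 0 0)) ≤
      ∑ p ∈ s ×ˢ (Finset.univ : Finset (Bool × Option (Fin n))),
        P L W n t (Reach (gT L W n) (box L W n R) (pt L W n 0 0) (S5_sd L W n R p.1 p.2)) := by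
    refine le_trans (Pr_mono hc
      (B := fun l => ∃ p ∈ s ×ˢ (Finset.univ : Finset (Bool × Option (Fin n))),
        Reach (gT L W n) (box L W n R) (pt L W n 0 0) (S5_sd L W n R p.1 p.2) l) ?_)
      (Pr_exists_le hc _ (fun p : (Fin n → ℤ) × Bool × Option (Fin n) =>
        Reach (gT L W n) (box L W n R) (pt L W n 0 0) (S5_sd L W n R p.1 p.2)))
    intro l hl
    obtain ⟨c, hcs, h | h | ⟨m, h⟩ | ⟨m, h⟩⟩ := exit_sides R hR hL hW l hl
    · exact ⟨(c, true, none), Finset.mem_product.2 ⟨hcs, Finset.mem_univ _⟩, h⟩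
    · exact ⟨(c, false, none), Finset.mem_product.2 ⟨hcs, Finset.mem_univ _⟩, h⟩
    · exact ⟨(c, true, some m), Finset.mem_product.2 ⟨hcs, Finset.mem_univ _⟩, h⟩
    · exact ⟨(c, false, some m), Finset.mem_product.2 ⟨hcs, Finset.mem_univ _⟩, h⟩
  have h2 : ∑ p ∈ s ×ˢ (Finset.univ : Finset (Bool × Option (Fin n))),
        P L W n t (Reach (gT L W n) (box L W n R) (pt L W n 0 0) (S5_sd L W n R p.1 p.2))
      = ∑ c ∈ s, (2 * n + 2) *
        P L W n t (Reach (gT L W n) (box L W n R) (pt L W n 0 0) (pt L W n R c)) := by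
    rw [Finset.sum_product]
    refine Finset.sum_congr rfl fun c hcs => ?_
    obtain ⟨e1, e2⟩ := P_sides (L := L) (W := W) (n := n) (t := t) R hR hL hW c hcs
    have e3 : ∀ p ∈ (Finset.univ : Finset (Bool × Option (Fin n))),
        P L W n t (Reach (gT L W n) (box L W n R) (pt L W n 0 0) (S5_sd L W n R c p)) =
          P L W n t (Reach (gT L W n) (box L W n R) (pt L W n 0 0) (pt L W n R c)) := by
      rintro ⟨b, o⟩ _
      cases b with
      | true =>
        cases o with
        | none => rfl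
        | some m => exact (e2 m).1
      | false =>
        cases o with
        | none => exact e1
        | some m => exact (e2 m).2
    rw [Finset.sum_congr rfl e3, Finset.sum_const, Finset.card_univ, Fintype.card_prod,
      Fintype.card_bool, Fintype.card_option, Fintype.card_fin, nsmul_eq_mul]
    push_cast
    ring
  have hpos : (0 : ℝ) < (2 * n + 2) * (2 * (R : ℝ) - 1) ^ n := by
    have h0 : (0 : ℝ) < 2 * (R : ℝ) - 1 := by linarith
    positivity
  have h3 : ∑ c ∈ s, (2 * n + 2) *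
        P L W n t (Reach (gT L W n) (box L W n R) (pt L W n 0 0) (pt L W n R c)) <
      ∑ _c ∈ s, (2 * n + 2) * (θ / ((2 * n + 2) * (2 * (R : ℝ) - 1) ^ n)) := by
    refine Finset.sum_lt_sum_of_nonempty hsn fun c hcs => ?_
    exact mul_lt_mul_of_pos_left (hcon c hcs) (by positivity)
  have h4 : ∑ _c ∈ s, ((2 : ℝ) * n + 2) * (θ / ((2 * n + 2) * (2 * (R : ℝ) - 1) ^ n)) = θ := by
    rw [Finset.sum_const, nsmul_eq_mul, hcard]
    have h0 : (2 * (R : ℝ) - 1) ^ n ≠ 0 := by
      have : (0 : ℝ) < 2 * (R : ℝ) - 1 := by linarith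
      positivity
    have h5 : (2 * (n : ℝ) + 2) ≠ 0 := by positivity
    field_simp
  linarith [h1, h2, h3, h4]

private theorem S5_arith {R : ℤ} (hR : 1 ≤ R) {θ : ℝ} (hθ0 : 0 < θ) :
    θ / ((2 * n + 2) * (2 * (R : ℝ)) ^ (2 * n)) ≤
      θ / ((2 * n + 2) * (2 * (R : ℝ) - 1) ^ n) / (2 * (R : ℝ) - 1) ^ n := by
  have hR' : (1 : ℝ) ≤ R := by exact_mod_cast hR
  rw [div_div]
  have h1 : (0 : ℝ) < 2 * (R : ℝ) - 1 := by linarith
  refine div_le_div_of_nonneg_left hθ0.le (by positivity) ?_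
  rw [mul_assoc, ← pow_add, ← two_mul]
  refine mul_le_mul_of_nonneg_left ?_ (by positivity)
  exact pow_le_pow_left₀ h1.le (by linarith) _

private theorem S5_exp {a x y : ℝ} (h : x ≤ Real.exp a * y) :
    Real.exp (-a) * x ≤ y := by
  have h1 := mul_le_mul_of_nonneg_left h (Real.exp_pos (-a)).le
  rw [← mul_assoc, ← Real.exp_add] at h1
  simpa using h1

theorem moves_box (hn : 1 ≤ n) (ht : 0 ≤ t) (R : ℤ) (hR : 1 ≤ R) (hL : 2 * R + 1 ≤ L)
    (hW : 2 * R + 1 ≤ W) (θ : ℝ) (hθ0 : 0 < θ)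
    (hθ : θ ≤ P L W n t (Exit L W n R (pt L W n 0 0))) :
    ∀ (m : Fin n) (k : ℤ), 1 ≤ k → k ≤ R - 1 → ∃ b ∈ cube n R,
      Real.exp (-(4 * (n + 1) * t)) * θ / ((2 * n + 2) * (2 * (R : ℝ)) ^ (2 * n)) ≤
        P L W n t (Conn (gT L W n) (box L W n R) (pt L W n 0 0)
          (pt L W n (b m) (Function.update b m k))) := by
  have hc0 : ∀ _ : Ed L W n, (0 : ℝ) ≤ t := fun _ => ht
  have hR' : (1 : ℝ) ≤ R := by exact_mod_cast hR
  have h2R : (0 : ℝ) < 2 * (R : ℝ) - 1 := by linarith
  have hcard := S5_card (n := n) hR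
  obtain ⟨c, hcs, hc⟩ := S5_side ht R hR hL hW θ hθ
  have hpos : 0 < θ / ((2 * n + 2) * (2 * (R : ℝ) - 1) ^ n) := by positivity
  have hpown : (0 : ℝ) ≤ (2 * (R : ℝ) - 1) ^ n := by positivity
  obtain ⟨e1, e2⟩ := P_sides (L := L) (W := W) (n := n) (t := t) R hR hL hW c hcs
  intro m k hk hk'
  have hc3 : θ / ((2 * n + 2) * (2 * (R : ℝ) - 1) ^ n) ≤
      P L W n t (Reach (gT L W n) (box L W n R) (pt L W n 0 0)
        (pt L W n (c m) (Function.update c m R))) := by rw [(e2 m).1]; exact hc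
  obtain ⟨b, hbs, hb⟩ := Pr_pigeon (c := fun _ : Ed L W n => t) hc0 (cube n R)
    (Reach (gT L W n) (box L W n R) (pt L W n 0 0) (pt L W n (c m) (Function.update c m R)))
    (fun b => Reach (gT L W n) (boxlt L W n R m k) (pt L W n 0 0)
      (pt L W n (b m) (Function.update b m k)))
    (fun l hl => reach_row R hR hL hW m c hcs k hk hk' l hl) (lt_of_lt_of_le hpos hc3)
  refine ⟨b, hbs, ?_⟩
  rw [hcard] at hb
  have hb1 : θ / ((2 * n + 2) * (2 * (R : ℝ)) ^ (2 * n)) ≤ P L W n t (Reach (gT L W n)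
      (boxlt L W n R m k) (pt L W n 0 0) (pt L W n (b m) (Function.update b m k))) := by
    refine le_trans (S5_arith hR hθ0) (le_trans ?_ hb)
    exact div_le_div_of_nonneg_right hc3 hpown
  set D := boxlt L W n R m k with hD
  set z := pt L W n (b m) (Function.update b m k) with hz
  have hz2 : z.2 m = (k : ZMod W) := by
    rw [hz]
    show ((Function.update b m k m : ℤ) : ZMod W) = _
    rw [Function.update_self]
  have h0 : pt L W n 0 0 ∈ D :=
    ⟨0, 0, by rw [abs_zero]; omega, fun j => by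
      show |(0 : ℤ)| ≤ R - 1
      rw [abs_zero]; omega, by
      show (0 : ℤ) ≤ k - 1
      omega, rfl⟩
  have hbD : z ∉ D := by
    rintro ⟨i, u, _, h3, h4, h5⟩
    have h6 : (k : ZMod W) = (u m : ZMod W) := by
      rw [← hz2, h5]
      rfl
    have h7 := abs_le.1 (h3 m)
    exact S5_cast_ne (by omega) (by omega) h6.symm
  have hne : pt L W n 0 0 ≠ z := by
    intro h
    have h6 : ((0 : ℤ) : ZMod W) = (k : ZMod W) := by
      rw [← hz2, ← h]
      rfl
    exact S5_cast_ne (by omega) (by omega) h6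
  have hseg : P L W n t (Reach (gT L W n) D (pt L W n 0 0) z) ≤
      P L W n t (Seg (gT L W n) (D \ {pt L W n 0 0}) (pt L W n 0 0) z) :=
    Pr_mono hc0 fun l hl => Reach_Seg D _ _ h0 hbD l hl
  have hiso := P_iso (L := L) (W := W) (n := n) (t := t) ht (D \ {pt L W n 0 0})
    (pt L W n 0 0) z (fun h => h.2 rfl) (fun h => hbD h.1) hne
  have hmono : P L W n t (Conn (gT L W n) (D \ {pt L W n 0 0} ∪ {pt L W n 0 0, z})
      (pt L W n 0 0) z) ≤
      P L W n t (Conn (gT L W n) (box L W n R) (pt L W n 0 0) z) := by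
    refine Pr_mono hc0 fun l hl => S5_Conn_mono ?_ _ _ l hl
    rintro v (⟨⟨i, u, h1, h2, _, rfl⟩, _⟩ | h | h)
    · exact ⟨i, u, h1, h2, rfl⟩
    · refine ⟨0, 0, by rw [abs_zero]; omega, fun j => ?_, h⟩
      show |(0 : ℤ)| ≤ R - 1
      rw [abs_zero]; omega
    · refine ⟨b m, Function.update b m k, S5_mem hbs m, fun j => ?_, h⟩
      by_cases hj : j = m
      · subst hj
        rw [Function.update_self]
        exact abs_le.2 ⟨by omega, by omega⟩
      · rw [Function.update_of_ne hj]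
        exact S5_mem hbs j
  rw [mul_div_assoc]
  refine le_trans (S5_exp ?_) hmono
  exact le_trans hb1 (le_trans hseg hiso)

end

end Pool.Agent.ThinTori.Dim

end

/-! Stirring on the torus `(ℤ/N) ^ (n + 1)`, row S6a: exchange of two coordinates -/

section

open Finset

namespace Pool.Agent.ThinTori.Dim

section

variable {V α : Type*} {g : α → Equiv.Perm V}

private theorem S6a_map_symm_map (e : Equiv.Perm α) (l : List α) : (l.map e).map e.symm = l := by
  rw [List.map_map]
  simp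

private theorem S6a_symm (φ : Equiv.Perm V) (e : Equiv.Perm α)
    (h : ∀ a v, g (e a) (φ v) = φ (g a v)) (a : α) (v : V) :
    g (e.symm a) (φ.symm v) = φ.symm (g a v) := by
  have h1 := h (e.symm a) (φ.symm v)
  rw [e.apply_symm_apply, φ.apply_symm_apply] at h1
  rw [h1, φ.symm_apply_apply]

private theorem S6a_Conn_iff (φ : Equiv.Perm V) (e : Equiv.Perm α)
    (h : ∀ a v, g (e a) (φ v) = φ (g a v)) (D : Set V) (x y : V) (l : List α) :
    Conn g (φ '' D) (φ x) (φ y) (l.map e) ↔ Conn g D x y l := by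
  constructor
  · intro hC
    have h1 := Conn_transport (g := g) φ.symm e.symm (φ '' D) D
      (by rintro _ ⟨v, hv, rfl⟩; simpa using hv) (fun a v _ => S6a_symm φ e h a v) _ _ _ hC
    rw [S6a_map_symm_map, φ.symm_apply_apply, φ.symm_apply_apply] at h1
    exact h1
  · intro hC
    exact Conn_transport (g := g) φ e D (φ '' D) (fun v hv => ⟨v, hv, rfl⟩) (fun a v _ => h a v)
      _ _ _ hC

end

section

variable {N n : ℕ}

/-- The exchange of the coordinates `0` and `m`. -/
private def S6a_r (m : Fin n) (v : Vx N N n) : Vx N N n := (v.2 m, Function.update v.2 m v.1)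

private theorem S6a_r_inv (m : Fin n) : Function.Involutive (S6a_r m : Vx N N n → Vx N N n) := by
  rintro ⟨v, w⟩
  simp [S6a_r]

private theorem S6a_r_add (m : Fin n) (v w : Vx N N n) :
    S6a_r m (v + w) = S6a_r m v + S6a_r m w := by
  refine Prod.ext rfl ?_
  funext j
  by_cases hj : j = m
  · subst hj
    simp [S6a_r]
  · simp [S6a_r, hj]

/-- The exchange of the directions. -/
private def S6a_o (m : Fin n) (o : Option (Fin n)) : Option (Fin n) := Equiv.swap none (some m) o

private theorem S6a_r_dir (m : Fin n) (o : Option (Fin n)) :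
    S6a_r m (dir N N n o) = dir N N n (S6a_o m o) := by
  cases o with
  | none =>
    have h : S6a_o m none = some m := Equiv.swap_apply_left _ _
    rw [h]
    refine Prod.ext (by simp [S6a_r, dir]) ?_
    funext j
    by_cases hj : j = m
    · subst hj
      simp [S6a_r, dir]
    · simp [S6a_r, dir, hj]
  | some i =>
    by_cases hi : i = m
    · subst hi
      have h : S6a_o i (some i) = none := Equiv.swap_apply_right _ _
      rw [h]
      refine Prod.ext (by simp [S6a_r, dir]) ?_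
      funext j
      by_cases hj : j = i
      · subst hj
        simp [S6a_r, dir]
      · simp [S6a_r, dir, hj]
    · have h : S6a_o m (some i) = some i :=
        Equiv.swap_apply_of_ne_of_ne (by simp) (by simpa using hi)
      rw [h]
      refine Prod.ext (by simp [S6a_r, dir, Pi.single_eq_of_ne (Ne.symm hi)]) ?_
      funext j
      by_cases hj : j = m
      · subst hj
        simp [S6a_r, dir, Pi.single_eq_of_ne (Ne.symm hi)]
      · simp [S6a_r, dir, hj]

/-- The exchange of the letters. -/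
private def S6a_f (m : Fin n) (a : Ed N N n) : Ed N N n := (S6a_r m a.1, S6a_o m a.2)

private theorem S6a_f_inv (m : Fin n) : Function.Involutive (S6a_f m : Ed N N n → Ed N N n) := by
  rintro ⟨v, o⟩
  refine Prod.ext (S6a_r_inv m v) ?_
  show Equiv.swap none (some m) (Equiv.swap none (some m) o) = o
  exact Equiv.swap_apply_self _ _ _

private theorem S6a_f_spec (m : Fin n) (a : Ed N N n) (v : Vx N N n) :
    gT N N n ((S6a_f_inv m).toPerm (S6a_f m) a) ((S6a_r_inv m).toPerm (S6a_r m) v) =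
      (S6a_r_inv m).toPerm (S6a_r m) (gT N N n a v) := by
  obtain ⟨w, o⟩ := a
  rw [gT, gT, ((S6a_r_inv m).toPerm (S6a_r m)).injective.map_swap]
  show Equiv.swap (S6a_r m w) (S6a_r m w + dir N N n (S6a_o m o)) (S6a_r m v) =
    Equiv.swap (S6a_r m w) (S6a_r m (w + dir N N n o)) (S6a_r m v)
  rw [S6a_r_add, S6a_r_dir m o]

variable [NeZero N] {t : ℝ}

/-- exchange of the coordinates `0` and `m` -/
theorem P_Conn_exch (m : Fin n) (D : Set (Vx N N n)) (x y : Vx N N n) :
    P N N n t (Conn (gT N N n) D x y) =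
      P N N n t (Conn (gT N N n)
        ((fun v : Vx N N n => ((v.2 m, Function.update v.2 m v.1) : Vx N N n)) '' D)
        (x.2 m, Function.update x.2 m x.1) (y.2 m, Function.update y.2 m y.1)) := by
  have h1 : Conn (gT N N n) D x y = fun l => Conn (gT N N n)
      ((fun v : Vx N N n => ((v.2 m, Function.update v.2 m v.1) : Vx N N n)) '' D)
        (x.2 m, Function.update x.2 m x.1) (y.2 m, Function.update y.2 m y.1)
        (l.map ((S6a_f_inv m).toPerm (S6a_f m))) := by
    funext l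
    exact propext (S6a_Conn_iff ((S6a_r_inv m).toPerm (S6a_r m)) ((S6a_f_inv m).toPerm (S6a_f m))
      (S6a_f_spec m) D x y l).symm
  unfold P
  rw [h1]
  exact Pr_perm (fun _ => t) ((S6a_f_inv m).toPerm (S6a_f m)) (fun _ => rfl) _

end

end Pool.Agent.ThinTori.Dim

end

/-! Stirring on the torus `(ℤ/N) ^ (n + 1)`, row K: the lower bound below the correlation length with a
constant `exp (- C (1 + t))` -/

section

open Finset

namespace Pool.Agent.ThinTori.Dim

section

/- Only the letters which move a point of `D` matter. -/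
private theorem K5_P_eq (L W n : ℕ) [NeZero L] [NeZero W] (t : ℝ) (D : Set (Vx L W n)) (x z : Vx L W n) :
    P L W n t (Conn (gT L W n) D x z) =
      Pr (restr (fun _ : Ed L W n => t) (inc (gT L W n) D)) (Conn (gT L W n) D x z) := by
  have hp : ∀ a, inc (gT L W n) D a = false → ∀ v ∈ D, gT L W n a v = v := by
    intro a ha v hv
    by_contra hne
    have h1 : inc (gT L W n) D a = true := by
      exact @decide_eq_true _ (Classical.propDecidable _) ⟨v, hv, hne⟩
    rw [h1] at ha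
    exact absurd ha (by decide)
  have h1 : (fun l : List (Ed L W n) => Conn (gT L W n) D x z (l.filter (inc (gT L W n) D))) =
      Conn (gT L W n) D x z := by
    funext l
    exact propext (Conn_filter (g := gT L W n) (inc (gT L W n) D) D hp x z l)
  rw [← Pr_filter, h1]
  rfl

private theorem K5_arith {A B X S w : ℝ} {i j k : ℕ} (κ₁ κ₂ C : ℝ) (h₁ : 0 < κ₁) (h₂ : 0 < κ₂) (hC : 0 < C)
    (hw : 1 ≤ w) (hA : κ₁ / w ^ i ≤ A) (hB : κ₂ / w ^ j ≤ B)
    (hS : S ≤ C * w ^ k * X + κ₁ * κ₂ / (2 * w ^ (i + j))) (hAB : A * B ≤ S) :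
    κ₁ * κ₂ / (2 * C) / w ^ (i + j + k) ≤ X := by
  have hw0 : 0 < w := by linarith
  have hwi : 0 < w ^ i := pow_pos hw0 i
  have hwj : 0 < w ^ j := pow_pos hw0 j
  have hwij : 0 < w ^ (i + j) := pow_pos hw0 _
  have hw4 : 0 < w ^ k := pow_pos hw0 k
  have h1 : κ₁ / w ^ i * (κ₂ / w ^ j) ≤ A * B :=
    mul_le_mul hA hB (div_pos h₂ hwj).le ((div_pos h₁ hwi).le.trans hA)
  have h2 : κ₁ / w ^ i * (κ₂ / w ^ j) = κ₁ * κ₂ / w ^ (i + j) := by
    rw [pow_add]
    field_simp
  have h3 : κ₁ * κ₂ / (2 * w ^ (i + j)) = κ₁ * κ₂ / w ^ (i + j) / 2 := by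
    field_simp
  rw [h2] at h1
  rw [h3] at hS
  have h4 : κ₁ * κ₂ / w ^ (i + j) / 2 ≤ C * w ^ k * X := by linarith
  have h5 : κ₁ * κ₂ / (2 * C) / w ^ (i + j + k) = κ₁ * κ₂ / w ^ (i + j) / 2 / (C * w ^ k) := by
    rw [pow_add w (i + j) k]
    field_simp
  rw [h5, div_le_iff₀ (mul_pos hC hw4)]
  linarith

/-- The constant `exp (- a (1 + t))`. -/
noncomputable def eK (a t : ℝ) : ℝ := Real.exp (-(a * (1 + t)))

theorem eK_pos (a t : ℝ) : 0 < eK a t := Real.exp_pos _

theorem eK_anti {a b t : ℝ} (ht : 0 ≤ t) (h : a ≤ b) : eK b t ≤ eK a t := by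
  unfold eK
  rw [Real.exp_le_exp]
  have : a * (1 + t) ≤ b * (1 + t) := mul_le_mul_of_nonneg_right h (by linarith)
  linarith

theorem eK_le_one {a t : ℝ} (ha : 0 ≤ a) (ht : 0 ≤ t) : eK a t ≤ 1 := by
  unfold eK
  rw [Real.exp_le_one_iff]
  have : 0 ≤ a * (1 + t) := by positivity
  linarith

theorem eK_mul (a b t : ℝ) : eK a t * eK b t = eK (a + b) t := by
  unfold eK
  rw [← Real.exp_add]
  congr 1
  ring

/-- a factor `1 / m` costs `m` in the exponent -/
theorem eK_div {a m t : ℝ} (ht : 0 ≤ t) (hm : 0 < m) : eK (a + m) t ≤ eK a t / m := by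
  rw [le_div_iff₀ hm, ← eK_mul]
  have h1 : m ≤ Real.exp m := by linarith [Real.add_one_le_exp m]
  have h2 : Real.exp m * eK m t ≤ 1 := by
    unfold eK
    rw [← Real.exp_add, Real.exp_le_one_iff]
    nlinarith
  have h3 : eK m t * m ≤ 1 := by
    have h4 : eK m t * m ≤ eK m t * Real.exp m := mul_le_mul_of_nonneg_left h1 (eK_pos _ _).le
    rw [mul_comm] at h2
    exact h4.trans h2
  rw [mul_assoc]
  exact mul_le_of_le_one_right (eK_pos _ _).le h3

/-- a factor `exp (- c t)` costs `c` in the exponent -/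
theorem eK_exp {a c t : ℝ} (hc : 0 ≤ c) : eK (c + a) t ≤ Real.exp (-(c * t)) * eK a t := by
  unfold eK
  rw [← Real.exp_add, Real.exp_le_exp]
  nlinarith

theorem SMdomX (n : ℕ) (κ₁ κ₂ : ℝ) (h₁ : 0 < κ₁) (h₂ : 0 < κ₂) (i j : ℕ) (t : ℝ) (ht : 0 ≤ t)
    (L W : ℕ) [NeZero L] [NeZero W] (Q : ℕ) (hQ : 1 ≤ Q) (D : Set (Vx L W n))
    (hD : D.ncard ≤ Q ^ (n + 1)) (x z y : Vx L W n)
    (hxz : κ₁ / (Q : ℝ) ^ i ≤ P L W n t (Conn (gT L W n) D x z))
    (hzy : κ₂ / (Q : ℝ) ^ j ≤ P L W n t (Conn (gT L W n) D z y)) :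
    κ₁ * κ₂ / (2 * (4 * (2 * ((n : ℝ) + 1) * t) + |Real.log (2 / (κ₁ * κ₂))| + ((i : ℝ) + j) + 2)) /
      (Q : ℝ) ^ (i + j + 2 * (n + 1)) ≤ P L W n t (Conn (gT L W n) D x y) := by
  classical
  obtain ⟨lg, hlg⟩ : ∃ lg : ℝ, lg = |Real.log (2 / (κ₁ * κ₂))| := ⟨_, rfl⟩
  have hlg0 : 0 ≤ lg := by rw [hlg]; exact abs_nonneg _
  obtain ⟨r, hr⟩ : ∃ r : ℝ, r = 2 * ((n : ℝ) + 1) * t := ⟨_, rfl⟩
  have hr0 : 0 ≤ r := by rw [hr]; positivity
  obtain ⟨C, hCdef⟩ : ∃ C : ℝ, C = 4 * r + lg + ((i : ℝ) + j) + 2 := ⟨_, rfl⟩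
  have hC : 0 < C := by
    have h3 : (0 : ℝ) ≤ (i : ℝ) + j := by positivity
    rw [hCdef]
    linarith
  have hκ : 0 < κ₁ * κ₂ := mul_pos h₁ h₂
  rw [← hr, ← hlg, ← hCdef]
  have hw : (1 : ℝ) ≤ (Q : ℝ) := by exact_mod_cast hQ
  obtain ⟨w, hwdef⟩ : ∃ w : ℝ, w = (Q : ℝ) ^ (n + 1) := ⟨_, rfl⟩
  have hw1 : 1 ≤ w := by rw [hwdef]; exact one_le_pow₀ hw
  have hQw : (Q : ℝ) ≤ w := by
    rw [hwdef, pow_succ]
    have h3 : (1 : ℝ) ≤ (Q : ℝ) ^ n := one_le_pow₀ hw
    nlinarith
  obtain ⟨c, hcdef⟩ : ∃ c : Ed L W n → ℝ, c = restr (fun _ : Ed L W n => t) (inc (gT L W n) D) := ⟨_, rfl⟩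
  have hc : ∀ a, 0 ≤ c a := by
    intro a
    rw [hcdef]
    unfold restr
    split_ifs
    · exact ht
    · exact le_rfl
  have hDw : (D.ncard : ℝ) ≤ w := by rw [hwdef]; exact_mod_cast hD
  have hΛ : ∑ a, c a ≤ r * w := by
    rw [hcdef]
    have hrt : 2 * ((n : ℝ) + 1) * t ≤ r := hr.ge
    refine (inc_mass ht D).trans ?_
    exact mul_le_mul hrt hDw (Nat.cast_nonneg _) hr0
  have hsw : IsSw (gT L W n) := fun a => ⟨_, _, rfl⟩
  have hDf : ((D.toFinite.toFinset : Finset (Vx L W n)) : Set (Vx L W n)) = D := D.toFinite.coe_toFinset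
  have hcard : (D.toFinite.toFinset.card : ℝ) ≤ w := by
    rw [← Set.ncard_eq_toFinset_card D]
    exact hDw
  rw [K5_P_eq, ← hcdef] at hxz hzy ⊢
  have hX : 0 ≤ Pr c (Conn (gT L W n) D x y) := Pr_nonneg hc _
  obtain ⟨m, hm⟩ : ∃ m : ℕ, m = ⌈4 * r * w + lg + ((i : ℝ) + j) * Q⌉₊ := ⟨_, rfl⟩
  have hnn : 0 ≤ 4 * r * w + lg + ((i : ℝ) + j) * Q := by positivity
  have hm1 : 4 * r * w + lg + ((i : ℝ) + j) * Q ≤ m := by
    rw [hm]
    exact Nat.le_ceil _
  have hm2 : (m : ℝ) + 1 ≤ C * w := by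
    have h3 : (m : ℝ) < 4 * r * w + lg + ((i : ℝ) + j) * Q + 1 := by
      rw [hm]
      exact Nat.ceil_lt_add_one hnn
    have h6 : ((i : ℝ) + j) * Q ≤ ((i : ℝ) + j) * w := mul_le_mul_of_nonneg_left hQw (by positivity)
    have h7 : lg ≤ lg * w := by nlinarith
    rw [hCdef]
    nlinarith
  have hSM := SM hsw hc (D.toFinite.toFinset) x z y m
  rw [hDf] at hSM
  refine K5_arith κ₁ κ₂ C h₁ h₂ hC hw hxz hzy ?_ hSM
  have h3 : ((m : ℝ) + 1) * (D.toFinite.toFinset.card : ℝ) * Pr c (Conn (gT L W n) D x y) ≤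
      C * (Q : ℝ) ^ (2 * (n + 1)) * Pr c (Conn (gT L W n) D x y) := by
    refine mul_le_mul_of_nonneg_right ?_ hX
    calc ((m : ℝ) + 1) * (D.toFinite.toFinset.card : ℝ) ≤ C * w * w :=
          mul_le_mul hm2 hcard (by positivity) (by positivity)
      _ = C * (Q : ℝ) ^ (2 * (n + 1)) := by rw [hwdef, mul_comm 2 (n + 1), pow_mul]; ring
  have h4 : Real.exp (4 * ∑ a, c a - m) ≤ κ₁ * κ₂ / (2 * (Q : ℝ) ^ (i + j)) := by
    have hWp : (0 : ℝ) < (Q : ℝ) ^ (i + j) := by positivity
    have h5 : 0 < κ₁ * κ₂ / (2 * (Q : ℝ) ^ (i + j)) := by positivity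
    rw [← Real.le_log_iff_exp_le h5]
    have h6 : κ₁ * κ₂ / (2 * (Q : ℝ) ^ (i + j)) = (2 / (κ₁ * κ₂))⁻¹ * ((Q : ℝ) ^ (i + j))⁻¹ := by
      rw [inv_div]
      field_simp
    have h7 : (0 : ℝ) < (2 / (κ₁ * κ₂))⁻¹ := by positivity
    rw [h6, Real.log_mul h7.ne' (inv_pos.2 hWp).ne', Real.log_inv, Real.log_inv, Real.log_pow]
    have h8 : Real.log (2 / (κ₁ * κ₂)) ≤ lg := by
      rw [hlg]
      exact le_abs_self _
    have h9 : Real.log (Q : ℝ) ≤ (Q : ℝ) := (Real.log_le_sub_one_of_pos (by linarith)).trans (by linarith)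
    have h10 : ((i + j : ℕ) : ℝ) * Real.log (Q : ℝ) ≤ ((i : ℝ) + j) * Q := by
      push_cast
      exact mul_le_mul_of_nonneg_left h9 (by positivity)
    linarith
  linarith

/-- The switching inequality, with a constant `exp (- a (1 + t))`. -/
theorem SMdomE (n : ℕ) (a₁ a₂ : ℝ) (h₁ : 0 ≤ a₁) (h₂ : 0 ≤ a₂) (i j : ℕ) :
    ∃ a : ℝ, 0 ≤ a ∧ ∀ t : ℝ, 0 ≤ t →
      ∀ (L W : ℕ) [NeZero L] [NeZero W] (Q : ℕ) (_ : 1 ≤ Q) (D : Set (Vx L W n)),
      D.ncard ≤ Q ^ (n + 1) →
      ∀ x z y : Vx L W n, eK a₁ t / (Q : ℝ) ^ i ≤ P L W n t (Conn (gT L W n) D x z) →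
        eK a₂ t / (Q : ℝ) ^ j ≤ P L W n t (Conn (gT L W n) D z y) →
        eK a t / (Q : ℝ) ^ (i + j + 2 * (n + 1)) ≤ P L W n t (Conn (gT L W n) D x y) := by
  obtain ⟨B, hB⟩ : ∃ B : ℝ, B = 2 * (8 * ((n : ℝ) + 1) + 3 + a₁ + a₂ + ((i : ℝ) + j)) := ⟨_, rfl⟩
  have hB0 : 0 < B := by rw [hB]; positivity
  refine ⟨a₁ + a₂ + B, by positivity, ?_⟩
  intro t ht L W _ _ Q hQ D hD x z y hxz hzy
  refine le_trans ?_ (SMdomX n (eK a₁ t) (eK a₂ t) (eK_pos _ _) (eK_pos _ _) i j t ht L W Q hQ D hD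
    x z y hxz hzy)
  refine div_le_div_of_nonneg_right ?_ (by positivity)
  have hlog : |Real.log (2 / (eK a₁ t * eK a₂ t))| ≤ (1 + a₁ + a₂) * (1 + t) := by
    have h3 : Real.log (2 / (eK a₁ t * eK a₂ t)) = Real.log 2 + (a₁ + a₂) * (1 + t) := by
      rw [eK_mul, Real.log_div (by norm_num) (eK_pos _ _).ne']
      unfold eK
      rw [Real.log_exp]
      ring
    have h4 : 0 ≤ Real.log 2 := Real.log_nonneg (by norm_num)
    have h5 : Real.log 2 ≤ 1 := by linarith [Real.log_two_lt_d9]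
    have h6 : 0 ≤ (a₁ + a₂) * (1 + t) := by positivity
    rw [h3, abs_of_nonneg (by linarith)]
    nlinarith
  have hC : 2 * (4 * (2 * ((n : ℝ) + 1) * t) + |Real.log (2 / (eK a₁ t * eK a₂ t))| +
      ((i : ℝ) + j) + 2) ≤ B * (1 + t) := by
    have h7 : (0 : ℝ) ≤ ((i : ℝ) + j) * t := by positivity
    have h8 : (0 : ℝ) ≤ (n : ℝ) + 1 := by positivity
    rw [hB]
    nlinarith
  have hC0 : 0 < 2 * (4 * (2 * ((n : ℝ) + 1) * t) + |Real.log (2 / (eK a₁ t * eK a₂ t))| +
      ((i : ℝ) + j) + 2) := by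
    have := abs_nonneg (Real.log (2 / (eK a₁ t * eK a₂ t)))
    positivity
  have h9 : eK (a₁ + a₂ + B) t ≤ eK (a₁ + a₂) t / (B * (1 + t)) := by
    rw [le_div_iff₀ (by positivity), ← eK_mul (a₁ + a₂) B]
    have h10 : eK B t * (B * (1 + t)) ≤ 1 := by
      have h11 : B * (1 + t) ≤ Real.exp (B * (1 + t)) := by
        linarith [Real.add_one_le_exp (B * (1 + t))]
      have h12 : eK B t * Real.exp (B * (1 + t)) = 1 := by
        unfold eK
        rw [← Real.exp_add, neg_add_cancel, Real.exp_zero]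
      exact (mul_le_mul_of_nonneg_left h11 (eK_pos _ _).le).trans h12.le
    rw [mul_assoc]
    exact mul_le_of_le_one_right (eK_pos _ _).le h10
  refine h9.trans ?_
  have h13 : eK a₁ t * eK a₂ t = eK (a₁ + a₂) t := eK_mul _ _ _
  rw [h13] at hC hC0 ⊢
  exact div_le_div_of_nonneg_left (eK_pos _ _).le hC0 hC

end

section

private theorem K6_Conn_mono {V α : Type*} {g : α → Equiv.Perm V} {D D' : Set V} (hD : D ⊆ D')
    {x y : V} {l : List α} (h : Conn g D x y l) : Conn g D' x y l := by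
  obtain ⟨n, h1, h2⟩ := h
  exact ⟨n, h1, fun i hi => hD (h2 i hi)⟩

variable {L W n : ℕ}

private theorem K6_pt_add (i i' : ℤ) (u u' : Fin n → ℤ) :
    pt L W n i u + pt L W n i' u' = pt L W n (i + i') (u + u') := by
  unfold pt
  ext j
  · simp
  · simp

private theorem K6_pt_flip (m : Fin n) (i : ℤ) (u : Fin n → ℤ) :
    ((pt L W n i u).1, Function.update (pt L W n i u).2 m (-(pt L W n i u).2 m)) =
      pt L W n i (Function.update u m (-u m)) := by
  unfold pt
  ext j
  · rfl
  · by_cases hj : j = m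
    · subst hj; simp
    · simp [Function.update_of_ne hj]

private theorem K6_pt_dir (m : Fin n) (i : ℤ) (u : Fin n → ℤ) :
    pt L W n i u + dir L W n (some m) = pt L W n i (Function.update u m (u m + 1)) := by
  unfold pt dir
  ext j
  · simp
  · by_cases hj : j = m
    · subst hj; simp
    · simp [Function.update_of_ne hj, Pi.single_eq_of_ne hj]

/-- the box around a point of the box `2 R` -/
private theorem K6_box_shift {R i : ℤ} {u : Fin n → ℤ} (hi : |i| ≤ 2 * R)
    (hu : ∀ j, |u j| ≤ 2 * R) :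
    (fun v : Vx L W n => v + pt L W n i u) '' box L W n R ⊆ box L W n (3 * R) := by
  rintro v ⟨w, ⟨i', u', h1, h2, rfl⟩, rfl⟩
  refine ⟨i' + i, u' + u, ?_, fun j => ?_, K6_pt_add _ _ _ _⟩
  · refine (abs_add_le _ _).trans ?_
    linarith
  · refine (abs_add_le _ _).trans ?_
    have h3 := h2 j
    have h4 := hu j
    linarith

private theorem K6_box_flip (m : Fin n) (R : ℤ) :
    (fun v : Vx L W n => (v.1, Function.update v.2 m (-v.2 m))) '' box L W n R =
      box L W n R := by
  have h : ∀ v ∈ box L W n R, (v.1, Function.update v.2 m (-v.2 m)) ∈ box L W n R := by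
    rintro v ⟨i, u, h1, h2, rfl⟩
    refine ⟨i, Function.update u m (-u m), h1, fun j => ?_, K6_pt_flip m i u⟩
    by_cases hj : j = m
    · subst hj
      rw [Function.update_self, abs_neg]
      exact h2 j
    · rw [Function.update_of_ne hj]
      exact h2 j
  ext v
  constructor
  · rintro ⟨w, hw, rfl⟩
    exact h w hw
  · intro hv
    refine ⟨(v.1, Function.update v.2 m (-v.2 m)), h v hv, ?_⟩
    ext k
    · rfl
    · by_cases hk : k = m
      · subst hk; simp
      · simp [Function.update_of_ne hk]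

private theorem K6_mem_box {R i : ℤ} {u : Fin n → ℤ} (hR : 1 ≤ R) (hi : |i| ≤ 2 * R)
    (hu : ∀ j, |u j| ≤ 2 * R) : pt L W n i u ∈ box L W n (3 * R) :=
  ⟨i, u, by linarith, fun j => by have := hu j; linarith, rfl⟩

variable [NeZero L] [NeZero W] {t : ℝ}

private theorem K6_box_card {R : ℕ} (hR : 1 ≤ R) :
    (box L W n (3 * R)).ncard ≤ (6 * R) ^ (n + 1) := by
  classical
  have h1 : box L W n (3 * R) ⊆
      ((((Finset.Icc (-(3 * (R : ℤ) - 1)) (3 * (R : ℤ) - 1)).image fun i : ℤ => (i : ZMod L)) ×ˢ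
        ((Fintype.piFinset fun _ : Fin n => Finset.Icc (-(3 * (R : ℤ) - 1)) (3 * (R : ℤ) - 1)).image
          fun u : Fin n → ℤ => fun j => (u j : ZMod W)) : Finset (Vx L W n)) : Set (Vx L W n)) := by
    rintro v ⟨i, u, h1, h2, rfl⟩
    rw [Finset.mem_coe, Finset.mem_product]
    refine ⟨Finset.mem_image_of_mem _ (Finset.mem_Icc.2 (abs_le.1 h1)), ?_⟩
    exact Finset.mem_image_of_mem (fun u : Fin n → ℤ => fun j => (u j : ZMod W))
      (Fintype.mem_piFinset.2 fun j => Finset.mem_Icc.2 (abs_le.1 (h2 j)))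
  refine (Set.ncard_le_ncard h1 (Finset.finite_toSet _)).trans ?_
  rw [Set.ncard_coe_finset, Finset.card_product]
  have h3 : (Finset.Icc (-(3 * (R : ℤ) - 1)) (3 * (R : ℤ) - 1)).card ≤ 6 * R := by
    rw [Int.card_Icc]
    omega
  have h4 := Finset.card_image_le (s := Finset.Icc (-(3 * (R : ℤ) - 1)) (3 * (R : ℤ) - 1))
    (f := fun i : ℤ => (i : ZMod L))
  have h5 := Finset.card_image_le
    (s := Fintype.piFinset fun _ : Fin n => Finset.Icc (-(3 * (R : ℤ) - 1)) (3 * (R : ℤ) - 1))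
    (f := fun u : Fin n → ℤ => fun j => (u j : ZMod W))
  have h6 : (Fintype.piFinset fun _ : Fin n =>
      Finset.Icc (-(3 * (R : ℤ) - 1)) (3 * (R : ℤ) - 1)).card ≤ (6 * R) ^ n := by
    rw [Fintype.card_piFinset, Finset.prod_const, Finset.card_univ, Fintype.card_fin]
    exact Nat.pow_le_pow_left h3 n
  rw [pow_succ']
  exact Nat.mul_le_mul (h4.trans h3) (h5.trans h6)

private theorem K6_refl (ht : 0 ≤ t) (D : Set (Vx L W n)) (x : Vx L W n) (hx : x ∈ D) :
    1 ≤ P L W n t (Conn (gT L W n) D x x) := by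
  unfold P
  have h1 := Pr_none (fun _ : Ed L W n => t) (fun _ => false)
  have h2 : ∑ a, restr (fun _ : Ed L W n => t) (fun _ => false) a = 0 := by simp [restr]
  rw [h2, neg_zero, Real.exp_zero] at h1
  rw [← h1]
  refine Pr_mono (fun _ => ht) fun l _ => ⟨0, rfl, fun i hi => ?_⟩
  have : i = 0 := by omega
  rw [this]
  exact hx

/-- the move by `2 k` -/
private theorem K6_two (n : ℕ) (hn : 1 ≤ n) (b₀ : ℝ) (hb₀ : 0 ≤ b₀) :
    ∃ a : ℝ, 0 ≤ a ∧ ∀ t : ℝ, 0 < t →
      ∀ (N : ℕ) [NeZero N] (R : ℕ), 1 ≤ R → 2 * R + 1 ≤ N →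
      eK b₀ t / (R : ℝ) ^ (n + 1) ≤ P N N n t (Exit N N n R (pt N N n 0 0)) →
      ∀ (m : Fin n) (i : ℤ) (u : Fin n → ℤ) (k : ℤ), |i| ≤ 2 * R → (∀ j, |u j| ≤ 2 * R) →
        0 ≤ k → k ≤ R - 1 → |u m + 2 * k| ≤ 2 * R →
        eK a t / ((6 * R : ℕ) : ℝ) ^ (8 * n + 4) ≤ P N N n t (Conn (gT N N n) (box N N n (3 * R))
          (pt N N n i u) (pt N N n i (Function.update u m (u m + 2 * k)))) := by
  obtain ⟨a₁, ha₁⟩ : ∃ a₁ : ℝ, a₁ = 4 * ((n : ℝ) + 1) + (b₀ + (2 * n + 2)) := ⟨_, rfl⟩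
  have ha₁0 : 0 ≤ a₁ := by rw [ha₁]; positivity
  obtain ⟨a, ha, hSM'⟩ := SMdomE n a₁ a₁ ha₁0 ha₁0 (3 * n + 1) (3 * n + 1)
  refine ⟨a, ha, ?_⟩
  intro t ht N _ R hR1 hRN hex m i u k hi hu hk0 hk hk2
  have hSM := hSM' t ht.le
  obtain ⟨θ, hθe⟩ : ∃ θ : ℝ, θ = eK b₀ t := ⟨_, rfl⟩
  have hθ : 0 < θ := by rw [hθe]; exact eK_pos _ _
  rw [← hθe] at hex
  set κ₁ : ℝ := Real.exp (-(4 * (n + 1) * t)) * θ / (2 * n + 2) with hκ₁
  have hκ₁0 : 0 < κ₁ := by positivity
  have hκa : eK a₁ t ≤ κ₁ := by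
    have h1 : eK (4 * ((n : ℝ) + 1) + (b₀ + (2 * n + 2))) t ≤
        Real.exp (-(4 * ((n : ℝ) + 1) * t)) * eK (b₀ + (2 * n + 2)) t := eK_exp (by positivity)
    have h2 : eK (b₀ + (2 * (n : ℝ) + 2)) t ≤ eK b₀ t / (2 * n + 2) := eK_div ht.le (by positivity)
    rw [ha₁, hκ₁, hθe, mul_div_assoc]
    exact h1.trans (mul_le_mul_of_nonneg_left h2 (Real.exp_pos _).le)
  have hR1' : (1 : ℤ) ≤ (R : ℤ) := by exact_mod_cast hR1
  have hRN' : 2 * (R : ℤ) + 1 ≤ (N : ℤ) := by exact_mod_cast hRN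
  have hRr : (1 : ℝ) ≤ (R : ℝ) := by exact_mod_cast hR1
  have hQ : (1 : ℝ) ≤ ((6 * R : ℕ) : ℝ) := by
    push_cast
    linarith
  have hpow : ∀ j : ℕ, (1 : ℝ) ≤ ((6 * R : ℕ) : ℝ) ^ j := fun j => one_le_pow₀ hQ
  have hmem : pt N N n i u ∈ box N N n (3 * R) := K6_mem_box hR1' hi hu
  rcases hk0.eq_or_lt with hk0 | hk0
  · -- no move
    have e : Function.update u m (u m + 2 * k) = u := by
      rw [← hk0]; simp
    rw [e]
    refine le_trans ?_ (K6_refl ht.le _ _ hmem)
    rw [div_le_one (by linarith [hpow (8 * n + 4)])]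
    exact (eK_le_one ha ht.le).trans (hpow _)
  · have hθ' : 0 < θ / (R : ℝ) ^ (n + 1) := by positivity
    obtain ⟨b, -, hb⟩ := moves_box hn ht.le (R : ℤ) hR1' hRN' hRN' _ hθ' hex m k (by linarith) hk
    have hlow : κ₁ / ((6 * R : ℕ) : ℝ) ^ (3 * n + 1) ≤ Real.exp (-(4 * (n + 1) * t)) *
        (θ / (R : ℝ) ^ (n + 1)) / ((2 * n + 2) * (2 * ((R : ℤ) : ℝ)) ^ (2 * n)) := by
      have h3 : (2 * ((R : ℤ) : ℝ)) ^ (2 * n) ≤ ((6 * R : ℕ) : ℝ) ^ (2 * n) := by
        refine pow_le_pow_left₀ (by positivity) ?_ _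
        push_cast
        linarith
      have h3' : (R : ℝ) ^ (n + 1) ≤ ((6 * R : ℕ) : ℝ) ^ (n + 1) := by
        refine pow_le_pow_left₀ (by positivity) ?_ _
        push_cast
        linarith
      have h4 : κ₁ / ((6 * R : ℕ) : ℝ) ^ (3 * n + 1) = Real.exp (-(4 * (n + 1) * t)) * θ /
        ((2 * n + 2) * (((6 * R : ℕ) : ℝ) ^ (n + 1) * ((6 * R : ℕ) : ℝ) ^ (2 * n))) := by
        rw [hκ₁, ← pow_add, div_div]
        congr 3
        ring
      have h5 : Real.exp (-(4 * (n + 1) * t)) *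
        (θ / (R : ℝ) ^ (n + 1)) / ((2 * n + 2) * (2 * ((R : ℤ) : ℝ)) ^ (2 * n)) =
        Real.exp (-(4 * (n + 1) * t)) * θ /
          ((2 * n + 2) * ((R : ℝ) ^ (n + 1) * (2 * ((R : ℤ) : ℝ)) ^ (2 * n))) := by
        rw [← mul_div_assoc, div_div]
        congr 1
        ring
      rw [h4, h5]
      refine div_le_div_of_nonneg_left (by positivity) ?_ ?_
      · have : (0 : ℝ) < ((R : ℤ) : ℝ) := by
          push_cast
          linarith
        positivity
      · refine mul_le_mul_of_nonneg_left ?_ (by positivity)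
        exact mul_le_mul h3' h3 (by
          have : (0 : ℝ) < ((R : ℤ) : ℝ) := by
            push_cast
            linarith
          positivity) (by positivity)
    have hb1 := (div_le_div_of_nonneg_right hκa (by positivity :
      (0 : ℝ) ≤ ((6 * R : ℕ) : ℝ) ^ (3 * n + 1))).trans (hlow.trans hb)
    have hmono : ∀ {D D' : Set (Vx N N n)} {x y : Vx N N n}, D ⊆ D' →
        P N N n t (Conn (gT N N n) D x y) ≤ P N N n t (Conn (gT N N n) D' x y) :=
      fun hD => Pr_mono (fun _ => ht.le) fun l hl => K6_Conn_mono hD hl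
    -- first step
    have s1 : eK a₁ t / ((6 * R : ℕ) : ℝ) ^ (3 * n + 1) ≤ P N N n t (Conn (gT N N n)
        (box N N n (3 * R)) (pt N N n i u) (pt N N n (i + b m) (u + Function.update b m k))) := by
      have h2 := hb1
      rw [P_Conn_shift (pt N N n i u), K6_pt_add, K6_pt_add] at h2
      rw [zero_add, zero_add, add_comm (b m) i, add_comm (Function.update b m k) u] at h2
      exact h2.trans (hmono (K6_box_shift hi hu))
    -- second step
    have s2 : eK a₁ t / ((6 * R : ℕ) : ℝ) ^ (3 * n + 1) ≤ P N N n t (Conn (gT N N n)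
        (box N N n (3 * R)) (pt N N n (i + b m) (u + Function.update b m k))
        (pt N N n i (Function.update u m (u m + 2 * k)))) := by
      have h2 := hb1
      rw [P_Conn_reverse, P_Conn_flip m, K6_box_flip, K6_pt_flip, K6_pt_flip,
        P_Conn_shift (pt N N n i (Function.update u m (u m + 2 * k))),
        K6_pt_add, K6_pt_add] at h2
      have e3 : Function.update (Function.update b m k) m (-(Function.update b m k) m) +
          Function.update u m (u m + 2 * k) = u + Function.update b m k := by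
        ext j
        by_cases hj : j = m
        · subst hj; simp; ring
        · simp [Function.update_of_ne hj, add_comm]
      have e4 : Function.update (0 : Fin n → ℤ) m (-(0 : Fin n → ℤ) m) = 0 := by
        ext j
        by_cases hj : j = m
        · subst hj; simp
        · simp [Function.update_of_ne hj]
      rw [e3, e4, zero_add, zero_add, add_comm (b m) i] at h2
      refine h2.trans (hmono (K6_box_shift hi fun j => ?_))
      by_cases hj : j = m
      · subst hj
        rw [Function.update_self]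
        exact hk2
      · rw [Function.update_of_ne hj]
        exact hu j
    have h3 := hSM N N (6 * R) (by omega) (box N N n (3 * R)) (K6_box_card hR1) _ _ _ s1 s2
    have e : 3 * n + 1 + (3 * n + 1) + 2 * (n + 1) = 8 * n + 4 := by ring
    rw [e] at h3
    exact h3

/-- the probability to move by at most one unit -/
private theorem K6_unit (n : ℕ) (t₀ : ℝ) (ht₀ : 0 < t₀) : ∃ a : ℝ, 0 ≤ a ∧
    ∀ t : ℝ, t₀ ≤ t → ∀ (N : ℕ) [NeZero N] (R : ℕ), 1 ≤ R → 2 * R + 1 ≤ N →
      ∀ (m : Fin n) (i : ℤ) (u : Fin n → ℤ) (w : ℤ), |i| ≤ 2 * R → (∀ j, |u j| ≤ 2 * R) →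
        w = 0 ∨ w = 1 → |u m + w| ≤ 2 * R →
        eK a t / ((6 * R : ℕ) : ℝ) ^ 0 ≤ P N N n t (Conn (gT N N n) (box N N n (3 * R))
          (pt N N n i u) (pt N N n i (Function.update u m (u m + w)))) := by
  have he : Real.exp (-t₀) < 1 := Real.exp_lt_one_iff.2 (by linarith)
  obtain ⟨b, hb⟩ : ∃ b : ℝ, b = -Real.log (1 - Real.exp (-t₀)) := ⟨_, rfl⟩
  have hb1 : Real.exp (-b) = 1 - Real.exp (-t₀) := by
    rw [hb, neg_neg, Real.exp_log (by linarith)]
  have hb0 : 0 ≤ b := by
    rw [hb, neg_nonneg]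
    exact Real.log_nonpos (by linarith) (by linarith [Real.exp_pos (-t₀)])
  have ha0 : 0 ≤ 4 * ((n : ℝ) + 1) + b := by positivity
  refine ⟨4 * ((n : ℝ) + 1) + b, ha0, ?_⟩
  intro t ht0t N _ R hR1 hRN m i u w hi hu hw hw2
  have ht : 0 < t := lt_of_lt_of_le ht₀ ht0t
  have hκ₂1 := eK_le_one ha0 ht.le
  have hκ₂t : eK (4 * ((n : ℝ) + 1) + b) t ≤
      Real.exp (-(4 * (n + 1) * t)) * (1 - Real.exp (-t)) := by
    refine (eK_exp (by positivity)).trans ?_
    refine mul_le_mul_of_nonneg_left ?_ (Real.exp_pos _).le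
    have h2 : Real.exp (-t) ≤ Real.exp (-t₀) := Real.exp_le_exp.2 (by linarith)
    have h3 : eK b t ≤ Real.exp (-b) := by
      unfold eK
      rw [Real.exp_le_exp]
      nlinarith
    linarith
  have hR1' : (1 : ℤ) ≤ (R : ℤ) := by exact_mod_cast hR1
  rw [pow_zero, div_one]
  rcases hw with rfl | rfl
  · have e : Function.update u m (u m + 0) = u := by simp
    rw [e]
    exact hκ₂1.trans (K6_refl ht.le _ _ (K6_mem_box hR1' hi hu))
  · have h3 := P_unit (L := N) (W := N) (n := n) (t := t) ht.le (by omega : 2 ≤ N) m (pt N N n i u)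
    rw [K6_pt_dir] at h3
    refine hκ₂t.trans (h3.trans (Pr_mono (fun _ => ht.le) fun l hl => K6_Conn_mono ?_ hl))
    rintro v (hv | hv)
    · rw [hv]; exact K6_mem_box hR1' hi hu
    · rw [Set.mem_singleton_iff.1 hv]
      refine K6_mem_box hR1' hi fun j => ?_
      by_cases hj : j = m
      · subst hj
        rw [Function.update_self]
        exact hw2
      · rw [Function.update_of_ne hj]
        exact hu j

/-- moves upwards -/
private theorem K6_up (n : ℕ) (hn : 1 ≤ n) (t₀ b₀ : ℝ) (ht₀ : 0 < t₀) (hb₀ : 0 ≤ b₀) :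
    ∃ a : ℝ, 0 ≤ a ∧ ∀ t : ℝ, t₀ ≤ t →
      ∀ (N : ℕ) [NeZero N] (R : ℕ), 1 ≤ R → 2 * R + 1 ≤ N →
      eK b₀ t / (R : ℝ) ^ (n + 1) ≤ P N N n t (Exit N N n R (pt N N n 0 0)) →
      ∀ (m : Fin n) (i : ℤ) (u : Fin n → ℤ) (w : ℤ), |i| ≤ 2 * R → (∀ j, |u j| ≤ 2 * R) →
        0 ≤ w → w ≤ 2 * R → |u m + w| ≤ 2 * R →
        eK a t / ((6 * R : ℕ) : ℝ) ^ (12 * n + 8) ≤ P N N n t (Conn (gT N N n) (box N N n (3 * R))
          (pt N N n i u) (pt N N n i (Function.update u m (u m + w)))) := by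
  obtain ⟨a₁, ha₁, h1'⟩ := K6_two n hn b₀ hb₀
  obtain ⟨a₂, ha₂, h2'⟩ := K6_unit n t₀ ht₀
  obtain ⟨a₃, ha₃, hSM3'⟩ := SMdomE n a₁ a₂ ha₁ ha₂ (8 * n + 4) 0
  obtain ⟨a₄, ha₄, hSM4'⟩ := SMdomE n a₃ a₂ ha₃ ha₂ (8 * n + 4 + 0 + 2 * (n + 1)) 0
  refine ⟨a₄, ha₄, ?_⟩
  intro t ht0t N _ R hR1 hRN hex m i u w hi hu hw hwR hw2
  have ht : 0 < t := lt_of_lt_of_le ht₀ ht0t
  have h1 := h1' t ht
  have h2 := h2' t ht0t
  have hSM3 := hSM3' t ht.le
  have hSM4 := hSM4' t ht.le
  have hR1' : (1 : ℤ) ≤ (R : ℤ) := by exact_mod_cast hR1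
  obtain ⟨k, a, b, hk0, hk, ha, hb, hkab⟩ : ∃ k a b : ℤ, 0 ≤ k ∧ k ≤ R - 1 ∧ (a = 0 ∨ a = 1) ∧
      (b = 0 ∨ b = 1) ∧ w = 2 * k + a + b := by
    rcases le_or_gt (w / 2) ((R : ℤ) - 1) with h | h
    · exact ⟨w / 2, w % 2, 0, by omega, h, by omega, Or.inl rfl, by omega⟩
    · exact ⟨(R : ℤ) - 1, 1, 1, by omega, le_rfl, Or.inr rfl, Or.inr rfl, by omega⟩
  have hum := abs_le.1 (hu m)
  have hum2 := abs_le.1 hw2
  have ha0 : 0 ≤ a ∧ a ≤ 1 := by omega
  have hb0 : 0 ≤ b ∧ b ≤ 1 := by omega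
  have hupd : ∀ z : ℤ, |z| ≤ 2 * (R : ℤ) → ∀ j, |Function.update u m z j| ≤ 2 * (R : ℤ) := by
    intro z hz j
    by_cases hj : j = m
    · subst hj
      rw [Function.update_self]
      exact hz
    · rw [Function.update_of_ne hj]
      exact hu j
  have q1 : |u m + 2 * k| ≤ 2 * (R : ℤ) := abs_le.2 ⟨by omega, by omega⟩
  have q2 : |u m + 2 * k + a| ≤ 2 * (R : ℤ) := abs_le.2 ⟨by omega, by omega⟩
  have q3 : |u m + 2 * k + a + b| ≤ 2 * (R : ℤ) := abs_le.2 ⟨by omega, by omega⟩
  have s1 := h1 N R hR1 hRN hex m i u k hi hu hk0 hk q1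
  have s2 := h2 N R hR1 hRN m i (Function.update u m (u m + 2 * k)) a hi (hupd _ q1) ha
    (by rw [Function.update_self]; exact q2)
  have s3 := h2 N R hR1 hRN m i (Function.update u m (u m + 2 * k + a)) b hi (hupd _ q2) hb
    (by rw [Function.update_self]; exact q3)
  rw [Function.update_self, Function.update_idem] at s2 s3
  have s4 := hSM3 N N (6 * R) (by omega) (box N N n (3 * R)) (K6_box_card hR1) _ _ _ s1 s2
  have s5 := hSM4 N N (6 * R) (by omega) (box N N n (3 * R)) (K6_box_card hR1) _ _ _ s4 s3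
  have e : 8 * n + 4 + 0 + 2 * (n + 1) + 0 + 2 * (n + 1) = 12 * n + 8 := by ring
  rw [e] at s5
  have e2 : u m + 2 * k + a + b = u m + w := by rw [hkab]; ring
  rw [e2] at s5
  exact s5

end

section

/-- moves by `w`, `|w| ≤ 2 R`, along the coordinate `m`, inside the box of radius `3 R` -/
theorem coord_box_exp (n : ℕ) (hn : 1 ≤ n) (t₀ b₀ : ℝ) (ht₀ : 0 < t₀) (hb₀ : 0 ≤ b₀) :
    ∃ a : ℝ, 0 ≤ a ∧ ∀ t : ℝ, t₀ ≤ t →
    ∀ (N : ℕ) [NeZero N] (R : ℕ), 1 ≤ R → 2 * R + 1 ≤ N →
      eK b₀ t / (R : ℝ) ^ (n + 1) ≤ P N N n t (Exit N N n R (pt N N n 0 0)) →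
      ∀ (m : Fin n) (i : ℤ) (u : Fin n → ℤ) (w : ℤ), |i| ≤ 2 * R → (∀ j, |u j| ≤ 2 * R) →
        |w| ≤ 2 * R → |u m + w| ≤ 2 * R →
        eK a t / ((6 * R : ℕ) : ℝ) ^ (12 * n + 8) ≤ P N N n t (Conn (gT N N n) (box N N n (3 * R))
          (pt N N n i u) (pt N N n i (Function.update u m (u m + w)))) := by
  obtain ⟨a, ha, h1'⟩ := K6_up n hn t₀ b₀ ht₀ hb₀
  refine ⟨a, ha, ?_⟩
  intro t ht0t N _ R hR1 hRN hex m i u w hi hu hw hw2
  have h1 := h1' t ht0t
  rcases le_total 0 w with h0 | h0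
  · rw [abs_of_nonneg h0] at hw
    exact h1 N R hR1 hRN hex m i u w hi hu h0 hw hw2
  · rw [abs_of_nonpos h0] at hw
    have h2 := h1 N R hR1 hRN hex m i (Function.update u m (u m + w)) (-w) hi (fun j => by
      by_cases hj : j = m
      · subst hj
        rw [Function.update_self]
        exact hw2
      · rw [Function.update_of_ne hj]
        exact hu j) (by linarith) hw (by
        rw [Function.update_self, add_neg_cancel_right]
        exact hu m)
    have e : Function.update (Function.update u m (u m + w)) m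
        ((Function.update u m (u m + w)) m + -w) = u := by
      rw [Function.update_idem, Function.update_self]
      simp
    rw [e, P_Conn_reverse] at h2
    exact h2

end

section

private theorem K6b_card {N n R : ℕ} [NeZero N] (hR : 1 ≤ R) :
    (box N N n (3 * R)).ncard ≤ (6 * R) ^ (n + 1) := by
  have h := box_ncard (L := N) (W := N) (n := n) (3 * R) (by omega)
  have e : (((3 * R : ℕ) : ℤ)) = 3 * (R : ℤ) := by push_cast; ring
  rw [e] at h
  have e2 : 2 * (3 * R) = 6 * R := by ring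
  rw [e2] at h
  exact h

private theorem K6b_exch {N n : ℕ} (m : Fin n) (i : ℤ) (u : Fin n → ℤ) :
    (((pt N N n i u).2 m, Function.update (pt N N n i u).2 m (pt N N n i u).1) : Vx N N n) =
      pt N N n (u m) (Function.update u m i) := by
  unfold pt
  ext j
  · rfl
  · by_cases hj : j = m
    · subst hj; simp
    · simp [Function.update_of_ne hj]

private theorem K6b_box_exch {N n : ℕ} (m : Fin n) (R : ℤ) :
    (fun v : Vx N N n => ((v.2 m, Function.update v.2 m v.1) : Vx N N n)) '' box N N n R =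
      box N N n R := by
  have h : ∀ v ∈ box N N n R, ((v.2 m, Function.update v.2 m v.1) : Vx N N n) ∈ box N N n R := by
    rintro v ⟨i, u, h1, h2, rfl⟩
    refine ⟨u m, Function.update u m i, h2 m, fun j => ?_, K6b_exch m i u⟩
    by_cases hj : j = m
    · subst hj
      rw [Function.update_self]
      exact h1
    · rw [Function.update_of_ne hj]
      exact h2 j
  ext v
  constructor
  · rintro ⟨w, hw, rfl⟩
    exact h w hw
  · intro hv
    refine ⟨(v.2 m, Function.update v.2 m v.1), h v hv, ?_⟩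
    ext k
    · simp
    · by_cases hk : k = m
      · subst hk; simp
      · simp [Function.update_of_ne hk]

/-- moves along several coordinates -/
private theorem K6b_coords (n : ℕ) (hn : 1 ≤ n) (C₀ : ℕ) (t₀ b₀ a₀ : ℝ) (ht₀ : 0 < t₀)
    (ha₀ : 0 ≤ a₀)
    (h0 : ∀ t : ℝ, t₀ ≤ t → ∀ (N : ℕ) [NeZero N] (R : ℕ), 1 ≤ R → 2 * R + 1 ≤ N →
      eK b₀ t / (R : ℝ) ^ (n + 1) ≤ P N N n t (Exit N N n R (pt N N n 0 0)) →
      ∀ (m : Fin n) (i : ℤ) (u : Fin n → ℤ) (w : ℤ), |i| ≤ 2 * R → (∀ j, |u j| ≤ 2 * R) →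
        |w| ≤ 2 * R → |u m + w| ≤ 2 * R →
        eK a₀ t / ((6 * R : ℕ) : ℝ) ^ C₀ ≤ P N N n t (Conn (gT N N n) (box N N n (3 * R))
          (pt N N n i u) (pt N N n i (Function.update u m (u m + w))))) (k : ℕ) :
    ∃ a : ℝ, 0 ≤ a ∧ ∀ t : ℝ, t₀ ≤ t → ∀ (N : ℕ) [NeZero N] (R : ℕ), 1 ≤ R →
      2 * R + 1 ≤ N → eK b₀ t / (R : ℝ) ^ (n + 1) ≤ P N N n t (Exit N N n R (pt N N n 0 0)) →
      ∀ s : Finset (Fin n), s.card = k → ∀ u : Fin n → ℤ, (∀ j, |u j| ≤ 2 * R) →
        eK a t / ((6 * R : ℕ) : ℝ) ^ (C₀ + k * (C₀ + 2 * (n + 1))) ≤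
          P N N n t (Conn (gT N N n) (box N N n (3 * R))
            (pt N N n 0 0) (pt N N n 0 (fun j => if j ∈ s then u j else 0))) := by
  classical
  induction k with
  | zero =>
    refine ⟨a₀, ha₀, ?_⟩
    intro t htl N _ R hR hRN hE s hs u hu
    have hR0 : (0 : ℤ) ≤ 2 * (R : ℤ) := by positivity
    have h1 := h0 t htl N R hR hRN hE ⟨0, hn⟩ 0 0 0 (by simp) (fun j => by simp)
      (by simp) (by simp)
    rw [Finset.card_eq_zero] at hs
    subst hs
    have h2 : Function.update (0 : Fin n → ℤ) (⟨0, hn⟩ : Fin n) ((0 : Fin n → ℤ) ⟨0, hn⟩ + 0) =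
        0 := by simp
    rw [h2] at h1
    have h3 : (fun j : Fin n => if j ∈ (∅ : Finset (Fin n)) then u j else 0) = 0 := by
      funext j
      simp
    rw [h3]
    simpa using h1
  | succ k ih =>
    obtain ⟨ak, hak, hk⟩ := ih
    obtain ⟨a, ha, hSM⟩ := SMdomE n ak a₀ hak ha₀ (C₀ + k * (C₀ + 2 * (n + 1))) C₀
    refine ⟨a, ha, ?_⟩
    intro t htl N _ R hR hRN hE s hs u hu
    obtain ⟨m, s', hm, rfl, hs'⟩ := Finset.card_eq_succ.mp hs
    have h1 := hk t htl N R hR hRN hE s' hs' u hu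
    have hus : ∀ j, |(if j ∈ s' then u j else 0 : ℤ)| ≤ 2 * (R : ℤ) := by
      intro j
      split_ifs
      · exact hu j
      · simp
    have h2 := h0 t htl N R hR hRN hE m 0 (fun j => if j ∈ s' then u j else 0) (u m)
      (by simp) hus (hu m) (by simp only [if_neg hm, zero_add]; exact hu m)
    have h3 := hSM t (ht₀.le.trans htl) N N (6 * R) (by omega) (box N N n (3 * R))
      (K6b_card hR) _ _ _ h1 h2
    have h4 : Function.update (fun j => if j ∈ s' then u j else 0) m
        ((if m ∈ s' then u m else 0) + u m) =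
        fun j => if j ∈ insert m s' then u j else 0 := by
      funext j
      by_cases hj : j = m
      · subst hj
        simp [hm]
      · rw [Function.update_of_ne hj]
        simp [Finset.mem_insert, hj]
    have h5 : C₀ + k * (C₀ + 2 * (n + 1)) + C₀ + 2 * (n + 1) =
        C₀ + (k + 1) * (C₀ + 2 * (n + 1)) := by ring
    rw [h5] at h3
    rw [h4] at h3
    exact h3

theorem conn_box_exp (n : ℕ) (hn : 1 ≤ n) (t₀ b₀ : ℝ) (ht₀ : 0 < t₀) (hb₀ : 0 ≤ b₀) :
    ∃ a : ℝ, 0 ≤ a ∧ ∀ t : ℝ, t₀ ≤ t →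
    ∀ (N : ℕ) [NeZero N] (R : ℕ), 1 ≤ R → 2 * R + 1 ≤ N →
      eK b₀ t / (R : ℝ) ^ (n + 1) ≤ P N N n t (Exit N N n R (pt N N n 0 0)) →
      ∀ (i : ℤ) (u : Fin n → ℤ), |i| ≤ 2 * R → (∀ j, |u j| ≤ 2 * R) →
        eK a t / (R : ℝ) ^ (18 * (n + 1) ^ 2) ≤ P N N n t (Conn (gT N N n) (box N N n (3 * R))
          (pt N N n 0 0) (pt N N n i u)) := by
  classical
  obtain ⟨C₀, hC₀⟩ : ∃ C₀ : ℕ, C₀ = 12 * n + 8 := ⟨_, rfl⟩
  have hexp : C₀ + n * (C₀ + 2 * (n + 1)) + C₀ + 2 * (n + 1) ≤ 18 * (n + 1) ^ 2 := by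
    rw [hC₀]
    nlinarith
  obtain ⟨a₀, ha₀, h0⟩ := coord_box_exp n hn t₀ b₀ ht₀ hb₀
  rw [← hC₀] at h0
  obtain ⟨a₁, ha₁, h1⟩ := K6b_coords n hn C₀ t₀ b₀ a₀ ht₀ ha₀ h0 n
  obtain ⟨a, ha, hSM⟩ := SMdomE n a₁ a₀ ha₁ ha₀ (C₀ + n * (C₀ + 2 * (n + 1))) C₀
  refine ⟨a + 6 ^ (C₀ + n * (C₀ + 2 * (n + 1)) + C₀ + 2 * (n + 1)), by positivity, ?_⟩
  intro t htl N _ R hR hRN hE i u hi hu
  have ht : 0 ≤ t := ht₀.le.trans htl
  have s1 := h1 t htl N R hR hRN hE Finset.univ (by simp) u hu
  have e1 : (fun j : Fin n => if j ∈ (Finset.univ : Finset (Fin n)) then u j else 0) = u := by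
    funext j
    simp
  rw [e1] at s1
  have hu' : ∀ j, |Function.update u (⟨0, hn⟩ : Fin n) 0 j| ≤ 2 * (R : ℤ) := by
    intro j
    by_cases hj : j = ⟨0, hn⟩
    · subst hj
      rw [Function.update_self]
      simp
    · rw [Function.update_of_ne hj]
      exact hu j
  have s2 := h0 t htl N R hR hRN hE ⟨0, hn⟩ (u ⟨0, hn⟩) (Function.update u ⟨0, hn⟩ 0) i
    (hu _) hu' hi (by rw [Function.update_self, zero_add]; exact hi)
  rw [Function.update_self, zero_add, Function.update_idem, ← K6b_exch, ← K6b_exch,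
    ← K6b_box_exch (⟨0, hn⟩ : Fin n) (3 * (R : ℤ)), ← P_Conn_exch] at s2
  have h3 := hSM t ht N N (6 * R) (by omega) (box N N n (3 * R))
    (K6b_card hR) _ _ _ s1 s2
  refine le_trans ?_ h3
  have h4 := eK_div (a := a) ht (by positivity :
    (0 : ℝ) < 6 ^ (C₀ + n * (C₀ + 2 * (n + 1)) + C₀ + 2 * (n + 1)))
  have hR1 : (1 : ℝ) ≤ (R : ℝ) := by exact_mod_cast hR
  have h5 := pow_le_pow_right₀ hR1 hexp
  refine (div_le_div_of_nonneg_left (eK_pos _ _).le (by positivity) h5).trans ?_
  refine (div_le_div_of_nonneg_right h4 (by positivity)).trans (le_of_eq ?_)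
  push_cast
  rw [div_div, mul_pow]

end

section

/-- the value of the exit probability if the criterion fails -/
private theorem K7_theta (n : ℕ) (t T : ℝ) (hT : t ≤ T) (R N : ℕ) [NeZero N] (hR : 1 ≤ R)
    (hN : 2 * R + 1 ≤ N) (h : ¬ Crit n t R) :
    (4 * ((n : ℝ) + 1) * (4 : ℝ) ^ n * Real.exp (2 * (n + 1) * T))⁻¹ / (R : ℝ) ^ (n + 1) ≤
      P N N n t (Exit N N n R (pt N N n 0 0)) := by
  unfold Crit at h
  rw [← exit_local n t R N hR hN, not_lt] at h
  have hR1 : (1 : ℝ) ≤ (R : ℝ) := by exact_mod_cast hR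
  have hR0 : (0 : ℝ) < (R : ℝ) := by linarith
  have hpos : (0 : ℝ) < 2 * ((n : ℝ) + 1) * (4 * (R : ℝ)) ^ n * Real.exp (2 * (n + 1) * t) := by
    positivity
  have h1 : 1 / 2 / (2 * ((n : ℝ) + 1) * (4 * (R : ℝ)) ^ n * Real.exp (2 * (n + 1) * t)) ≤
      P N N n t (Exit N N n R (pt N N n 0 0)) := by
    rw [div_le_iff₀ hpos]
    exact h
  refine le_trans ?_ h1
  have e : (4 * ((n : ℝ) + 1) * (4 : ℝ) ^ n * Real.exp (2 * (n + 1) * T))⁻¹ / (R : ℝ) ^ n =
      1 / 2 / (2 * ((n : ℝ) + 1) * (4 * (R : ℝ)) ^ n * Real.exp (2 * (n + 1) * T)) := by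
    rw [mul_pow]
    field_simp
    norm_num
  have h2 : (4 * ((n : ℝ) + 1) * (4 : ℝ) ^ n * Real.exp (2 * (n + 1) * T))⁻¹ / (R : ℝ) ^ (n + 1) ≤
      (4 * ((n : ℝ) + 1) * (4 : ℝ) ^ n * Real.exp (2 * (n + 1) * T))⁻¹ / (R : ℝ) ^ n :=
    div_le_div_of_nonneg_left (by positivity) (by positivity)
      (pow_le_pow_right₀ hR1 (Nat.le_succ n))
  refine h2.trans ?_
  rw [e]
  refine div_le_div_of_nonneg_left (by norm_num) hpos ?_
  refine mul_le_mul_of_nonneg_left ?_ (by positivity)
  rw [Real.exp_le_exp]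
  exact mul_le_mul_of_nonneg_left hT (by positivity)

/-- below the correlation length -/
theorem lower_exp (n : ℕ) (hn : 1 ≤ n) : ∃ C : ℝ, 0 < C ∧
    ∀ t : ℝ, 0 ≤ t → ∀ (N : ℕ) [NeZero N], 3 ≤ N → ∀ x y : Vx N N n, x ≠ y →
      (nrm (y - x) : ℕ∞) < xi n t → Real.exp (-(C * (1 + t))) / (nrm (y - x) : ℝ) ^
        (18 * (n + 1) ^ 2) ≤ P N N n t (fun l => (l.map (gT N N n)).prod.SameCycle x y) := by
  obtain ⟨ε, hε, hxi⟩ := xi_usc n 0 (by rw [xi_zero]; exact ENat.one_ne_top)
  obtain ⟨b₀, hb₀⟩ : ∃ b₀ : ℝ, b₀ = 2 * ((n : ℝ) + 1) + 4 * ((n : ℝ) + 1) * (4 : ℝ) ^ n := ⟨_, rfl⟩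
  have hb₀0 : 0 ≤ b₀ := by rw [hb₀]; positivity
  obtain ⟨a, ha, h⟩ := conn_box_exp n hn (ε / 2) b₀ (by linarith) hb₀0
  refine ⟨a + 1, by linarith, ?_⟩
  intro t ht N _ hN x y hxy hlt
  refine le_trans (div_le_div_of_nonneg_right
    (eK_anti ht (by linarith : a ≤ a + 1)) (by positivity)) ?_
  have hr1 := nrm_pos (y - x) (sub_ne_zero.2 hxy.symm)
  rcases lt_or_ge t (ε / 2) with hte | hte
  · exfalso
    have h1 := hxi t (by rw [sub_zero, abs_of_nonneg ht]; linarith)
    rw [xi_zero] at h1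
    have h2 : nrm (y - x) < 1 := by exact_mod_cast lt_of_lt_of_le hlt h1
    omega
  · have hr2 := nrm_le N (y - x)
    obtain ⟨i, u, hi, hu, hv⟩ := exists_pt (y - x)
    generalize nrm (y - x) = r at hlt hr1 hr2 hi hu ⊢
    obtain ⟨R, hR1, hRr, hrR, hRN⟩ : ∃ R : ℕ, 1 ≤ R ∧ R ≤ r ∧ r ≤ 2 * R ∧ 2 * R + 1 ≤ N := by
      rcases Nat.lt_or_ge r 2 with h2 | h2
      · exact ⟨1, by omega, by omega, by omega, by omega⟩
      · exact ⟨r - 1, by omega, by omega, by omega, by omega⟩
    have hnc : ¬ Crit n t R := fun hc => by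
      have h3 := lt_of_lt_of_le hlt (xi_le n t R hR1 hc)
      have h4 : r < R := by exact_mod_cast h3
      omega
    have hr3 : (r : ℤ) ≤ 2 * (R : ℤ) := by exact_mod_cast hrR
    have hθ : eK b₀ t ≤ (4 * ((n : ℝ) + 1) * (4 : ℝ) ^ n * Real.exp (2 * (n + 1) * t))⁻¹ := by
      have h6 : eK (2 * ((n : ℝ) + 1) + 4 * ((n : ℝ) + 1) * (4 : ℝ) ^ n) t ≤
          Real.exp (-(2 * ((n : ℝ) + 1) * t)) * eK (4 * ((n : ℝ) + 1) * (4 : ℝ) ^ n) t :=
        eK_exp (by positivity)
      have h7 : eK (0 + 4 * ((n : ℝ) + 1) * (4 : ℝ) ^ n) t ≤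
          eK 0 t / (4 * ((n : ℝ) + 1) * (4 : ℝ) ^ n) := eK_div ht (by positivity)
      rw [zero_add] at h7
      have h8 : eK 0 t = 1 := by simp [eK]
      rw [h8] at h7
      rw [hb₀]
      refine h6.trans ((mul_le_mul_of_nonneg_left h7 (Real.exp_pos _).le).trans (le_of_eq ?_))
      rw [Real.exp_neg, mul_inv, one_div]
      ring
    have hc := h t hte N R hR1 hRN ((div_le_div_of_nonneg_right hθ (by positivity)).trans
      (K7_theta n t t le_rfl R N hR1 hRN hnc)) i u (hi.trans hr3)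
      (fun j => (hu j).trans hr3)
    rw [P_Conn_shift x, ← hv] at hc
    have hR0 : (0 : ℝ) < (R : ℝ) := by exact_mod_cast hR1
    have h5 : eK a t / (r : ℝ) ^ (18 * (n + 1) ^ 2) ≤ eK a t / (R : ℝ) ^ (18 * (n + 1) ^ 2) := by
      refine div_le_div_of_nonneg_left (eK_pos _ _).le (by positivity) ?_
      exact pow_le_pow_left₀ hR0.le (by exact_mod_cast hRr) _
    refine h5.trans (hc.trans ?_)
    unfold P
    refine Pr_mono (fun _ => ht) fun l hl => ?_
    rw [same_iff]
    obtain ⟨m, hm, -⟩ := hl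
    refine ⟨m, ?_, fun _ _ => Set.mem_univ _⟩
    have e1 : pt N N n 0 0 + x = x := by
      refine Prod.ext ?_ ?_
      · simp [pt]
      · funext j
        simp [pt]
    have e2 : y - x + x = y := sub_add_cancel y x
    rw [e1, e2] at hm
    exact hm

end

end Pool.Agent.ThinTori.Dim

end

/-! Correlation length, row S14a: walks through separated subsets -/

section

open Finset

namespace Pool.Agent.ThinTori.Dim

section Walk

variable {V : Type*} [DecidableEq V]

/-- In a finite set connected by a symmetric relation a walk of `2 k - 2` steps from `x` meets exactly `k`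
points. -/
theorem S14_walk (adj : V → V → Prop) (hsymm : ∀ a b, adj a b → adj b a) (A : Finset V) (x : V)
    (hx : x ∈ A) (hconn : ∀ B ⊆ A, x ∈ B → B ≠ A → ∃ b ∈ B, ∃ a ∈ A \ B, adj b a) (k : ℕ)
    (hk : k + 1 ≤ A.card) :
    ∃ w : ℕ → V, w 0 = x ∧ (∀ i < 2 * k, adj (w i) (w (i + 1))) ∧
      (Finset.range (2 * k + 1)).image w ⊆ A ∧ ((Finset.range (2 * k + 1)).image w).card = k + 1 := by
  induction k with
  | zero =>
    refine ⟨fun _ => x, rfl, fun i hi => by omega, ?_, ?_⟩
    · intro v hv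
      obtain ⟨i, -, rfl⟩ := Finset.mem_image.1 hv
      exact hx
    · simp
  | succ k ih =>
    obtain ⟨w, h0, hadj, hsub, hcard⟩ := ih (by omega)
    set B := (Finset.range (2 * k + 1)).image w with hB
    have hxB : x ∈ B := Finset.mem_image.2 ⟨0, by simp, h0⟩
    have hne : B ≠ A := by
      intro h
      rw [h] at hcard
      omega
    obtain ⟨b, hb, a, ha, hba⟩ := hconn B hsub hxB hne
    obtain ⟨i0, hi0, rfl⟩ := Finset.mem_image.1 hb
    rw [Finset.mem_range] at hi0
    rw [Finset.mem_sdiff] at ha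
    set w' : ℕ → V := fun i => if i ≤ i0 then w i else if i = i0 + 1 then a else w (i - 2) with hw'
    have e1 : ∀ i, i ≤ i0 → w' i = w i := fun i hi => by simp only [hw', if_pos hi]
    have e2 : w' (i0 + 1) = a := by simp [hw']
    have e3 : ∀ i, i0 + 2 ≤ i → w' i = w (i - 2) := fun i hi => by
      simp only [hw', if_neg (by omega : ¬ i ≤ i0), if_neg (by omega : ¬ i = i0 + 1)]
    have himg : (Finset.range (2 * (k + 1) + 1)).image w' = insert a B := by
      ext v
      rw [Finset.mem_image, Finset.mem_insert, hB, Finset.mem_image]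
      constructor
      · rintro ⟨i, hi, rfl⟩
        rw [Finset.mem_range] at hi
        rcases Nat.lt_or_ge i0 i with h1 | h1
        · rcases Nat.lt_or_ge (i0 + 1) i with h2 | h2
          · right
            refine ⟨i - 2, ?_, (e3 i h2).symm⟩
            rw [Finset.mem_range]
            omega
          · left
            have : i = i0 + 1 := by omega
            rw [this, e2]
        · right
          exact ⟨i, Finset.mem_range.2 (by omega), (e1 i h1).symm⟩
      · rintro (rfl | ⟨i, hi, rfl⟩)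
        · exact ⟨i0 + 1, Finset.mem_range.2 (by omega), e2⟩
        · rw [Finset.mem_range] at hi
          rcases Nat.lt_or_ge i0 i with h1 | h1
          · refine ⟨i + 2, Finset.mem_range.2 (by omega), ?_⟩
            rw [e3 (i + 2) (by omega)]
            simp
          · exact ⟨i, Finset.mem_range.2 (by omega), e1 i h1⟩
    refine ⟨w', by rw [e1 0 (Nat.zero_le _), h0], fun i hi => ?_, ?_, ?_⟩
    · rcases Nat.lt_trichotomy i i0 with h1 | h1 | h1
      · rw [e1 i h1.le, e1 (i + 1) h1]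
        exact hadj i (by omega)
      · subst h1
        rw [e1 i le_rfl, e2]
        exact hba
      · rcases Nat.lt_or_ge (i0 + 1) i with h2 | h2
        · rw [e3 i (by omega), e3 (i + 1) (by omega)]
          have := hadj (i - 2) (by omega)
          rwa [show i - 2 + 1 = i + 1 - 2 by omega] at this
        · have h3 : i = i0 + 1 := by omega
          subst h3
          rw [e2, e3 (i0 + 1 + 1) (by omega)]
          exact hsymm _ _ hba
    · rw [himg]
      exact Finset.insert_subset ha.1 hsub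
    · rw [himg, Finset.card_insert_of_notMem ha.2, hcard]

/-- A maximal separated subset. -/
theorem S14_greedy (near : V → V → Prop) (hsymm : ∀ a b, near a b → near b a)
    (S : Finset V) (x : V) (hx : x ∈ S) :
    ∃ A ⊆ S, x ∈ A ∧ (∀ u ∈ A, ∀ v ∈ A, u ≠ v → ¬ near u v) ∧
      ∀ s ∈ S, ∃ a ∈ A, s = a ∨ near s a := by
  classical
  set F : Finset (Finset V) := S.powerset.filter fun A => x ∈ A ∧
    ∀ u ∈ A, ∀ v ∈ A, u ≠ v → ¬ near u v with hF
  have hne : F.Nonempty := by
    refine ⟨{x}, ?_⟩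
    rw [hF, Finset.mem_filter, Finset.mem_powerset]
    refine ⟨Finset.singleton_subset_iff.2 hx, Finset.mem_singleton_self x, fun u hu v hv huv => ?_⟩
    rw [Finset.mem_singleton] at hu hv
    exact absurd (hu.trans hv.symm) huv
  obtain ⟨A, hA, hmax⟩ := Finset.exists_max_image F Finset.card hne
  rw [hF, Finset.mem_filter, Finset.mem_powerset] at hA
  refine ⟨A, hA.1, hA.2.1, hA.2.2, fun s hs => ?_⟩
  by_contra hcon
  push Not at hcon
  have hsA : s ∉ A := fun h => (hcon s h).1 rfl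
  have hins : insert s A ∈ F := by
    rw [hF, Finset.mem_filter, Finset.mem_powerset]
    refine ⟨Finset.insert_subset hs hA.1, Finset.mem_insert_of_mem hA.2.1, fun u hu v hv huv => ?_⟩
    rw [Finset.mem_insert] at hu hv
    rcases hu with rfl | hu <;> rcases hv with rfl | hv
    · exact absurd rfl huv
    · exact (hcon v hv).2
    · exact fun h => (hcon u hu).2 (hsymm _ _ h)
    · exact hA.2.2 u hu v hv huv
  have := hmax _ hins
  rw [Finset.card_insert_of_notMem hsA] at this
  omega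

end Walk

end Pool.Agent.ThinTori.Dim

end

/-! Correlation length, row S14b: the far event at a vertex: probability, locality, independence -/

section

open Finset

namespace Pool.Agent.ThinTori.Dim

section

variable {L W n : ℕ} [NeZero L] [NeZero W] {t : ℝ}

omit [NeZero L] [NeZero W] in
private theorem S14b_isSw : IsSw (gT L W n) := fun _ => ⟨_, _, rfl⟩

omit [NeZero L] [NeZero W] in
theorem S14_dir (o : Option (Fin n)) : dir L W n o ∈ box L W n 2 := by
  cases o with
  | none => exact ⟨1, fun _ => 0, by norm_num, fun _ => by norm_num, by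
      simp only [dir, pt, Int.cast_one, Int.cast_zero]
      rfl⟩
  | some j =>
    refine ⟨0, Pi.single j 1, by norm_num, fun m => ?_, ?_⟩
    · by_cases h : m = j
      · subst h; simp
      · simp [h]
    · simp only [dir, pt, Int.cast_zero, Prod.mk.injEq, true_and]
      funext m
      by_cases h : m = j
      · subst h; simp
      · simp [h]

omit [NeZero L] [NeZero W] in
theorem S14_neg {A : ℤ} {v : Vx L W n} (h : v ∈ box L W n A) : -v ∈ box L W n A := by
  obtain ⟨i, u, h1, h2, rfl⟩ := h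
  refine ⟨-i, fun j => -u j, by rwa [abs_neg], fun j => by rw [abs_neg]; exact h2 j, ?_⟩
  simp only [pt, Int.cast_neg, Prod.neg_mk]
  rfl

omit [NeZero L] [NeZero W] in
theorem S14_zero {A : ℤ} (hA : 1 ≤ A) : (0 : Vx L W n) ∈ box L W n A := by
  refine ⟨0, fun _ => 0, by rw [abs_zero]; omega, fun _ => by rw [abs_zero]; omega, ?_⟩
  refine Prod.ext (by simp [pt]) ?_
  funext j
  simp [pt]

omit [NeZero L] [NeZero W] in
/-- A letter moves a vertex by a vector of the box of the neighbours. -/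
theorem S14_step (e : Ed L W n) (v : Vx L W n) : gT L W n e v - v ∈ box L W n 2 := by
  unfold gT
  by_cases h1 : v = e.1
  · rw [h1, Equiv.swap_apply_left, add_sub_cancel_left]
    exact S14_dir _
  · by_cases h2 : v = e.1 + dir L W n e.2
    · rw [h2, Equiv.swap_apply_right, sub_add_cancel_left]
      exact S14_neg (S14_dir _)
    · rw [Equiv.swap_apply_of_ne_of_ne h1 h2, sub_self]
      exact S14_zero (by norm_num)

omit [NeZero L] [NeZero W] in
theorem S14_T (l : List (Ed L W n)) (s : ℕ × Vx L W n) :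
    (T (gT L W n) l s).2 - s.2 ∈ box L W n 2 := by
  unfold T
  cases h : l[s.1]? with
  | none => simpa [h] using S14_zero (by norm_num)
  | some e => simpa [h] using S14_step e s.2

/-- The vertices different from `v` in the box around `v`. -/
def S14_D (L W n : ℕ) (R : ℤ) (v : Vx L W n) : Set (Vx L W n) := {w | w - v ∈ box L W n R ∧ w ≠ v}

/-- A particle goes from `v` to a vertex outside of the box around `v`. -/
def FarPt (L W n : ℕ) (R : ℤ) (v : Vx L W n) (l : List (Ed L W n)) : Prop :=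
  ∃ b, b - v ∉ box L W n R ∧ Seg (gT L W n) (S14_D L W n R v) v b l

omit [NeZero L] [NeZero W] in
private theorem S14_inc {S : Set (Vx L W n)} {a : Ed L W n} (h : inc (gT L W n) S a = true) :
    ∃ v ∈ S, gT L W n a v ≠ v := by
  unfold inc at h
  exact @of_decide_eq_true _ (_) h

omit [NeZero L] [NeZero W] in
private theorem S14_not_inc {S : Set (Vx L W n)} {a : Ed L W n} (h : inc (gT L W n) S a = false) :
    ∀ v ∈ S, gT L W n a v = v := by
  intro v hv
  by_contra hne
  unfold inc at h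
  exact @of_decide_eq_false _ (_) h ⟨v, hv, hne⟩

omit [NeZero L] [NeZero W] in
/-- The far event at `v` depends on the letters which move a vertex near `v`. -/
theorem S14_local {R : ℤ} (hR : 2 ≤ R) (v : Vx L W n) (l : List (Ed L W n)) :
    FarPt L W n R v (l.filter (inc (gT L W n) (S14_D L W n R v))) ↔ FarPt L W n R v l := by
  unfold FarPt
  refine exists_congr fun b => and_congr_right fun hb => ?_
  have hvb : v ≠ b := by
    rintro rfl
    rw [sub_self] at hb
    exact hb (S14_zero (by omega))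
  refine Seg_filter _ _ (fun e he w hw => S14_not_inc he w hw) v b (fun h => h.2 rfl) hvb
    (fun e _ h => hb ?_) l
  rw [← h]
  exact S3_box_mono hR (S14_step e v)

omit [NeZero L] [NeZero W] in
private theorem S14_iso {R : ℤ} (hR : 1 ≤ R) (v : Vx L W n) {l : List (Ed L W n)}
    (h : FarPt L W n R v l) :
    ∃ m : List (Ed L W n × Bool), m.map Prod.fst = l ∧
      (∀ x ∈ m, x.2 = false → inc (gT L W n) {v} x.1 = true) ∧
      Exit L W n R v (part true m) := by
  obtain ⟨b, hb, hs⟩ := h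
  have hvb : v ≠ b := by
    rintro rfl
    rw [sub_self] at hb
    exact hb (S14_zero hR)
  obtain ⟨m, hm1, hm2, k, hk, -⟩ := iso_left S14b_isSw _ v b (fun h => h.2 rfl) hvb l hs
  exact ⟨m, hm1, hm2, k, by rw [hk]; exact hb⟩

/-- The probability of the far event. -/
theorem P_Far_le (ht : 0 ≤ t) {R : ℤ} (hR : 1 ≤ R) (v : Vx L W n) :
    Pr (fun _ : Ed L W n => t) (FarPt L W n R v) ≤
      Real.exp (2 * (n + 1) * t) * P L W n t (Exit L W n R (pt L W n 0 0)) := by
  have hc0 : ∀ a : Ed L W n, (0 : ℝ) ≤ (fun _ : Ed L W n => t) a := fun _ => ht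
  have h2 := Pr_delete hc0 (inc (gT L W n) {v}) (FarPt L W n R v) (Exit L W n R v)
    fun l hl => S14_iso hR v hl
  have h3 : ∑ x, restr (fun _ : Ed L W n => t) (inc (gT L W n) {v}) x ≤ 2 * (n + 1) * t := by
    have := inc_mass ht ({v} : Set (Vx L W n))
    rwa [Set.ncard_singleton, Nat.cast_one, mul_one] at this
  have h4 : Pr (fun _ : Ed L W n => t) (Exit L W n R v) =
      P L W n t (Exit L W n R (pt L W n 0 0)) := P_Exit_shift R v
  rw [← h4]
  exact h2.trans (mul_le_mul_of_nonneg_right (Real.exp_le_exp.mpr h3) (Pr_nonneg hc0 _))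

omit [NeZero L] [NeZero W] in
private theorem S14_moved {e : Ed L W n} {v w : Vx L W n} (hve : gT L W n e v ≠ v)
    (hwe : gT L W n e w ≠ w) : w = v ∨ w = gT L W n e v := by
  unfold gT at hve hwe ⊢
  by_cases k1 : v = e.1
  · rw [k1, Equiv.swap_apply_left]
    by_cases k2 : w = e.1
    · exact Or.inl k2
    · by_cases k3 : w = e.1 + dir L W n e.2
      · exact Or.inr k3
      · exact absurd (Equiv.swap_apply_of_ne_of_ne k2 k3) hwe
  · by_cases k4 : v = e.1 + dir L W n e.2
    · rw [k4, Equiv.swap_apply_right]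
      by_cases k2 : w = e.1
      · exact Or.inr k2
      · by_cases k3 : w = e.1 + dir L W n e.2
        · exact Or.inl k3
        · exact absurd (Equiv.swap_apply_of_ne_of_ne k2 k3) hwe
    · exact absurd (Equiv.swap_apply_of_ne_of_ne k1 k4) hve

/-- The far events at separated vertices are independent. -/
theorem P_Far_all (ht : 0 ≤ t) {R : ℤ} (hR : 2 ≤ R) (A : Finset (Vx L W n))
    (hA : ∀ u ∈ A, ∀ v ∈ A, u ≠ v → u - v ∉ box L W n (2 * R)) :
    Pr (fun _ : Ed L W n => t) (fun l => ∀ v ∈ A, FarPt L W n R v l) ≤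
      (Real.exp (2 * (n + 1) * t) * P L W n t (Exit L W n R (pt L W n 0 0))) ^ A.card := by
  classical
  set c : Ed L W n → ℝ := fun _ => t with hc
  have hc0 : ∀ a, 0 ≤ c a := fun _ => ht
  set f : Fin A.card → Vx L W n := fun i => (A.equivFin.symm i : Vx L W n) with hf
  have hfA : ∀ i, f i ∈ A := fun i => (A.equivFin.symm i).2
  have hfinj : ∀ i j, i ≠ j → f i ≠ f j := by
    intro i j hij h
    exact hij (A.equivFin.symm.injective (Subtype.ext h))
  have hdis : ∀ i j : Fin A.card, i ≠ j → ∀ a, inc (gT L W n) (S14_D L W n R (f i)) a = true →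
      inc (gT L W n) (S14_D L W n R (f j)) a = false := by
    intro i j hij e he
    by_contra hcon
    rw [Bool.not_eq_false] at hcon
    obtain ⟨u, hu, hue⟩ := S14_inc he
    obtain ⟨w, hw, hwe⟩ := S14_inc hcon
    have huw : w - u ∈ box L W n 2 := by
      rcases S14_moved hue hwe with h | h
      · rw [h, sub_self]
        exact S14_zero (by norm_num)
      · rw [h]
        exact S14_step e u
    refine hA (f i) (hfA i) (f j) (hfA j) (hfinj i j hij) ?_
    have h1 := S3_box_add (S3_box_add (S14_neg hu.1) (S14_neg huw)) hw.1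
    have h2 : -(u - f i) + -(w - u) + (w - f j) = f i - f j := by abel
    rw [h2] at h1
    exact S3_box_mono (by omega) h1
  have h1 := Pr_indep_fin c (fun i => inc (gT L W n) (S14_D L W n R (f i))) hdis
    (fun i => FarPt L W n R (f i))
  have h2 : Pr c (fun l => ∀ v ∈ A, FarPt L W n R v l) ≤
      Pr c (fun l => ∀ i, FarPt L W n R (f i) (l.filter (inc (gT L W n) (S14_D L W n R (f i))))) :=
    Pr_mono hc0 fun l hl i => (S14_local hR (f i) l).2 (hl (f i) (hfA i))
  refine h2.trans ?_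
  rw [h1]
  calc ∏ i, Pr (restr c (inc (gT L W n) (S14_D L W n R (f i)))) (FarPt L W n R (f i))
      ≤ ∏ _i : Fin A.card, (Real.exp (2 * (n + 1) * t) *
          P L W n t (Exit L W n R (pt L W n 0 0))) := by
        refine Finset.prod_le_prod (fun i _ => ?_) fun i _ => ?_
        · refine Pr_nonneg (fun a => ?_) _
          unfold restr
          split_ifs
          · exact ht
          · exact le_rfl
        · rw [← Pr_filter]
          refine le_trans (Pr_mono hc0 fun l hl => (S14_local hR (f i) l).1 hl) ?_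
          exact P_Far_le ht (by omega) (f i)
    _ = _ := by rw [Finset.prod_const, Finset.card_univ, Fintype.card_fin]

end

end Pool.Agent.ThinTori.Dim

end

/-! Correlation length, row S14c: the trace of a long cycle -/

section

open Finset

namespace Pool.Agent.ThinTori.Dim

section

private theorem S14_iter {V α : Type*} (g : α → Equiv.Perm V) (l : List α) (x : V) (k : ℕ)
    (hk : k ≤ l.length) :
    (T g l)^[k] (0, x) = (k, ((l.take k).map g).reverse.prod x) := by
  induction k with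
  | zero => simp
  | succ k ih =>
    rw [Function.iterate_succ_apply', ih (by omega)]
    have h : l[k]? = some l[k] := List.getElem?_eq_getElem (by omega)
    have h2 : l.take (k + 1) = l.take k ++ [l[k]] := by
      rw [List.take_add_one, h]
      rfl
    rw [h2, List.map_append, List.reverse_append, List.prod_append]
    simp only [T, h, List.map_cons, List.map_nil, List.reverse_singleton, List.prod_singleton,
      Equiv.Perm.mul_apply]

private theorem S14_period {V α : Type*} (g : α → Equiv.Perm V) (l : List α) (x : V) :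
    (T g l)^[l.length + 1] (0, x) = (0, (l.map g).reverse.prod x) := by
  rw [Function.iterate_succ_apply', S14_iter g l x _ le_rfl]
  simp [T]

private theorem S14_periods {V α : Type*} (g : α → Equiv.Perm V) (l : List α) (x : V) (j : ℕ) :
    (T g l)^[j * (l.length + 1)] (0, x) = (0, ((l.map g).reverse.prod ^ j) x) := by
  induction j with
  | zero => simp
  | succ j ih =>
    rw [Nat.succ_mul, Nat.add_comm, Function.iterate_add_apply, ih, S14_period, pow_succ',
      Equiv.Perm.mul_apply]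

private theorem S14_rev {L W n : ℕ} (l : List (Ed L W n)) :
    (l.map (gT L W n)).reverse.prod = ((l.map (gT L W n)).prod)⁻¹ := by
  rw [List.prod_inv_reverse, List.map_map]
  have : (fun x : Equiv.Perm (Vx L W n) => x⁻¹) ∘ gT L W n = gT L W n := by
    funext e
    simp [gT]
  rw [this]

variable {L W n : ℕ} [NeZero L] [NeZero W]

/-- The orbit of `(0, x)` is periodic. -/
theorem S14_back (l : List (Ed L W n)) (x : Vx L W n) :
    ∃ p : ℕ, 0 < p ∧ ∀ i, (T (gT L W n) l)^[i + p] (0, x) = (T (gT L W n) l)^[i] (0, x) := by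
  classical
  set σ : Equiv.Perm (Vx L W n) := (l.map (gT L W n)).reverse.prod with hσ
  refine ⟨orderOf σ * (l.length + 1), Nat.mul_pos (orderOf_pos σ) (Nat.succ_pos _), fun i => ?_⟩
  rw [Function.iterate_add_apply, S14_periods, ← hσ, pow_orderOf_eq_one, Equiv.Perm.one_apply]

/-- The vertices visited by the orbit of `x`. -/
def Trace (l : List (Ed L W n)) (x v : Vx L W n) : Prop :=
  ∃ j, ((T (gT L W n) l)^[j] (0, x)).2 = v

theorem S14_same {l : List (Ed L W n)} {x y : Vx L W n}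
    (hy : (l.map (gT L W n)).prod.SameCycle x y) : Trace l x y := by
  have h1 : ((l.map (gT L W n)).prod⁻¹).SameCycle x y := Equiv.Perm.sameCycle_inv.2 hy
  obtain ⟨i, hi⟩ := h1.exists_nat_pow_eq
  refine ⟨i * (l.length + 1), ?_⟩
  rw [S14_periods, S14_rev]
  exact hi

/-- Every visited vertex is far if another visited vertex is outside of the box around it. -/
theorem S14_far {R : ℤ} (hR : 1 ≤ R) {l : List (Ed L W n)} {x v w : Vx L W n} (hv : Trace l x v)
    (hw : Trace l x w) (hvw : w - v ∉ box L W n R) : FarPt L W n R v l := by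
  classical
  set s : ℕ → ℕ × Vx L W n := fun i => (T (gT L W n) l)^[i] (0, x) with hs
  obtain ⟨p, hp, hper⟩ := S14_back l x
  obtain ⟨j1, hj1⟩ := hv
  obtain ⟨j2, hj2⟩ := hw
  have hper' : ∀ m i, s (i + m * p) = s i := by
    intro m
    induction m with
    | zero => intro i; simp
    | succ m ih =>
      intro i
      rw [Nat.succ_mul, ← Nat.add_assoc]
      exact (hper (i + m * p)).trans (ih i)
  -- an index beyond `j1` with a position outside
  have hex : ∃ i, (s (j1 + i)).2 - v ∉ box L W n R := by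
    refine ⟨j2 + j1 * p - j1, ?_⟩
    have h1 : j1 ≤ j2 + j1 * p := by nlinarith
    rw [Nat.add_sub_cancel' h1, hper']
    have h2 : (s j2).2 = w := hj2
    rw [h2]
    exact hvw
  set N := Nat.find hex with hN
  have hN1 : (s (j1 + N)).2 - v ∉ box L W n R := Nat.find_spec hex
  have hN2 : ∀ i < N, (s (j1 + i)).2 - v ∈ box L W n R := fun i hi => by
    have := Nat.find_min hex hi
    rwa [not_not] at this
  have hs1 : (s j1).2 = v := hj1
  have hN0 : 0 < N := by
    rcases Nat.eq_zero_or_pos N with h0 | h0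
    · rw [h0, Nat.add_zero, hs1, sub_self] at hN1
      exact absurd (S14_zero hR) hN1
    · exact h0
  -- the last visit of `v`
  set F := (Finset.range N).filter fun i => (s (j1 + i)).2 = v with hF
  have hne : F.Nonempty := ⟨0, Finset.mem_filter.2 ⟨Finset.mem_range.2 hN0, hs1⟩⟩
  set i0 := F.max' hne with hi0
  have hi0F := Finset.max'_mem F hne
  rw [← hi0, hF, Finset.mem_filter, Finset.mem_range] at hi0F
  obtain ⟨h1, h2⟩ := hi0F
  have hlast : ∀ j, i0 < j → j < N → (s (j1 + j)).2 ≠ v := by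
    intro j hj hjN hjv
    have := Finset.le_max' F j (Finset.mem_filter.2 ⟨Finset.mem_range.2 hjN, hjv⟩)
    omega
  have hpair : (((s (j1 + i0)).1, v) : ℕ × Vx L W n) = s (j1 + i0) := Prod.ext rfl h2.symm
  have hadd : ∀ i, (T (gT L W n) l)^[i] (s (j1 + i0)) = s (j1 + i0 + i) := by
    intro i
    rw [hs]
    simp only
    rw [← Function.iterate_add_apply, Nat.add_comm]
  refine ⟨(s (j1 + N)).2, hN1, (s (j1 + i0)).1, D1_time_le (Nat.zero_le _) _, N - 1 - i0, ?_, ?_⟩
  · rw [hpair, hadd]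
    have : j1 + i0 + (N - 1 - i0 + 1) = j1 + N := by omega
    rw [this]
  · intro i hi1 hi2
    rw [hpair, hadd]
    refine ⟨?_, ?_⟩
    · have := hN2 (i0 + i) (by omega)
      rwa [← Nat.add_assoc] at this
    · have := hlast (i0 + i) (by omega) (by omega)
      rwa [← Nat.add_assoc] at this

/-- The trace of a long cycle contains a walk which meets many separated far vertices. -/
theorem S14_trace (R : ℕ) (hR : 1 ≤ R) (k : ℕ) {l : List (Ed L W n)} {x : Vx L W n}
    (h : (4 * R) ^ (n + 1) * (k + 1) ≤ cyc L W n x l) :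
    ∃ w : ℕ → Vx L W n, w 0 = x ∧
      (∀ i < 2 * k, w (i + 1) - w i ∈ box L W n (4 * R)) ∧
      ((Finset.range (2 * k + 1)).image w).card = k + 1 ∧
      (∀ u ∈ (Finset.range (2 * k + 1)).image w, ∀ v ∈ (Finset.range (2 * k + 1)).image w, u ≠ v →
        u - v ∉ box L W n (2 * R)) ∧
      ∀ v ∈ (Finset.range (2 * k + 1)).image w, FarPt L W n R v l := by
  classical
  set S : Finset (Vx L W n) := Finset.univ.filter fun v => Trace l x v with hS
  have hSx : x ∈ S := Finset.mem_filter.2 ⟨Finset.mem_univ _, 0, rfl⟩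
  have hcyc : cyc L W n x l ≤ S.card := by
    unfold cyc
    refine Finset.card_le_card fun y hy => ?_
    exact Finset.mem_filter.2 ⟨Finset.mem_univ _, S14_same (Finset.mem_filter.1 hy).2⟩
  have hbox : ∀ (M : ℕ), 1 ≤ M → ∀ v : Vx L W n,
      (Finset.univ.filter fun w : Vx L W n => w - v ∈ box L W n M).card ≤ (2 * M) ^ (n + 1) := by
    intro M hM v
    have h1 := S3_card_box (L := L) (W := W) (n := n) (M : ℤ) (by exact_mod_cast hM)
    have h2 : (Finset.univ.filter fun w : Vx L W n => w - v ∈ box L W n M).card ≤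
        (box L W n M).ncard := by
      rw [Set.ncard_eq_toFinset_card']
      refine Finset.card_le_card_of_injOn (fun w => w - v) (fun w hw => ?_) ?_
      · rw [Finset.mem_coe, Set.mem_toFinset]
        exact (Finset.mem_filter.1 hw).2
      · intro a _ b _ hab
        exact sub_left_injective hab
    have h3 : (((2 * M) ^ (n + 1) : ℕ) : ℝ) = (2 * ((M : ℤ) : ℝ)) ^ (n + 1) := by push_cast; ring
    rw [← h3] at h1
    exact h2.trans (by exact_mod_cast h1)
  obtain ⟨A, hAS, hxA, hsep, hcov⟩ := S14_greedy (fun a b : Vx L W n => a - b ∈ box L W n (2 * R))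
    (fun a b hab => by
      have := S14_neg hab
      rwa [neg_sub] at this) S x hSx
  have hcov' : ∀ s ∈ S, ∃ a ∈ A, s - a ∈ box L W n (2 * R) := by
    intro s hs
    obtain ⟨a, ha, h1 | h1⟩ := hcov s hs
    · refine ⟨a, ha, ?_⟩
      rw [h1, sub_self]
      exact S14_zero (by omega)
    · exact ⟨a, ha, h1⟩
  -- the number of points of `A`
  have hcard : k + 1 ≤ A.card := by
    have h1 : S.card ≤ A.card * (4 * R) ^ (n + 1) := by
      have h2 : S ⊆ A.biUnion fun a => Finset.univ.filter fun w : Vx L W n =>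
          w - a ∈ box L W n ((2 * R : ℕ) : ℤ) := by
        intro s hs
        obtain ⟨a, ha, h3⟩ := hcov' s hs
        refine Finset.mem_biUnion.2 ⟨a, ha, Finset.mem_filter.2 ⟨Finset.mem_univ _, ?_⟩⟩
        push_cast
        exact h3
      refine (Finset.card_le_card h2).trans (Finset.card_biUnion_le_card_mul _ _ _ fun a _ => ?_)
      have := hbox (2 * R) (by omega) a
      rwa [show 2 * (2 * R) = 4 * R by ring] at this
    have h2 : (4 * R) ^ (n + 1) * (k + 1) ≤ (4 * R) ^ (n + 1) * A.card := by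
      rw [Nat.mul_comm _ A.card]
      exact h.trans (hcyc.trans h1)
    exact Nat.le_of_mul_le_mul_left h2 (by positivity)
  -- connectedness
  have hconn : ∀ B ⊆ A, x ∈ B → B ≠ A → ∃ b ∈ B, ∃ a ∈ A \ B, a - b ∈ box L W n (4 * R) := by
    intro B hBA hxB hBne
    obtain ⟨a0, ha0A, ha0B⟩ : ∃ a, a ∈ A ∧ a ∉ B := by
      by_contra hcon
      push Not at hcon
      exact hBne (Finset.Subset.antisymm hBA hcon)
    obtain ⟨j0, hj0⟩ := (Finset.mem_filter.1 (hAS ha0A)).2
    have hex : ∃ j, ∃ a ∈ A \ B, ((T (gT L W n) l)^[j] (0, x)).2 - a ∈ box L W n (2 * R) := by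
      refine ⟨j0, a0, Finset.mem_sdiff.2 ⟨ha0A, ha0B⟩, ?_⟩
      rw [hj0, sub_self]
      exact S14_zero (by omega)
    obtain ⟨a, ha, haj⟩ := Nat.find_spec hex
    rcases Nat.eq_zero_or_pos (Nat.find hex) with h0 | h0
    · refine ⟨x, hxB, a, ha, ?_⟩
      rw [h0] at haj
      have h1 := S14_neg haj
      rw [neg_sub] at h1
      exact S3_box_mono (by omega) h1
    · obtain ⟨i, hi⟩ : ∃ i, Nat.find hex = i + 1 := ⟨Nat.find hex - 1, by omega⟩
      have hnot := Nat.find_min hex (show i < Nat.find hex by omega)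
      have hiS : ((T (gT L W n) l)^[i] (0, x)).2 ∈ S :=
        Finset.mem_filter.2 ⟨Finset.mem_univ _, i, rfl⟩
      obtain ⟨b, hb, hbi⟩ := hcov' _ hiS
      have hbB : b ∈ B := by
        by_contra hcon
        exact hnot ⟨b, Finset.mem_sdiff.2 ⟨hb, hcon⟩, hbi⟩
      refine ⟨b, hbB, a, ha, ?_⟩
      rw [hi, Function.iterate_succ_apply'] at haj
      have h1 := S14_T l ((T (gT L W n) l)^[i] (0, x))
      set u := (T (gT L W n) l)^[i] (0, x) with hu
      have h2 := S3_box_add (S3_box_add (S14_neg haj) h1) hbi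
      have h3 : -((T (gT L W n) l u).2 - a) + ((T (gT L W n) l u).2 - u.2) + (u.2 - b) = a - b := by
        abel
      rw [h3] at h2
      exact S3_box_mono (by omega) h2
  obtain ⟨w, hw0, hwadj, hwA, hwcard⟩ := S14_walk
    (fun b a : Vx L W n => a - b ∈ box L W n (4 * R)) (fun a b hab => by
      have := S14_neg hab
      rwa [neg_sub] at this) A x hxA hconn k hcard
  refine ⟨w, hw0, hwadj, hwcard, fun u hu v hv huv => hsep u (hwA hu) v (hwA hv) huv,
    fun v hv => ?_⟩
  have hvS : v ∈ S := hAS (hwA hv)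
  -- some visited vertex is outside of the box around `v`
  by_contra hnf
  have hall : S ⊆ Finset.univ.filter fun w : Vx L W n => w - v ∈ box L W n (R : ℤ) := by
    intro w hw
    refine Finset.mem_filter.2 ⟨Finset.mem_univ _, ?_⟩
    by_contra hcon
    exact hnf (S14_far (by exact_mod_cast hR) (Finset.mem_filter.1 hvS).2
      (Finset.mem_filter.1 hw).2 hcon)
  have h1 := (Finset.card_le_card hall).trans (hbox R hR v)
  have h2 : (2 * R) ^ (n + 1) < (4 * R) ^ (n + 1) := Nat.pow_lt_pow_left (by omega) (by omega)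
  have h3 : (4 * R) ^ (n + 1) ≤ (4 * R) ^ (n + 1) * (k + 1) := Nat.le_mul_of_pos_right _ (by omega)
  omega

end

end Pool.Agent.ThinTori.Dim

end

/-! Correlation length, row S14: exponential tail of the length of a cycle -/

section

open Finset

namespace Pool.Agent.ThinTori.Dim

section

variable {L W n : ℕ} [NeZero L] [NeZero W] {t : ℝ}

/-- The positions of the walk with steps `f` from `x`. -/
private def S14_pos {m : ℕ} (x : Vx L W n) (f : Fin m → Vx L W n) (i : ℕ) : Vx L W n :=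
  x + ∑ j ∈ Finset.range i, if h : j < m then f ⟨j, h⟩ else 0

/-- The union bound over the walks. -/
theorem S14_union (ht : 0 ≤ t) (R : ℕ) (hR : 2 ≤ R) (k : ℕ) (x : Vx L W n) :
    P L W n t (fun l => (4 * R) ^ (n + 1) * (k + 1) ≤ cyc L W n x l) ≤
      ((8 * (R : ℝ)) ^ (n + 1)) ^ (2 * k) *
        (Real.exp (2 * (n + 1) * t) * P L W n t (Exit L W n R (pt L W n 0 0))) ^ (k + 1) := by
  classical
  have hc0 : ∀ a : Ed L W n, (0 : ℝ) ≤ (fun _ : Ed L W n => t) a := fun _ => ht
  set q : ℝ := Real.exp (2 * (n + 1) * t) * P L W n t (Exit L W n R (pt L W n 0 0)) with hq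
  have hq0 : 0 ≤ q := mul_nonneg (Real.exp_pos _).le (Pr_nonneg hc0 _)
  set Δ : Finset (Vx L W n) := (box L W n (4 * R)).toFinset with hΔ
  set F : Finset (Fin (2 * k) → Vx L W n) := Fintype.piFinset fun _ => Δ with hF
  set I : (Fin (2 * k) → Vx L W n) → Finset (Vx L W n) := fun f =>
    (Finset.range (2 * k + 1)).image (S14_pos x f) with hI
  set G : (Fin (2 * k) → Vx L W n) → List (Ed L W n) → Prop := fun f l =>
    (I f).card = k + 1 ∧ (∀ u ∈ I f, ∀ v ∈ I f, u ≠ v → u - v ∉ box L W n (2 * R)) ∧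
      ∀ v ∈ I f, FarPt L W n R v l with hG
  have hincl : ∀ l, (4 * R) ^ (n + 1) * (k + 1) ≤ cyc L W n x l → ∃ f ∈ F, G f l := by
    intro l hl
    obtain ⟨w, hw0, hstep, hcard, hsep, hfar⟩ := S14_trace R (by omega) k hl
    set f : Fin (2 * k) → Vx L W n := fun i => w (i + 1) - w i with hf
    have hpos : ∀ i, i ≤ 2 * k → S14_pos x f i = w i := by
      intro i
      induction i with
      | zero =>
        intro _
        simp [S14_pos, hw0]
      | succ i ih =>
        intro hi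
        have h1 := ih (by omega)
        unfold S14_pos at h1 ⊢
        rw [Finset.sum_range_succ, ← add_assoc, h1, dif_pos (by omega : i < 2 * k), hf]
        simp
    have hIf : I f = (Finset.range (2 * k + 1)).image w := by
      rw [hI]
      simp only
      refine Finset.image_congr fun i hi => ?_
      exact hpos i (by simpa [Nat.lt_succ_iff] using hi)
    refine ⟨f, ?_, ?_⟩
    · rw [hF, Fintype.mem_piFinset]
      intro i
      rw [hΔ, Set.mem_toFinset]
      exact hstep i i.2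
    · rw [hG]
      simp only
      rw [hIf]
      exact ⟨hcard, hsep, hfar⟩
  have hone : ∀ f, Pr (fun _ : Ed L W n => t) (G f) ≤ q ^ (k + 1) := by
    intro f
    by_cases h : (I f).card = k + 1 ∧ ∀ u ∈ I f, ∀ v ∈ I f, u ≠ v → u - v ∉ box L W n (2 * R)
    · have h1 := P_Far_all (n := n) ht (R := (R : ℤ)) (by exact_mod_cast hR) (I f) h.2
      rw [h.1] at h1
      exact (Pr_mono hc0 fun l hl => hl.2.2).trans h1
    · have h1 : Pr (fun _ : Ed L W n => t) (G f) ≤ Pr (fun _ : Ed L W n => t) (fun _ => False) :=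
        Pr_mono hc0 fun l hl => h ⟨hl.1, hl.2.1⟩
      have h2 : Pr (fun _ : Ed L W n => t) (fun _ => False) = 0 := by
        unfold Pr Z wordSum
        simp
      rw [h2] at h1
      exact h1.trans (by positivity)
  have hcardF : (F.card : ℝ) ≤ ((8 * (R : ℝ)) ^ (n + 1)) ^ (2 * k) := by
    rw [hF, Fintype.card_piFinset, Finset.prod_const, Finset.card_univ, Fintype.card_fin]
    push_cast
    refine pow_le_pow_left₀ (Nat.cast_nonneg _) ?_ _
    have h1 := S3_card_box (L := L) (W := W) (n := n) (4 * (R : ℤ)) (by omega)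
    rw [Set.ncard_eq_toFinset_card', ← hΔ] at h1
    push_cast at h1
    rwa [show (2 : ℝ) * (4 * (R : ℝ)) = 8 * (R : ℝ) by ring] at h1
  calc P L W n t (fun l => (4 * R) ^ (n + 1) * (k + 1) ≤ cyc L W n x l)
      ≤ Pr (fun _ : Ed L W n => t) (fun l => ∃ f ∈ F, G f l) := Pr_mono hc0 hincl
    _ ≤ ∑ f ∈ F, Pr (fun _ : Ed L W n => t) (G f) := Pr_exists_le hc0 F G
    _ ≤ ∑ _f ∈ F, q ^ (k + 1) := Finset.sum_le_sum fun f _ => hone f
    _ = F.card * q ^ (k + 1) := by rw [Finset.sum_const, nsmul_eq_mul]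
    _ ≤ ((8 * (R : ℝ)) ^ (n + 1)) ^ (2 * k) * q ^ (k + 1) :=
        mul_le_mul_of_nonneg_right hcardF (by positivity)

/-- The exponential tail of the length of a cycle beyond the correlation length. -/
theorem volume_tail (n : ℕ) (t : ℝ) (ht : 0 ≤ t) (k : ℕ) (hk : xi n t = k) :
    ∃ K : ℕ, 1 ≤ K ∧ ∀ (N : ℕ) [NeZero N] (x : Vx N N n) (s : ℕ), 1 ≤ s →
      P N N n t (fun l => K * s ≤ cyc N N n x l) ≤ (1 / 2) ^ s := by
  have hk1 : 1 ≤ k := (xi_crit n t k hk).1
  have hk0 : (0 : ℝ) < k := by exact_mod_cast hk1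
  set r : ℝ := (2 : ℝ) ^ (-(1 / (2 * (k : ℝ)))) with hr
  have hr0 : 0 < r := by positivity
  have hr1 : r < 1 := by
    rw [hr]
    exact Real.rpow_lt_one_of_one_lt_of_neg (by norm_num) (by
      rw [neg_lt_zero]; positivity)
  -- a large scale
  have hlim : Filter.Tendsto (fun R : ℕ => (8 ^ (n + 1)) ^ 2 * (2 * Real.exp (2 * (n + 1) * t)) *
      ((R : ℝ) ^ (2 * (n + 1)) * r ^ R)) Filter.atTop (nhds 0) := by
    have h1 := tendsto_pow_const_mul_const_pow_of_abs_lt_one (2 * (n + 1)) (r := r)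
      (by rw [abs_of_pos hr0]; exact hr1)
    have h2 := h1.const_mul ((8 ^ (n + 1)) ^ 2 * (2 * Real.exp (2 * (n + 1) * t)))
    rwa [mul_zero] at h2
  have hev := hlim.eventually (gt_mem_nhds (show (0 : ℝ) < 1 / 2 by norm_num))
  obtain ⟨R, hR2, hR⟩ := ((Filter.eventually_ge_atTop 2).and hev).exists
  refine ⟨(4 * R) ^ (n + 1), Nat.one_le_pow _ _ (by omega), fun N _ x s hs => ?_⟩
  obtain ⟨m, rfl⟩ : ∃ m, s = m + 1 := ⟨s - 1, by omega⟩
  refine (S14_union ht R hR2 m x).trans ?_
  have hup := upper n t ht k hk N R (by omega)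
  have hpow : (2 : ℝ) ^ (-((R : ℝ) / (2 * (k : ℝ)))) = r ^ R := by
    rw [hr, ← Real.rpow_natCast, ← Real.rpow_mul (by norm_num)]
    congr 1
    ring
  rw [hpow] at hup
  have hc0 : ∀ a : Ed N N n, (0 : ℝ) ≤ (fun _ : Ed N N n => t) a := fun _ => ht
  set p := P N N n t (Exit N N n R (pt N N n 0 0)) with hp
  have hp0 : 0 ≤ p := Pr_nonneg hc0 _
  set B : ℝ := (8 * (R : ℝ)) ^ (n + 1) with hB
  have hR1 : (1 : ℝ) ≤ R := by exact_mod_cast (by omega : 1 ≤ R)
  have hB1 : 1 ≤ B := one_le_pow₀ (by linarith)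
  have hq0 : 0 ≤ Real.exp (2 * (n + 1) * t) * p := mul_nonneg (Real.exp_pos _).le hp0
  have hkey : B ^ 2 * (Real.exp (2 * (n + 1) * t) * p) ≤ 1 / 2 := by
    calc B ^ 2 * (Real.exp (2 * (n + 1) * t) * p)
        ≤ B ^ 2 * (Real.exp (2 * (n + 1) * t) * (2 * r ^ R)) := by gcongr
      _ = (8 ^ (n + 1)) ^ 2 * (2 * Real.exp (2 * (n + 1) * t)) *
          ((R : ℝ) ^ (2 * (n + 1)) * r ^ R) := by
          rw [hB, mul_pow]
          ring
      _ ≤ 1 / 2 := hR.le
  calc B ^ (2 * m) * (Real.exp (2 * (n + 1) * t) * p) ^ (m + 1)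
      ≤ B ^ (2 * (m + 1)) * (Real.exp (2 * (n + 1) * t) * p) ^ (m + 1) := by
        refine mul_le_mul_of_nonneg_right ?_ (by positivity)
        exact pow_le_pow_right₀ hB1 (by omega)
    _ = (B ^ 2 * (Real.exp (2 * (n + 1) * t) * p)) ^ (m + 1) := by
        rw [pow_mul, ← mul_pow]
    _ ≤ (1 / 2) ^ (m + 1) := pow_le_pow_left₀ (by positivity) hkey _

/-- All cycles are of logarithmic length beyond the correlation length. -/
theorem all_log (n : ℕ) (t : ℝ) (ht : 0 ≤ t) (k : ℕ) (hk : xi n t = k) :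
    ∃ K : ℝ, 0 < K ∧ ∀ (N : ℕ) [NeZero N], 3 ≤ N →
      P N N n t (fun l => ∃ x : Vx N N n, K * Real.log N < (cyc N N n x l : ℝ)) ≤ 1 / N := by
  classical
  obtain ⟨K, hK1, hK⟩ := volume_tail n t ht k hk
  have hl2 : 0 < Real.log 2 := Real.log_pos (by norm_num)
  have hK1' : (1 : ℝ) ≤ K := by exact_mod_cast hK1
  refine ⟨K * (((n : ℝ) + 2) / Real.log 2 + 1), by positivity, fun N _ hN => ?_⟩
  have hc0 : ∀ a : Ed N N n, (0 : ℝ) ≤ (fun _ : Ed N N n => t) a := fun _ => ht
  have hN' : (3 : ℝ) ≤ N := by exact_mod_cast hN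
  have hN0 : (0 : ℝ) < N := by linarith
  have hlog : 1 ≤ Real.log N := by
    rw [Real.le_log_iff_exp_le hN0]
    have := Real.exp_one_lt_d9
    linarith
  set z : ℝ := ((n : ℝ) + 2) * Real.log N / Real.log 2 with hz
  have hz0 : 0 < z := by positivity
  set s : ℕ := ⌈z⌉₊ with hs
  have hs1 : 1 ≤ s := Nat.one_le_ceil_iff.mpr hz0
  have hzs : z ≤ s := Nat.le_ceil z
  have hsz : (s : ℝ) < z + 1 := Nat.ceil_lt_add_one hz0.le
  have hincl : ∀ l, (∃ x : Vx N N n, K * (((n : ℝ) + 2) / Real.log 2 + 1) * Real.log N <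
      (cyc N N n x l : ℝ)) → ∃ x ∈ (Finset.univ : Finset (Vx N N n)), K * s ≤ cyc N N n x l := by
    rintro l ⟨x, hx⟩
    refine ⟨x, Finset.mem_univ _, ?_⟩
    have h1 : (K : ℝ) * s ≤ K * (((n : ℝ) + 2) / Real.log 2 + 1) * Real.log N := by
      rw [mul_assoc]
      refine mul_le_mul_of_nonneg_left ?_ (by linarith)
      have h2 : (((n : ℝ) + 2) / Real.log 2 + 1) * Real.log N = z + Real.log N := by
        rw [hz]; ring
      rw [h2]
      linarith
    have h2 : ((K * s : ℕ) : ℝ) ≤ (cyc N N n x l : ℝ) := by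
      push_cast
      linarith
    exact_mod_cast h2
  have hpow : (1 / 2 : ℝ) ^ s ≤ 1 / (N : ℝ) ^ (n + 2) := by
    have h1 : (N : ℝ) ^ (n + 2) ≤ (2 : ℝ) ^ s := by
      rw [← Real.log_le_log_iff (by positivity) (by positivity), Real.log_pow, Real.log_pow]
      have h2 : z * Real.log 2 = ((n : ℝ) + 2) * Real.log N := by
        rw [hz]
        field_simp
      push_cast
      rw [← h2]
      exact mul_le_mul_of_nonneg_right hzs hl2.le
    rw [one_div, inv_pow, one_div]
    exact inv_anti₀ (by positivity) h1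
  calc P N N n t (fun l => ∃ x : Vx N N n, K * (((n : ℝ) + 2) / Real.log 2 + 1) * Real.log N <
        (cyc N N n x l : ℝ))
      ≤ Pr (fun _ : Ed N N n => t) (fun l => ∃ x ∈ (Finset.univ : Finset (Vx N N n)),
          K * s ≤ cyc N N n x l) := Pr_mono hc0 hincl
    _ ≤ ∑ x : Vx N N n, Pr (fun _ : Ed N N n => t) (fun l => K * s ≤ cyc N N n x l) :=
        Pr_exists_le hc0 _ _
    _ ≤ ∑ _x : Vx N N n, (1 / 2 : ℝ) ^ s := Finset.sum_le_sum fun x _ => hK N x s hs1
    _ = (N : ℝ) ^ (n + 1) * (1 / 2 : ℝ) ^ s := by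
        rw [Finset.sum_const, Finset.card_univ, nsmul_eq_mul, Fintype.card_prod, ZMod.card,
          Fintype.card_fun, ZMod.card, Fintype.card_fin]
        push_cast
        ring
    _ ≤ (N : ℝ) ^ (n + 1) * (1 / (N : ℝ) ^ (n + 2)) :=
        mul_le_mul_of_nonneg_left hpow (by positivity)
    _ = 1 / N := by
        rw [pow_succ (N : ℝ) (n + 1)]
        field_simp

end

end Pool.Agent.ThinTori.Dim

end
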