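import Pool.Agent.Lib.MP_6c3d62_pr.Tube4
import Pool.Agent.Lib.MP_6c3d62_pr.Defs

/-! Stirring on the torus `(ℤ/N) ^ (n + 1)`: correlation length, part 2. -/

set_option autoImplicit false

/-! Correlation length, row S14x: exponential tail of the length of a cycle, with explicit constants -/

section

open Finset

namespace Pool.Agent.ThinTori.Dim

section

/-- The volume scale: `(32768 d ^ 2 (1 + t) k log₂ (2 k)) ^ d`, `d = n + 1`. -/
noncomputable def volScale (n : ℕ) (t : ℝ) (k : ℕ) : ℝ :=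
  (32768 * ((n : ℝ) + 1) ^ 2 * (1 + t) * k * Real.logb 2 (2 * k)) ^ (n + 1)

/-- The choice of the scale. -/
private theorem S14x_scale (n : ℕ) (t : ℝ) (ht : 0 ≤ t) (k : ℕ) (hk : 1 ≤ k) (R : ℕ)
    (hR : 4096 * ((n : ℝ) + 1) ^ 2 * (1 + t) * k * Real.logb 2 (2 * k) ≤ R) :
    ((8 * (R : ℝ)) ^ (n + 1)) ^ 2 * (Real.exp (2 * (n + 1) * t) *
      (2 * (2 : ℝ) ^ (-((R : ℝ) / (2 * (k : ℝ)))))) ≤ 1 / 2 := by
  have hk0 : (1 : ℝ) ≤ k := by exact_mod_cast hk
  have hkp : (0 : ℝ) < k := by linarith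
  have hd1 : (1 : ℝ) ≤ (n : ℝ) + 1 := by
    have : (0 : ℝ) ≤ n := Nat.cast_nonneg n
    linarith
  set d : ℝ := (n : ℝ) + 1 with hd
  have hL1 : (0.69 : ℝ) < Real.log 2 := by
    have := Real.log_two_gt_d9
    linarith
  have hL2 : Real.log 2 < (0.7 : ℝ) := by
    have := Real.log_two_lt_d9
    linarith
  set κ : ℝ := Real.logb 2 (2 * k) with hκ
  have hκ1 : 1 ≤ κ := by
    rw [hκ, Real.le_logb_iff_rpow_le (by norm_num) (by positivity), Real.rpow_one]
    linarith
  have hκlog : Real.log (2 * k) = κ * Real.log 2 := by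
    rw [hκ]
    unfold Real.logb
    field_simp
  set y : ℝ := R / k with hy
  have hRy : (R : ℝ) = k * y := by
    rw [hy]
    field_simp
  have hyl : 4096 * d ^ 2 * (1 + t) * κ ≤ y := by
    rw [hy, le_div_iff₀ hkp]
    calc 4096 * d ^ 2 * (1 + t) * κ * (k : ℝ) = 4096 * d ^ 2 * (1 + t) * (k : ℝ) * κ := by ring
      _ ≤ (R : ℝ) := hR
  have hd2 : d ≤ d ^ 2 := by nlinarith
  have ht1 : (1 : ℝ) ≤ 1 + t := by linarith
  have hy1 : 4096 * d ^ 2 ≤ y := by
    refine le_trans ?_ hyl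
    have h1 : (1 : ℝ) ≤ (1 + t) * κ := by nlinarith
    have h2 : 0 ≤ 4096 * d ^ 2 := by positivity
    calc 4096 * d ^ 2 = 4096 * d ^ 2 * 1 := by ring
      _ ≤ 4096 * d ^ 2 * ((1 + t) * κ) := mul_le_mul_of_nonneg_left h1 h2
      _ = _ := by ring
  have hy2 : 4096 * (d * κ) ≤ y := by
    refine le_trans ?_ hyl
    have h1 : d * κ ≤ d ^ 2 * ((1 + t) * κ) := by
      refine mul_le_mul hd2 ?_ (by linarith) (by positivity)
      nlinarith
    calc 4096 * (d * κ) ≤ 4096 * (d ^ 2 * ((1 + t) * κ)) := by linarith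
      _ = _ := by ring
  have hy3 : 4096 * (d * (1 + t)) ≤ y := by
    refine le_trans ?_ hyl
    have h1 : d * (1 + t) ≤ d ^ 2 * ((1 + t) * κ) := by
      refine mul_le_mul hd2 ?_ (by linarith) (by positivity)
      nlinarith
    calc 4096 * (d * (1 + t)) ≤ 4096 * (d ^ 2 * ((1 + t) * κ)) := by linarith
      _ = _ := by ring
  have hyp : 0 < y := by
    have : 0 < 4096 * d ^ 2 := by positivity
    linarith
  have hsq : 64 * d ≤ Real.sqrt y := by
    refine Real.le_sqrt_of_sq_le ?_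
    calc (64 * d) ^ 2 = 4096 * d ^ 2 := by ring
      _ ≤ y := hy1
  have hss : Real.sqrt y * Real.sqrt y = y := Real.mul_self_sqrt hyp.le
  have hsp : 0 < Real.sqrt y := Real.sqrt_pos.2 hyp
  have hlogy : Real.log y ≤ 2 * Real.sqrt y := by
    have h2 : Real.log y = 2 * Real.log (Real.sqrt y) := by
      rw [Real.log_sqrt hyp.le]
      ring
    have h3 := Real.log_le_sub_one_of_pos hsp
    rw [h2]
    linarith
  have hRp : (0 : ℝ) < R := by rw [hRy]; positivity
  have hlogR : Real.log (8 * R) = 2 * Real.log 2 + κ * Real.log 2 + Real.log y := by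
    rw [← hκlog, hRy, show 8 * ((k : ℝ) * y) = 4 * (2 * k) * y by ring,
      Real.log_mul (by positivity) (by positivity), Real.log_mul (by norm_num) (by positivity),
      show (4 : ℝ) = 2 ^ 2 by norm_num, Real.log_pow]
    push_cast
    ring
  -- the logarithm of the left hand side
  have hpos : 0 < ((8 * (R : ℝ)) ^ (n + 1)) ^ 2 * (Real.exp (2 * d * t) *
      (2 * (2 : ℝ) ^ (-((R : ℝ) / (2 * (k : ℝ)))))) := by positivity
  have hlog : Real.log (((8 * (R : ℝ)) ^ (n + 1)) ^ 2 * (Real.exp (2 * d * t) *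
      (2 * (2 : ℝ) ^ (-((R : ℝ) / (2 * (k : ℝ))))))) =
      2 * d * Real.log (8 * R) + (2 * d * t + (Real.log 2 - y / 2 * Real.log 2)) := by
    rw [Real.log_mul (by positivity) (by positivity), Real.log_mul (by positivity) (by positivity),
      Real.log_mul (by norm_num) (by positivity), Real.log_exp, Real.log_rpow (by norm_num),
      ← pow_mul, Real.log_pow]
    push_cast
    have : (R : ℝ) / (2 * (k : ℝ)) = y / 2 := by
      rw [hy]
      field_simp
    rw [this, ← hd]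
    ring
  rw [← Real.log_le_log_iff hpos (by norm_num), hlog, hlogR,
    show (1 / 2 : ℝ) = 2⁻¹ by norm_num, Real.log_inv]
  have h1 : 2 * d * Real.log y ≤ y / 16 := by
    calc 2 * d * Real.log y ≤ 2 * d * (2 * Real.sqrt y) :=
          mul_le_mul_of_nonneg_left hlogy (by linarith)
      _ = (64 * d) * Real.sqrt y / 16 := by ring
      _ ≤ Real.sqrt y * Real.sqrt y / 16 := by gcongr
      _ = y / 16 := by rw [hss]
  have h2 : 2 * d * (2 * Real.log 2 + κ * Real.log 2) ≤ 5 * (d * κ) := by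
    have h3 : 2 * Real.log 2 + κ * Real.log 2 ≤ 5 / 2 * κ := by nlinarith
    calc 2 * d * (2 * Real.log 2 + κ * Real.log 2) ≤ 2 * d * (5 / 2 * κ) :=
          mul_le_mul_of_nonneg_left h3 (by linarith)
      _ = 5 * (d * κ) := by ring
  have h4 : 2 * d * t + 2 * Real.log 2 ≤ 2 * (d * (1 + t)) := by nlinarith
  have h5 : 0.69 * (y / 2) ≤ y / 2 * Real.log 2 := by nlinarith
  nlinarith

/-- The exponential tail of the length of a cycle beyond the correlation length, explicit constants. -/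
theorem volume_tail_explicit (n : ℕ) (t : ℝ) (ht : 0 ≤ t) (k : ℕ) (hk : xi n t = k) (N : ℕ)
    [NeZero N] (x : Vx N N n) (s : ℕ) (hs : 1 ≤ s) :
    P N N n t (fun l => volScale n t k * s ≤ (cyc N N n x l : ℝ)) ≤ (1 / 2) ^ s := by
  have hk1 : 1 ≤ k := (xi_crit n t k hk).1
  have hk1' : (1 : ℝ) ≤ k := by exact_mod_cast hk1
  have hc0 : ∀ a : Ed N N n, (0 : ℝ) ≤ (fun _ : Ed N N n => t) a := fun _ => ht
  have hn0 : (0 : ℝ) ≤ n := Nat.cast_nonneg n
  have hκ1 : 1 ≤ Real.logb 2 (2 * (k : ℝ)) := by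
    rw [Real.le_logb_iff_rpow_le (by norm_num) (by positivity), Real.rpow_one]
    linarith
  set z : ℝ := 4096 * ((n : ℝ) + 1) ^ 2 * (1 + t) * k * Real.logb 2 (2 * k) with hz
  have hz1 : 4096 ≤ z := by
    have h1 : (1 : ℝ) ≤ ((n : ℝ) + 1) ^ 2 := one_le_pow₀ (by linarith)
    have h2 : (1 : ℝ) ≤ ((n : ℝ) + 1) ^ 2 * (1 + t) := by nlinarith
    have h3 : (1 : ℝ) ≤ ((n : ℝ) + 1) ^ 2 * (1 + t) * k := by nlinarith
    have h4 : (1 : ℝ) ≤ ((n : ℝ) + 1) ^ 2 * (1 + t) * k * Real.logb 2 (2 * k) := by nlinarith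
    rw [hz]
    calc (4096 : ℝ) = 4096 * 1 := by ring
      _ ≤ 4096 * (((n : ℝ) + 1) ^ 2 * (1 + t) * k * Real.logb 2 (2 * k)) := by linarith
      _ = _ := by ring
  set R : ℕ := ⌈z⌉₊ with hR
  have hzR : z ≤ R := Nat.le_ceil z
  have hRz : (R : ℝ) < z + 1 := Nat.ceil_lt_add_one (by linarith)
  have hR2 : 2 ≤ R := by
    have : (2 : ℝ) ≤ R := by linarith
    exact_mod_cast this
  obtain ⟨m, rfl⟩ : ∃ m, s = m + 1 := ⟨s - 1, by omega⟩
  have hincl : ∀ l, volScale n t k * ((m + 1 : ℕ) : ℝ) ≤ (cyc N N n x l : ℝ) →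
      (4 * R) ^ (n + 1) * (m + 1) ≤ cyc N N n x l := by
    intro l hl
    have h1 : ((4 * (R : ℝ)) ^ (n + 1)) ≤ volScale n t k := by
      unfold volScale
      refine pow_le_pow_left₀ (by positivity) ?_ _
      calc 4 * (R : ℝ) ≤ 4 * (2 * z) := by linarith
        _ = _ := by rw [hz]; ring
    have h2 : (4 * (R : ℝ)) ^ (n + 1) * ((m + 1 : ℕ) : ℝ) ≤ (cyc N N n x l : ℝ) :=
      (mul_le_mul_of_nonneg_right h1 (by positivity)).trans hl
    exact_mod_cast h2
  have h0 : P N N n t (fun l => volScale n t k * ((m + 1 : ℕ) : ℝ) ≤ (cyc N N n x l : ℝ)) ≤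
      P N N n t (fun l => (4 * R) ^ (n + 1) * (m + 1) ≤ cyc N N n x l) := Pr_mono hc0 hincl
  refine h0.trans ((S14_union ht R hR2 m x).trans ?_)
  have hup := upper n t ht k hk N R (by omega)
  set p := P N N n t (Exit N N n R (pt N N n 0 0)) with hp
  have hp0 : 0 ≤ p := Pr_nonneg hc0 _
  set B : ℝ := (8 * (R : ℝ)) ^ (n + 1) with hB
  have hR1 : (1 : ℝ) ≤ R := by linarith
  have hB1 : 1 ≤ B := one_le_pow₀ (by linarith)
  have hq0 : 0 ≤ Real.exp (2 * (n + 1) * t) * p := mul_nonneg (Real.exp_pos _).le hp0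
  have hkey : B ^ 2 * (Real.exp (2 * (n + 1) * t) * p) ≤ 1 / 2 := by
    refine le_trans ?_ (S14x_scale n t ht k hk1 R hzR)
    rw [← hB]
    gcongr
  calc B ^ (2 * m) * (Real.exp (2 * (n + 1) * t) * p) ^ (m + 1)
      ≤ B ^ (2 * (m + 1)) * (Real.exp (2 * (n + 1) * t) * p) ^ (m + 1) := by
        refine mul_le_mul_of_nonneg_right ?_ (by positivity)
        exact pow_le_pow_right₀ hB1 (by omega)
    _ = (B ^ 2 * (Real.exp (2 * (n + 1) * t) * p)) ^ (m + 1) := by
        rw [pow_mul, ← mul_pow]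
    _ ≤ (1 / 2) ^ (m + 1) := pow_le_pow_left₀ (by positivity) hkey _

/-- All cycles are of logarithmic length beyond the correlation length, explicit constants. -/
theorem all_log_explicit (n : ℕ) (t : ℝ) (ht : 0 ≤ t) (k : ℕ) (hk : xi n t = k) (N : ℕ) [NeZero N]
    (hN : 2 ≤ N) :
    P N N n t (fun l => ∃ x : Vx N N n,
      ((n : ℝ) + 3) * volScale n t k * Real.logb 2 N < (cyc N N n x l : ℝ)) ≤ 1 / N := by
  classical
  have hc0 : ∀ a : Ed N N n, (0 : ℝ) ≤ (fun _ : Ed N N n => t) a := fun _ => ht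
  have hk1 : 1 ≤ k := (xi_crit n t k hk).1
  have hk1' : (1 : ℝ) ≤ k := by exact_mod_cast hk1
  have hN' : (2 : ℝ) ≤ N := by exact_mod_cast hN
  have hN0 : (0 : ℝ) < N := by linarith
  have hn0 : (0 : ℝ) ≤ n := Nat.cast_nonneg n
  have hlog : 1 ≤ Real.logb 2 (N : ℝ) := by
    rw [Real.le_logb_iff_rpow_le (by norm_num) hN0, Real.rpow_one]
    exact hN'
  have hV0 : 0 ≤ volScale n t k := by
    have hκ1 : 0 ≤ Real.logb 2 (2 * (k : ℝ)) := Real.logb_nonneg (by norm_num) (by linarith)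
    unfold volScale
    positivity
  set z : ℝ := ((n : ℝ) + 2) * Real.logb 2 N with hz
  have hz0 : 0 < z := by positivity
  set s : ℕ := ⌈z⌉₊ with hs
  have hs1 : 1 ≤ s := Nat.one_le_ceil_iff.mpr hz0
  have hzs : z ≤ s := Nat.le_ceil z
  have hsz : (s : ℝ) < z + 1 := Nat.ceil_lt_add_one hz0.le
  have hincl : ∀ l, (∃ x : Vx N N n, ((n : ℝ) + 3) * volScale n t k * Real.logb 2 N <
      (cyc N N n x l : ℝ)) → ∃ x ∈ (Finset.univ : Finset (Vx N N n)),
        volScale n t k * s ≤ (cyc N N n x l : ℝ) := by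
    rintro l ⟨x, hx⟩
    refine ⟨x, Finset.mem_univ _, le_trans ?_ hx.le⟩
    have h2 : (s : ℝ) ≤ ((n : ℝ) + 3) * Real.logb 2 N := by
      have : ((n : ℝ) + 3) * Real.logb 2 N = z + Real.logb 2 N := by rw [hz]; ring
      rw [this]
      linarith
    calc volScale n t k * s ≤ volScale n t k * (((n : ℝ) + 3) * Real.logb 2 N) :=
          mul_le_mul_of_nonneg_left h2 hV0
      _ = _ := by ring
  have hpow : (1 / 2 : ℝ) ^ s ≤ 1 / (N : ℝ) ^ (n + 2) := by
    have h1 : (N : ℝ) ^ (n + 2) ≤ (2 : ℝ) ^ s := by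
      have h2 : (N : ℝ) = (2 : ℝ) ^ (Real.logb 2 (N : ℝ)) :=
        (Real.rpow_logb (by norm_num) (by norm_num) hN0).symm
      calc (N : ℝ) ^ (n + 2) = ((2 : ℝ) ^ (Real.logb 2 (N : ℝ))) ^ (n + 2) := by rw [← h2]
        _ = (2 : ℝ) ^ z := by
          rw [← Real.rpow_natCast, ← Real.rpow_mul (by norm_num), hz]
          congr 1
          push_cast
          ring
        _ ≤ (2 : ℝ) ^ (s : ℝ) := Real.rpow_le_rpow_of_exponent_le (by norm_num) hzs
        _ = (2 : ℝ) ^ s := Real.rpow_natCast 2 s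
    rw [one_div, inv_pow, one_div]
    exact inv_anti₀ (by positivity) h1
  calc P N N n t (fun l => ∃ x : Vx N N n, ((n : ℝ) + 3) * volScale n t k * Real.logb 2 N <
        (cyc N N n x l : ℝ))
      ≤ Pr (fun _ : Ed N N n => t) (fun l => ∃ x ∈ (Finset.univ : Finset (Vx N N n)),
          volScale n t k * s ≤ (cyc N N n x l : ℝ)) := Pr_mono hc0 hincl
    _ ≤ ∑ x : Vx N N n, Pr (fun _ : Ed N N n => t)
          (fun l => volScale n t k * s ≤ (cyc N N n x l : ℝ)) := Pr_exists_le hc0 _ _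
    _ ≤ ∑ _x : Vx N N n, (1 / 2 : ℝ) ^ s :=
        Finset.sum_le_sum fun x _ => volume_tail_explicit n t ht k hk N x s hs1
    _ = (N : ℝ) ^ (n + 1) * (1 / 2 : ℝ) ^ s := by
        rw [Finset.sum_const, Finset.card_univ, nsmul_eq_mul, Fintype.card_prod, ZMod.card,
          Fintype.card_fun, ZMod.card, Fintype.card_fin]
        push_cast
        ring
    _ ≤ (N : ℝ) ^ (n + 1) * (1 / (N : ℝ) ^ (n + 2)) :=
        mul_le_mul_of_nonneg_left hpow (by positivity)
    _ = 1 / N := by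
        rw [pow_succ (N : ℝ) (n + 1)]
        field_simp

end

end Pool.Agent.ThinTori.Dim

end

/-! Stirring on the torus, row A0: crossings of annuli, walks (definitions) -/

section

open Finset

namespace Pool.Agent.ThinTori

section

variable {V α : Type*}

/-- Some particle goes from `C` to the outside of `E`. -/
def Far (g : α → Equiv.Perm V) (C E : Set V) (l : List α) : Prop :=
  ∃ k ≤ l.length, ∃ u ∈ C, ∃ j, ((T g l)^[j] (k, u)).2 ∉ E

/-- Each letter of the word moves the current point, starting at the given point. -/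
def IsWalk (g : α → Equiv.Perm V) : V → List α → Prop
  | _, [] => True
  | w, a :: s => g a w ≠ w ∧ IsWalk g (g a w) s

/-- The word has a subword of `m` letters which is a walk from `w`. -/
def HasWalk (g : α → Equiv.Perm V) (m : ℕ) (w : V) (l : List α) : Prop :=
  ∃ s : List α, s.Sublist l ∧ s.length = m ∧ IsWalk g w s

end

end Pool.Agent.ThinTori

namespace Pool.Agent.ThinTori.Dim

section

/-- Some particle goes from the box of radius `R` around `z` to the outside of the box of radius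
`6 R` around `z`. -/
def Arm (N n R : ℕ) (z : Vx N N n) : List (Ed N N n) → Prop :=
  Far (gT N N n) {v | nrm (v - z) < R} {v | nrm (v - z) < 6 * R}

/-- The points `R w`, `w` an integer vector with coordinates at most `20` in absolute value. -/
noncomputable def grid (N n R : ℕ) : Finset (Vx N N n) := by
  classical
  exact ((Finset.Icc (-20 : ℤ) 20) ×ˢ (Fintype.piFinset fun _ : Fin n => Finset.Icc (-20 : ℤ) 20)).image
    fun w => pt N N n (R * w.1) (fun j => R * w.2 j)

end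

end Pool.Agent.ThinTori.Dim

end

/-! Stirring on the torus, row A1: crossings are local, shifts -/

section

open Finset

namespace Pool.Agent.ThinTori

section

variable {V α : Type*} {g : α → Equiv.Perm V}

private theorem A1_T_le (l : List α) (s : ℕ × V) : (T g l s).1 ≤ l.length := by
  simp only [T]
  rcases h : l[s.1]? with _ | a
  · exact Nat.zero_le _
  · by_contra h'
    rw [List.getElem?_eq_none (by simp only at h'; omega)] at h
    exact absurd h (by simp)

private theorem A1_iter_le (l : List α) {s : ℕ × V} (hs : s.1 ≤ l.length) (n : ℕ) :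
    ((T g l)^[n] s).1 ≤ l.length := by
  cases n with
  | zero => exact hs
  | succ n => rw [Function.iterate_succ_apply']; exact A1_T_le l _

private theorem A1_Far_iff {C E : Set V} (hCE : C ⊆ E) (l : List α) :
    Far g C E l ↔ ∃ a ∈ C, ∃ b, b ∉ E ∧ Seg g (E \ C) a b l := by
  classical
  constructor
  · rintro ⟨k, hk, u, hu, h⟩
    set n₀ := Nat.find h with hn₀
    have h1 : ((T g l)^[n₀] (k, u)).2 ∉ E := Nat.find_spec h
    have h2 : ∀ i < n₀, ((T g l)^[i] (k, u)).2 ∈ E := fun i hi => by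
      have := Nat.find_min h hi
      rwa [not_not] at this
    have h3 : 0 < n₀ := by
      rcases Nat.eq_zero_or_pos n₀ with h0 | h0
      · rw [h0] at h1
        exact absurd (hCE hu) h1
      · exact h0
    set i₀ := Nat.findGreatest (fun i => ((T g l)^[i] (k, u)).2 ∈ C) (n₀ - 1) with hi₀
    have h4 : ((T g l)^[i₀] (k, u)).2 ∈ C :=
      Nat.findGreatest_spec (P := fun i => ((T g l)^[i] (k, u)).2 ∈ C) (Nat.zero_le _) hu
    have h5 : i₀ ≤ n₀ - 1 := Nat.findGreatest_le _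
    have h6 : ∀ i, i₀ < i → i < n₀ → ((T g l)^[i] (k, u)).2 ∉ C := fun i hi1 hi2 =>
      Nat.findGreatest_is_greatest (P := fun i => ((T g l)^[i] (k, u)).2 ∈ C) hi1 (by omega)
    have h7 : ∀ j, (T g l)^[j] (((T g l)^[i₀] (k, u)).1, ((T g l)^[i₀] (k, u)).2) =
        (T g l)^[j + i₀] (k, u) := fun j => by
      rw [Function.iterate_add_apply]
    refine ⟨((T g l)^[i₀] (k, u)).2, h4, ((T g l)^[n₀] (k, u)).2, h1,
      ((T g l)^[i₀] (k, u)).1, A1_iter_le l hk i₀, n₀ - i₀ - 1, ?_, fun i hi1 hi2 => ?_⟩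
    · rw [h7, show n₀ - i₀ - 1 + 1 + i₀ = n₀ by omega]
    · rw [h7]
      exact ⟨h2 _ (by omega), h6 _ (by omega) (by omega)⟩
  · rintro ⟨a, ha, b, hb, k, hk, n, h1, -⟩
    exact ⟨k, hk, a, ha, n + 1, by rw [h1]; exact hb⟩

/-- A1: only the letters which move a point of `E` matter -/
theorem Far_filter (p : α → Bool) (C E : Set V) (hCE : C ⊆ E)
    (hp : ∀ a, p a = false → ∀ v ∈ E, g a v = v) (l : List α) :
    Far g C E (l.filter p) ↔ Far g C E l := by
  rw [A1_Far_iff hCE, A1_Far_iff hCE]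
  refine exists_congr fun a => and_congr_right fun ha => exists_congr fun b =>
    and_congr_right fun hb => ?_
  have hab : a ≠ b := fun h => hb (h ▸ hCE ha)
  refine Seg_filter p (E \ C) (fun e he v hv => hp e he v hv.1) a b (fun h => h.2 ha) hab
    (fun e he => ?_) l
  rw [hp e he a (hCE ha)]
  exact hab

end

end Pool.Agent.ThinTori

namespace Pool.Agent.ThinTori.Dim

section

variable {n N : ℕ} [NeZero N] {t : ℝ}

private def A1_e (u : Vx N N n) : Equiv.Perm (Ed N N n) :=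
  Equiv.prodCongr (Equiv.addRight u) (Equiv.refl _)

omit [NeZero N] in
private theorem A1_gT (u : Vx N N n) (a : Ed N N n) (v : Vx N N n) :
    gT N N n (A1_e u a) (v + u) = gT N N n a v + u := by
  have h := ((Equiv.addRight u).injective.map_swap a.1 (a.1 + dir N N n a.2) v)
  unfold gT A1_e
  rw [Equiv.prodCongr_apply, Prod.map_fst, Prod.map_snd]
  simp only [Equiv.coe_addRight, Equiv.refl_apply] at h ⊢
  rw [h, add_right_comm]

omit [NeZero N] in
private theorem A1_T (u : Vx N N n) (l : List (Ed N N n)) (k : ℕ) (v : Vx N N n) :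
    T (gT N N n) (l.map (A1_e u)) (k, v + u) =
      ((T (gT N N n) l (k, v)).1, (T (gT N N n) l (k, v)).2 + u) := by
  simp only [T, List.getElem?_map]
  rcases h : l[k]? with _ | a
  · simp
  · simp [A1_gT]

omit [NeZero N] in
private theorem A1_iter (u : Vx N N n) (l : List (Ed N N n)) (k : ℕ) (v : Vx N N n) (j : ℕ) :
    (T (gT N N n) (l.map (A1_e u)))^[j] (k, v + u) =
      (((T (gT N N n) l)^[j] (k, v)).1, ((T (gT N N n) l)^[j] (k, v)).2 + u) := by
  induction j with
  | zero => rfl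
  | succ j ih =>
    rw [Function.iterate_succ_apply', ih, A1_T, Function.iterate_succ_apply']

/-- A1: shift -/
theorem P_Arm_shift (R : ℕ) (z : Vx N N n) :
    P N N n t (Arm N n R z) = P N N n t (Arm N n R 0) := by
  unfold P
  rw [← Pr_perm (fun _ : Ed N N n => t) (A1_e z) (fun _ => rfl) (Arm N n R z)]
  refine Pr_congr _ fun l _ => ?_
  unfold Arm Far
  rw [List.length_map]
  constructor
  · rintro ⟨k, hk, u, hu, j, hj⟩
    refine ⟨k, hk, u - z, ?_, j, ?_⟩
    · show nrm (u - z - 0) < R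
      rw [sub_zero]
      exact hu
    · intro hcon
      apply hj
      have h := A1_iter z l k (u - z) j
      rw [sub_add_cancel] at h
      rw [h]
      show nrm (((T (gT N N n) l)^[j] (k, u - z)).2 + z - z) < 6 * R
      rw [add_sub_cancel_right]
      have hcon' : nrm (((T (gT N N n) l)^[j] (k, u - z)).2 - 0) < 6 * R := hcon
      rwa [sub_zero] at hcon'
  · rintro ⟨k, hk, u, hu, j, hj⟩
    refine ⟨k, hk, u + z, ?_, j, ?_⟩
    · show nrm (u + z - z) < R
      rw [add_sub_cancel_right]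
      have hu' : nrm (u - 0) < R := hu
      rwa [sub_zero] at hu'
    · intro hcon
      apply hj
      rw [A1_iter] at hcon
      have hcon' : nrm (((T (gT N N n) l)^[j] (k, u)).2 + z - z) < 6 * R := hcon
      rw [add_sub_cancel_right] at hcon'
      show nrm (((T (gT N N n) l)^[j] (k, u)).2 - 0) < 6 * R
      rwa [sub_zero]

end

end Pool.Agent.ThinTori.Dim

end

/-! Stirring on the torus, row A2: two small crossings in a large one -/

section

open Finset

namespace Pool.Agent.ThinTori.Dim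

section

variable {n N : ℕ} [NeZero N]

private theorem A2_pt (r : ℕ) (i : ℤ) (u : Fin n → ℤ) (hi : |i| ≤ r) (hu : ∀ j, |u j| ≤ r) :
    nrm (pt N N n i u) ≤ r := by
  have h : pt N N n i u ∈ box N N n ((r + 1 : ℕ) : ℤ) :=
    ⟨i, u, by push_cast; linarith, fun j => by push_cast; linarith [hu j], rfl⟩
  rw [mem_box_iff (r + 1) (by omega)] at h
  omega

theorem nrm_add (u v : Vx N N n) : nrm (u + v) ≤ nrm u + nrm v := by
  have hu : u ∈ box N N n ((nrm u + 1 : ℕ) : ℤ) := (mem_box_iff _ (by omega) u).2 (by omega)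
  have hv : v ∈ box N N n ((nrm v + 1 : ℕ) : ℤ) := (mem_box_iff _ (by omega) v).2 (by omega)
  have h := S3_box_add hu hv
  have e : (((nrm u + 1 : ℕ) : ℤ) + ((nrm v + 1 : ℕ) : ℤ) - 1) = ((nrm u + nrm v + 1 : ℕ) : ℤ) := by
    push_cast
    ring
  rw [e, mem_box_iff _ (by omega)] at h
  omega

private theorem A2_neg_le (v : Vx N N n) : nrm (-v) ≤ nrm v := by
  obtain ⟨i, u, hi, hu, hv⟩ := exists_pt v
  have h : -v = pt N N n (-i) (fun j => -u j) := by
    conv_lhs => rw [hv]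
    refine Prod.ext ?_ ?_
    · simp [pt]
    · funext j
      simp [pt]
  rw [h]
  exact A2_pt _ _ _ (by rwa [abs_neg]) fun j => by rw [abs_neg]; exact hu j

theorem nrm_neg (v : Vx N N n) : nrm (-v) = nrm v :=
  le_antisymm (A2_neg_le v) (by have := A2_neg_le (-v); rwa [neg_neg] at this)

private theorem A2_dir (o : Option (Fin n)) : nrm (dir N N n o) ≤ 1 := by
  cases o with
  | none =>
    have h : dir N N n none = pt N N n 1 (fun _ => 0) := by
      simp only [dir, pt, Int.cast_one, Int.cast_zero]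
      rfl
    rw [h]
    exact A2_pt 1 _ _ (by simp) fun j => by simp
  | some j =>
    have h : dir N N n (some j) = pt N N n 0 (Pi.single j 1) := by
      refine Prod.ext ?_ ?_
      · simp [pt, dir]
      · funext m
        by_cases hm : m = j
        · subst hm
          simp [pt, dir]
        · simp [pt, dir, hm]
    rw [h]
    refine A2_pt 1 _ _ (by simp) fun m => ?_
    by_cases hm : m = j
    · subst hm
      simp
    · simp [hm]

omit [NeZero N] in
private theorem A2_zero : nrm (0 : Vx N N n) = 0 := by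
  simp [nrm]

private theorem A2_gT (e : Ed N N n) (v : Vx N N n) : nrm (gT N N n e v - v) ≤ 1 := by
  unfold gT
  by_cases h1 : v = e.1
  · subst h1
    rw [Equiv.swap_apply_left, add_sub_cancel_left]
    exact A2_dir _
  · by_cases h2 : v = e.1 + dir N N n e.2
    · rw [h2, Equiv.swap_apply_right, ← nrm_neg, neg_sub, add_sub_cancel_left]
      exact A2_dir _
    · rw [Equiv.swap_apply_of_ne_of_ne h1 h2, sub_self, A2_zero]
      omega

/-- one step moves by at most one -/
theorem nrm_step (l : List (Ed N N n)) (s : ℕ × Vx N N n) :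
    nrm ((T (gT N N n) l s).2 - s.2) ≤ 1 := by
  unfold T
  rcases hs : l[s.1]? with _ | a
  · simp only [sub_self, A2_zero]
    omega
  · exact A2_gT a s.2

omit [NeZero N] in
theorem grid_card (R : ℕ) : (grid N n R).card ≤ 41 ^ (n + 1) := by
  classical
  unfold grid
  refine Finset.card_image_le.trans (le_of_eq ?_)
  rw [Finset.card_product, Fintype.card_piFinset]
  simp only [Int.card_Icc, Finset.prod_const, Finset.card_univ, Fintype.card_fin]
  have h1 : ((20 : ℤ) + 1 - -20).toNat = 41 := rfl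
  rw [h1, pow_succ, Nat.mul_comm]

/-- the grid is `R`-dense in the box of radius `19 R` -/
theorem grid_near (R : ℕ) (hR : 1 ≤ R) (v : Vx N N n) (hv : nrm v ≤ 19 * R) :
    ∃ z ∈ grid N n R, nrm (v - z) < R := by
  classical
  obtain ⟨i, u, hi, hu, he⟩ := exists_pt v
  have hR0 : (0 : ℤ) < (R : ℤ) := by exact_mod_cast hR
  have hv' : ((nrm v : ℕ) : ℤ) ≤ 19 * (R : ℤ) := by exact_mod_cast hv
  have key : ∀ a : ℤ, |a| ≤ ((nrm v : ℕ) : ℤ) → -20 ≤ a / (R : ℤ) ∧ a / (R : ℤ) ≤ 20 := by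
    intro a ha
    have h1 := abs_le.1 (ha.trans hv')
    constructor
    · rw [Int.le_ediv_iff_mul_le hR0]
      linarith [h1.1]
    · have : a / (R : ℤ) < 21 := by
        rw [Int.ediv_lt_iff_lt_mul hR0]
        linarith [h1.2]
      omega
  have key2 : ∀ a : ℤ, |a % (R : ℤ)| ≤ (R : ℤ) - 1 := by
    intro a
    rw [abs_of_nonneg (Int.emod_nonneg _ hR0.ne')]
    have := Int.emod_lt_of_pos a hR0
    omega
  refine ⟨pt N N n (R * (i / R)) (fun j => R * (u j / R)), ?_, ?_⟩
  · unfold grid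
    refine Finset.mem_image.2 ⟨(i / R, fun j => u j / R), ?_, rfl⟩
    rw [Finset.mem_product, Finset.mem_Icc, Fintype.mem_piFinset]
    exact ⟨key i hi, fun j => Finset.mem_Icc.2 (key (u j) (hu j))⟩
  · have h1 : v - pt N N n (R * (i / R)) (fun j => R * (u j / R)) =
        pt N N n (i % R) (fun j => u j % R) := by
      have h2 : ∀ a : ℤ, a - R * (a / R) = a % R := fun a => (Int.emod_def a R).symm
      conv_lhs => rw [he]
      refine Prod.ext ?_ ?_
      · simp only [pt, Prod.fst_sub]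
        rw [← Int.cast_sub, h2]
      · funext j
        simp only [pt, Prod.snd_sub, Pi.sub_apply]
        rw [← Int.cast_sub, h2]
    rw [h1, ← mem_box_iff R hR]
    exact ⟨_, _, key2 i, fun j => key2 (u j), rfl⟩

private theorem A2_T_le {V α : Type*} {g : α → Equiv.Perm V} (l : List α) (s : ℕ × V) :
    (T g l s).1 ≤ l.length := by
  simp only [T]
  rcases h : l[s.1]? with _ | a
  · exact Nat.zero_le _
  · by_contra h'
    rw [List.getElem?_eq_none (by simp only at h'; omega)] at h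
    exact absurd h (by simp)

private theorem A2_iter_le {V α : Type*} {g : α → Equiv.Perm V} (l : List α) {s : ℕ × V}
    (hs : s.1 ≤ l.length) (n : ℕ) : ((T g l)^[n] s).1 ≤ l.length := by
  cases n with
  | zero => exact hs
  | succ n => rw [Function.iterate_succ_apply']; exact A2_T_le l _

private theorem A2_tri (a b : Vx N N n) : nrm a ≤ nrm (a - b) + nrm b := by
  have h := nrm_add (a - b) b
  rwa [sub_add_cancel] at h

private theorem A2_comm (a b : Vx N N n) : nrm (a - b) = nrm (b - a) := by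
  rw [← nrm_neg, neg_sub]

/-- A2: a crossing of scale `5 R` contains two crossings of scale `R` which are far apart -/
theorem arm_two (R : ℕ) (hR : 1 ≤ R) (l : List (Ed N N n)) (h : Arm N n (5 * R) 0 l) :
    ∃ z₁ ∈ grid N n R, ∃ z₂ ∈ grid N n R, 12 * R + 3 ≤ nrm (z₂ - z₁) ∧
      Arm N n R z₁ l ∧ Arm N n R z₂ l := by
  classical
  obtain ⟨k, hk, u, hu, j, hj⟩ := h
  replace hu : nrm (u - 0) < 5 * R := hu
  replace hj : ¬ nrm (((T (gT N N n) l)^[j] (k, u)).2 - 0) < 6 * (5 * R) := hj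
  rw [sub_zero] at hu hj
  have hex : ∃ i, 19 * R ≤ nrm ((T (gT N N n) l)^[i] (k, u)).2 := ⟨j, by omega⟩
  obtain ⟨i, hi, hmin, hij⟩ : ∃ i, 19 * R ≤ nrm ((T (gT N N n) l)^[i] (k, u)).2 ∧
      (∀ i' < i, nrm ((T (gT N N n) l)^[i'] (k, u)).2 < 19 * R) ∧ i ≤ j :=
    ⟨Nat.find hex, Nat.find_spec hex, fun i' hi' => not_le.1 (Nat.find_min hex hi'),
      Nat.find_min' hex (by omega)⟩
  have hi0 : i ≠ 0 := by
    rintro rfl
    simp only [Function.iterate_zero, id_eq] at hi
    omega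
  have hi2 : nrm ((T (gT N N n) l)^[i] (k, u)).2 ≤ 19 * R := by
    obtain ⟨i', rfl⟩ := Nat.exists_eq_succ_of_ne_zero hi0
    have h1 := hmin i' (Nat.lt_succ_self i')
    have h2 := nrm_step l ((T (gT N N n) l)^[i'] (k, u))
    rw [Function.iterate_succ_apply']
    have h3 := A2_tri (T (gT N N n) l ((T (gT N N n) l)^[i'] (k, u))).2
      ((T (gT N N n) l)^[i'] (k, u)).2
    omega
  obtain ⟨z₁, hz₁, hd₁⟩ := grid_near R hR u (by omega)
  obtain ⟨z₂, hz₂, hd₂⟩ := grid_near R hR ((T (gT N N n) l)^[i] (k, u)).2 hi2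
  have e₁ := A2_tri z₁ u
  rw [A2_comm z₁ u] at e₁
  refine ⟨z₁, hz₁, z₂, hz₂, ?_, ⟨k, hk, u, hd₁, j, ?_⟩, ?_⟩
  · have h1 := A2_tri ((T (gT N N n) l)^[i] (k, u)).2 z₂
    have h2 := A2_tri z₂ z₁
    omega
  · show ¬ nrm (((T (gT N N n) l)^[j] (k, u)).2 - z₁) < 6 * R
    have h1 := A2_tri ((T (gT N N n) l)^[j] (k, u)).2 z₁
    omega
  · refine ⟨((T (gT N N n) l)^[i] (k, u)).1, A2_iter_le l hk i,
      ((T (gT N N n) l)^[i] (k, u)).2, hd₂, j - i, ?_⟩
    show ¬ nrm (((T (gT N N n) l)^[j - i] (((T (gT N N n) l)^[i] (k, u)).1,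
      ((T (gT N N n) l)^[i] (k, u)).2)).2 - z₂) < 6 * R
    rw [Prod.mk.eta, ← Function.iterate_add_apply, Nat.sub_add_cancel hij]
    have h1 := A2_tri ((T (gT N N n) l)^[j] (k, u)).2 z₂
    have h2 := A2_tri z₂ ((T (gT N N n) l)^[i] (k, u)).2
    rw [A2_comm z₂] at h2
    omega

end

end Pool.Agent.ThinTori.Dim

end

/-! Stirring on the torus, row A3: the quadratic recursion -/

section

open Finset

namespace Pool.Agent.ThinTori.Dim

section

variable {n N : ℕ} [NeZero N] {t : ℝ}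

omit [NeZero N] in
private theorem A3_inc {S : Set (Vx N N n)} {a : Ed N N n} (h : inc (gT N N n) S a = true) :
    ∃ v ∈ S, gT N N n a v ≠ v := by
  unfold inc at h
  exact @of_decide_eq_true _ (_) h

omit [NeZero N] in
private theorem A3_not_inc {S : Set (Vx N N n)} {a : Ed N N n} (h : inc (gT N N n) S a = false) :
    ∀ v ∈ S, gT N N n a v = v := by
  intro v hv
  by_contra hne
  unfold inc at h
  exact @of_decide_eq_false _ (_) h ⟨v, hv, hne⟩

omit [NeZero N] in
private theorem A3_filter (R : ℕ) (z : Vx N N n) (l : List (Ed N N n)) :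
    Arm N n R z (l.filter (inc (gT N N n) {v | nrm (v - z) < 6 * R})) ↔ Arm N n R z l := by
  unfold Arm
  refine Far_filter _ _ _ (fun v hv => ?_) (fun a ha v hv => A3_not_inc ha v hv) l
  simp only [Set.mem_setOf_eq] at hv ⊢
  omega

/-- the two ends of a letter are neighbours -/
private theorem A3_near (e : Ed N N n) (v w : Vx N N n) (hv : gT N N n e v ≠ v)
    (hw : gT N N n e w ≠ w) : nrm (w - v) ≤ 1 := by
  have h0 : nrm (v - v) ≤ 1 := by
    have := nrm_step ([] : List (Ed N N n)) (0, v)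
    simpa [T] using this
  have h1 : nrm (gT N N n e v - v) ≤ 1 := by
    have := nrm_step ([e] : List (Ed N N n)) (0, v)
    simpa [T] using this
  have h2 : w = v ∨ w = gT N N n e v := by
    unfold gT at hv hw ⊢
    by_cases k1 : v = e.1
    · rw [k1, Equiv.swap_apply_left]
      by_cases k2 : w = e.1
      · exact Or.inl k2
      · by_cases k3 : w = e.1 + dir N N n e.2
        · exact Or.inr k3
        · exact absurd (Equiv.swap_apply_of_ne_of_ne k2 k3) hw
    · by_cases k4 : v = e.1 + dir N N n e.2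
      · rw [k4, Equiv.swap_apply_right]
        by_cases k2 : w = e.1
        · exact Or.inr k2
        · by_cases k3 : w = e.1 + dir N N n e.2
          · exact Or.inl k3
          · exact absurd (Equiv.swap_apply_of_ne_of_ne k2 k3) hw
      · exact absurd (Equiv.swap_apply_of_ne_of_ne k1 k4) hv
  rcases h2 with h2 | h2
  · rw [h2]
    exact h0
  · rw [h2]
    exact h1

private theorem A3_disj (R : ℕ) (z₁ z₂ : Vx N N n) (hz : 12 * R + 3 ≤ nrm (z₂ - z₁))
    (a : Ed N N n) (h1 : inc (gT N N n) {v | nrm (v - z₁) < 6 * R} a = true) :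
    inc (gT N N n) {v | nrm (v - z₂) < 6 * R} a = false := by
  by_contra h2
  rw [Bool.not_eq_false] at h2
  obtain ⟨v, hv, hv'⟩ := A3_inc h1
  obtain ⟨w, hw, hw'⟩ := A3_inc h2
  simp only [Set.mem_setOf_eq] at hv hw
  have h3 := A3_near a v w hv' hw'
  have h4 : z₂ - z₁ = -(w - z₂) + ((w - v) + (v - z₁)) := by abel
  have h5 := nrm_add (-(w - z₂)) ((w - v) + (v - z₁))
  have h6 := nrm_add (w - v) (v - z₁)
  rw [← h4, nrm_neg] at h5
  omega

private theorem A3_pair (R : ℕ) (z₁ z₂ : Vx N N n) (hz : 12 * R + 3 ≤ nrm (z₂ - z₁)) :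
    Pr (fun _ : Ed N N n => t) (fun l => Arm N n R z₁ l ∧ Arm N n R z₂ l) =
      P N N n t (Arm N n R 0) ^ 2 := by
  have h1 : Pr (fun _ : Ed N N n => t) (fun l => Arm N n R z₁ l ∧ Arm N n R z₂ l) =
      Pr (fun _ : Ed N N n => t) (fun l =>
        Arm N n R z₁ (l.filter (inc (gT N N n) {v | nrm (v - z₁) < 6 * R})) ∧
        Arm N n R z₂ (l.filter (inc (gT N N n) {v | nrm (v - z₂) < 6 * R}))) :=
    Pr_congr _ fun l _ => by rw [A3_filter, A3_filter]
  have h2 : ∀ z : Vx N N n, Pr (restr (fun _ : Ed N N n => t)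
      (inc (gT N N n) {v | nrm (v - z) < 6 * R})) (Arm N n R z) = P N N n t (Arm N n R 0) := by
    intro z
    rw [← Pr_filter, ← P_Arm_shift R z]
    unfold P
    exact Pr_congr _ fun l _ => A3_filter R z l
  rw [h1, Pr_indep _ _ _ (fun a ha => A3_disj R z₁ z₂ hz a ha) (Arm N n R z₁) (Arm N n R z₂),
    h2, h2, sq]

/- A3: uses Far_filter, P_Arm_shift, arm_two, grid_card, Pr_indep, Pr_filter, Pr_exists_le -/
theorem arm_rec (ht : 0 ≤ t) (R : ℕ) (hR : 1 ≤ R) :
    P N N n t (Arm N n (5 * R) 0) ≤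
      ((41 : ℝ) ^ (n + 1)) ^ 2 * P N N n t (Arm N n R 0) ^ 2 := by
  classical
  have hc : ∀ a : Ed N N n, (0 : ℝ) ≤ (fun _ : Ed N N n => t) a := fun _ => ht
  set s : Finset (Vx N N n × Vx N N n) :=
    (grid N n R ×ˢ grid N n R).filter fun z => 12 * R + 3 ≤ nrm (z.2 - z.1) with hs
  have h1 : P N N n t (Arm N n (5 * R) 0) ≤ Pr (fun _ : Ed N N n => t) (fun l =>
      ∃ z ∈ s, (fun l => Arm N n R z.1 l ∧ Arm N n R z.2 l) l) := by
    unfold P
    refine Pr_mono hc fun l hl => ?_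
    obtain ⟨z₁, hz₁, z₂, hz₂, h, ha⟩ := arm_two R hR l hl
    exact ⟨(z₁, z₂), Finset.mem_filter.2 ⟨Finset.mem_product.2 ⟨hz₁, hz₂⟩, h⟩, ha⟩
  have h2 := Pr_exists_le hc s fun z l => Arm N n R z.1 l ∧ Arm N n R z.2 l
  have h3 : ∑ z ∈ s, Pr (fun _ : Ed N N n => t) (fun l => Arm N n R z.1 l ∧ Arm N n R z.2 l) =
      (s.card : ℝ) * P N N n t (Arm N n R 0) ^ 2 := by
    rw [Finset.sum_congr rfl fun z hz => A3_pair R z.1 z.2 (Finset.mem_filter.1 hz).2,
      Finset.sum_const, nsmul_eq_mul]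
  have h4 : s.card ≤ (41 ^ (n + 1)) ^ 2 := by
    refine (Finset.card_filter_le _ _).trans ?_
    rw [Finset.card_product, sq]
    exact Nat.mul_le_mul (grid_card R) (grid_card R)
  have h5 : (s.card : ℝ) ≤ ((41 : ℝ) ^ (n + 1)) ^ 2 := by exact_mod_cast h4
  calc P N N n t (Arm N n (5 * R) 0) ≤ _ := h1
    _ ≤ (s.card : ℝ) * P N N n t (Arm N n R 0) ^ 2 := by
        rw [← h3]
        exact h2
    _ ≤ _ := mul_le_mul_of_nonneg_right h5 (sq_nonneg _)

end

end Pool.Agent.ThinTori.Dim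

end

/-! Stirring on the torus, row A4: the probability of a crossing does not depend on `N` -/

section

open Finset

namespace Pool.Agent.ThinTori.Dim

section Words

variable {α β : Type*} [Fintype α] [Fintype β]

private theorem A4_wordSum (t : ℝ) (q : α → Bool) (q' : β → Bool) (e : α → β) (e' : β → α)
    (he : ∀ a, q a = true → q' (e a) = true) (he' : ∀ b, q' b = true → q (e' b) = true)
    (hl : ∀ a, q a = true → e' (e a) = a) (hr : ∀ b, q' b = true → e (e' b) = b)
    (F : List α → ℝ) (F' : List β → ℝ)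
    (hF : ∀ l : List α, (∀ a ∈ l, q a = true) → F' (l.map e) = F l) (n : ℕ) :
    wordSum (restr (fun _ => t) q) F n = wordSum (restr (fun _ => t) q') F' n := by
  classical
  induction n generalizing F F' with
  | zero =>
    rw [wordSum_zero, wordSum_zero]
    exact (hF [] (by simp)).symm
  | succ n ih =>
    rw [wordSum_succ, wordSum_succ]
    have h1 : ∀ a, restr (fun _ => t) q a * wordSum (restr (fun _ => t) q) (fun l => F (a :: l)) n =
        if q a = true then t * wordSum (restr (fun _ => t) q') (fun l => F' (e a :: l)) n else 0 := by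
      intro a
      unfold restr
      by_cases h : q a = true
      · rw [if_pos h, if_pos h]
        congr 1
        refine ih _ _ fun l hl' => ?_
        have := hF (a :: l) (by
          intro b hb
          rcases List.mem_cons.1 hb with rfl | hb
          · exact h
          · exact hl' b hb)
        simpa using this
      · rw [if_neg h, if_neg h, zero_mul]
    have h2 : ∀ b, restr (fun _ => t) q' b * wordSum (restr (fun _ => t) q') (fun l => F' (b :: l)) n =
        if q' b = true then t * wordSum (restr (fun _ => t) q') (fun l => F' (b :: l)) n else 0 := by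
      intro b
      by_cases h : q' b = true
      · rw [if_pos h]
        simp [restr, h]
      · rw [if_neg h]
        simp [restr, h]
    rw [Finset.sum_congr rfl fun a _ => h1 a, Finset.sum_congr rfl fun b _ => h2 b,
      ← Finset.sum_filter, ← Finset.sum_filter]
    refine Finset.sum_nbij' e e' ?_ ?_ ?_ ?_ ?_
    · intro a ha
      exact Finset.mem_filter.2 ⟨Finset.mem_univ _, he a (Finset.mem_filter.1 ha).2⟩
    · intro b hb
      exact Finset.mem_filter.2 ⟨Finset.mem_univ _, he' b (Finset.mem_filter.1 hb).2⟩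
    · intro a ha
      exact hl a (Finset.mem_filter.1 ha).2
    · intro b hb
      exact hr b (Finset.mem_filter.1 hb).2
    · intro a _
      rfl

private theorem A4_Pr (t : ℝ) (q : α → Bool) (q' : β → Bool) (e : α → β) (e' : β → α)
    (he : ∀ a, q a = true → q' (e a) = true) (he' : ∀ b, q' b = true → q (e' b) = true)
    (hl : ∀ a, q a = true → e' (e a) = a) (hr : ∀ b, q' b = true → e (e' b) = b)
    (A : List α → Prop) (A' : List β → Prop)
    (hA : ∀ l : List α, (∀ a ∈ l, q a = true) → (A' (l.map e) ↔ A l)) :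
    Pr (restr (fun _ => t) q) A = Pr (restr (fun _ => t) q') A' := by
  classical
  unfold Pr
  have h1 : ∑ a, restr (fun _ => t) q a = ∑ b, restr (fun _ => t) q' b := by
    have := A4_wordSum t q q' e e' he he' hl hr (fun _ => 1) (fun _ => 1) (fun _ _ => rfl) 1
    rw [wordSum_const, wordSum_const] at this
    simpa using this
  rw [h1]
  congr 1
  unfold Z
  refine tsum_congr fun n => ?_
  rw [A4_wordSum t q q' e e' he he' hl hr (fun l => if A l then 1 else 0)
    (fun l => if A' l then 1 else 0)]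
  intro l hl'
  simp only [hA l hl']

end Words

section Torus

/-- the change of the torus -/
private noncomputable def A4_phi (N N' n : ℕ) (v : Vx N N n) : Vx N' N' n :=
  (((v.1.valMinAbs : ℤ) : ZMod N'), fun j => (((v.2 j).valMinAbs : ℤ) : ZMod N'))

private theorem A4_lift (N : ℕ) [NeZero N] (R : ℕ) (hN : 2 * R + 1 ≤ N) (i : ℤ) (hi : |i| ≤ R) :
    ((i : ZMod N)).valMinAbs = i := by
  rw [ZMod.valMinAbs_spec]
  refine ⟨rfl, ?_⟩
  have h1 := abs_le.1 hi
  have h2 : (2 * R + 1 : ℤ) ≤ N := by exact_mod_cast hN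
  constructor <;> linarith

private theorem A4_phi_pt (N N' n : ℕ) [NeZero N] (R : ℕ) (hN : 2 * R + 1 ≤ N) (i : ℤ)
    (u : Fin n → ℤ) (hi : |i| ≤ R) (hu : ∀ j, |u j| ≤ R) :
    A4_phi N N' n (pt N N n i u) = pt N' N' n i u := by
  unfold A4_phi pt
  simp only [A4_lift N R hN i hi, A4_lift N R hN _ (hu _)]

/-- the integer unit vectors -/
private def A4_di (n : ℕ) (o : Option (Fin n)) : ℤ :=
  match o with
  | none => 1
  | some _ => 0

private def A4_du (n : ℕ) (o : Option (Fin n)) : Fin n → ℤ :=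
  match o with
  | none => 0
  | some j => Pi.single j 1

private theorem A4_pt_dir (N n : ℕ) (i : ℤ) (u : Fin n → ℤ) (o : Option (Fin n)) :
    pt N N n i u + dir N N n o = pt N N n (i + A4_di n o) (u + A4_du n o) := by
  rcases o with _ | m
  · simp only [pt, dir, A4_di, A4_du]
    refine Prod.ext ?_ ?_
    · simp
    · funext j
      simp
  · simp only [pt, dir, A4_di, A4_du]
    refine Prod.ext ?_ ?_
    · simp
    · funext j
      by_cases h : j = m
      · subst h
        simp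
      · simp [Pi.single_eq_of_ne h]

private theorem A4_di_abs (n : ℕ) (o : Option (Fin n)) : |A4_di n o| ≤ 1 := by
  rcases o with _ | m <;> simp [A4_di]

private theorem A4_du_abs (n : ℕ) (o : Option (Fin n)) (j : Fin n) : |A4_du n o j| ≤ 1 := by
  rcases o with _ | m
  · simp [A4_du]
  · by_cases h : j = m
    · subst h
      simp [A4_du]
    · simp [A4_du, Pi.single_eq_of_ne h]

/-- the letters which move a point of the box -/
private theorem A4_letter (N n R : ℕ) (e : Ed N N n)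
    (he : inc (gT N N n) (box N N n R) e = true) :
    ∃ (i : ℤ) (u : Fin n → ℤ), |i| ≤ R ∧ (∀ j, |u j| ≤ R) ∧ |i + A4_di n e.2| ≤ R ∧
      (∀ j, |(u + A4_du n e.2) j| ≤ R) ∧ e.1 = pt N N n i u ∧
      ((|i| ≤ (R : ℤ) - 1 ∧ ∀ j, |u j| ≤ (R : ℤ) - 1) ∨
        (|i + A4_di n e.2| ≤ (R : ℤ) - 1 ∧ ∀ j, |(u + A4_du n e.2) j| ≤ (R : ℤ) - 1)) := by
  obtain ⟨v, ⟨i, u, hi, hu, rfl⟩, hv⟩ : ∃ v ∈ box N N n R, gT N N n e v ≠ v := by
    unfold inc at he
    simpa using he
  have hd := abs_le.1 (A4_di_abs n e.2)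
  have hd' : ∀ j, -1 ≤ A4_du n e.2 j ∧ A4_du n e.2 j ≤ 1 := fun j => abs_le.1 (A4_du_abs n e.2 j)
  have hi' := abs_le.1 hi
  have hu' : ∀ j, -((R : ℤ) - 1) ≤ u j ∧ u j ≤ (R : ℤ) - 1 := fun j => abs_le.1 (hu j)
  by_cases h1 : pt N N n i u = e.1
  · refine ⟨i, u, by rw [abs_le]; omega, fun j => by rw [abs_le]; have := hu' j; omega,
      by rw [abs_le]; omega, fun j => ?_, h1.symm, Or.inl ⟨hi, hu⟩⟩
    have h2 := hu' j
    have h3 := hd' j
    rw [Pi.add_apply, abs_le]
    omega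
  by_cases h2 : pt N N n i u = e.1 + dir N N n e.2
  · have h3 : e.1 = pt N N n (i - A4_di n e.2) (u - A4_du n e.2) := by
      have h4 := A4_pt_dir N n (i - A4_di n e.2) (u - A4_du n e.2) e.2
      rw [sub_add_cancel, sub_add_cancel, h2] at h4
      exact (add_right_cancel h4).symm
    refine ⟨i - A4_di n e.2, u - A4_du n e.2, by rw [abs_le]; omega, fun j => ?_,
      by rw [sub_add_cancel, abs_le]; omega, fun j => ?_, h3, Or.inr ⟨?_, fun j => ?_⟩⟩
    · have h4 := hu' j
      have h5 := hd' j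
      rw [Pi.sub_apply, abs_le]
      omega
    · rw [sub_add_cancel, abs_le]
      have h4 := hu' j
      omega
    · rw [sub_add_cancel]
      exact hi
    · rw [sub_add_cancel]
      exact hu j
  · exfalso
    apply hv
    unfold gT
    exact Equiv.swap_apply_of_ne_of_ne h1 h2

private theorem A4_inj (N n : ℕ) [NeZero N] (R : ℕ) (hN : 2 * R + 1 ≤ N) (i i' : ℤ)
    (u u' : Fin n → ℤ) (hi : |i| ≤ R) (hu : ∀ j, |u j| ≤ R) (hi' : |i'| ≤ R) (hu' : ∀ j, |u' j| ≤ R)
    (h : pt N N n i u = pt N N n i' u') : i = i' ∧ u = u' := by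
  unfold pt at h
  obtain ⟨h1, h2⟩ := Prod.mk.inj h
  constructor
  · rw [← A4_lift N R hN i hi, h1, A4_lift N R hN i' hi']
  · funext j
    rw [← A4_lift N R hN _ (hu j), congrFun h2 j, A4_lift N R hN _ (hu' j)]

private theorem A4_ne (n : ℕ) (i : ℤ) (u : Fin n → ℤ) (o : Option (Fin n)) :
    ¬ (i = i + A4_di n o ∧ u = u + A4_du n o) := by
  rintro ⟨h1, h2⟩
  rcases o with _ | m
  · simp [A4_di] at h1
  · have := congrFun h2 m
    simp [A4_du] at this

/-- the letter map -/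
private noncomputable def A4_e (N N' n : ℕ) (a : Ed N N n) : Ed N' N' n := (A4_phi N N' n a.1, a.2)

variable (N N' n R : ℕ) [NeZero N] [NeZero N'] (hN : 2 * R + 1 ≤ N) (hN' : 2 * R + 1 ≤ N')

include hN hN'

private theorem A4_he (a : Ed N N n) (ha : inc (gT N N n) (box N N n R) a = true) :
    inc (gT N' N' n) (box N' N' n R) (A4_e N N' n a) = true := by
  obtain ⟨i, u, hi, hu, hi', hu', h1, h2⟩ := A4_letter N n R a ha
  have h3 : (A4_e N N' n a).1 = pt N' N' n i u := by
    unfold A4_e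
    rw [h1]
    exact A4_phi_pt N N' n R hN i u hi hu
  have h4 : (A4_e N N' n a).2 = a.2 := rfl
  have h5 : pt N' N' n i u + dir N' N' n a.2 = pt N' N' n (i + A4_di n a.2) (u + A4_du n a.2) :=
    A4_pt_dir N' n i u a.2
  have h6 : pt N' N' n i u ≠ pt N' N' n (i + A4_di n a.2) (u + A4_du n a.2) := fun h =>
    A4_ne n i u a.2 (A4_inj N' n R hN' _ _ _ _ hi hu hi' hu' h)
  have h7 : ∃ v ∈ box N' N' n R, gT N' N' n (A4_e N N' n a) v ≠ v := by
    rcases h2 with h2 | h2
    · refine ⟨pt N' N' n i u, ⟨i, u, h2.1, h2.2, rfl⟩, ?_⟩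
      unfold gT
      rw [h3, h4, h5, Equiv.swap_apply_left]
      exact h6.symm
    · refine ⟨pt N' N' n (i + A4_di n a.2) (u + A4_du n a.2), ⟨_, _, h2.1, h2.2, rfl⟩, ?_⟩
      unfold gT
      rw [h3, h4, h5, Equiv.swap_apply_right]
      exact h6
  unfold inc
  simpa using h7

private theorem A4_back (a : Ed N N n) (ha : inc (gT N N n) (box N N n R) a = true) :
    A4_e N' N n (A4_e N N' n a) = a := by
  obtain ⟨i, u, hi, hu, hi', hu', h1, h2⟩ := A4_letter N n R a ha
  have h3 : (A4_e N N' n a).1 = pt N' N' n i u := by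
    unfold A4_e
    rw [h1]
    exact A4_phi_pt N N' n R hN i u hi hu
  refine Prod.ext ?_ rfl
  change A4_phi N' N n (A4_e N N' n a).1 = a.1
  rw [h3, A4_phi_pt N' N n R hN' i u hi hu, h1]

/-- one step -/
private theorem A4_step (a : Ed N N n) (ha : inc (gT N N n) (box N N n R) a = true) (v : Vx N N n)
    (hv : v ∈ box N N n R) :
    gT N' N' n (A4_e N N' n a) (A4_phi N N' n v) = A4_phi N N' n (gT N N n a v) ∧
      ∃ (i : ℤ) (u : Fin n → ℤ), |i| ≤ R ∧ (∀ j, |u j| ≤ R) ∧ gT N N n a v = pt N N n i u := by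
  obtain ⟨i, u, hi, hu, hi', hu', h1, h2⟩ := A4_letter N n R a ha
  obtain ⟨i₀, u₀, hi₀, hu₀, rfl⟩ := hv
  have hi₀' : |i₀| ≤ R := by omega
  have hu₀' : ∀ j, |u₀ j| ≤ R := fun j => by have := hu₀ j; omega
  have h3 : (A4_e N N' n a).1 = pt N' N' n i u := by
    unfold A4_e
    rw [h1]
    exact A4_phi_pt N N' n R hN i u hi hu
  have h4 : (A4_e N N' n a).2 = a.2 := rfl
  have h5 : pt N' N' n i u + dir N' N' n a.2 = pt N' N' n (i + A4_di n a.2) (u + A4_du n a.2) :=
    A4_pt_dir N' n i u a.2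
  have h5' : pt N N n i u + dir N N n a.2 = pt N N n (i + A4_di n a.2) (u + A4_du n a.2) :=
    A4_pt_dir N n i u a.2
  have e0 : A4_phi N N' n (pt N N n i₀ u₀) = pt N' N' n i₀ u₀ :=
    A4_phi_pt N N' n R hN i₀ u₀ hi₀' hu₀'
  have e1 : A4_phi N N' n (pt N N n i u) = pt N' N' n i u := A4_phi_pt N N' n R hN i u hi hu
  have e2 : A4_phi N N' n (pt N N n (i + A4_di n a.2) (u + A4_du n a.2)) =
      pt N' N' n (i + A4_di n a.2) (u + A4_du n a.2) := A4_phi_pt N N' n R hN _ _ hi' hu'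
  unfold gT
  rw [h3, h4, h5, h1, h5', e0]
  by_cases hA : i₀ = i ∧ u₀ = u
  · obtain ⟨rfl, rfl⟩ := hA
    rw [Equiv.swap_apply_left, Equiv.swap_apply_left, e2]
    exact ⟨rfl, _, _, hi', hu', rfl⟩
  by_cases hB : i₀ = i + A4_di n a.2 ∧ u₀ = u + A4_du n a.2
  · obtain ⟨hB1, hB2⟩ := hB
    rw [hB1, hB2, Equiv.swap_apply_right, Equiv.swap_apply_right, e1]
    exact ⟨rfl, _, _, hi, hu, rfl⟩
  · rw [Equiv.swap_apply_of_ne_of_ne, Equiv.swap_apply_of_ne_of_ne, e0]
    · exact ⟨rfl, _, _, hi₀', hu₀', rfl⟩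
    · exact fun h => hA (A4_inj N n R hN _ _ _ _ hi₀' hu₀' hi hu h)
    · exact fun h => hB (A4_inj N n R hN _ _ _ _ hi₀' hu₀' hi' hu' h)
    · exact fun h => hA (A4_inj N' n R hN' _ _ _ _ hi₀' hu₀' hi hu h)
    · exact fun h => hB (A4_inj N' n R hN' _ _ _ _ hi₀' hu₀' hi' hu' h)

/-- the orbit -/
private theorem A4_orbit (l : List (Ed N N n)) (hl : ∀ a ∈ l, inc (gT N N n) (box N N n R) a = true)
    (x : Vx N N n) (k₀ k : ℕ) (hk : ∀ i < k, ((T (gT N N n) l)^[i] (k₀, x)).2 ∈ box N N n R) :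
    (T (gT N' N' n) (l.map (A4_e N N' n)))^[k] (k₀, A4_phi N N' n x) =
      (((T (gT N N n) l)^[k] (k₀, x)).1, A4_phi N N' n ((T (gT N N n) l)^[k] (k₀, x)).2) := by
  induction k with
  | zero => rfl
  | succ k ih =>
    rw [Function.iterate_succ_apply', Function.iterate_succ_apply', ih fun i hi => hk i (by omega)]
    have h1 := hk k (by omega)
    set s := (T (gT N N n) l)^[k] (k₀, x) with hs
    unfold T
    simp only [List.getElem?_map]
    rcases h : l[s.1]? with _ | a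
    · rfl
    · simp only [Option.map_some]
      have ha : a ∈ l := List.mem_of_getElem? h
      rw [(A4_step N N' n R hN hN' a (hl a ha) s.2 h1).1]

private theorem A4_far (r : ℕ) (hrR : r ≤ R) (l : List (Ed N N n))
    (hl : ∀ a ∈ l, inc (gT N N n) (box N N n R) a = true)
    (h : Far (gT N N n) (box N N n r) (box N N n R) l) :
    Far (gT N' N' n) (box N' N' n r) (box N' N' n R) (l.map (A4_e N N' n)) := by
  classical
  obtain ⟨k₀, hk₀, x, hx, h⟩ := h
  obtain ⟨k, hk, hmin⟩ : ∃ k, ((T (gT N N n) l)^[k] (k₀, x)).2 ∉ box N N n R ∧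
      ∀ i < k, ((T (gT N N n) l)^[i] (k₀, x)).2 ∈ box N N n R :=
    ⟨Nat.find h, Nat.find_spec h, fun i hi => by
      have := Nat.find_min h hi
      exact not_not.1 this⟩
  have hk0 : k ≠ 0 := by
    rintro rfl
    apply hk
    obtain ⟨i, u, hi, hu, hxe⟩ := hx
    exact ⟨i, u, by omega, fun j => by have := hu j; omega, hxe⟩
  obtain ⟨p, rfl⟩ : ∃ p, k = p + 1 := ⟨k - 1, by omega⟩
  -- the exit point is in the closed box
  have hcl : ∃ (i : ℤ) (u : Fin n → ℤ), |i| ≤ R ∧ (∀ j, |u j| ≤ R) ∧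
      ((T (gT N N n) l)^[p + 1] (k₀, x)).2 = pt N N n i u := by
    have h1 := hmin p (by omega)
    rw [Function.iterate_succ_apply']
    set s := (T (gT N N n) l)^[p] (k₀, x) with hs
    unfold T
    rcases h : l[s.1]? with _ | a
    · obtain ⟨i, u, hi, hu, hv⟩ := h1
      exact ⟨i, u, by omega, fun j => by have := hu j; omega, hv⟩
    · have ha : a ∈ l := List.mem_of_getElem? h
      exact (A4_step N N' n R hN hN' a (hl a ha) s.2 h1).2
  obtain ⟨i, u, hi, hu, hv⟩ := hcl
  have hx' : A4_phi N N' n x ∈ box N' N' n r := by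
    obtain ⟨i₀, u₀, hi₀, hu₀, hxe⟩ := hx
    refine ⟨i₀, u₀, hi₀, hu₀, ?_⟩
    rw [hxe]
    exact A4_phi_pt N N' n R hN i₀ u₀ (by omega) (fun j => by have := hu₀ j; omega)
  refine ⟨k₀, by rw [List.length_map]; exact hk₀, A4_phi N N' n x, hx', p + 1, ?_⟩
  rw [A4_orbit N N' n R hN hN' l hl x k₀ (p + 1) hmin, hv]
  change A4_phi N N' n (pt N N n i u) ∉ _
  rw [A4_phi_pt N N' n R hN i u hi hu]
  rintro ⟨i', u', hi', hu', h3⟩
  obtain ⟨h4, h5⟩ := A4_inj N' n R hN' _ _ _ _ hi hu (by omega) (fun j => by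
    have := hu' j
    omega) h3
  apply hk
  rw [hv]
  exact ⟨i, u, h4 ▸ hi', h5 ▸ hu', rfl⟩

omit N' [NeZero N'] hN hN' in
private theorem A4_filter (t : ℝ) (r : ℕ) (hrR : r ≤ R) :
    P N N n t (Far (gT N N n) (box N N n r) (box N N n R)) =
      Pr (restr (fun _ => t) (inc (gT N N n) (box N N n R)))
        (Far (gT N N n) (box N N n r) (box N N n R)) := by
  rw [← Pr_filter]
  unfold P
  refine Pr_congr _ fun l _ => ?_
  rw [Far_filter]
  · rintro v ⟨i, u, hi, hu, rfl⟩
    exact ⟨i, u, by omega, fun j => by have := hu j; omega, rfl⟩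
  · intro a ha v hv
    by_contra hcon
    unfold inc at ha
    rw [decide_eq_false_iff_not] at ha
    exact ha ⟨v, hv, hcon⟩

private theorem A4_indep (t : ℝ) (r : ℕ) (hrR : r ≤ R) :
    P N N n t (Far (gT N N n) (box N N n r) (box N N n R)) =
      P N' N' n t (Far (gT N' N' n) (box N' N' n r) (box N' N' n R)) := by
  rw [A4_filter N n R t r hrR, A4_filter N' n R t r hrR]
  refine A4_Pr t _ _ (A4_e N N' n) (A4_e N' N n) (A4_he N N' n R hN hN') (A4_he N' N n R hN' hN)
    (A4_back N N' n R hN hN') (A4_back N' N n R hN' hN) _ _ fun l hl => ?_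
  constructor
  · intro h
    have h1 := A4_far N' N n R hN' hN r hrR (l.map (A4_e N N' n)) (by
      intro b hb
      obtain ⟨a, ha, rfl⟩ := List.mem_map.1 hb
      exact A4_he N N' n R hN hN' a (hl a ha)) h
    rw [List.map_map] at h1
    have h2 : l.map (A4_e N' N n ∘ A4_e N N' n) = l := by
      conv_rhs => rw [← List.map_id l]
      refine List.map_congr_left fun a ha => ?_
      exact A4_back N N' n R hN hN' a (hl a ha)
    rwa [h2] at h1
  · exact A4_far N N' n R hN hN' r hrR l hl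

end Torus

section

private theorem A4_arm (N n R : ℕ) [NeZero N] (hR : 1 ≤ R) :
    Arm N n R 0 = Far (gT N N n) (box N N n R) (box N N n ((6 * R : ℕ) : ℤ)) := by
  unfold Arm
  congr 1
  · ext v
    rw [mem_box_iff R hR v]
    simp
  · ext v
    rw [mem_box_iff (6 * R) (by omega) v]
    simp

/- A4: like `exit_local` (CL/S8.lean; copy what you need, its lemmas are private) -/
theorem arm_local (n : ℕ) (t : ℝ) (R N N' : ℕ) [NeZero N] [NeZero N'] (hR : 1 ≤ R)
    (hN : 12 * R + 1 ≤ N) (hN' : 12 * R + 1 ≤ N') :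
    P N N n t (Arm N n R 0) = P N' N' n t (Arm N' n R 0) := by
  rw [A4_arm N n R hR, A4_arm N' n R hR]
  exact A4_indep N N' n (6 * R) (by omega) (by omega) t R (by omega)

end

end Pool.Agent.ThinTori.Dim

end

/-! Stirring on the torus, row A5: a small crossing probability bounds the correlation length -/

section

open Finset

namespace Pool.Agent.ThinTori.Dim

section

theorem arm_double (n : ℕ) (t : ℝ) (ht : 0 ≤ t) (M : ℕ) [NeZero M] (R : ℕ) (hR : 1 ≤ R)
    (hp : ((41 : ℝ) ^ (n + 1)) ^ 2 * P M M n t (Arm M n R 0) ≤ 1 / 2) (k : ℕ) :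
    ((41 : ℝ) ^ (n + 1)) ^ 2 * P M M n t (Arm M n (5 ^ k * R) 0) ≤ (1 / 2) ^ (2 ^ k) := by
  induction k with
  | zero => simpa using hp
  | succ k ih =>
    have h1 := arm_rec (n := n) (N := M) (t := t) ht (5 ^ k * R)
      (Nat.one_le_iff_ne_zero.2 (by positivity))
    have h2 : 5 * (5 ^ k * R) = 5 ^ (k + 1) * R := by ring
    rw [h2] at h1
    have h0 : 0 ≤ P M M n t (Arm M n (5 ^ k * R) 0) := Pr_nonneg (fun _ => ht) _
    calc ((41 : ℝ) ^ (n + 1)) ^ 2 * P M M n t (Arm M n (5 ^ (k + 1) * R) 0)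
        ≤ ((41 : ℝ) ^ (n + 1)) ^ 2 * (((41 : ℝ) ^ (n + 1)) ^ 2 *
            P M M n t (Arm M n (5 ^ k * R) 0) ^ 2) :=
          mul_le_mul_of_nonneg_left h1 (by positivity)
      _ = (((41 : ℝ) ^ (n + 1)) ^ 2 * P M M n t (Arm M n (5 ^ k * R) 0)) ^ 2 := by ring
      _ ≤ ((1 / 2) ^ (2 ^ k)) ^ 2 := pow_le_pow_left₀ (by positivity) ih 2
      _ = (1 / 2) ^ (2 ^ (k + 1)) := by rw [← pow_mul, pow_succ]

private theorem A5_nrm_zero (M n : ℕ) : nrm (0 : Vx M M n) = 0 := by
  unfold nrm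
  simp

private theorem A5_exit (M n : ℕ) [NeZero M] (S : ℕ) (hS : 1 ≤ S) (l : List (Ed M M n))
    (h : Exit M M n ((6 * S : ℕ) : ℤ) (pt M M n 0 0) l) : Arm M n S 0 l := by
  obtain ⟨j, hj⟩ := h
  have h0 : pt M M n 0 0 = 0 := by
    unfold pt
    refine Prod.ext ?_ ?_
    · simp
    · funext j
      simp
  rw [h0, mem_box_iff (6 * S) (by omega)] at hj
  refine ⟨0, Nat.zero_le _, 0, ?_, j, hj⟩
  show nrm (0 - 0 : Vx M M n) < S
  rw [sub_zero, A5_nrm_zero]
  omega

theorem xi_le_of_arm (n : ℕ) (t : ℝ) (ht : 0 ≤ t) (N : ℕ) [NeZero N] (R : ℕ)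
    (hR : 1 ≤ R) (hN : 12 * R + 1 ≤ N)
    (hp : ((41 : ℝ) ^ (n + 1)) ^ 2 * P N N n t (Arm N n R 0) ≤ 1 / 2) (k : ℕ)
    (hk : (1 / 2 : ℝ) ^ (2 ^ k) * (2 * (n + 1) * (4 * (((6 * (5 ^ k * R) : ℕ)) : ℝ)) ^ n *
      Real.exp (2 * (n + 1) * t)) < 1 / 2) :
    xi n t ≤ ((6 * (5 ^ k * R) : ℕ) : ℕ∞) := by
  have h5 : 1 ≤ 5 ^ k := Nat.one_le_pow _ _ (by norm_num)
  have hR' : R ≤ 5 ^ k * R := Nat.le_mul_of_pos_left R h5
  set S : ℕ := 6 * (5 ^ k * R) with hS
  have hS1 : 1 ≤ S := by omega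
  refine xi_le n t S hS1 ?_
  unfold Crit
  have h1 : ((41 : ℝ) ^ (n + 1)) ^ 2 * P (2 * S + 1) (2 * S + 1) n t (Arm (2 * S + 1) n R 0) ≤
      1 / 2 := by
    rw [← arm_local n t R N (2 * S + 1) hR hN (by omega)]
    exact hp
  have h2 := arm_double n t ht (2 * S + 1) R hR h1 k
  have hG : (1 : ℝ) ≤ ((41 : ℝ) ^ (n + 1)) ^ 2 :=
    one_le_pow₀ (one_le_pow₀ (by norm_num))
  have h3 : P (2 * S + 1) (2 * S + 1) n t
      (Exit (2 * S + 1) (2 * S + 1) n S (pt (2 * S + 1) (2 * S + 1) n 0 0)) ≤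
      P (2 * S + 1) (2 * S + 1) n t (Arm (2 * S + 1) n (5 ^ k * R) 0) :=
    Pr_mono (fun _ => ht) fun l hl => A5_exit (2 * S + 1) n (5 ^ k * R) (by omega) l hl
  have h0 : 0 ≤ P (2 * S + 1) (2 * S + 1) n t (Arm (2 * S + 1) n (5 ^ k * R) 0) :=
    Pr_nonneg (fun _ => ht) _
  have h4 : P (2 * S + 1) (2 * S + 1) n t
      (Exit (2 * S + 1) (2 * S + 1) n S (pt (2 * S + 1) (2 * S + 1) n 0 0)) ≤
      (1 / 2) ^ (2 ^ k) := by
    refine h3.trans (le_trans ?_ h2)
    exact le_mul_of_one_le_left h0 hG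
  exact lt_of_le_of_lt (mul_le_mul_of_nonneg_right h4 (by positivity)) hk

end

end Pool.Agent.ThinTori.Dim

end

/-! Stirring on the torus, row A5b: a small crossing probability bounds the correlation length by the
square of the scale -/

section

open Finset

namespace Pool.Agent.ThinTori.Dim

section

open Nat in
private theorem A5b_num (n : ℕ) : ∃ C : ℝ, 0 < C ∧ ∀ t : ℝ, 0 ≤ t → ∀ R : ℕ, C * (1 + t) ^ 3 ≤ R →
    ∃ k : ℕ, 6 * 5 ^ k ≤ R ∧ (1 / 2 : ℝ) ^ (2 ^ k) *
      (2 * (n + 1) * (4 * ((6 * 5 ^ k * R : ℕ) : ℝ)) ^ n * Real.exp (2 * (n + 1) * t)) < 1 / 2 := by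
  obtain ⟨B, hB⟩ : ∃ B : ℝ, B = 4 * (n + 1) * 3600 ^ n * ((6 * n)! : ℝ) * 8 ^ (6 * n) := ⟨_, rfl⟩
  have hB0 : 0 < B := by rw [hB]; positivity
  obtain ⟨C, hC⟩ : ∃ C : ℝ, C = 15360 * ((n : ℝ) + 1) ^ 3 + 30 * (8 * B) ^ 3 + 6 := ⟨_, rfl⟩
  have hCpos : 0 < C := by rw [hC]; positivity
  refine ⟨C, hCpos, fun t ht R hR => ?_⟩
  have h1t : (1 : ℝ) ≤ (1 + t) ^ 3 := one_le_pow₀ (by linarith)
  have hCR : C ≤ R := le_trans (le_mul_of_one_le_right hCpos.le h1t) hR
  have hR6 : 6 ≤ R := by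
    have : (6 : ℝ) ≤ R := by
      refine le_trans ?_ hCR
      rw [hC]
      have : (0 : ℝ) ≤ 15360 * ((n : ℝ) + 1) ^ 3 + 30 * (8 * B) ^ 3 := by positivity
      linarith
    exact_mod_cast this
  obtain ⟨k, hk⟩ : ∃ k, k = Nat.log 5 (R / 6) := ⟨_, rfl⟩
  have hq : R / 6 ≠ 0 := by omega
  have hk1 : 5 ^ k ≤ R / 6 := by rw [hk]; exact Nat.pow_log_le_self 5 hq
  have hk2 : R / 6 < 5 ^ (k + 1) := by rw [hk]; exact Nat.lt_pow_succ_log_self (by norm_num) _
  have hk3 : 6 * 5 ^ k ≤ R := by omega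
  have hk4 : R < 30 * 5 ^ k := by
    rw [pow_succ] at hk2
    omega
  refine ⟨k, hk3, ?_⟩
  obtain ⟨m, hm⟩ : ∃ m : ℝ, m = 2 ^ k := ⟨_, rfl⟩
  have hm0 : 0 < m := by rw [hm]; positivity
  have hRm : (R : ℝ) < 30 * m ^ 3 := by
    have h1 : (R : ℝ) < 30 * 5 ^ k := by exact_mod_cast hk4
    have h2 : (5 : ℝ) ^ k ≤ m ^ 3 := by
      rw [hm, ← pow_mul, mul_comm, pow_mul]
      exact pow_le_pow_left₀ (by norm_num) (by norm_num) k
    linarith
  have hmB : 8 * B < m := by
    have h1 : (8 * B) ^ 3 < m ^ 3 := by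
      have h2 : 30 * (8 * B) ^ 3 ≤ C := by
        rw [hC]
        have : (0 : ℝ) ≤ 15360 * ((n : ℝ) + 1) ^ 3 := by positivity
        linarith
      linarith
    exact lt_of_pow_lt_pow_left₀ 3 hm0.le h1
  have hmt : 8 * (n + 1) * (1 + t) ≤ m := by
    have h1 : (8 * (n + 1) * (1 + t)) ^ 3 ≤ m ^ 3 := by
      have h2 : 15360 * ((n : ℝ) + 1) ^ 3 * (1 + t) ^ 3 ≤ R := by
        refine le_trans (mul_le_mul_of_nonneg_right ?_ (by positivity)) hR
        rw [hC]
        have : (0 : ℝ) ≤ 30 * (8 * B) ^ 3 := by positivity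
        linarith
      have h3 : (8 * ((n : ℝ) + 1) * (1 + t)) ^ 3 = 512 * ((n : ℝ) + 1) ^ 3 * (1 + t) ^ 3 := by ring
      rw [h3]
      linarith
    exact le_of_pow_le_pow_left₀ (by norm_num) hm0.le h1
  -- the polynomial factor
  have hfac : m ^ (6 * n) ≤ ((6 * n)! : ℝ) * 8 ^ (6 * n) * Real.exp (m / 8) := by
    have h1 := Real.pow_div_factorial_le_exp (m / 8) (by positivity) (6 * n)
    rw [div_le_iff₀ (by positivity), div_pow, div_le_iff₀ (by positivity)] at h1
    linarith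
  have hpoly : 2 * ((n : ℝ) + 1) * (4 * ((6 * 5 ^ k * R : ℕ) : ℝ)) ^ n ≤
      B / 2 * Real.exp (m / 8) := by
    have h1 : (4 * ((6 * 5 ^ k * R : ℕ) : ℝ)) ≤ 3600 * m ^ 6 := by
      have h2 : ((6 * 5 ^ k * R : ℕ) : ℝ) ≤ (R : ℝ) * R := by
        exact_mod_cast Nat.mul_le_mul_right R hk3
      have h3 : (R : ℝ) * R ≤ (30 * m ^ 3) * (30 * m ^ 3) :=
        mul_le_mul hRm.le hRm.le (by positivity) (by positivity)
      have h4 : (30 * m ^ 3) * (30 * m ^ 3) = 900 * m ^ 6 := by ring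
      linarith
    calc 2 * ((n : ℝ) + 1) * (4 * ((6 * 5 ^ k * R : ℕ) : ℝ)) ^ n
        ≤ 2 * ((n : ℝ) + 1) * (3600 * m ^ 6) ^ n := by
          refine mul_le_mul_of_nonneg_left (pow_le_pow_left₀ (by positivity) h1 n) (by positivity)
      _ = 2 * ((n : ℝ) + 1) * 3600 ^ n * m ^ (6 * n) := by rw [mul_pow, ← pow_mul]; ring
      _ ≤ 2 * ((n : ℝ) + 1) * 3600 ^ n * (((6 * n)! : ℝ) * 8 ^ (6 * n) * Real.exp (m / 8)) :=
          mul_le_mul_of_nonneg_left hfac (by positivity)
      _ = B / 2 * Real.exp (m / 8) := by rw [hB]; ring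
  have hBexp : B ≤ Real.exp (m / 8) := by
    have := Real.add_one_le_exp (m / 8)
    linarith
  have htexp : Real.exp (2 * (n + 1) * t) < Real.exp (m / 4) := by
    apply Real.exp_lt_exp.2
    have : (0 : ℝ) < (n : ℝ) + 1 := by positivity
    nlinarith
  have hfin : (1 / 2 : ℝ) ^ (2 ^ k) * Real.exp (m / 2) ≤ 1 := by
    have h1 : Real.exp (m / 2) = Real.exp (1 / 2) ^ (2 ^ k) := by
      rw [← Real.exp_nat_mul]
      congr 1
      rw [hm]
      push_cast
      ring
    rw [h1, ← mul_pow]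
    refine pow_le_one₀ (by positivity) ?_
    have h2 : Real.exp (1 / 2) ≤ 2 := by
      have h3 : Real.exp (1 / 2) ^ 2 ≤ 2 ^ 2 := by
        rw [← Real.exp_nat_mul]
        have h4 : ((2 : ℕ) : ℝ) * (1 / 2) = 1 := by norm_num
        rw [h4]
        have := Real.exp_one_lt_d9
        norm_num
        linarith
      exact le_of_pow_le_pow_left₀ (by norm_num) (by norm_num) h3
    linarith
  have hpos : (0 : ℝ) < (1 / 2 : ℝ) ^ (2 ^ k) := by positivity
  calc (1 / 2 : ℝ) ^ (2 ^ k) *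
      (2 * (n + 1) * (4 * ((6 * 5 ^ k * R : ℕ) : ℝ)) ^ n * Real.exp (2 * (n + 1) * t))
      ≤ (1 / 2 : ℝ) ^ (2 ^ k) * (B / 2 * Real.exp (m / 8) * Real.exp (2 * (n + 1) * t)) :=
        mul_le_mul_of_nonneg_left (mul_le_mul_of_nonneg_right hpoly (Real.exp_pos _).le) hpos.le
    _ ≤ (1 / 2 : ℝ) ^ (2 ^ k) * (Real.exp (m / 8) / 2 * Real.exp (m / 8) *
          Real.exp (2 * (n + 1) * t)) := by
        refine mul_le_mul_of_nonneg_left ?_ hpos.le
        refine mul_le_mul_of_nonneg_right ?_ (Real.exp_pos _).le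
        refine mul_le_mul_of_nonneg_right ?_ (Real.exp_pos _).le
        linarith
    _ < (1 / 2 : ℝ) ^ (2 ^ k) * (Real.exp (m / 8) / 2 * Real.exp (m / 8) * Real.exp (m / 4)) := by
        refine mul_lt_mul_of_pos_left ?_ hpos
        exact mul_lt_mul_of_pos_left htexp (by positivity)
    _ = 1 / 2 * ((1 / 2 : ℝ) ^ (2 ^ k) * Real.exp (m / 2)) := by
        have h1 : Real.exp (m / 2) = Real.exp (m / 8) * Real.exp (m / 8) * Real.exp (m / 4) := by
          rw [← Real.exp_add, ← Real.exp_add]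
          congr 1
          ring
        rw [h1]
        ring
    _ ≤ 1 / 2 := by linarith

/-- a small crossing probability bounds the correlation length by the square of the scale -/
theorem xi_le_sq (n : ℕ) : ∃ C : ℝ, 0 < C ∧ ∀ t : ℝ, 0 ≤ t → ∀ R : ℕ, C * (1 + t) ^ 3 ≤ R →
    ∀ (N : ℕ) [NeZero N], 12 * R + 1 ≤ N →
      ((41 : ℝ) ^ (n + 1)) ^ 2 * P N N n t (Arm N n R 0) ≤ 1 / 2 → xi n t ≤ ((R ^ 2 : ℕ) : ℕ∞) := by
  obtain ⟨C, hC, h⟩ := A5b_num n
  refine ⟨C, hC, fun t ht R hR N _ hN hp => ?_⟩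
  have hR1 : 1 ≤ R := by
    rcases Nat.eq_zero_or_pos R with h0 | h0
    · exfalso
      rw [h0, Nat.cast_zero] at hR
      have : 0 < C * (1 + t) ^ 3 := by positivity
      linarith
    · exact h0
  obtain ⟨k, hk1, hk2⟩ := h t ht R hR
  have e : 6 * 5 ^ k * R = 6 * (5 ^ k * R) := by ring
  rw [e] at hk2
  refine (xi_le_of_arm n t ht N R hR1 hN hp k hk2).trans ?_
  rw [← e, pow_two]
  exact_mod_cast Nat.mul_le_mul_right R hk1

end

end Pool.Agent.ThinTori.Dim

end

/-! Poissonized words, row A6: the expected number of walks -/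

section

open Finset

namespace Pool.Agent.ThinTori

section

variable {V α : Type*}

private theorem A6_zero (g : α → Equiv.Perm V) (w : V) (l : List α) : HasWalk g 0 w l :=
  ⟨[], List.nil_sublist l, rfl, trivial⟩

private theorem A6_nil (g : α → Equiv.Perm V) (m : ℕ) (w : V) : ¬ HasWalk g (m + 1) w [] := by
  rintro ⟨s, h1, h2, -⟩
  rw [List.sublist_nil.1 h1] at h2
  simp at h2

private theorem A6_cons (g : α → Equiv.Perm V) (m : ℕ) (w : V) (b : α) (l : List α)
    (h : HasWalk g (m + 1) w (b :: l)) :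
    HasWalk g (m + 1) w l ∨ (g b w ≠ w ∧ HasWalk g m (g b w) l) := by
  obtain ⟨s, h1, h2, h3⟩ := h
  cases h1 with
  | cons _ h4 => exact Or.inl ⟨s, h4, h2, h3⟩
  | cons_cons _ h4 =>
    rename_i s'
    exact Or.inr ⟨h3.1, s', h4, by simpa using h2, h3.2⟩

variable [Fintype α] {g : α → Equiv.Perm V} {c : α → ℝ}

open Classical in
private theorem A6_wordSum (g : α → Equiv.Perm V) (c : α → ℝ) (hc : ∀ a, 0 ≤ c a) (D : ℝ)
    (hD : ∀ w, ∑ b, (if g b w ≠ w then c b else 0) ≤ D) (m : ℕ) (w : V) (N : ℕ) :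
    wordSum c (fun l => if HasWalk g m w l then 1 else 0) N ≤
      (N.choose m : ℝ) * D ^ m * (∑ a, c a) ^ (N - m) := by
  have hS : 0 ≤ ∑ a, c a := Finset.sum_nonneg fun a _ => hc a
  have hD0 : ∀ w : V, (0 : ℝ) ≤ ∑ b, (if g b w ≠ w then c b else 0) := fun w =>
    Finset.sum_nonneg fun b _ => by
      split_ifs
      · exact hc b
      · exact le_rfl
  have hD1 : 0 ≤ D := (hD0 w).trans (hD w)
  induction N generalizing m w with
  | zero =>
    rw [wordSum_zero]
    cases m with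
    | zero => simp [A6_zero]
    | succ m => simp [A6_nil]
  | succ N ih =>
    cases m with
    | zero =>
      simp only [A6_zero, if_true]
      rw [wordSum_const]
      simp
    | succ m =>
      rw [wordSum_succ]
      have h1 : ∀ a, c a * wordSum c (fun l => if HasWalk g (m + 1) w (a :: l) then (1 : ℝ) else 0) N ≤
          c a * ((N.choose (m + 1) : ℝ) * D ^ (m + 1) * (∑ a, c a) ^ (N - (m + 1))) +
          (if g a w ≠ w then c a else 0) *
            ((N.choose m : ℝ) * D ^ m * (∑ a, c a) ^ (N - m)) := by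
        intro a
        have h2 : wordSum c (fun l => if HasWalk g (m + 1) w (a :: l) then (1 : ℝ) else 0) N ≤
            wordSum c (fun l => (if HasWalk g (m + 1) w l then (1 : ℝ) else 0) +
              (if g a w ≠ w then 1 else 0) * (if HasWalk g m (g a w) l then (1 : ℝ) else 0)) N := by
          refine wordSum_mono hc (fun l => ?_) N
          by_cases h3 : HasWalk g (m + 1) w l
          · rw [if_pos h3]
            have : (if HasWalk g (m + 1) w (a :: l) then (1 : ℝ) else 0) ≤ 1 := by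
              split_ifs <;> norm_num
            have h8 : (0 : ℝ) ≤ (if g a w ≠ w then 1 else 0) *
                (if HasWalk g m (g a w) l then (1 : ℝ) else 0) := by
              split_ifs <;> norm_num
            linarith
          · by_cases h4 : g a w ≠ w ∧ HasWalk g m (g a w) l
            · rw [if_neg h3, if_pos h4.1, if_pos h4.2]
              split_ifs <;> norm_num
            · have h7 : ¬ HasWalk g (m + 1) w (a :: l) := fun h =>
                Or.elim (A6_cons g m w a l h) h3 h4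
              rw [if_neg h7]
              split_ifs <;> norm_num
        rw [wordSum_add, wordSum_smul] at h2
        have h3 := ih (m + 1) w
        have h4 := ih m (g a w)
        calc _ ≤ c a * (wordSum c (fun l => if HasWalk g (m + 1) w l then (1 : ℝ) else 0) N +
              (if g a w ≠ w then 1 else 0) *
                wordSum c (fun l => if HasWalk g m (g a w) l then (1 : ℝ) else 0) N) :=
              mul_le_mul_of_nonneg_left h2 (hc a)
          _ ≤ c a * ((N.choose (m + 1) : ℝ) * D ^ (m + 1) * (∑ a, c a) ^ (N - (m + 1)) +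
              (if g a w ≠ w then 1 else 0) *
                ((N.choose m : ℝ) * D ^ m * (∑ a, c a) ^ (N - m))) := by
              refine mul_le_mul_of_nonneg_left (add_le_add h3 ?_) (hc a)
              refine mul_le_mul_of_nonneg_left h4 ?_
              split_ifs <;> norm_num
          _ = _ := by
              rw [mul_add, ← mul_assoc (c a) (if g a w ≠ w then (1 : ℝ) else 0)]
              congr 2
              split_ifs <;> simp
      refine (Finset.sum_le_sum fun a _ => h1 a).trans ?_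
      rw [Finset.sum_add_distrib, ← Finset.sum_mul, ← Finset.sum_mul]
      have h5 : (∑ b, (if g b w ≠ w then c b else 0)) *
          ((N.choose m : ℝ) * D ^ m * (∑ a, c a) ^ (N - m)) ≤
          D * ((N.choose m : ℝ) * D ^ m * (∑ a, c a) ^ (N - m)) :=
        mul_le_mul_of_nonneg_right (hD w) (by positivity)
      refine (add_le_add_right h5 _).trans (le_of_eq ?_)
      rw [Nat.choose_succ_succ, Nat.cast_add, Nat.add_sub_add_right]
      rcases Nat.lt_or_ge N (m + 1) with h6 | h6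
      · rw [Nat.choose_eq_zero_of_lt h6]
        ring
      · obtain ⟨j, rfl⟩ := Nat.exists_eq_add_of_le h6
        rw [show m + 1 + j - (m + 1) = j by omega, show m + 1 + j - m = j + 1 by omega]
        ring

/- A6: put `F 0 w l = 1`, `F (m + 1) w [] = 0`,
`F (m + 1) w (b :: l) = F (m + 1) w l + if g b w ≠ w then F m (g b w) l else 0` (number of walks);
`wordSum c (F m w) k ≤ k.choose m * μ ^ m * (∑ a, c a) ^ (k - m)` by induction on `k` (wordSum_succ) -/
theorem walk_le (hc : ∀ a, 0 ≤ c a) (μ : ℝ) (hμ : ∀ v, ∑ a, restr c (inc g {v}) a ≤ μ) (m : ℕ)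
    (w : V) : Pr c (HasWalk g m w) ≤ μ ^ m / (m.factorial : ℝ) := by
  classical
  have hD : ∀ w, ∑ b, (if g b w ≠ w then c b else 0) ≤ μ := by
    intro w
    refine le_trans (le_of_eq ?_) (hμ w)
    refine Finset.sum_congr rfl fun b _ => ?_
    unfold restr inc
    simp
  have hS : 0 ≤ ∑ a, c a := Finset.sum_nonneg fun a _ => hc a
  set S := ∑ a, c a with hSd
  have h1 : ∀ N, wordSum c (fun l => if HasWalk g m w l then (1 : ℝ) else 0) N / (N.factorial : ℝ) ≤
      (N.choose m : ℝ) * μ ^ m * S ^ (N - m) / (N.factorial : ℝ) := fun N =>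
    div_le_div_of_nonneg_right (A6_wordSum g c hc μ (fun w => by convert hD w) m w N)
      (by positivity)
  have h2 : HasSum (fun N : ℕ => (N.choose m : ℝ) * μ ^ m * S ^ (N - m) / (N.factorial : ℝ))
      (μ ^ m / (m.factorial : ℝ) * Real.exp S) := by
    have h3 : HasSum (fun j : ℕ => μ ^ m / (m.factorial : ℝ) * (S ^ j / (j.factorial : ℝ)))
        (μ ^ m / (m.factorial : ℝ) * Real.exp S) := by
      refine HasSum.mul_left _ ?_
      rw [Real.exp_eq_exp_ℝ]
      exact NormedSpace.expSeries_div_hasSum_exp S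
    have h4 : Function.Injective fun j : ℕ => m + j := fun a b h => by simpa using h
    rw [← h4.hasSum_iff]
    · convert h3 using 1
      funext j
      simp only [Function.comp_apply, Nat.add_sub_cancel_left]
      have h5 : ((m + j).choose m : ℝ) = ((m + j).factorial : ℝ) / (m.factorial * j.factorial) := by
        rw [Nat.cast_choose ℝ (Nat.le_add_right m j), Nat.add_sub_cancel_left]
      rw [h5]
      have h6 : ((m + j).factorial : ℝ) ≠ 0 := by positivity
      have h7 : (m.factorial : ℝ) ≠ 0 := by positivity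
      have h8 : (j.factorial : ℝ) ≠ 0 := by positivity
      field_simp
    · intro N hN
      have h5 : N < m := by
        by_contra h5
        exact hN ⟨N - m, by simp only; omega⟩
      rw [Nat.choose_eq_zero_of_lt h5]
      simp
  have h3 : Z c (fun l => if HasWalk g m w l then (1 : ℝ) else 0) ≤
      μ ^ m / (m.factorial : ℝ) * Real.exp S := by
    rw [← h2.tsum_eq]
    refine Summable.tsum_le_tsum h1 (summable_of_bounded c _ (C := 1) fun l => ?_) h2.summable
    split_ifs <;> norm_num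
  calc Pr c (HasWalk g m w) = Real.exp (-S) * Z c (fun l => if HasWalk g m w l then (1 : ℝ) else 0) := by
        unfold Pr
        rw [hSd]
    _ ≤ Real.exp (-S) * (μ ^ m / (m.factorial : ℝ) * Real.exp S) :=
        mul_le_mul_of_nonneg_left h3 (Real.exp_pos _).le
    _ = μ ^ m / (m.factorial : ℝ) := by
        rw [mul_left_comm, ← Real.exp_add, neg_add_cancel, Real.exp_zero, mul_one]

end

end Pool.Agent.ThinTori

end

/-! Stirring on the torus, row A7: from paths to cycles -/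

section

open Finset

namespace Pool.Agent.ThinTori

section

variable {V α : Type*} {g : α → Equiv.Perm V}

/-- the place reached from `v` -/
private def A7_run (g : α → Equiv.Perm V) (v : V) (l : List α) : V := l.foldl (fun v a => g a v) v

private theorem A7_run_nil (v : V) : A7_run g v [] = v := rfl

private theorem A7_run_cons (v : V) (a : α) (l : List α) :
    A7_run g v (a :: l) = A7_run g (g a v) l := rfl

private theorem A7_run_append (v : V) (l l' : List α) :
    A7_run g v (l ++ l') = A7_run g (A7_run g v l) l' := by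
  unfold A7_run
  rw [List.foldl_append]

private theorem A7_run_prod (l : List α) (v : V) : A7_run g v l = (l.map g).reverse.prod v := by
  induction l generalizing v with
  | nil => rfl
  | cons a l ih =>
    rw [A7_run_cons, ih, List.map_cons, List.reverse_cons, List.prod_append, List.prod_singleton,
      Equiv.Perm.mul_apply]

private theorem A7_walk (l : List α) (v : V) :
    ∃ s : List α, s.Sublist l ∧ IsWalk g v s ∧ A7_run g v s = A7_run g v l := by
  induction l generalizing v with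
  | nil => exact ⟨[], List.Sublist.refl _, trivial, rfl⟩
  | cons a l ih =>
    by_cases h : g a v = v
    · obtain ⟨s, h1, h2, h3⟩ := ih v
      refine ⟨s, h1.cons a, h2, ?_⟩
      rw [h3, A7_run_cons, h]
    · obtain ⟨s, h1, h2, h3⟩ := ih (g a v)
      exact ⟨a :: s, h1.cons_cons a, ⟨h, h2⟩, h3⟩

private theorem A7_split (s₁ s₂ : List α) (v : V) (h : IsWalk g v (s₁ ++ s₂)) :
    IsWalk g (A7_run g v s₁) s₂ := by
  induction s₁ generalizing v with
  | nil => exact h
  | cons a s₁ ih => exact ih (g a v) h.2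

private theorem A7_iter (l : List α) (x : V) (k : ℕ) (hk : k ≤ l.length) :
    (T g l)^[k] (0, x) = (k, A7_run g x (l.take k)) := by
  induction k with
  | zero => rfl
  | succ k ih =>
    rw [Function.iterate_succ_apply', ih (by omega)]
    have h : l[k]? = some l[k] := List.getElem?_eq_getElem (by omega)
    have h2 : l.take (k + 1) = l.take k ++ [l[k]] := by
      rw [List.take_add_one, h]
      rfl
    rw [h2, A7_run_append]
    simp only [T, h]
    rfl

private theorem A7_period (l : List α) (x : V) :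
    (T g l)^[l.length + 1] (0, x) = (0, (l.map g).reverse.prod x) := by
  rw [Function.iterate_succ_apply', A7_iter l x _ le_rfl, List.take_length, A7_run_prod]
  simp [T]

private theorem A7_periods (l : List α) (x : V) (q : ℕ) :
    (T g l)^[q * (l.length + 1)] (0, x) = (0, ((l.map g).reverse.prod ^ q) x) := by
  induction q with
  | zero => simp
  | succ q ih =>
    rw [Nat.succ_mul, Nat.add_comm, Function.iterate_add_apply, ih, A7_period, pow_succ',
      Equiv.Perm.mul_apply]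

end

end Pool.Agent.ThinTori

namespace Pool.Agent.ThinTori.Dim

section

variable {n N : ℕ} [NeZero N]

omit [NeZero N] in
private theorem A7_rev (l : List (Ed N N n)) :
    (l.map (gT N N n)).reverse.prod = ((l.map (gT N N n)).prod)⁻¹ := by
  rw [List.prod_inv_reverse, List.map_map]
  have : (fun x : Equiv.Perm (Vx N N n) => x⁻¹) ∘ gT N N n = gT N N n := by
    funext e
    simp [gT]
  rw [this]

private theorem A7_gT (e : Ed N N n) (v : Vx N N n) : nrm (gT N N n e v - v) ≤ 1 :=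
  nrm_step [e] (0, v)

private theorem A7_sub (a b c : Vx N N n) : nrm (a - c) ≤ nrm (a - b) + nrm (b - c) := by
  have h := nrm_add (a - b) (b - c)
  rwa [sub_add_sub_cancel] at h

private theorem A7_comm (a b : Vx N N n) : nrm (a - b) = nrm (b - a) := by
  rw [← nrm_neg, neg_sub]

private theorem A7_run_nrm (l : List (Ed N N n)) (v : Vx N N n) :
    nrm (A7_run (gT N N n) v l - v) ≤ l.length := by
  induction l generalizing v with
  | nil =>
    rw [A7_run_nil, sub_self]
    simp [nrm]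
  | cons a l ih =>
    rw [A7_run_cons, List.length_cons]
    have h1 := A7_sub (A7_run (gT N N n) (gT N N n a v) l) (gT N N n a v) v
    have h2 := ih (gT N N n a v)
    have h3 := A7_gT a v
    omega

/-- a particle which moves far within one period makes many moves -/
private theorem A7_far (R : ℕ) (l : List (Ed N N n)) (v : Vx N N n) (k : ℕ)
    (h : R ≤ nrm (A7_run (gT N N n) v (l.take k) - v)) :
    ∃ w : Vx N N n, nrm (w - A7_run (gT N N n) v (l.take k)) ≤ R ∧
      HasWalk (gT N N n) R w l := by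
  obtain ⟨s, h1, h2, h3⟩ := A7_walk (g := gT N N n) (l.take k) v
  have h4 : R ≤ s.length := by
    rw [← h3] at h
    exact h.trans (A7_run_nrm s v)
  have h5 : s.take (s.length - R) ++ s.drop (s.length - R) = s := List.take_append_drop _ _
  have h6 : (s.drop (s.length - R)).length = R := by
    rw [List.length_drop]
    omega
  refine ⟨A7_run (gT N N n) v (s.take (s.length - R)), ?_, s.drop (s.length - R), ?_, h6, ?_⟩
  · rw [A7_comm, ← h3]
    have h7 : A7_run (gT N N n) v s = A7_run (gT N N n) (A7_run (gT N N n) v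
        (s.take (s.length - R))) (s.drop (s.length - R)) := by
      rw [← A7_run_append, h5]
    rw [h7]
    exact (A7_run_nrm _ _).trans h6.le
  · exact ((List.drop_sublist _ _).trans h1).trans (List.take_sublist _ _)
  · refine A7_split _ _ v ?_
    rw [h5]
    exact h2

/- A7 -/
theorem arm_cycle (R : ℕ) (hR : 1 ≤ R) (z : Vx N N n) (l : List (Ed N N n))
    (h : Arm N n R z l) :
    (∃ x y : Vx N N n, (l.map (gT N N n)).prod.SameCycle x y ∧ nrm (x - z) < 2 * R ∧
      5 * R < nrm (y - z)) ∨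
    ∃ w : Vx N N n, nrm (w - z) < 8 * R ∧ HasWalk (gT N N n) R w l := by
  classical
  obtain ⟨k, hk, u, hu, hex⟩ := h
  replace hu : nrm (u - z) < R := hu
  -- the first exit
  obtain ⟨j, hj, hmin⟩ : ∃ j, ((T (gT N N n) l)^[j] (k, u)).2 ∉ {v | nrm (v - z) < 6 * R} ∧
      ∀ i < j, ((T (gT N N n) l)^[i] (k, u)).2 ∈ {v | nrm (v - z) < 6 * R} :=
    ⟨Nat.find hex, Nat.find_spec hex, fun i hi => by
      have := Nat.find_min hex hi
      rwa [not_not] at this⟩
  have hj1 : 6 * R ≤ nrm (((T (gT N N n) l)^[j] (k, u)).2 - z) := not_lt.1 hj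
  have hj0 : j ≠ 0 := by
    rintro rfl
    simp only [Function.iterate_zero, id_eq] at hj1
    omega
  obtain ⟨j', rfl⟩ := Nat.exists_eq_succ_of_ne_zero hj0
  have hj2 : nrm (((T (gT N N n) l)^[j'.succ] (k, u)).2 - z) ≤ 6 * R := by
    have h1 : nrm (((T (gT N N n) l)^[j'] (k, u)).2 - z) < 6 * R := hmin j' (Nat.lt_succ_self j')
    have h2 := nrm_step l ((T (gT N N n) l)^[j'] (k, u))
    rw [Function.iterate_succ_apply']
    have h3 := A7_sub ((T (gT N N n) l ((T (gT N N n) l)^[j'] (k, u))).2)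
      ((T (gT N N n) l)^[j'] (k, u)).2 z
    omega
  generalize j'.succ = j at hj1 hj2
  -- the place at time zero
  obtain ⟨x, hx⟩ : ∃ x, A7_run (gT N N n) x (l.take k) = u := by
    refine ⟨(((l.take k).map (gT N N n)).reverse.prod)⁻¹ u, ?_⟩
    rw [A7_run_prod]
    exact Equiv.apply_symm_apply _ u
  have hx1 : (T (gT N N n) l)^[k] (0, x) = (k, u) := by rw [A7_iter l x k hk, hx]
  have hx2 : (T (gT N N n) l)^[j] (k, u) = (T (gT N N n) l)^[j + k] (0, x) := by
    rw [Function.iterate_add_apply, hx1]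
  rw [hx2] at hj1 hj2
  -- the place at time zero of the second period
  set q := (j + k) / (l.length + 1) with hq
  set k₂ := (j + k) % (l.length + 1) with hk₂
  have hk₂' : k₂ ≤ l.length := Nat.lt_succ_iff.1 (Nat.mod_lt _ (Nat.succ_pos _))
  have hdiv : j + k = k₂ + q * (l.length + 1) := by
    rw [hq, hk₂, Nat.mul_comm]
    exact (Nat.mod_add_div _ _).symm
  set y := ((l.map (gT N N n)).reverse.prod ^ q) x with hy
  have hy1 : (T (gT N N n) l)^[j + k] (0, x) = (k₂, A7_run (gT N N n) y (l.take k₂)) := by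
    rw [hdiv, Function.iterate_add_apply, A7_periods, A7_iter l _ k₂ hk₂']
  rw [hy1] at hj1 hj2
  simp only at hj1 hj2
  have hsame : (l.map (gT N N n)).prod.SameCycle x y := by
    rw [hy, A7_rev]
    refine ⟨-(q : ℤ), ?_⟩
    rw [zpow_neg, zpow_natCast, inv_pow]
  by_cases h1 : R ≤ nrm (A7_run (gT N N n) x (l.take k) - x)
  · right
    obtain ⟨w, hw1, hw2⟩ := A7_far R l x k h1
    refine ⟨w, ?_, hw2⟩
    rw [hx] at hw1
    have := A7_sub w u z
    omega
  by_cases h2 : R ≤ nrm (A7_run (gT N N n) y (l.take k₂) - y)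
  · right
    obtain ⟨w, hw1, hw2⟩ := A7_far R l y k₂ h2
    refine ⟨w, ?_, hw2⟩
    have := A7_sub w (A7_run (gT N N n) y (l.take k₂)) z
    omega
  left
  refine ⟨x, y, hsame, ?_, ?_⟩
  · rw [hx] at h1
    have h3 := A7_sub x u z
    rw [A7_comm x u] at h3
    omega
  · have h3 := A7_sub (A7_run (gT N N n) y (l.take k₂)) y z
    omega

end

end Pool.Agent.ThinTori.Dim

end

/-! Stirring on the torus, row A8: cycles at all scales below the square root of the correlation
length -/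

section

open Finset

namespace Pool.Agent.ThinTori.Dim

section

open Nat in
private theorem A8_num (n : ℕ) : ∃ C : ℝ, 0 < C ∧ ∀ t : ℝ, 0 ≤ t → ∀ R : ℕ, C * (1 + t) ≤ R →
    (16 * (R : ℝ)) ^ (n + 1) * ((2 * (n + 1) * t) ^ R / (R ! : ℝ)) ≤
      1 / (4 * 41 ^ (2 * (n + 1))) := by
  obtain ⟨D, hD⟩ : ∃ D : ℝ, D = ((n + 1)! : ℝ) * (4 * 41 ^ (2 * (n + 1))) := ⟨_, rfl⟩
  have hD0 : 0 < D := by rw [hD]; positivity
  obtain ⟨C, hC⟩ : ∃ C : ℝ, C = 2 * ((n : ℝ) + 1) * Real.exp 18 + D := ⟨_, rfl⟩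
  have hCpos : 0 < C := by rw [hC]; positivity
  refine ⟨C, hCpos, fun t ht R hR => ?_⟩
  have hCR : C ≤ R := le_trans (le_mul_of_one_le_right hCpos.le (by linarith)) hR
  have hR0 : (0 : ℝ) < R := lt_of_lt_of_le hCpos hCR
  have hDR : D ≤ R := by
    refine le_trans ?_ hCR
    rw [hC]
    have : (0 : ℝ) ≤ 2 * ((n : ℝ) + 1) * Real.exp 18 := by positivity
    linarith
  have h1 : (16 * (R : ℝ)) ^ (n + 1) ≤ ((n + 1)! : ℝ) * Real.exp (16 * R) := by
    have h := Real.pow_div_factorial_le_exp (16 * (R : ℝ)) (by positivity) (n + 1)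
    rw [div_le_iff₀ (by positivity)] at h
    linarith
  have h2 : (R : ℝ) ^ R ≤ (R ! : ℝ) * Real.exp R := by
    have h := Real.pow_div_factorial_le_exp (R : ℝ) (by positivity) R
    rw [div_le_iff₀ (by positivity)] at h
    linarith
  have h3 : (2 * ((n : ℝ) + 1) * t) ^ R ≤ (Real.exp (-18) * R) ^ R := by
    refine pow_le_pow_left₀ (by positivity) ?_ R
    have h4 : 2 * ((n : ℝ) + 1) * Real.exp 18 * t ≤ R := by
      refine le_trans ?_ hR
      have h5 : 2 * ((n : ℝ) + 1) * Real.exp 18 ≤ C := by rw [hC]; linarith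
      calc 2 * ((n : ℝ) + 1) * Real.exp 18 * t ≤ C * t := mul_le_mul_of_nonneg_right h5 ht
        _ ≤ C * (1 + t) := mul_le_mul_of_nonneg_left (by linarith) hCpos.le
    rw [Real.exp_neg, inv_mul_eq_div, le_div_iff₀ (Real.exp_pos _)]
    linarith
  have h6 : (2 * ((n : ℝ) + 1) * t) ^ R / (R ! : ℝ) ≤ Real.exp (-(17 * R)) := by
    rw [div_le_iff₀ (by positivity)]
    calc (2 * ((n : ℝ) + 1) * t) ^ R ≤ (Real.exp (-18) * R) ^ R := h3
      _ = Real.exp (-(18 * R)) * (R : ℝ) ^ R := by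
          rw [mul_pow, ← Real.exp_nat_mul]
          congr 2
          ring
      _ ≤ Real.exp (-(18 * R)) * ((R ! : ℝ) * Real.exp R) :=
          mul_le_mul_of_nonneg_left h2 (Real.exp_pos _).le
      _ = Real.exp (-(17 * R)) * (R ! : ℝ) := by
          have : Real.exp (-(17 * (R : ℝ))) = Real.exp (-(18 * R)) * Real.exp R := by
            rw [← Real.exp_add]
            congr 1
            ring
          rw [this]
          ring
  have h7 : Real.exp (-(R : ℝ)) ≤ 1 / D := by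
    rw [Real.exp_neg, ← one_div]
    refine one_div_le_one_div_of_le hD0 ?_
    have := Real.add_one_le_exp (R : ℝ)
    linarith
  calc (16 * (R : ℝ)) ^ (n + 1) * ((2 * ((n : ℝ) + 1) * t) ^ R / (R ! : ℝ))
      ≤ (((n + 1)! : ℝ) * Real.exp (16 * R)) * Real.exp (-(17 * R)) :=
        mul_le_mul h1 h6 (by positivity) (by positivity)
    _ = ((n + 1)! : ℝ) * Real.exp (-(R : ℝ)) := by
        rw [mul_assoc, ← Real.exp_add]
        congr 2
        ring
    _ ≤ ((n + 1)! : ℝ) * (1 / D) := mul_le_mul_of_nonneg_left h7 (by positivity)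
    _ = 1 / (4 * 41 ^ (2 * (n + 1))) := by
        rw [hD]
        field_simp

/-- the probability of a fast particle is small -/
theorem walk_small (n : ℕ) : ∃ C : ℝ, 0 < C ∧ ∀ t : ℝ, 0 ≤ t → ∀ R : ℕ, C * (1 + t) ≤ R →
    (16 * (R : ℝ)) ^ (n + 1) * ((2 * (n + 1) * t) ^ R / (R.factorial : ℝ)) ≤
      1 / (4 * ((41 : ℝ) ^ (n + 1)) ^ 2) := by
  obtain ⟨C, hC, h⟩ := A8_num n
  refine ⟨C, hC, fun t ht R hR => (h t ht R hR).trans (le_of_eq ?_)⟩
  rw [← pow_mul, mul_comm (n + 1) 2]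

/-- a particle makes `R` moves within one period near `z` -/
theorem walk_union {N n : ℕ} [NeZero N] {t : ℝ} (ht : 0 ≤ t) (R : ℕ) (hR : 1 ≤ R) (z : Vx N N n) :
    P N N n t (fun l => ∃ w : Vx N N n, nrm (w - z) < 8 * R ∧ HasWalk (gT N N n) R w l) ≤
      (16 * (R : ℝ)) ^ (n + 1) * ((2 * (n + 1) * t) ^ R / (R.factorial : ℝ)) := by
  classical
  have hq : (0 : ℝ) ≤ (2 * (n + 1) * t) ^ R / (R.factorial : ℝ) := by positivity
  have hcard : (((Finset.univ.filter fun w : Vx N N n => nrm (w - z) < 8 * R).card : ℕ) : ℝ) ≤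
      (16 * (R : ℝ)) ^ (n + 1) := by
    have h1 : (Finset.univ.filter fun w : Vx N N n => nrm (w - z) < 8 * R).card ≤
        (box N N n ((8 * R : ℕ) : ℤ)).ncard := by
      rw [← Set.ncard_coe_finset]
      refine Set.ncard_le_ncard_of_injOn (fun w => w - z) (fun w hw => ?_) (fun w _ w' _ h => ?_)
        (Set.toFinite _)
      · rw [Finset.mem_coe, Finset.mem_filter] at hw
        exact (mem_box_iff (8 * R) (by omega) _).2 hw.2
      · exact sub_left_injective h
    have h2 := S3_card_box (L := N) (W := N) (n := n) ((8 * R : ℕ) : ℤ) (by push_cast; omega)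
    have h3 : (2 * (((8 * R : ℕ) : ℤ) : ℝ)) = 16 * (R : ℝ) := by
      push_cast
      ring
    rw [h3] at h2
    refine le_trans ?_ h2
    exact_mod_cast h1
  have hwalk : ∀ w : Vx N N n, P N N n t (HasWalk (gT N N n) R w) ≤
      (2 * (n + 1) * t) ^ R / (R.factorial : ℝ) := by
    intro w
    refine walk_le (fun _ => ht) (2 * (n + 1) * t) (fun v => ?_) R w
    have h1 := inc_mass (L := N) (W := N) (n := n) (t := t) ht {v}
    rw [Set.ncard_singleton] at h1
    simpa using h1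
  calc P N N n t (fun l => ∃ w : Vx N N n, nrm (w - z) < 8 * R ∧ HasWalk (gT N N n) R w l)
      ≤ P N N n t (fun l => ∃ w ∈ (Finset.univ.filter fun w : Vx N N n => nrm (w - z) < 8 * R),
          HasWalk (gT N N n) R w l) := by
        refine Pr_mono (fun _ => ht) fun l hl => ?_
        obtain ⟨w, h1, h2⟩ := hl
        exact ⟨w, by simpa using h1, h2⟩
    _ ≤ ∑ w ∈ (Finset.univ.filter fun w : Vx N N n => nrm (w - z) < 8 * R),
          P N N n t (HasWalk (gT N N n) R w) := Pr_exists_le (fun _ => ht) _ _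
    _ ≤ ∑ _w ∈ (Finset.univ.filter fun w : Vx N N n => nrm (w - z) < 8 * R),
          (2 * (n + 1) * t) ^ R / (R.factorial : ℝ) := Finset.sum_le_sum fun w _ => hwalk w
    _ = ((Finset.univ.filter fun w : Vx N N n => nrm (w - z) < 8 * R).card : ℝ) *
          ((2 * (n + 1) * t) ^ R / (R.factorial : ℝ)) := by
        rw [Finset.sum_const, nsmul_eq_mul]
    _ ≤ (16 * (R : ℝ)) ^ (n + 1) * ((2 * (n + 1) * t) ^ R / (R.factorial : ℝ)) :=
        mul_le_mul_of_nonneg_right hcard hq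

/- the probability that one of two events happens -/
private theorem A8_or {α : Type*} [Fintype α] {c : α → ℝ} (hc : ∀ a, 0 ≤ c a)
    (A B : List α → Prop) : Pr c (fun l => A l ∨ B l) ≤ Pr c A + Pr c B := by
  have h := Pr_exists_le hc (Finset.univ : Finset Bool) (fun b l => if b = true then A l else B l)
  simpa [or_comm] using h

/-- cycles at all scales below the square root of the correlation length -/
theorem all_scales (n : ℕ) : ∃ C : ℝ, 0 < C ∧ ∀ t : ℝ, 0 ≤ t → ∀ r : ℕ, C * (1 + t) ^ 3 ≤ r →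
    ((r ^ 2 : ℕ) : ℕ∞) < xi n t → ∀ (N : ℕ) [NeZero N], 6 * r < N → ∀ z : Vx N N n,
      1 / (4 * (41 : ℝ) ^ (2 * (n + 1))) ≤ P N N n t (fun l => ∃ x y : Vx N N n,
        (l.map (gT N N n)).prod.SameCycle x y ∧ nrm (x - z) < r ∧ 2 * r ≤ nrm (y - z)) := by
  obtain ⟨C₁, hC₁, h1⟩ := xi_le_sq n
  obtain ⟨C₂, hC₂, h2⟩ := walk_small n
  refine ⟨4 * (C₁ + C₂ + 1), by positivity, fun t ht r hr hxi N _ hN z => ?_⟩
  have h1t : (1 : ℝ) ≤ 1 + t := by linarith
  have h1t3 : 1 + t ≤ (1 + t) ^ 3 := by nlinarith [mul_nonneg ht ht, mul_nonneg (mul_nonneg ht ht) ht]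
  have hr4 : 4 ≤ r := by
    have : (4 : ℝ) ≤ r := by
      refine le_trans ?_ hr
      nlinarith
    exact_mod_cast this
  set R : ℕ := r / 2 with hRdef
  have hR1 : 1 ≤ R := by omega
  have hR2 : 2 * R ≤ r := by omega
  have hR3 : r ≤ 2 * R + 1 := by omega
  have hRr : (r : ℝ) / 4 ≤ R := by
    have h3 : (r : ℝ) ≤ 2 * R + 1 := by exact_mod_cast hR3
    have h4 : (1 : ℝ) ≤ R := by exact_mod_cast hR1
    linarith
  have hRC : (C₁ + C₂ + 1) * (1 + t) ^ 3 ≤ R := by linarith
  have hpos3 : (0 : ℝ) < (1 + t) ^ 3 := by positivity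
  have hRC₁ : C₁ * (1 + t) ^ 3 ≤ R := by nlinarith
  have hRC₂ : C₂ * (1 + t) ≤ R := by nlinarith
  -- the crossing probability is large
  have h3 : 1 / 2 < ((41 : ℝ) ^ (n + 1)) ^ 2 * P N N n t (Arm N n R 0) := by
    by_contra hcon
    rw [not_lt] at hcon
    have h4 := h1 t ht R hRC₁ N (by omega) hcon
    have h5 : ((R ^ 2 : ℕ) : ℕ∞) ≤ ((r ^ 2 : ℕ) : ℕ∞) := by
      exact_mod_cast Nat.pow_le_pow_left (by omega : R ≤ r) 2
    exact absurd (lt_of_lt_of_le hxi (h4.trans h5)) (lt_irrefl _)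
  have h6 : P N N n t (Arm N n R 0) ≤
      P N N n t (fun l => ∃ x y : Vx N N n, (l.map (gT N N n)).prod.SameCycle x y ∧
        nrm (x - z) < r ∧ 2 * r ≤ nrm (y - z)) + 1 / (4 * ((41 : ℝ) ^ (n + 1)) ^ 2) := by
    rw [← P_Arm_shift R z]
    refine le_trans (Pr_mono (fun _ => ht) (B := fun l => (∃ x y : Vx N N n,
      (l.map (gT N N n)).prod.SameCycle x y ∧ nrm (x - z) < r ∧ 2 * r ≤ nrm (y - z)) ∨
      ∃ w : Vx N N n, nrm (w - z) < 8 * R ∧ HasWalk (gT N N n) R w l) fun l hl => ?_) ?_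
    · rcases arm_cycle R hR1 z l hl with ⟨x, y, h7, h8, h9⟩ | h7
      · exact Or.inl ⟨x, y, h7, by omega, by omega⟩
      · exact Or.inr h7
    · refine (A8_or (fun _ => ht) _ _).trans ?_
      exact add_le_add le_rfl ((walk_union ht R hR1 z).trans (h2 t ht R hRC₂))
  have hG : (0 : ℝ) < ((41 : ℝ) ^ (n + 1)) ^ 2 := by positivity
  have h7 : (41 : ℝ) ^ (2 * (n + 1)) = ((41 : ℝ) ^ (n + 1)) ^ 2 := by
    rw [← pow_mul, mul_comm (n + 1) 2]
  rw [h7]
  have h8 : 1 / (2 * ((41 : ℝ) ^ (n + 1)) ^ 2) ≤ P N N n t (Arm N n R 0) := by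
    rw [div_le_iff₀ (by positivity)]
    linarith
  have h9 : 1 / (2 * ((41 : ℝ) ^ (n + 1)) ^ 2) =
      1 / (4 * ((41 : ℝ) ^ (n + 1)) ^ 2) + 1 / (4 * ((41 : ℝ) ^ (n + 1)) ^ 2) := by
    field_simp
    norm_num
  linarith

end

end Pool.Agent.ThinTori.Dim

end

/-! Stirring on the torus, row B2: cycles at all scales, many places at once -/

section

open Finset

namespace Pool.Agent.ThinTori.Dim

section

variable {n N : ℕ} [NeZero N] {t : ℝ}

omit [NeZero N] in
private theorem B2_inc {S : Set (Vx N N n)} {a : Ed N N n} (h : inc (gT N N n) S a = true) :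
    ∃ v ∈ S, gT N N n a v ≠ v := by
  unfold inc at h
  exact @of_decide_eq_true _ (_) h

omit [NeZero N] in
private theorem B2_inc_of {S : Set (Vx N N n)} {a : Ed N N n} {v : Vx N N n} (hv : v ∈ S)
    (h : gT N N n a v ≠ v) : inc (gT N N n) S a = true := by
  unfold inc
  exact @decide_eq_true _ (_) ⟨v, hv, h⟩

omit [NeZero N] in
private theorem B2_not_inc {S : Set (Vx N N n)} {a : Ed N N n} (h : inc (gT N N n) S a = false) :
    ∀ v ∈ S, gT N N n a v = v := by
  intro v hv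
  by_contra hne
  unfold inc at h
  exact @of_decide_eq_false _ (_) h ⟨v, hv, hne⟩

/-- a letter moves by at most one -/
private theorem B2_move (e : Ed N N n) (v : Vx N N n) : nrm (gT N N n e v - v) ≤ 1 := by
  have := nrm_step ([e] : List (Ed N N n)) (0, v)
  simpa [T] using this

/-- the two ends of a letter are neighbours -/
private theorem B2_near (e : Ed N N n) (v w : Vx N N n) (hv : gT N N n e v ≠ v)
    (hw : gT N N n e w ≠ w) : nrm (w - v) ≤ 1 := by
  have h0 : nrm (v - v) ≤ 1 := by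
    have := nrm_step ([] : List (Ed N N n)) (0, v)
    simpa [T] using this
  have h2 : w = v ∨ w = gT N N n e v := by
    unfold gT at hv hw ⊢
    by_cases k1 : v = e.1
    · rw [k1, Equiv.swap_apply_left]
      by_cases k2 : w = e.1
      · exact Or.inl k2
      · by_cases k3 : w = e.1 + dir N N n e.2
        · exact Or.inr k3
        · exact absurd (Equiv.swap_apply_of_ne_of_ne k2 k3) hw
    · by_cases k4 : v = e.1 + dir N N n e.2
      · rw [k4, Equiv.swap_apply_right]
        by_cases k2 : w = e.1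
        · exact Or.inr k2
        · by_cases k3 : w = e.1 + dir N N n e.2
          · exact Or.inl k3
          · exact absurd (Equiv.swap_apply_of_ne_of_ne k2 k3) hw
      · exact absurd (Equiv.swap_apply_of_ne_of_ne k1 k4) hv
  rcases h2 with h2 | h2
  · rw [h2]
    exact h0
  · rw [h2]
    exact B2_move e v

/-- a walk which starts near `z` stays near `z` -/
private theorem B2_walk (z : Vx N N n) (M : ℕ) (s : List (Ed N N n)) :
    ∀ w : Vx N N n, nrm (w - z) + s.length ≤ M → IsWalk (gT N N n) w s →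
      ∀ a ∈ s, inc (gT N N n) {v | nrm (v - z) < M} a = true := by
  induction s with
  | nil => intro w _ _ a ha; simp at ha
  | cons b s ih =>
    intro w hw hs a ha
    obtain ⟨h1, h2⟩ := hs
    rw [List.length_cons] at hw
    rcases List.mem_cons.1 ha with rfl | ha
    · refine B2_inc_of (v := w) ?_ h1
      show nrm (w - z) < M
      omega
    · refine ih (gT N N n b w) ?_ h2 a ha
      have h3 : gT N N n b w - z = (gT N N n b w - w) + (w - z) := by abel
      have h4 := nrm_add (gT N N n b w - w) (w - z)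
      rw [← h3] at h4
      have h5 := B2_move b w
      omega

/-- The walks near `z` are local. -/
private theorem B2_hasWalk (R : ℕ) (z w : Vx N N n) (hw : nrm (w - z) < 8 * R)
    (l : List (Ed N N n)) :
    HasWalk (gT N N n) R w (l.filter (inc (gT N N n) {v | nrm (v - z) < 9 * R})) ↔
      HasWalk (gT N N n) R w l := by
  constructor
  · rintro ⟨s, h1, h2, h3⟩
    exact ⟨s, h1.trans List.filter_sublist, h2, h3⟩
  · rintro ⟨s, h1, h2, h3⟩
    have h4 := B2_walk z (9 * R) s w (by omega) h3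
    refine ⟨s, ?_, h2, h3⟩
    have h5 := h1.filter (inc (gT N N n) {v | nrm (v - z) < 9 * R})
    rwa [List.filter_eq_self.2 h4] at h5

/-- Some particle crosses the annulus around `z`, and no particle is fast near `z`. -/
private def B2_A (N n R : ℕ) (z : Vx N N n) (l : List (Ed N N n)) : Prop :=
  Arm N n R z l ∧ ¬ ∃ w : Vx N N n, nrm (w - z) < 8 * R ∧ HasWalk (gT N N n) R w l

private theorem B2_filter (R : ℕ) (z : Vx N N n) (l : List (Ed N N n)) :
    B2_A N n R z (l.filter (inc (gT N N n) {v | nrm (v - z) < 9 * R})) ↔ B2_A N n R z l := by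
  unfold B2_A
  refine and_congr ?_ (not_congr (exists_congr fun w => ?_))
  · unfold Arm
    refine Far_filter _ _ _ (fun v hv => ?_) (fun a ha v hv => B2_not_inc ha v ?_) l
    · change nrm (v - z) < R at hv
      show nrm (v - z) < 6 * R
      omega
    · change nrm (v - z) < 6 * R at hv
      show nrm (v - z) < 9 * R
      omega
  · constructor
    · rintro ⟨h1, h2⟩
      exact ⟨h1, (B2_hasWalk R z w h1 l).1 h2⟩
    · rintro ⟨h1, h2⟩
      exact ⟨h1, (B2_hasWalk R z w h1 l).2 h2⟩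

private theorem B2_disj (R : ℕ) (z₁ z₂ : Vx N N n) (hz : 18 * R ≤ nrm (z₂ - z₁))
    (a : Ed N N n) (h1 : inc (gT N N n) {v | nrm (v - z₁) < 9 * R} a = true) :
    inc (gT N N n) {v | nrm (v - z₂) < 9 * R} a = false := by
  by_contra h2
  rw [Bool.not_eq_false] at h2
  obtain ⟨v, hv, hv'⟩ := B2_inc h1
  obtain ⟨w, hw, hw'⟩ := B2_inc h2
  change nrm (v - z₁) < 9 * R at hv
  change nrm (w - z₂) < 9 * R at hw
  have h3 := B2_near a v w hv' hw'
  have h4 : z₂ - z₁ = -(w - z₂) + ((w - v) + (v - z₁)) := by abel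
  have h5 := nrm_add (-(w - z₂)) ((w - v) + (v - z₁))
  have h6 := nrm_add (w - v) (v - z₁)
  rw [← h4, nrm_neg] at h5
  omega

private theorem B2_or {α : Type*} [Fintype α] {c : α → ℝ} (hc : ∀ a, 0 ≤ c a)
    (A B : List α → Prop) : Pr c (fun l => A l ∨ B l) ≤ Pr c A + Pr c B := by
  have h := Pr_exists_le hc (Finset.univ : Finset Bool) (fun b l => if b = true then A l else B l)
  simpa [or_comm] using h

private theorem B2_lower (ht : 0 ≤ t) (R : ℕ) (z : Vx N N n) :
    P N N n t (Arm N n R 0) ≤ P N N n t (B2_A N n R z) +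
      P N N n t (fun l => ∃ w : Vx N N n, nrm (w - z) < 8 * R ∧ HasWalk (gT N N n) R w l) := by
  rw [← P_Arm_shift R z]
  refine le_trans (Pr_mono (fun _ => ht) (B := fun l => B2_A N n R z l ∨
    ∃ w : Vx N N n, nrm (w - z) < 8 * R ∧ HasWalk (gT N N n) R w l) fun l hl => ?_)
    (B2_or (fun _ => ht) _ _)
  by_cases h : ∃ w : Vx N N n, nrm (w - z) < 8 * R ∧ HasWalk (gT N N n) R w l
  · exact Or.inr h
  · exact Or.inl ⟨hl, h⟩

/-- independence of far apart places -/
private theorem B2_indep (ht : 0 ≤ t) (R : ℕ) (ε : ℝ)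
    (hA : ∀ z : Vx N N n, ε ≤ P N N n t (B2_A N n R z)) (Z : Finset (Vx N N n))
    (hZ : ∀ z ∈ Z, ∀ z' ∈ Z, z ≠ z' → 18 * R ≤ nrm (z' - z)) :
    P N N n t (fun l => ∀ z ∈ Z, ¬ B2_A N n R z l) ≤ (1 - ε) ^ Z.card := by
  classical
  set e : Fin Z.card → Vx N N n := fun i => (Z.equivFin.symm i : Vx N N n) with he
  have he1 : ∀ i, e i ∈ Z := fun i => (Z.equivFin.symm i).2
  have he2 : ∀ z ∈ Z, ∃ i, e i = z := fun z hz => ⟨Z.equivFin ⟨z, hz⟩, by simp [he]⟩
  have he3 : ∀ i j, i ≠ j → e i ≠ e j := by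
    intro i j hij h
    exact hij (Z.equivFin.symm.injective (Subtype.ext h))
  have h1 := Pr_indep_fin (fun _ : Ed N N n => t)
    (fun i : Fin Z.card => inc (gT N N n) {v | nrm (v - e i) < 9 * R})
    (fun i j hij a ha => B2_disj R (e i) (e j) (hZ _ (he1 i) _ (he1 j) (he3 i j hij)) a ha)
    (fun i l => ¬ B2_A N n R (e i) l)
  have h2 : P N N n t (fun l => ∀ z ∈ Z, ¬ B2_A N n R z l) =
      Pr (fun _ : Ed N N n => t) (fun l => ∀ i : Fin Z.card,
        ¬ B2_A N n R (e i) (l.filter (inc (gT N N n) {v | nrm (v - e i) < 9 * R}))) := by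
    unfold P
    refine Pr_congr _ fun l _ => ?_
    constructor
    · intro h i
      rw [B2_filter]
      exact h _ (he1 i)
    · intro h z hz
      obtain ⟨i, rfl⟩ := he2 z hz
      have := h i
      rwa [B2_filter] at this
  rw [h2, h1]
  have h3 : ∀ i : Fin Z.card, Pr (restr (fun _ : Ed N N n => t)
      (inc (gT N N n) {v | nrm (v - e i) < 9 * R})) (fun l => ¬ B2_A N n R (e i) l) ≤ 1 - ε := by
    intro i
    rw [← Pr_filter, Pr_congr (fun _ : Ed N N n => t) (B := fun l => ¬ B2_A N n R (e i) l)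
      fun l _ => by rw [B2_filter], Pr_not]
    have := hA (e i)
    unfold P at this
    linarith
  calc ∏ i : Fin Z.card, Pr (restr (fun _ : Ed N N n => t)
        (inc (gT N N n) {v | nrm (v - e i) < 9 * R})) (fun l => ¬ B2_A N n R (e i) l)
      ≤ ∏ _i : Fin Z.card, (1 - ε) := by
        refine Finset.prod_le_prod (fun i _ => Pr_nonneg (fun a => ?_) _) fun i _ => h3 i
        unfold restr
        split_ifs
        · exact ht
        · exact le_rfl
    _ = (1 - ε) ^ Z.card := by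
        rw [Finset.prod_const, Finset.card_univ, Fintype.card_fin]

/-- Cycles at all scales below the square root of the correlation length, in many places at once:
places at mutual distance at least `9 r` are independent. -/
theorem all_scales_set (n : ℕ) : ∃ C : ℝ, 0 < C ∧ ∀ t : ℝ, 0 ≤ t → ∀ r : ℕ, C * (1 + t) ^ 3 ≤ r →
    ((r ^ 2 : ℕ) : ℕ∞) < xi n t → ∀ (N : ℕ) [NeZero N], 6 * r < N → ∀ Z : Finset (Vx N N n),
      (∀ z ∈ Z, ∀ z' ∈ Z, z ≠ z' → 9 * r ≤ nrm (z' - z)) →
      P N N n t (fun l => ∀ z ∈ Z, ∀ x y : Vx N N n,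
        (l.map (gT N N n)).prod.SameCycle x y → nrm (x - z) < r → nrm (y - z) < 2 * r) ≤
        (1 - 1 / (4 * (41 : ℝ) ^ (2 * (n + 1)))) ^ Z.card := by
  obtain ⟨C₁, hC₁, h1⟩ := xi_le_sq n
  obtain ⟨C₂, hC₂, h2⟩ := walk_small n
  refine ⟨4 * (C₁ + C₂ + 1), by positivity, fun t ht r hr hxi N _ hN Z hZ => ?_⟩
  have h1t : (1 : ℝ) ≤ 1 + t := by linarith
  have h1t3 : 1 + t ≤ (1 + t) ^ 3 := by nlinarith [mul_nonneg ht ht, mul_nonneg (mul_nonneg ht ht) ht]
  have hr4 : 4 ≤ r := by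
    have : (4 : ℝ) ≤ r := by
      refine le_trans ?_ hr
      nlinarith
    exact_mod_cast this
  set R : ℕ := r / 2 with hRdef
  have hR1 : 1 ≤ R := by omega
  have hR2 : 2 * R ≤ r := by omega
  have hR3 : r ≤ 2 * R + 1 := by omega
  have hRr : (r : ℝ) / 4 ≤ R := by
    have h3 : (r : ℝ) ≤ 2 * R + 1 := by exact_mod_cast hR3
    have h4 : (1 : ℝ) ≤ R := by exact_mod_cast hR1
    linarith
  have hRC : (C₁ + C₂ + 1) * (1 + t) ^ 3 ≤ R := by linarith
  have hpos3 : (0 : ℝ) < (1 + t) ^ 3 := by positivity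
  have hRC₁ : C₁ * (1 + t) ^ 3 ≤ R := by nlinarith
  have hRC₂ : C₂ * (1 + t) ≤ R := by nlinarith
  -- the crossing probability is large
  have h3 : 1 / 2 < ((41 : ℝ) ^ (n + 1)) ^ 2 * P N N n t (Arm N n R 0) := by
    by_contra hcon
    rw [not_lt] at hcon
    have h4 := h1 t ht R hRC₁ N (by omega) hcon
    have h5 : ((R ^ 2 : ℕ) : ℕ∞) ≤ ((r ^ 2 : ℕ) : ℕ∞) := by
      exact_mod_cast Nat.pow_le_pow_left (by omega : R ≤ r) 2
    exact absurd (lt_of_lt_of_le hxi (h4.trans h5)) (lt_irrefl _)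
  have hG : (1 : ℝ) ≤ ((41 : ℝ) ^ (n + 1)) ^ 2 := by
    refine one_le_pow₀ (one_le_pow₀ (by norm_num))
  have h7 : (41 : ℝ) ^ (2 * (n + 1)) = ((41 : ℝ) ^ (n + 1)) ^ 2 := by
    rw [← pow_mul, mul_comm (n + 1) 2]
  rw [h7]
  have h8 : 1 / (2 * ((41 : ℝ) ^ (n + 1)) ^ 2) ≤ P N N n t (Arm N n R 0) := by
    rw [div_le_iff₀ (by positivity)]
    linarith
  have h9 : 1 / (2 * ((41 : ℝ) ^ (n + 1)) ^ 2) =
      1 / (4 * ((41 : ℝ) ^ (n + 1)) ^ 2) + 1 / (4 * ((41 : ℝ) ^ (n + 1)) ^ 2) := by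
    field_simp
    norm_num
  have h10 : ∀ z : Vx N N n, 1 / (4 * ((41 : ℝ) ^ (n + 1)) ^ 2) ≤ P N N n t (B2_A N n R z) := by
    intro z
    have h11 := B2_lower (t := t) ht R z
    have h12 := (walk_union (t := t) ht R hR1 z).trans (h2 t ht R hRC₂)
    linarith
  refine le_trans (Pr_mono (fun _ => ht) (B := fun l => ∀ z ∈ Z, ¬ B2_A N n R z l)
    fun l hl z hz hA => ?_) (B2_indep ht R _ h10 Z fun z hz z' hz' hzz => ?_)
  · rcases arm_cycle R hR1 z l hA.1 with ⟨x, y, h13, h14, h15⟩ | h13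
    · have h16 := hl z hz x y h13 (by omega)
      omega
    · exact hA.2 h13
  · have := hZ z hz z' hz' hzz
    omega

end

end Pool.Agent.ThinTori.Dim

end

/-! Stirring on the torus, row B3: the largest diameter of a cycle -/

section

open Finset

namespace Pool.Agent.ThinTori.Dim

section

private theorem B3_val (N : ℕ) [NeZero N] (D : ℕ) (a : ℤ) (h1 : (D : ℤ) ≤ |a|)
    (h2 : |a| + D ≤ N) : D ≤ ((a : ZMod N)).valMinAbs.natAbs := by
  have h3 : (((a : ZMod N).valMinAbs : ℤ) : ZMod N) = (a : ZMod N) := ZMod.coe_valMinAbs _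
  rw [ZMod.intCast_eq_intCast_iff_dvd_sub] at h3
  obtain ⟨c, hc⟩ := h3
  set b := (a : ZMod N).valMinAbs with hb
  have h4 : b = a - N * c := by linarith
  have h5 : (D : ℤ) ≤ |b| := by
    rcases eq_or_ne c 0 with rfl | hc0
    · rw [h4]
      simpa using h1
    · have h6 : 1 ≤ |c| := Int.one_le_abs hc0
      have h7 : (N : ℤ) ≤ |(N : ℤ) * c| := by
        rw [abs_mul, Nat.abs_cast]
        nlinarith [Int.natCast_nonneg N]
      have h8 : |(N : ℤ) * c| ≤ |a| + |b| := by
        have : (N : ℤ) * c = a - b := by rw [h4]; ring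
        rw [this]
        exact abs_sub a b
      linarith
  have h9 : ((b.natAbs : ℕ) : ℤ) = |b| := Int.natCast_natAbs b
  omega

/-- the points of a grid of mesh `D` -/
private def B3_pt (N n D m : ℕ) (w : Fin m × (Fin n → Fin m)) : Vx N N n :=
  pt N N n (D * ((w.1 : ℕ) : ℤ)) (fun j => D * ((w.2 j : ℕ) : ℤ))

private theorem B3_mul (m D N : ℕ) (hN : D * m ≤ N) (i j : Fin m) (hij : i ≠ j) :
    (D : ℤ) ≤ |(D : ℤ) * ((i : ℕ) : ℤ) - D * ((j : ℕ) : ℤ)| ∧
      |(D : ℤ) * ((i : ℕ) : ℤ) - D * ((j : ℕ) : ℤ)| + D ≤ N := by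
  rw [← mul_sub, abs_mul, Nat.abs_cast]
  have h1 : (1 : ℤ) ≤ |((i : ℕ) : ℤ) - ((j : ℕ) : ℤ)| := by
    refine Int.one_le_abs ?_
    intro h
    apply hij
    exact Fin.ext (by omega)
  have h2 : |((i : ℕ) : ℤ) - ((j : ℕ) : ℤ)| ≤ (m : ℤ) - 1 := by
    have hi := i.2
    have hj := j.2
    rw [abs_le]
    constructor <;> omega
  have h3 : (D : ℤ) * m ≤ N := by exact_mod_cast hN
  have h4 : (0 : ℤ) ≤ D := Int.natCast_nonneg D
  constructor <;> nlinarith

private theorem B3_far (N n D m : ℕ) [NeZero N] (hN : D * m ≤ N) (w w' : Fin m × (Fin n → Fin m))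
    (hw : w ≠ w') : D ≤ nrm (B3_pt N n D m w' - B3_pt N n D m w) := by
  unfold nrm B3_pt pt
  by_cases h : w'.1 = w.1
  · have h1 : w'.2 ≠ w.2 := fun h2 => hw (Prod.ext h.symm h2.symm)
    obtain ⟨j, hj⟩ := Function.ne_iff.1 h1
    obtain ⟨h2, h3⟩ := B3_mul m D N hN (w'.2 j) (w.2 j) hj
    have h4 := B3_val N D _ h2 h3
    refine le_trans ?_ (le_max_right _ _)
    refine le_trans ?_ (Finset.le_sup (f := fun j => _) (Finset.mem_univ j))
    simpa using h4
  · obtain ⟨h2, h3⟩ := B3_mul m D N hN w'.1 w.1 h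
    have h4 := B3_val N D _ h2 h3
    refine le_trans ?_ (le_max_left _ _)
    simpa using h4

/-- Below the square root of the correlation length: some cycle has a diameter more than `r`. -/
theorem diam_large (n : ℕ) : ∃ C : ℝ, 0 < C ∧ ∀ t : ℝ, 0 ≤ t → ∀ r : ℕ, C * (1 + t) ^ 3 ≤ r →
    ((r ^ 2 : ℕ) : ℕ∞) < xi n t → ∀ (N : ℕ) [NeZero N] (k : ℕ), 1 ≤ k → 60516 * k * r ≤ N →
      1 - Real.exp (-(k : ℝ) ^ (n + 1)) ≤ P N N n t (fun l => ∃ x y : Vx N N n,
        (l.map (gT N N n)).prod.SameCycle x y ∧ r < nrm (y - x)) := by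
  classical
  obtain ⟨C, hC, h⟩ := all_scales_set n
  refine ⟨C, hC, fun t ht r hr hxi N _ k hk hN => ?_⟩
  have hr1 : 1 ≤ r := by
    have : (0 : ℝ) < r := lt_of_lt_of_le (by positivity) hr
    exact_mod_cast this
  set m : ℕ := 6724 * k with hm
  have hN1 : 9 * r * m ≤ N := by
    refine le_trans (le_of_eq ?_) hN
    rw [hm]
    ring
  have hN2 : 6 * r < N := by
    have : 60516 * r ≤ 60516 * k * r := by nlinarith
    omega
  set Z : Finset (Vx N N n) := Finset.univ.image (B3_pt N n (9 * r) m) with hZ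
  have hfar : ∀ w w' : Fin m × (Fin n → Fin m), w ≠ w' →
      9 * r ≤ nrm (B3_pt N n (9 * r) m w' - B3_pt N n (9 * r) m w) :=
    fun w w' hw => B3_far N n (9 * r) m hN1 w w' hw
  have hinj : Function.Injective (B3_pt N n (9 * r) m) := by
    intro w w' hw
    by_contra hne
    have h1 := hfar w w' hne
    rw [hw, sub_self] at h1
    have h2 : nrm (0 : Vx N N n) = 0 := by
      unfold nrm
      simp
    omega
  have hcard : Z.card = m ^ (n + 1) := by
    rw [hZ, Finset.card_image_of_injective _ hinj, Finset.card_univ, Fintype.card_prod,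
      Fintype.card_fun, Fintype.card_fin, Fintype.card_fin, pow_succ, mul_comm]
  have h1 := h t ht r hr hxi N hN2 Z (by
    intro z hz z' hz' hzz
    obtain ⟨w, -, rfl⟩ := Finset.mem_image.1 hz
    obtain ⟨w', -, rfl⟩ := Finset.mem_image.1 hz'
    exact hfar w w' fun hw => hzz (by rw [hw]))
  rw [hcard] at h1
  -- the event
  have h2 : 1 - P N N n t (fun l => ∃ x y : Vx N N n,
      (l.map (gT N N n)).prod.SameCycle x y ∧ r < nrm (y - x)) ≤
      (1 - 1 / (4 * (41 : ℝ) ^ (2 * (n + 1)))) ^ (m ^ (n + 1)) := by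
    refine le_trans ?_ h1
    unfold P
    rw [← Pr_not]
    refine Pr_mono (fun _ => ht) fun l hl z _ x y h3 h4 => ?_
    by_contra h5
    rw [not_lt] at h5
    refine hl ⟨x, y, h3, ?_⟩
    have h6 := nrm_add (y - x) (x - z)
    rw [sub_add_sub_cancel] at h6
    omega
  -- numerical
  have h3 : (1 - 1 / (4 * (41 : ℝ) ^ (2 * (n + 1)))) ^ (m ^ (n + 1)) ≤
      Real.exp (-(k : ℝ) ^ (n + 1)) := by
    have h4 : 1 - 1 / (4 * (41 : ℝ) ^ (2 * (n + 1))) ≤
        Real.exp (-(1 / (4 * (41 : ℝ) ^ (2 * (n + 1))))) := by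
      have := Real.add_one_le_exp (-(1 / (4 * (41 : ℝ) ^ (2 * (n + 1)))))
      linarith
    have h5 : 0 ≤ 1 - 1 / (4 * (41 : ℝ) ^ (2 * (n + 1))) := by
      rw [sub_nonneg, div_le_one (by positivity)]
      have : (1 : ℝ) ≤ (41 : ℝ) ^ (2 * (n + 1)) := one_le_pow₀ (by norm_num)
      linarith
    refine (pow_le_pow_left₀ h5 h4 _).trans ?_
    rw [← Real.exp_nat_mul]
    refine Real.exp_le_exp.2 ?_
    have h6 : 4 * (41 : ℝ) ^ (2 * (n + 1)) ≤ (6724 : ℝ) ^ (n + 1) := by
      rw [show (6724 : ℝ) = 4 * 41 ^ 2 by norm_num, mul_pow, ← pow_mul]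
      refine mul_le_mul_of_nonneg_right ?_ (by positivity)
      calc (4 : ℝ) = 4 ^ 1 := (pow_one _).symm
        _ ≤ 4 ^ (n + 1) := pow_le_pow_right₀ (by norm_num) (by omega)
    have h7 : ((m ^ (n + 1) : ℕ) : ℝ) = (6724 : ℝ) ^ (n + 1) * (k : ℝ) ^ (n + 1) := by
      rw [hm]
      push_cast
      rw [mul_pow]
    rw [h7, mul_neg, neg_le_neg_iff, mul_one_div, le_div_iff₀ (by positivity), mul_comm]
    exact mul_le_mul_of_nonneg_right h6 (by positivity)
  linarith

end

end Pool.Agent.ThinTori.Dim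

end

/-! Stirring on the torus, row B4: the number of points of the longest cycle -/

section

open Finset

namespace Pool.Agent.ThinTori

section

variable {V α : Type*} {g : α → Equiv.Perm V}

private theorem B4_take (s : List α) : ∀ (w : V) (m : ℕ), IsWalk g w s → IsWalk g w (s.take m) := by
  induction s with
  | nil => intro w m _; simp [IsWalk]
  | cons a s ih =>
    intro w m h
    cases m with
    | zero => simp [IsWalk]
    | succ m => exact ⟨h.1, ih _ m h.2⟩

end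

end Pool.Agent.ThinTori

namespace Pool.Agent.ThinTori.Dim

section

variable {n N : ℕ} [NeZero N]

omit [NeZero N] in
private theorem B4_zero : nrm (0 : Vx N N n) = 0 := by
  unfold nrm
  simp

private theorem B4_run (l : List (Ed N N n)) : ∀ v : Vx N N n, ∃ s : List (Ed N N n),
    s.Sublist l ∧ IsWalk (gT N N n) v s ∧
      nrm ((l.reverse.map (gT N N n)).prod v - v) ≤ s.length := by
  induction l with
  | nil =>
    intro v
    refine ⟨[], List.Sublist.refl _, trivial, ?_⟩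
    simp [B4_zero]
  | cons a l ih =>
    intro v
    obtain ⟨s, h1, h2, h3⟩ := ih (gT N N n a v)
    have h4 : ((a :: l).reverse.map (gT N N n)).prod v =
        (l.reverse.map (gT N N n)).prod (gT N N n a v) := by
      simp [Equiv.Perm.mul_apply]
    rw [h4]
    by_cases h5 : gT N N n a v = v
    · rw [h5] at h2 h3 ⊢
      exact ⟨s, h1.cons a, h2, h3⟩
    · refine ⟨a :: s, h1.cons_cons a, ⟨h5, h2⟩, ?_⟩
      have h6 := nrm_add ((l.reverse.map (gT N N n)).prod (gT N N n a v) - gT N N n a v)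
        (gT N N n a v - v)
      rw [sub_add_sub_cancel] at h6
      have h7 : nrm (gT N N n a v - v) ≤ 1 := by
        have := nrm_step ([a] : List (Ed N N n)) (0, v)
        simpa [T] using this
      rw [List.length_cons]
      omega

omit [NeZero N] in
private theorem B4_inv (l : List (Ed N N n)) :
    ((l.map (gT N N n)).prod)⁻¹ = (l.reverse.map (gT N N n)).prod := by
  rw [List.prod_inv_reverse, List.map_map, ← List.map_reverse]
  congr 1

/-- no fast particle: the inverse permutation moves each point by less than `m` -/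
private theorem B4_jump (m : ℕ) (l : List (Ed N N n))
    (h : ∀ v : Vx N N n, ¬ HasWalk (gT N N n) m v l) (v : Vx N N n) :
    nrm (((l.map (gT N N n)).prod)⁻¹ v - v) ≤ m := by
  by_contra hcon
  rw [not_le] at hcon
  obtain ⟨s, h1, h2, h3⟩ := B4_run l v
  rw [← B4_inv] at h3
  refine h v ⟨s.take m, (List.take_sublist m s).trans h1, ?_, B4_take s v m h2⟩
  rw [List.length_take]
  omega

private theorem B4_pow (τ : Equiv.Perm (Vx N N n)) (m : ℕ) (h : ∀ v, nrm (τ v - v) ≤ m) (x : Vx N N n)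
    (i : ℕ) : nrm ((τ ^ i) x - x) ≤ i * m := by
  induction i with
  | zero => simp [B4_zero]
  | succ i ih =>
    have h1 := nrm_add (τ ((τ ^ i) x) - (τ ^ i) x) ((τ ^ i) x - x)
    rw [sub_add_sub_cancel] at h1
    have h2 := h ((τ ^ i) x)
    rw [pow_succ', Equiv.Perm.mul_apply]
    have h3 : (i + 1) * m = i * m + m := by ring
    omega

open Classical in
private theorem B4_cycle (σ : Equiv.Perm (Vx N N n)) (m : ℕ) (h : ∀ v, nrm (σ⁻¹ v - v) ≤ m)
    (x y : Vx N N n) (hxy : σ.SameCycle x y) :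
    nrm (y - x) ≤ (Finset.univ.filter fun y => σ.SameCycle x y).card * m := by
  have h1 : (σ⁻¹).SameCycle x y := hxy.inv
  by_cases hx : x ∈ (σ⁻¹).support
  · obtain ⟨i, hi, rfl⟩ := h1.exists_pow_eq_of_mem_support hx
    refine (B4_pow σ⁻¹ m h x i).trans (Nat.mul_le_mul_right _ (hi.le.trans ?_))
    refine Finset.card_le_card fun z hz => ?_
    rw [Equiv.Perm.mem_support_cycleOf_iff] at hz
    rw [Finset.mem_filter]
    exact ⟨Finset.mem_univ _, hz.1.of_inv⟩
  · rw [Equiv.Perm.notMem_support] at hx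
    have h2 : y = x := by
      obtain ⟨i, rfl⟩ := h1
      exact Equiv.Perm.zpow_apply_eq_self_of_apply_eq_self hx i
    rw [h2, sub_self, B4_zero]
    exact Nat.zero_le _

variable {t : ℝ}

/-- The probability that some particle makes `m` moves within one period. -/
private theorem B4_fast (ht : 0 ≤ t) (m : ℕ) :
    P N N n t (fun l => ∃ v : Vx N N n, HasWalk (gT N N n) m v l) ≤
      (N : ℝ) ^ (n + 1) * ((2 * (n + 1) * t) ^ m / (m.factorial : ℝ)) := by
  have h1 : ∀ v : Vx N N n, Pr (fun _ : Ed N N n => t) (HasWalk (gT N N n) m v) ≤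
      (2 * (n + 1) * t) ^ m / (m.factorial : ℝ) := by
    intro v
    refine walk_le (fun _ => ht) (2 * (n + 1) * t) (fun v => ?_) m v
    have h1 := inc_mass (L := N) (W := N) (n := n) (t := t) ht {v}
    rw [Set.ncard_singleton] at h1
    simpa using h1
  calc P N N n t (fun l => ∃ v : Vx N N n, HasWalk (gT N N n) m v l)
      ≤ P N N n t (fun l => ∃ v ∈ (Finset.univ : Finset (Vx N N n)),
          HasWalk (gT N N n) m v l) := by
        refine Pr_mono (fun _ => ht) fun l hl => ?_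
        obtain ⟨w, h2⟩ := hl
        exact ⟨w, Finset.mem_univ _, h2⟩
    _ ≤ ∑ v : Vx N N n, P N N n t (HasWalk (gT N N n) m v) := Pr_exists_le (fun _ => ht) _ _
    _ ≤ ∑ _v : Vx N N n, (2 * (n + 1) * t) ^ m / (m.factorial : ℝ) :=
        Finset.sum_le_sum fun v _ => h1 v
    _ = (N : ℝ) ^ (n + 1) * ((2 * (n + 1) * t) ^ m / (m.factorial : ℝ)) := by
        rw [Finset.sum_const, Finset.card_univ, nsmul_eq_mul]
        congr 1
        rw [Fintype.card_prod, Fintype.card_fun, ZMod.card, Fintype.card_fin]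
        push_cast
        ring

private theorem B4_or {α : Type*} [Fintype α] {c : α → ℝ} (hc : ∀ a, 0 ≤ c a)
    (A B : List α → Prop) : Pr c (fun l => A l ∨ B l) ≤ Pr c A + Pr c B := by
  have h := Pr_exists_le hc (Finset.univ : Finset Bool) (fun b l => if b = true then A l else B l)
  simpa [or_comm] using h

/-- numerical -/
private theorem B4_num (n : ℕ) (t : ℝ) (ht : 0 ≤ t) (N m : ℕ) (hN : 1 ≤ N)
    (h1 : 2 * ((n : ℝ) + 1) * Real.exp 2 * t ≤ m) (h2 : ((n : ℝ) + 2) * Real.log N ≤ m) (hm : 1 ≤ m) :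
    (N : ℝ) ^ (n + 1) * ((2 * (n + 1) * t) ^ m / (m.factorial : ℝ)) ≤ 1 / N := by
  have hN0 : (0 : ℝ) < N := by exact_mod_cast hN
  have hm0 : (0 : ℝ) < m := by exact_mod_cast hm
  have h3 : (m : ℝ) ^ m ≤ (m.factorial : ℝ) * Real.exp m := by
    have h := Real.pow_div_factorial_le_exp (m : ℝ) (by positivity) m
    rw [div_le_iff₀ (by positivity)] at h
    linarith
  have h4 : (2 * ((n : ℝ) + 1) * t) ^ m ≤ (Real.exp (-2) * m) ^ m := by
    refine pow_le_pow_left₀ (by positivity) ?_ m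
    rw [Real.exp_neg, inv_mul_eq_div, le_div_iff₀ (Real.exp_pos _)]
    linarith
  have h5 : (2 * ((n : ℝ) + 1) * t) ^ m / (m.factorial : ℝ) ≤ Real.exp (-m) := by
    rw [div_le_iff₀ (by positivity)]
    calc (2 * ((n : ℝ) + 1) * t) ^ m ≤ (Real.exp (-2) * m) ^ m := h4
      _ = Real.exp (-(2 * m)) * (m : ℝ) ^ m := by
          rw [mul_pow, ← Real.exp_nat_mul]
          congr 2
          ring
      _ ≤ Real.exp (-(2 * m)) * ((m.factorial : ℝ) * Real.exp m) :=
          mul_le_mul_of_nonneg_left h3 (Real.exp_pos _).le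
      _ = Real.exp (-m) * (m.factorial : ℝ) := by
          have : Real.exp (-(m : ℝ)) = Real.exp (-(2 * m)) * Real.exp m := by
            rw [← Real.exp_add]
            congr 1
            ring
          rw [this]
          ring
  have h6 : (N : ℝ) ^ (n + 1) * Real.exp (-m) ≤ 1 / N := by
    rw [le_div_iff₀ hN0]
    have h7 : (N : ℝ) ^ (n + 1) * Real.exp (-m) * N = (N : ℝ) ^ (n + 2) * Real.exp (-m) := by ring
    rw [h7]
    have h8 : (N : ℝ) ^ (n + 2) = Real.exp (((n : ℝ) + 2) * Real.log N) := by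
      rw [← Real.exp_log (show (0 : ℝ) < (N : ℝ) ^ (n + 2) by positivity), Real.log_pow]
      push_cast
      rfl
    rw [h8, ← Real.exp_add, ← Real.exp_zero]
    exact Real.exp_le_exp.2 (by linarith)
  exact le_trans (mul_le_mul_of_nonneg_left h5 (by positivity)) h6

/-- The longest cycle has at least `N / (log N) ^ 2` points, up to a constant, if the correlation
length is infinite (or at least `N ^ 2`). -/
theorem long_cycle (n : ℕ) : ∃ C : ℝ, 0 < C ∧ ∀ t : ℝ, 0 ≤ t → ∀ (N : ℕ) [NeZero N],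
    C * (1 + t) ^ 4 ≤ N → ((N ^ 2 : ℕ) : ℕ∞) ≤ xi n t →
      1 - 2 / (N : ℝ) ≤ P N N n t (fun l => ∃ x : Vx N N n,
        (N : ℝ) / (C * (1 + t) * Real.log N ^ 2) ≤ (cyc N N n x l : ℝ)) := by
  classical
  obtain ⟨C₁, hC₁, h⟩ := diam_large n
  obtain ⟨A, hA⟩ : ∃ A : ℝ, A = 2 * ((n : ℝ) + 1) * Real.exp 2 + ((n : ℝ) + 2) := ⟨_, rfl⟩
  have hA0 : 0 < A := by rw [hA]; positivity
  obtain ⟨B, hB⟩ : ∃ B : ℝ, B = 484128 * (C₁ + 1) := ⟨_, rfl⟩
  have hB1 : 484128 ≤ B := by rw [hB]; linarith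
  refine ⟨B ^ 4 + 121032 * (A + 1), by positivity, fun t ht N _ hN hxi => ?_⟩
  have h1t : (1 : ℝ) ≤ 1 + t := by linarith
  -- the size of `N`
  have hN0 : (0 : ℝ) ≤ N := Nat.cast_nonneg N
  obtain ⟨a, ha⟩ : ∃ a : ℝ, a = Real.sqrt (Real.sqrt N) := ⟨_, rfl⟩
  have ha0 : 0 ≤ a := by rw [ha]; positivity
  have ha4 : a ^ 4 = N := by
    rw [ha, show (4 : ℕ) = 2 * 2 by norm_num, pow_mul, Real.sq_sqrt (Real.sqrt_nonneg _),
      Real.sq_sqrt hN0]
  have hBa : B * (1 + t) ≤ a := by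
    refine le_of_pow_le_pow_left₀ (by norm_num : 4 ≠ 0) ha0 ?_
    rw [mul_pow, ha4]
    refine le_trans (mul_le_mul_of_nonneg_right ?_ (by positivity)) hN
    have : 0 ≤ 121032 * (A + 1) := by positivity
    linarith
  have ha1 : 484128 ≤ a := by nlinarith
  have hN3 : (3 : ℝ) ≤ N := by
    rw [← ha4]
    have h2 : (1 : ℝ) ≤ a ^ 3 := one_le_pow₀ (by linarith)
    nlinarith
  have hN1 : 1 ≤ N := by
    have : (1 : ℝ) ≤ N := by linarith
    exact_mod_cast this
  have hNpos : (0 : ℝ) < N := by linarith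
  have hlog1 : 1 ≤ Real.log N := by
    rw [Real.le_log_iff_exp_le hNpos]
    have := Real.exp_one_lt_d9
    linarith
  have hloga : Real.log N ≤ 4 * a := by
    have h2 : Real.log N = 4 * Real.log a := by
      rw [← ha4, Real.log_pow]
      norm_num
    have h3 : Real.log a ≤ a := (Real.log_le_sub_one_of_pos (by linarith)).trans (by linarith)
    linarith
  -- the numbers `k`, `r`, `m`
  set k : ℕ := ⌈Real.log N⌉₊ with hk
  have hk1 : Real.log N ≤ k := Nat.le_ceil _
  have hk2 : (k : ℝ) ≤ 2 * Real.log N := by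
    have := (Nat.ceil_lt_add_one (by linarith : 0 ≤ Real.log N)).le
    linarith
  have hk3 : 1 ≤ k := by
    have : (1 : ℝ) ≤ k := by linarith
    exact_mod_cast this
  set r : ℕ := N / (60516 * k) with hr
  have hr1 : 60516 * k * r ≤ N := Nat.mul_div_le N _
  have hr2 : N < 60516 * k * (r + 1) := by
    have := Nat.lt_mul_div_succ N (show 0 < 60516 * k by omega)
    simpa [hr] using this
  have hr2' : (N : ℝ) < 60516 * k * (r + 1) := by exact_mod_cast hr2
  have hr3 : C₁ * (1 + t) ^ 3 ≤ r := by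
    have h2 : (N : ℝ) ≤ 484128 * a * (r + 1) := by
      refine hr2'.le.trans (mul_le_mul_of_nonneg_right ?_ (by positivity))
      linarith
    have h3 : a ^ 3 ≤ 484128 * (r + 1) := by
      have h4 : a * a ^ 3 ≤ a * (484128 * (r + 1)) := by
        calc a * a ^ 3 = N := by rw [← ha4]; ring
          _ ≤ 484128 * a * (r + 1) := h2
          _ = a * (484128 * (r + 1)) := by ring
      exact le_of_mul_le_mul_left h4 (by linarith)
    have h5 : (B * (1 + t)) ^ 3 ≤ a ^ 3 := pow_le_pow_left₀ (by positivity) hBa 3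
    have h6 : 484128 * ((C₁ + 1) * (1 + t) ^ 3) ≤ (B * (1 + t)) ^ 3 := by
      rw [mul_pow]
      have h7 : B ≤ B ^ 3 := by
        calc B = B ^ 1 := (pow_one B).symm
          _ ≤ B ^ 3 := pow_le_pow_right₀ (by linarith) (by norm_num)
      have h8 : 484128 * ((C₁ + 1) * (1 + t) ^ 3) = B * (1 + t) ^ 3 := by rw [hB]; ring
      rw [h8]
      exact mul_le_mul_of_nonneg_right h7 (by positivity)
    have h9 : (C₁ + 1) * (1 + t) ^ 3 ≤ (r : ℝ) + 1 := by linarith
    have h10 : (1 : ℝ) ≤ (1 + t) ^ 3 := one_le_pow₀ h1t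
    nlinarith
  have hrN : r < N := Nat.div_lt_self (by omega) (by omega)
  have hr4 : ((r ^ 2 : ℕ) : ℕ∞) < xi n t := by
    refine lt_of_lt_of_le ?_ hxi
    exact_mod_cast Nat.pow_lt_pow_left hrN (by norm_num)
  set m : ℕ := ⌈A * (1 + t) * Real.log N⌉₊ with hm
  have hm1 : A * (1 + t) * Real.log N ≤ m := Nat.le_ceil _
  have hm2 : (m : ℝ) ≤ (A + 1) * (1 + t) * Real.log N := by
    have h2 := (Nat.ceil_lt_add_one (by positivity : 0 ≤ A * (1 + t) * Real.log N)).le
    have h3 : 1 ≤ (1 + t) * Real.log N := one_le_mul_of_one_le_of_one_le h1t hlog1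
    nlinarith
  have hA1 : A ≤ A * (1 + t) := le_mul_of_one_le_right hA0.le h1t
  have hm3 : 2 * ((n : ℝ) + 1) * Real.exp 2 * t ≤ m := by
    refine le_trans ?_ hm1
    have h2 : 2 * ((n : ℝ) + 1) * Real.exp 2 ≤ A := by rw [hA]; linarith [Nat.cast_nonneg (α := ℝ) n]
    calc 2 * ((n : ℝ) + 1) * Real.exp 2 * t ≤ A * (1 + t) :=
          mul_le_mul h2 (by linarith) ht hA0.le
      _ ≤ A * (1 + t) * Real.log N := le_mul_of_one_le_right (by positivity) hlog1
  have hm4 : ((n : ℝ) + 2) * Real.log N ≤ m := by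
    refine le_trans (mul_le_mul_of_nonneg_right ?_ (by linarith)) hm1
    refine le_trans ?_ hA1
    rw [hA]
    have : 0 ≤ 2 * ((n : ℝ) + 1) * Real.exp 2 := by positivity
    linarith
  have hm5 : 1 ≤ m := by
    have : (1 : ℝ) ≤ m := by
      refine le_trans ?_ hm4
      have : (0 : ℝ) ≤ n := Nat.cast_nonneg n
      nlinarith
    exact_mod_cast this
  -- the two events
  have h1 := h t ht r hr3 hr4 N k hk3 hr1
  have h2 : Real.exp (-(k : ℝ) ^ (n + 1)) ≤ 1 / N := by
    have h3 : Real.log N ≤ (k : ℝ) ^ (n + 1) := by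
      refine hk1.trans ?_
      calc (k : ℝ) = (k : ℝ) ^ 1 := (pow_one _).symm
        _ ≤ (k : ℝ) ^ (n + 1) := pow_le_pow_right₀ (by exact_mod_cast hk3) (by omega)
    calc Real.exp (-(k : ℝ) ^ (n + 1)) ≤ Real.exp (-Real.log N) := Real.exp_le_exp.2 (by linarith)
      _ = 1 / N := by rw [Real.exp_neg, Real.exp_log hNpos, one_div]
  have h3 := (B4_fast (n := n) (N := N) ht m).trans (B4_num n t ht N m hN1 hm3 hm4 hm5)
  have h4 : P N N n t (fun l => ∃ x y : Vx N N n,
      (l.map (gT N N n)).prod.SameCycle x y ∧ r < nrm (y - x)) ≤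
      P N N n t (fun l => ∃ x : Vx N N n,
        (N : ℝ) / ((B ^ 4 + 121032 * (A + 1)) * (1 + t) * Real.log N ^ 2) ≤
          (cyc N N n x l : ℝ)) +
      P N N n t (fun l => ∃ v : Vx N N n, HasWalk (gT N N n) m v l) := by
    refine le_trans (Pr_mono (fun _ => ht) (B := fun l => (∃ x : Vx N N n,
      (N : ℝ) / ((B ^ 4 + 121032 * (A + 1)) * (1 + t) * Real.log N ^ 2) ≤
        (cyc N N n x l : ℝ)) ∨
      ∃ v : Vx N N n, HasWalk (gT N N n) m v l) fun l hl => ?_) (B4_or (fun _ => ht) _ _)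
    by_cases h5 : ∃ v : Vx N N n, HasWalk (gT N N n) m v l
    · exact Or.inr h5
    · refine Or.inl ?_
      rw [not_exists] at h5
      obtain ⟨x, y, h6, h7⟩ := hl
      refine ⟨x, ?_⟩
      rw [div_le_iff₀' (by positivity)]
      have h8 := B4_cycle _ m (B4_jump m l h5) x y h6
      have h9 : r + 1 ≤ cyc N N n x l * m := by
        unfold cyc
        exact lt_of_lt_of_le h7 h8
      have h10 : (r : ℝ) + 1 ≤ (cyc N N n x l : ℝ) * m := by exact_mod_cast h9
      calc (N : ℝ) ≤ 60516 * k * (r + 1) := hr2'.le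
        _ ≤ 60516 * (2 * Real.log N) * ((cyc N N n x l : ℝ) * ((A + 1) * (1 + t) * Real.log N)) := by
            refine mul_le_mul (by linarith) (h10.trans ?_) (by positivity) (by positivity)
            exact mul_le_mul_of_nonneg_left hm2 (Nat.cast_nonneg _)
        _ = 121032 * (A + 1) * ((1 + t) * Real.log N ^ 2 * (cyc N N n x l : ℝ)) := by ring
        _ ≤ (B ^ 4 + 121032 * (A + 1)) * ((1 + t) * Real.log N ^ 2 * (cyc N N n x l : ℝ)) := by
            refine mul_le_mul_of_nonneg_right ?_ (by positivity)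
            have : 0 ≤ B ^ 4 := by positivity
            linarith
        _ = _ := by ring
  have h5 : 2 / (N : ℝ) = 1 / N + 1 / N := by ring
  linarith

end

end Pool.Agent.ThinTori.Dim

end

/-! Stirring on the torus, row A10a: the square root of a probability is a Lipschitz function of the
square root of the time -/

section

open Finset

namespace Pool.Agent.ThinTori

section

variable {α : Type*} [Fintype α]

private theorem A10_scale (r : ℝ) (c : α → ℝ) (F : List α → ℝ) (n : ℕ) :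
    wordSum (fun a => r * c a) F n = r ^ n * wordSum c F n := by
  unfold wordSum
  rw [Finset.mul_sum]
  refine Finset.sum_congr rfl fun w _ => ?_
  rw [Finset.prod_mul_distrib, Finset.prod_const, Finset.card_univ, Fintype.card_fin]
  ring

private theorem A10_nonneg (c : α → ℝ) (hc : ∀ a, 0 ≤ c a) (F : List α → ℝ) (hF : ∀ l, 0 ≤ F l)
    (n : ℕ) : 0 ≤ wordSum c F n := by
  unfold wordSum
  exact Finset.sum_nonneg fun w _ => mul_nonneg (Finset.prod_nonneg fun i _ => hc _) (hF _)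

/- Cauchy-Schwarz for two times -/
private theorem A10_cs (c : α → ℝ) (hc : ∀ a, 0 ≤ c a) (F : List α → ℝ) (hF : ∀ l, 0 ≤ F l)
    (hF1 : ∀ l, F l ≤ 1) (s t : ℝ) (hs : 0 ≤ s) (ht : 0 ≤ t) :
    Z (fun a => √t * √s * c a) F ≤ √(Z (fun a => t * c a) F) * √(Z (fun a => s * c a) F) := by
  have hF' : ∀ l, |F l| ≤ 1 := fun l => by rw [abs_of_nonneg (hF l)]; exact hF1 l
  have hw : ∀ n, 0 ≤ wordSum c F n := A10_nonneg c hc F hF
  have hu : ∀ r : ℝ, 0 ≤ r → ∀ n : ℕ, 0 ≤ wordSum (fun a => r * c a) F n / (n.factorial : ℝ) :=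
    fun r hr n => by
      rw [A10_scale]
      exact div_nonneg (mul_nonneg (pow_nonneg hr n) (hw n)) (by positivity)
  unfold Z
  refine Real.tsum_le_of_sum_range_le (hu _ (by positivity)) fun n => ?_
  have h1 : ∀ i : ℕ, wordSum (fun a => √t * √s * c a) F i / (i.factorial : ℝ) =
      √(wordSum (fun a => t * c a) F i / (i.factorial : ℝ)) *
        √(wordSum (fun a => s * c a) F i / (i.factorial : ℝ)) := by
    intro i
    rw [← Real.sqrt_mul (hu t ht i), A10_scale, A10_scale, A10_scale]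
    have h2 : t ^ i * wordSum c F i / (i.factorial : ℝ) * (s ^ i * wordSum c F i / (i.factorial : ℝ)) =
        ((√t * √s) ^ i * wordSum c F i / (i.factorial : ℝ)) ^ 2 := by
      have h3 : t ^ i = (√t ^ i) ^ 2 := by rw [← pow_mul, mul_comm i 2, pow_mul, Real.sq_sqrt ht]
      have h4 : s ^ i = (√s ^ i) ^ 2 := by rw [← pow_mul, mul_comm i 2, pow_mul, Real.sq_sqrt hs]
      rw [h3, h4, mul_pow]
      ring
    rw [h2, Real.sqrt_sq (div_nonneg (mul_nonneg (by positivity) (hw i)) (by positivity))]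
  simp only [h1]
  refine (Real.sum_sqrt_mul_sqrt_le (Finset.range n) (fun i => hu t ht i)
    (fun i => hu s hs i)).trans ?_
  refine mul_le_mul (Real.sqrt_le_sqrt ?_) (Real.sqrt_le_sqrt ?_) (Real.sqrt_nonneg _)
    (Real.sqrt_nonneg _)
  · exact (summable_of_bounded _ F hF').sum_le_tsum _ fun i _ => hu t ht i
  · exact (summable_of_bounded _ F hF').sum_le_tsum _ fun i _ => hu s hs i

private theorem A10_Pr (r : ℝ) (c : α → ℝ) (A : List α → Prop) [DecidablePred A] :
    Pr (fun a => r * c a) A = Real.exp (-(r * ∑ a, c a)) *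
      Z (fun a => r * c a) (fun l => if A l then 1 else 0) := by
  unfold Pr
  rw [Finset.mul_sum]
  congr 2
  funext l
  split_ifs <;> rfl

private theorem A10_hell (c : α → ℝ) (hc : ∀ a, 0 ≤ c a) (A : List α → Prop) (s t : ℝ)
    (hs : 0 ≤ s) (ht : 0 ≤ t) :
    Real.exp (-((∑ a, c a) * (√t - √s) ^ 2 / 2)) ≤
      √(Pr (fun a => t * c a) A) * √(Pr (fun a => s * c a) A) +
      √(1 - Pr (fun a => t * c a) A) * √(1 - Pr (fun a => s * c a) A) := by
  classical
  set m := ∑ a, c a with hm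
  have key : ∀ B : List α → Prop, Real.exp (-((t + s) / 2 * m)) *
      Z (fun a => √t * √s * c a) (fun l => if B l then 1 else 0) ≤
      √(Pr (fun a => t * c a) B) * √(Pr (fun a => s * c a) B) := by
    intro B
    rw [A10_Pr, A10_Pr, Real.sqrt_mul (Real.exp_pos _).le, Real.sqrt_mul (Real.exp_pos _).le]
    have h1 := A10_cs c hc (fun l => if B l then 1 else 0) (fun l => by split_ifs <;> norm_num)
      (fun l => by split_ifs <;> norm_num) s t hs ht
    have h2 : Real.exp (-((t + s) / 2 * m)) = √(Real.exp (-(t * m))) * √(Real.exp (-(s * m))) := by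
      rw [← Real.sqrt_mul (Real.exp_pos _).le, ← Real.exp_add,
        show -(t * m) + -(s * m) = -((t + s) / 2 * m) + -((t + s) / 2 * m) by ring, Real.exp_add,
        Real.sqrt_mul_self (Real.exp_pos _).le]
    rw [h2]
    calc √(Real.exp (-(t * m))) * √(Real.exp (-(s * m))) *
          Z (fun a => √t * √s * c a) (fun l => if B l then 1 else 0)
        ≤ √(Real.exp (-(t * m))) * √(Real.exp (-(s * m))) *
          (√(Z (fun a => t * c a) (fun l => if B l then 1 else 0)) *
            √(Z (fun a => s * c a) (fun l => if B l then 1 else 0))) :=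
          mul_le_mul_of_nonneg_left h1 (by positivity)
      _ = _ := by ring
  have h1 := key A
  have h2 := key fun l => ¬ A l
  rw [Pr_not, Pr_not] at h2
  have h3 : Z (fun a => √t * √s * c a) (fun l => if A l then 1 else 0) +
      Z (fun a => √t * √s * c a) (fun l => if ¬ A l then 1 else 0) =
      Real.exp (√t * √s * m) := by
    rw [← Z_add (C := 1) (C' := 1) _ (fun l => by split_ifs <;> norm_num)
      (fun l => by split_ifs <;> norm_num)]
    have h4 : (fun l : List α => (if A l then (1 : ℝ) else 0) + if ¬ A l then 1 else 0) =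
        fun _ => 1 := by
      funext l
      by_cases h : A l <;> simp [h]
    rw [h4, Z_const, one_mul, hm, Finset.mul_sum]
  have h5 : Real.exp (-(m * (√t - √s) ^ 2 / 2)) =
      Real.exp (-((t + s) / 2 * m)) * Real.exp (√t * √s * m) := by
    rw [← Real.exp_add, sub_sq, Real.sq_sqrt ht, Real.sq_sqrt hs]
    congr 1
    ring
  rw [h5, ← h3, mul_add]
  refine le_trans (le_of_eq ?_) (add_le_add h1 h2)
  congr!

/-- The square root of the probability of an event which depends only on the letters in `p` is a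
Lipschitz function of the square root of the time. -/
theorem Pr_sqrt_time (p : α → Bool) (A : List α → Prop) (hA : ∀ l, A (l.filter p) ↔ A l) (M : ℝ)
    (hM : ∑ a, restr (fun _ => (1 : ℝ)) p a ≤ M) (s t : ℝ) (hs : 0 ≤ s) (ht : 0 ≤ t) :
    (√(Pr (fun _ => t) A) - √(Pr (fun _ => s) A)) ^ 2 ≤ M * (√t - √s) ^ 2 := by
  have h1 : ∀ r : ℝ, Pr (fun _ : α => r) A = Pr (fun a => r * restr (fun _ => (1 : ℝ)) p a) A := by
    intro r
    have h2 : Pr (fun _ : α => r) A = Pr (fun _ : α => r) (fun l => A (l.filter p)) :=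
      Pr_congr _ fun l _ => (hA l).symm
    rw [h2, Pr_filter]
    congr 1
    funext a
    unfold restr
    split_ifs <;> simp
  have hc : ∀ a, 0 ≤ restr (fun _ => (1 : ℝ)) p a := fun a => by
    unfold restr
    split_ifs <;> norm_num
  have h2 := A10_hell (restr (fun _ => (1 : ℝ)) p) hc A s t hs ht
  rw [← h1, ← h1] at h2
  set P := Pr (fun _ : α => t) A with hP
  set Q := Pr (fun _ : α => s) A with hQ
  have hP0 : 0 ≤ P := Pr_nonneg (fun _ => ht) A
  have hP1 : P ≤ 1 := Pr_le_one (fun _ => ht) A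
  have hQ0 : 0 ≤ Q := Pr_nonneg (fun _ => hs) A
  have hQ1 : Q ≤ 1 := Pr_le_one (fun _ => hs) A
  have h3 : 1 - (∑ a, restr (fun _ => (1 : ℝ)) p a) * (√t - √s) ^ 2 / 2 ≤
      Real.exp (-((∑ a, restr (fun _ => (1 : ℝ)) p a) * (√t - √s) ^ 2 / 2)) := by
    have := Real.add_one_le_exp (-((∑ a, restr (fun _ => (1 : ℝ)) p a) * (√t - √s) ^ 2 / 2))
    linarith
  have h4 : √(1 - P) * √(1 - Q) ≤ ((1 - P) + (1 - Q)) / 2 := by
    nlinarith [sq_nonneg (√(1 - P) - √(1 - Q)), Real.sq_sqrt (sub_nonneg.2 hP1),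
      Real.sq_sqrt (sub_nonneg.2 hQ1)]
  have h5 : (∑ a, restr (fun _ => (1 : ℝ)) p a) * (√t - √s) ^ 2 ≤ M * (√t - √s) ^ 2 :=
    mul_le_mul_of_nonneg_right hM (sq_nonneg _)
  nlinarith [Real.sq_sqrt hP0, Real.sq_sqrt hQ0]

end

end Pool.Agent.ThinTori

end

/-! Stirring on the torus, row A10b: numerical -/

section

namespace Pool.Agent.ThinTori.Dim

theorem exit_small (n : ℕ) : ∃ C : ℝ, 0 < C ∧ ∀ k : ℕ, 1 ≤ k → ∀ R : ℕ,
    C * (k * Real.log (2 * k)) ≤ R →
    (4 * (R : ℝ)) ^ (n + 1) * (2 * (2 : ℝ) ^ (-(((3 * R : ℕ) : ℝ) / (2 * (k : ℝ))))) ≤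
      1 / (8 * ((41 : ℝ) ^ (n + 1)) ^ 2) := by
  have hG : (0 : ℝ) < ((41 : ℝ) ^ (n + 1)) ^ 2 := by positivity
  generalize ((41 : ℝ) ^ (n + 1)) ^ 2 = G at hG
  generalize n + 1 = d
  obtain ⟨m, hm⟩ := pow_unbounded_of_one_lt (16 * G * 4 ^ d * (d.factorial : ℝ))
    (one_lt_two : (1 : ℝ) < 2)
  refine ⟨2 * ((d : ℝ) + m) + 1, by positivity, fun k hk R hR => ?_⟩
  have hk0 : (1 : ℝ) ≤ k := by exact_mod_cast hk
  have hkp : (0 : ℝ) < k := by linarith
  obtain ⟨y, hy⟩ : ∃ y : ℝ, y = R / k := ⟨_, rfl⟩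
  have hR' : (R : ℝ) = k * y := by rw [hy]; field_simp
  have hy0 : 0 ≤ y := by rw [hy]; positivity
  have hL : 0 ≤ Real.log (2 * k) := Real.log_nonneg (by linarith)
  have hyL : ((d : ℝ) + m) * Real.log (2 * k) ≤ y / 2 := by
    have h1 : (2 * ((d : ℝ) + m) + 1) * (k * Real.log (2 * k)) ≤ k * y := by rw [← hR']; exact hR
    have h2 : k * ((2 * ((d : ℝ) + m) + 1) * Real.log (2 * k)) ≤ k * y := by
      calc k * ((2 * ((d : ℝ) + m) + 1) * Real.log (2 * k))
          = (2 * ((d : ℝ) + m) + 1) * (k * Real.log (2 * k)) := by ring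
        _ ≤ _ := h1
    have h3 := le_of_mul_le_mul_left h2 hkp
    nlinarith
  have h1 : (2 : ℝ) ^ (-(((3 * R : ℕ) : ℝ) / (2 * (k : ℝ)))) ≤ Real.exp (-y) := by
    rw [Real.rpow_def_of_pos (by norm_num)]
    apply Real.exp_le_exp.2
    have h2 : ((3 * R : ℕ) : ℝ) / (2 * (k : ℝ)) = 3 / 2 * y := by
      rw [hy]
      push_cast
      field_simp
    rw [h2]
    have := Real.log_two_gt_d9
    nlinarith
  have h2 : y ^ d ≤ (d.factorial : ℝ) * 2 ^ d * Real.exp (y / 2) := by
    have h3 := Real.pow_div_factorial_le_exp (y / 2) (by positivity) d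
    rw [div_le_iff₀ (by positivity), div_pow, div_le_iff₀ (by positivity)] at h3
    linarith
  have h3 : Real.exp (-(y / 2)) ≤ 1 / ((2 * (k : ℝ)) ^ d * 2 ^ m) := by
    have h4 : Real.exp (-(y / 2)) ≤ Real.exp (-(((d + m : ℕ) : ℝ) * Real.log (2 * k))) := by
      apply Real.exp_le_exp.2
      push_cast
      linarith
    refine h4.trans ?_
    rw [Real.exp_neg, Real.exp_nat_mul, Real.exp_log (by linarith), pow_add, ← one_div]
    refine one_div_le_one_div_of_le (by positivity) ?_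
    exact mul_le_mul_of_nonneg_left (pow_le_pow_left₀ (by norm_num) (by linarith) m) (by positivity)
  calc (4 * (R : ℝ)) ^ d * (2 * (2 : ℝ) ^ (-(((3 * R : ℕ) : ℝ) / (2 * (k : ℝ)))))
      ≤ (4 * (R : ℝ)) ^ d * (2 * Real.exp (-y)) := by
        refine mul_le_mul_of_nonneg_left ?_ (by positivity)
        linarith
    _ = 2 * (4 * (k : ℝ)) ^ d * Real.exp (-y) * y ^ d := by
        rw [hR', show 4 * ((k : ℝ) * y) = (4 * k) * y by ring, mul_pow (4 * (k : ℝ)) y]
        ring
    _ ≤ 2 * (4 * (k : ℝ)) ^ d * Real.exp (-y) * ((d.factorial : ℝ) * 2 ^ d * Real.exp (y / 2)) :=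
        mul_le_mul_of_nonneg_left h2 (by positivity)
    _ = 2 * (4 * (k : ℝ)) ^ d * ((d.factorial : ℝ) * 2 ^ d) * Real.exp (-(y / 2)) := by
        have h5 : Real.exp (-y) * Real.exp (y / 2) = Real.exp (-(y / 2)) := by
          rw [← Real.exp_add]
          congr 1
          ring
        rw [← h5]
        ring
    _ ≤ 2 * (4 * (k : ℝ)) ^ d * ((d.factorial : ℝ) * 2 ^ d) * (1 / ((2 * (k : ℝ)) ^ d * 2 ^ m)) :=
        mul_le_mul_of_nonneg_left h3 (by positivity)
    _ = 2 * 4 ^ d * (d.factorial : ℝ) / 2 ^ m := by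
        have h6 : (4 : ℝ) ^ d = 2 ^ d * 2 ^ d := by rw [← mul_pow]; norm_num
        rw [mul_pow, mul_pow, h6]
        field_simp
    _ ≤ 1 / (8 * G) := by
        rw [div_le_div_iff₀ (by positivity) (by positivity)]
        nlinarith

end Pool.Agent.ThinTori.Dim

end

/-! Stirring on the torus, row A10: the correlation length diverges at least with the exponent 2/d -/

section

open Finset

namespace Pool.Agent.ThinTori

section

variable {α : Type*} [Fintype α] {c : α → ℝ}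

private theorem A10_or (hc : ∀ a, 0 ≤ c a) (A B D : List α → Prop) (h : ∀ l, D l → A l ∨ B l) :
    Pr c D ≤ Pr c A + Pr c B := by
  have h1 : Pr c D ≤ Pr c (fun l => ∃ i ∈ (Finset.univ : Finset Bool), (if i then A else B) l) := by
    refine Pr_mono hc fun l hl => ?_
    rcases h l hl with h | h
    · exact ⟨true, Finset.mem_univ _, by simpa using h⟩
    · exact ⟨false, Finset.mem_univ _, by simpa using h⟩
  refine h1.trans ((Pr_exists_le hc Finset.univ fun i : Bool => if i then A else B).trans ?_)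
  rw [Fintype.sum_bool]
  simp

end

end Pool.Agent.ThinTori

namespace Pool.Agent.ThinTori.Dim

section

/-- A crossing of an annulus is unlikely beyond the correlation length. -/
theorem arm_small (n : ℕ) (s : ℝ) (hs : 0 ≤ s) (k : ℕ) (hk : xi n s = k) (N : ℕ) [NeZero N]
    (R : ℕ) (hR : 1 ≤ R) :
    P N N n s (Arm N n R 0) ≤
      (4 * (R : ℝ)) ^ (n + 1) * (2 * (2 : ℝ) ^ (-(((3 * R : ℕ) : ℝ) / (2 * (k : ℝ))))) +
        (16 * (R : ℝ)) ^ (n + 1) * ((2 * (n + 1) * s) ^ R / (R.factorial : ℝ)) := by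
  classical
  have hc0 : ∀ a : Ed N N n, (0 : ℝ) ≤ (fun _ : Ed N N n => s) a := fun _ => hs
  have h1 : P N N n s (Arm N n R 0) ≤
      P N N n s (fun l => ∃ x ∈ Finset.univ.filter (fun x : Vx N N n => nrm x < 2 * R),
        Exit N N n ((3 * R : ℕ) : ℤ) x l) +
      P N N n s (fun l => ∃ w : Vx N N n, nrm (w - 0) < 8 * R ∧ HasWalk (gT N N n) R w l) := by
    refine A10_or hc0 _ _ _ fun l hl => ?_
    rcases arm_cycle R hR 0 l hl with ⟨x, y, h6, h7, h8⟩ | h6
    · rw [sub_zero] at h7 h8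
      refine Or.inl ⟨x, Finset.mem_filter.2 ⟨Finset.mem_univ _, h7⟩, ?_⟩
      refine exit_of_same (3 * R) (by omega) x y ?_ l h6
      have h9 := nrm_add (y - x) x
      rw [sub_add_cancel] at h9
      omega
    · exact Or.inr h6
  refine h1.trans (add_le_add ?_ (walk_union hs R hR 0))
  have h2 : P N N n s (fun l => ∃ x ∈ Finset.univ.filter (fun x : Vx N N n => nrm x < 2 * R),
        Exit N N n ((3 * R : ℕ) : ℤ) x l) ≤
      ∑ x ∈ Finset.univ.filter (fun x : Vx N N n => nrm x < 2 * R),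
        P N N n s (Exit N N n ((3 * R : ℕ) : ℤ) x) := Pr_exists_le hc0 _ _
  refine h2.trans ?_
  have h3 : ∀ x : Vx N N n, P N N n s (Exit N N n ((3 * R : ℕ) : ℤ) x) ≤
      2 * (2 : ℝ) ^ (-(((3 * R : ℕ) : ℝ) / (2 * (k : ℝ)))) := by
    intro x
    rw [P_Exit_shift]
    exact upper n s hs k hk N (3 * R) (by omega)
  refine (Finset.sum_le_card_nsmul _ _ _ fun x _ => h3 x).trans ?_
  rw [nsmul_eq_mul]
  refine mul_le_mul_of_nonneg_right ?_ (by positivity)
  have h4 : (Finset.univ.filter (fun x : Vx N N n => nrm x < 2 * R)).card ≤ (4 * R) ^ (n + 1) := by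
    have h5 := box_ncard (L := N) (W := N) (n := n) (2 * R) (by omega)
    have h6 : (Finset.univ.filter (fun x : Vx N N n => nrm x < 2 * R)).card ≤
        (box N N n ((2 * R : ℕ) : ℤ)).ncard := by
      rw [Set.ncard_eq_toFinset_card']
      refine Finset.card_le_card fun w hw => ?_
      rw [Set.mem_toFinset, mem_box_iff (2 * R) (by omega)]
      exact (Finset.mem_filter.1 hw).2
    refine h6.trans (h5.trans (le_of_eq ?_))
    congr 1
    omega
  exact_mod_cast h4

private theorem A10_time (n : ℕ) (N : ℕ) [NeZero N] (R : ℕ) (hR : 1 ≤ R) (s t : ℝ) (hs : 0 ≤ s)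
    (ht : 0 ≤ t) : (√(P N N n t (Arm N n R 0)) - √(P N N n s (Arm N n R 0))) ^ 2 ≤
      2 * (n + 1) * (12 * (R : ℝ)) ^ (n + 1) * (√t - √s) ^ 2 := by
  classical
  set S : Set (Vx N N n) := {v | nrm (v - 0) < 6 * R} with hS
  have hA : ∀ l, Arm N n R 0 (l.filter (inc (gT N N n) S)) ↔ Arm N n R 0 l := by
    intro l
    refine Far_filter (inc (gT N N n) S) _ _ (fun v hv => ?_) (fun a ha v hv => ?_) l
    · show nrm (v - 0) < 6 * R
      have hv' : nrm (v - 0) < R := hv
      omega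
    · by_contra hcon
      unfold inc at ha
      simp only [decide_eq_false_iff_not] at ha
      exact ha ⟨v, hv, hcon⟩
  refine Pr_sqrt_time (inc (gT N N n) S) (Arm N n R 0) hA _ ?_ s t hs ht
  have h1 := inc_mass (L := N) (W := N) (n := n) (t := 1) zero_le_one S
  refine h1.trans ?_
  have h2 : S.ncard ≤ (12 * R) ^ (n + 1) := by
    have h3 : S = box N N n ((6 * R : ℕ) : ℤ) := by
      ext v
      rw [mem_box_iff (6 * R) (by omega), hS, Set.mem_ofPred_eq, sub_zero]
    rw [h3]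
    refine (box_ncard (L := N) (W := N) (n := n) (6 * R) (by omega)).trans (le_of_eq ?_)
    congr 1
    omega
  have h4 : (S.ncard : ℝ) ≤ (12 * (R : ℝ)) ^ (n + 1) := by exact_mod_cast h2
  rw [mul_one]
  exact mul_le_mul_of_nonneg_left h4 (by positivity)

/-- If the correlation length is infinite, the crossings of all scales are likely. -/
theorem arm_crit (n : ℕ) (t : ℝ) (ht : 0 ≤ t) (hxt : xi n t = ⊤) (R : ℕ) (hR : 1 ≤ R) (N : ℕ)
    [NeZero N] (hN : 12 * R + 1 ≤ N) :
    1 / 2 < ((41 : ℝ) ^ (n + 1)) ^ 2 * P N N n t (Arm N n R 0) := by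
  by_contra hcon
  rw [not_lt] at hcon
  obtain ⟨C₁, hC₁, h₁⟩ := xi_le_sq n
  obtain ⟨j, hj⟩ := pow_unbounded_of_one_lt (C₁ * (1 + t) ^ 3) (by norm_num : (1 : ℝ) < 5)
  have h5 : 1 ≤ 5 ^ j := Nat.one_le_pow _ _ (by norm_num)
  have hRj : R ≤ 5 ^ j * R := Nat.le_mul_of_pos_left R h5
  have hbig : C₁ * (1 + t) ^ 3 ≤ ((5 ^ j * R : ℕ) : ℝ) := by
    have h6 : (5 : ℝ) ^ j ≤ ((5 ^ j * R : ℕ) : ℝ) := by
      have : 5 ^ j ≤ 5 ^ j * R := Nat.le_mul_of_pos_right _ hR
      exact_mod_cast this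
    linarith
  have h2 : ((41 : ℝ) ^ (n + 1)) ^ 2 * P (12 * (5 ^ j * R) + 1) (12 * (5 ^ j * R) + 1) n t
      (Arm (12 * (5 ^ j * R) + 1) n R 0) ≤ 1 / 2 := by
    rw [← arm_local n t R N (12 * (5 ^ j * R) + 1) hR hN (by omega)]
    exact hcon
  have h3 := arm_double n t ht (12 * (5 ^ j * R) + 1) R hR h2 j
  have h4 := h₁ t ht (5 ^ j * R) hbig (12 * (5 ^ j * R) + 1) le_rfl (h3.trans (by
    have h7 : 1 ≤ 2 ^ j := Nat.one_le_pow _ _ (by norm_num)
    calc (1 / 2 : ℝ) ^ (2 ^ j) ≤ (1 / 2) ^ 1 :=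
          pow_le_pow_of_le_one (by norm_num) (by norm_num) h7
      _ = 1 / 2 := pow_one _))
  rw [hxt] at h4
  exact absurd (lt_of_le_of_lt h4 (ENat.natCast_lt_top _)) (lt_irrefl _)

private theorem A10_rate (n : ℕ) : ∃ K : ℝ, 0 < K ∧ ∀ s t : ℝ, 0 ≤ s → 0 ≤ t → xi n t = ⊤ →
    ∀ k : ℕ, xi n s = k →
      1 ≤ K * (√t - √s) ^ 2 * ((1 + s) * (k * Real.log (2 * k))) ^ (n + 1) := by
  obtain ⟨C₂, hC₂, h₂⟩ := walk_small n
  obtain ⟨C₃, hC₃, h₃⟩ := exit_small n
  obtain ⟨G, hG⟩ : ∃ G : ℝ, G = ((41 : ℝ) ^ (n + 1)) ^ 2 := ⟨_, rfl⟩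
  have hG0 : 0 < G := by rw [hG]; positivity
  refine ⟨128 * G * (2 * (n + 1) * (12 * (2 * C₂ + C₃ + 2)) ^ (n + 1)), by positivity,
    fun s t hs ht hxt k hk => ?_⟩
  obtain ⟨hk1, -⟩ := xi_crit n s k hk
  have hk1' : (1 : ℝ) ≤ k := by exact_mod_cast hk1
  obtain ⟨Y, hY⟩ : ∃ Y : ℝ, Y = (k : ℝ) * Real.log (2 * k) := ⟨_, rfl⟩
  have hY1 : 1 ≤ 2 * Y := by
    have h1 : Real.log 2 ≤ Real.log (2 * k) := Real.log_le_log (by norm_num) (by linarith)
    have h2 := Real.log_two_gt_d9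
    rw [hY]
    nlinarith
  have hs1 : (1 : ℝ) ≤ 1 + s := by linarith
  obtain ⟨R, hRdef⟩ : ∃ R : ℕ, R = ⌈C₂ * (1 + s) + C₃ * Y⌉₊ := ⟨_, rfl⟩
  have hp2 : 0 < C₂ * (1 + s) := by positivity
  have hp3 : 0 ≤ C₃ * Y := mul_nonneg hC₃.le (by linarith)
  have hX0 : 0 < C₂ * (1 + s) + C₃ * Y := by linarith
  have hRge : C₂ * (1 + s) + C₃ * Y ≤ R := by rw [hRdef]; exact Nat.le_ceil _
  have hRle : (R : ℝ) ≤ C₂ * (1 + s) + C₃ * Y + 1 := by
    rw [hRdef]; exact (Nat.ceil_lt_add_one hX0.le).le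
  have hR1 : 1 ≤ R := by rw [hRdef]; exact Nat.one_le_iff_ne_zero.2 (Nat.ceil_pos.2 hX0).ne'
  have ha : 1 / (2 * G) ≤ P (12 * R + 1) (12 * R + 1) n t (Arm (12 * R + 1) n R 0) := by
    have h4 := arm_crit n t ht hxt R hR1 (12 * R + 1) le_rfl
    rw [← hG] at h4
    rw [div_le_iff₀ (by positivity)]
    linarith
  have hb : P (12 * R + 1) (12 * R + 1) n s (Arm (12 * R + 1) n R 0) ≤ 3 / (8 * G) := by
    refine (arm_small n s hs k hk (12 * R + 1) R hR1).trans ?_
    have h5 := h₂ s hs R (by linarith)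
    have h6 := h₃ k hk1 R (by rw [← hY]; linarith)
    rw [← hG] at h5 h6
    have h7 : 3 / (8 * G) = 1 / (8 * G) + 1 / (4 * G) := by
      field_simp
      norm_num
    rw [h7]
    exact add_le_add h6 h5
  have hab := A10_time n (12 * R + 1) R hR1 s t hs ht
  obtain ⟨a, hadef⟩ : ∃ a, a = √(P (12 * R + 1) (12 * R + 1) n t (Arm (12 * R + 1) n R 0)) :=
    ⟨_, rfl⟩
  obtain ⟨b, hbdef⟩ : ∃ b, b = √(P (12 * R + 1) (12 * R + 1) n s (Arm (12 * R + 1) n R 0)) :=
    ⟨_, rfl⟩
  have ha0 : 0 ≤ a := by rw [hadef]; exact Real.sqrt_nonneg _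
  have hb0 : 0 ≤ b := by rw [hbdef]; exact Real.sqrt_nonneg _
  have hPt0 : 0 ≤ P (12 * R + 1) (12 * R + 1) n t (Arm (12 * R + 1) n R 0) :=
    Pr_nonneg (fun _ => ht) _
  have hPs0 : 0 ≤ P (12 * R + 1) (12 * R + 1) n s (Arm (12 * R + 1) n R 0) :=
    Pr_nonneg (fun _ => hs) _
  have ha2 : 1 / (2 * G) ≤ a ^ 2 := by
    rw [hadef, Real.sq_sqrt hPt0]
    exact ha
  have hb2 : b ^ 2 ≤ 3 / 4 * a ^ 2 := by
    have h8 : 3 / (8 * G) = 3 / 4 * (1 / (2 * G)) := by
      field_simp
      norm_num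
    have h9 : b ^ 2 = P (12 * R + 1) (12 * R + 1) n s (Arm (12 * R + 1) n R 0) := by
      rw [hbdef, Real.sq_sqrt hPs0]
    rw [h9]
    refine (hb.trans (le_of_eq h8)).trans ?_
    linarith
  rw [← hadef, ← hbdef] at hab
  have hba : b ≤ 7 / 8 * a := by
    refine le_of_pow_le_pow_left₀ (n := 2) (by norm_num) (by positivity) ?_
    nlinarith [sq_nonneg a]
  have hd : 1 / (128 * G) ≤ (a - b) ^ 2 := by
    have h9 : (a / 8) ^ 2 ≤ (a - b) ^ 2 := pow_le_pow_left₀ (by positivity) (by linarith) 2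
    have h10 : 1 / (128 * G) = 1 / (2 * G) / 64 := by
      field_simp
      norm_num
    rw [h10]
    nlinarith
  have hRX : (R : ℝ) ≤ (2 * C₂ + C₃ + 2) * ((1 + s) * Y) := by
    obtain ⟨v, hv⟩ : ∃ v : ℝ, v = 1 + s := ⟨_, rfl⟩
    rw [← hv] at hRle ⊢
    rw [← hv] at hs1
    have e2 : v ≤ 2 * (v * Y) := by
      have : v * 1 ≤ v * (2 * Y) := mul_le_mul_of_nonneg_left hY1 (by linarith)
      linarith [show v * (2 * Y) = 2 * (v * Y) by ring]
    have e3 : Y ≤ v * Y := by
      have : 1 * Y ≤ v * Y := mul_le_mul_of_nonneg_right hs1 (by linarith)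
      linarith
    have e4 : 1 ≤ 2 * (v * Y) := hs1.trans e2
    have f2 := mul_le_mul_of_nonneg_left e2 hC₂.le
    have f3 := mul_le_mul_of_nonneg_left e3 hC₃.le
    nlinarith
  have hRpow : (12 * (R : ℝ)) ^ (n + 1) ≤ (12 * (2 * C₂ + C₃ + 2)) ^ (n + 1) *
      ((1 + s) * Y) ^ (n + 1) := by
    rw [← mul_pow]
    refine pow_le_pow_left₀ (by positivity) ?_ _
    nlinarith
  have hfin : 1 / (128 * G) ≤ 2 * (n + 1) * ((12 * (2 * C₂ + C₃ + 2)) ^ (n + 1) *
      ((1 + s) * Y) ^ (n + 1)) * (√t - √s) ^ 2 := by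
    refine (hd.trans hab).trans ?_
    refine mul_le_mul_of_nonneg_right ?_ (sq_nonneg _)
    exact mul_le_mul_of_nonneg_left hRpow (by positivity)
  rw [div_le_iff₀ (by positivity)] at hfin
  rw [← hY]
  calc (1 : ℝ) ≤ _ := hfin
    _ = _ := by ring

/-- The correlation length diverges at least with the exponent `2 / d`. -/
theorem xi_rate (n : ℕ) : ∃ C : ℝ, 0 < C ∧ ∀ s t : ℝ, 0 ≤ s → 0 ≤ t → xi n t = ⊤ →
    ∀ k : ℕ, xi n s = k →
      1 ≤ (t - s) ^ 2 * (C * (1 + s) * k * Real.log (2 * k)) ^ (n + 1) := by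
  obtain ⟨K, hK, h⟩ := A10_rate n
  obtain ⟨ε, hε, hus⟩ := xi_usc n 0 (by rw [xi_zero]; exact ENat.one_ne_top)
  refine ⟨K / ε + 1, by positivity, fun s t hs ht hxt k hk => ?_⟩
  have hte : ε ≤ t := by
    by_contra hcon
    have h1 := hus t (by rw [sub_zero, abs_of_nonneg ht]; exact not_le.1 hcon)
    rw [hxt, xi_zero] at h1
    exact absurd (lt_of_le_of_lt h1 (ENat.natCast_lt_top 1)) (lt_irrefl _)
  have h2 := h s t hs ht hxt k hk
  obtain ⟨hk1, -⟩ := xi_crit n s k hk
  have hk1' : (1 : ℝ) ≤ k := by exact_mod_cast hk1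
  obtain ⟨Y, hY⟩ : ∃ Y : ℝ, Y = (1 + s) * ((k : ℝ) * Real.log (2 * k)) := ⟨_, rfl⟩
  have hY0 : 0 ≤ Y := by
    rw [hY]
    exact mul_nonneg (by linarith) (mul_nonneg (by linarith) (Real.log_nonneg (by linarith)))
  rw [← hY] at h2
  have h3 : ε * (√t - √s) ^ 2 ≤ (t - s) ^ 2 := by
    have h4 : (t - s) ^ 2 = (√t + √s) ^ 2 * (√t - √s) ^ 2 := by
      have : t - s = (√t + √s) * (√t - √s) := by
        have e1 := Real.sq_sqrt ht
        have e2 := Real.sq_sqrt hs
        nlinarith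
      rw [this]
      ring
    rw [h4]
    refine mul_le_mul_of_nonneg_right ?_ (sq_nonneg _)
    nlinarith [Real.sq_sqrt ht, Real.sqrt_nonneg t, Real.sqrt_nonneg s]
  have h5 : ((K / ε + 1) * (1 + s) * k * Real.log (2 * k)) ^ (n + 1) =
      (K / ε + 1) ^ (n + 1) * Y ^ (n + 1) := by
    rw [← mul_pow, hY]
    congr 1
    ring
  have h6 : K / ε ≤ (K / ε + 1) ^ (n + 1) := by
    have h7 : (0 : ℝ) < K / ε := by positivity
    refine le_trans (by linarith) (le_self_pow₀ (by linarith : (1 : ℝ) ≤ K / ε + 1) (by omega))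
  rw [h5]
  calc (1 : ℝ) ≤ K * (√t - √s) ^ 2 * Y ^ (n + 1) := h2
    _ = ε * (√t - √s) ^ 2 * (K / ε * Y ^ (n + 1)) := by
        field_simp
    _ ≤ (t - s) ^ 2 * ((K / ε + 1) ^ (n + 1) * Y ^ (n + 1)) := by
        refine mul_le_mul h3 (mul_le_mul_of_nonneg_right h6 (by positivity)) (by positivity)
          (sq_nonneg _)

end

end Pool.Agent.ThinTori.Dim

end

/-! Stirring on the torus `(ℤ/N) ^ (n + 1)`, row S11: the theorem -/

section

open Finset

namespace Pool.Agent.ThinTori.Dim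

section

private theorem S11_upper (n : ℕ) (t : ℝ) (ht : 0 ≤ t) (k : ℕ) (hk : xi n t = k) (N : ℕ) [NeZero N]
    (x y : Vx N N n) (hxy : x ≠ y) :
    P N N n t (fun l => (l.map (gT N N n)).prod.SameCycle x y) ≤
      2 * (2 : ℝ) ^ (-((nrm (y - x) : ℝ) / (2 * (k : ℝ)))) := by
  have h1 : 1 ≤ nrm (y - x) := nrm_pos _ (sub_ne_zero.2 hxy.symm)
  refine le_trans ?_ (upper n t ht k hk N (nrm (y - x)) h1)
  rw [← P_Exit_shift (t := t) ((nrm (y - x) : ℕ) : ℤ) x]
  exact Pr_mono (fun _ => ht) fun l hl => exit_of_same _ h1 x y le_rfl l hl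

/- the volumes beyond the correlation length, with natural logarithms -/
private theorem S11_tail (n : ℕ) : ∃ C : ℝ, 0 < C ∧ ∀ t : ℝ, 0 ≤ t → ∀ k : ℕ, xi n t = k →
    ∀ (N : ℕ) [NeZero N], 3 ≤ N →
      (∀ (x : Vx N N n) (s : ℕ), 1 ≤ s →
        P N N n t (fun l => (C * (1 + t) * k * Real.log (2 * k)) ^ (n + 1) * s ≤
          (cyc N N n x l : ℝ)) ≤ (1 / 2) ^ s) ∧
      P N N n t (fun l => ∃ x : Vx N N n, (C * (1 + t) * k * Real.log (2 * k)) ^ (n + 1) *
        Real.log N < (cyc N N n x l : ℝ)) ≤ 1 / N := by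
  have hl2 : 0 < Real.log 2 := Real.log_pos (by norm_num)
  have hl2' : Real.log 2 ≤ 1 := by
    have := Real.log_le_sub_one_of_pos (by norm_num : (0 : ℝ) < 2)
    linarith
  obtain ⟨A, hA⟩ : ∃ A : ℝ, A = 32768 * ((n : ℝ) + 1) ^ 2 / Real.log 2 := ⟨_, rfl⟩
  have hA0 : 0 < A := by rw [hA]; positivity
  obtain ⟨B, hB⟩ : ∃ B : ℝ, B = ((n : ℝ) + 3) / Real.log 2 := ⟨_, rfl⟩
  have hB1 : 1 ≤ B := by
    rw [hB, le_div_iff₀ hl2]
    have : (0 : ℝ) ≤ n := Nat.cast_nonneg n
    linarith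
  refine ⟨A * B, by positivity, fun t ht k hk N _ hN => ?_⟩
  have hk1 : 1 ≤ k := (xi_crit n t k hk).1
  have hk' : (1 : ℝ) ≤ k := by exact_mod_cast hk1
  have hlog : 0 ≤ Real.log (2 * k) := Real.log_nonneg (by linarith)
  have hq : 0 ≤ (1 + t) * k * Real.log (2 * k) := by positivity
  have hvol : volScale n t k = (A * ((1 + t) * k * Real.log (2 * k))) ^ (n + 1) := by
    unfold volScale
    congr 1
    rw [hA, Real.logb]
    field_simp
  have hvol0 : 0 ≤ volScale n t k := by rw [hvol]; positivity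
  have hbig : B * volScale n t k ≤ (A * B * (1 + t) * k * Real.log (2 * k)) ^ (n + 1) := by
    have h1 : (A * B * (1 + t) * k * Real.log (2 * k)) ^ (n + 1) =
        B ^ (n + 1) * volScale n t k := by
      rw [hvol, ← mul_pow]
      congr 1
      ring
    rw [h1]
    refine mul_le_mul_of_nonneg_right ?_ hvol0
    exact le_self_pow₀ hB1 (by omega)
  constructor
  · intro x s hs
    refine le_trans (Pr_mono (fun _ => ht) fun l hl => ?_) (volume_tail_explicit n t ht k hk N x s hs)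
    refine le_trans (mul_le_mul_of_nonneg_right ?_ (Nat.cast_nonneg s)) hl
    exact le_trans (le_mul_of_one_le_left hvol0 hB1) hbig
  · refine le_trans (Pr_mono (fun _ => ht) fun l hl => ?_)
      (all_log_explicit n t ht k hk N (by omega))
    obtain ⟨x, hx⟩ := hl
    refine ⟨x, lt_of_le_of_lt ?_ hx⟩
    have h1 : ((n : ℝ) + 3) * volScale n t k * Real.logb 2 N = B * volScale n t k * Real.log N := by
      rw [hB, Real.logb]
      field_simp
    rw [h1]
    exact mul_le_mul_of_nonneg_right hbig (Real.log_natCast_nonneg N)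

theorem correlation_length (n : ℕ) (hn : 1 ≤ n) : ∃ (C : ℝ) (ξ : ℝ → ℕ∞), 0 < C ∧ ξ 0 = 1 ∧
    (∀ t : ℝ, 0 ≤ t → 1 ≤ ξ t ∧
      (ξ t ≠ ⊤ → ∃ ε : ℝ, 0 < ε ∧ ∀ s : ℝ, 0 ≤ s → |s - t| < ε → ξ s ≤ ξ t) ∧
      ∀ k : ℕ, ξ t = k → ∀ s : ℝ, 0 ≤ s → ξ s = ⊤ →
        1 ≤ (s - t) ^ 2 * (C * (1 + t) * k * Real.log (2 * k)) ^ (n + 1)) ∧
    (∀ t : ℝ, 0 ≤ t → ∀ r : ℕ, C * (1 + t) ^ 3 ≤ r → ((r ^ 2 : ℕ) : ℕ∞) < ξ t →
      ∀ (N : ℕ) [NeZero N], 6 * r < N → ∀ z : Vx N N n, 1 / (4 * (41 : ℝ) ^ (2 * (n + 1))) ≤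
        P N N n t (fun l => ∃ x y : Vx N N n, (l.map (gT N N n)).prod.SameCycle x y ∧
          nrm (x - z) < r ∧ 2 * r ≤ nrm (y - z))) ∧
    (∀ t : ℝ, 0 ≤ t → ∀ (N : ℕ) [NeZero N], C * (1 + t) ^ 4 ≤ N → ((N ^ 2 : ℕ) : ℕ∞) ≤ ξ t →
      1 - 2 / (N : ℝ) ≤ P N N n t (fun l => ∃ x : Vx N N n,
        (N : ℝ) / (C * (1 + t) * Real.log N ^ 2) ≤ (cyc N N n x l : ℝ))) ∧
    (∀ t : ℝ, 0 ≤ t → ∀ (N : ℕ) [NeZero N], 3 ≤ N → ∀ x y : Vx N N n, x ≠ y →
      (nrm (y - x) : ℕ∞) < ξ t →
        Real.exp (-(C * (1 + t))) / (nrm (y - x) : ℝ) ^ (18 * (n + 1) ^ 2) ≤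
          P N N n t (fun l => (l.map (gT N N n)).prod.SameCycle x y)) ∧
    ∀ t : ℝ, 0 ≤ t → ∀ k : ℕ, ξ t = k → ∀ (N : ℕ) [NeZero N], 3 ≤ N →
      (∀ x y : Vx N N n, x ≠ y →
        P N N n t (fun l => (l.map (gT N N n)).prod.SameCycle x y) ≤
          2 * (2 : ℝ) ^ (-((nrm (y - x) : ℝ) / (2 * (k : ℝ))))) ∧
      (∀ (x : Vx N N n) (s : ℕ), 1 ≤ s →
        P N N n t (fun l => (C * (1 + t) * k * Real.log (2 * k)) ^ (n + 1) * s ≤
          (cyc N N n x l : ℝ)) ≤ (1 / 2) ^ s) ∧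
      P N N n t (fun l => ∃ x : Vx N N n, (C * (1 + t) * k * Real.log (2 * k)) ^ (n + 1) *
        Real.log N < (cyc N N n x l : ℝ)) ≤ 1 / N := by
  obtain ⟨C₁, hC₁, hl⟩ := lower_exp n hn
  obtain ⟨C₂, hC₂, ha⟩ := all_scales n
  obtain ⟨C₅, hC₅, hd⟩ := long_cycle n
  obtain ⟨C₃, hC₃, hr⟩ := xi_rate n
  obtain ⟨C₄, hC₄, hv⟩ := S11_tail n
  have hV : ∀ (D : ℝ), 0 < D → D ≤ C₁ + C₂ + C₃ + C₄ + C₅ → ∀ t : ℝ, 0 ≤ t → ∀ k : ℕ, 1 ≤ k →
      0 ≤ (D * (1 + t) * k * Real.log (2 * k)) ^ (n + 1) ∧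
      (D * (1 + t) * k * Real.log (2 * k)) ^ (n + 1) ≤
        ((C₁ + C₂ + C₃ + C₄ + C₅) * (1 + t) * k * Real.log (2 * k)) ^ (n + 1) := by
    intro D hD hDC t ht k hk
    have hk' : (1 : ℝ) ≤ k := by exact_mod_cast hk
    have hlog : 0 ≤ Real.log (2 * k) := Real.log_nonneg (by linarith)
    refine ⟨by positivity, pow_le_pow_left₀ (by positivity) ?_ _⟩
    refine mul_le_mul_of_nonneg_right ?_ hlog
    refine mul_le_mul_of_nonneg_right ?_ (by positivity)
    exact mul_le_mul_of_nonneg_right hDC (by positivity)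
  have hk1 : ∀ (t : ℝ) (k : ℕ), xi n t = k → 1 ≤ k := fun t k hk => (xi_crit n t k hk).1
  refine ⟨C₁ + C₂ + C₃ + C₄ + C₅, xi n, by positivity, xi_zero n,
    fun t ht => ⟨one_le_xi n t, fun h => ?_, fun k hk s hs hst => ?_⟩, ?_, ?_, ?_, ?_⟩
  · obtain ⟨ε, h1, h2⟩ := xi_usc n t h
    exact ⟨ε, h1, fun s _ hs => h2 s hs⟩
  · refine (hr t s ht hs hst k hk).trans ?_
    exact mul_le_mul_of_nonneg_left (hV C₃ hC₃ (by linarith) t ht k (hk1 t k hk)).2 (sq_nonneg _)
  · intro t ht r hr hxi N _ hN z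
    refine ha t ht r (le_trans ?_ hr) hxi N hN z
    exact mul_le_mul_of_nonneg_right (by linarith) (by positivity)
  · intro t ht N _ hN hxi
    refine (hd t ht N (le_trans ?_ hN) hxi).trans (Pr_mono (fun _ => ht) fun l hl => ?_)
    · exact mul_le_mul_of_nonneg_right (by linarith) (by positivity)
    · obtain ⟨x, hx⟩ := hl
      refine ⟨x, le_trans ?_ hx⟩
      rcases eq_or_lt_of_le (Real.log_natCast_nonneg N) with h0 | h0
      · rw [← h0]
        norm_num
      · refine div_le_div_of_nonneg_left (Nat.cast_nonneg N) (by positivity) ?_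
        refine mul_le_mul_of_nonneg_right ?_ (by positivity)
        exact mul_le_mul_of_nonneg_right (by linarith) (by linarith)
  · intro t ht N _ hN x y hxy hlt
    refine le_trans ?_ (hl t ht N hN x y hxy hlt)
    refine div_le_div_of_nonneg_right ?_ (by positivity)
    apply Real.exp_le_exp.2
    have : 0 ≤ (C₂ + C₃ + C₄ + C₅) * (1 + t) := by positivity
    nlinarith
  · intro t ht k hk N _ hN
    have hV4 := (hV C₄ hC₄ (by linarith) t ht k (hk1 t k hk)).2
    refine ⟨fun x y hxy => S11_upper n t ht k hk N x y hxy, fun x s hs => ?_, ?_⟩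
    · refine le_trans (Pr_mono (fun _ => ht) fun l hl => ?_) ((hv t ht k hk N hN).1 x s hs)
      exact (mul_le_mul_of_nonneg_right hV4 (Nat.cast_nonneg s)).trans hl
    · refine le_trans (Pr_mono (fun _ => ht) fun l hl => ?_) (hv t ht k hk N hN).2
      obtain ⟨x, hx⟩ := hl
      exact ⟨x, lt_of_le_of_lt (mul_le_mul_of_nonneg_right hV4 (Real.log_natCast_nonneg N)) hx⟩

end

end Pool.Agent.ThinTori.Dim

end

/-! Stirring on the torus, row T2: the theorem on `Fin d → ZMod N` -/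

section

open Finset

namespace Pool.Agent.ThinTori.Dim

section

variable {n N : ℕ} [NeZero N]

theorem T2_same (t : ℝ) (x y : Fin (n + 1) → ZMod N) :
    Pool.Agent.Stirring.expect (n + 1) N t
      (({σ | σ.SameCycle x y} : Set (Equiv.Perm (Fin (n + 1) → ZMod N))).indicator fun _ => 1) =
      P N N n t (fun l => (l.map (gT N N n)).prod.SameCycle (T1_v n N x) (T1_v n N y)) := by
  rw [T1_law]
  unfold P
  refine Pr_congr _ fun l _ => ?_
  rw [Set.mem_ofPred_eq, ← T1_same, Equiv.apply_symm_apply]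

open Classical in
theorem T2_cyc (l : List (Ed N N n)) (x : Fin (n + 1) → ZMod N) :
    (Finset.univ.filter fun y => ((T1_v n N).permCongr.symm
      ((l.map (gT N N n)).prod)).SameCycle x y).card = cyc N N n (T1_v n N x) l := by
  unfold cyc
  refine Finset.card_bij (fun y _ => T1_v n N y) (fun y hy => ?_) (fun y _ y' _ h =>
    (T1_v n N).injective h) (fun u hu => ?_)
  · rw [Finset.mem_filter] at hy ⊢
    refine ⟨Finset.mem_univ _, ?_⟩
    have h := hy.2
    rw [← T1_same, Equiv.apply_symm_apply] at h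
    exact h
  · rw [Finset.mem_filter] at hu
    refine ⟨(T1_v n N).symm u, ?_, (T1_v n N).apply_symm_apply u⟩
    rw [Finset.mem_filter]
    refine ⟨Finset.mem_univ _, ?_⟩
    rw [← T1_same, Equiv.apply_symm_apply, Equiv.apply_symm_apply]
    exact hu.2

theorem T2_nrm (x y : Fin (n + 1) → ZMod N) :
    (Finset.univ.sup fun i => (y i - x i).valMinAbs.natAbs) =
      nrm (T1_v n N y - T1_v n N x) := by
  unfold nrm
  refine le_antisymm (Finset.sup_le fun i _ => ?_) (max_le ?_ (Finset.sup_le fun j _ => ?_))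
  · refine Fin.cases ?_ (fun j => ?_) i
    · exact le_max_left _ _
    · refine le_max_of_le_right ?_
      exact Finset.le_sup (f := fun j : Fin n =>
        ((T1_v n N y - T1_v n N x).2 j).valMinAbs.natAbs) (Finset.mem_univ j)
  · exact Finset.le_sup (f := fun i : Fin (n + 1) => (y i - x i).valMinAbs.natAbs)
      (Finset.mem_univ 0)
  · exact Finset.le_sup (f := fun i : Fin (n + 1) => (y i - x i).valMinAbs.natAbs)
      (Finset.mem_univ j.succ)

end

end Pool.Agent.ThinTori.Dim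

end
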